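import Pool.Agent.P.MP_94fe55_nt.Lat

set_option autoImplicit false

namespace Pool.Agent.P.MP_94fe55_nt

open Filter Topology Set PeriodPair

namespace AddP

variable (L : PeriodPair)

theorem wp_eq (z : ℂ) : ℘[L] z = L.weierstrassPExcept 0 z + 1 / z ^ 2 := by
  have := L.weierstrassPExcept_add 0 z
  simpa using this.symm

theorem wp'_eq (z : ℂ) : ℘'[L] z = L.derivWeierstrassPExcept 0 z - 2 / z ^ 3 := by
  have := L.derivWeierstrassPExcept_sub 0 z
  simpa using this.symm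

theorem preconn : IsPreconnected (L.lattice : Set ℂ)ᶜ :=
  isPreconnected_compl (countable_lattice L)

theorem ev_not_mem (a : ℂ) : ∀ᶠ u in 𝓝[≠] (0 : ℂ), a + u ∉ L.lattice := by
  have h : ContinuousAt (fun u : ℂ => a + u) 0 := by fun_prop
  have h2 := h.preimage_mem_nhds (by simpa using L.compl_lattice_sdiff_singleton_mem_nhds a)
  filter_upwards [mem_nhdsWithin_of_mem_nhds h2, self_mem_nhdsWithin] with u hu h0 hm
  exact hu ⟨hm, by simpa using h0⟩

theorem ev_not_mem0 : ∀ᶠ u in 𝓝[≠] (0 : ℂ), u ∉ L.lattice := by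
  simpa using ev_not_mem L 0

/-- the pole at the origin -/
theorem pole {h : ℂ → ℂ} (hh : ContinuousAt h 0) : ∀ᶠ u in 𝓝[≠] (0 : ℂ), ℘[L] u ≠ h u := by
  have hp := (L.analyticAt_weierstrassPExcept 0).continuousAt
  have h1 : ContinuousAt (fun u : ℂ => 1 + u ^ 2 * (L.weierstrassPExcept 0 u - h u)) 0 := by fun_prop
  have h2 := h1.eventually_ne (y := 0) (by simp)
  filter_upwards [mem_nhdsWithin_of_mem_nhds h2, self_mem_nhdsWithin] with u hu h0 e
  have h0' : u ≠ 0 := h0
  apply hu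
  rw [← e, wp_eq]
  field_simp
  ring

theorem hasDeriv_wp {z : ℂ} (hz : z ∉ L.lattice) : HasDerivAt ℘[L] (℘'[L] z) z := by
  have := (L.analyticOnNhd_weierstrassP z hz).differentiableAt.hasDerivAt
  rwa [deriv_weierstrassP] at this

theorem hasDeriv_wp' {z : ℂ} (hz : z ∉ L.lattice) :
    HasDerivAt ℘'[L] (6 * ℘[L] z ^ 2 - L.g₂ / 2) z := by
  have a1 := L.analyticOnNhd_weierstrassP
  have a2 := L.analyticOnNhd_derivWeierstrassP
  have a3 : AnalyticOnNhd ℂ (fun z => deriv ℘'[L] z - (6 * ℘[L] z ^ 2 - L.g₂ / 2))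
      (L.lattice : Set ℂ)ᶜ := fun x hx => by
    have := a1 x hx
    have := (a2 x hx).deriv
    fun_prop
  have key : ∀ x ∈ (L.lattice : Set ℂ)ᶜ,
      ℘'[L] x * (deriv ℘'[L] x - (6 * ℘[L] x ^ 2 - L.g₂ / 2)) = 0 := by
    intro x hx
    have d1 := hasDeriv_wp L hx
    have d2 := (a2 x hx).differentiableAt.hasDerivAt
    have e : (fun z => ℘'[L] z ^ 2) =ᶠ[𝓝 x] fun z => 4 * ℘[L] z ^ 3 - L.g₂ * ℘[L] z - L.g₃ := by
      filter_upwards [L.isClosed_lattice.isOpen_compl.mem_nhds hx] with y hy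
      exact L.derivWeierstrassP_sq y hy
    have d3 := d2.fun_pow 2
    have d4 := (((d1.fun_pow 3).const_mul 4).fun_sub (d1.const_mul L.g₂)).sub_const L.g₃
    have := (d4.congr_of_eventuallyEq e).unique d3
    simp only [Nat.cast_ofNat, Nat.add_one_sub_one, pow_one] at this
    linear_combination (-1 / 2) * this
  rcases a2.eq_zero_or_eq_zero_of_mul_eq_zero a3 key (preconn L) with h | h
  · exfalso
    have hp := (L.analyticAt_derivWeierstrassPExcept 0).continuousAt
    have h1 : ContinuousAt (fun u : ℂ => u ^ 3 * L.derivWeierstrassPExcept 0 u - 2) 0 := by fun_prop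
    have h2 := h1.eventually_ne (y := 0) (by simp)
    obtain ⟨u, hu, h3, h0⟩ := ((h2.filter_mono (nhdsWithin_le_nhds (s := {0}ᶜ))).and
      ((ev_not_mem0 L).and self_mem_nhdsWithin)).exists
    have h0' : u ≠ 0 := h0
    have h4 := h u h3
    rw [wp'_eq] at h4
    apply hu
    field_simp at h4
    linear_combination h4
  · have := (a2 z hz).differentiableAt.hasDerivAt
    rwa [sub_eq_zero.1 (h z hz)] at this

/-- an analytic function whose derivative vanishes on a punctured neighbourhood is constant -/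
theorem ev_const {g : ℂ → ℂ} (hg : AnalyticAt ℂ g 0) (h : ∀ᶠ z in 𝓝[≠] (0 : ℂ), deriv g z = 0) :
    ∀ᶠ z in 𝓝 (0 : ℂ), g z = g 0 := by
  have h1 := hg.deriv.frequently_zero_iff_eventually_zero.1 h.frequently
  obtain ⟨ε, hε, h2⟩ := Metric.eventually_nhds_iff_ball.1 (h1.and hg.eventually_analyticAt)
  filter_upwards [Metric.ball_mem_nhds (0 : ℂ) hε] with z hz
  exact Metric.isOpen_ball.is_const_of_deriv_eq_zero (convex_ball _ _).isPreconnected
    (fun y hy => (h2 y hy).2.differentiableAt.differentiableWithinAt) (fun y hy => (h2 y hy).1) hz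
    (Metric.mem_ball_self hε)

theorem xi_deriv {s z : ℂ} (hz : z ∉ L.lattice) (hw : s - z ∉ L.lattice)
    (hne : ℘[L] z ≠ ℘[L] (s - z)) :
    HasDerivAt (fun z => ((℘'[L] z - ℘'[L] (s - z)) / (2 * (℘[L] z - ℘[L] (s - z)))) ^ 2 -
      ℘[L] z - ℘[L] (s - z)) 0 z := by
  have hs : HasDerivAt (fun z : ℂ => s - z) (-1) z := (hasDerivAt_id z).const_sub s
  have dP := hasDeriv_wp L hz
  have dR := hasDeriv_wp' L hz
  have dQ : HasDerivAt (fun z => ℘[L] (s - z)) _ z := (hasDeriv_wp L hw).comp z hs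
  have dS : HasDerivAt (fun z => ℘'[L] (s - z)) _ z := (hasDeriv_wp' L hw).comp z hs
  have hne' := mul_ne_zero two_ne_zero (sub_ne_zero.2 hne)
  have e1 := L.derivWeierstrassP_sq z hz
  have e2 := L.derivWeierstrassP_sq _ hw
  have dm := ((dR.fun_sub dS).fun_div ((dP.fun_sub dQ).const_mul 2) hne').congr_deriv
    (g' := ℘[L] z - ℘[L] (s - z)) (by
      rw [div_eq_iff (pow_ne_zero 2 hne')]
      linear_combination (-2) * (e1 - e2))
  refine (((dm.fun_pow 2).fun_sub dP).fun_sub dQ).congr_deriv ?_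
  have := div_mul_cancel₀ (℘'[L] z - ℘'[L] (s - z)) hne'
  simp only [Nat.cast_ofNat, Nat.add_one_sub_one, pow_one]
  linear_combination this

/-- numerator and denominator of the chord expression, multiplied by `z ^ 4` -/
noncomputable def num (z p q e : ℂ) : ℂ :=
  -4 * e * z + e ^ 2 * z ^ 4 - 4 * (3 * p - q) - 4 * z ^ 2 * (2 * (p + q) * (p - q) + (p - q) ^ 2) -
    4 * z ^ 4 * (p + q) * (p - q) ^ 2

noncomputable def den (z p q : ℂ) : ℂ := 4 * (1 + z ^ 2 * (p - q)) ^ 2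

theorem num_eq {z : ℂ} (hz : z ≠ 0) (p q r t : ℂ) :
    num z p q (r - t) = z ^ 4 * ((r - 2 / z ^ 3 - t) ^ 2 -
      4 * (p + 1 / z ^ 2 + q) * (p + 1 / z ^ 2 - q) ^ 2) := by
  simp only [num]
  field_simp
  ring

theorem den_eq {z : ℂ} (hz : z ≠ 0) (p q : ℂ) :
    den z p q = z ^ 4 * (4 * (p + 1 / z ^ 2 - q) ^ 2) := by
  simp only [den]
  field_simp
  ring

theorem add_x_aux {s z : ℂ} (hs : s ∉ L.lattice) (hz : z ∉ L.lattice) (hw : s - z ∉ L.lattice) :
    (℘'[L] z - ℘'[L] (s - z)) ^ 2 =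
      4 * (℘[L] s + ℘[L] z + ℘[L] (s - z)) * (℘[L] z - ℘[L] (s - z)) ^ 2 := by
  set U : Set ℂ := ((L.lattice \ {0} : Set ℂ) ∪ (fun l => s - l) '' L.lattice)ᶜ with hU
  have hmem : ∀ x, x ∈ U ↔ x ∉ (L.lattice \ {0} : Set ℂ) ∧ s - x ∉ L.lattice := by
    intro x
    simp only [hU, mem_compl_iff, mem_union, not_or, mem_image, SetLike.mem_coe]
    refine and_congr_right fun _ => not_congr ⟨?_, fun h => ⟨_, h, by ring⟩⟩
    rintro ⟨l, hl, rfl⟩
    simpa using hl
  have hUc : IsPreconnected U := isPreconnected_compl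
    (((countable_lattice L).mono sdiff_subset).union ((countable_lattice L).image _))
  have h0 : (0 : ℂ) ∈ U := (hmem 0).2 ⟨by simp, by simpa using hs⟩
  let n : ℂ → ℂ := fun z => num z (L.weierstrassPExcept 0 z) (℘[L] (s - z))
    (L.derivWeierstrassPExcept 0 z - ℘'[L] (s - z))
  let d : ℂ → ℂ := fun z => den z (L.weierstrassPExcept 0 z) (℘[L] (s - z))
  have an : ∀ x ∈ U, AnalyticAt ℂ n x ∧ AnalyticAt ℂ d x ∧
      AnalyticAt ℂ (fun z => ℘[L] (s - z)) x := by
    intro x hx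
    obtain ⟨h1, h2⟩ := (hmem x).1 hx
    have a1 := L.analyticOnNhd_weierstrassPExcept 0 x h1
    have a2 := L.analyticOnNhd_derivWeierstrassPExcept 0 x h1
    have a0 : AnalyticAt ℂ (fun z : ℂ => s - z) x := by fun_prop
    have a3 : AnalyticAt ℂ (fun z => ℘[L] (s - z)) x :=
      (L.analyticOnNhd_weierstrassP _ h2).comp a0
    have a4 : AnalyticAt ℂ (fun z => ℘'[L] (s - z)) x :=
      (L.analyticOnNhd_derivWeierstrassP _ h2).comp a0
    refine ⟨?_, ?_, a3⟩
    · simp only [n, num]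
      fun_prop
    · simp only [d, den]
      fun_prop
  obtain ⟨n0, d0, q0⟩ := an 0 h0
  have hd0 : d 0 = 4 := by simp [d, den]
  have hn0 : n 0 = 4 * ℘[L] s := by simp [n, num]
  have hg : AnalyticAt ℂ (fun z => n z / d z) 0 := n0.div d0 (by rw [hd0]; norm_num)
  have ev : ∀ᶠ u in 𝓝[≠] (0 : ℂ), u ≠ 0 ∧ u ∉ L.lattice ∧ s - u ∉ L.lattice ∧
      ℘[L] u ≠ ℘[L] (s - u) := by
    have h1 : ContinuousAt (fun u : ℂ => s - u) 0 := by fun_prop
    have h2 := h1.preimage_mem_nhds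
      (by simpa using L.isClosed_lattice.isOpen_compl.mem_nhds hs)
    filter_upwards [self_mem_nhdsWithin, ev_not_mem0 L, mem_nhdsWithin_of_mem_nhds h2,
      pole L q0.continuousAt] with u a b c e using ⟨a, b, c, e⟩
  have e1 : (fun z => n z / d z) =ᶠ[𝓝[≠] 0] fun z =>
      ((℘'[L] z - ℘'[L] (s - z)) / (2 * (℘[L] z - ℘[L] (s - z)))) ^ 2 - ℘[L] z - ℘[L] (s - z) := by
    filter_upwards [ev] with u ⟨a, _, _, e⟩
    have e' := sub_ne_zero.2 e
    simp only [n, d]
    rw [num_eq a, den_eq a, ← wp_eq, ← wp'_eq]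
    field_simp
    ring
  have e2 := ev_const hg (by
    filter_upwards [e1.nhdsNE_deriv, ev] with u hu ⟨_, b, c, e⟩
    rw [hu, (xi_deriv L b c e).deriv])
  have e3 : (fun z => n z - ℘[L] s * d z) =ᶠ[𝓝 0] 0 := by
    filter_upwards [e2, d0.continuousAt.eventually_ne (y := 0) (by rw [hd0]; norm_num)] with u hu h
    rw [hn0, hd0, div_eq_iff h] at hu
    simp only [Pi.zero_apply]
    linear_combination hu
  have a5 : AnalyticOnNhd ℂ (fun z => n z - ℘[L] s * d z) U := fun x hx => by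
    obtain ⟨a, b, -⟩ := an x hx
    fun_prop
  have e4 := a5.eqOn_zero_of_preconnected_of_eventuallyEq_zero hUc h0 e3
    ((hmem z).2 ⟨fun h => hz h.1, hw⟩)
  have z0 : z ≠ 0 := by rintro rfl; exact hz (zero_mem _)
  simp only [n, d, Pi.zero_apply] at e4
  rw [num_eq z0, den_eq z0, ← wp_eq, ← wp'_eq] at e4
  apply mul_left_cancel₀ (pow_ne_zero 4 z0)
  linear_combination e4

theorem add_x {z w : ℂ} (hz : z ∉ L.lattice) (hw : w ∉ L.lattice) (hs : z + w ∉ L.lattice)
    (hne : ℘[L] z ≠ ℘[L] w) :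
    ℘[L] (z + w) = ((℘'[L] z - ℘'[L] w) / (2 * (℘[L] z - ℘[L] w))) ^ 2 - ℘[L] z - ℘[L] w := by
  have := add_x_aux L hs hz (by simpa using hw)
  rw [add_sub_cancel_left] at this
  have e' := sub_ne_zero.2 hne
  rw [div_pow, this]
  field_simp
  ring

theorem add_y {z w : ℂ} (hz : z ∉ L.lattice) (hw : w ∉ L.lattice) (hs : z + w ∉ L.lattice)
    (hne : ℘[L] z ≠ ℘[L] w) :
    ℘'[L] (z + w) = -2 * ((℘'[L] z - ℘'[L] w) / (2 * (℘[L] z - ℘[L] w))) *
      (℘[L] (z + w) - ℘[L] z) - ℘'[L] z := by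
  have dP := hasDeriv_wp L hz
  have dR := hasDeriv_wp' L hz
  have hne' := mul_ne_zero two_ne_zero (sub_ne_zero.2 hne)
  have e1 := L.derivWeierstrassP_sq z hz
  have e2 := L.derivWeierstrassP_sq _ hw
  have hm := div_mul_cancel₀ (℘'[L] z - ℘'[L] w) hne'
  have dm := ((dR.sub_const (℘'[L] w)).fun_div ((dP.sub_const (℘[L] w)).const_mul 2)
    hne').congr_deriv (g' := 2 * ℘[L] z + ℘[L] w -
      ((℘'[L] z - ℘'[L] w) / (2 * (℘[L] z - ℘[L] w))) ^ 2) (by
      rw [div_eq_iff (pow_ne_zero 2 hne')]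
      generalize (℘'[L] z - ℘'[L] w) / (2 * (℘[L] z - ℘[L] w)) = m at hm ⊢
      linear_combination (-1) * (e1 - e2) +
        (m * (2 * (℘[L] z - ℘[L] w)) + ℘'[L] z - ℘'[L] w) * hm)
  have d1 := ((dm.fun_pow 2).fun_sub dP).sub_const (℘[L] w)
  have d2 : HasDerivAt (fun x => ℘[L] (x + w)) (℘'[L] (z + w)) z :=
    (hasDeriv_wp L hs).comp_add_const z w
  have ev : (fun x => ℘[L] (x + w)) =ᶠ[𝓝 z] fun x =>
      ((℘'[L] x - ℘'[L] w) / (2 * (℘[L] x - ℘[L] w))) ^ 2 - ℘[L] x - ℘[L] w := by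
    have h1 : ContinuousAt (fun u : ℂ => u + w) z := by fun_prop
    filter_upwards [L.isClosed_lattice.isOpen_compl.mem_nhds hz,
      h1.preimage_mem_nhds (L.isClosed_lattice.isOpen_compl.mem_nhds hs),
      dP.continuousAt.eventually_ne hne] with u a b c using add_x L a hw b c
  have := (d1.congr_of_eventuallyEq ev).unique d2
  simp only [Nat.cast_ofNat, Nat.add_one_sub_one, pow_one] at this
  rw [add_x L hz hw hs hne]
  linear_combination -this

/-- `℘` takes no value on a whole punctured neighbourhood -/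
theorem ev_ne (w c : ℂ) : ∀ᶠ u in 𝓝[≠] (0 : ℂ), ℘[L] (w + u) ≠ c := by
  have hp := pole L (h := fun _ => c) continuousAt_const
  by_cases hw : w ∈ L.lattice
  · filter_upwards [hp] with u hu
    rwa [add_comm, L.weierstrassP_add_coe u ⟨w, hw⟩]
  · have a1 : AnalyticAt ℂ (fun u => ℘[L] (w + u) - c) 0 := by
      have : AnalyticAt ℂ (fun u => ℘[L] (w + u)) 0 :=
        (L.analyticOnNhd_weierstrassP (w + 0) (by simpa using hw)).comp (by fun_prop)
      fun_prop
    rcases a1.eventually_eq_zero_or_eventually_ne_zero with h | h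
    · exfalso
      have a2 : AnalyticOnNhd ℂ (fun u => ℘[L] u - c) (L.lattice : Set ℂ)ᶜ := fun x hx => by
        have := L.analyticOnNhd_weierstrassP x hx
        fun_prop
      have t : Tendsto (fun x : ℂ => x - w) (𝓝 w) (𝓝 0) := by
        have : ContinuousAt (fun x : ℂ => x - w) w := by fun_prop
        simpa [ContinuousAt] using this
      have h2 := a2.eqOn_zero_of_preconnected_of_eventuallyEq_zero (preconn L) hw (by
        filter_upwards [t.eventually h] with x hx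
        simpa using hx)
      obtain ⟨u, h3, h4⟩ := (hp.and (ev_not_mem0 L)).exists
      exact h3 (sub_eq_zero.1 (h2 h4))
    · exact h.mono fun u hu => sub_ne_zero.1 hu

open Classical in
theorem wp_surj (c : ℂ) : ∃ z, z ∉ L.lattice ∧ ℘[L] z = c := by
  by_contra hc
  push Not at hc
  let h : ℂ → ℂ := fun z => if z ∈ L.lattice then 0 else (℘[L] z - c)⁻¹
  have per : ∀ (z : ℂ) (l : L.lattice), h (z + l) = h z := by
    intro z l
    simp only [h, L.weierstrassP_add_coe, L.lattice.add_mem_iff_left l.2]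
  have a0 : AnalyticAt ℂ h 0 := by
    have hp := L.analyticAt_weierstrassPExcept 0
    have a1 : AnalyticAt ℂ (fun u : ℂ => 1 + u ^ 2 * (L.weierstrassPExcept 0 u - c)) 0 := by
      fun_prop
    have a2 : AnalyticAt ℂ
        (fun u : ℂ => u ^ 2 / (1 + u ^ 2 * (L.weierstrassPExcept 0 u - c))) 0 :=
      AnalyticAt.div (f := fun u : ℂ => u ^ 2) (by fun_prop) a1 (by simp)
    refine a2.congr ?_
    filter_upwards [L.compl_lattice_sdiff_singleton_mem_nhds 0] with u hu
    by_cases u0 : u = 0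
    · simp [h, u0]
    · have hu' : u ∉ L.lattice := fun hm => hu ⟨hm, u0⟩
      have e : 1 + u ^ 2 * (L.weierstrassPExcept 0 u - c) = u ^ 2 * (℘[L] u - c) := by
        rw [wp_eq]
        field_simp
        ring
      simp only [h, if_neg hu']
      rw [e]
      field_simp
  have an : ∀ x, AnalyticAt ℂ h x := by
    intro x
    by_cases hx : x ∈ L.lattice
    · rw [← sub_self x] at a0
      have := a0.comp (f := fun y => y - x) (by fun_prop)
      refine this.congr (Eventually.of_forall fun y => ?_)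
      have := per (y - x) ⟨x, hx⟩
      simpa using this.symm
    · have a1 : AnalyticAt ℂ (fun u => ℘[L] u - c) x := by
        have := L.analyticOnNhd_weierstrassP x hx
        fun_prop
      refine (a1.inv (sub_ne_zero.2 (hc x hx))).congr ?_
      filter_upwards [L.isClosed_lattice.isOpen_compl.mem_nhds hx] with y hy
      have hy' : y ∉ L.lattice := hy
      simp [h, hy']
  have hd : Differentiable ℂ h := fun x => (an x).differentiableAt
  have := hd.apply_eq_apply_of_bounded (IsZLattice.isCompact_range_of_periodic L.lattice _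
    hd.continuous fun z w hw => per z ⟨w, hw⟩).isBounded (L.ω₁ / 2) 0
  simp only [h, if_neg L.ω₁_div_two_notMem_lattice, if_pos (zero_mem _), inv_eq_zero] at this
  exact hc _ L.ω₁_div_two_notMem_lattice (sub_eq_zero.1 this)

variable {L} {W : WeierstrassCurve ℂ}

theorem exists_map (hΔ : W.Δ ≠ 0) (h4 : 12 * L.g₂ = W.c₄) (h6 : 216 * L.g₃ = W.c₆) :
    ∃ f : ℂ → Pt W, (∀ z ∈ L.lattice, f z = 0) ∧ ∀ z ∉ L.lattice, f z ≠ 0 ∧
      px (f z) = ℘[L] z - W.b₂ / 12 ∧ pY (f z) = ℘'[L] z := by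
  have : ∀ z : ℂ, ∃ P : Pt W, (z ∈ L.lattice → P = 0) ∧ (z ∉ L.lattice → P ≠ 0 ∧
      px P = ℘[L] z - W.b₂ / 12 ∧ pY P = ℘'[L] z) := by
    intro z
    by_cases hz : z ∈ L.lattice
    · exact ⟨0, fun _ => rfl, fun h => absurd hz h⟩
    · have e1 := L.derivWeierstrassP_sq z hz
      rw [← cubic_eq h4 h6, F3_X_eval] at e1
      obtain ⟨P, h1, h2, h3⟩ := exists_pt hΔ (x := ℘[L] z - W.b₂ / 12)
        (y := (℘'[L] z - W.a₁ * (℘[L] z - W.b₂ / 12) - W.a₃) / 2) (by
          generalize ℘[L] z - W.b₂ / 12 = x at e1 ⊢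
          simp only [WeierstrassCurve.b₂, WeierstrassCurve.b₄, WeierstrassCurve.b₆] at e1
          linear_combination (1 / 4) * e1)
      refine ⟨P, fun h => absurd h hz, fun _ => ⟨h1, h2, ?_⟩⟩
      rw [pY, h2, h3]
      ring
  choose f h1 h2 using this
  exact ⟨f, h1, h2⟩

theorem pt_ext' {P Q : Pt W} (hP : P ≠ 0) (hQ : Q ≠ 0) (hx : px P = px Q) (hy : pY P = pY Q) :
    P = Q := by
  refine pt_ext hP hQ hx ?_
  simp only [pY, hx] at hy
  linear_combination (1 / 2) * hy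

end AddP

open AddP in
theorem unif : S_Unif := by
  intro W L hΔ h4 h6
  obtain ⟨f, f0, f1⟩ := exists_map hΔ h4 h6
  have per : ∀ z ∈ L.lattice, ∀ w, f (z + w) = f w := by
    intro z hz w
    by_cases hw : w ∈ L.lattice
    · rw [f0 w hw, f0 _ (add_mem hz hw)]
    · have hs : z + w ∉ L.lattice := fun h => hw ((L.lattice.add_mem_iff_right hz).1 h)
      obtain ⟨a1, a2, a3⟩ := f1 _ hs
      obtain ⟨b1, b2, b3⟩ := f1 _ hw
      refine pt_ext' a1 b1 ?_ ?_
      · rw [a2, b2, add_comm, L.weierstrassP_add_coe w ⟨z, hz⟩]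
      · rw [a3, b3, add_comm, L.derivWeierstrassP_add_coe w ⟨z, hz⟩]
  have gen : ∀ z w, z ∉ L.lattice → w ∉ L.lattice → z + w ∉ L.lattice → ℘[L] z ≠ ℘[L] w →
      f (z + w) = f z + f w := by
    intro z w hz hw hs hne
    obtain ⟨a1, a2, a3⟩ := f1 _ hz
    obtain ⟨b1, b2, b3⟩ := f1 _ hw
    obtain ⟨c1, c2, c3⟩ := f1 _ hs
    obtain ⟨d1, m, d2, d3, d4⟩ := add_chord a1 b1 (by
      rw [a2, b2]
      exact fun h => hne (sub_left_injective h))
    have hne' := mul_ne_zero two_ne_zero (sub_ne_zero.2 hne)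
    have ex := add_x L hz hw hs hne
    have ey := add_y L hz hw hs hne
    have hm : (℘'[L] z - ℘'[L] w) / (2 * (℘[L] z - ℘[L] w)) = m + W.a₁ / 2 := by
      rw [div_eq_iff hne', ← a3, ← b3]
      simp only [pY]
      rw [a2, b2] at d2 ⊢
      linear_combination (-2) * d2
    rw [hm] at ex ey
    have e1 : px (f (z + w)) = px (f z + f w) := by
      rw [d3, a2, b2, c2, ex]
      simp only [WeierstrassCurve.b₂]
      ring
    refine pt_ext' c1 d1 e1 ?_
    rw [c3, ey, pY, d4, ← e1, c2, ← a3, pY, a2]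
    ring
  have near : ∀ z w, ∀ᶠ u in 𝓝[≠] (0 : ℂ), f (z + (w + u)) = f z + f (w + u) := by
    intro z w
    by_cases hz : z ∈ L.lattice
    · exact Eventually.of_forall fun u => by rw [per z hz, f0 z hz, zero_add]
    · filter_upwards [ev_not_mem L w, ev_not_mem L (z + w), ev_ne L w (℘[L] z)] with u a b c
      exact gen _ _ hz a (by rwa [← add_assoc]) c.symm
  have add : ∀ z w, f (z + w) = f z + f w := by
    intro z w
    obtain ⟨u, a, b, c⟩ := ((near z w).and ((near (z + w) 0).and (near w 0))).exists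
    rw [zero_add] at b c
    rw [← add_assoc, b, c, ← add_assoc] at a
    exact add_right_cancel a
  let π : ℂ →+ Pt W := AddMonoidHom.mk' f add
  refine ⟨π, hΔ, h4, h6, fun P => ?_, fun z => ⟨fun h => ?_, f0 z⟩, fun z hz => (f1 z hz).2.1,
    fun z hz => (f1 z hz).2.2⟩
  · by_cases hP : P = 0
    · exact ⟨0, by rw [hP, map_zero]⟩
    · obtain ⟨z, hz, e⟩ := wp_surj L (px P + W.b₂ / 12)
      obtain ⟨a1, a2, -⟩ := f1 z hz
      rcases (px_eq_iff hP a1).1 (by rw [a2, e]; ring) with h | h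
      · exact ⟨z, h.symm⟩
      · exact ⟨-z, by rw [map_neg]; exact h.symm⟩
  · by_contra hz
    exact (f1 z hz).1 h

end Pool.Agent.P.MP_94fe55_nt
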