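import Pool.Agent.P.MP_94fe55_nt.NearRho

set_option autoImplicit false

namespace Pool.Agent.P.MP_94fe55_nt

namespace ArchP

open NearP Filter

theorem gg_shift (D : ℕ) (a β t : ℤ) :
    gg D (β + a * t) = gg D β + a * (t * (2 * β + ((D % 2 : ℕ) : ℤ)) + a * t ^ 2) := by
  simp only [gg]; ring

theorem prim_shift {D : ℕ} {a β : ℤ} (h : Prim D a β) (t : ℤ) : Prim D a (β + a * t) := by
  obtain ⟨⟨ha, hd⟩, hp⟩ := h
  refine ⟨⟨ha, ?_⟩, fun d h1 h2 h3 => ?_⟩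
  · rw [gg_shift]; exact dvd_add hd (dvd_mul_right _ _)
  · have e : 2 * (β + a * t) + ((D % 2 : ℕ) : ℤ) = (2 * β + ((D % 2 : ℕ) : ℤ)) + a * (2 * t) := by
      ring
    rw [e] at h2
    have h2' : d ∣ 2 * β + ((D % 2 : ℕ) : ℤ) := (dvd_add_left (h1.mul_right _)).1 h2
    rw [gg_shift, Int.add_mul_ediv_left _ _ ha.ne'] at h3
    exact hp d h1 h2' ((dvd_add_left (dvd_add (h2'.mul_left _) (h1.mul_right _))).1 h3)

theorem prim_one (D : ℕ) : Prim D 1 0 := ⟨⟨one_pos, one_dvd _⟩, fun _ h _ _ => h⟩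

open Classical in
/-- primitive forms modulo translation, first coefficient in `A` -/
noncomputable def SS (D : ℕ) (A : Finset ℕ) : Finset (Σ _ : ℕ, ℕ) :=
  A.sigma fun a => (Finset.range a).filter (fun β : ℕ => Prim D a β)

theorem mem_SS {D : ℕ} {A : Finset ℕ} {x : Σ _ : ℕ, ℕ} :
    x ∈ SS D A ↔ x.1 ∈ A ∧ x.2 < x.1 ∧ Prim D x.1 x.2 := by
  simp [SS]

theorem sum_SS (D : ℕ) (A : Finset ℕ) (f : ℕ → ℝ) :
    ∑ x ∈ SS D A, f x.1 = ∑ a ∈ A, (rr D a : ℝ) * f a := by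
  classical
  rw [SS, Finset.sum_sigma]
  refine Finset.sum_congr rfl fun a _ => ?_
  simp only [Finset.sum_const, nsmul_eq_mul, rr]

theorem card_SS (D : ℕ) (A : Finset ℕ) : ((SS D A).card : ℝ) = ∑ a ∈ A, (rr D a : ℝ) := by
  have := sum_SS D A (fun _ => 1)
  simpa using this

theorem card_half {D : ℕ} (hD : Disc D) (W : Finset (ℤ × ℤ))
    (hW : ∀ w ∈ W, Prim D w.1 w.2 ∧ Reduced D w.1 w.2)
    (hc : ∀ w ∈ W, ∀ w' ∈ W, w.1 = w'.1 → |w.2 - w'.2| < w.1) :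
    W.card ≤ (SS D ((Finset.Icc 1 D).filter (fun a => 3 * a ^ 2 ≤ D))).card := by
  refine Finset.card_le_card_of_injOn
    (fun w : ℤ × ℤ => (⟨w.1.toNat, (w.2 % w.1).toNat⟩ : Σ _ : ℕ, ℕ)) ?_ ?_
  · rintro ⟨a, β⟩ hw
    obtain ⟨hp, hr⟩ := hW _ hw
    obtain ⟨ha, hb, hc', h⟩ := data hD hp.1 hr
    have h3 := three_sq_le ha hb hc' h
    simp only at ha h3 hp
    have e1 : ((a.toNat : ℕ) : ℤ) = a := Int.toNat_of_nonneg ha.le
    have h0 := Int.emod_nonneg β ha.ne'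
    have h1 := Int.emod_lt_of_pos β ha
    have e2 : (((β % a).toNat : ℕ) : ℤ) = β % a := Int.toNat_of_nonneg h0
    rw [Finset.mem_coe, mem_SS]
    simp only [Finset.mem_filter, Finset.mem_Icc]
    have h4 : 3 * a.toNat ^ 2 ≤ D := by
      have : 3 * ((a.toNat : ℕ) : ℤ) ^ 2 ≤ (D : ℤ) := by rw [e1]; exact h3
      exact_mod_cast this
    refine ⟨⟨⟨by omega, by nlinarith⟩, h4⟩, by omega, ?_⟩
    rw [e1, e2, Int.emod_def, sub_eq_add_neg, ← mul_neg]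
    exact prim_shift hp _
  · rintro ⟨a, β⟩ hw ⟨a', β'⟩ hw' e
    have ha : 0 < a := (hW _ hw).1.1.1
    have ha' : 0 < a' := (hW _ hw').1.1.1
    simp only [Sigma.mk.injEq, heq_eq_eq] at e
    have e1 : a = a' := by omega
    subst e1
    have h0 := Int.emod_nonneg β ha.ne'
    have h0' := Int.emod_nonneg β' ha.ne'
    have e2 : β % a = β' % a := by omega
    have h1 := hc _ hw _ hw' rfl
    have h2 : a ∣ β - β' := Int.ModEq.dvd (show β' ≡ β [ZMOD a] from e2.symm)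
    have := Int.eq_zero_of_abs_lt_dvd h2 h1
    simp only [Prod.mk.injEq, true_and]
    linarith

theorem card_le {D : ℕ} (hD : Disc D) (W : Finset (ℤ × ℤ))
    (hW : ∀ w ∈ W, Prim D w.1 w.2 ∧ Reduced D w.1 w.2) :
    (W.card : ℝ) ≤ 2 * ∑ a ∈ (Finset.Icc 1 D).filter (fun a => 3 * a ^ 2 ≤ D), (rr D a : ℝ) := by
  classical
  have key : ∀ w ∈ W, -w.1 ≤ 2 * w.2 + ((D % 2 : ℕ) : ℤ) ∧ 2 * w.2 + ((D % 2 : ℕ) : ℤ) ≤ w.1 ∧
      0 < w.1 := fun w hw =>
    ⟨(abs_le.1 (hW w hw).2.1).1, (abs_le.1 (hW w hw).2.1).2, (hW w hw).1.1.1⟩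
  have h1 := card_half hD (W.filter fun w => 2 * w.2 + ((D % 2 : ℕ) : ℤ) ≤ 0)
    (fun w hw => hW w (Finset.mem_filter.1 hw).1) (fun w hw w' hw' e => by
      obtain ⟨f1, f2⟩ := Finset.mem_filter.1 hw
      obtain ⟨f3, f4⟩ := Finset.mem_filter.1 hw'
      have := key w f1
      have := key w' f3
      rw [abs_lt]; omega)
  have h2 := card_half hD (W.filter fun w => ¬ (2 * w.2 + ((D % 2 : ℕ) : ℤ) ≤ 0))
    (fun w hw => hW w (Finset.mem_filter.1 hw).1) (fun w hw w' hw' e => by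
      obtain ⟨f1, f2⟩ := Finset.mem_filter.1 hw
      obtain ⟨f3, f4⟩ := Finset.mem_filter.1 hw'
      have := key w f1
      have := key w' f3
      rw [abs_lt]; omega)
  have h3 := Finset.card_filter_add_card_filter_not (s := W)
    (fun w => 2 * w.2 + ((D % 2 : ℕ) : ℤ) ≤ 0)
  rw [← card_SS]
  have : W.card ≤ 2 * (SS D ((Finset.Icc 1 D).filter (fun a => 3 * a ^ 2 ≤ D))).card := by omega
  exact_mod_cast this

/-- the representative in the strip -/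
def phi (D : ℕ) (x : Σ _ : ℕ, ℕ) : ℤ × ℤ :=
  (x.1, if 2 * x.2 + D % 2 ≤ x.1 then (x.2 : ℤ) else (x.2 : ℤ) - x.1)

/-- the forms with `Im τ > 1` -/
noncomputable def P1 (D : ℕ) : Finset (ℤ × ℤ) :=
  (SS D ((Finset.Icc 1 D).filter (fun a => 4 * a ^ 2 < D))).image (phi D)

theorem phi_inj (D : ℕ) (A : Finset ℕ) : Set.InjOn (phi D) (SS D A) := by
  rintro ⟨a, b⟩ h ⟨a', b'⟩ h' e
  have h1 := (mem_SS.1 h).2.1
  have h2 := (mem_SS.1 h').2.1
  simp only [phi, Prod.mk.injEq] at e h1 h2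
  obtain ⟨e1, e2⟩ := e
  have e3 : a = a' := by exact_mod_cast e1
  subst e3
  have : b = b' := by split_ifs at e2 <;> omega
  rw [this]

theorem sum_P1 (D : ℕ) : ∑ w ∈ P1 D, (1 : ℝ) / (w.1 : ℝ) =
    ∑ a ∈ (Finset.Icc 1 D).filter (fun a => 4 * a ^ 2 < D), (rr D a : ℝ) / a := by
  rw [P1, Finset.sum_image (phi_inj D _)]
  have := sum_SS D ((Finset.Icc 1 D).filter (fun a => 4 * a ^ 2 < D)) (fun a => (1 : ℝ) / a)
  simp only [mul_one_div] at this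
  rw [← this]
  simp [phi]

theorem mem_P1 {D : ℕ} {w : ℤ × ℤ} (hw : w ∈ P1 D) :
    Prim D w.1 w.2 ∧ 4 * w.1 ^ 2 < (D : ℤ) ∧ -w.1 < 2 * w.2 + ((D % 2 : ℕ) : ℤ) ∧
      2 * w.2 + ((D % 2 : ℕ) : ℤ) ≤ w.1 := by
  obtain ⟨⟨a, b⟩, hx, rfl⟩ := Finset.mem_image.1 hw
  obtain ⟨h1, h2, h3⟩ := mem_SS.1 hx
  simp only [Finset.mem_filter, Finset.mem_Icc] at h1 h2 h3
  have h4 : 4 * (a : ℤ) ^ 2 < (D : ℤ) := by exact_mod_cast h1.2
  simp only [phi]
  split_ifs with h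
  · exact ⟨h3, h4, by omega, by omega⟩
  · refine ⟨?_, h4, by omega, by omega⟩
    have := prim_shift h3 (-1)
    rwa [mul_neg_one, ← sub_eq_add_neg] at this

theorem red_P1 {D : ℕ} (hD : Disc D) {w : ℤ × ℤ} (hw : w ∈ P1 D) : Reduced D w.1 w.2 := by
  obtain ⟨-, h2, h3, h4⟩ := mem_P1 hw
  refine ⟨abs_le.2 ⟨h3.le, h4⟩, ?_⟩
  have := four_gg hD w.2
  nlinarith [sq_nonneg (2 * w.2 + ((D % 2 : ℕ) : ℤ))]

theorem strip_P1 {D : ℕ} {w : ℤ × ℤ} (hw : w ∈ P1 D) :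
    1 < (tau D w.1 w.2).im ∧ -(1 / 2) < (tau D w.1 w.2).re ∧ (tau D w.1 w.2).re ≤ 1 / 2 := by
  obtain ⟨h1, h2, h3, h4⟩ := mem_P1 hw
  have ha : (0 : ℝ) < w.1 := by exact_mod_cast h1.1.1
  have h2' : (2 * (w.1 : ℝ)) ^ 2 < D := by
    have : (2 * w.1) ^ 2 < (D : ℤ) := by linarith
    exact_mod_cast this
  have h3' : -(w.1 : ℝ) < ((2 * w.2 + ((D % 2 : ℕ) : ℤ) : ℤ) : ℝ) := by exact_mod_cast h3
  have h4' : ((2 * w.2 + ((D % 2 : ℕ) : ℤ) : ℤ) : ℝ) ≤ (w.1 : ℝ) := by exact_mod_cast h4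
  rw [tau_im, tau_re]
  refine ⟨?_, ?_, ?_⟩
  · rw [lt_div_iff₀ (by linarith), one_mul]
    exact Real.lt_sqrt_of_sq_lt h2'
  · rw [lt_div_iff₀ (by linarith)]; linarith
  · rw [div_le_iff₀ (by linarith)]; linarith

theorem tau_inj {D : ℕ} (hD : 0 < D) {a β a' β' : ℤ} (ha : 0 < a) (ha' : 0 < a')
    (e : tau D a β = tau D a' β') : (a, β) = (a', β') := by
  have h1 := congrArg Complex.im e
  have h2 := congrArg Complex.re e
  rw [tau_im, tau_im] at h1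
  rw [tau_re, tau_re] at h2
  have hX : 0 < Real.sqrt D := Real.sqrt_pos.2 (by exact_mod_cast hD)
  have f : (0 : ℝ) < a := by exact_mod_cast ha
  have f' : (0 : ℝ) < a' := by exact_mod_cast ha'
  rw [div_eq_div_iff (by linarith) (by linarith)] at h1
  have e1 : (a : ℝ) = a' := by
    have := mul_left_cancel₀ hX.ne' h1
    linarith
  have e2 : a = a' := by exact_mod_cast e1
  subst e2
  rw [div_left_inj' (by linarith)] at h2
  have : 2 * β + ((D % 2 : ℕ) : ℤ) = 2 * β' + ((D % 2 : ℕ) : ℤ) := by exact_mod_cast h2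
  simp only [Prod.mk.injEq, true_and]
  omega

theorem fund {D : ℕ} (hD : Disc D) {a β : ℤ} (hF : Form D a β) (hR : Reduced D a β) :
    0 < (tau D a β).im ∧ |(tau D a β).re| ≤ 1 / 2 ∧ 1 ≤ ‖tau D a β‖ := by
  obtain ⟨ha, hb, hc, h⟩ := data hD hF hR
  have f : (0 : ℝ) < a := by exact_mod_cast ha
  have hX : 0 < Real.sqrt D := Real.sqrt_pos.2 (by exact_mod_cast hD.1)
  have hX2 : Real.sqrt D ^ 2 = D := Real.sq_sqrt (Nat.cast_nonneg D)
  have hb' : |((2 * β + ((D % 2 : ℕ) : ℤ) : ℤ) : ℝ)| ≤ a := by exact_mod_cast hb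
  refine ⟨by rw [tau_im]; positivity, ?_, ?_⟩
  · rw [tau_re, abs_div, abs_of_pos (by linarith : (0 : ℝ) < 2 * a), div_le_iff₀ (by linarith)]
    linarith
  · have h1 : ‖tau D a β‖ ^ 2 = (tau D a β).re ^ 2 + (tau D a β).im ^ 2 := by
      rw [Complex.sq_norm, Complex.normSq_apply]; ring
    have h2 : 4 * a ^ 2 ≤ (2 * β + ((D % 2 : ℕ) : ℤ)) ^ 2 + D := by nlinarith
    have h3 : 4 * (a : ℝ) ^ 2 ≤ ((2 * β + ((D % 2 : ℕ) : ℤ) : ℤ) : ℝ) ^ 2 + D := by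
      exact_mod_cast h2
    rw [tau_re, tau_im, div_pow, div_pow, hX2, ← add_div] at h1
    have h4 : 1 ≤ ‖tau D a β‖ ^ 2 := by
      rw [h1, le_div_iff₀ (by positivity)]; linarith
    nlinarith [norm_nonneg (tau D a β)]

theorem ne_corner {D : ℕ} (hD : Disc D) (h5 : 5 ≤ D) {a β : ℤ} (hP : Prim D a β)
    (hR : Reduced D a β) : tau D a β ≠ om ∧ tau D a β ≠ om + 1 := by
  obtain ⟨ha, hb, hc, h⟩ := data hD hP.1 hR
  have f : (0 : ℝ) < a := by exact_mod_cast ha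
  have key : (tau D a β).im = Real.sqrt 3 / 2 → |(tau D a β).re| = 1 / 2 → False := by
    intro h1 h2
    rw [tau_im, div_eq_iff (by linarith)] at h1
    rw [tau_re, abs_div, abs_of_pos (by linarith : (0 : ℝ) < 2 * a),
      div_eq_iff (by linarith)] at h2
    have hX2 : Real.sqrt D ^ 2 = D := Real.sq_sqrt (Nat.cast_nonneg D)
    have e1 : (D : ℝ) = 3 * (a : ℝ) ^ 2 := by
      rw [← hX2, h1]
      linear_combination (a : ℝ) ^ 2 * sqrt3_sq
    have e2 : (D : ℤ) = 3 * a ^ 2 := by exact_mod_cast e1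
    have e3 : |((2 * β + ((D % 2 : ℕ) : ℤ) : ℤ) : ℝ)| = a := by linarith
    have e4 : |2 * β + ((D % 2 : ℕ) : ℤ)| = a := by exact_mod_cast e3
    have e5 : (2 * β + ((D % 2 : ℕ) : ℤ)) ^ 2 = a ^ 2 := by rw [← e4, sq_abs]
    have e6 : gg D β / a = a := by
      apply mul_left_cancel₀ (show 4 * a ≠ 0 by omega)
      linarith
    have e7 : a ∣ 1 := hP.2 a dvd_rfl ((dvd_abs _ _).1 (by rw [e4])) (by rw [e6])
    have e8 : a = 1 := Int.eq_one_of_dvd_one ha.le e7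
    rw [e8] at e2
    omega
  constructor
  · intro e
    refine key (by rw [e, om_im]) (by rw [e, om_re]; norm_num)
  · intro e
    refine key (by rw [e, Complex.add_im, om_im]; simp) (by
      rw [e, Complex.add_re, om_re]; norm_num)

/-- distance to the corners, cut at one -/
noncomputable def mm (D : ℕ) (w : ℤ × ℤ) : ℝ :=
  min 1 (min ‖tau D w.1 w.2 - om‖ ‖tau D w.1 w.2 - om - 1‖)

theorem point {K1 : ℝ} {k : ℕ} (hK1 : 0 < K1)
    (hJ : ∀ τ : ℂ, 0 < τ.im → |τ.re| ≤ 1 / 2 → 1 ≤ ‖τ‖ →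
      Real.exp (2 * Real.pi * τ.im) * (min 1 (min ‖τ - om‖ ‖τ - om - 1‖)) ^ k ≤ K1 * ‖J τ‖)
    {D : ℕ} (hD : Disc D) {w : ℤ × ℤ} (hF : Form D w.1 w.2) (hR : Reduced D w.1 w.2)
    (hm : 0 < mm D w) :
    J (tau D w.1 w.2) ≠ 0 ∧ Real.pi * Real.sqrt D * (1 / (w.1 : ℝ)) - k * (-Real.log (mm D w)) -
      Real.log K1 ≤ Real.log ‖J (tau D w.1 w.2)‖ := by
  obtain ⟨h1, h2, h3⟩ := fund hD hF hR
  have h := hJ _ h1 h2 h3
  change Real.exp _ * mm D w ^ k ≤ _ at h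
  have hp : 0 < Real.exp (2 * Real.pi * (tau D w.1 w.2).im) * mm D w ^ k := by positivity
  have hn : 0 < ‖J (tau D w.1 w.2)‖ := by
    by_contra hh
    have : ‖J (tau D w.1 w.2)‖ = 0 := le_antisymm (not_lt.1 hh) (norm_nonneg _)
    rw [this, mul_zero] at h
    linarith
  refine ⟨norm_pos_iff.1 hn, ?_⟩
  have h4 := Real.log_le_log hp h
  rw [Real.log_mul (Real.exp_pos _).ne' (pow_pos hm k).ne', Real.log_exp, Real.log_pow,
    Real.log_mul hK1.ne' hn.ne', tau_im] at h4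
  have f : (0 : ℝ) < w.1 := by exact_mod_cast hF.1
  have e : 2 * Real.pi * (Real.sqrt D / (2 * (w.1 : ℝ))) =
      Real.pi * Real.sqrt D * (1 / (w.1 : ℝ)) := by field_simp
  rw [e] at h4
  linarith

theorem ev_log (C : ℝ) : ∀ᶠ D : ℕ in atTop, C ≤ Real.log D :=
  (Real.tendsto_log_atTop.comp tendsto_natCast_atTop_atTop).eventually_ge_atTop C

theorem ev_pow (C : ℝ) {δ : ℝ} (hδ : 0 < δ) : ∀ᶠ D : ℕ in atTop, C * Real.log D ≤ (D : ℝ) ^ δ := by
  have h := (isLittleO_log_rpow_atTop hδ).bound (c := 1 / (|C| + 1)) (by positivity)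
  have h2 := tendsto_natCast_atTop_atTop.eventually (h.and (eventually_ge_atTop (1 : ℝ)))
  filter_upwards [h2] with D hD
  obtain ⟨h3, h4⟩ := hD
  have h5 : 0 ≤ Real.log D := Real.log_nonneg h4
  have h6 : 0 ≤ (D : ℝ) ^ δ := by positivity
  rw [Real.norm_of_nonneg h5, Real.norm_of_nonneg h6, one_div, ← div_eq_inv_mul,
    le_div_iff₀ (by positivity)] at h3
  nlinarith [le_abs_self C]

end ArchP

open ArchP NearP Filter in
theorem arch (hJ : S_Jlow) (hP : S_Prim) (hR : S_Redu) (hI : S_Jinj) (hH : S_HT)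
    (hN : S_NearRho) : S_Arch := by
  classical
  obtain ⟨K1, k, hK1, hJ⟩ := hJ
  obtain ⟨K3, hK3, hH⟩ := hH
  obtain ⟨⟨c0, hc0, hN1⟩, hN2⟩ := hN
  set ε : ℝ := 1 / (4 * (k + 1) * K3) with hε
  have hε0 : 0 < ε := by positivity
  obtain ⟨δ, K2, hδ, hK2, hN2⟩ := hN2 ε hε0
  have hev : ∀ᶠ D : ℕ in atTop, 5 ≤ D ∧ 4 * K3 * |Real.log K1| ≤ Real.log D ∧
      2 * |Real.log c0| ≤ Real.log D ∧ (2 * k * K2) * Real.log D ≤ (D : ℝ) ^ δ :=
    (eventually_ge_atTop 5).and ((ev_log _).and ((ev_log _).and (ev_pow _ hδ)))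
  obtain ⟨D0, hD0⟩ := eventually_atTop.1 hev
  refine ⟨1 / (1 + 2 * K3), D0, by positivity, fun D hDD hD T hT => ?_⟩
  obtain ⟨h5, g1, g2, g3⟩ := hD0 D hDD
  have hD1 : (1 : ℝ) ≤ D := by exact_mod_cast hD.1
  have hDp : (0 : ℝ) < D := by linarith
  have hL : 0 ≤ Real.log D := Real.log_nonneg hD1
  have hL0 : 0 < Real.log D := Real.log_pos (by
    have : (5 : ℝ) ≤ D := by exact_mod_cast h5
    linarith)
  have hX : 0 < Real.sqrt D := Real.sqrt_pos.2 hDp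
  have hlogX : Real.log (Real.sqrt D) = Real.log D / 2 := Real.log_sqrt hDp.le
  -- lower bound for `mm`
  have hmm : ∀ w : ℤ × ℤ, Prim D w.1 w.2 → Reduced D w.1 w.2 →
      0 < mm D w ∧ -Real.log (mm D w) ≤ Real.log D := by
    intro w h1 h2
    obtain ⟨n1, n2⟩ := ne_corner hD h5 h1 h2
    have h3 := hN1 D w.1 w.2 hD h1.1 h2 n1 n2
    have h4 : 0 < c0 / Real.sqrt D := by positivity
    refine ⟨lt_min one_pos (h4.trans_le h3), ?_⟩
    unfold mm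
    rcases le_total 1 (min ‖tau D w.1 w.2 - om‖ ‖tau D w.1 w.2 - om - 1‖) with h | h
    · rw [min_eq_left h, Real.log_one]; linarith
    · rw [min_eq_right h]
      have h6 := Real.log_le_log h4 h3
      rw [Real.log_div hc0.ne' hX.ne', hlogX] at h6
      linarith [neg_abs_le (Real.log c0)]
  -- choice of forms
  have hex : ∀ y : ℂ, ∃ w : ℤ × ℤ, y ∈ T → Prim D w.1 w.2 ∧ Reduced D w.1 w.2 ∧
      y = J (tau D w.1 w.2) ∧ ∀ w' ∈ P1 D, y = J (tau D w'.1 w'.2) → w = w' := by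
    intro y
    by_cases h : ∃ w' ∈ P1 D, y = J (tau D w'.1 w'.2)
    · obtain ⟨w, hw, e⟩ := h
      refine ⟨w, fun _ => ⟨(mem_P1 hw).1, red_P1 hD hw, e, fun w' hw' e' => ?_⟩⟩
      obtain ⟨a1, a2, a3⟩ := strip_P1 hw
      obtain ⟨b1, b2, b3⟩ := strip_P1 hw'
      exact tau_inj hD.1 (mem_P1 hw).1.1.1 (mem_P1 hw').1.1.1
        (hI _ _ a1 b1 a2 a3 b2 b3 (e.symm.trans e'))
    · by_cases hy : y ∈ T
      · obtain ⟨⟨L, hL1, hL2⟩, -⟩ := (hT y).1 hy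
        obtain ⟨a, β, -, f2, f3, f4⟩ := hR D L hD hL1.th
        exact ⟨(a, β), fun _ => ⟨f4 hL1, f2, hL2.trans f3, fun w' hw' e' =>
          absurd ⟨w', hw', e'⟩ h⟩⟩
      · exact ⟨(0, 0), fun h => absurd h hy⟩
  choose w hw using hex
  have hinj : Set.InjOn w T := fun y hy y' hy' e => by
    rw [(hw y hy).2.2.1, (hw y' hy').2.2.1, e]
  set W := T.image w with hW
  have hcard : W.card = T.card := Finset.card_image_of_injOn hinj
  have hWm : ∀ v ∈ W, Prim D v.1 v.2 ∧ Reduced D v.1 v.2 := by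
    intro v hv
    obtain ⟨y, hy, rfl⟩ := Finset.mem_image.1 hv
    exact ⟨(hw y hy).1, (hw y hy).2.1⟩
  have hsum : ∑ y ∈ T, Real.log ‖y‖ = ∑ v ∈ W, Real.log ‖J (tau D v.1 v.2)‖ := by
    rw [hW, Finset.sum_image hinj]
    exact Finset.sum_congr rfl fun y hy => by rw [← (hw y hy).2.2.1]
  have hsub : P1 D ⊆ W := by
    intro v hv
    have h1 := (mem_P1 hv).1
    have h2 := red_P1 hD hv
    have hy : J (tau D v.1 v.2) ∈ T :=
      (hT _).2 ⟨((hP D v.1 v.2 hD).2 h1).2, (point hK1 hJ hD h1.1 h2 (hmm v h1 h2).1).1⟩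
    exact Finset.mem_image.2 ⟨_, hy, (hw _ hy).2.2.2 v hv rfl⟩
  set R : ℝ := ∑ a ∈ (Finset.Icc 1 D).filter (fun a => 4 * a ^ 2 < D), (rr D a : ℝ) / a with hRdef
  have hR1 : 1 ≤ R := by
    have h1 : (1 : ℕ) ∈ (Finset.Icc 1 D).filter (fun a => 4 * a ^ 2 < D) := by
      simp only [Finset.mem_filter, Finset.mem_Icc]; omega
    have h2 := Finset.single_le_sum (f := fun a : ℕ => (rr D a : ℝ) / a)
      (fun a _ => by positivity) h1
    have h3 : rr D 1 = 1 := by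
      have := prim_one D
      simp [rr, Finset.filter_singleton, this]
    simp only [h3, Nat.cast_one, div_one] at h2
    exact h2
  have hRW : R ≤ ∑ v ∈ W, (1 : ℝ) / (v.1 : ℝ) := by
    rw [hRdef, ← sum_P1]
    refine Finset.sum_le_sum_of_subset_of_nonneg hsub fun v hv _ => ?_
    have : (0 : ℝ) < v.1 := by exact_mod_cast (hWm v hv).1.1.1
    positivity
  have hh : (W.card : ℝ) * Real.log D ≤ 2 * K3 * (Real.sqrt D * R) := by
    have h1 := mul_le_mul_of_nonneg_right (card_le hD W hWm) hL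
    have h2 := hH D hD h5
    rw [← hRdef] at h2
    linarith
  -- the corner terms
  set Bad := W.filter (fun v => min ‖tau D v.1 v.2 - om‖ ‖tau D v.1 v.2 - om - 1‖ ≤ (D : ℝ) ^ (-ε))
    with hBad
  have hBc : (Bad.card : ℝ) ≤ K2 * (D : ℝ) ^ (1 / 2 - δ) := hN2 D hD Bad fun v hv => by
    obtain ⟨h1, h2⟩ := Finset.mem_filter.1 hv
    exact ⟨(hWm v h1).1.1, (hWm v h1).2, h2⟩
  have hcorner : ∑ v ∈ W, -Real.log (mm D v) ≤
      ε * (W.card * Real.log D) + Bad.card * Real.log D := by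
    have h1 : ∀ v ∈ W, -Real.log (mm D v) ≤ ε * Real.log D +
        (if min ‖tau D v.1 v.2 - om‖ ‖tau D v.1 v.2 - om - 1‖ ≤ (D : ℝ) ^ (-ε) then Real.log D
          else 0) := by
      intro v hv
      obtain ⟨m1, m2⟩ := hmm v (hWm v hv).1 (hWm v hv).2
      split_ifs with h
      · nlinarith
      · have h2 : (D : ℝ) ^ (-ε) ≤ mm D v :=
          le_min (Real.rpow_le_one_of_one_le_of_nonpos hD1 (by linarith)) (not_le.1 h).le
        have h3 := Real.log_le_log (by positivity) h2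
        rw [Real.log_rpow hDp] at h3
        linarith
    refine (Finset.sum_le_sum h1).trans (le_of_eq ?_)
    rw [Finset.sum_add_distrib, ← Finset.sum_filter, Finset.sum_const, Finset.sum_const,
      nsmul_eq_mul, nsmul_eq_mul]
    ring
  have hmain : Real.pi * Real.sqrt D * (∑ v ∈ W, (1 : ℝ) / (v.1 : ℝ)) -
      k * (∑ v ∈ W, -Real.log (mm D v)) - W.card * Real.log K1 ≤
      ∑ v ∈ W, Real.log ‖J (tau D v.1 v.2)‖ := by
    have h1 := Finset.sum_le_sum fun v (hv : v ∈ W) =>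
      (point hK1 hJ hD (hWm v hv).1.1 (hWm v hv).2 (hmm v (hWm v hv).1 (hWm v hv).2).1).2
    rw [Finset.sum_sub_distrib, Finset.sum_sub_distrib, ← Finset.mul_sum, ← Finset.mul_sum,
      Finset.sum_const, nsmul_eq_mul] at h1
    exact h1
  rw [hsum, ← hcard]
  set Y : ℝ := Real.sqrt D * R with hY
  have hXY : Real.sqrt D ≤ Y := by rw [hY]; nlinarith
  have hc : (0 : ℝ) ≤ W.card := Nat.cast_nonneg _
  have hk : (0 : ℝ) ≤ k := Nat.cast_nonneg _
  have t1 : 3 * Y ≤ Real.pi * Real.sqrt D * (∑ v ∈ W, (1 : ℝ) / (v.1 : ℝ)) := by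
    have h1 : Y ≤ Real.sqrt D * (∑ v ∈ W, (1 : ℝ) / (v.1 : ℝ)) :=
      mul_le_mul_of_nonneg_left hRW hX.le
    have h2 := Real.pi_gt_three
    rw [mul_assoc]
    nlinarith
  have t2 : W.card * Real.log K1 ≤ Y / 2 := by
    have h1 : W.card * Real.log K1 ≤ W.card * |Real.log K1| :=
      mul_le_mul_of_nonneg_left (le_abs_self _) hc
    have h2 : W.card * (4 * K3 * |Real.log K1|) ≤ W.card * Real.log D :=
      mul_le_mul_of_nonneg_left g1 hc
    have h3 : K3 * (W.card * |Real.log K1|) ≤ K3 * (Y / 2) := by linarith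
    exact h1.trans (le_of_mul_le_mul_left h3 hK3)
  have t3 : k * (ε * (W.card * Real.log D)) ≤ Y / 2 := by
    have h1 : ε * (W.card * Real.log D) ≤ ε * (2 * K3 * Y) := mul_le_mul_of_nonneg_left hh hε0.le
    have h2 : ε * (2 * K3 * Y) = Y / (2 * (k + 1)) := by rw [hε]; field_simp; ring
    have h3 : k * (Y / (2 * (k + 1))) ≤ Y / 2 := by
      rw [← mul_div_assoc, div_le_div_iff₀ (by positivity) (by norm_num)]
      nlinarith
    rw [h2] at h1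
    exact (mul_le_mul_of_nonneg_left h1 hk).trans h3
  have t4 : k * (Bad.card * Real.log D) ≤ Y / 2 := by
    have h1 : Bad.card * Real.log D ≤ K2 * (D : ℝ) ^ (1 / 2 - δ) * Real.log D :=
      mul_le_mul_of_nonneg_right hBc hL
    have h2 : (D : ℝ) ^ (1 / 2 - δ) * (D : ℝ) ^ δ = Real.sqrt D := by
      rw [← Real.rpow_add hDp, Real.sqrt_eq_rpow]; congr 1; ring
    have h3 : (D : ℝ) ^ (1 / 2 - δ) * ((2 * k * K2) * Real.log D) ≤
        (D : ℝ) ^ (1 / 2 - δ) * (D : ℝ) ^ δ := mul_le_mul_of_nonneg_left g3 (by positivity)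
    have h4 := mul_le_mul_of_nonneg_left h1 hk
    rw [h2] at h3
    linarith
  have t5 : k * (∑ v ∈ W, -Real.log (mm D v)) ≤ Y := by
    have := mul_le_mul_of_nonneg_left hcorner hk
    rw [mul_add] at this
    linarith
  have t6 : Real.sqrt D + W.card * Real.log D ≤ (1 + 2 * K3) * Y := by linarith
  have t7 : 1 / (1 + 2 * K3) * (Real.sqrt D + W.card * Real.log D) ≤ Y := by
    rw [one_div, ← div_eq_inv_mul, div_le_iff₀ (by positivity)]; linarith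
  linarith

end Pool.Agent.P.MP_94fe55_nt
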