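import Pool.Agent.P.MP_94fe55_nt.Defs

set_option autoImplicit false

namespace Pool.Agent.P.MP_94fe55_nt

open Polynomial Cardinal
open scoped NNReal

namespace AutP

theorem exists_algEquiv (R K L : Type) [CommRing R] [IsDomain R] [Field K] [Field L]
    [Algebra R K] [Algebra R L] [FaithfulSMul R K] [FaithfulSMul R L] [IsAlgClosed K]
    [IsAlgClosed L] (hR : #R ≤ ℵ₀) (hK : ℵ₀ < #K) (hKL : #K = #L) :
    ∃ σ : K ≃+* L, ∀ r, σ (algebraMap R K r) = algebraMap R L r := by
  obtain ⟨s, hs⟩ := exists_isTranscendenceBasis R K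
  obtain ⟨t, ht⟩ := exists_isTranscendenceBasis R L
  have h1 := IsAlgClosed.cardinal_eq_cardinal_transcendence_basis_of_aleph0_lt' _ hs hR hK
  have h2 := IsAlgClosed.cardinal_eq_cardinal_transcendence_basis_of_aleph0_lt' _ ht hR
    (hKL ▸ hK)
  obtain ⟨e⟩ := Cardinal.eq.1 (h1.symm.trans (hKL.trans h2))
  let _ := IsAlgClosed.isAlgClosure_of_transcendence_basis _ hs
  let _ := IsAlgClosed.isAlgClosure_of_transcendence_basis _ ht
  let f := hs.1.aevalEquiv.symm.trans ((MvPolynomial.renameEquiv R e).trans ht.1.aevalEquiv)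
  refine ⟨IsAlgClosure.equivOfEquiv K L f.toRingEquiv, fun r => ?_⟩
  rw [IsScalarTower.algebraMap_apply R (Algebra.adjoin R (Set.range ((↑) : s → K))) K,
    IsAlgClosure.equivOfEquiv_algebraMap,
    IsScalarTower.algebraMap_apply R (Algebra.adjoin R (Set.range ((↑) : t → L))) L]
  congr 1
  exact f.commutes r

/-- a copy of the complex numbers -/
def C2 : Type := ℂ

noncomputable instance : Field C2 := inferInstanceAs (Field ℂ)
instance : IsAlgClosed C2 := inferInstanceAs (IsAlgClosed ℂ)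

theorem exists_ext {R : Type} [CommRing R] [IsDomain R] (hR : #R ≤ ℵ₀) (i f : R →+* ℂ)
    (hi : Function.Injective i) (hf : Function.Injective f) :
    ∃ σ : ℂ ≃+* ℂ, ∀ r, σ (i r) = f r := by
  let _ : Algebra R ℂ := i.toAlgebra
  let _ : Algebra R C2 := RingHom.toAlgebra (S := C2) f
  have _ : FaithfulSMul R ℂ := (faithfulSMul_iff_algebraMap_injective _ _).2 hi
  have _ : FaithfulSMul R C2 := (faithfulSMul_iff_algebraMap_injective _ _).2 hf
  exact exists_algEquiv R ℂ C2 hR (by rw [Cardinal.mk_complex]; exact aleph0_lt_continuum) rfl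

theorem conj (x y : ℂ) (hx : IsAlgebraic ℚ x) (hy : aeval y (minpoly ℚ x) = 0) :
    ∃ σ : ℂ ≃+* ℂ, σ x = y := by
  have hx' := hx.isIntegral
  have : Fact (Irreducible (minpoly ℚ x)) := ⟨minpoly.irreducible hx'⟩
  let i := AdjoinRoot.lift (algebraMap ℚ ℂ) x (minpoly.aeval ℚ x)
  let f := AdjoinRoot.lift (algebraMap ℚ ℂ) y hy
  have hc : #(AdjoinRoot (minpoly ℚ x)) ≤ ℵ₀ :=
    (Cardinal.mk_le_of_surjective AdjoinRoot.mk_surjective).trans
      (Polynomial.cardinalMk_le_max.trans (by simp))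
  obtain ⟨σ, hσ⟩ := exists_ext hc i f i.injective f.injective
  refine ⟨σ, ?_⟩
  simpa [i, f] using hσ (AdjoinRoot.root _)

theorem alg_of_finite (x : ℂ) (h : (Set.range fun σ : ℂ ≃+* ℂ => σ x).Finite) :
    IsAlgebraic ℚ x := by
  by_contra hx
  have hx' : Transcendental ℚ x := hx
  have h1 : ∀ n : ℕ, ∃ σ : ℂ ≃+* ℂ, σ x = x + n := fun n => by
    have hn : Transcendental ℚ (x + n) := fun h => hx (by
      simpa using h.sub (isAlgebraic_natCast (R := ℚ) (A := ℂ) n))
    obtain ⟨σ, hσ⟩ := exists_ext (R := ℚ[X]) (Polynomial.cardinalMk_le_max.trans (by simp))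
      (aeval x).toRingHom (aeval (x + n)).toRingHom (transcendental_iff_injective.1 hx')
      (transcendental_iff_injective.1 hn)
    exact ⟨σ, by simpa using hσ X⟩
  refine Set.infinite_of_injective_forall_mem (f := fun n : ℕ => x + n) (fun a b hab => ?_)
    (fun n => h1 n) h
  simpa using hab

end AutP

theorem aut : S_Aut := by
  refine ⟨AutP.conj, AutP.alg_of_finite, fun x hx => ?_⟩
  have h1 : IsAlgebraic ℚ x := AutP.alg_of_finite x
    ((Set.finite_singleton x).subset (by rintro _ ⟨σ, rfl⟩; exact hx σ))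
  have h2 := h1.isIntegral
  have h3 : (minpoly ℚ x).natDegree = 1 := by
    rw [← card_rootSet_eq_natDegree (K := ℂ) (minpoly.irreducible h2).separable
      (IsAlgClosed.splits _), Fintype.card_eq_one_iff]
    refine ⟨⟨x, mem_rootSet.2 ⟨minpoly.ne_zero h2, minpoly.aeval ℚ x⟩⟩, fun y => ?_⟩
    obtain ⟨σ, hσ⟩ := AutP.conj x y h1 (mem_rootSet.1 y.2).2
    exact Subtype.ext (hσ.symm.trans (hx σ))
  obtain ⟨q, hq⟩ := minpoly.natDegree_eq_one_iff.1 h3
  exact ⟨q, hq.symm⟩

theorem place : S_Place := by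
  intro p hp
  have : Fact p.Prime := ⟨hp⟩
  have h1 : #ℚ_[p] ≤ 𝔠 := by
    refine (Cardinal.mk_quotient_le (s := CauSeq.equiv)).trans ((Cardinal.mk_subtype_le _).trans ?_)
    simp
  have h2 : #(PadicAlgCl p) = 𝔠 := by
    apply le_antisymm
    · exact (Algebra.IsAlgebraic.cardinalMk_le_max ℚ_[p] _).trans (max_le h1 aleph0_le_continuum)
    · exact (continuum_le_cardinal_of_nontriviallyNormedField ℚ_[p]).trans
        (Cardinal.mk_le_of_injective (algebraMap ℚ_[p] (PadicAlgCl p)).injective)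
  obtain ⟨σ⟩ := IsAlgClosed.ringEquiv_of_equiv_of_charZero (K := ℂ) (L := PadicAlgCl p)
    (by rw [Cardinal.mk_complex]; exact aleph0_lt_continuum)
    (Cardinal.eq.1 (by rw [Cardinal.mk_complex, h2]))
  refine ⟨⟨(Valued.v : Valuation (PadicAlgCl p) ℝ≥0).comap σ.toRingHom, ?_⟩⟩
  rw [Valuation.comap_apply, map_natCast, PadicAlgCl.valuation_p, one_div]

end Pool.Agent.P.MP_94fe55_nt
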