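import Pool.Agent.P.MP_94fe55_nt.Kap

set_option autoImplicit false

namespace Pool.Agent.P.MP_94fe55_nt

open Polynomial WeierstrassCurve
open scoped NNReal

namespace CentP

variable {p : ℕ} {V : Place p} {Wb : WeierstrassCurve V.k}

theorem ring_sq {R : Type} [Ring R] (x : R) (l : ℕ) (t n : ℤ) (h : x * x = (t : R) * x - (n : R)) :
    ((l : R) * x) * ((l : R) * x) =
      (((l : ℤ) * t : ℤ) : R) * ((l : R) * x) - ((((l : ℤ) ^ 2 * n : ℤ)) : R) := by
  have e1 : ∀ y : R, (l : R) * y = (l : ℤ) • y := fun y => by simp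
  have e2 : ((((l : ℤ) ^ 2 * n : ℤ)) : R) = ((l : ℤ) ^ 2 * n) • (1 : R) := by simp
  have e3 : (n : R) = n • (1 : R) := by simp
  rw [e1, e2, ← zsmul_eq_mul, mul_smul_comm, smul_mul_assoc, h, ← zsmul_eq_mul, e3]
  module

theorem ring_cast {R : Type} [Ring R] (x : R) (l m : ℕ) :
    ((l * m : ℕ) : R) * x = (l : R) * ((m : R) * x) := by
  push_cast; rw [mul_assoc]

theorem ring_tors {R : Type} [Ring R] (x y : R) (l : ℕ) (h : (l : R) * x = (l : R) * y) :
    (((l : ℤ) : ℤ) : R) * (x - y) = 0 := by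
  push_cast; rw [mul_sub, h, sub_self]

/-- a prime factor different from `p` can be removed -/
theorem div_ne (E : Lift V Wb) {l : ℕ} (hl : l.Coprime p) (hl0 : l ≠ 0) {g : ℂ}
    (hg : Hom E.L E.L g) (χ : AddMonoid.End (ptor p Wb)) (e : (l : AddMonoid.End _) * χ = kap E E g) :
    Hom E.L E.L (g / l) := by
  intro z hz
  have h3 : (l : ℂ) ≠ 0 := by exact_mod_cast hl0
  have h1 : (l : ℂ) * (z / l) ∈ E.L.lattice := by rwa [mul_div_cancel₀ _ h3]
  have hm : E.π (z / l) ∈ ptor p E.W := (mem_ptor_iff E.unif p _).2 ⟨l, hl, h1⟩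
  have h0 : l • (⟨E.π (z / l), hm⟩ : ptor p E.W) = 0 := by
    apply Subtype.ext
    show l • E.π (z / l) = 0
    rw [← map_nsmul, E.unif.ker, nsmul_eq_mul]
    exact h1
  have h2 : kap E E g (E.ρ ⟨E.π (z / l), hm⟩) = 0 := by
    rw [← e]
    show (l : AddMonoid.End _) (χ (E.ρ ⟨E.π (z / l), hm⟩)) = 0
    rw [AddMonoid.End.natCast_apply, ← map_nsmul, ← map_nsmul, h0, map_zero, map_zero]
  have := (kap_eq_zero_iff E E hg _ hm).1 h2
  rwa [show g / l * z = g * (z / l) by ring]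

/-- the prime factor `p` can be removed -/
theorem div_eq (H : Tools) (hp : p.Prime) (E : Lift V Wb) (hM : PMax p E.L) {g : ℂ}
    (hg : Hom E.L E.L g) (χ : AddMonoid.End (ptor p Wb)) (hχ : Alg (ptor p Wb).subtype χ)
    (e : (p : AddMonoid.End _) * χ = kap E E g) : Hom E.L E.L (g / p) := by
  have h := E.facts H.ring hp
  have hq := H.quat _ _ h.qf
  have h1 := congrArg Subtype.val (hq.sq ⟨χ, hχ⟩)
  obtain ⟨t, n, h2⟩ : ∃ t n : ℤ, χ * χ = (t : AddMonoid.End _) * χ - (n : AddMonoid.End _) :=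
    ⟨_, _, h1⟩
  have h3 := ring_sq χ p t n h2
  rw [e, ← kap_comp E E E hg hg, ← kap_int_mul E E hg, ← kap_int E,
    ← kap_sub E E ((Hom.int _ _).comp hg) (Hom.int _ _)] at h3
  have h4 := kap_inj H hp E E (hg.comp hg) (((Hom.int _ _).comp hg).sub (Hom.int _ _)) h3
  refine hM g t n hg ?_
  rw [sq, h4]; push_cast; ring

theorem desc (H : Tools) (hp : p.Prime) (E : Lift V Wb) (hM : PMax p E.L)
    (ψ : AddMonoid.End (ptor p Wb)) (hψ : Alg (ptor p Wb).subtype ψ) (m : ℕ) :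
    m ≠ 0 → ∀ g, Hom E.L E.L g → (m : AddMonoid.End _) * ψ = kap E E g →
      ∃ β, Hom E.L E.L β ∧ ψ = kap E E β := by
  have h := E.facts H.ring hp
  have hq := H.quat _ _ h.qf
  induction m using induction_on_primes with
  | zero => intro e; exact absurd rfl e
  | one => intro _ g hg e; exact ⟨g, hg, by rw [← e, Nat.cast_one, one_mul]⟩
  | prime_mul l a hl ih =>
    intro hla g hg e
    have ha : a ≠ 0 := right_ne_zero_of_mul hla
    have h3 : (l : ℂ) ≠ 0 := by exact_mod_cast hl.ne_zero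
    rw [ring_cast] at e
    have hχ : Alg (ptor p Wb).subtype ((a : AddMonoid.End _) * ψ) :=
      h.alg_mul _ _ (h.alg_nat a) hψ
    have hd : Hom E.L E.L (g / l) := by
      by_cases hlp : l = p
      · subst hlp
        exact div_eq H hp E hM hg _ hχ e
      · exact div_ne E ((Nat.coprime_primes hl hp).2 hlp) hl.ne_zero hg _ e
    refine ih ha (g / l) hd ?_
    have h1 : kap E E g = (l : AddMonoid.End _) * kap E E (g / l) := by
      rw [← kap_nat E, ← kap_comp E E E hd (Hom.nat _ l), mul_div_cancel₀ _ h3]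
    rw [h1] at e
    have h2 := hq.tors l (⟨_, hχ⟩ - ⟨_, kap_alg H hp E E hd⟩) (by exact_mod_cast hl.ne_zero)
      (Subtype.ext (ring_tors _ _ l e))
    exact congrArg Subtype.val (sub_eq_zero.1 h2)

end CentP

theorem cent (H : Tools) : S_Cent := by
  intro p V Wb E α t n ψ hp hM hα hq hD hψ hc
  have h := E.facts H.ring hp
  have hf := H.quat _ _ h.qf
  obtain ⟨m, u, v, hm, e⟩ := hf.cent ⟨_, kap_alg H hp E E hα⟩ ⟨ψ, hψ⟩ t n
    (Subtype.ext (kap_quad E hα hq)) hD (Subtype.ext hc)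
  have e1 : (m : AddMonoid.End (ptor p Wb)) * ψ =
      (u : AddMonoid.End (ptor p Wb)) + (v : AddMonoid.End (ptor p Wb)) * kap E E α :=
    congrArg Subtype.val e
  obtain ⟨m, rfl⟩ := Int.eq_ofNat_of_zero_le hm.le
  have hv : Hom E.L E.L (v * α) := (Hom.int _ v).comp hα
  refine CentP.desc H hp E hM ψ hψ m (by omega) (u + v * α) ((Hom.int _ u).add hv) ?_
  rw [kap_add E E (Hom.int _ u) hv, kap_int, kap_int_mul E E hα, ← e1, Int.cast_natCast]

namespace CentP

theorem hom_lat {D : ℕ} {L L' : PeriodPair} {a a' β β' : ℤ} (h : IsLat L a (β + th D))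
    (h' : IsLat L' a' (β' + th D)) : Hom L L' a' := by
  rw [h.hom_iff, h', h']
  exact ⟨⟨a, 0, by push_cast; ring⟩, ⟨β - β', a', by push_cast; ring⟩⟩

end CentP

theorem inj (H : Tools) (hC : S_Cent) (hN : S_Norm) : S_Inj := by
  intro p V Wb E E' D α t n hp hD hE hE' hM hα hq hpos e
  have hα' : Hom E'.L E'.L α := (hE' α).2 ((hE α).1 hα)
  have hp0 : (p : ℤ) ≠ 0 := by exact_mod_cast hp.ne_zero
  obtain ⟨a, b, c, L0, hF, hco, hL0, hi⟩ := hN D E.L p hD hE hp0
  obtain ⟨a', b', c', L0', hF', hco', hL0', hi'⟩ := hN D E'.L p hD hE' hp0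
  have hγ : Hom E.L E'.L (c'⁻¹ * (a' * c)) :=
    hi'.symm.hom.comp ((CentP.hom_lat hL0 hL0').comp hi.hom)
  have hγ' : Hom E'.L E.L (c⁻¹ * (a * c')) :=
    hi.symm.hom.comp ((CentP.hom_lat hL0' hL0).comp hi'.hom)
  have hprod : c⁻¹ * (a * c') * (c'⁻¹ * (a' * c)) = ((a * a' : ℤ) : ℂ) := by
    have := hi.1
    have := hi'.1
    push_cast
    field_simp
  generalize c'⁻¹ * (a' * c) = γ at hγ hprod
  generalize c⁻¹ * (a * c') = γ' at hγ' hprod
  have hN0 : ((a * a' : ℤ) : ℂ) ≠ 0 := by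
    exact_mod_cast (mul_pos hF.1 hF'.1).ne'
  have hcop : (a * a').natAbs.Coprime p := by
    have := Int.isCoprime_iff_gcd_eq_one.1 (hco.mul_left hco')
    simpa [Int.gcd] using this
  have habs : (((a * a').natAbs : ℕ) : ℂ) = ((a * a' : ℤ) : ℂ) := by
    rw [← Int.cast_natCast, Int.natAbs_of_nonneg (mul_pos hF.1 hF'.1).le]
  obtain ⟨β, hβ, e1⟩ := hC p V Wb E α t n (kap E E' γ) hp hM hα hq hpos (kap_alg H hp E E' hγ) (by
    rw [← kap_comp E E E' hα hγ, e, ← kap_comp E E' E' hγ hα', mul_comm])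
  obtain ⟨β', hβ', e2⟩ := hC p V Wb E α t n (kap E' E γ') hp hM hα hq hpos
    (kap_alg H hp E' E hγ') (by
    rw [← kap_comp E' E E hγ' hα, e, ← kap_comp E' E' E hα' hγ', mul_comm])
  have e3 : β' * β = ((a * a' : ℤ) : ℂ) := by
    refine kap_inj H hp E E (hβ'.comp hβ) (Hom.int _ _) ?_
    rw [kap_comp E E E hβ hβ', ← e1, ← e2, ← kap_comp E E' E hγ hγ', hprod]
  have hβ0 : β ≠ 0 := by
    rintro rfl
    exact hN0 (by rw [← e3, mul_zero])
  have hγ0 : γ ≠ 0 := by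
    rintro rfl
    exact hN0 (by rw [← hprod, mul_zero])
  have key : ∀ w, β * w ∈ E.L.lattice ↔ γ * w ∈ E'.L.lattice := by
    intro w
    have h1 : ((a * a' : ℤ) : ℂ) * w ∈ E.L.lattice →
        (β * w ∈ E.L.lattice ↔ γ * w ∈ E'.L.lattice) := fun hw => by
      have hm : E.π w ∈ ptor p E.W := (mem_ptor_iff E.unif p w).2 ⟨_, hcop, by rwa [habs]⟩
      rw [← kap_eq_zero_iff E E hβ w hm, ← kap_eq_zero_iff E E' hγ w hm, e1]
    constructor
    · intro hw
      refine (h1 ?_).1 hw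
      rw [← e3, mul_assoc]
      exact hβ' _ hw
    · intro hw
      refine (h1 ?_).2 hw
      rw [← hprod, mul_assoc]
      exact hγ' _ hw
  refine Iso.jL (c := γ / β) ⟨div_ne_zero hγ0 hβ0, fun z => ?_⟩
  have := key (z / β)
  rwa [mul_div_cancel₀ _ hβ0, show γ * (z / β) = γ / β * z by ring] at this

end Pool.Agent.P.MP_94fe55_nt
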