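import Pool.Agent.P.MP_94fe55_nt.CondA1

set_option autoImplicit false

namespace Pool.Agent.P.MP_94fe55_nt

open Polynomial WeierstrassCurve
open scoped NNReal

namespace CondAP

section

variable {p : ℕ} {V : Place p}

theorem coeff_step (F : ℂ[X]) (x : ℂ) (k : ℕ) :
    ((X - C x) * F).coeff (k + 1) = F.coeff k - x * F.coeff (k + 1) := by
  rw [sub_mul, coeff_sub, coeff_X_mul, coeff_C_mul]

theorem coeff_step0 (F : ℂ[X]) (x : ℂ) : ((X - C x) * F).coeff 0 = -(x * F.coeff 0) := by
  rw [sub_mul, coeff_sub, coeff_C_mul]; simp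

/-- coefficients of a monic polynomial with roots of size at most `m` -/
theorem coeff_bound {ι : Type} (s : Finset ι) (x : ι → ℂ) {m : ℝ≥0}
    (h : ∀ i ∈ s, V.v (x i) ≤ m) (k : ℕ) :
    V.v ((∏ i ∈ s, (X - C (x i))).coeff k) * m ^ k ≤ m ^ s.card := by
  classical
  induction s using Finset.induction_on generalizing k with
  | empty =>
    rw [Finset.prod_empty, coeff_one]
    split_ifs with e
    · simp [e]
    · simp
  | insert a s ha ih =>
    have ih' := ih fun i hi => h i (Finset.mem_insert_of_mem hi)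
    have hx := h a (Finset.mem_insert_self _ _)
    rw [Finset.prod_insert ha, Finset.card_insert_of_notMem ha]
    have key : ∀ j, V.v (x a * (∏ i ∈ s, (X - C (x i))).coeff j) * m ^ j ≤ m ^ (s.card + 1) := by
      intro j
      rw [map_mul, mul_assoc, pow_succ']
      exact mul_le_mul' hx (ih' j)
    rcases k with _ | k
    · rw [coeff_step0, V.v.map_neg]; exact key 0
    · rw [coeff_step]
      refine (mul_le_mul' (V.v.map_sub _ _) le_rfl).trans ?_
      rw [max_mul]
      refine max_le ?_ (key _)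
      rw [pow_succ, ← mul_assoc, pow_succ]
      exact mul_le_mul' (ih' k) le_rfl

/-- multiplying by linear factors with large roots -/
theorem coeff_dom {ι : Type} (s : Finset ι) (x : ι → ℂ) {a : ℝ≥0} (ha : 0 < a)
    (h : ∀ i ∈ s, V.v (x i) = a) (F : ℂ[X]) (N : ℕ) (h1 : V.v (F.coeff N) = 1)
    (h2 : ∀ k < N, V.v (F.coeff k) * a ^ k < a ^ N) :
    V.v (((∏ i ∈ s, (X - C (x i))) * F).coeff N) = a ^ s.card ∧
      ∀ k < N, V.v (((∏ i ∈ s, (X - C (x i))) * F).coeff k) * a ^ k < a ^ s.card * a ^ N := by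
  classical
  induction s using Finset.induction_on with
  | empty => simpa using ⟨h1, h2⟩
  | insert b s hb ih =>
    obtain ⟨i1, i2⟩ := ih fun i hi => h i (Finset.mem_insert_of_mem hi)
    have hx := h b (Finset.mem_insert_self _ _)
    rw [Finset.prod_insert hb, Finset.card_insert_of_notMem hb, mul_assoc]
    generalize (∏ i ∈ s, (X - C (x i))) * F = K at i1 i2
    have key : ∀ j < N, V.v (x b * K.coeff j) * a ^ j < a ^ (s.card + 1) * a ^ N := by
      intro j hj
      rw [map_mul, hx, mul_assoc, pow_succ', mul_assoc]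
      exact mul_lt_mul_of_pos_left (i2 j hj) ha
    have key2 : ∀ j < N, V.v (K.coeff j) * a ^ (j + 1) < a ^ (s.card + 1) * a ^ N := by
      intro j hj
      have := key j hj
      rwa [map_mul, hx, mul_comm a, mul_assoc, ← pow_succ'] at this
    have key3 : V.v (x b * K.coeff N) = a ^ (s.card + 1) := by
      rw [map_mul, hx, i1, pow_succ']
    constructor
    · rcases N with _ | N
      · rw [coeff_step0, V.v.map_neg, key3]
      · rw [coeff_step, V.v.map_sub_eq_of_lt_right, key3]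
        rw [key3]
        exact lt_of_mul_lt_mul_right (key2 N (Nat.lt_succ_self N)) zero_le
    · intro k hk
      rcases k with _ | k
      · rw [coeff_step0, V.v.map_neg]; exact key 0 hk
      · rw [coeff_step]
        refine (mul_le_mul' (V.v.map_sub _ _) le_rfl).trans_lt ?_
        rw [max_mul]
        exact max_lt (key2 k (by omega)) (key _ hk)

/-- the middle coefficient of the denominator of multiplication by `p` -/
theorem coeff_big {W : WeierstrassCurve ℂ} {φ : Pt W →+ Pt W} {T E : Finset (Pt W)}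
    {P₁ Q₀ : Pt W} (h : Dat V.M p φ T E P₁ Q₀) :
    1 ≤ 2 * V.v ((C ((p : ℂ) ^ 2) * ∏ Q ∈ E.erase 0, (X - C (px Q))).coeff (p ^ 2 - p)) := by
  classical
  have hlt := h.m_lt
  have hm := h.ht.one_le P₁
  have ha : 1 < V.M (φ P₁) := hm.trans_lt hlt
  have ha0 : 0 < V.M (φ P₁) := zero_lt_one.trans ha
  have hm0 : 0 < V.M P₁ := zero_lt_one.trans_le hm
  rw [coeff_C_mul, ← Finset.prod_filter_mul_prod_filter_not (E.erase 0) (fun Q => φ Q = 0)]
  have hb := coeff_bound (V := V) ((E.erase 0).filter (fun Q => ¬ φ Q = 0)) px (m := V.M P₁) (fun Q hQ => by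
    rw [Finset.mem_filter] at hQ
    rw [← h.M_out' (Finset.mem_of_mem_erase hQ.1) hQ.2]
    exact le_max_right _ _)
  have hd := (coeff_dom (V := V) ((E.erase 0).filter (fun Q => φ Q = 0)) px ha0 (fun Q hQ => by
      rw [Finset.mem_filter] at hQ
      have e := h.M_in' hQ.1 hQ.2
      rw [← e] at ha ⊢
      simp only [Place.M] at ha ⊢
      rcases le_total 1 (V.v (px Q)) with e1 | e1
      · rw [max_eq_right e1]
      · rw [max_eq_left e1] at ha
        exact absurd ha (lt_irrefl _))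
    (∏ Q ∈ (E.erase 0).filter (fun Q => ¬ φ Q = 0), (X - C (px Q))) (p ^ 2 - p) (by
      rw [← h.card_out, ← Isog.natDegree_prod, (Isog.monic_prod _).coeff_natDegree, map_one])
    (fun k hk => by
      have h1 := hb k
      rw [h.card_out] at h1
      obtain ⟨d, hd⟩ := Nat.exists_eq_add_of_lt hk
      rw [hd, add_assoc, pow_add, mul_comm (V.M P₁ ^ k)] at h1
      rw [hd, add_assoc, pow_add, mul_comm (V.M (φ P₁) ^ k)]
      have h2 := le_of_mul_le_mul_right h1 (pow_pos hm0 k)
      exact mul_lt_mul_of_pos_right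
        (h2.trans_lt (pow_lt_pow_left₀ hlt zero_le (Nat.succ_ne_zero d))) (pow_pos ha0 k))).1
  rw [map_mul, hd, h.card_in, map_pow, V.vp]
  have hp0 : (p : ℝ≥0) ≠ 0 := by exact_mod_cast h.prime.ne_zero
  have h3 := h.tot'
  have h4 : V.M P₁ ^ (p ^ 2 - p) * ((p : ℝ≥0)⁻¹ ^ 2 * V.M (φ P₁) ^ (p - 1)) = 1 := by
    rw [mul_left_comm, mul_comm (V.M P₁ ^ (p ^ 2 - p)), h3, ← mul_pow, inv_mul_cancel₀ hp0,
      one_pow]
  rw [← h4]
  exact mul_le_mul' h.H_le le_rfl

end

/-- symmetry of the torsion under a cube root of unity -/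
theorem om_sym {W : WeierstrassCurve ℂ} {L : PeriodPair} {π : ℂ →+ Pt W} (h : Unif W L π)
    (ho : Hom L L om) {p : ℕ} {E : Finset (Pt W)} (hE : ∀ Q, Q ∈ E ↔ p • Q = 0) (i : ℕ) :
    (∏ Q ∈ E.erase 0, (X - C (px Q + W.b₂ / 12))).coeff i * om ^ i =
      om ^ (E.erase 0).card * (∏ Q ∈ E.erase 0, (X - C (px Q + W.b₂ / 12))).coeff i := by
  have hinv : om⁻¹ = om * om := by
    apply inv_eq_of_mul_eq_one_right
    linear_combination om_cube
  have hiso : Iso L L om := iso_of_hom om_ne_zero ho (by rw [hinv]; exact ho.comp ho)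
  have h3 : ∀ Q, mulPt π π om (mulPt π π om (mulPt π π om Q)) = Q := by
    intro Q
    obtain ⟨z, rfl⟩ := h.surj Q
    rw [mulPt_apply h h ho, mulPt_apply h h ho, mulPt_apply h h ho]
    congr 1
    linear_combination z * om_cube
  have hinj : Function.Injective (mulPt π π om) := fun P Q e => by
    rw [← h3 P, e, h3]
  have hmem : ∀ Q ∈ E.erase 0, mulPt π π om Q ∈ E.erase 0 := by
    intro Q hQ
    rw [Finset.mem_erase] at hQ ⊢
    refine ⟨fun e => hQ.1 (hinj (by rw [e, map_zero])), ?_⟩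
    rw [hE, ← map_nsmul, (hE Q).1 hQ.2, map_zero]
  have hx : ∀ Q ∈ E.erase 0, px (mulPt π π om Q) + W.b₂ / 12 = om * (px Q + W.b₂ / 12) := by
    intro Q hQ
    obtain ⟨z, rfl⟩ := h.surj Q
    have hz : z ∉ L.lattice := fun e => (Finset.mem_erase.1 hQ).1 ((h.ker z).2 e)
    rw [mulPt_apply h h ho, h.x z hz, h.x _ fun e => hz ((hiso.2 z).2 e), hiso.wp z]
    linear_combination (-L.weierstrassP (om * z)) * om_cube
  have key : (∏ Q ∈ E.erase 0, (X - C (px Q + W.b₂ / 12))).comp (C om * X) =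
      C (om ^ (E.erase 0).card) * ∏ Q ∈ E.erase 0, (X - C (px Q + W.b₂ / 12)) := by
    rw [Polynomial.prod_comp, map_pow, ← Finset.prod_const, ← Finset.prod_mul_distrib]
    symm
    refine Finset.prod_bij (fun Q _ => mulPt π π om Q) hmem (fun P _ Q _ e => hinj e)
      (fun Q hQ => ⟨_, hmem _ (hmem _ hQ), h3 Q⟩) fun Q hQ => ?_
    rw [hx Q hQ]
    rw [sub_comp, X_comp, C_comp, map_mul]
    ring
  rw [← comp_C_mul_X_coeff, key, coeff_C_mul]

theorem om_pow_mod (n : ℕ) : om ^ n = om ^ (n % 3) := by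
  conv_lhs => rw [← Nat.div_add_mod n 3, pow_add, pow_mul, om_cube, one_pow, one_mul]

theorem coeff_vanish {G : ℂ[X]} {i d : ℕ} (h : G.coeff i * om ^ i = om ^ (i + d) * G.coeff i)
    (hd : d % 3 ≠ 0) : G.coeff i = 0 := by
  have h1 : G.coeff i * om ^ i * (1 - om ^ d) = 0 := by
    rw [pow_add] at h
    linear_combination h
  have h2 : 1 - om ^ d ≠ 0 := by
    rw [om_pow_mod, sub_ne_zero]
    have : d % 3 = 1 ∨ d % 3 = 2 := by omega
    rcases this with e | e <;> rw [e]
    · rw [pow_one]; exact om_ne_one.symm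
    · intro e
      apply om_ne_one
      linear_combination om * e + om_cube
  rcases mul_eq_zero.1 h1 with e | e
  · exact (mul_eq_zero.1 e).resolve_right (pow_ne_zero _ om_ne_zero)
  · exact absurd e h2

/-- the middle coefficient for the curve with an automorphism of order three -/
theorem coeff_small {p : ℕ} (V : Place p) (hp : p.Prime) (h3 : p % 3 ≠ 1) {L : PeriodPair}
    {π : ℂ →+ Pt (W0 p)} (h : Unif (W0 p) L π) (ho : Hom L L om) {E : Finset (Pt (W0 p))}
    (hE : ∀ Q, Q ∈ E ↔ p • Q = 0) (hc : E.card = p ^ 2) :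
    2 * V.v ((C ((p : ℂ) ^ 2) * ∏ Q ∈ E.erase 0, (X - C (px Q))).coeff (p ^ 2 - p)) < 1 := by
  have hs := om_sym h ho hE
  have hcard : (E.erase 0).card = p ^ 2 - 1 := by
    rw [Finset.card_erase_of_mem ((hE 0).2 (smul_zero _)), hc]
  rw [hcard] at hs
  rw [coeff_C_mul]
  by_cases e : p = 3
  · subst e
    have hb : ((W0 3).b₂ / 12) ^ 2 = 1 / 3 := by
      have h : ((Real.sqrt 3 : ℝ) : ℂ) ^ 2 = 3 := by
        rw [← Complex.ofReal_pow, Real.sq_sqrt (by norm_num)]; norm_num
      simp only [W0, if_true, b₂]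
      linear_combination (1 / 9) * h
    have hG : ∏ Q ∈ E.erase 0, (X - C (px Q)) =
        (∏ Q ∈ E.erase 0, (X - C (px Q + (W0 3).b₂ / 12))).comp (X + C ((W0 3).b₂ / 12)) := by
      rw [Polynomial.prod_comp]
      refine Finset.prod_congr rfl fun Q _ => ?_
      rw [sub_comp, X_comp, C_comp, map_add]
      ring
    have hm : (∏ Q ∈ E.erase 0, (X - C (px Q + (W0 3).b₂ / 12))).Monic :=
      monic_prod_of_monic _ _ fun _ _ => monic_X_sub_C _
    have hd : (∏ Q ∈ E.erase 0, (X - C (px Q + (W0 3).b₂ / 12))).natDegree = 8 := by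
      rw [natDegree_prod_of_monic _ _ fun _ _ => monic_X_sub_C _]
      simp only [natDegree_X_sub_C, Finset.sum_const, hcard]
      norm_num
    rw [hG]
    generalize (∏ Q ∈ E.erase 0, (X - C (px Q + (W0 3).b₂ / 12))) = G at hs hm hd
    have g6 : G.coeff 6 = 0 := coeff_vanish (d := 2) (hs 6) (by norm_num)
    have g7 : G.coeff 7 = 0 := coeff_vanish (d := 1) (hs 7) (by norm_num)
    have g8 : G.coeff 8 = 1 := by rw [← hd]; exact hm.coeff_natDegree
    have hco : (G.comp (X + C ((W0 3).b₂ / 12))).coeff 6 = 28 / 3 := by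
      rw [comp, eval₂_eq_sum_range, hd, finsetSum_coeff]
      simp only [coeff_C_mul, coeff_X_add_C_pow, Finset.sum_range_succ, Finset.sum_range_zero,
        g6, g7, g8]
      norm_num [Nat.choose]
      linear_combination 28 * hb
    have e6 : 3 ^ 2 - 3 = 6 := by norm_num
    rw [e6, hco]
    have e2 : ((3 : ℕ) : ℂ) ^ 2 * (28 / 3) = ((3 : ℕ) : ℂ) * ((28 : ℕ) : ℂ) := by norm_num
    rw [e2, map_mul, V.vp, V.v_nat_eq_one hp (by norm_num), mul_one]
    rw [mul_inv_lt_iff₀ (by norm_num)]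
    norm_num
  · have hb : (W0 p).b₂ = 0 := by
      simp only [W0, if_neg e, b₂]; norm_num
    have h0 : p % 3 ≠ 0 := fun e0 =>
      e ((Nat.prime_dvd_prime_iff_eq Nat.prime_three hp).1 (Nat.dvd_of_mod_eq_zero e0)).symm
    have h1 := hs (p ^ 2 - p)
    simp only [hb, zero_div, add_zero] at h1
    have h2 : p ^ 2 - 1 = p ^ 2 - p + (p - 1) := by
      have := hp.pos
      have : p ≤ p ^ 2 := by nlinarith
      omega
    rw [h2] at h1
    rw [coeff_vanish h1 (by have := hp.pos; omega)]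
    simp

end CondAP

open CondAP in
theorem condA (H : Tools) : S_CondA := by
  intro p V W L π r γ t n hp h3 hW hU hC hγ hn hq
  have hp0 : (p : ℂ) ≠ 0 := by exact_mod_cast hp.ne_zero
  have hγ0 : γ ≠ 0 := by
    rintro rfl
    exact hn (by rw [zero_div]; exact Hom.zero L L)
  obtain ⟨g0, c0, -⟩ := H.model p V hp
  obtain ⟨L0, π0, hU0⟩ := H.unifEx (W0 p) g0.Δ_ne
  have ho : Hom L0 L0 om := (H.omega L0).1 (by
    have := hU0.c4
    rw [c0] at this
    simpa using this)
  obtain ⟨T, A1, B1, hT⟩ := H.velu W W L L π π γ hU hU hγ0 hγ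
  obtain ⟨E, A, B, hE⟩ := H.velu W W L L π π p hU hU hp0 (Hom.nat L p)
  obtain ⟨E0, A0, B0, hE0⟩ := H.velu _ _ L0 L0 π0 π0 p hU0 hU0 hp0 (Hom.nat L0 p)
  obtain ⟨-, -, -, hB, hc⟩ := H.div p V r W (W0 p) L L0 π π0 p E E0 A B A0 B0 hW g0 hC hU hU0
    hE hE0
  obtain ⟨-, -, -, -, hc0⟩ := H.div p V r (W0 p) W L0 L π0 π p E0 E A0 B0 A B g0 hW hC.symm hU0
    hU hE0 hE
  obtain ⟨-, -, -, d1, -⟩ := H.int p V W W L L π π γ _ T A1 B1 hp hW hW hU hU hT
  obtain ⟨-, -, -, d2, d3⟩ := H.int p V W W L L π π p _ E A B hp hW hW hU hU hE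
  simp only [mulPt_nat hU] at d2
  obtain ⟨l, hl, hl'⟩ : ∃ l ∈ L.lattice, γ / p * l ∉ L.lattice := by
    by_contra e
    push Not at e
    exact hn e
  have hphi : mulPt π π γ (π (l / p)) = π (γ / p * l) := by
    rw [mulPt_apply hU hU hγ]
    congr 1
    ring
  have hD : Dat V.M p (mulPt π π γ) T E (π (l / p)) (π ((γ / p * l - t * l) / p)) :=
    { ht := ⟨Place.one_le_M, Place.M_zero, Place.M_neg, (H.lh p V W hW).2.2.1⟩
      prime := hp
      kerT := hT.ker
      kerE := fun Q => by rw [hE.ker, mulPt_nat hU]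
      card := hc
      distT := d1
      distE := d2
      tot := by
        rw [V.vp] at d3
        have hp1 : (p : ℝ≥0) ≠ 0 := by exact_mod_cast hp.ne_zero
        rw [← one_mul (∏ Q ∈ E.erase 0, V.M Q), ← one_pow 2, ← mul_inv_cancel₀ hp1, mul_pow,
          mul_assoc, d3, mul_one]
      hP := by
        rw [← map_nsmul, hU.ker, nsmul_eq_mul, mul_div_cancel₀ _ hp0]
        exact hl
      hQ := by
        rw [mulPt_apply hU hU hγ, hU.ker]
        have : γ * ((γ / p * l - t * l) / p) = ((-n : ℤ) : ℂ) * l := by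
          push_cast
          field_simp
          linear_combination l * hq
        rw [this]
        exact Hom.int L _ l hl
      hc := by
        rw [hphi, ← map_nsmul, nsmul_eq_mul, mul_div_cancel₀ _ hp0, map_sub,
          (hU.ker _).2 (Hom.int L t l hl), sub_zero]
      ne := by
        rw [hphi, Ne, hU.ker]
        exact hl' }
  have k1 := coeff_big hD
  have k2 := coeff_small V hp h3 hU0 ho (E := E0) (fun Q => by rw [hE0.ker, mulPt_nat hU0]) hc0
  rw [← hE.B_eq] at k1
  rw [← hE0.B_eq] at k2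
  have k3 := (V.coeff_le_gn (B - B0) (p ^ 2 - p)).trans hB
  rw [coeff_sub, V.v.map_sub_eq_of_lt_left
    (lt_of_mul_lt_mul_left (k2.trans_le k1) zero_le)] at k3
  exact k1.trans (mul_le_mul' le_rfl k3)

end Pool.Agent.P.MP_94fe55_nt
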