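import Pool.Agent.P.MP_94fe55_nt.Kap

set_option autoImplicit false

namespace Pool.Agent.P.MP_94fe55_nt

open Polynomial WeierstrassCurve
open scoped NNReal

namespace CondBP

theorem exists_root {p : ℕ} (hp : p.Prime) (h3 : p % 3 = 1) :
    ∃ r : ℤ, (p : ℤ) ∣ r ^ 2 + r + 1 := by
  have : Fact p.Prime := ⟨hp⟩
  have : Fact (Nat.Prime 3) := ⟨Nat.prime_three⟩
  obtain ⟨x, hx⟩ := exists_prime_orderOf_dvd_card (G := (ZMod p)ˣ) 3 (by
    rw [ZMod.card_units]; omega)
  have h1 : (x : ZMod p) ^ 3 = 1 := by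
    have := pow_orderOf_eq_one x
    rw [hx] at this
    rw [← Units.val_pow_eq_pow_val, this, Units.val_one]
  have h2 : (x : ZMod p) ≠ 1 := by
    intro e
    have : x = 1 := Units.ext e
    rw [this, orderOf_one] at hx
    omega
  obtain ⟨r, hr⟩ := ZMod.intCast_surjective (x : ZMod p)
  refine ⟨r, (ZMod.intCast_zmod_eq_zero_iff_dvd _ p).1 ?_⟩
  push_cast
  rw [hr]
  apply mul_left_cancel₀ (sub_ne_zero.2 h2)
  linear_combination h1

theorem twist {R : Type} [Ring R] (g w : R) (r : ℤ) (h : w * w + w + 1 = 0) :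
    (g * w - w * g) * (w - r) = (w * w - r) * (g * w - w * g) := by
  have e : w * w = -w - 1 := by rw [← sub_eq_zero, ← h]; abel
  have c1 : (g * w - w * g) * r = r * (g * w - w * g) := (Int.cast_commute r _).symm
  have c2 : (g * w - w * g) * w = (w * w) * (g * w - w * g) := by
    have e1 : (g * w - w * g) * w = g * (w * w) - w * g * w := by noncomm_ring
    have e2 : (w * w) * (g * w - w * g) = (w * w) * g * w - w * (w * w) * g := by noncomm_ring
    have e3 : w * (-w - 1) = 1 := by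
      have : w * (-w - 1) = -(w * w) - w := by noncomm_ring
      rw [this, e]; abel
    rw [e1, e2, e, e3]; noncomm_ring
  rw [mul_sub, sub_mul (w * w), c1, c2]

variable {p : ℕ} {V : Place p} {Wb : WeierstrassCurve V.k}

theorem comm (H : Tools) (hp : p.Prime) (h3 : p % 3 = 1) (E0 : Lift V Wb)
    (hom : Hom E0.L E0.L om) {g : AddMonoid.End (ptor p Wb)}
    (hg : Alg (ptor p Wb).subtype g) : g * kap E0 E0 om = kap E0 E0 om * g := by
  have h := E0.facts H.ring hp
  obtain ⟨r, hr⟩ := exists_root hp h3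
  by_contra hne
  have hw := kap_alg H hp E0 E0 hom
  have hδ : Alg (ptor p Wb).subtype (g * kap E0 E0 om - kap E0 E0 om * g) :=
    h.alg_sub (h.alg_mul _ _ hg hw) (h.alg_mul _ _ hw hg)
  have hpos := h.e_pos _ hδ (sub_ne_zero.2 hne)
  have ha : Hom E0.L E0.L (om - r) := hom.sub (Hom.int _ r)
  have hb : Hom E0.L E0.L (om * om - r) := (hom.comp hom).sub (Hom.int _ r)
  have ea : kap E0 E0 (om - r) = kap E0 E0 om - r := by
    rw [kap_sub E0 E0 hom (Hom.int _ r), kap_int]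
  have eb : kap E0 E0 (om * om - r) = kap E0 E0 om * kap E0 E0 om - r := by
    rw [kap_sub E0 E0 (hom.comp hom) (Hom.int _ r), kap_int, kap_comp E0 E0 E0 hom hom]
  have key : (g * kap E0 E0 om - kap E0 E0 om * g) * kap E0 E0 (om - r) =
      kap E0 E0 (om * om - r) * (g * kap E0 E0 om - kap E0 E0 om * g) := by
    rw [ea, eb]
    exact twist _ _ r (kap_om E0 hom)
  have e1 := congrArg (ed (ptor p Wb).subtype) key
  rw [h.e_mul _ _ hδ (kap_alg H hp E0 E0 ha), h.e_mul _ _ (kap_alg H hp E0 E0 hb) hδ,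
    mul_comm] at e1
  have e2 := Nat.eq_of_mul_eq_mul_right hpos e1
  have hprod : (om - r) * (om * om - r) = ((r ^ 2 + r + 1 : ℤ) : ℂ) := by
    push_cast
    linear_combination (om - 1 - r) * om_sq
  have hn : ((r ^ 2 + r + 1 : ℤ) : ℂ) ≠ 0 := by
    have : (0 : ℤ) < r ^ 2 + r + 1 := by nlinarith [sq_nonneg (2 * r + 1)]
    exact_mod_cast this.ne'
  have hlt : V.v (om - r) * V.v (om * om - r) < 1 := by
    rw [← map_mul, hprod]
    obtain ⟨k, hk⟩ := hr
    rw [hk]
    push_cast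
    rw [map_mul]
    exact lt_of_le_of_lt (mul_le_of_le_one_right' (V.v_int_le k)) (V.v_p_lt hp)
  have h1 : V.v ((om - r) - (om * om - r)) = 1 := by
    have e : ((om - r) - (om * om - r)) ^ 2 = -((3 : ℕ) : ℂ) := by
      push_cast
      linear_combination (om ^ 2 - 3 * om + 3) * om_sq
    have e' : V.v ((om - r) - (om * om - r)) ^ 2 = 1 := by
      rw [← map_pow, e, V.v.map_neg]
      refine V.v_nat_eq_one hp fun hd => ?_
      have := (Nat.prime_dvd_prime_iff_eq hp Nat.prime_three).1 hd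
      omega
    exact (pow_eq_one_iff_of_nonneg zero_le two_ne_zero).1 e'
  have a0 : om - r ≠ 0 := fun e => hn (by rw [← hprod, e, zero_mul])
  have b0 : om * om - r ≠ 0 := fun e => hn (by rw [← hprod, e, mul_zero])
  rcases (v_le_of_hom H hp E0 E0 ha).eq_or_lt with va | va
  · rw [va, one_mul] at hlt
    have := kap_ed_two H hp E0 E0 hb b0 hlt
    rw [← e2, kap_ed_one H hp E0 E0 ha va] at this
    omega
  · rcases (v_le_of_hom H hp E0 E0 hb).eq_or_lt with vb | vb
    · have := kap_ed_two H hp E0 E0 ha a0 va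
      rw [e2, kap_ed_one H hp E0 E0 hb vb] at this
      omega
    · exact absurd h1 (V.v.map_sub_lt va vb).ne

theorem same_red (H : Tools) (hp : p.Prime) (h3 : p % 3 = 1) (E E0 : Lift V Wb)
    (hom : Hom E0.L E0.L om) {γ : ℂ} {t n : ℤ} (hγ : Hom E.L E.L γ)
    (hq : γ ^ 2 = p * t * γ - (p : ℂ) ^ 2 * n) (hD : 0 < 4 * n - t ^ 2) :
    ∃ β, Hom E0.L E0.L β ∧ kap E E γ = kap E0 E0 (p * β) := by
  have h := E0.facts H.ring hp
  have Q := H.quat _ _ h.qf
  let g : h.sub := ⟨kap E E γ, kap_alg H hp E E hγ⟩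
  let w : h.sub := ⟨kap E0 E0 om, kap_alg H hp E0 E0 hom⟩
  have hw : w * w + w + 1 = 0 := Subtype.ext (kap_om E0 hom)
  have hc : g * w = w * g := Subtype.ext (comm H hp h3 E0 hom g.2)
  have hg0 : g * g = ((p * t : ℤ) : h.sub) * g - (((p : ℤ) ^ 2 * n : ℤ) : h.sub) :=
    Subtype.ext (kap_quad E (t := p * t) (n := (p : ℤ) ^ 2 * n) hγ (by rw [hq]; push_cast; ring))
  obtain ⟨u, v, e⟩ := Q.cube w g p t n hw hc (by exact_mod_cast hp.ne_zero)
    (by rw [hg0]; push_cast; rfl) hD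
  have hβ : Hom E0.L E0.L ((u : ℂ) + v * om) := (Hom.int _ u).add ((Hom.int _ v).comp hom)
  refine ⟨u + v * om, hβ, ?_⟩
  have e1 := kap_int_mul E0 E0 hβ p
  rw [Int.cast_natCast] at e1
  rw [e1, kap_add E0 E0 (Hom.int _ u) ((Hom.int _ v).comp hom), kap_int, kap_int_mul E0 E0 hom]
  exact congrArg Subtype.val e

theorem v_eval_eq {A B : ℂ[X]} (hm : A.Monic) (hA : V.gn A ≤ 1) (hB : V.gn B ≤ 1)
    (hc : IsCoprime (V.redP A) (V.redP B)) {x : ℂ}
    (h : V.v (B.eval x) < max 1 (V.v x) ^ A.natDegree) :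
    V.v (A.eval x) = max 1 (V.v x) ^ A.natDegree := by
  rcases le_or_gt (V.v x) 1 with hx | hx
  · rw [max_eq_left hx, one_pow] at h ⊢
    have h1 : V.v (A.eval x) ≤ 1 := (Place.v_eval_le A hx).trans hA
    rw [← Place.red_ne_zero h1]
    intro e
    obtain ⟨a, b, hab⟩ := hc
    have := congrArg (eval (V.red x)) hab
    rw [eval_add, eval_mul, eval_mul, Place.eval_redP hA hx, Place.eval_redP hB hx, e,
      (Place.red_eq_zero h.le).2 h] at this
    simp at this
  · rw [max_eq_right hx.le]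
    exact Place.v_eval_monic hm hA hx

theorem cross (H : Tools) (hp : p.Prime) (E E0 : Lift V Wb) {s : ℝ≥0} (hs : s < 1)
    (hcl : V.Close (s ^ 2) E.W E0.W) {γ c : ℂ}
    (e : kap E E γ = kap E0 E0 c) {T : Finset (Pt E.W)} {T0 : Finset (Pt E0.W)}
    {A B A0 B0 : ℂ[X]} (h : Isog E.W E.W γ (mulPt E.π E.π γ) T A B)
    (h0 : Isog E0.W E0.W c (mulPt E0.π E0.π c) T0 A0 B0) : V.gn (A * B0 - A0 * B) ≤ s := by
  obtain ⟨-, gB, -⟩ := H.int p V _ _ _ _ _ _ _ _ _ _ _ hp E.good E.good E.unif E.unif h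
  obtain ⟨gA0, gB0, -⟩ := H.int p V _ _ _ _ _ _ _ _ _ _ _ hp E0.good E0.good E0.unif E0.unif h0
  refine E.interp hp _ s ((T.finite_toSet.preimage Subtype.val_injective.injOn).subset ?_)
  intro P hP
  by_contra hT
  have h1 : mulPt E.π E.π γ P.1 ≠ 0 := fun e => hT ((h.ker _).2 e)
  apply hP
  obtain ⟨P0, hP0⟩ := E0.ρ.surjective (E.ρ P)
  have e2 : E.ρ (res p (mulPt E.π E.π γ) P) = E0.ρ (res p (mulPt E0.π E0.π c) P0) := by
    rw [← kap_apply, ← kap_apply, e, hP0]
  have h2 : mulPt E0.π E0.π c P0.1 ≠ 0 := by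
    intro e3
    have e4 : res p (mulPt E0.π E0.π c) P0 = 0 := Subtype.ext e3
    rw [e4, map_zero, EmbeddingLike.map_eq_zero_iff] at e2
    exact h1 (congrArg Subtype.val e2)
  have n1 := (H.near p V Wb E E0 s hp hs hcl P P0 hP0.symm).1
  have n2 := (H.near p V Wb E E0 s hp hs hcl _ _ e2).1
  simp only [res_val] at n2
  have i1 := E.px_le P
  have i2 := E0.px_le P0
  have i3 := E.px_le (res p (mulPt E.π E.π γ) P)
  simp only [res_val] at i3
  have x1 := h.x_eq h1
  have x2 := h0.x_eq h2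
  have : (A * B0 - A0 * B).eval (px P.1) = B.eval (px P.1) *
      ((px (mulPt E.π E.π γ P.1) * B0.eval (px P.1) -
        px (mulPt E0.π E0.π c P0.1) * B0.eval (px P0.1)) -
        (A0.eval (px P.1) - A0.eval (px P0.1))) := by
    rw [eval_sub, eval_mul, eval_mul, ← x1, x2]; ring
  rw [this]
  refine Place.le_mul ((Place.v_eval_le B i1).trans gB.le) (Place.le_sub ?_ ?_)
  · exact Place.v_mul_sub_mul i3 ((Place.v_eval_le B0 i2).trans gB0.le) n2
      ((Place.v_eval_sub_le gB0.le i1 i2).trans n1)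
  · exact (Place.v_eval_sub_le gA0 i1 i2).trans n1

theorem height_le (H : Tools) (hp : p.Prime) {W : WeierstrassCurve ℂ} {L : PeriodPair}
    {π : ℂ →+ Pt W} (hW : V.Good W) (hu : Unif W L π) {R : Pt W} (h0 : R ≠ 0) (hR : p • R = 0) :
    V.M R ≤ 4 := by
  classical
  have : Fact p.Prime := ⟨hp⟩
  have hp0 : (p : ℂ) ≠ 0 := by exact_mod_cast hp.ne_zero
  obtain ⟨T, A, B, h⟩ := H.velu _ _ _ _ _ _ (p : ℂ) hu hu hp0 (Hom.nat L p)
  have hprod := (H.int p V _ _ _ _ _ _ _ _ _ _ _ hp hW hW hu hu h).2.2.2.2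
  have ho : addOrderOf R = p := addOrderOf_eq_prime hR h0
  have hne : ∀ k, 0 < k → k < p → k • R ≠ 0 := fun k h1 h2 =>
    nsmul_ne_zero_of_lt_addOrderOf h1.ne' (ho ▸ h2)
  have hM : ∀ k, k + 1 < p → V.M R ≤ V.M ((k + 1) • R) := by
    intro k
    induction k with
    | zero => intro _; simp
    | succ k ih =>
      intro hk
      have := (H.lh p V W hW).2.2.1 ((k + 1) • R) R (hne _ (by omega) (by omega)) h0
        (by rw [← succ_nsmul]; exact hne _ (by omega) hk)
      rw [← succ_nsmul] at this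
      exact le_trans (le_min (ih (by omega)) le_rfl) this
  have hsub : (Finset.range (p - 1)).image (fun k => (k + 1) • R) ⊆ T.erase 0 := by
    intro Q hQ
    obtain ⟨k, hk, rfl⟩ := Finset.mem_image.1 hQ
    have hk' := Finset.mem_range.1 hk
    refine Finset.mem_erase.2 ⟨hne _ (by omega) (by omega), (h.ker _).2 ?_⟩
    rw [mulPt_nat hu, smul_comm, hR, smul_zero]
  have hinj : Set.InjOn (fun k => (k + 1) • R) (Finset.range (p - 1) : Set ℕ) := by
    intro a ha b hb e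
    have ha' := Finset.mem_range.1 ha
    have hb' := Finset.mem_range.1 hb
    have := nsmul_injOn_Iio_addOrderOf (x := R) (show a + 1 < addOrderOf R by omega)
      (show b + 1 < addOrderOf R by omega) e
    omega
  have h1 : V.M R ^ (p - 1) ≤ ∏ Q ∈ T.erase 0, V.M Q := by
    refine le_trans ?_ (Finset.prod_le_prod_of_subset_of_one_le' hsub
      fun Q _ _ => V.one_le_M Q)
    rw [Finset.prod_image hinj]
    have := Finset.pow_card_le_prod (Finset.range (p - 1)) (fun k => V.M ((k + 1) • R)) (V.M R)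
      fun k hk => hM k (by have := Finset.mem_range.1 hk; omega)
    rwa [Finset.card_range] at this
  have hpp : (0 : ℝ≥0) < p := by exact_mod_cast hp.pos
  have h2 : ∏ Q ∈ T.erase 0, V.M Q = (p : ℝ≥0) ^ 2 := by
    rw [V.vp, inv_pow, inv_mul_eq_one₀ (pow_ne_zero _ hpp.ne')] at hprod
    exact hprod.symm
  have h3 : (p : ℝ≥0) ^ 2 ≤ 4 ^ (p - 1) := by
    have a1 : p ≤ 2 ^ (p - 1) := by
      have := Nat.lt_two_pow_self (n := p - 1)
      omega
    have a2 : p ^ 2 ≤ 4 ^ (p - 1) := by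
      calc p ^ 2 ≤ (2 ^ (p - 1)) ^ 2 := Nat.pow_le_pow_left a1 2
        _ = 4 ^ (p - 1) := by rw [← pow_mul, mul_comm, pow_mul]; norm_num
    exact_mod_cast a2
  have h4 : p - 1 ≠ 0 := by have := hp.two_le; omega
  exact (pow_le_pow_iff_left₀ zero_le zero_le h4).1 (h1.trans (h2 ▸ h3))

end CondBP

open CondBP in
theorem condB (H : Tools) : S_CondB := by
  classical
  intro p V Wb E E0 r γ t n hp h3 hcl hom hγ hnγ hq hD
  by_contra hr
  have hr' : 16 * r < 1 := not_le.1 hr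
  obtain ⟨s, rfl⟩ : ∃ s : ℝ≥0, r = s ^ 2 := ⟨NNReal.sqrt r, (NNReal.sq_sqrt r).symm⟩
  have hs4 : 4 * s < 1 := by
    have : (4 * s) ^ 2 < 1 := by rw [mul_pow]; norm_num; exact hr'
    exact (pow_lt_one_iff_of_nonneg zero_le two_ne_zero).1 this
  have hs : s < 1 := lt_of_le_of_lt (le_mul_of_one_le_left zero_le (by norm_num)) hs4
  have hss : s ^ 2 ≤ s := by rw [sq]; exact mul_le_of_le_one_right' hs.le
  have hp0 : (p : ℂ) ≠ 0 := by exact_mod_cast hp.ne_zero
  have hγ0 : γ ≠ 0 := by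
    rintro rfl
    exact hnγ (by rw [zero_div]; exact Hom.zero _ _)
  obtain ⟨β, hβ, e⟩ := same_red H hp h3 E E0 hom hγ hq hD
  have hc : Hom E0.L E0.L (p * β) := (Hom.nat _ p).comp hβ
  have hc0 : (p : ℂ) * β ≠ 0 := by
    intro e0
    rw [e0, kap_zero] at e
    exact kap_ne_zero H hp E E hγ hγ0 e
  obtain ⟨T, A, B, h⟩ := H.velu _ _ _ _ _ _ γ E.unif E.unif hγ0 hγ
  obtain ⟨T0, A0, B0, h0⟩ := H.velu _ _ _ _ _ _ _ E0.unif E0.unif hc0 hc
  obtain ⟨Tp, Ap, Bp, hP⟩ := H.velu _ _ _ _ _ _ (p : ℂ) E.unif E.unif hp0 (Hom.nat _ p)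
  obtain ⟨Tq, Aq, Bq, hQ⟩ := H.velu _ _ _ _ _ _ (p : ℂ) E0.unif E0.unif hp0 (Hom.nat _ p)
  obtain ⟨gA, gB, cAB, -⟩ := H.int p V _ _ _ _ _ _ _ _ _ _ _ hp E.good E.good E.unif E.unif h
  obtain ⟨gA0, gB0, cAB0, -⟩ :=
    H.int p V _ _ _ _ _ _ _ _ _ _ _ hp E0.good E0.good E0.unif E0.unif h0
  obtain ⟨-, gBq, -⟩ := H.int p V _ _ _ _ _ _ _ _ _ _ _ hp E0.good E0.good E0.unif E0.unif hQ
  obtain ⟨-, -, -, dB, cp⟩ := H.div p V _ _ _ _ _ _ _ p _ _ _ _ _ _ E.good E0.good hcl
    E.unif E0.unif hP hQ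
  obtain ⟨-, -, -, -, cq⟩ := H.div p V _ _ _ _ _ _ _ p _ _ _ _ _ _ E0.good E.good hcl.symm
    E0.unif E.unif hQ hP
  have hdeg : A0.natDegree = A.natDegree := by
    have r1 := (H.red p V Wb E E γ T A B hp h).1
    have r2 := (H.red p V Wb E0 E0 _ T0 A0 B0 hp h0).1
    rw [← e] at r2
    have := ((E.facts H.ring hp).uniq _ _ _ _ _ r1 r2).1
    rw [← Place.natDegree_redP_monic (V := V) h.monic,
      ← Place.natDegree_redP_monic (V := V) h0.monic, this]
  have hx := cross H hp E E0 hs hcl e h h0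
  -- the factorisation of the denominator
  have hsub : Tq.erase 0 ⊆ T0.erase 0 := by
    refine Finset.erase_subset_erase _ fun Q hQ' => (h0.ker _).2 ?_
    rw [mul_comm, mulPt_comp E0.unif E0.unif E0.unif (Hom.nat _ p) hβ, AddMonoidHom.comp_apply,
      (hQ.ker _).1 hQ', map_zero]
  obtain ⟨G, hG⟩ : ∃ G : ℂ[X], B0 = G * Bq := by
    refine ⟨C (β ^ 2) * ∏ Q ∈ T0.erase 0 \ Tq.erase 0, (X - C (px Q)), ?_⟩
    rw [h0.B_eq, hQ.B_eq, ← Finset.prod_sdiff hsub, mul_pow, C_mul]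
    ring
  have gG : V.gn G = 1 := by rwa [hG, map_mul, gBq, mul_one] at gB0
  have hG0 : G ≠ 0 := by
    rintro rfl
    simp at gG
  have dG : G.natDegree + Bq.natDegree = B0.natDegree := by
    rw [hG, natDegree_mul hG0 hQ.B_ne]
  -- the torsion point
  obtain ⟨l, hl, hl'⟩ : ∃ l ∈ E.L.lattice, γ / p * l ∉ E.L.lattice := by
    by_contra hcon
    push Not at hcon
    exact hnγ hcon
  set Q := E.π (l / p) with hQdef
  have hφ : mulPt E.π E.π γ Q ≠ 0 := by
    rw [hQdef, mulPt_apply E.unif E.unif hγ, Ne, E.unif.ker]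
    rwa [show γ * (l / p) = γ / p * l by ring]
  have hQ0 : Q ≠ 0 := fun e0 => hφ (by rw [e0, map_zero])
  have hpQ : p • Q = 0 := by
    rw [hQdef, ← map_nsmul, E.unif.ker, nsmul_eq_mul, mul_div_cancel₀ _ hp0]
    exact hl
  have z1 : Bp.eval (px Q) = 0 := hP.B_eval_zero hQ0 (by rw [mulPt_nat E.unif, hpQ])
  set M := max 1 (V.v (px Q)) with hM
  have M1 : 1 ≤ M := le_max_left _ _
  have M0 : 0 < M := zero_lt_one.trans_le M1
  have d1 := h.natDegree_B
  have d0 := h0.natDegree_B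
  have dp := hP.natDegree_B
  have dq := hQ.natDegree_B
  rw [hP.deg, cp] at dp
  rw [hQ.deg, cq] at dq
  set N := B.natDegree with hN
  have v1 : V.v (Bq.eval (px Q)) ≤ s * M ^ Bq.natDegree := by
    have := Place.v_eval_le' (V := V) (Bp - Bq) (px Q) (n := Bq.natDegree)
      ((natDegree_sub_le _ _).trans (max_le (by omega) le_rfl))
    rw [eval_sub, z1, zero_sub, V.v.map_neg] at this
    exact this.trans (mul_le_mul_left (dB.trans hss) _)
  have v2 : V.v (B0.eval (px Q)) ≤ s * M ^ N := by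
    have := Place.v_eval_le' (V := V) G (px Q) le_rfl
    rw [gG, one_mul] at this
    have e1 : N = G.natDegree + Bq.natDegree := by omega
    rw [e1, pow_add, mul_left_comm]
    conv_lhs => rw [hG, eval_mul, map_mul]
    exact mul_le_mul' this v1
  have lt1 : s * M ^ N < M ^ (N + 1) := by
    rw [pow_succ']
    exact mul_lt_mul_of_pos_right (hs.trans_le M1) (pow_pos M0 _)
  have v3 : V.v (A0.eval (px Q)) = M ^ (N + 1) := by
    have := v_eval_eq h0.monic gA0 gB0.le cAB0 (x := px Q) (by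
      rw [hdeg, ← d1]; exact v2.trans_lt lt1)
    rwa [hdeg, ← d1] at this
  have v4 : V.v (B.eval (px Q)) ≤ s * M ^ N := by
    have a1 := Place.v_eval_le' (V := V) (A * B0 - A0 * B) (px Q) (n := N + 1 + N)
      ((natDegree_sub_le _ _).trans (max_le (natDegree_mul_le.trans (by omega))
        (natDegree_mul_le.trans (by omega))))
    have a2 : V.v ((A * B0 - A0 * B).eval (px Q)) ≤ M ^ (N + 1) * (s * M ^ N) := by
      rw [mul_left_comm, ← pow_add]
      exact a1.trans (mul_le_mul_left hx _)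
    have a3 : V.v ((A * B0).eval (px Q)) ≤ M ^ (N + 1) * (s * M ^ N) := by
      rw [eval_mul, map_mul]
      refine mul_le_mul' ?_ v2
      have := Place.v_eval_le' (V := V) A (px Q) (n := N + 1) (by omega)
      exact this.trans (mul_le_of_le_one_left' gA)
    have a4 := Place.le_sub a3 a2
    rw [eval_sub, sub_sub_cancel, eval_mul, map_mul, v3] at a4
    exact le_of_mul_le_mul_left a4 (pow_pos M0 _)
  have v5 : V.v (A.eval (px Q)) = M ^ (N + 1) := by
    have := v_eval_eq h.monic gA gB.le cAB (x := px Q) (by rw [← d1]; exact v4.trans_lt lt1)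
    rwa [← d1] at this
  have v6 := height_le H hp E.good E.unif hφ (by rw [← map_nsmul, hpQ, map_zero])
  have v7 : M ^ (N + 1) ≤ 4 * (s * M ^ N) := by
    rw [← v5, ← h.x_eq hφ, map_mul]
    exact mul_le_mul' ((le_max_right _ _).trans v6) v4
  rw [← mul_assoc, pow_succ'] at v7
  exact absurd (le_of_mul_le_mul_right v7 (pow_pos M0 _)) (not_le.2 (hs4.trans_le M1))

end Pool.Agent.P.MP_94fe55_nt
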