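import Pool.Agent.P.MP_94fe55_nt.Lat

set_option autoImplicit false

namespace Pool.Agent.P.MP_94fe55_nt

open Polynomial WeierstrassCurve Filter Topology

namespace ConvP

/-- the differential equation satisfied by `z ^ 2 * F z` -/
def Ode (c b2 b4 b6 : ℂ) (G : ℂ → ℂ) : Prop :=
  ∀ᶠ z in 𝓝[≠] (0 : ℂ), (z * deriv G z - 2 * G z) ^ 2 =
    c ^ 2 * (4 * G z ^ 3 + b2 * z ^ 2 * G z ^ 2 + 2 * b4 * z ^ 4 * G z + b6 * z ^ 6)

theorem ode_unique {c b2 b4 b6 : ℂ} {G H : ℂ → ℂ} (hG : AnalyticAt ℂ G 0)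
    (hH : AnalyticAt ℂ H 0) (h0 : c ^ 2 * G 0 = 1) (h1 : H 0 = G 0) (oG : Ode c b2 b4 b6 G)
    (oH : Ode c b2 b4 b6 H) : ∀ᶠ z in 𝓝 (0 : ℂ), G z = H z := by
  by_contra hne
  have hD : AnalyticAt ℂ (fun z => G z - H z) 0 := hG.sub hH
  have hne' : ¬ ∀ᶠ z in 𝓝 (0 : ℂ), G z - H z = 0 := by
    intro h
    exact hne (h.mono fun z hz => sub_eq_zero.1 hz)
  obtain ⟨m, u, hu, hu0, hm⟩ := hD.exists_eventuallyEq_pow_smul_nonzero_iff.2 hne'
  simp only [sub_zero, smul_eq_mul] at hm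
  have hder : ∀ᶠ z in 𝓝 (0 : ℂ),
      z * (deriv G z - deriv H z) = z ^ m * (m * u z + z * deriv u z) := by
    have e : (fun z => G z - H z) =ᶠ[𝓝 (0 : ℂ)] fun z => z ^ m * u z := hm
    filter_upwards [e.deriv, hG.eventually_analyticAt, hH.eventually_analyticAt,
      hu.eventually_analyticAt] with z hz h1 h2 h3
    have d1 : HasDerivAt (fun z => G z - H z) (deriv G z - deriv H z) z :=
      h1.differentiableAt.hasDerivAt.sub h2.differentiableAt.hasDerivAt
    have d2 : HasDerivAt (fun z => z ^ m * u z) ((m : ℂ) * z ^ (m - 1) * u z + z ^ m * deriv u z)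
        z := (hasDerivAt_pow m z).mul h3.differentiableAt.hasDerivAt
    rw [d1.deriv, d2.deriv] at hz
    rw [hz]
    rcases m with _ | m
    · simp
    · simp only [Nat.add_sub_cancel]; ring
  have key : (fun z => (m * u z + z * deriv u z - 2 * u z) *
        (z * deriv G z + z * deriv H z - 2 * G z - 2 * H z)) =ᶠ[𝓝[≠] (0 : ℂ)]
      fun z => c ^ 2 * u z * (4 * (G z ^ 2 + G z * H z + H z ^ 2) + b2 * z ^ 2 * (G z + H z) +
        2 * b4 * z ^ 4) := by
    filter_upwards [oG, oH, self_mem_nhdsWithin, mem_nhdsWithin_of_mem_nhds hm,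
      mem_nhdsWithin_of_mem_nhds hder] with z e1 e2 hz e3 e4
    have hz' : z ^ m ≠ 0 := pow_ne_zero _ hz
    have e3' : G z - H z = z ^ m * u z := e3
    have e4' : z * (deriv G z - deriv H z) = z ^ m * (m * u z + z * deriv u z) := e4
    apply mul_left_cancel₀ hz'
    linear_combination e1 - e2 -
      (z * deriv G z + z * deriv H z - 2 * G z - 2 * H z) * e4' +
      (2 * (z * deriv G z + z * deriv H z - 2 * G z - 2 * H z) + c ^ 2 *
        (4 * (G z ^ 2 + G z * H z + H z ^ 2) + b2 * z ^ 2 * (G z + H z) + 2 * b4 * z ^ 4)) * e3'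
  have c1 := hG.continuousAt
  have c2 := hH.continuousAt
  have c3 := hu.continuousAt
  have c4 := hG.deriv.continuousAt
  have c5 := hH.deriv.continuousAt
  have c6 := hu.deriv.continuousAt
  have key2 := ((ContinuousAt.eventuallyEq_nhds_iff_eventuallyEq_nhdsNE (by fun_prop)
    (by fun_prop)).1 key).eq_of_nhds
  simp only [h1] at key2
  have hG0 : G 0 ≠ 0 := by
    intro e
    rw [e] at h0
    simp at h0
  have : ((m : ℂ) + 1) * (u 0 * G 0) = 0 := by
    linear_combination (-1 / 4) * key2 - 3 * (u 0 * G 0) * h0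
  rcases mul_eq_zero.1 this with e | e
  · exact Nat.cast_add_one_ne_zero m e
  · exact mul_ne_zero hu0 hG0 e

theorem ode_of {c b2 b4 b6 : ℂ} {G F F' : ℂ → ℂ}
    (e : ∀ᶠ z in 𝓝[≠] (0 : ℂ), G z = z ^ 2 * F z)
    (hF : ∀ᶠ z in 𝓝[≠] (0 : ℂ), HasDerivAt F (F' z) z ∧
      F' z ^ 2 = c ^ 2 * (4 * F z ^ 3 + b2 * F z ^ 2 + 2 * b4 * F z + b6)) :
    Ode c b2 b4 b6 G := by
  have e' : G =ᶠ[𝓝[≠] (0 : ℂ)] fun z => z ^ 2 * F z := e
  filter_upwards [e, e'.nhdsNE_deriv, hF] with z h1 h2 h3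
  have d : HasDerivAt (fun z => z ^ 2 * F z) (((2 : ℕ) : ℂ) * z ^ (2 - 1) * F z + z ^ 2 * F' z) z :=
    (hasDerivAt_pow 2 z).mul h3.1
  rw [h2, d.deriv, h1]
  push_cast
  linear_combination z ^ 6 * h3.2

/-- the affine coordinate -/
noncomputable def xf (L : PeriodPair) (b : ℂ) (z : ℂ) : ℂ := L.weierstrassP z - b / 12

/-- the analytic function `z ^ 2 * xf z` -/
noncomputable def wf (L : PeriodPair) (b : ℂ) (z : ℂ) : ℂ :=
  1 + z ^ 2 * (L.weierstrassPExcept 0 z - b / 12)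

theorem wf_zero (L : PeriodPair) (b : ℂ) : wf L b 0 = 1 := by simp [wf]

theorem wf_analytic (L : PeriodPair) (b : ℂ) : AnalyticAt ℂ (wf L b) 0 := by
  have := L.analyticAt_weierstrassPExcept 0
  unfold wf
  fun_prop

theorem wf_eq (L : PeriodPair) (b : ℂ) {z : ℂ} (hz : z ≠ 0) : wf L b z = z ^ 2 * xf L b z := by
  have := L.weierstrassPExcept_add 0 z
  simp only [ZeroMemClass.coe_zero, sub_zero] at this
  rw [wf, xf, ← this]
  field_simp
  ring

theorem xf_analytic (L : PeriodPair) (b : ℂ) {z : ℂ} (hz : z ∉ L.lattice) :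
    AnalyticAt ℂ (xf L b) z := by
  have := L.analyticOnNhd_weierstrassP z hz
  unfold xf
  fun_prop

theorem xf_deriv (L : PeriodPair) (b : ℂ) {z : ℂ} (hz : z ∉ L.lattice) :
    HasDerivAt (xf L b) (L.derivWeierstrassP z) z := by
  have h := (L.analyticOnNhd_weierstrassP z hz).differentiableAt.hasDerivAt
  rw [L.deriv_weierstrassP] at h
  exact h.sub_const _

theorem xf_sq {W : WeierstrassCurve ℂ} {L : PeriodPair} (h4 : 12 * L.g₂ = W.c₄)
    (h6 : 216 * L.g₃ = W.c₆) {z : ℂ} (hz : z ∉ L.lattice) :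
    L.derivWeierstrassP z ^ 2 = (F3 W X 1).eval (xf L W.b₂ z) := by
  rw [xf, cubic_eq h4 h6, L.derivWeierstrassP_sq z hz]

theorem near_not_mem (L : PeriodPair) {c : ℂ} (hc : c ≠ 0) (a : ℂ) :
    ∀ᶠ z in 𝓝[≠] (0 : ℂ), a + c * z ∉ L.lattice := by
  have h1 : ContinuousAt (fun z : ℂ => a + c * z) 0 := by fun_prop
  have h2 := L.compl_lattice_sdiff_singleton_mem_nhds a
  have h3 : ∀ᶠ z in 𝓝 (0 : ℂ), a + c * z ∈ ((L.lattice : Set ℂ) \ {a})ᶜ :=
    h1.eventually_mem (by simpa using h2)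
  filter_upwards [mem_nhdsWithin_of_mem_nhds h3, self_mem_nhdsWithin] with z hz hz0 hm
  apply hz
  refine ⟨hm, ?_⟩
  have : c * z ≠ 0 := mul_ne_zero hc hz0
  simpa using this

theorem eval_reverse (A : ℂ[X]) {x : ℂ} (hx : x ≠ 0) :
    A.reverse.eval x⁻¹ * x ^ A.natDegree = A.eval x := by
  let _ := invertibleOfNonzero hx
  have := eval₂_reverse_mul_pow (RingHom.id ℂ) x A
  simpa [eval₂_id] using this

theorem analytic_eval {f : ℂ → ℂ} {z : ℂ} (hf : AnalyticAt ℂ f z) (A : ℂ[X]) :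
    AnalyticAt ℂ (fun z => A.eval (f z)) z := by
  simpa [coe_aeval_eq_eval] using hf.aeval_polynomial A

end ConvP

open ConvP

theorem conv : S_Conv := by
  intro W W' L L' c A B h4 h6 h4' h6' hc hA hdeg hB hode
  set x := xf L W.b₂ with hx
  set x' := xf L' W'.b₂ with hx'
  set w := wf L W.b₂ with hw
  have hw0 : w 0 = 1 := wf_zero _ _
  have hwa : AnalyticAt ℂ w 0 := wf_analytic _ _
  let ξ : ℂ → ℂ := fun z => z ^ 2 / w z
  have hξa : AnalyticAt ℂ ξ 0 :=
    (analyticAt_id.pow 2).div hwa (by rw [hw0]; exact one_ne_zero)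
  have hξ0 : ξ 0 = 0 := by simp [ξ]
  have hAa := analytic_eval hξa A.reverse
  have hBa := analytic_eval hξa B.reverse
  have hA0 : A.reverse.eval (ξ 0) = 1 := by
    rw [hξ0, ← coeff_zero_eq_eval_zero, coeff_zero_reverse, hA.leadingCoeff]
  have hB0 : B.reverse.eval (ξ 0) = c ^ 2 := by
    rw [hξ0, ← coeff_zero_eq_eval_zero, coeff_zero_reverse, hB]
  have hc2 : c ^ 2 ≠ 0 := pow_ne_zero _ hc
  let G : ℂ → ℂ := fun z => w z * A.reverse.eval (ξ z) / B.reverse.eval (ξ z)
  let H : ℂ → ℂ := fun z => wf L' W'.b₂ (c * z) / c ^ 2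
  have hGa : AnalyticAt ℂ G 0 := (hwa.mul hAa).div hBa (by rw [hB0]; exact hc2)
  have hHa : AnalyticAt ℂ H 0 := by
    have h1 : AnalyticAt ℂ (fun z => wf L' W'.b₂ (c * z)) 0 := by
      refine AnalyticAt.comp (g := wf L' W'.b₂) (f := fun z => c * z) ?_ (by fun_prop)
      simpa using wf_analytic L' W'.b₂
    exact h1.div analyticAt_const hc2
  have hG0 : G 0 = 1 / c ^ 2 := by simp only [G, hw0, hA0, hB0, mul_one]
  have hH0 : H 0 = 1 / c ^ 2 := by simp only [H, mul_zero, wf_zero]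
  have nL : ∀ᶠ z in 𝓝[≠] (0 : ℂ), z ∉ L.lattice := by
    simpa using near_not_mem L one_ne_zero 0
  have nL' : ∀ᶠ z in 𝓝[≠] (0 : ℂ), c * z ∉ L'.lattice := by
    simpa using near_not_mem L' hc 0
  have nw : ∀ᶠ z in 𝓝 (0 : ℂ), w z ≠ 0 :=
    hwa.continuousAt.eventually_ne (by rw [hw0]; exact one_ne_zero)
  have nB : ∀ᶠ z in 𝓝 (0 : ℂ), B.reverse.eval (ξ z) ≠ 0 :=
    hBa.continuousAt.eventually_ne (by rw [hB0]; exact hc2)
  have eG : ∀ᶠ z in 𝓝[≠] (0 : ℂ), B.eval (x z) ≠ 0 ∧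
      G z = z ^ 2 * (A.eval (x z) / B.eval (x z)) := by
    filter_upwards [mem_nhdsWithin_of_mem_nhds nw, mem_nhdsWithin_of_mem_nhds nB,
      self_mem_nhdsWithin] with z h1 h2 hz
    have hz : z ≠ 0 := hz
    have h1 : w z ≠ 0 := h1
    have h2 : B.reverse.eval (ξ z) ≠ 0 := h2
    have e1 : w z = z ^ 2 * x z := wf_eq _ _ hz
    have hxz : x z ≠ 0 := by
      intro e
      rw [e, mul_zero] at e1
      exact h1 e1
    have e2 : ξ z = (x z)⁻¹ := by
      simp only [ξ, e1]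
      field_simp
    have a1 := eval_reverse A hxz
    have b1 := eval_reverse B hxz
    rw [← e2] at a1 b1
    refine ⟨by rw [← b1]; exact mul_ne_zero h2 (pow_ne_zero _ hxz), ?_⟩
    simp only [G]
    rw [← a1, ← b1, ← hdeg, e1, pow_succ (x z)]
    field_simp
  have eH : ∀ᶠ z in 𝓝[≠] (0 : ℂ), H z = z ^ 2 * x' (c * z) := by
    filter_upwards [self_mem_nhdsWithin] with z hz
    have hz : z ≠ 0 := hz
    simp only [H]
    rw [wf_eq _ _ (mul_ne_zero hc hz)]
    field_simp
    rfl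
  have oG : Ode c W'.b₂ W'.b₄ W'.b₆ G := by
    refine ode_of (F := fun z => A.eval (x z) / B.eval (x z))
      (F' := fun z => (Wr A B).eval (x z) * L.derivWeierstrassP z / B.eval (x z) ^ 2)
      (eG.mono fun z h => h.2) ?_
    filter_upwards [eG, nL] with z h1 h2
    have dx : HasDerivAt x (L.derivWeierstrassP z) z := xf_deriv _ _ h2
    have dA := (A.hasDerivAt (x z)).comp z dx
    have dB := (B.hasDerivAt (x z)).comp z dx
    constructor
    · have := dA.fun_div dB h1.1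
      refine this.congr_deriv ?_
      simp only [Wr, Function.comp, eval_sub, eval_mul]
      ring
    · have e := congrArg (eval (x z)) hode
      have e2 := xf_sq h4 h6 h2
      rw [eval_mul, eval_pow, ← e2] at e
      simp only [F3, eval_mul, eval_add, eval_pow, eval_C, eval_ofNat] at e
      have hb := h1.1
      field_simp
      linear_combination e
  have oH : Ode c W'.b₂ W'.b₄ W'.b₆ H := by
    refine ode_of (F := fun z => x' (c * z)) (F' := fun z => L'.derivWeierstrassP (c * z) * c)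
      eH ?_
    filter_upwards [nL'] with z h2
    have d1 : HasDerivAt (fun z : ℂ => c * z) c z := by simpa using (hasDerivAt_id z).const_mul c
    refine ⟨(xf_deriv L' W'.b₂ h2).comp z d1, ?_⟩
    rw [mul_pow, xf_sq h4' h6' h2, F3_X_eval]
    ring
  have GH := ode_unique hGa hHa (by rw [hG0]; field_simp) (by rw [hG0, hH0]) oG oH
  have loc : ∀ᶠ z in 𝓝[≠] (0 : ℂ), A.eval (x z) = x' (c * z) * B.eval (x z) := by
    filter_upwards [eG, eH, mem_nhdsWithin_of_mem_nhds GH, self_mem_nhdsWithin] with z h1 h2 h3 hz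
    have hz : z ^ 2 ≠ 0 := pow_ne_zero _ hz
    have h3 : G z = H z := h3
    rw [h1.2, h2] at h3
    rw [← mul_left_cancel₀ hz h3, div_mul_cancel₀ _ h1.1]
  let S : Set ℂ := (L.lattice : Set ℂ) ∪ (fun z => c * z) ⁻¹' (L'.lattice : Set ℂ)
  have hS : S.Countable :=
    (countable_lattice L).union ((countable_lattice L').preimage_of_injOn
      (mul_right_injective₀ hc).injOn)
  have glob : ∀ z, z ∉ L.lattice → c * z ∉ L'.lattice →
      A.eval (x z) = x' (c * z) * B.eval (x z) := by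
    obtain ⟨z0, h1, h2, h3⟩ :=
      ((eventually_nhdsNE_eventually_nhds_iff.2 loc).and (nL.and nL')).exists
    have a1 : AnalyticOnNhd ℂ (fun z => A.eval (x z)) Sᶜ := fun z hz =>
      analytic_eval (xf_analytic _ _ fun h => hz (Or.inl h)) A
    have a2 : AnalyticOnNhd ℂ (fun z => x' (c * z) * B.eval (x z)) Sᶜ := fun z hz => by
      refine AnalyticAt.mul ?_ (analytic_eval (xf_analytic _ _ fun h => hz (Or.inl h)) B)
      exact AnalyticAt.comp (g := x') (f := fun z => c * z)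
        (xf_analytic _ _ fun h => hz (Or.inr h)) (by fun_prop)
    have := a1.eqOn_of_preconnected_of_eventuallyEq a2 (isPreconnected_compl hS) (z₀ := z0)
      (fun h => h.elim h2 h3) h1
    intro z hz hz'
    exact this (x := z) fun h => h.elim hz hz'
  intro l hl
  by_contra hcl
  have key : H =ᶠ[𝓝[≠] (0 : ℂ)] fun z => z ^ 2 * x' (c * l + c * z) := by
    filter_upwards [eG, eH, loc, near_not_mem L one_ne_zero l, near_not_mem L' hc (c * l)]
      with z h1 h2 h3 h4 h5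
    have e := glob (l + 1 * z) h4 (by rwa [one_mul, mul_add])
    have p : x (l + 1 * z) = x z := by
      simp only [hx, xf, one_mul]
      rw [add_comm, L.weierstrassP_add_coe z ⟨l, hl⟩]
    rw [p, h3, one_mul, mul_add] at e
    rw [h2, mul_right_cancel₀ h1.1 e]
  have c1 : ContinuousAt (fun z => x' (c * l + c * z)) 0 := by
    refine ContinuousAt.comp (g := x') (f := fun z => c * l + c * z) ?_ (by fun_prop)
    simpa using (xf_analytic L' W'.b₂ hcl).continuousAt
  have := ((ContinuousAt.eventuallyEq_nhds_iff_eventuallyEq_nhdsNE hHa.continuousAt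
    ((continuousAt_id.pow 2).mul c1)).1 key).eq_of_nhds
  rw [hH0] at this
  simp [hc] at this

theorem hom_of_g {L L' : PeriodPair} {c : ℂ} (hc : c ≠ 0) (h2 : L.g₂ = c ^ 4 * L'.g₂)
    (h3 : L.g₃ = c ^ 6 * L'.g₃) : Hom L L' c := by
  refine conv (shortW L) (shortW L') L L' c X (C (c ^ 2)) (shortW_c4 L) (shortW_c6 L)
    (shortW_c4 L') (shortW_c6 L') hc monic_X (by rw [natDegree_C, natDegree_X])
    (leadingCoeff_C _) ?_
  apply Polynomial.funext
  intro r
  simp only [Wr, derivative_C, derivative_X]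
  simp [F3, shortW, b₂, b₄, b₆, h2, h3]
  ring

theorem iso_of_g {L L' : PeriodPair} {c : ℂ} (hc : c ≠ 0) (h2 : L.g₂ = c ^ 4 * L'.g₂)
    (h3 : L.g₃ = c ^ 6 * L'.g₃) : Iso L L' c :=
  iso_of_hom hc (hom_of_g hc h2 h3)
    (hom_of_g (inv_ne_zero hc) (by rw [h2]; field_simp) (by rw [h3]; field_simp))

theorem homoth (hD : S_Disc) : S_Homoth := by
  intro L L' hj
  have d := hD L
  have d' := hD L'
  have e : L.g₂ ^ 3 * L'.g₃ ^ 2 = L'.g₂ ^ 3 * L.g₃ ^ 2 := by
    simp only [jL] at hj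
    rw [div_eq_div_iff d d'] at hj
    linear_combination (-1 / (1728 * 27)) * hj
  by_cases a : L.g₂ = 0
  · have b : L.g₃ ≠ 0 := fun b => d (by simp [a, b])
    have a' : L'.g₂ = 0 := by
      rw [a] at e
      simpa [b] using e.symm
    have b' : L'.g₃ ≠ 0 := fun b' => d' (by simp [a', b'])
    obtain ⟨c, hc⟩ := IsAlgClosed.exists_pow_nat_eq (L.g₃ / L'.g₃) (n := 6) (by norm_num)
    have hc0 : c ≠ 0 := by
      rintro rfl
      exact div_ne_zero b b' (by simpa using hc.symm)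
    exact ⟨c, iso_of_g hc0 (by simp [a, a']) (by rw [hc]; field_simp)⟩
  by_cases b : L.g₃ = 0
  · have b' : L'.g₃ = 0 := by
      rw [b] at e
      simpa [a] using e
    have a' : L'.g₂ ≠ 0 := fun a' => d' (by simp [a', b'])
    obtain ⟨c, hc⟩ := IsAlgClosed.exists_pow_nat_eq (L.g₂ / L'.g₂) (n := 4) (by norm_num)
    have hc0 : c ≠ 0 := by
      rintro rfl
      exact div_ne_zero a a' (by simpa using hc.symm)
    exact ⟨c, iso_of_g hc0 (by rw [hc]; field_simp) (by simp [b, b'])⟩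
  have a' : L'.g₂ ≠ 0 := by
    intro a'
    rw [a'] at e
    have b' : L'.g₃ = 0 := by simpa [a] using e
    exact d' (by simp [a', b'])
  have b' : L'.g₃ ≠ 0 := by
    intro b'
    rw [b'] at e
    have := e.symm
    simp [a', b] at this
  obtain ⟨c, hc⟩ := IsAlgClosed.exists_pow_nat_eq (L.g₃ * L'.g₂ / (L.g₂ * L'.g₃)) (n := 2)
    (by norm_num)
  have hc0 : c ≠ 0 := by
    rintro rfl
    exact div_ne_zero (mul_ne_zero b a') (mul_ne_zero a b') (by simpa using hc.symm)
  refine ⟨c, iso_of_g hc0 ?_ ?_⟩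
  · rw [show c ^ 4 = (c ^ 2) ^ 2 by ring, hc]
    field_simp
    linear_combination e
  · rw [show c ^ 6 = (c ^ 2) ^ 3 by ring, hc]
    field_simp
    linear_combination e

theorem omega : S_Omega := by
  intro L
  have h4 : om ^ 4 = om := by linear_combination om * om_cube
  have h6 : om ^ 6 = 1 := by linear_combination (om ^ 3 + 1) * om_cube
  constructor
  · intro h
    exact hom_of_g om_ne_zero (by simp [h]) (by simp [h6])
  · intro h
    have hi : om⁻¹ = -1 - om := by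
      apply inv_eq_of_mul_eq_one_right
      linear_combination -om_sq
    have h' : Hom L L om⁻¹ := by
      rw [hi]
      exact (Hom.one L).neg.sub h
    have := (iso_of_hom om_ne_zero h h').g₂
    rw [h4] at this
    have e : (om - 1) * L.g₂ = 0 := by linear_combination -this
    exact (mul_eq_zero.1 e).resolve_left (sub_ne_zero.2 om_ne_one)

end Pool.Agent.P.MP_94fe55_nt
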