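import Pool.Agent.P.MP_94fe55_nt.Kap

set_option autoImplicit false

namespace Pool.Agent.P.MP_94fe55_nt

open Polynomial WeierstrassCurve
open scoped NNReal

namespace CoreP

theorem exists_alpha {p D : ℕ} (hp : p.Prime) (hD : Disc D) :
    ∃ (u v t n : ℤ), ((u : ℂ) + v * th D) ^ 2 = t * ((u : ℂ) + v * th D) - n ∧ ¬ (p : ℤ) ∣ n ∧
      0 < 4 * n - t ^ 2 ∧ 4 * n - t ^ 2 ≤ 4 * D := by
  have h0 : (0 : ℤ) < D := by exact_mod_cast hD.1
  by_cases h2 : p = 2
  · subst h2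
    refine ⟨1, 2, 2 + 2 * (2 * 0 + ((D % 2 : ℕ) : ℤ)),
      1 + 2 * (2 * 0 + ((D % 2 : ℕ) : ℤ)) + 4 * gg D 0, ?_, ?_, ?_, ?_⟩
    · have := add_th_sq hD 0
      simp only [Int.cast_add, Int.cast_mul, Int.cast_natCast, Int.cast_ofNat, Int.cast_zero,
        Int.cast_one] at this ⊢
      linear_combination 4 * this
    · omega
    · have := four_gg hD 0
      nlinarith
    · have := four_gg hD 0
      nlinarith
  have : ∃ β : ℤ, ¬ (p : ℤ) ∣ gg D β := by
    by_contra h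
    push Not at h
    have e : (2 : ℤ) = gg D 2 - 2 * gg D 1 + gg D 0 := by simp only [gg]; ring
    have : (p : ℤ) ∣ 2 := by
      rw [e]; exact ((h 2).sub ((h 1).mul_left 2)).add (h 0)
    exact h2 ((Nat.prime_dvd_prime_iff_eq hp Nat.prime_two).1 (by exact_mod_cast this))
  obtain ⟨β, hβ⟩ := this
  have h4 := four_gg hD β
  refine ⟨β, 1, 2 * β + ((D % 2 : ℕ) : ℤ), gg D β, ?_, hβ, by linarith, by linarith⟩
  simpa using add_th_sq hD β

theorem int_of_root {p : ℕ} (hp : p ≠ 0) {u t n : ℤ} (h : u ^ 2 = p * t * u - (p : ℤ) ^ 2 * n) :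
    (p : ℤ) ∣ u := by
  have : (p : ℤ) ^ 2 ∣ (2 * u - p * t) ^ 2 := ⟨t ^ 2 - 4 * n, by linear_combination 4 * h⟩
  have h1 : (p : ℤ) ∣ 2 * u - p * t := (Int.pow_dvd_pow_iff two_ne_zero).1 this
  obtain ⟨s, hs⟩ := h1
  have hp' : (p : ℤ) ≠ 0 := by exact_mod_cast hp
  have h2 : s ^ 2 = t ^ 2 - 4 * n := by
    apply mul_left_cancel₀ (pow_ne_zero 2 hp')
    linear_combination 4 * h - (2 * u - p * t + p * s) * hs
  have h3 : (2 : ℤ) ∣ s + t := by
    have : (2 : ℤ) ∣ (s + t) ^ 2 := ⟨t ^ 2 - 2 * n + s * t, by linear_combination h2⟩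
    exact Int.prime_two.dvd_of_dvd_pow this
  obtain ⟨k, hk⟩ := h3
  refine ⟨k, mul_left_cancel₀ (two_ne_zero) ?_⟩
  linear_combination hs + p * hk

theorem disc_pos {p D : ℕ} (hp : p ≠ 0) (hD : Disc D) {L : PeriodPair} (hL : IsCM D L) {γ : ℂ}
    {t n : ℤ} (h1 : Hom L L γ) (h2 : ¬ Hom L L (γ / p))
    (h : γ ^ 2 = p * t * γ - (p : ℂ) ^ 2 * n) : 0 < 4 * n - t ^ 2 := by
  obtain ⟨u, v, rfl⟩ := (hL γ).1 h1
  have hp' : (p : ℂ) ≠ 0 := by exact_mod_cast hp
  by_cases hv : v = 0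
  · exfalso
    subst hv
    simp only [Int.cast_zero, zero_mul, add_zero] at h h2
    obtain ⟨k, rfl⟩ := int_of_root hp (u := u) (t := t) (n := n) (by exact_mod_cast h)
    apply h2
    have : (((p : ℤ) * k : ℤ) : ℂ) / p = k := by push_cast; field_simp
    rw [this]; exact Hom.int L k
  set γ : ℂ := u + v * th D with hγ
  have him : γ.im ≠ 0 := by
    have : γ.im = v * (Real.sqrt D / 2) := by simp [hγ, th_im]
    rw [this]
    have h0 : (0 : ℝ) < D := by exact_mod_cast hD.1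
    exact mul_ne_zero (by exact_mod_cast hv) (by positivity)
  have e1 := congrArg Complex.re h
  have e2 := congrArg Complex.im h
  simp [sq] at e1 e2
  have e3 : 2 * γ.re = p * t := by
    apply mul_right_cancel₀ him
    linear_combination e2
  have e4 : (p : ℝ) ^ 2 * (4 * n - t ^ 2) = 4 * γ.im ^ 2 := by
    linear_combination 4 * e1 - (2 * γ.re - p * t) * e3
  have e5 : 0 < (p : ℝ) ^ 2 * (4 * n - t ^ 2) := by rw [e4]; positivity
  have e6 : (0 : ℝ) < 4 * n - t ^ 2 := (pos_iff_pos_of_mul_pos e5).1 (by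
    have : (0 : ℝ) < p := by exact_mod_cast Nat.pos_of_ne_zero hp
    positivity)
  exact_mod_cast e6

variable {p : ℕ} {V : Place p} {Wb : WeierstrassCurve V.k}

theorem ed_nat_le (H : Tools) (hp : p.Prime) (E : Lift V Wb) (a : ℕ) {m : ℕ} (hm : ¬ p ∣ m) :
    ed (ptor p Wb).subtype ((p ^ a * m : ℕ) : AddMonoid.End (ptor p Wb)) ≤ p ^ (2 * a) := by
  have hF := E.facts H.ring hp
  induction a with
  | zero =>
    have := kap_ed_one H hp E E (Hom.nat E.L m) (V.v_nat_eq_one hp hm)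
    rw [kap_nat] at this
    simp [this]
  | succ a ih =>
    have e : ((p ^ (a + 1) * m : ℕ) : AddMonoid.End (ptor p Wb)) =
        (p : AddMonoid.End (ptor p Wb)) * ((p ^ a * m : ℕ) : AddMonoid.End (ptor p Wb)) := by
      rw [← Nat.cast_mul]; congr 1; ring
    rw [e, hF.e_mul _ _ (hF.alg_nat _) (hF.alg_nat _)]
    have h1 := (H.quat _ _ hF.qf).int p
    have h2 : qd (ptor p Wb).subtype (p : AddMonoid.End (ptor p Wb)) = p ^ 2 := by
      have e2 : (((p : ℤ) : hF.sub) : AddMonoid.End (ptor p Wb)) = p := by simp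
      simp only [RingFacts.q, e2] at h1
      exact_mod_cast h1
    calc _ ≤ p ^ 2 * p ^ (2 * a) := Nat.mul_le_mul (h2 ▸ hF.e_le _) ih
      _ = _ := by ring

theorem root_om {β : ℂ} (h : β * β + β + 1 = 0) : β = om ∨ β * β = om := by
  have : (β - om) * (β * β - om) = 0 := by
    linear_combination (β - om - 1) * h + om_sq
  rcases mul_eq_zero.1 this with e | e
  · exact Or.inl (sub_eq_zero.1 e)
  · exact Or.inr (sub_eq_zero.1 e)

theorem pmax (hA : S_CondA) (hB : S_CondB) (hp : p.Prime) {D : ℕ} (hD : Disc D)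
    (E E0 : Lift V Wb) (h0 : E0.W = W0 p) (hom : Hom E0.L E0.L om) {r : ℝ≥0} (hr : 16 * r < 1)
    (hc : V.Close r E.W (W0 p)) (hL : IsCM D E.L) : PMax p E.L := by
  intro γ t n h1 h
  by_contra h2
  by_cases h3 : p % 3 = 1
  · have := hB p V Wb E E0 r γ t n hp h3 (h0 ▸ hc) hom h1 h2 h
      (disc_pos hp.ne_zero hD hL h1 h2 h)
    exact absurd hr (not_lt.2 this)
  · have := hA p V E.W E.L E.π r γ t n hp h3 E.good E.unif hc h1 h2 h
    exact absurd hr (not_lt.2 (this.trans (mul_le_mul_left (by norm_num) r)))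

theorem noncomm (H : Tools) (hC : S_Cent) (hp : p.Prime) (E E0 : Lift V Wb)
    (hom : Hom E0.L E0.L om) (hm : PMax p E.L) {α : ℂ} {t n : ℤ} (ha : Hom E.L E.L α)
    (h : α ^ 2 = t * α - n) (hpos : 0 < 4 * n - t ^ 2) (hj : jL E.L ≠ 0) :
    kap E E α * kap E0 E0 om ≠ kap E0 E0 om * kap E E α := by
  intro e
  obtain ⟨β, hβ, hw⟩ := hC p V Wb E α t n _ hp hm ha h hpos (kap_alg H hp E0 E0 hom) e.symm
  have h1 := kap_om E0 hom
  rw [hw, ← kap_comp E E E hβ hβ, ← kap_add E E (hβ.comp hβ) hβ, ← kap_one E,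
    ← kap_add E E ((hβ.comp hβ).add hβ) (Hom.one _), ← kap_zero E E] at h1
  have h2 := kap_inj H hp E E (((hβ.comp hβ).add hβ).add (Hom.one _)) (Hom.zero _ _) h1
  have h3 : Hom E.L E.L om := by
    rcases root_om h2 with e | e
    · exact e ▸ hβ
    · exact e ▸ hβ.comp hβ
  apply hj
  rw [jL, (H.omega _).2 h3]; simp

theorem v_alpha (H : Tools) (hp : p.Prime) (E : Lift V Wb) {α : ℂ} {t n : ℤ}
    (ha : Hom E.L E.L α) (h : α ^ 2 = t * α - n) (hn : ¬ (p : ℤ) ∣ n) : V.v α = 1 := by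
  have h1 := v_le_of_hom H hp E E ha
  have h2 : α * (t - α) = n := by linear_combination -h
  have h3 := congrArg V.v h2
  rw [V.v_int_eq_one hp hn, map_mul] at h3
  refine le_antisymm h1 ?_
  rw [← h3]
  exact mul_le_of_le_one_right' (Place.le_sub (V.v_int_le t) h1)

theorem dvd_q (H : Tools) (hp : p.Prime) (E : Lift V Wb) (hF : RingFacts (ptor p Wb).subtype)
    {δ : hF.sub} (h0 : δ ≠ 0) (hsq : δ * δ = -(hF.q δ : hF.sub)) {h : ℕ}
    (hd : p ^ h ∣ ed (ptor p Wb).subtype δ.1) : (p : ℤ) ^ h ∣ hF.q δ := by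
  set m : ℕ := qd (ptor p Wb).subtype δ.1 with hm
  have hq : hF.q δ = m := rfl
  have m0 : m ≠ 0 := fun e => h0 (hF.qf.eq_zero _ (by rw [hq, e]; rfl))
  have h1 : δ.1 * δ.1 = -(m : AddMonoid.End (ptor p Wb)) := by
    have := congrArg Subtype.val hsq
    rw [hq] at this
    simpa using this
  have h2 := hF.e_mul _ _ δ.2 δ.2
  rw [h1, hF.ed_neg (hF.alg_nat m)] at h2
  have h3 := ed_nat_le H hp E (m.factorization p) (Nat.not_dvd_ordCompl hp m0)
  rw [Nat.ordProj_mul_ordCompl_eq_self, h2] at h3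
  have h4 := Nat.le_of_dvd (hF.e_pos _ δ.2 fun e => h0 (Subtype.ext e)) hd
  have h5 : p ^ (2 * h) ≤ p ^ (2 * m.factorization p) := by
    calc p ^ (2 * h) = p ^ h * p ^ h := by ring
      _ ≤ _ := Nat.mul_le_mul h4 h4
      _ ≤ _ := h3
  have h6 := (Nat.pow_le_pow_iff_right hp.one_lt).1 h5
  rw [hq]
  exact_mod_cast (hp.pow_dvd_iff_le_factorization m0).2 (by omega)

end CoreP

open CoreP in
theorem core (H : Tools) (hDe : S_Deep) (hA : S_CondA) (hB : S_CondB) (hC : S_Cent)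
    (hI : S_Inj) : S_Core := by
  classical
  intro p V D hp hD
  obtain ⟨u, v, t, n, hα, hn, hpos, hle⟩ := exists_alpha hp hD
  set α : ℂ := u + v * th D with hαdef
  refine ⟨4 * n - t ^ 2, hpos, hle, fun h h1 T hT => ?_⟩
  obtain ⟨g0, c0, hM⟩ := H.model p V hp
  obtain ⟨E0, hE0⟩ := exists_lift H hp g0 rfl
  have hom : Hom E0.L E0.L om := by
    rw [← H.omega]
    have := E0.unif.c4
    rw [hE0, c0] at this
    simpa using this
  have hF := E0.facts H.ring hp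
  have hQ := H.quat _ _ hF.qf
  let w : hF.sub := ⟨kap E0 E0 om, kap_alg H hp E0 E0 hom⟩
  have hw : w * w + w + 1 = 0 := Subtype.ext (kap_om E0 hom)
  have key : ∀ y : ℂ, ∃ a : hF.sub, y ∈ T → (a * a = t * a - n ∧ a * w ≠ w * a ∧
      (p : ℤ) ^ h ∣ hF.q (a * w - w * a)) ∧
      ∃ E : Lift V (V.redW (W0 p)), a.1 = kap E E α ∧ jL E.L = y ∧ IsCM D E.L ∧ PMax p E.L := by
    intro y
    by_cases hy : y ∈ T
    swap
    · exact ⟨0, fun e => absurd e hy⟩
    obtain ⟨⟨L, hL, hyL⟩, y0, hv⟩ := hT y hy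
    have p1 : (1 : ℝ≥0) ≤ (p : ℝ≥0) ^ (h - 1) := one_le_pow₀ (by exact_mod_cast hp.one_le)
    have k1 : (1 : ℝ≥0) ≤ 16 * (p : ℝ≥0) ^ (h - 1) := one_le_mul (by norm_num) p1
    obtain ⟨W, r, hW, hj, hc, hr⟩ := hM y
      ((le_mul_of_one_le_right zero_le (one_le_pow₀ k1)).trans_lt hv)
    have hr1 : r * (16 * (p : ℝ≥0) ^ (h - 1)) < 1 := by
      have : (r * (16 * (p : ℝ≥0) ^ (h - 1))) ^ 12 < 1 := by
        rw [mul_pow]; exact (mul_le_mul_left hr _).trans_lt hv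
      exact (pow_lt_one_iff_of_nonneg zero_le (by norm_num)).1 this
    have hr2 : 16 * r < 1 := by
      refine lt_of_le_of_lt ?_ hr1
      rw [mul_comm r, mul_right_comm]
      exact le_mul_of_one_le_right zero_le p1
    have hr3 : 4 * r < 1 := lt_of_le_of_lt (mul_le_mul_left (by norm_num) r) hr2
    have hr4 : r < 1 := lt_of_le_of_lt (le_mul_of_one_le_left zero_le (by norm_num)) hr3
    obtain ⟨E, rfl⟩ := exists_lift H hp hW (hc.redW hr4 hW g0)
    have hjE : jL E.L = y := by rw [← E.unif.jW, hj]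
    obtain ⟨c, hiso⟩ := H.homoth L E.L (by rw [hjE, hyL])
    have hcm := hiso.isCM hL
    have ha : Hom E.L E.L α := (hcm α).2 ⟨u, v, rfl⟩
    have hm := pmax hA hB hp hD E E0 hE0 hom hr2 hc hcm
    have hnc := noncomm H hC hp E E0 hom hm ha hα hpos (hjE ▸ y0)
    let a : hF.sub := ⟨kap E E α, kap_alg H hp E E ha⟩
    have hnc' : a * w ≠ w * a := fun e => hnc (congrArg Subtype.val e)
    refine ⟨a, fun _ => ⟨⟨Subtype.ext ?_, hnc', ?_⟩, E, rfl, hjE, hcm, hm⟩⟩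
    · simpa using kap_quad E ha hα
    · have hd := hDe p V _ E E0 r α hp (by rw [hE0]; exact hc) hr3 (v_alpha H hp E ha hα hn) ha hom hnc
        (fun e => hnc' (hQ.anti a w hw (Subtype.ext e)))
      refine dvd_q H hp E hF (sub_ne_zero.2 hnc') (hQ.comm_sq a w hw) ?_
      have e : h = h - 1 + 1 := by omega
      rw [e]
      refine V.pow_dvd_of_v_lt hp (lt_of_le_of_lt ?_ hr1)
      calc _ ≤ 4 * r * (p : ℝ≥0) ^ (h - 1) := mul_le_mul_left hd _
        _ ≤ 16 * r * (p : ℝ≥0) ^ (h - 1) := by gcongr; norm_num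
        _ = _ := by ring
  choose a ha using key
  have hinj : Set.InjOn a T := by
    intro y hy y' hy' e
    obtain ⟨-, E, e1, e2, e3, e4⟩ := ha y hy
    obtain ⟨-, E', e1', e2', e3', -⟩ := ha y' hy'
    rw [← e2, ← e2']
    exact hI p V _ E E' D α t n hp hD e3 e3' e4 ((e3 α).2 ⟨u, v, rfl⟩) hα hpos
      (by rw [← e1, ← e1', e])
  let x : ℂ → ℤ := fun y => bil hF.q (2 * a y - t) (2 * w + 1)
  have hx : ∀ y ∈ T, 16 * hF.q (a y * w - w * a y) = 12 * (4 * n - t ^ 2) - x y ^ 2 :=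
    fun y hy => hQ.xm _ _ t n hw (ha y hy).1.1 hpos
  rw [cnt, Finset.card_eq_sum_card_fiberwise (f := x)]
  · refine Finset.sum_le_sum fun z _ => ?_
    rw [← Finset.card_image_of_injOn (f := a) (hinj.mono (by
      intro y hy
      exact (Finset.mem_filter.1 hy).1))]
    refine hQ.count w t n z _ _ hw hpos fun b hb => ?_
    obtain ⟨y, hy, rfl⟩ := Finset.mem_image.1 hb
    obtain ⟨hy, hz⟩ := Finset.mem_filter.1 hy
    refine ⟨(ha y hy).1.1, (ha y hy).1.2.1, hz, ?_⟩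
    rw [← hz, ← hx y hy]; omega
  · intro y hy
    have hy' : y ∈ T := hy
    have h2 := hx y hy'
    have h3 : 0 < hF.q (a y * w - w * a y) :=
      lt_of_le_of_ne (hF.qf.nonneg _) fun e =>
        (ha y hy').1.2.1 (sub_eq_zero.1 (hF.qf.eq_zero _ e.symm))
    simp only [Finset.coe_filter, Finset.mem_Icc, Set.mem_ofPred_eq]
    refine ⟨abs_le.1 (abs_le_of_sq_le_sq' ?_ (by omega) |> abs_le.2), by omega, ?_⟩
    · nlinarith
    · rw [← h2]; exact mul_dvd_mul_left 16 (ha y hy').1.2.2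

end Pool.Agent.P.MP_94fe55_nt
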