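import Pool.Agent.P.MP_94fe55_nt.Val

set_option autoImplicit false

namespace Pool.Agent.P.MP_94fe55_nt

open Polynomial
open scoped NNReal

namespace ResP

theorem natDegree_X_mul_derivative {F : Type} [Field F] {A : F[X]} {n : ℕ} (h : A.natDegree ≤ n) :
    (X * derivative A).natDegree ≤ n ∧ (X * derivative A).coeff n = n * A.coeff n := by
  constructor
  · rw [natDegree_le_iff_coeff_eq_zero]
    intro N hN
    obtain ⟨m, rfl⟩ : ∃ m, N = m + 1 := ⟨N - 1, by omega⟩
    rw [coeff_X_mul, coeff_derivative, coeff_eq_zero_of_natDegree_lt (by omega), zero_mul]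
  · rcases n with _ | m
    · simp
    · rw [coeff_X_mul, coeff_derivative]
      push_cast
      ring

theorem coeff_X_mul_Wr {F : Type} [Field F] {A B : F[X]} {m n : ℕ} (hA : A.natDegree ≤ m)
    (hB : B.natDegree ≤ n) :
    (X * Wr A B).coeff (m + n) = ((m : F) - n) * (A.coeff m * B.coeff n) := by
  have e : X * Wr A B = (X * derivative A) * B - A * (X * derivative B) := by
    simp only [Wr]; ring
  obtain ⟨a1, a2⟩ := natDegree_X_mul_derivative hA
  obtain ⟨b1, b2⟩ := natDegree_X_mul_derivative hB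
  rw [e, coeff_sub, coeff_mul_add_eq_of_natDegree_le a1 hB, coeff_mul_add_eq_of_natDegree_le hA b1,
    a2, b2]
  ring

theorem degree_Wr_lt {F : Type} [Field F] {A B : F[X]} (hA : A ≠ 0) (hB : B ≠ 0) :
    (Wr A B).degree < (A * B).degree := by
  have h1 : (derivative A * B).degree < (A * B).degree := by
    rw [degree_mul, degree_mul]
    exact WithBot.add_lt_add_right (by simpa using hB) (degree_derivative_lt hA)
  have h2 : (A * derivative B).degree < (A * B).degree := by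
    rw [degree_mul, degree_mul]
    exact WithBot.add_lt_add_left (by simpa using hA) (degree_derivative_lt hB)
  exact lt_of_le_of_lt (degree_sub_le _ _) (max_lt h1 h2)

variable {p : ℕ} {V : Place p}

theorem v_coeff_Wr_le {A B : ℂ[X]} {m n : ℕ} (hA : A.natDegree ≤ m) (hB : B.natDegree ≤ n) :
    V.v (((m : ℂ) - n) * (A.coeff m * B.coeff n)) ≤ V.gn (Wr A B) := by
  have h := V.coeff_le_gn (X * Wr A B) (m + n)
  rwa [coeff_X_mul_Wr hA hB, map_mul V.gn, Place.gn_X, one_mul] at h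

/-- splitting off the roots outside the closed unit disc -/
theorem exists_split (n : ℕ) : ∀ G : ℂ[X], G.natDegree = n → V.gn G = 1 →
    ∃ (G1 G2 : ℂ[X]) (u : V.k), G = G1 * G2 ∧ G1.Monic ∧ V.gn G1 ≤ 1 ∧ V.gn G2 ≤ 1 ∧ u ≠ 0 ∧
      V.redP G2 = C u := by
  induction n with
  | zero =>
    intro G hn hG
    obtain ⟨a, rfl⟩ : ∃ a, G = C a := ⟨_, eq_C_of_natDegree_eq_zero hn⟩
    refine ⟨1, C a, V.red a, by simp, monic_one, by simp, hG.le, ?_, by simp⟩
    rw [Place.gn_C] at hG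
    exact (Place.red_ne_zero hG.le).2 hG
  | succ n ih =>
    intro G hn hG
    have hd : G.degree ≠ 0 := fun e => by
      rw [natDegree_eq_zero_iff_degree_le_zero.2 e.le] at hn
      omega
    obtain ⟨a, ha⟩ := IsAlgClosed.exists_root G hd
    obtain ⟨K, rfl⟩ := dvd_iff_isRoot.2 ha
    have hK0 : K ≠ 0 := by
      rintro rfl
      simp at hn
    have hKn : K.natDegree = n := by
      rw [natDegree_mul (X_sub_C_ne_zero a) hK0, natDegree_X_sub_C] at hn
      omega
    rw [map_mul, Place.gn_X_sub_C] at hG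
    rcases le_or_gt (V.v a) 1 with h | h
    · rw [max_eq_left h, one_mul] at hG
      obtain ⟨G1, G2, u, e, h1, h2, h3, h4, h5⟩ := ih K hKn hG
      refine ⟨(X - C a) * G1, G2, u, by rw [e, mul_assoc], (monic_X_sub_C a).mul h1,
        Place.gn_mul (by rw [Place.gn_X_sub_C, max_eq_left h]) h2, h3, h4, h5⟩
    · rw [max_eq_right h.le] at hG
      have ha0 : a ≠ 0 := by
        rintro rfl
        simp at h
      have hva : V.v a⁻¹ < 1 := by
        rw [map_inv₀]
        exact inv_lt_one_of_one_lt₀ h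
      obtain ⟨G1, G2, u, e, h1, h2, h3, h4, h5⟩ := ih (C a * K)
        (by rw [natDegree_C_mul ha0, hKn]) (by rw [map_mul, Place.gn_C, hG])
      have hx : V.gn (C a⁻¹ * X) ≤ 1 := by
        rw [map_mul, Place.gn_C, Place.gn_X, mul_one]
        exact hva.le
      have hl : V.gn (C a⁻¹ * X - 1) ≤ 1 := Place.gn_sub hx (by simp)
      refine ⟨G1, (C a⁻¹ * X - 1) * G2, -u, ?_, h1, h2, Place.gn_mul hl h3, neg_ne_zero.2 h4, ?_⟩
      · have e2 : C a⁻¹ * C a = (1 : ℂ[X]) := by rw [← C_mul, inv_mul_cancel₀ ha0, C_1]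
        linear_combination (C a⁻¹ * X - 1) * e - X * K * e2
      · rw [Place.redP_mul hl h3, Place.redP_sub hx (by simp), Place.redP_mul
          (by rw [Place.gn_C]; exact hva.le) (by simp), Place.redP_C,
          (Place.red_eq_zero hva.le).2 hva, h5]
        simp

/-- a small combination with a distinguished polynomial has a small remainder -/
theorem gn_le_of_comb {P U Q R : ℂ[X]} {u : V.k} {ρ : ℝ≥0} (hU : V.gn U ≤ 1)
    (hu : u ≠ 0) (hUu : V.redP U = C u) (hQ : Q.Monic) (hQ1 : V.gn Q ≤ 1)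
    (hd : P.degree < Q.degree) (h : V.gn (P * U + Q * R) ≤ ρ) : V.gn P ≤ ρ := by
  by_contra hP
  rw [not_le] at hP
  obtain ⟨a, ha0, h1, h2, h3⟩ : ∃ a : ℂ, ρ < V.v a ∧ V.gn P ≤ V.v a ∧ V.gn R ≤ V.v a ∧
      (V.gn P = V.v a ∨ V.gn R = V.v a) := by
    rcases le_total (V.gn R) (V.gn P) with hh | hh
    · obtain ⟨i, hi⟩ := V.exists_coeff_eq_gn P
      exact ⟨P.coeff i, hi ▸ hP, hi.le, hi ▸ hh, Or.inl hi⟩
    · obtain ⟨i, hi⟩ := V.exists_coeff_eq_gn R
      exact ⟨R.coeff i, hi ▸ hP.trans_le hh, hi ▸ hh, hi.le, Or.inr hi⟩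
  have hv0 : 0 < V.v a := lt_of_le_of_lt zero_le ha0
  have hs : ∀ G : ℂ[X], V.gn (C a⁻¹ * G) = (V.v a)⁻¹ * V.gn G := fun G => by
    rw [map_mul, Place.gn_C, map_inv₀]
  have hP1 : V.gn (C a⁻¹ * P) ≤ 1 := by rw [hs]; exact inv_mul_le_one_of_le₀ h1 zero_le
  have hR1 : V.gn (C a⁻¹ * R) ≤ 1 := by rw [hs]; exact inv_mul_le_one_of_le₀ h2 zero_le
  have hsum : V.gn (C a⁻¹ * P * U + Q * (C a⁻¹ * R)) < 1 := by
    have e : C a⁻¹ * P * U + Q * (C a⁻¹ * R) = C a⁻¹ * (P * U + Q * R) := by ring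
    rw [e, hs, inv_mul_lt_one₀ hv0]
    exact h.trans_lt ha0
  rw [← Place.redP_eq_zero hsum.le, Place.redP_add (Place.gn_mul hP1 hU) (Place.gn_mul hQ1 hR1),
    Place.redP_mul hP1 hU, Place.redP_mul hQ1 hR1, hUu] at hsum
  have hQd : (V.redP Q).degree = Q.degree := by
    rw [degree_eq_natDegree hQ.ne_zero, degree_eq_natDegree (Place.monic_redP hQ).ne_zero,
      Place.natDegree_redP_monic hQ]
  have hPd : (V.redP (C a⁻¹ * P) * C u).degree < (V.redP Q).degree := by
    rw [hQd, degree_mul_C hu]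
    refine lt_of_le_of_lt (Place.degree_redP_le _) (lt_of_le_of_lt ?_ hd)
    rw [← smul_eq_C_mul]
    exact degree_smul_le _ _
  have hdvd : V.redP Q ∣ V.redP (C a⁻¹ * P) * C u :=
    ⟨-V.redP (C a⁻¹ * R), by linear_combination hsum⟩
  have hz := eq_zero_of_dvd_of_degree_lt hdvd hPd
  rw [hz, zero_add, mul_eq_zero] at hsum
  have hR0 := hsum.resolve_left (Place.monic_redP hQ).ne_zero
  have hP0 := (mul_eq_zero.1 hz).resolve_right (C_ne_zero.2 hu)
  rw [Place.redP_eq_zero hP1, hs, inv_mul_lt_one₀ hv0] at hP0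
  rw [Place.redP_eq_zero hR1, hs, inv_mul_lt_one₀ hv0] at hR0
  rcases h3 with h3 | h3
  · exact hP0.ne h3
  · exact hR0.ne h3

end ResP

open ResP in
/-- a small Wronskian forces the reduced degrees to be close -/
theorem res_lemma {p : ℕ} {V : Place p} {G D : ℂ[X]} {ρ : ℝ≥0} (hG : V.gn G = 1)
    (hD : V.gn D = 1) (h : V.gn (Wr G D) ≤ ρ) :
    V.v (((V.redP G).natDegree : ℂ) - (V.redP D).natDegree) ≤ ρ := by
  obtain ⟨G1, G2, u, rfl, g1, g2, g3, g4, g5⟩ := exists_split _ G rfl hG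
  obtain ⟨D1, D2, w, rfl, d1, d2, d3, d4, d5⟩ := exists_split _ D rfl hD
  have e : Wr (G1 * G2) (D1 * D2) = Wr G1 D1 * (G2 * D2) + G1 * D1 * Wr G2 D2 := by
    simp only [Wr, derivative_mul]; ring
  rw [e] at h
  have h1 := gn_le_of_comb (u := u * w) (Place.gn_mul g3 d3) (mul_ne_zero g4 d4)
    (by rw [Place.redP_mul g3 d3, g5, d5, C_mul]) (g1.mul d1) (Place.gn_mul g2 d2)
    (degree_Wr_lt g1.ne_zero d1.ne_zero) h
  have h2 := v_coeff_Wr_le (V := V) (A := G1) (B := D1) le_rfl le_rfl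
  rw [g1.coeff_natDegree, d1.coeff_natDegree, mul_one, mul_one] at h2
  rw [Place.redP_mul g2 g3, Place.redP_mul d2 d3, g5, d5, natDegree_mul_C g4, natDegree_mul_C d4,
    Place.natDegree_redP_monic g1, Place.natDegree_redP_monic d1]
  exact h2.trans h1

end Pool.Agent.P.MP_94fe55_nt
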