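import Pool.Agent.P.MP_94fe55_nt.Kap
import Pool.Agent.P.MP_94fe55_nt.Res

set_option autoImplicit false

namespace Pool.Agent.P.MP_94fe55_nt

open Polynomial
open scoped NNReal

namespace DeepP

/-! ### polynomial identities -/

noncomputable def EE (W : WeierstrassCurve ℂ) (c : ℂ) (A B : ℂ[X]) : ℂ[X] :=
  2 * B * derivative (Wr A B) * F3 W X 1 + B * Wr A B * derivative (F3 W X 1) -
    4 * Wr A B * F3 W X 1 * derivative B -
    C (c ^ 2) * B * (12 * A ^ 2 + 2 * C W.b₂ * A * B + 2 * C W.b₄ * B ^ 2)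

noncomputable def eps (W : WeierstrassCurve ℂ) (c : ℂ) (A B : ℂ[X]) : ℂ[X] :=
  Wr A B ^ 2 * F3 W X 1 - C (c ^ 2) * F3 W A B * B

theorem EE_eq (W : WeierstrassCurve ℂ) (c : ℂ) (A B : ℂ[X]) :
    Wr A B * EE W c A B = B * derivative (eps W c A B) - 4 * derivative B * eps W c A B := by
  have e : derivative (F3 W A B) * B - 3 * F3 W A B * derivative B =
      (12 * A ^ 2 + 2 * C W.b₂ * A * B + 2 * C W.b₄ * B ^ 2) * Wr A B := by
    simp only [F3, Wr, derivative_add, derivative_mul, derivative_pow, derivative_C,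
      derivative_ofNat, Nat.cast_ofNat, map_ofNat]
    ring
  simp only [EE, eps, derivative_sub, derivative_mul, derivative_pow, derivative_C,
    Nat.cast_ofNat, map_ofNat]
  generalize F3 W X 1 = f at *
  linear_combination (C (c ^ 2) * B) * e

noncomputable def Num (W : WeierstrassCurve ℂ) (c : ℂ) (A1 B1 A2 B2 : ℂ[X]) : ℂ[X] :=
  C (c ^ 2) * S1 (C W.b₂) (C W.b₄) (C W.b₆) A1 B1 A2 B2 + Wr A1 B1 * Wr A2 B2 * F3 W X 1

noncomputable def Den (c : ℂ) (A1 B1 A2 B2 : ℂ[X]) : ℂ[X] :=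
  C (c ^ 2) * (A1 * B2 - A2 * B1) ^ 2

theorem num_eq (W : WeierstrassCurve ℂ) (c : ℂ) (A1 B1 A2 B2 : ℂ[X]) :
    B1 * B2 * (2 * (derivative (Num W c A1 B1 A2 B2) * (A1 * B2 - A2 * B1) -
      2 * Num W c A1 B1 A2 B2 * derivative (A1 * B2 - A2 * B1))) =
    (A1 * B2 - A2 * B1) * B2 * Wr A2 B2 * EE W c A1 B1 +
      (A1 * B2 - A2 * B1) * B1 * Wr A1 B1 * EE W c A2 B2 -
      4 * Wr A2 B2 * B2 ^ 2 * eps W c A1 B1 + 4 * Wr A1 B1 * B1 ^ 2 * eps W c A2 B2 := by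
  simp only [Num, EE, eps, derivative_add, derivative_mul, derivative_C]
  generalize F3 W X 1 = f
  generalize derivative (Wr A1 B1) = w1
  generalize derivative (Wr A2 B2) = w2
  simp only [S1, F3, Wr, derivative_add, derivative_sub, derivative_mul, derivative_pow,
    derivative_C, derivative_ofNat, Nat.cast_ofNat, map_ofNat]
  ring

theorem Wr_num (c u : ℂ) (N D : ℂ[X]) (hu : 2 * u = 1) :
    4 * Wr (C u * N) (C (c ^ 2) * D ^ 2) =
      C (c ^ 2) * D * (2 * (derivative N * D - 2 * N * derivative D)) := by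
  have e : 2 * C u = (1 : ℂ[X]) := by
    have := congrArg C hu
    rwa [C_mul, C_1, map_ofNat] at this
  simp only [Wr, derivative_mul, derivative_pow, derivative_C, Nat.cast_ofNat, map_ofNat]
  linear_combination (C (c ^ 2) * D * (2 * (derivative N * D - 2 * N * derivative D))) * e

theorem Num_eval (W : WeierstrassCurve ℂ) (c : ℂ) (A1 B1 A2 B2 : ℂ[X]) (x : ℂ) :
    (Num W c A1 B1 A2 B2).eval x =
      c ^ 2 * S1 W.b₂ W.b₄ W.b₆ (A1.eval x) (B1.eval x) (A2.eval x) (B2.eval x) +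
        (Wr A1 B1).eval x * (Wr A2 B2).eval x * (F3 W X 1).eval x := by
  simp [Num, S1]

theorem Wr_comp (A B : ℂ[X]) (μ : ℂ) :
    Wr (A.comp (C om * X + C μ)) (B.comp (C om * X + C μ)) =
      C om * (Wr A B).comp (C om * X + C μ) := by
  simp only [Wr, derivative_comp, derivative_add, derivative_mul, derivative_C, derivative_X,
    sub_comp, mul_comp]
  ring

theorem Wr_lin (A B : ℂ[X]) (μ : ℂ) : Wr (C om * A + C μ * B) B = C om * Wr A B := by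
  simp only [Wr, derivative_add, derivative_mul, derivative_C]
  ring

theorem F3_comp (W : WeierstrassCurve ℂ) (A B l : ℂ[X]) :
    (F3 W A B).comp l = F3 W (A.comp l) (B.comp l) := by
  simp [F3]

variable {p : ℕ} {V : Place p}

theorem gn_lin {μ : ℂ} (hμ : V.v μ ≤ 1) {A B : ℂ[X]} (hA : V.gn A ≤ 1) (hB : V.gn B ≤ 1) :
    V.gn (C om * A + C μ * B) ≤ 1 :=
  Place.gn_add (Place.gn_mul (by rw [Place.gn_C, V.v_om]) hA)
    (Place.gn_mul (by rwa [Place.gn_C]) hB)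

theorem gn_l {μ : ℂ} (hμ : V.v μ ≤ 1) : V.gn (C om * X + C μ) ≤ 1 := by
  simpa using gn_lin hμ (A := X) (B := 1) (by simp) (by simp)

theorem gn_comp_l {μ : ℂ} (hμ : V.v μ ≤ 1) (G : ℂ[X]) :
    V.gn (G.comp (C om * X + C μ)) = V.gn G := by
  refine le_antisymm (Place.gn_comp_le G (gn_l hμ)) ?_
  have h2 : V.v (om ^ 2) ≤ 1 := Place.le_pow V.v_om.le 2
  have h1 : V.gn (C (om ^ 2) * (X - C μ)) ≤ 1 :=
    Place.gn_mul (by rwa [Place.gn_C]) (Place.gn_sub (by simp) (by rwa [Place.gn_C]))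
  have h3 : (C om * X + C μ).comp (C (om ^ 2) * (X - C μ)) = X := by
    have e : C om ^ 3 = (1 : ℂ[X]) := by rw [← C_pow, om_cube, C_1]
    simp only [add_comp, mul_comp, C_comp, X_comp, C_pow]
    linear_combination (X - C μ) * e
  have h4 := Place.gn_comp_le (V := V) (G.comp (C om * X + C μ)) h1
  rwa [comp_assoc, h3, comp_X] at h4

theorem gn_EE {W : WeierstrassCurve ℂ} {c : ℂ} {A B : ℂ[X]} {r : ℝ≥0} (hB : V.gn B ≤ 1)
    (hW : V.gn (Wr A B) = 1) (he : V.gn (eps W c A B) ≤ r) : V.gn (EE W c A B) ≤ r := by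
  have h1 : V.gn (Wr A B * EE W c A B) ≤ r := by
    rw [EE_eq]
    exact Place.gn_sub (Place.gn_mul hB ((Place.gn_derivative_le _).trans he))
      (Place.gn_mul (Place.gn_mul (Place.gn_ofNat_le 4) ((Place.gn_derivative_le _).trans hB)) he)
  rwa [map_mul, hW, one_mul] at h1

theorem gn_Wr_num (hp : p.Prime) {W : WeierstrassCurve ℂ} {c : ℂ} {A1 B1 A2 B2 : ℂ[X]} {r : ℝ≥0}
    (hc : V.v c ≤ 1) (a1 : V.gn A1 ≤ 1) (b1 : V.gn B1 = 1) (a2 : V.gn A2 ≤ 1) (b2 : V.gn B2 = 1)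
    (w1 : V.gn (Wr A1 B1) = 1) (w2 : V.gn (Wr A2 B2) = 1) (e1 : V.gn (eps W c A1 B1) ≤ r)
    (e2 : V.gn (eps W c A2 B2) ≤ r) :
    V.gn (Wr (C 2⁻¹ * Num W c A1 B1 A2 B2) (Den c A1 B1 A2 B2)) ≤ 4 * r := by
  have hD : V.gn (A1 * B2 - A2 * B1) ≤ 1 :=
    Place.gn_sub (Place.gn_mul a1 b2.le) (Place.gn_mul a2 b1.le)
  have h1 := congrArg V.gn (num_eq W c A1 B1 A2 B2)
  rw [map_mul, map_mul, b1, b2, one_mul, one_mul] at h1
  have h2 : V.gn (2 * (derivative (Num W c A1 B1 A2 B2) * (A1 * B2 - A2 * B1) -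
      2 * Num W c A1 B1 A2 B2 * derivative (A1 * B2 - A2 * B1))) ≤ r := by
    rw [h1]
    exact Place.gn_add (Place.gn_sub (Place.gn_add
      (Place.gn_mul (Place.gn_mul (Place.gn_mul hD b2.le) w2.le) (gn_EE b1.le w1 e1))
      (Place.gn_mul (Place.gn_mul (Place.gn_mul hD b1.le) w1.le) (gn_EE b2.le w2 e2)))
      (Place.gn_mul (Place.gn_mul (Place.gn_mul (Place.gn_ofNat_le 4) w2.le)
        (Place.gn_pow b2.le 2)) e1))
      (Place.gn_mul (Place.gn_mul (Place.gn_mul (Place.gn_ofNat_le 4) w1.le)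
        (Place.gn_pow b1.le 2)) e2)
  have h3 : V.gn (4 * Wr (C 2⁻¹ * Num W c A1 B1 A2 B2) (Den c A1 B1 A2 B2)) ≤ r := by
    rw [Den, Wr_num c _ _ _ (by norm_num)]
    exact Place.gn_mul (Place.gn_mul (by rw [Place.gn_C]; exact Place.le_pow hc 2) hD) h2
  have h4 : V.gn (4 : ℂ[X]) = V.v 2 ^ 2 := by
    rw [show (4 : ℂ[X]) = C (2 ^ 2) by rw [C_pow, map_ofNat C]; norm_num, Place.gn_C, map_pow]
  rw [map_mul, h4] at h3
  have h5 : (1 : ℝ≥0) ≤ 4 * V.v 2 ^ 2 := by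
    have := one_le_pow₀ (V.half_le_v_two hp) (n := 2)
    rwa [mul_pow, show (2 : ℝ≥0) ^ 2 = 4 by norm_num] at this
  calc _ ≤ 4 * V.v 2 ^ 2 * V.gn (Wr (C 2⁻¹ * Num W c A1 B1 A2 B2) (Den c A1 B1 A2 B2)) :=
        le_mul_of_one_le_left zero_le h5
    _ ≤ 4 * r := by rw [mul_assoc]; exact mul_le_mul_right h3 _

/-! ### congruences -/

structure Cg (V : Place p) (s : ℝ≥0) (a b : ℂ) : Prop where
  l : V.v a ≤ 1
  r : V.v b ≤ 1
  d : V.v (a - b) ≤ s

variable {s : ℝ≥0} {a b c d : ℂ}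

theorem Cg.refl (h : V.v a ≤ 1) : Cg V s a a := ⟨h, h, by simp⟩

theorem Cg.symm (h : Cg V s a b) : Cg V s b a :=
  ⟨h.r, h.l, by rw [← neg_sub]; exact Place.le_neg h.d⟩

theorem Cg.trans (h : Cg V s a b) (h' : Cg V s b c) : Cg V s a c :=
  ⟨h.l, h'.r, by rw [← sub_add_sub_cancel a b c]; exact Place.le_add h.d h'.d⟩

theorem Cg.add (h : Cg V s a b) (h' : Cg V s c d) : Cg V s (a + c) (b + d) :=
  ⟨Place.le_add h.l h'.l, Place.le_add h.r h'.r, by
    rw [add_sub_add_comm]; exact Place.le_add h.d h'.d⟩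

theorem Cg.sub (h : Cg V s a b) (h' : Cg V s c d) : Cg V s (a - c) (b - d) :=
  ⟨Place.le_sub h.l h'.l, Place.le_sub h.r h'.r, by
    rw [sub_sub_sub_comm]; exact Place.le_sub h.d h'.d⟩

theorem Cg.mul (h : Cg V s a b) (h' : Cg V s c d) : Cg V s (a * c) (b * d) :=
  ⟨Place.le_mul h.l h'.l, Place.le_mul h.r h'.r, Place.v_mul_sub_mul h.l h'.r h.d h'.d⟩

theorem Cg.sq (h : Cg V s a b) : Cg V s (a ^ 2) (b ^ 2) := by
  rw [pow_two, pow_two]; exact h.mul h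

theorem Cg.eval (h : Cg V s a b) {G : ℂ[X]} (hG : V.gn G ≤ 1) : Cg V s (G.eval a) (G.eval b) :=
  ⟨(Place.v_eval_le G h.l).trans hG, (Place.v_eval_le G h.r).trans hG,
    (Place.v_eval_sub_le hG h.l h.r).trans h.d⟩

theorem Cg.red (h : Cg V s a b) (hs : s < 1) : V.red a = V.red b :=
  (Place.red_eq_iff h.l h.r).2 (h.d.trans_lt hs)

theorem Cg.S1 {b2 b4 b6 a' c' : ℂ} (h2 : V.v b2 ≤ 1) (h4 : V.v b4 ≤ 1) (h6 : V.v b6 ≤ 1)
    (ha : Cg V s a a') (hb : V.v b ≤ 1) (hc : Cg V s c c') (hd : V.v d ≤ 1) :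
    Cg V s (S1 b2 b4 b6 a b c d) (S1 b2 b4 b6 a' b c' d) := by
  have h1 := (ha.mul (Cg.refl hd)).add (hc.mul (Cg.refl hb))
  have h3 := ha.mul hc
  have h5 : Cg V s (b * d) (b * d) := Cg.refl (Place.le_mul hb hd)
  exact (((((Cg.refl (V.v_ofNat_le 2)).mul h1).mul h3).add
    (((Cg.refl h2).mul h3).mul h5)).add (((Cg.refl h4).mul h1).mul h5)).add
    ((Cg.refl h6).mul h5.sq)

theorem cg_point {b2 b4 b6 x1 x2 x3 Y1 Y2 Y a1 b1 a2 b2' w1 w2 : ℂ} (h2 : V.v b2 ≤ 1)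
    (h4 : V.v b4 ≤ 1) (h6 : V.v b6 ≤ 1) (hc : V.v c ≤ 1) (hx3 : V.v x3 ≤ 1) (hb1 : V.v b1 ≤ 1)
    (hb2 : V.v b2' ≤ 1) (k1 : Cg V s (x1 * b1) a1) (k2 : Cg V s (x2 * b2') a2)
    (l1 : Cg V s (c * b1 ^ 2 * Y1) (w1 * Y)) (l2 : Cg V s (c * b2' ^ 2 * Y2) (w2 * Y))
    (e : 2 * x3 * (x1 - x2) ^ 2 = S1 b2 b4 b6 x1 1 x2 1 + Y1 * Y2) :
    Cg V s (2 * x3 * (c ^ 2 * (a1 * b2' - a2 * b1) ^ 2))
      (c ^ 2 * S1 b2 b4 b6 a1 b1 a2 b2' + w1 * w2 * Y ^ 2) := by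
  have hc2 : Cg V s (c ^ 2) (c ^ 2) := (Cg.refl hc).sq
  have m1 := (Cg.refl (Place.le_mul (V.v_ofNat_le 2) hx3)).mul
    (hc2.mul ((k1.mul (Cg.refl hb2)).sub (k2.mul (Cg.refl hb1))).sq)
  have m2 := (hc2.mul (Cg.S1 h2 h4 h6 k1 hb1 k2 hb2)).add (l1.mul l2)
  have e1 : 2 * x3 * (c ^ 2 * (x1 * b1 * b2' - x2 * b2' * b1) ^ 2) =
      c ^ 2 * S1 b2 b4 b6 (x1 * b1) b1 (x2 * b2') b2' + c * b1 ^ 2 * Y1 * (c * b2' ^ 2 * Y2) := by
    simp only [S1] at e ⊢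
    linear_combination (c ^ 2 * b1 ^ 2 * b2' ^ 2) * e
  have e2 : w1 * w2 * Y ^ 2 = w1 * Y * (w2 * Y) := by ring
  rw [e1] at m1
  rw [e2]
  exact m1.symm.trans m2

/-! ### the automorphism of order three -/

variable {Wb : WeierstrassCurve V.k}

theorem om_data (H : Tools) (hp : p.Prime) (E0 : Lift V Wb) (hω : Hom E0.L E0.L om) :
    ∃ μ : ℂ, V.v μ ≤ 1 ∧
      (∀ P : Pt E0.W, P ≠ 0 → px (mulPt E0.π E0.π om P) = om * px P + μ ∧
        pY (mulPt E0.π E0.π om P) = pY P) ∧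
      ∀ A B : ℂ[X], F3 E0.W (C om * A + C μ * B) B = F3 E0.W A B := by
  obtain ⟨T, A0, B0, h⟩ := H.velu _ _ _ _ _ _ om E0.unif E0.unif om_ne_zero hω
  have hA0 := (H.int p V _ _ _ _ _ _ om _ T A0 B0 hp E0.good E0.good E0.unif E0.unif h).1
  have hk : ∀ Q, mulPt E0.π E0.π om Q = 0 → Q = 0 := fun Q hQ => by
    obtain ⟨z, rfl⟩ := E0.unif.surj Q
    rw [mulPt_apply E0.unif E0.unif hω, E0.unif.ker] at hQ
    have h1 := hω _ (hω _ hQ)
    rw [E0.unif.ker]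
    have e : om * (om * (om * z)) = z := by linear_combination z * om_cube
    rwa [e] at h1
  have hT : T = {0} := by
    ext Q
    rw [Finset.mem_singleton, h.ker]
    exact ⟨hk Q, fun e => by rw [e, map_zero]⟩
  have hB : B0 = C (om ^ 2) := by rw [h.B_eq, hT]; simp
  have hd : A0.natDegree = 1 := by rw [h.deg, hT]; simp
  obtain ⟨a0, hA⟩ : ∃ a0, A0 = X + C a0 := ⟨_, h.monic.eq_X_add_C hd⟩
  have ha0 : V.v a0 ≤ 1 := by
    have := (V.coeff_le_gn A0 0).trans hA0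
    simpa [hA] using this
  have hW : Wr A0 B0 = C (om ^ 2) := by rw [hA, hB]; simp [Wr]
  refine ⟨om * a0, Place.le_mul V.v_om.le ha0, fun P hP => ⟨?_, ?_⟩, fun A B => ?_⟩
  · have h1 := h.x_eq (P := P) fun e => hP (hk P e)
    rw [hA, hB] at h1
    simp only [eval_C, eval_add, eval_X] at h1
    linear_combination om * h1 - px (mulPt E0.π E0.π om P) * om_cube
  · have h1 := h.Yrel P fun e => hP (hk P e)
    rw [hW, hB] at h1
    simp only [eval_C] at h1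
    linear_combination om * h1 - (pY (mulPt E0.π E0.π om P) * (om ^ 3 + 1) - pY P) * om_cube
  · have h1 : ∀ x : ℂ, 4 * x ^ 3 + E0.W.b₂ * x ^ 2 + 2 * E0.W.b₄ * x + E0.W.b₆ =
        4 * (x + a0) ^ 3 + E0.W.b₂ * om ^ 2 * (x + a0) ^ 2 + 2 * E0.W.b₄ * om * (x + a0) +
          E0.W.b₆ := fun x => by
      have h2 := congrArg (eval x) h.ode
      rw [hW, hA, hB] at h2
      simp only [eval_mul, eval_pow, eval_C, F3_eval, eval_add, eval_X, eval_one] at h2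
      have h4 : om ^ 4 ≠ 0 := pow_ne_zero _ om_ne_zero
      apply mul_left_cancel₀ h4
      linear_combination h2 + om ^ 4 * (2 * E0.W.b₄ * om * (x + a0) +
        E0.W.b₆ * (om ^ 3 + 1)) * om_cube
    have r0 : 4 * a0 ^ 3 + E0.W.b₂ * om ^ 2 * a0 ^ 2 + 2 * E0.W.b₄ * om * a0 = 0 := by
      linear_combination -h1 0
    have r1 : 12 * a0 ^ 2 + 2 * E0.W.b₂ * om ^ 2 * a0 + 2 * E0.W.b₄ * om - 2 * E0.W.b₄ = 0 := by
      linear_combination (h1 (-1) - h1 1) / 2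
    have r2 : 12 * a0 + E0.W.b₂ * om ^ 2 - E0.W.b₂ = 0 := by
      linear_combination h1 0 - (h1 (-1) + h1 1) / 2
    have c0 := congrArg C r0
    have c1 := congrArg C r1
    have c2 := congrArg C r2
    have c3 := congrArg C om_cube
    simp only [map_add, map_sub, map_mul, map_pow, map_ofNat, map_zero, map_one] at c0 c1 c2 c3
    simp only [F3, map_mul]
    linear_combination A ^ 2 * B * c2 + A * B ^ 2 * c1 + B ^ 3 * c0 +
      4 * (A + C a0 * B) ^ 3 * c3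

theorem val_ne (E : Lift V Wb) {P : ptor p E.W} (h : E.ρ P ≠ 0) : P.1 ≠ 0 := fun e =>
  h (by rw [show P = 0 from Subtype.ext e, map_zero])

theorem near_om (H : Tools) (hp : p.Prime) {E E0 : Lift V Wb} (hs : s < 1)
    (hcl : V.Close (s ^ 2) E.W E0.W) {μ : ℂ} (hμ : V.v μ ≤ 1)
    (hω : ∀ P : Pt E0.W, P ≠ 0 → px (mulPt E0.π E0.π om P) = om * px P + μ ∧
        pY (mulPt E0.π E0.π om P) = pY P) {P Q : ptor p E.W} (hP : E.ρ P ≠ 0)
    (hQ : E.ρ Q = kap E0 E0 om (E.ρ P)) :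
    Cg V s (px Q.1) (om * px P.1 + μ) ∧ Cg V s (pY Q.1) (pY P.1) := by
  obtain ⟨P0, h0⟩ := E0.ρ.surjective (E.ρ P)
  rw [← h0, kap_apply] at hQ
  obtain ⟨n1, n2⟩ := H.near p V Wb E E0 s hp hs hcl P P0 h0.symm
  obtain ⟨n3, n4⟩ := H.near p V Wb E E0 s hp hs hcl Q _ hQ
  obtain ⟨e1, e2⟩ := hω P0.1 (val_ne E0 (h0 ▸ hP))
  have c1 : Cg V s (px P.1) (px P0.1) := ⟨E.px_le _, E0.px_le _, n1⟩
  have c2 : Cg V s (pY P.1) (pY P0.1) := ⟨E.pY_le _, E0.pY_le _, n2⟩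
  have c3 : Cg V s (px Q.1) _ := ⟨E.px_le _, E0.px_le _, n3⟩
  have c4 : Cg V s (pY Q.1) _ := ⟨E.pY_le _, E0.pY_le _, n4⟩
  rw [res_val, e1] at c3
  rw [res_val, e2] at c4
  exact ⟨c3.trans (((Cg.refl V.v_om.le).mul c1.symm).add (Cg.refl hμ)), c4.trans c2.symm⟩

theorem point (H : Tools) (hp : p.Prime) {E E0 : Lift V Wb} (hs : s < 1)
    (hcl : V.Close (s ^ 2) E.W E0.W) {μ : ℂ} (hμ : V.v μ ≤ 1)
    (hω : ∀ P : Pt E0.W, P ≠ 0 → px (mulPt E0.π E0.π om P) = om * px P + μ ∧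
        pY (mulPt E0.π E0.π om P) = pY P) {α : ℂ} (hα : V.v α ≤ 1) {T : Finset (Pt E.W)}
    {A B : ℂ[X]} (h : Isog E.W E.W α (mulPt E.π E.π α) T A B) (hA : V.gn A ≤ 1)
    (hB : V.gn B ≤ 1) (P : ptor p E.W)
    (g1 : kap E E α (kap E0 E0 om (E.ρ P)) ≠ 0) (g2 : kap E0 E0 om (kap E E α (E.ρ P)) ≠ 0)
    (g3 : kap E E α (kap E0 E0 om (E.ρ P)) + kap E0 E0 om (kap E E α (E.ρ P)) ≠ 0)
    (g4 : kap E E α (kap E0 E0 om (E.ρ P)) - kap E0 E0 om (kap E E α (E.ρ P)) ≠ 0) :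
    ∃ x3 : ℂ, V.v x3 ≤ 1 ∧
      V.red x3 = px (kap E E α (kap E0 E0 om (E.ρ P)) - kap E0 E0 om (kap E E α (E.ρ P))).1 ∧
      Cg V s (2 * x3 * (Den (om * α) (A.comp (C om * X + C μ)) (B.comp (C om * X + C μ))
        (C om * A + C μ * B) B).eval (px P.1))
        ((Num E.W (om * α) (A.comp (C om * X + C μ)) (B.comp (C om * X + C μ))
          (C om * A + C μ * B) B).eval (px P.1)) ∧
      (V.red ((B.comp (C om * X + C μ) * B).eval (px P.1)) ≠ 0 →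
        V.red ((A.comp (C om * X + C μ) * B - (C om * A + C μ * B) * B.comp (C om * X + C μ)).eval
          (px P.1)) ≠ 0) := by
  obtain ⟨Q0, hQ0⟩ := E.ρ.surjective (kap E0 E0 om (E.ρ P))
  obtain ⟨Q2, hQ2⟩ := E.ρ.surjective (kap E0 E0 om (kap E E α (E.ρ P)))
  have hPa : E.ρ (res p (mulPt E.π E.π α) P) = kap E E α (E.ρ P) := (kap_apply E E α P).symm
  have hQ1 : E.ρ (res p (mulPt E.π E.π α) Q0) = kap E E α (kap E0 E0 om (E.ρ P)) := by
    rw [← hQ0, kap_apply]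
  generalize hq : res p (mulPt E.π E.π α) Q0 = Q1 at hQ1
  generalize hq' : res p (mulPt E.π E.π α) P = Pa at hPa
  have v1 : Q1.1 = mulPt E.π E.π α Q0.1 := by rw [← hq, res_val]
  have va : Pa.1 = mulPt E.π E.π α P.1 := by rw [← hq', res_val]
  have nP : E.ρ P ≠ 0 := fun e => g1 (by rw [e, map_zero, map_zero])
  have nPa : E.ρ Pa ≠ 0 := fun e => g2 (by rw [← hPa, e, map_zero])
  rw [← hQ1, ← hQ2] at g3 g4 ⊢
  rw [← hQ1] at g1
  rw [← hQ2] at g2
  have n1 := val_ne E g1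
  have n2 := val_ne E g2
  have n3 : Q1.1 + Q2.1 ≠ 0 := val_ne E (P := Q1 + Q2) (by rwa [map_add])
  have n4 : Q1.1 - Q2.1 ≠ 0 := val_ne E (P := Q1 - Q2) (by rwa [map_sub])
  obtain ⟨c1, c2⟩ := near_om H hp hs hcl hμ hω nP hQ0
  obtain ⟨c3, c4⟩ := near_om H hp hs hcl hμ hω nPa (hQ2.trans (by rw [hPa]))
  have hx := E.px_le P
  have hWr : V.gn (Wr A B) ≤ 1 := Place.gn_Wr hA hB
  have hl : ∀ G : ℂ[X], (G.comp (C om * X + C μ)).eval (px P.1) = G.eval (om * px P.1 + μ) :=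
    fun G => by simp [eval_comp]
  have x1 := h.x_eq (P := Q0.1) (v1 ▸ n1)
  have y1 := h.Yrel Q0.1 (v1 ▸ n1)
  have x2 := h.x_eq (P := P.1) (va ▸ val_ne E nPa)
  have y2 := h.Yrel P.1 (va ▸ val_ne E nPa)
  rw [← v1] at x1 y1
  rw [← va] at x2 y2
  have hom : Cg V s om om := Cg.refl V.v_om.le
  have hBx : Cg V s (B.eval (px P.1)) (B.eval (px P.1)) := (Cg.refl hx).eval hB
  have k1 : Cg V s (px Q1.1 * (B.comp (C om * X + C μ)).eval (px P.1))
      ((A.comp (C om * X + C μ)).eval (px P.1)) := by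
    rw [hl, hl]
    refine ((Cg.refl (E.px_le Q1)).mul (c1.eval hB)).symm.trans ?_
    rw [x1]
    exact c1.eval hA
  have k2 : Cg V s (px Q2.1 * B.eval (px P.1)) ((C om * A + C μ * B).eval (px P.1)) := by
    have e : (C om * A + C μ * B).eval (px P.1) = (om * px Pa.1 + μ) * B.eval (px P.1) := by
      simp only [eval_add, eval_mul, eval_C, ← x2]
      ring
    rw [e]
    exact c3.mul hBx
  have l1 : Cg V s (om * α * (B.comp (C om * X + C μ)).eval (px P.1) ^ 2 * pY Q1.1)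
      ((Wr (A.comp (C om * X + C μ)) (B.comp (C om * X + C μ))).eval (px P.1) * pY P.1) := by
    rw [Wr_comp, eval_mul, eval_C, hl, hl]
    refine (((hom.mul (Cg.refl hα)).mul (c1.eval hB).sq).mul (Cg.refl (E.pY_le Q1))).symm.trans ?_
    have e : om * α * B.eval (px Q0.1) ^ 2 * pY Q1.1 = om * (Wr A B).eval (px Q0.1) * pY Q0.1 := by
      linear_combination om * y1
    rw [e]
    exact (hom.mul (c1.eval hWr)).mul c2
  have l2 : Cg V s (om * α * B.eval (px P.1) ^ 2 * pY Q2.1)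
      ((Wr (C om * A + C μ * B) B).eval (px P.1) * pY P.1) := by
    have e : (Wr (C om * A + C μ * B) B).eval (px P.1) * pY P.1 =
        om * α * B.eval (px P.1) ^ 2 * pY Pa.1 := by
      rw [Wr_lin, eval_mul, eval_C]
      linear_combination -om * y2
    rw [e]
    exact ((hom.mul (Cg.refl hα)).mul hBx.sq).mul c4
  have hb1 : V.v ((B.comp (C om * X + C μ)).eval (px P.1)) ≤ 1 := by
    rw [hl]; exact (c1.eval hB).r
  refine ⟨px (Q1 - Q2).1, E.px_le _, by rw [← E.px_red, map_sub], ?_, fun hne => ?_⟩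
  · have e := (addSub ℂ E.W E.unif.disc Q1.1 Q2.1).2 n1 n2 n3 n4
    have h1 := cg_point E.good.b₂ E.good.b₄ E.good.b₆ (Place.le_mul V.v_om.le hα)
      (E.px_le (Q1 - Q2)) hb1 hBx.l k1 k2 l1 l2 e
    rw [pY_sq' (val_ne E nP), ← Num_eval] at h1
    simpa only [Den, eval_mul, eval_sub, eval_pow, eval_C] using h1
  · have h1 := ((k1.mul hBx).sub (k2.mul (Cg.refl hb1))).red hs
    have e : px Q1.1 * (B.comp (C om * X + C μ)).eval (px P.1) * B.eval (px P.1) -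
        px Q2.1 * B.eval (px P.1) * (B.comp (C om * X + C μ)).eval (px P.1) =
        (B.comp (C om * X + C μ) * B).eval (px P.1) * (px Q1.1 - px Q2.1) := by
      rw [eval_mul]; ring
    rw [eval_sub, eval_mul, eval_mul, ← h1, e, Place.red_mul
      (by rw [eval_mul]; exact Place.le_mul hb1 hBx.l) (Place.le_sub (E.px_le _) (E.px_le _)),
      Place.red_sub (E.px_le _) (E.px_le _), ← E.px_red, ← E.px_red]
    refine mul_ne_zero hne (sub_ne_zero.2 (px_ne ?_ ?_ ?_ ?_))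
    · exact fun e => g1 (Subtype.ext e)
    · exact fun e => g2 (Subtype.ext e)
    · exact fun e => g3 (Subtype.ext e)
    · exact fun e => g4 (Subtype.ext e)

theorem eps_one {W W0 : WeierstrassCurve ℂ} {r : ℝ≥0} (g : V.Good W) (g0 : V.Good W0)
    (hcl : V.Close r W W0) {μ α : ℂ} (hμ : V.v μ ≤ 1)
    (hF : ∀ A B : ℂ[X], F3 W0 (C om * A + C μ * B) B = F3 W0 A B) {A B : ℂ[X]}
    (hW : V.gn (Wr A B) ≤ 1) (ode : Wr A B ^ 2 * F3 W X 1 = C (α ^ 2) * F3 W A B * B) :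
    V.gn (eps W (om * α) (A.comp (C om * X + C μ)) (B.comp (C om * X + C μ))) ≤ r := by
  have h1 := congrArg (fun G : ℂ[X] => G.comp (C om * X + C μ)) ode
  simp only [mul_comp, pow_comp, C_comp, F3_comp, X_comp, one_comp] at h1
  have h2 := hF X 1
  rw [mul_one] at h2
  have e : eps W (om * α) (A.comp (C om * X + C μ)) (B.comp (C om * X + C μ)) =
      (C om * (Wr A B).comp (C om * X + C μ)) ^ 2 *
        ((F3 W X 1 - F3 W0 X 1) - (F3 W (C om * X + C μ) 1 - F3 W0 (C om * X + C μ) 1)) := by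
    rw [eps, Wr_comp, h2, mul_pow om, C_mul, C_pow]
    linear_combination C om ^ 2 * h1
  rw [e]
  exact Place.gn_mul (Place.gn_pow (Place.gn_mul (by rw [Place.gn_C, V.v_om])
    (by rwa [gn_comp_l hμ])) 2) (Place.gn_sub (hcl.gn_F3 g g0 (by simp) (by simp))
      (hcl.gn_F3 g g0 (gn_l hμ) (by simp)))

theorem eps_two {W W0 : WeierstrassCurve ℂ} {r : ℝ≥0} (g : V.Good W) (g0 : V.Good W0)
    (hcl : V.Close r W W0) {μ α : ℂ} (hμ : V.v μ ≤ 1) (hα : V.v α ≤ 1)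
    (hF : ∀ A B : ℂ[X], F3 W0 (C om * A + C μ * B) B = F3 W0 A B) {A B : ℂ[X]}
    (hA : V.gn A ≤ 1) (hB : V.gn B ≤ 1)
    (ode : Wr A B ^ 2 * F3 W X 1 = C (α ^ 2) * F3 W A B * B) :
    V.gn (eps W (om * α) (C om * A + C μ * B) B) ≤ r := by
  have e : eps W (om * α) (C om * A + C μ * B) B = C ((om * α) ^ 2) * B *
      ((F3 W A B - F3 W0 A B) -
        (F3 W (C om * A + C μ * B) B - F3 W0 (C om * A + C μ * B) B)) := by
    rw [eps, Wr_lin, hF, mul_pow om, C_mul, C_pow]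
    linear_combination C om ^ 2 * ode
  rw [e]
  exact Place.gn_mul (Place.gn_mul
    (by rw [Place.gn_C]; exact Place.le_pow (Place.le_mul V.v_om.le hα) 2) hB)
    (Place.gn_sub (hcl.gn_F3 g g0 hA hB) (hcl.gn_F3 g g0 (gn_lin hμ hA hB) hB))

theorem gn_Wr_isog {W : WeierstrassCurve ℂ} {α : ℂ} {φ : Pt W →+ Pt W} {T : Finset (Pt W)}
    {A B : ℂ[X]} (h : Isog W W α φ T A B) (hα : V.v α = 1) (hA : V.gn A ≤ 1) (hB : V.gn B ≤ 1) :
    V.gn (Wr A B) = 1 := by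
  refine le_antisymm (Place.gn_Wr hA hB) ?_
  have h1 := ResP.v_coeff_Wr_le (V := V) (A := A) (B := B) le_rfl le_rfl
  rw [h.monic.coeff_natDegree, coeff_natDegree, h.lead_B, ← h.natDegree_B] at h1
  simpa [hα] using h1

theorem final {F : Type} [Field F] {G D A B : F[X]} (hA : A.Monic) (hB : B ≠ 0)
    (hd : B.degree < A.degree) (hD : D ≠ 0) (e : G * B = D * A) :
    G ≠ 0 ∧ ((A.natDegree - B.natDegree : ℕ) : ℂ) = (G.natDegree : ℂ) - D.natDegree := by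
  have hG : G ≠ 0 := by
    rintro rfl
    rw [zero_mul] at e
    exact mul_ne_zero hD hA.ne_zero e.symm
  have h1 := congrArg natDegree e
  rw [natDegree_mul hG hB, natDegree_mul hD hA.ne_zero] at h1
  have h2 := natDegree_lt_natDegree hB hd
  refine ⟨hG, ?_⟩
  rw [Nat.cast_sub h2.le]
  have h3 := congrArg (Nat.cast : ℕ → ℂ) h1
  push_cast at h3
  linear_combination -h3

theorem mul_ne {R : Type} [Ring R] {a w : R} (h : a * w ≠ w * a) : a ≠ 0 ∧ w ≠ 0 :=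
  ⟨fun e => h (by rw [e, zero_mul, mul_zero]), fun e => h (by rw [e, zero_mul, mul_zero])⟩

theorem sub_ne {R : Type} [Ring R] {a w : R} (h : a ≠ w) : a - w ≠ 0 := sub_ne_zero.2 h

theorem add_ne {R : Type} [Ring R] {a w : R} (h : a ≠ -w) : a + w ≠ 0 :=
  fun e => h (eq_neg_of_add_eq_zero_left e)

end DeepP

open DeepP in
theorem deep (H : Tools) : S_Deep := by
  intro p V Wb E E0 r α hp hcl hr hα hE hω hne1 hne2
  have R := E.facts H.ring hp
  have := E.infinite hp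
  have hι : Function.Injective (ptor p Wb).subtype := Subtype.val_injective
  have α0 : α ≠ 0 := by
    rintro rfl
    simp at hα
  obtain ⟨μ, hμ, hω1, hF⟩ := om_data H hp E0 hω
  obtain ⟨T, A, B, h⟩ := H.velu _ _ _ _ _ _ α E.unif E.unif α0 hE
  obtain ⟨hA, hB, -⟩ := H.int p V _ _ _ _ _ _ α _ T A B hp E.good E.good E.unif E.unif h
  have hW := gn_Wr_isog h hα hA hB.le
  have hc : V.v (om * α) = 1 := by rw [map_mul, V.v_om, hα, one_mul]
  have a1 : V.gn (A.comp (C om * X + C μ)) ≤ 1 := by rwa [gn_comp_l hμ]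
  have b1 : V.gn (B.comp (C om * X + C μ)) = 1 := by rwa [gn_comp_l hμ]
  have a2 := gn_lin hμ hA hB.le
  have hWr := gn_Wr_num hp (W := E.W) hc.le a1 b1 a2 hB
    (by rw [Wr_comp, map_mul, Place.gn_C, V.v_om, gn_comp_l hμ, hW, one_mul])
    (by rw [Wr_lin, map_mul, Place.gn_C, V.v_om, hW, one_mul])
    (eps_one E.good E0.good hcl hμ hF hW.le h.ode)
    (eps_two E.good E0.good hcl hμ hα.le hF hA hB.le h.ode)
  obtain ⟨s, hs⟩ : ∃ s : ℝ≥0, s ^ 2 = r := ⟨NNReal.sqrt r, NNReal.sq_sqrt r⟩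
  have hs2 : 2 * s < 1 := by
    have h1 : (2 * s) ^ 2 < 1 := by rw [mul_pow, hs]; norm_num; exact hr
    exact (pow_lt_one_iff_of_nonneg zero_le two_ne_zero).1 h1
  have hsv : s < V.v 2 := lt_of_mul_lt_mul_left (hs2.trans_le (V.half_le_v_two hp)) zero_le
  have hs1 : s < 1 := hsv.trans_le (V.v_ofNat_le 2)
  have hv2 : 0 < V.v 2 := lt_of_le_of_lt zero_le hsv
  have pt := point H hp hs1 (hs ▸ hcl) hμ hω1 hα.le h hA hB.le
  have aa := kap_alg H hp E E hE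
  have aw := kap_alg H hp E0 E0 hω
  generalize kap E E α = a at *
  generalize kap E0 E0 om = w at *
  generalize A.comp (C om * X + C μ) = A1 at *
  generalize B.comp (C om * X + C μ) = B1 at *
  generalize C om * A + C μ * B = A2 at *
  obtain ⟨a0, w0⟩ := mul_ne hne1
  have aδ := R.alg_sub (R.alg_mul _ _ aa aw) (R.alg_mul _ _ aw aa)
  have aσ := R.alg_add _ _ (R.alg_mul _ _ aa aw) (R.alg_mul _ _ aw aa)
  have fa := R.ker_fin _ aa a0
  have fw := R.ker_fin _ aw w0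
  let S : Set (ptor p Wb) := (w ⁻¹' {G | a G = 0} ∪ a ⁻¹' {G | w G = 0}) ∪
    ({G | (a * w + w * a) G = 0} ∪ {G | (a * w - w * a) G = 0})
  have fS : S.Finite := ((finite_preimage (φ := w) fw fa).union (finite_preimage (φ := a) fa fw)).union
    ((R.ker_fin _ aσ (add_ne hne2)).union (R.ker_fin _ aδ (sub_ne hne1)))
  have pt' := fun (P : ptor p E.W) (hP : E.ρ P ∉ S) => pt P (fun e => hP (Or.inl (Or.inl e)))
    (fun e => hP (Or.inl (Or.inr e))) (fun e => hP (Or.inr (Or.inl e)))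
    (fun e => hP (Or.inr (Or.inr e)))
  clear pt
  have hD0 : V.gn (A1 * B - A2 * B1) ≤ 1 :=
    Place.gn_sub (Place.gn_mul a1 hB.le) (Place.gn_mul a2 b1.le)
  have hc2 : V.gn (C ((om * α) ^ 2)) = 1 := by rw [Place.gn_C, map_pow, hc, one_pow]
  have hDen : V.gn (Den (om * α) A1 B1 A2 B) ≤ 1 := Place.gn_mul hc2.le (Place.gn_pow hD0 2)
  have hNum : V.gn (Num E.W (om * α) A1 B1 A2 B) ≤ V.v 2 := by
    refine E.interp hp _ _ ((fS.preimage E.ρ.injective.injOn).subset fun P hP => ?_)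
    by_contra hS
    obtain ⟨x3, h1, -, h3, -⟩ := pt' P hS
    apply hP
    rw [← sub_sub_cancel (2 * x3 * _) (eval _ (Num _ _ _ _ _ _))]
    refine Place.le_sub ?_ (h3.d.trans hsv.le)
    rw [mul_assoc]
    exact Place.le_mul' le_rfl
      (Place.le_mul h1 ((Place.v_eval_le _ (E.px_le P)).trans hDen))
  have hH : V.gn (C 2⁻¹ * Num E.W (om * α) A1 B1 A2 B) ≤ 1 := by
    rw [map_mul, Place.gn_C, map_inv₀]
    exact inv_mul_le_one_of_le₀ hNum zero_le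
  have hB12 : V.gn (B1 * B) = 1 := by rw [map_mul, b1, hB, one_mul]
  have hD1 : V.redP (A1 * B - A2 * B1) ≠ 0 := by
    obtain ⟨G, hG⟩ := (fS.union (finite_root' hι
      ((Place.redP_ne_zero hB12.le).2 hB12))).infinite_compl.nonempty
    obtain ⟨P, rfl⟩ := E.ρ.surjective G
    obtain ⟨x3, -, -, -, h4⟩ := pt' P fun e => hG (Or.inl e)
    intro e
    refine h4 (fun e' => hG (Or.inr ?_)) ?_
    · show eval (px (E.ρ P).1) _ = 0
      rw [E.px_red, Place.eval_redP hB12.le (E.px_le P), e']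
    · rw [← Place.eval_redP hD0 (E.px_le P), e, eval_zero]
  have hD2 : V.gn (Den (om * α) A1 B1 A2 B) = 1 := by
    rw [Den, map_mul, hc2, map_pow, (Place.redP_ne_zero hD0).1 hD1, one_pow, one_mul]
  obtain ⟨⟨Ad, Bd, hrep⟩, -⟩ := aδ
  have key : V.redP (C 2⁻¹ * Num E.W (om * α) A1 B1 A2 B) * Bd =
      V.redP (Den (om * α) A1 B1 A2 B) * Ad := by
    rw [← sub_eq_zero]
    refine poly_eq_zero hι ((fS.union hrep.2.2.2).subset fun G hG => ?_)
    by_contra hS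
    obtain ⟨P, rfl⟩ := E.ρ.surjective G
    have hS1 : E.ρ P ∉ S := fun e => hS (Or.inl e)
    obtain ⟨x3, h1, h2, h3, -⟩ := pt' P hS1
    have h5 : ((a * w - w * a) (E.ρ P)).1 ≠ 0 := fun e => hS1 (Or.inr (Or.inr (Subtype.ext e)))
    have h6 : hx ((a * w - w * a) (E.ρ P)).1 * Bd.eval (px (E.ρ P).1) =
        hz ((a * w - w * a) (E.ρ P)).1 * Ad.eval (px (E.ρ P).1) := by
      by_contra e
      exact hS (Or.inr e)
    rw [hx_of_ne h5, hz_of_ne h5, one_mul] at h6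
    have h7 : V.red x3 = px ((a * w - w * a) (E.ρ P)).1 := h2
    have hx := E.px_le P
    have h8 : V.red x3 * V.red ((Den (om * α) A1 B1 A2 B).eval (px P.1)) =
        V.red ((C 2⁻¹ * Num E.W (om * α) A1 B1 A2 B).eval (px P.1)) := by
      have d1 := (Place.v_eval_le _ hx).trans hDen
      rw [← Place.red_mul h1 d1, Place.red_eq_iff (Place.le_mul h1 d1)
        ((Place.v_eval_le _ hx).trans hH)]
      have e : x3 * (Den (om * α) A1 B1 A2 B).eval (px P.1) -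
          (C 2⁻¹ * Num E.W (om * α) A1 B1 A2 B).eval (px P.1) =
          2⁻¹ * (2 * x3 * (Den (om * α) A1 B1 A2 B).eval (px P.1) -
            (Num E.W (om * α) A1 B1 A2 B).eval (px P.1)) := by
        rw [eval_mul, eval_C]; ring
      rw [e, map_mul, map_inv₀, inv_mul_lt_one₀ hv2]
      exact h3.d.trans_lt hsv
    apply hG
    show eval (px (E.ρ P).1) _ = 0
    rw [eval_sub, eval_mul, eval_mul, ← h6, ← h7, E.px_red, Place.eval_redP hH hx,
      Place.eval_redP hDen hx, ← h8]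
    ring
  obtain ⟨hG0, hfin⟩ := final hrep.1 (R.B_ne _ _ _ hrep (sub_ne hne1)) hrep.2.1
    ((Place.redP_ne_zero hDen).2 hD2) key
  rw [R.ed_eq _ _ _ hrep, hfin]
  exact res_lemma ((Place.redP_ne_zero hH).1 hG0) hD2 hWr

end Pool.Agent.P.MP_94fe55_nt
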