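import Pool.Agent.P.MP_94fe55_nt.Kap

set_option autoImplicit false

namespace Pool.Agent.P.MP_94fe55_nt

open Polynomial WeierstrassCurve
open scoped NNReal

namespace DivP

/-- two integral elements at distance at most `r` -/
def Cl {R : Type} [CommRing R] (w : Valuation R ℝ≥0) (r : ℝ≥0) (a b : R) : Prop :=
  w a ≤ 1 ∧ w b ≤ 1 ∧ w (a - b) ≤ r

section

variable {R : Type} [CommRing R] {w : Valuation R ℝ≥0} {r : ℝ≥0} {a b a' b' : R}

theorem Cl.rfl' (h : w a ≤ 1) : Cl w r a a := ⟨h, h, by simp⟩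

theorem Cl.add (h : Cl w r a a') (k : Cl w r b b') : Cl w r (a + b) (a' + b') := by
  refine ⟨w.map_add_le h.1 k.1, w.map_add_le h.2.1 k.2.1, ?_⟩
  have : a + b - (a' + b') = (a - a') + (b - b') := by ring
  rw [this]
  exact w.map_add_le h.2.2 k.2.2

theorem Cl.sub (h : Cl w r a a') (k : Cl w r b b') : Cl w r (a - b) (a' - b') := by
  refine ⟨w.map_sub_le h.1 k.1, w.map_sub_le h.2.1 k.2.1, ?_⟩
  have : a - b - (a' - b') = (a - a') - (b - b') := by ring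
  rw [this]
  exact w.map_sub_le h.2.2 k.2.2

theorem mul_le {s : ℝ≥0} (h : w a ≤ 1) (k : w b ≤ s) : w (a * b) ≤ s := by
  rw [map_mul]; exact (mul_le_mul' h k).trans (by simp)

theorem Cl.mul (h : Cl w r a a') (k : Cl w r b b') : Cl w r (a * b) (a' * b') := by
  refine ⟨mul_le h.1 k.1, mul_le h.2.1 k.2.1, ?_⟩
  have : a * b - a' * b' = a * (b - b') + b' * (a - a') := by ring
  rw [this]
  exact w.map_add_le (mul_le h.1 k.2.2) (mul_le k.2.1 h.2.2)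

theorem Cl.pow (h : Cl w r a a') (n : ℕ) : Cl w r (a ^ n) (a' ^ n) := by
  induction n with
  | zero => simpa using Cl.rfl' (w := w) (r := r) (a := 1) (by simp)
  | succ n ih => rw [pow_succ, pow_succ]; exact ih.mul h

theorem Cl.cancel (h : Cl w r (a * b) (a' * b')) (k : Cl w r b b') (e : w b = 1) (e' : w b' = 1) :
    Cl w r a a' := by
  have h1 : w a ≤ 1 := by simpa [e] using h.1
  have h2 : w a' ≤ 1 := by simpa [e'] using h.2.1
  refine ⟨h1, h2, ?_⟩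
  have h3 : (a - a') * b = (a * b - a' * b') - a' * (b - b') := by ring
  have h4 : w ((a - a') * b) ≤ r := by
    rw [h3]; exact w.map_sub_le h.2.2 (mul_le h2 k.2.2)
  simpa [e] using h4

theorem Cl.two : Cl w r (2 : R) 2 := by
  refine Cl.rfl' ?_
  rw [← one_add_one_eq_two]
  exact w.map_add_le (by simp) (by simp)

theorem Cl.S1 {b2 b4 b6 c d b2' b4' b6' c' d' : R} (h2 : Cl w r b2 b2') (h4 : Cl w r b4 b4')
    (h6 : Cl w r b6 b6') (ha : Cl w r a a') (hb : Cl w r b b') (hc : Cl w r c c')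
    (hd : Cl w r d d') : Cl w r (S1 b2 b4 b6 a b c d) (S1 b2' b4' b6' a' b' c' d') :=
  ((((Cl.two.mul ((ha.mul hd).add (hc.mul hb))).mul (ha.mul hc)).add
    ((h2.mul (ha.mul hc)).mul (hb.mul hd))).add
    ((h4.mul ((ha.mul hd).add (hc.mul hb))).mul (hb.mul hd))).add (h6.mul ((hb.mul hd).pow 2))

theorem Cl.S2 {b4 b6 b8 c d b4' b6' b8' c' d' : R} (h4 : Cl w r b4 b4')
    (h6 : Cl w r b6 b6') (h8 : Cl w r b8 b8') (ha : Cl w r a a') (hb : Cl w r b b')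
    (hc : Cl w r c c') (hd : Cl w r d d') :
    Cl w r (S2 b4 b6 b8 a b c d) (S2 b4' b6' b8' a' b' c' d') :=
  ((((ha.mul hc).pow 2).sub ((h4.mul (ha.mul hc)).mul (hb.mul hd))).sub
    ((h6.mul ((ha.mul hd).add (hc.mul hb))).mul (hb.mul hd))).sub (h8.mul ((hb.mul hd).pow 2))

end

theorem clC {p : ℕ} {V : Place p} {r : ℝ≥0} {a b : ℂ} (ha : V.v a ≤ 1) (hb : V.v b ≤ 1)
    (h : V.v (a - b) ≤ r) : Cl V.gn r (C a) (C b) :=
  ⟨by simpa using ha, by simpa using hb, by rw [← map_sub, Place.gn_C]; exact h⟩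

theorem cast_add_one {R : Type} [Ring R] (m : ℕ) :
    ((m + 1 : ℕ) : R) + 1 = ((m + 2 : ℕ) : R) := by push_cast; rw [add_assoc, one_add_one_eq_two]

theorem cast_sub_one {R : Type} [Ring R] (m : ℕ) :
    ((m + 1 : ℕ) : R) - 1 = (m : R) := by push_cast; rw [add_sub_cancel_right]

theorem step {W : WeierstrassCurve ℂ} (h : RingFacts (AddMonoidHom.id (Pt W))) (m : ℕ)
    {A B A1 B1 A0 B0 : ℂ[X]}
    (r2 : Rep (AddMonoidHom.id (Pt W)) ((m + 2 : ℕ) : AddMonoid.End (Pt W)) A B)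
    (r1 : Rep (AddMonoidHom.id (Pt W)) ((m + 1 : ℕ) : AddMonoid.End (Pt W)) A1 B1)
    (r0 : Rep (AddMonoidHom.id (Pt W)) ((m : ℕ) : AddMonoid.End (Pt W)) A0 B0) :
    B * A0 = S1 (C W.b₂) (C W.b₄) (C W.b₆) A1 B1 X 1 - A * B0 ∧
      A * A0 = S2 (C W.b₄) (C W.b₆) (C W.b₈) A1 B1 X 1 ∧
      A.natDegree + A0.natDegree = 2 * A1.natDegree + 2 := by
  have e1 : ((m + 1 : ℕ) : AddMonoid.End (Pt W)) + 1 = ((m + 2 : ℕ) : AddMonoid.End (Pt W)) :=
    cast_add_one m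
  have e2 : ((m + 1 : ℕ) : AddMonoid.End (Pt W)) - 1 = ((m : ℕ) : AddMonoid.End (Pt W)) :=
    cast_sub_one m
  obtain ⟨-, t1, t2⟩ := h.triple _ _ A1 B1 X 1 A B A0 B0 r1 h.rep_one (e1 ▸ r2) (e2 ▸ r0)
  refine ⟨by rw [t1]; ring, t2.symm, ?_⟩
  have hq := h.q_par _ _ (h.alg_nat (m + 1)) h.alg_one
  rw [e1, e2, h.qd_eq _ _ _ r2, h.qd_eq _ _ _ r1, h.qd_eq _ _ _ r0, h.qd_eq _ _ _ h.rep_one,
    natDegree_X] at hq
  omega

theorem key {p : ℕ} {V : Place p} {r : ℝ≥0} {W W' : WeierstrassCurve ℂ} (g : V.Good W)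
    (g' : V.Good W') (hc : V.Close r W W') (h : RingFacts (AddMonoidHom.id (Pt W)))
    (h' : RingFacts (AddMonoidHom.id (Pt W'))) (m : ℕ) : ∀ A B A' B' : ℂ[X],
    Rep (AddMonoidHom.id (Pt W)) (m : AddMonoid.End (Pt W)) A B →
    Rep (AddMonoidHom.id (Pt W')) (m : AddMonoid.End (Pt W')) A' B' →
    Cl V.gn r A A' ∧ Cl V.gn r B B' ∧ A.natDegree = m ^ 2 := by
  induction m using Nat.twoStepInduction with
  | zero =>
    intro A B A' B' r1 r2
    rw [Nat.cast_zero] at r1 r2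
    obtain ⟨rfl, rfl⟩ := h.uniq _ _ _ _ _ r1 h.rep_zero
    obtain ⟨rfl, rfl⟩ := h'.uniq _ _ _ _ _ r2 h'.rep_zero
    exact ⟨Cl.rfl' (by simp), Cl.rfl' (by simp), by simp⟩
  | one =>
    intro A B A' B' r1 r2
    rw [Nat.cast_one] at r1 r2
    obtain ⟨rfl, rfl⟩ := h.uniq _ _ _ _ _ r1 h.rep_one
    obtain ⟨rfl, rfl⟩ := h'.uniq _ _ _ _ _ r2 h'.rep_one
    exact ⟨Cl.rfl' (by simp), Cl.rfl' (by simp), by simp⟩
  | more m ih0 ih1 =>
    intro A B A' B' r2 r2'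
    obtain ⟨⟨A1, B1, r1⟩, -⟩ := h.alg_nat (m + 1)
    obtain ⟨⟨A1', B1', r1'⟩, -⟩ := h'.alg_nat (m + 1)
    obtain ⟨⟨A0, B0, r0⟩, -⟩ := h.alg_nat m
    obtain ⟨⟨A0', B0', r0'⟩, -⟩ := h'.alg_nat m
    obtain ⟨a0, b0, d0⟩ := ih0 _ _ _ _ r0 r0'
    obtain ⟨a1, b1, d1⟩ := ih1 _ _ _ _ r1 r1'
    obtain ⟨s1, s2, s3⟩ := step h m r2 r1 r0
    obtain ⟨s1', s2', -⟩ := step h' m r2' r1' r0'
    have c2 := clC g.b₂ g'.b₂ (hc.b₂ g g')
    have c4 := clC g.b₄ g'.b₄ (hc.b₄ g g')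
    have c6 := clC g.b₆ g'.b₆ (hc.b₆ g g')
    have c8 := clC g.b₈ g'.b₈ (hc.b₈ g g')
    have cX : Cl V.gn r X X := Cl.rfl' (by simp)
    have c1 : Cl V.gn r 1 1 := Cl.rfl' (by simp)
    have u0 : V.gn A0 = 1 := le_antisymm a0.1 (Place.one_le_gn r0.1)
    have u0' : V.gn A0' = 1 := le_antisymm a0.2.1 (Place.one_le_gn r0'.1)
    have hA : Cl V.gn r A A' := by
      refine Cl.cancel ?_ a0 u0 u0'
      rw [s2, s2']
      exact Cl.S2 c4 c6 c8 a1 b1 cX c1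
    refine ⟨hA, ?_, ?_⟩
    · refine Cl.cancel ?_ a0 u0 u0'
      rw [s1, s1']
      exact (Cl.S1 c2 c4 c6 a1 b1 cX c1).sub (hA.mul b0)
    · rw [d0, d1] at s3
      have : (m + 2) ^ 2 + m ^ 2 = 2 * (m + 1) ^ 2 + 2 := by ring
      omega

theorem rep_nat {W : WeierstrassCurve ℂ} {L : PeriodPair} {π : ℂ →+ Pt W} (u : Unif W L π)
    {m : ℕ} {T : Finset (Pt W)} {A B : ℂ[X]} (h : Isog W W m (mulPt π π m) T A B) :
    Rep (AddMonoidHom.id (Pt W)) (m : AddMonoid.End (Pt W)) A B := by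
  have e : (mulPt π π m : AddMonoid.End (Pt W)) = (m : AddMonoid.End (Pt W)) :=
    AddMonoidHom.ext fun P => (mulPt_nat u m P).trans (AddMonoid.End.natCast_apply m P).symm
  rw [← e]
  exact h.rep

theorem ne_zero {p m : ℕ} (hp : p.Prime) (h : m.Coprime p) : (m : ℂ) ≠ 0 := by
  rintro e
  have : m = 0 := by exact_mod_cast e
  subst this
  exact hp.one_lt.ne' (by simpa using h)

end DivP

open DivP

theorem div (hR : S_Ring) : S_Div := by
  intro p V r W W' L L' π π' m T T' A B A' B' g g' hc u u' h h'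
  have := u.infinite
  have := u'.infinite
  have f := hR ℂ W (Pt W) (AddMonoidHom.id _) g.Δ_ne Function.injective_id
  have f' := hR ℂ W' (Pt W') (AddMonoidHom.id _) g'.Δ_ne Function.injective_id
  obtain ⟨a, b, d⟩ := key g g' hc f f' m A B A' B' (rep_nat u h) (rep_nat u' h')
  exact ⟨a.1, b.1, a.2.2, b.2.2, by rw [← h.deg, d]⟩

theorem tor (hV : S_Velu) (hD : S_Div) : S_Tor := by
  intro p V W L π hp g u P hP
  obtain ⟨m, hm, hP⟩ := hP
  by_cases h0 : P = 0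
  · simp [h0]
  obtain ⟨T, A, B, h⟩ := hV W W L L π π m u u (ne_zero hp hm) (Hom.nat L m)
  have hB := (hD p V 0 W W L L π π m T T A B A B g g (Place.Close.refl W 0) u u h h).2.1
  rw [h.B_eq, map_mul, Place.gn_C, map_pow, V.v_coprime hp hm, one_pow, one_mul, map_prod] at hB
  simp only [Place.gn_X_sub_px] at hB
  have hT : P ∈ T.erase 0 :=
    Finset.mem_erase.2 ⟨h0, (h.ker P).2 (by rw [mulPt_nat u, hP])⟩
  have := Finset.single_le_prod' (f := fun Q : Pt W => V.M Q)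
    (fun Q _ => Place.one_le_M Q) hT
  exact Place.M_eq_one.1 (le_antisymm (this.trans hB) (Place.one_le_M P))

namespace DivP

variable {p : ℕ} {V : Place p} {Wb : WeierstrassCurve V.k}

theorem val_ne (E : Lift V Wb) {P : ptor p E.W} (h : P.1 ≠ 0) : (E.ρ P).1 ≠ 0 :=
  fun e => h ((E.rho P).1.2 e)

theorem near_x (hV : S_Velu) (hD : S_Div) (E E0 : Lift V Wb) {s : ℝ≥0} (hp : p.Prime)
    (hc : V.Close (s ^ 2) E.W E0.W) {P : ptor p E.W} {P0 : ptor p E0.W} (e : E.ρ P = E0.ρ P0)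
    (h0 : P.1 ≠ 0) (h0' : P0.1 ≠ 0) : V.v (px P.1 - px P0.1) ≤ s := by
  classical
  obtain ⟨m, hm, hP⟩ := P.2
  have hP0 : m • P0.1 = 0 := by
    have h1 : m • P = 0 := Subtype.ext hP
    have h2 : E0.ρ (m • P0) = 0 := by rw [map_nsmul, ← e, ← map_nsmul, h1, map_zero]
    have h3 : m • P0 = 0 := E0.ρ.map_eq_zero_iff.1 h2
    exact congrArg Subtype.val h3
  obtain ⟨T, A, B, h⟩ := hV _ _ _ _ _ _ m E.unif E.unif (ne_zero hp hm) (Hom.nat _ m)
  obtain ⟨T0, A0, B0, k⟩ := hV _ _ _ _ _ _ m E0.unif E0.unif (ne_zero hp hm) (Hom.nat _ m)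
  have hB := (hD p V _ _ _ _ _ _ _ m T T0 A B A0 B0 E.good E0.good hc E.unif E0.unif h k).2.2.2.1
  have h1 : B.eval (px P.1) = 0 := h.B_eval_zero h0 (by rw [mulPt_nat E.unif, hP])
  have h2 := (Place.v_eval_le (V := V) (B - B0) (E.px_le P)).trans hB
  rw [eval_sub, h1, zero_sub, V.v.map_neg, k.B_eq, eval_mul, eval_C, map_mul, map_pow,
    V.v_coprime hp hm, one_pow, one_mul, eval_prod, map_prod] at h2
  simp only [eval_sub, eval_X, eval_C] at h2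
  have hsub : ({P0.1, -P0.1} : Finset (Pt E0.W)) ⊆ T0.erase 0 := by
    intro Q hQ
    rw [Finset.mem_insert, Finset.mem_singleton] at hQ
    rcases hQ with rfl | rfl
    · exact Finset.mem_erase.2 ⟨h0', (k.ker _).2 (by rw [mulPt_nat E0.unif, hP0])⟩
    · exact Finset.mem_erase.2 ⟨neg_ne_zero.2 h0',
        (k.ker _).2 (by rw [mulPt_nat E0.unif, smul_neg, hP0, neg_zero])⟩
  rw [← Finset.prod_subset hsub] at h2
  · have hd : V.v (px P.1 - px P0.1) ≤ 1 := Place.le_sub (E.px_le P) (E0.px_le P0)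
    have h3 : ∏ Q ∈ ({P0.1, -P0.1} : Finset (Pt E0.W)), V.v (px P.1 - px Q) =
        V.v (px P.1 - px P0.1) ^ ({P0.1, -P0.1} : Finset (Pt E0.W)).card := by
      refine Finset.prod_eq_pow_card fun Q hQ => ?_
      rw [Finset.mem_insert, Finset.mem_singleton] at hQ
      rcases hQ with rfl | rfl
      · rfl
      · rw [px_neg]
    rw [h3] at h2
    have h4 := (pow_le_pow_of_le_one zero_le hd Finset.card_le_two).trans h2
    exact (pow_le_pow_iff_left₀ zero_le zero_le two_ne_zero).1 h4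
  · intro Q hQ hQ'
    rw [Finset.mem_insert, Finset.mem_singleton, not_or] at hQ'
    obtain ⟨hQ0, hQT⟩ := Finset.mem_erase.1 hQ
    have hq : Q ∈ ptor p E0.W := ⟨m, hm, by rw [← mulPt_nat E0.unif]; exact (k.ker Q).1 hQT⟩
    let Q' : ptor p E0.W := ⟨Q, hq⟩
    have hx : V.v (px Q) ≤ 1 := E0.px_le Q'
    refine le_antisymm (Place.le_sub (E.px_le P) hx) (not_lt.1 fun hlt => ?_)
    have h5 := (Place.red_eq_iff (E.px_le P) hx).2 hlt
    rw [← E.px_red P, e] at h5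
    have h6 : px (E0.ρ Q').1 = px (E0.ρ P0).1 := by rw [h5]; exact E0.px_red Q'
    rcases (px_eq_iff (val_ne E0 (P := Q') hQ0) (val_ne E0 h0')).1 h6 with h7 | h7
    · exact hQ'.1 (congrArg Subtype.val (E0.ρ.injective (Subtype.ext h7)))
    · have h8 : E0.ρ Q' = E0.ρ (-P0) := by rw [map_neg]; exact Subtype.ext h7
      exact hQ'.2 (congrArg Subtype.val (E0.ρ.injective h8))

end DivP

theorem near (hV : S_Velu) (hD : S_Div) (hL : S_LH) : S_Near := by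
  intro p V Wb E E0 s hp hs hc P P0 e
  have hc' : V.Close s E.W E0.W := hc.mono (by
    rw [sq]; exact mul_le_of_le_one_left' hs.le)
  have hz : ∀ (Q : ptor p E.W) (Q0 : ptor p E0.W), E.ρ Q = E0.ρ Q0 → (Q.1 = 0 ↔ Q0.1 = 0) := by
    intro Q Q0 h
    rw [(E.rho Q).1, (E0.rho Q0).1, h]
  by_cases h0 : P.1 = 0
  · have h0' := (hz P P0 e).1 h0
    rw [h0, h0']
    refine ⟨by simp, ?_⟩
    simpa [pY] using hc'.2.2.1
  have h0' : P0.1 ≠ 0 := fun h => h0 ((hz P P0 e).2 h)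
  have hx := near_x hV hD E E0 hp hc e h0 h0'
  refine ⟨hx, ?_⟩
  have h2 := hz (P + P) (P0 + P0) (by rw [map_add, map_add, e])
  by_cases hPP : P.1 + P.1 = 0
  · rw [(two_tors h0).1 hPP, (two_tors h0').1 (h2.1 hPP)]
    simp
  have hY : V.v (pY P.1) = 1 := by
    have h3 := (hL p V E.W E.good).2.1 P.1 hPP
    have h4 : V.M (P.1 + P.1) = 1 := Place.M_eq_one.2 (E.px_le (P + P))
    rw [h4, Place.M_eq_one.2 (E.px_le P), mul_one, one_pow] at h3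
    exact (pow_eq_one_iff_of_nonneg zero_le two_ne_zero).1 h3
  have g := E.good
  have g' := E0.good
  have cx : Cl V.v s (px P.1) (px P0.1) := ⟨E.px_le P, E0.px_le P0, hx⟩
  have c1 : Cl V.v s E.W.a₁ E0.W.a₁ := ⟨g.1, g'.1, hc'.1⟩
  have c2 : Cl V.v s E.W.a₂ E0.W.a₂ := ⟨g.2.1, g'.2.1, hc'.2.1⟩
  have c3 : Cl V.v s E.W.a₃ E0.W.a₃ := ⟨g.2.2.1, g'.2.2.1, hc'.2.2.1⟩
  have c4 : Cl V.v s E.W.a₄ E0.W.a₄ := ⟨g.2.2.2.1, g'.2.2.2.1, hc'.2.2.2.1⟩
  have c6 : Cl V.v s E.W.a₆ E0.W.a₆ := ⟨g.2.2.2.2.1, g'.2.2.2.2.1, hc'.2.2.2.2⟩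
  have cy : Cl V.v s (py P0.1) (py P0.1) := Cl.rfl' (E0.py_le P0)
  have hy : V.v (py P.1 - py P0.1) < 1 := by
    rw [← Place.red_eq_iff (E.py_le P) (E0.py_le P0), ← E.py_red, ← E0.py_red, e]
  have hu : V.v (pY P.1 - (py P.1 - py P0.1)) = 1 := by
    rw [V.v.map_sub_eq_of_lt_left (by rw [hY]; exact hy), hY]
  have hcl := ((((((cx.pow 3).add (c2.mul (cx.pow 2))).add (c4.mul cx)).add c6).sub
    ((c1.mul cx).mul cy)).sub (c3.mul cy)).2.2
  have hid : (py P.1 - py P0.1) * (pY P.1 - (py P.1 - py P0.1)) =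
      (px P.1 ^ 3 + E.W.a₂ * px P.1 ^ 2 + E.W.a₄ * px P.1 + E.W.a₆ -
        E.W.a₁ * px P.1 * py P0.1 - E.W.a₃ * py P0.1) -
      (px P0.1 ^ 3 + E0.W.a₂ * px P0.1 ^ 2 + E0.W.a₄ * px P0.1 + E0.W.a₆ -
        E0.W.a₁ * px P0.1 * py P0.1 - E0.W.a₃ * py P0.1) := by
    have w1 := weq h0
    have w2 := weq h0'
    simp only [pY]
    linear_combination w1 - w2
  rw [← hid, map_mul, hu, mul_one] at hcl
  have cy' : Cl V.v s (py P.1) (py P0.1) := ⟨E.py_le P, E0.py_le P0, hcl⟩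
  exact (((Cl.two.mul cy').add (c1.mul cx)).add c3).2.2

end Pool.Agent.P.MP_94fe55_nt
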