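import Pool.Agent.P.MP_94fe55_nt.Val

set_option autoImplicit false

namespace Pool.Agent.P.MP_94fe55_nt

open Polynomial
open scoped NNReal

namespace FinalP

theorem log_le_sum (S : Finset ℕ) (hS : ∀ p ∈ S, p.Prime) {m : ℕ} (hm : m ≠ 0) :
    ∑ p ∈ S, (m.factorization p : ℝ) * Real.log p ≤ Real.log m := by
  have h1 : ∏ p ∈ S, p ^ m.factorization p ∣ m := by
    refine Finset.prod_dvd_of_isRelPrime ?_ fun p _ => Nat.ordProj_dvd m p
    intro p hp q hq hne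
    exact Nat.coprime_iff_isRelPrime.1
      (Nat.Coprime.pow _ _ ((Nat.coprime_primes (hS p hp) (hS q hq)).2 hne))
  have h2 := Nat.le_of_dvd (Nat.pos_of_ne_zero hm) h1
  have h3 : (0 : ℝ) < ∏ p ∈ S, (p : ℝ) ^ m.factorization p :=
    Finset.prod_pos fun p hp => pow_pos (by exact_mod_cast (hS p hp).pos) _
  have h4 : ∏ p ∈ S, (p : ℝ) ^ m.factorization p ≤ m := by exact_mod_cast h2
  refine le_trans (le_of_eq ?_) (Real.log_le_log h3 h4)
  rw [Real.log_prod fun p hp => (pow_pos (by exact_mod_cast (hS p hp).pos) _).ne']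
  simp only [Real.log_pow]

theorem v_prod {p : ℕ} (V : Place p) (S : Finset ℕ) (hS : ∀ q ∈ S, q.Prime) (hp : p ∈ S) :
    V.v (∏ q ∈ S, (q : ℂ)) = (p : ℝ≥0)⁻¹ := by
  rw [← Finset.mul_prod_erase S _ hp, map_mul, V.vp, map_prod, Finset.prod_eq_one, mul_one]
  intro q hq
  obtain ⟨h1, h2⟩ := Finset.mem_erase.1 hq
  exact V.v_nat_eq_one (hS p hp) fun e =>
    h1 ((Nat.prime_dvd_prime_iff_eq (hS p hp) (hS q h2)).1 e).symm

/-- the product formula as an inequality -/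
theorem product (hP : S_Place) (S : Finset ℕ) (hS : ∀ p ∈ S, p.Prime) {N : ℂ} {k : ℕ} {m : ℤ}
    (hm : m ≠ 0) (h : N * m = (∏ q ∈ S, (q : ℂ)) ^ k) {b : ℝ}
    (hb : ∀ p ∈ S, ∀ V : Place p, -Real.log (V.v N) ≤ b) : Real.log ‖N‖ ≤ S.card * b := by
  have m0 : m.natAbs ≠ 0 := Int.natAbs_ne_zero.2 hm
  have P0 : ∀ q ∈ S, (0 : ℝ) < q := fun q hq => by exact_mod_cast (hS q hq).pos
  have N0 : N ≠ 0 := by
    rintro rfl
    rw [zero_mul] at h
    refine pow_ne_zero k (Finset.prod_ne_zero_iff.2 fun q hq => ?_) h.symm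
    exact_mod_cast (hS q hq).ne_zero
  have h1 : Real.log ‖N‖ + Real.log m.natAbs = k * ∑ q ∈ S, Real.log q := by
    have := congrArg (fun z => Real.log ‖z‖) h
    simp only [norm_mul, norm_pow, norm_prod, Complex.norm_natCast, Complex.norm_intCast] at this
    rw [Real.log_mul (norm_ne_zero_iff.2 N0) (by simpa using hm), Real.log_pow,
      Real.log_prod fun q hq => (P0 q hq).ne'] at this
    rw [← this, Nat.cast_natAbs, Int.cast_abs]
  have h2 : ∀ p ∈ S, k * Real.log p - (m.natAbs.factorization p : ℝ) * Real.log p ≤ b := by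
    intro p hp
    obtain ⟨V⟩ := hP p (hS p hp)
    refine le_trans (le_of_eq ?_) (hb p hp V)
    have e := congrArg V.v h
    have e2 : V.v (m : ℂ) = V.v (m.natAbs : ℂ) := by
      rcases Int.natAbs_eq m with e3 | e3
      · conv_lhs => rw [e3]
        simp
      · conv_lhs => rw [e3]
        simp
    rw [map_mul, map_pow, v_prod V S hS hp, e2, V.v_nat (hS p hp) m0] at e
    have e4 := congrArg (fun z : ℝ≥0 => Real.log z) e
    simp only [NNReal.coe_mul, NNReal.coe_inv, NNReal.coe_pow, NNReal.coe_natCast] at e4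
    rw [Real.log_mul (by simpa using N0) (inv_ne_zero (pow_pos (P0 p hp) _).ne'), Real.log_inv,
      Real.log_pow, Real.log_pow, Real.log_inv] at e4
    linarith
  have h3 := Finset.sum_le_sum h2
  rw [Finset.sum_sub_distrib, ← Finset.mul_sum, Finset.sum_const, nsmul_eq_mul] at h3
  have h4 := log_le_sum S hS m0
  linarith

theorem bounded (hF : S_Fin) (hSt : S_Stab) (hT : S_Trans) (hA : S_Aut) (hP : S_Place)
    (hAr : S_Arch) (hPa : S_Padic) (s : ℕ) :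
    ∃ D0 : ℕ, ∀ D : ℕ, Disc D → ∀ x ∈ VV D, ∀ S : Finset ℕ, S.card = s → (∀ p ∈ S, p.Prime) →
      x ≠ 0 → ∀ n : ℕ, IsIntegral ℤ ((∏ p ∈ S, (p : ℂ)) ^ n * x⁻¹) → D < D0 := by
  classical
  obtain ⟨c, D1, hc, h1⟩ := hAr
  obtain ⟨D2, h2⟩ := hPa (c / (s + 1)) (by positivity)
  refine ⟨max D1 D2, fun D hD x hx S hs hS x0 n hint => ?_⟩
  by_contra hlt
  have hle := not_lt.1 hlt
  have hfin : {y | y ∈ VV D ∧ y ≠ 0}.Finite :=
    (hF D hD).subset fun y hy => VV_subset D hy.1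
  set T := hfin.toFinset with hTdef
  have hT' : ∀ y, y ∈ T ↔ y ∈ VV D ∧ y ≠ 0 := fun y => hfin.mem_toFinset
  set P : ℂ := ∏ p ∈ S, (p : ℂ) with hPdef
  have hint' : ∀ y ∈ T, IsIntegral ℤ (P ^ n * y⁻¹) := by
    intro y hy
    obtain ⟨σ, rfl⟩ := hT D x y hD hx ((hT' y).1 hy).1
    have := hint.map σ.toRingHom.toIntAlgHom
    simpa [hPdef] using this
  set N : ℂ := ∏ y ∈ T, y with hN
  have hfix : ∀ σ : ℂ ≃+* ℂ, σ N = N := by
    intro σ
    rw [hN, map_prod]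
    have him : T.image σ = T := by
      apply Finset.eq_of_subset_of_card_le
      · intro z hz
        obtain ⟨y, hy, rfl⟩ := Finset.mem_image.1 hz
        obtain ⟨k1, k2⟩ := (hT' y).1 hy
        exact (hT' _).2 ⟨(hSt D σ y hD).1 k1, by simpa using k2⟩
      · rw [Finset.card_image_of_injective _ σ.injective]
    conv_rhs => rw [← him]
    rw [Finset.prod_image σ.injective.injOn]
  obtain ⟨q, hq⟩ := hA.2.2 N hfix
  have N0 : N ≠ 0 := Finset.prod_ne_zero_iff.2 fun y hy => ((hT' y).1 hy).2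
  have hI : IsIntegral ℤ (P ^ (n * T.card) * N⁻¹) := by
    have := IsIntegral.prod _ hint'
    rwa [Finset.prod_mul_distrib, Finset.prod_const, Finset.prod_inv_distrib, ← pow_mul] at this
  have hrat : P ^ (n * T.card) * N⁻¹ =
      algebraMap ℚ ℂ ((∏ p ∈ S, (p : ℚ)) ^ (n * T.card) * q⁻¹) := by
    rw [hq, hPdef]; simp
  rw [hrat, isIntegral_algebraMap_iff (algebraMap ℚ ℂ).injective,
    IsIntegrallyClosed.isIntegral_iff] at hI
  obtain ⟨m, hm⟩ := hI
  have hm' : N * m = P ^ (n * T.card) := by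
    have : (m : ℂ) = P ^ (n * T.card) * N⁻¹ := by
      rw [hrat, ← hm]; simp
    rw [this]; field_simp
  have m0 : m ≠ 0 := by
    rintro rfl
    rw [Int.cast_zero, mul_zero] at hm'
    refine pow_ne_zero _ (Finset.prod_ne_zero_iff.2 fun q hq => ?_) hm'.symm
    exact_mod_cast (hS q hq).ne_zero
  have h3 := product hP S hS m0 hm' (b := c / (s + 1) * (Real.sqrt D + T.card * Real.log D))
    (fun p hp V => by
      have := h2 D ((le_max_right _ _).trans hle) hD p V (hS p hp) T fun y hy => (hT' y).1 hy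
      rw [hN, map_prod, NNReal.coe_prod, Real.log_prod fun y hy => by
        simpa using ((hT' y).1 hy).2, ← Finset.sum_neg_distrib]
      exact this)
  have h4 := h1 D ((le_max_left _ _).trans hle) hD T hT'
  rw [hN, norm_prod, Real.log_prod fun y hy => by simpa using ((hT' y).1 hy).2, hs] at h3
  have h5 : 0 < Real.sqrt D + T.card * Real.log D := by
    have k1 : (1 : ℝ) ≤ D := by exact_mod_cast hD.1
    have k2 := Real.log_nonneg k1
    have k3 : 0 < Real.sqrt D := Real.sqrt_pos.2 (by linarith)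
    positivity
  have h6 : (s : ℝ) * (c / (s + 1)) < c := by
    rw [mul_div_assoc', div_lt_iff₀ (by positivity)]; nlinarith
  nlinarith

end FinalP

theorem final (hCM : S_CM) (hF : S_Fin) (hSt : S_Stab) (hT : S_Trans) (hA : S_Aut)
    (hP : S_Place) (hAr : S_Arch) (hPa : S_Padic) :
    ∀ s : ℕ, Set.Finite {x : ℂ |
      (∃ τ : ℂ, 0 < τ.im ∧
        (∃ a b c : ℤ, a ≠ 0 ∧ (a : ℂ) * τ ^ 2 + (b : ℂ) * τ + (c : ℂ) = 0) ∧
        ∃ g₂ g₃ : ℂ,
          g₂ = 60 * ∑' p : ℤ × ℤ, (((p.1 : ℂ) * τ + (p.2 : ℂ))⁻¹) ^ 4 ∧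
          g₃ = 140 * ∑' p : ℤ × ℤ, (((p.1 : ℂ) * τ + (p.2 : ℂ))⁻¹) ^ 6 ∧
          x = 1728 * g₂ ^ 3 / (g₂ ^ 3 - 27 * g₃ ^ 2)) ∧
      ∃ S : Finset ℕ, S.card = s ∧ (∀ p ∈ S, Nat.Prime p) ∧ x ≠ 0 ∧
        ∃ n : ℕ, IsIntegral ℤ ((∏ p ∈ S, (p : ℂ)) ^ n * x⁻¹)} := by
  intro s
  obtain ⟨D0, h⟩ := FinalP.bounded hF hSt hT hA hP hAr hPa s
  have hfin : (⋃ D ∈ {D | D < D0 ∧ Disc D}, VV' D).Finite :=
    ((Set.finite_lt_nat D0).subset fun D hD => hD.1).biUnion fun D hD => hF D hD.2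
  refine hfin.subset ?_
  rintro x ⟨⟨τ, hτ, ⟨a, b, c, ha, e⟩, g₂, g₃, rfl, rfl, rfl⟩, S, hs, hS, x0, n, hn⟩
  obtain ⟨D, hD, hx⟩ := hCM τ a b c hτ ha e
  simp only [Set.mem_iUnion]
  exact ⟨D, ⟨h D hD _ hx S hs hS x0 n hn, hD⟩, VV_subset D hx⟩

end Pool.Agent.P.MP_94fe55_nt
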