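import Pool.Agent.P.MP_94fe55_nt.Lat

set_option autoImplicit false

namespace Pool.Agent.P.MP_94fe55_nt

namespace FormsP

theorem th_im_pos {D : ℕ} (h : Disc D) : 0 < (th D).im := by
  rw [th_im]
  have : (0 : ℝ) < D := by exact_mod_cast h.1
  positivity

theorem z_im (D : ℕ) (β : ℤ) : ((β : ℂ) + th D).im = (th D).im := by simp

theorem z_re (D : ℕ) (β : ℤ) :
    2 * ((β : ℂ) + th D).re = ((2 * β + ((D % 2 : ℕ) : ℤ) : ℤ) : ℝ) := by
  rw [Complex.add_re, th_re, Complex.intCast_re]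
  simp only [Int.cast_add, Int.cast_mul, Int.cast_natCast, Int.cast_ofNat]
  ring

theorem coord {z : ℂ} (hz : z.im ≠ 0) {m n m' n' : ℤ}
    (e : (m : ℂ) + n * z = m' + n' * z) : m = m' ∧ n = n' := by
  have h1 := congrArg Complex.im e
  simp only [Complex.add_im, Complex.intCast_im, Complex.mul_im, Complex.intCast_re, zero_mul,
    add_zero, zero_add] at h1
  have h2 : n = n' := by exact_mod_cast mul_right_cancel₀ hz h1
  subst h2
  exact ⟨by exact_mod_cast add_right_cancel e, rfl⟩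

theorem change {L : PeriodPair} {a b : ℂ} (h : IsLat L a b) {p q r s : ℤ}
    (hd : p * s - q * r = 1) : IsLat L (p * a + q * b) (r * a + s * b) := by
  have hd' : (p : ℂ) * s - q * r = 1 := by exact_mod_cast hd
  intro z
  rw [h]
  constructor
  · rintro ⟨m, n, rfl⟩
    refine ⟨m * s - n * r, n * p - m * q, ?_⟩
    push_cast
    linear_combination (-(m : ℂ) * a - n * b) * hd'
  · rintro ⟨m, n, rfl⟩
    refine ⟨m * p + n * r, m * q + n * s, ?_⟩
    push_cast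
    ring

theorem mul_tau {D : ℕ} {a : ℤ} (ha : a ≠ 0) (β : ℤ) : (a : ℂ) * tau D a β = β + th D := by
  have : (a : ℂ) ≠ 0 := by exact_mod_cast ha
  simp only [tau]
  field_simp

theorem tau_im {D : ℕ} {a : ℤ} (ha : a ≠ 0) (β : ℤ) :
    (a : ℝ) * (tau D a β).im = (th D).im := by
  have := congrArg Complex.im (mul_tau (D := D) ha β)
  simpa using this

theorem tau_im_pos {D : ℕ} (h : Disc D) {a : ℤ} (ha : 0 < a) (β : ℤ) : 0 < (tau D a β).im := by
  have h1 := tau_im (D := D) ha.ne' β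
  have h2 := th_im_pos h
  have h3 : (0 : ℝ) < a := by exact_mod_cast ha
  by_contra h4
  have := mul_nonpos_of_nonneg_of_nonpos h3.le (not_lt.1 h4)
  linarith

/-- the lattices spanned by `a, β + θ` and by `τ, 1` are homothetic -/
theorem iso_tau {D : ℕ} {a β : ℤ} (ha : a ≠ 0) {L L0 : PeriodPair} (h0 : IsLat L0 (tau D a β) 1)
    (h : IsLat L a (β + th D)) : Iso L0 L a := by
  refine h0.iso (by exact_mod_cast ha) ?_
  rw [mul_tau ha, mul_one]
  exact h.swap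

theorem exists_form_lat {D : ℕ} (h : Disc D) {a : ℤ} (ha : a ≠ 0) (β : ℤ) :
    ∃ L, IsLat L a (β + th D) := by
  apply exists_lat
  have h1 := (th_im_pos h).ne'
  have h2 : (a : ℝ) ≠ 0 := by exact_mod_cast ha
  simp [h1, ha]

theorem form_hom {D : ℕ} {a β : ℤ} (h : Disc D) (hf : Form D a β) {L : PeriodPair}
    (hL : IsLat L a (β + th D)) : Hom L L (th D) := by
  obtain ⟨c, hc⟩ := hf.2
  have hz := add_th_sq h β
  rw [hc] at hz
  rw [hL.hom_iff, hL, hL]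
  refine ⟨⟨-β, a, ?_⟩, ⟨-c, β + ((D % 2 : ℕ) : ℤ), ?_⟩⟩
  · push_cast; ring
  · simp only [Int.cast_add, Int.cast_mul, Int.cast_natCast, Int.cast_ofNat, Int.cast_neg] at hz ⊢
    linear_combination hz

theorem form_j {D : ℕ} {a β : ℤ} (h : Disc D) (hf : Form D a β) {L : PeriodPair}
    (hL : IsLat L a (β + th D)) : jL L = J (tau D a β) := by
  have h1 := (tau_im_pos h hf.1 β).ne'
  obtain ⟨L0, h0⟩ := exists_lat_tau h1
  rw [← (iso_tau hf.1.ne' h0 hL).jL, jL_eq_J h1 h0]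

theorem dvd_of_prim {a b c n : ℤ} (hp : ∀ d : ℤ, d ∣ a → d ∣ b → d ∣ c → d ∣ 1)
    (h1 : a ∣ n * b) (h2 : a ∣ n * c) : a ∣ n := by
  have h3 : a ∣ n * (Int.gcd b c : ℤ) := by
    rw [Int.gcd_eq_gcd_ab, mul_add, ← mul_assoc, ← mul_assoc]
    exact dvd_add (h1.mul_right _) (h2.mul_right _)
  have h4 : IsCoprime a (Int.gcd b c : ℤ) := by
    rw [Int.isCoprime_iff_gcd_eq_one]
    have := hp (Int.gcd a (Int.gcd b c : ℤ) : ℤ) (Int.gcd_dvd_left ..)
      ((Int.gcd_dvd_right ..).trans (Int.gcd_dvd_left ..))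
      ((Int.gcd_dvd_right ..).trans (Int.gcd_dvd_right ..))
    exact Nat.dvd_one.1 (by exact_mod_cast this)
  exact h4.dvd_of_dvd_mul_right h3

theorem prim_cm {D : ℕ} {a β : ℤ} (h : Disc D) (hp : Prim D a β) {L : PeriodPair}
    (hL : IsLat L a (β + th D)) : IsCM D L := by
  intro w
  constructor
  · intro hw
    rw [hL.hom_iff, hL, hL] at hw
    obtain ⟨⟨m, n, e1⟩, ⟨m', n', e2⟩⟩ := hw
    obtain ⟨c, hc⟩ := hp.1.2
    have ha : a ≠ 0 := hp.1.1.ne'
    have ha' : (a : ℂ) ≠ 0 := by exact_mod_cast ha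
    have hca : gg D β / a = c := by rw [hc, Int.mul_ediv_cancel_left _ ha]
    have hz := add_th_sq h β
    rw [hc] at hz
    have him : ((β : ℂ) + th D).im ≠ 0 := by rw [z_im]; exact (th_im_pos h).ne'
    have hp2 := hp.2
    rw [hca] at hp2
    generalize 2 * β + ((D % 2 : ℕ) : ℤ) = b at hz hp2
    have key : ((-(n * (a * c)) : ℤ) : ℂ) + ((m * a + n * b : ℤ) : ℂ) * (β + th D) =
        ((m' * a * a : ℤ) : ℂ) + ((n' * a : ℤ) : ℂ) * (β + th D) := by
      push_cast at hz ⊢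
      linear_combination (-((β : ℂ) + th D)) * e1 + (a : ℂ) * e2 - (n : ℂ) * hz
    obtain ⟨k1, k2⟩ := coord him key
    have d1 : a ∣ n * b := ⟨n' - m, by linear_combination k2⟩
    have d2 : a ∣ n * c := ⟨-m', mul_left_cancel₀ ha (by linear_combination -k1)⟩
    obtain ⟨k, hk⟩ := dvd_of_prim hp2 d1 d2
    refine ⟨m + k * β, k, mul_right_cancel₀ ha' ?_⟩
    rw [e1, hk]
    push_cast
    ring
  · rintro ⟨u, v, rfl⟩
    exact (Hom.int L u).add ((Hom.int L v).comp (form_hom h hp.1 hL))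

theorem form_of_hom {D : ℕ} (h : Disc D) {τ : ℂ} (hτ : 0 < τ.im) {L : PeriodPair}
    (hL : IsLat L τ 1) (hH : Hom L L (th D)) : ∃ a β : ℤ, Form D a β ∧ τ = tau D a β := by
  rw [hL.hom_iff, hL, hL] at hH
  obtain ⟨⟨m, n, e1⟩, ⟨a, n', e2⟩⟩ := hH
  have hz := add_th_sq h (-n')
  have ha : 0 < a := by
    have h1 := congrArg Complex.im e2
    simp only [mul_one, Complex.add_im, Complex.intCast_im, Complex.mul_im, Complex.intCast_re,
      zero_mul, add_zero] at h1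
    have h2 := th_im_pos h
    rw [h1] at h2
    exact_mod_cast (pos_iff_pos_of_mul_pos h2).2 hτ
  have ha' : (a : ℂ) ≠ 0 := by exact_mod_cast ha.ne'
  refine ⟨a, -n', ⟨ha, ?_⟩, ?_⟩
  · generalize 2 * -n' + ((D % 2 : ℕ) : ℤ) = b at hz
    generalize gg D (-n') = g at hz ⊢
    have key : ((g : ℤ) : ℂ) + ((a * (m - n') : ℤ) : ℂ) * τ =
        ((a * -n : ℤ) : ℂ) + ((b * a : ℤ) : ℂ) * τ := by
      push_cast at hz ⊢
      linear_combination hz - (a : ℂ) * e1 + ((b : ℂ) - th D + n') * e2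
    exact ⟨-n, (coord hτ.ne' key).1⟩
  · simp only [tau]
    rw [eq_div_iff ha']
    push_cast
    linear_combination -e2

theorem prim_of_cm {D : ℕ} {a β : ℤ} (h : Disc D) (hf : Form D a β) {L : PeriodPair}
    (hL : IsLat L (tau D a β) 1) (hc : IsCM D L) : Prim D a β := by
  refine ⟨hf, ?_⟩
  obtain ⟨c, hc'⟩ := hf.2
  have ha : a ≠ 0 := hf.1.ne'
  have ha' : (a : ℂ) ≠ 0 := by exact_mod_cast ha
  have hca : gg D β / a = c := by rw [hc', Int.mul_ediv_cancel_left _ ha]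
  have hz := add_th_sq h β
  rw [hc', ← mul_tau ha] at hz
  rw [hca]
  generalize 2 * β + ((D % 2 : ℕ) : ℤ) = b at hz ⊢
  rintro d ⟨a', ea⟩ ⟨b', eb⟩ ⟨c', ec⟩
  have hd : (d : ℂ) ≠ 0 := by
    have : d ≠ 0 := by
      rintro rfl
      exact ha (by rw [ea, zero_mul])
    exact_mod_cast this
  have ea' : (a : ℂ) = d * a' := by exact_mod_cast ea
  have eb' : (b : ℂ) = d * b' := by exact_mod_cast eb
  have ec' : (c : ℂ) = d * c' := by exact_mod_cast ec
  have hH : Hom L L (a' * tau D a β) := by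
    rw [hL.hom_iff, hL, hL]
    refine ⟨⟨b', -c', ?_⟩, ⟨a', 0, by simp⟩⟩
    apply mul_left_cancel₀ (mul_ne_zero ha' hd)
    push_cast at hz ⊢
    linear_combination hz - (a : ℂ) * tau D a β ^ 2 * ea' + (a : ℂ) * tau D a β * eb' -
      (a : ℂ) * ec'
  obtain ⟨u, v, e⟩ := (hc _).1 hH
  have key : ((0 : ℤ) : ℂ) + (a' : ℂ) * tau D a β =
      ((u - v * β : ℤ) : ℂ) + ((v * a : ℤ) : ℂ) * tau D a β := by
    push_cast
    linear_combination e - (v : ℂ) * mul_tau (D := D) ha β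
  have k := (coord (tau_im_pos h hf.1 β).ne' key).2
  have ha0 : a' ≠ 0 := by
    rintro rfl
    exact ha (by rw [ea, mul_zero])
  exact ⟨v, mul_right_cancel₀ ha0 (by rw [ea] at k; linear_combination k)⟩

/-- every lattice is homothetic to one spanned by `τ, 1` with `τ` in the fundamental domain -/
theorem exists_red (L : PeriodPair) :
    ∃ (τ c : ℂ) (L0 : PeriodPair), 0 < τ.im ∧ |τ.re| ≤ 1 / 2 ∧ 1 ≤ Complex.normSq τ ∧
      IsLat L0 τ 1 ∧ Iso L L0 c := by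
  obtain ⟨τ, c, L0, hτ, hL, hi⟩ := exists_tau L
  obtain ⟨g, hg⟩ := ModularGroup.exists_smul_mem_fd ⟨τ, hτ⟩
  have hdet : g 0 0 * g 1 1 - g 0 1 * g 1 0 = 1 := by
    have := g.det_coe
    rwa [Matrix.det_fin_two] at this
  have h1 := change hL hdet
  have hw : ((g 1 0 : ℤ) : ℂ) * τ + (g 1 1 : ℤ) * 1 ≠ 0 := by
    intro e
    have key : ((g 1 1 : ℤ) : ℂ) + (g 1 0 : ℤ) * τ = ((0 : ℤ) : ℂ) + ((0 : ℤ) : ℂ) * τ := by
      push_cast
      linear_combination e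
    obtain ⟨k1, k2⟩ := coord hτ.ne' key
    rw [k1, k2] at hdet
    simp at hdet
  obtain ⟨L1, hL1⟩ := exists_iso L0 (inv_ne_zero hw)
  have h2 := h1.of_iso hL1
  rw [inv_mul_cancel₀ hw] at h2
  have h3 : ((g • (⟨τ, hτ⟩ : UpperHalfPlane) : UpperHalfPlane) : ℂ) =
      (((g 1 0 : ℤ) : ℂ) * τ + (g 1 1 : ℤ) * 1)⁻¹ * ((g 0 0 : ℤ) * τ + (g 0 1 : ℤ) * 1) := by
    rw [UpperHalfPlane.coe_specialLinearGroup_apply, div_eq_inv_mul]
    simp
  rw [← h3] at h2
  exact ⟨_, _, L1, (g • (⟨τ, hτ⟩ : UpperHalfPlane)).im_pos, hg.2, hg.1, h2, hi.trans hL1⟩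

theorem normSq_z {D : ℕ} (h : Disc D) (β : ℤ) :
    Complex.normSq ((β : ℂ) + th D) = (gg D β : ℤ) := by
  have h1 := z_re D β
  have h2 : (4 : ℝ) * (gg D β : ℤ) = ((2 * β + ((D % 2 : ℕ) : ℤ) : ℤ) : ℝ) ^ 2 + D := by
    exact_mod_cast four_gg h β
  have h3 : Real.sqrt D * Real.sqrt D = D := Real.mul_self_sqrt (Nat.cast_nonneg D)
  rw [Complex.normSq_apply, z_im, th_im]
  rw [← h1] at h2
  linear_combination (1 / 4) * h3 - (1 / 4) * h2

theorem reduced {D : ℕ} {a β : ℤ} (h : Disc D) (ha : 0 < a) (h1 : |(tau D a β).re| ≤ 1 / 2)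
    (h2 : 1 ≤ Complex.normSq (tau D a β)) : Reduced D a β := by
  have ha' : (0 : ℝ) < a := by exact_mod_cast ha
  have e := mul_tau (D := D) ha.ne' β
  constructor
  · have e1 := z_re D β
    rw [← e] at e1
    simp only [Complex.mul_re, Complex.intCast_re, Complex.intCast_im, zero_mul, sub_zero] at e1
    have : |((2 * β + ((D % 2 : ℕ) : ℤ) : ℤ) : ℝ)| ≤ a := by
      rw [← e1, abs_le]
      rw [abs_le] at h1
      constructor <;> nlinarith [h1.1, h1.2]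
    exact_mod_cast this
  · have e1 := normSq_z h β
    rw [← e, map_mul, Complex.normSq_intCast] at e1
    have : (a : ℝ) ^ 2 ≤ (gg D β : ℤ) := by
      rw [← e1]
      nlinarith [mul_pos ha' ha']
    exact_mod_cast this

theorem prim' {D : ℕ} {a β : ℤ} (h : Disc D) (hp : Prim D a β) : J (tau D a β) ∈ VV D := by
  obtain ⟨L, hL⟩ := exists_form_lat h hp.1.1.ne' β
  exact ⟨L, prim_cm h hp hL, (form_j h hp.1 hL).symm⟩

theorem cm_pos {τ : ℂ} {a b c : ℤ} (hτ : 0 < τ.im) (ha : 0 < a)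
    (hp : ∀ d : ℤ, d ∣ a → d ∣ b → d ∣ c → d ∣ 1)
    (e : (a : ℂ) * τ ^ 2 + (b : ℂ) * τ + (c : ℂ) = 0) : ∃ D, Disc D ∧ J τ ∈ VV D := by
  have ha' : (0 : ℝ) < a := by exact_mod_cast ha
  have e1 := congrArg Complex.re e
  have e2 := congrArg Complex.im e
  simp only [pow_two, Complex.add_re, Complex.mul_re, Complex.intCast_re, Complex.intCast_im,
    zero_mul, sub_zero, Complex.zero_re, Complex.add_im, Complex.mul_im, add_zero,
    Complex.zero_im] at e1 e2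
  have hb : (b : ℝ) = -(2 * a * τ.re) := mul_right_cancel₀ hτ.ne' (by linear_combination e2)
  have hD : ((4 * a * c - b ^ 2 : ℤ) : ℝ) = (2 * a * τ.im) ^ 2 := by
    push_cast
    linear_combination (4 * (a : ℝ)) * e1 - ((b : ℝ) + 2 * a * τ.re) * hb
  have hpos : 0 < 4 * a * c - b ^ 2 := by
    have : (0 : ℝ) < ((4 * a * c - b ^ 2 : ℤ) : ℝ) := by rw [hD]; positivity
    exact_mod_cast this
  obtain ⟨D, hD'⟩ : ∃ D : ℕ, (D : ℤ) = 4 * a * c - b ^ 2 := ⟨_, Int.toNat_of_nonneg hpos.le⟩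
  have hx : ∃ β : ℤ, Disc D ∧ 2 * β + ((D % 2 : ℕ) : ℤ) = -b := by
    obtain ⟨k, hk | hk⟩ := Int.even_or_odd' b
    · have h4 : (D : ℤ) = 4 * (a * c - k ^ 2) := by rw [hD', hk]; ring
      generalize a * c - k ^ 2 = t at h4
      exact ⟨-k, ⟨by omega, by omega⟩, by omega⟩
    · have h4 : (D : ℤ) = 4 * (a * c - k ^ 2 - k - 1) + 3 := by rw [hD', hk]; ring
      generalize a * c - k ^ 2 - k - 1 = t at h4
      exact ⟨-k - 1, ⟨by omega, by omega⟩, by omega⟩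
  obtain ⟨β, h, hβ⟩ := hx
  have hg : gg D β = a * c := by
    have := four_gg h β
    rw [hβ, hD'] at this
    linarith
  have hprim : Prim D a β := by
    refine ⟨⟨ha, c, hg⟩, fun d d1 d2 d3 => hp d d1 ?_ ?_⟩
    · rw [hβ] at d2
      exact (dvd_neg).1 d2
    · rwa [hg, Int.mul_ediv_cancel_left _ ha.ne'] at d3
  have ht : τ = tau D a β := by
    have ha2 : (a : ℂ) ≠ 0 := by exact_mod_cast ha.ne'
    apply mul_left_cancel₀ ha2
    rw [mul_tau ha.ne']
    apply Complex.ext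
    · have := z_re D β
      rw [hβ] at this
      simp only [Complex.mul_re, Complex.intCast_re, Complex.intCast_im, zero_mul, sub_zero]
      push_cast at this
      linear_combination (1 / 2) * hb - (1 / 2) * this
    · rw [z_im, th_im]
      have h5 : (D : ℝ) = (2 * a * τ.im) ^ 2 := by rw [← hD, ← hD']; simp
      rw [h5, Real.sqrt_sq (by positivity)]
      simp only [Complex.mul_im, Complex.intCast_re, Complex.intCast_im, zero_mul, add_zero]
      ring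
  exact ⟨D, h, ht ▸ prim' h hprim⟩

theorem dvd_prod_iff {T : Finset ℕ} (hT : ∀ q ∈ T, q.Prime) {l : ℕ} (hl : l.Prime) :
    (l : ℤ) ∣ ∏ q ∈ T, (q : ℤ) ↔ l ∈ T := by
  rw [(Nat.prime_iff_prime_int.1 hl).dvd_finsetProd_iff]
  constructor
  · rintro ⟨q, hq, e⟩
    rwa [(Nat.prime_dvd_prime_iff_eq hl (hT q hq)).1 (Int.natCast_dvd_natCast.1 e)]
  · exact fun hq => ⟨l, hq, dvd_rfl⟩

theorem cop_of {x y : ℤ} (h : ∀ l : ℕ, l.Prime → (l : ℤ) ∣ x → ¬ (l : ℤ) ∣ y) : IsCoprime x y := by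
  rw [Int.isCoprime_iff_gcd_eq_one]
  exact Nat.coprime_of_dvd fun k hk h1 h2 =>
    h k hk (Int.natCast_dvd.2 h1) (Int.natCast_dvd.2 h2)

/-- a primitive form takes, at coprime arguments, a value prime to a given integer -/
theorem exists_value {a b c N : ℤ} (hp : ∀ d : ℤ, d ∣ a → d ∣ b → d ∣ c → d ∣ 1) (hN : N ≠ 0) :
    ∃ x y : ℤ, IsCoprime x y ∧ IsCoprime (a * x ^ 2 + b * x * y + c * y ^ 2) N := by
  classical
  have hx : ∀ l : ℕ, l.Prime → ((l : ℤ) ∣ ∏ q ∈ N.natAbs.primeFactors.filter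
      (fun q : ℕ => (q : ℤ) ∣ a ∧ ¬ (q : ℤ) ∣ c), (q : ℤ) ↔
        (l : ℤ) ∣ N ∧ (l : ℤ) ∣ a ∧ ¬ (l : ℤ) ∣ c) := fun l hl => by
    rw [dvd_prod_iff (fun q hq => Nat.prime_of_mem_primeFactors (Finset.mem_filter.1 hq).1) hl,
      Finset.mem_filter, Nat.mem_primeFactors, Int.natCast_dvd (n := N)]
    simp [hl, hN]
  have hy : ∀ l : ℕ, l.Prime → ((l : ℤ) ∣ ∏ q ∈ N.natAbs.primeFactors.filter
      (fun q : ℕ => ¬ (q : ℤ) ∣ a), (q : ℤ) ↔ (l : ℤ) ∣ N ∧ ¬ (l : ℤ) ∣ a) := fun l hl => by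
    rw [dvd_prod_iff (fun q hq => Nat.prime_of_mem_primeFactors (Finset.mem_filter.1 hq).1) hl,
      Finset.mem_filter, Nat.mem_primeFactors, Int.natCast_dvd (n := N)]
    simp [hl, hN]
  generalize ∏ q ∈ N.natAbs.primeFactors.filter
      (fun q : ℕ => (q : ℤ) ∣ a ∧ ¬ (q : ℤ) ∣ c), (q : ℤ) = x at hx
  generalize ∏ q ∈ N.natAbs.primeFactors.filter (fun q : ℕ => ¬ (q : ℤ) ∣ a), (q : ℤ) = y at hy
  refine ⟨x, y, cop_of fun l hl h1 h2 => ((hy l hl).1 h2).2 ((hx l hl).1 h1).2.1,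
    cop_of fun l hl h1 h2 => ?_⟩
  have hl' := Nat.prime_iff_prime_int.1 hl
  by_cases ha : (l : ℤ) ∣ a
  · have hy' : ¬ (l : ℤ) ∣ y := fun e => ((hy l hl).1 e).2 ha
    by_cases hc : (l : ℤ) ∣ c
    · have hx' : ¬ (l : ℤ) ∣ x := fun e => ((hx l hl).1 e).2.2 hc
      have h3 : (l : ℤ) ∣ b * x * y := by
        have e : b * x * y = a * x ^ 2 + b * x * y + c * y ^ 2 - a * x ^ 2 - c * y ^ 2 := by ring
        rw [e]
        exact dvd_sub (dvd_sub h1 (ha.mul_right _)) (hc.mul_right _)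
      rcases hl'.dvd_or_dvd h3 with h4 | h4
      · rcases hl'.dvd_or_dvd h4 with h5 | h5
        · exact hl'.not_dvd_one (hp _ ha h5 hc)
        · exact hx' h5
      · exact hy' h4
    · have hx' : (l : ℤ) ∣ x := (hx l hl).2 ⟨h2, ha, hc⟩
      have h3 : (l : ℤ) ∣ c * y ^ 2 := by
        have e : c * y ^ 2 = a * x ^ 2 + b * x * y + c * y ^ 2 - x * (a * x + b * y) := by ring
        rw [e]
        exact dvd_sub h1 (hx'.mul_right _)
      rcases hl'.dvd_or_dvd h3 with h4 | h4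
      · exact hc h4
      · exact hy' (hl'.dvd_of_dvd_pow h4)
  · have hy' : (l : ℤ) ∣ y := (hy l hl).2 ⟨h2, ha⟩
    have hx' : ¬ (l : ℤ) ∣ x := fun e => ha ((hx l hl).1 e).2.1
    have h3 : (l : ℤ) ∣ a * x ^ 2 := by
      have e : a * x ^ 2 = a * x ^ 2 + b * x * y + c * y ^ 2 - y * (b * x + c * y) := by ring
      rw [e]
      exact dvd_sub h1 (hy'.mul_right _)
    rcases hl'.dvd_or_dvd h3 with h4 | h4
    · exact ha h4
    · exact hx' (hl'.dvd_of_dvd_pow h4)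

theorem short {τ z : ℂ} {L : PeriodPair} (hτ : 1 < τ.im) (hL : IsLat L τ 1) (hz : z ∈ L.lattice)
    (h0 : z ≠ 0) : 1 ≤ ‖z‖ ∧ (‖z‖ ≤ 1 → z = 1 ∨ z = -1) := by
  obtain ⟨r, s, rfl⟩ := (hL z).1 hz
  by_cases hr : r = 0
  · subst hr
    simp only [Int.cast_zero, zero_mul, mul_one, zero_add, Complex.norm_intCast] at h0 ⊢
    have hs : s ≠ 0 := by exact_mod_cast h0
    have h1 : 1 ≤ |s| := Int.one_le_abs hs
    refine ⟨by exact_mod_cast h1, fun h2 => ?_⟩
    have h3 : |s| ≤ 1 := by exact_mod_cast h2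
    rw [abs_le] at h3
    have : s = 1 ∨ s = -1 := by omega
    exact_mod_cast this
  · have h1 : (1 : ℝ) ≤ |(r : ℝ)| := by exact_mod_cast Int.one_le_abs hr
    have h2 := Complex.abs_im_le_norm ((r : ℂ) * τ + s * 1)
    simp only [mul_one, Complex.add_im, Complex.intCast_im, Complex.mul_im, Complex.intCast_re,
      zero_mul, add_zero, abs_mul] at h2 ⊢
    rw [abs_of_pos (by linarith : 0 < τ.im)] at h2
    have h3 : 1 < ‖(r : ℂ) * τ + s‖ := by nlinarith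
    exact ⟨h3.le, fun h4 => absurd h3 (not_lt.2 h4)⟩

end FormsP

open FormsP

theorem prim : S_Prim := fun _ _ _ h =>
  ⟨fun hf _ hL => ⟨form_hom h hf hL, form_j h hf hL⟩,
    fun hp => ⟨fun _ hL => prim_cm h hp hL, prim' h hp⟩⟩

theorem cm : S_CM := by
  intro τ a b c hτ ha e
  have hg : (Int.gcd a (Int.gcd b c : ℤ) : ℤ) ≠ 0 := by
    have := Int.gcd_pos_of_ne_zero_left (Int.gcd b c : ℤ) ha
    omega
  have hd : ∀ d : ℤ, d ∣ a → d ∣ b → d ∣ c → d ∣ (Int.gcd a (Int.gcd b c : ℤ) : ℤ) :=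
    fun d h1 h2 h3 => Int.dvd_coe_gcd h1 (Int.dvd_coe_gcd h2 h3)
  obtain ⟨a', ea⟩ : (Int.gcd a (Int.gcd b c : ℤ) : ℤ) ∣ a := Int.gcd_dvd_left ..
  obtain ⟨b', eb⟩ : (Int.gcd a (Int.gcd b c : ℤ) : ℤ) ∣ b :=
    (Int.gcd_dvd_right ..).trans (Int.gcd_dvd_left ..)
  obtain ⟨c', ec⟩ : (Int.gcd a (Int.gcd b c : ℤ) : ℤ) ∣ c :=
    (Int.gcd_dvd_right ..).trans (Int.gcd_dvd_right ..)
  generalize (Int.gcd a (Int.gcd b c : ℤ) : ℤ) = g at hg hd ea eb ec
  subst ea eb ec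
  have hp : ∀ d : ℤ, d ∣ a' → d ∣ b' → d ∣ c' → d ∣ 1 := fun d h1 h2 h3 => by
    have := hd (g * d) (mul_dvd_mul_left g h1) (mul_dvd_mul_left g h2) (mul_dvd_mul_left g h3)
    rwa [← mul_dvd_mul_iff_left hg, mul_one]
  have hg' : (g : ℂ) ≠ 0 := by exact_mod_cast hg
  have e' : (a' : ℂ) * τ ^ 2 + (b' : ℂ) * τ + (c' : ℂ) = 0 := by
    apply mul_left_cancel₀ hg'
    push_cast at e
    linear_combination e
  rcases lt_or_gt_of_ne (right_ne_zero_of_mul ha) with h | h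
  · refine cm_pos (a := -a') (b := -b') (c := -c') hτ (by omega)
      (fun d h1 h2 h3 => hp d (dvd_neg.1 h1) (dvd_neg.1 h2) (dvd_neg.1 h3)) ?_
    push_cast
    linear_combination -e'
  · exact cm_pos hτ h hp e'

theorem redu : S_Redu := by
  intro D L h hH
  obtain ⟨τ, c, L0, h1, h2, h3, hL, hi⟩ := exists_red L
  obtain ⟨a, β, hf, rfl⟩ := form_of_hom h h1 hL ((hi.hom_iff _).1 hH)
  exact ⟨a, β, hf, reduced h hf.1 h2 h3, by rw [hi.jL, jL_eq_J h1.ne' hL],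
    fun hc => prim_of_cm h hf hL (hi.isCM hc)⟩

theorem fin : S_Fin := by
  intro D h
  refine (((Set.finite_Icc (-(D : ℤ)) D).prod (Set.finite_Icc (-(D : ℤ)) D)).image
    fun w => J (tau D w.1 w.2)).subset ?_
  rintro y ⟨L, hH, rfl⟩
  obtain ⟨a, β, hf, hr, e, -⟩ := redu D L h hH
  have h1 := four_gg h β
  have h2 := hr.2
  have h3 := hr.1
  have h4 := hf.1
  have h5 : (2 * β + ((D % 2 : ℕ) : ℤ)) ^ 2 ≤ a ^ 2 := sq_le_sq' (abs_le.1 h3).1 (abs_le.1 h3).2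
  have h6 : a ≤ D := by nlinarith
  rw [abs_le] at h3
  exact ⟨(a, β), ⟨⟨by simp only; omega, h6⟩, ⟨by simp only; omega, by simp only; omega⟩⟩, e.symm⟩

theorem norm : S_Norm := by
  intro D L N h hc hN
  obtain ⟨τ, c1, L1, h1, hL1, hi1⟩ := exists_tau L
  obtain ⟨a, β, hf, rfl⟩ := form_of_hom h h1 hL1 (hi1.isCM hc).th
  have hp := (prim_of_cm h hf hL1 (hi1.isCM hc)).2
  have ha : a ≠ 0 := hf.1.ne'
  have ha' : (a : ℂ) ≠ 0 := by exact_mod_cast ha
  obtain ⟨L2, hL2⟩ := exists_form_lat h ha β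
  have hi2 := iso_tau ha hL1 hL2
  obtain ⟨c, hc'⟩ := hf.2
  have hca : gg D β / a = c := by rw [hc', Int.mul_ediv_cancel_left _ ha]
  have hz := add_th_sq h β
  have h4 := four_gg h β
  have hgg : ∀ k : ℤ, gg D (k + β) = k ^ 2 + k * (2 * β + ((D % 2 : ℕ) : ℤ)) + gg D β := by
    intro k
    simp only [gg]
    ring
  rw [hc'] at hz h4 hgg
  rw [hca] at hp
  generalize 2 * β + ((D % 2 : ℕ) : ℤ) = b at hz h4 hgg hp
  obtain ⟨x, y, ⟨s, r', hxy⟩, hv⟩ := exists_value hp hN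
  obtain ⟨r, rfl⟩ : ∃ r, r' = -r := ⟨-r', by ring⟩
  have hd : x * s - y * r = 1 := by linear_combination hxy
  have hd' : (x : ℂ) * s - y * r = 1 := by exact_mod_cast hd
  have hpos : 0 < a * x ^ 2 + b * x * y + c * y ^ 2 := by
    have hD : (0 : ℤ) < D := by exact_mod_cast h.1
    have e : 4 * a * (a * x ^ 2 + b * x * y + c * y ^ 2) = (2 * a * x + b * y) ^ 2 + D * y ^ 2 := by
      linear_combination y ^ 2 * h4
    have e2 : 0 < (2 * a * x + b * y) ^ 2 + D * y ^ 2 := by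
      by_cases hy : y = 0
      · subst hy
        have hx : x ≠ 0 := by
          rintro rfl
          simp at hd
        have : 2 * a * x + b * 0 ≠ 0 := by simp [ha, hx]
        positivity
      · positivity
    rw [← e] at e2
    exact (pos_iff_pos_of_mul_pos e2).1 (by have := hf.1; omega)
  have e1 : ((x * a + y * (b - (β + th D))) / a : ℂ) * (x * a + y * (β + th D)) =
      ((a * x ^ 2 + b * x * y + c * y ^ 2 : ℤ) : ℂ) := by
    rw [div_mul_eq_mul_div, div_eq_iff ha']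
    push_cast at hz ⊢
    linear_combination (-(y : ℂ) ^ 2) * hz
  have e2 : ((x * a + y * (b - (β + th D))) / a : ℂ) * (r * a + s * (β + th D)) =
      ((x * r * a + y * r * b + y * s * c + β : ℤ) : ℂ) + th D := by
    rw [div_mul_eq_mul_div, div_eq_iff ha']
    push_cast at hz ⊢
    linear_combination (-(y : ℂ) * s) * hz + ((a : ℂ) * (β + th D)) * hd'
  have hw : ((x * a + y * (b - (β + th D))) / a : ℂ) ≠ 0 := by
    intro e
    rw [e, zero_mul] at e1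
    exact hpos.ne (by exact_mod_cast e1)
  obtain ⟨L3, hi3⟩ := exists_iso L2 hw
  have hL3 := (change hL2 hd).of_iso hi3
  rw [e1, e2] at hL3
  refine ⟨_, _, _, L3, ⟨hpos, a * r ^ 2 + b * r * s + c * s ^ 2, ?_⟩, hv, hL3,
    (hi1.trans hi2).trans hi3⟩
  rw [hgg]
  linear_combination
    (-((x * r * a + y * r * b + y * s * c) * b + (x * s - y * r + 1) * (a * c))) * hd

theorem jinj (hH : S_Homoth) : S_Jinj := by
  intro τ τ' h1 h1' h2 h3 h2' h3' e
  have h0 : τ.im ≠ 0 := by linarith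
  have h0' : τ'.im ≠ 0 := by linarith
  obtain ⟨L, hL⟩ := exists_lat_tau h0
  obtain ⟨L', hL'⟩ := exists_lat_tau h0'
  obtain ⟨c, hi⟩ := hH L L' (by rw [jL_eq_J h0 hL, jL_eq_J h0' hL', e])
  have s1 := short h1' hL' (hi.hom 1 hL.right) (by simpa using hi.1)
  have s2 := short h1 hL (hi.symm.hom 1 hL'.right) (by simpa using hi.1)
  rw [mul_one] at s1 s2
  have hc : c = 1 ∨ c = -1 := s1.2 (by
    have := s2.1
    rw [norm_inv] at this
    exact (one_le_inv₀ (norm_pos_iff.2 hi.1)).1 this)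
  have hm : ∀ z, z ∈ L.lattice ↔ z ∈ L'.lattice := fun z => by
    rw [hi.2]
    rcases hc with rfl | rfl
    · rw [one_mul]
    · rw [neg_one_mul, neg_mem_iff]
  obtain ⟨p, q, e1⟩ := (hL' τ).1 ((hm τ).1 hL.left)
  obtain ⟨p', q', e2⟩ := (hL τ').1 ((hm τ').2 hL'.left)
  have key : ((0 : ℤ) : ℂ) + ((1 : ℤ) : ℂ) * τ =
      ((p * q' + q : ℤ) : ℂ) + ((p * p' : ℤ) : ℂ) * τ := by
    push_cast
    linear_combination e1 + (p : ℂ) * e2
  have k := (coord h0 key).2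
  have i1 := congrArg Complex.im e1
  have r1 := congrArg Complex.re e1
  simp only [mul_one, Complex.add_im, Complex.intCast_im, Complex.mul_im, Complex.intCast_re,
    zero_mul, add_zero, Complex.add_re, Complex.mul_re, sub_zero] at i1 r1
  rcases Int.eq_one_or_neg_one_of_mul_eq_one k.symm with rfl | rfl
  · have hq : q = 0 := by
      push_cast at r1
      have a1 : (q : ℝ) < 1 := by linarith
      have a2 : (-1 : ℝ) < q := by linarith
      have a3 : q < 1 := by exact_mod_cast a1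
      have a4 : -1 < q := by exact_mod_cast a2
      omega
    rw [e1, hq]
    simp
  · push_cast at i1
    linarith

end Pool.Agent.P.MP_94fe55_nt
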