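import Pool.Agent.P.MP_94fe55_nt.Defs

/-! A bound of Hall and Tenenbaum type for the number of primitive forms. -/

namespace Pool.Agent.P.MP_94fe55_nt

open Finset

namespace HTP

/-- number of roots -/
noncomputable def rt (D q : ℕ) : ℕ := ((range q).filter (fun β : ℕ => (q : ℤ) ∣ gg D β)).card

lemma gg_add (D : ℕ) (b s : ℤ) :
    gg D (b + s) = gg D b + s * (2 * b + ((D % 2 : ℕ) : ℤ)) + s ^ 2 := by
  unfold gg; ring

lemma prim_red (D : ℕ) (m q b t : ℤ) (hm : 0 < m) (hq : 0 < q) (hc : IsCoprime m q)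
    (h : Prim D (m * q) (b + m * t)) : Prim D m b := by
  obtain ⟨⟨-, c, hc1⟩, h2⟩ := h
  have e1 : gg D b = m * (q * c - t * (2 * b + ((D % 2 : ℕ) : ℤ)) - m * t ^ 2) := by
    have := gg_add D b (m * t)
    rw [hc1] at this
    linear_combination -this
  refine ⟨⟨hm, _, e1⟩, fun d d1 d2 d3 => h2 d (d1.mul_right q) ?_ ?_⟩
  · have : 2 * (b + m * t) + ((D % 2 : ℕ) : ℤ) = 2 * b + ((D % 2 : ℕ) : ℤ) + m * (2 * t) := by ring
    rw [this]
    exact d2.add (d1.mul_right _)
  · rw [hc1, Int.mul_ediv_cancel_left _ (mul_pos hm hq).ne']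
    rw [e1, Int.mul_ediv_cancel_left _ hm.ne'] at d3
    have h4 : d ∣ q * c := by
      have := (d3.add (d1.mul_right (t ^ 2))).add (d2.mul_left t)
      simpa using this
    exact (hc.of_isCoprime_of_dvd_left d1).dvd_of_dvd_mul_left h4

lemma rr_mul (D m q : ℕ) (hm : 0 < m) (hq : 0 < q) (hc : m.Coprime q) :
    rr D (m * q) ≤ rr D m * rt D q := by
  classical
  unfold rr rt
  rw [← card_product]
  refine card_le_card_of_injOn (fun β => (β % m, β % q)) (fun β hβ => ?_) ?_
  · simp only [coe_filter, mem_range, Set.mem_ofPred_eq, coe_product, Set.mem_prod] at hβ ⊢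
    refine ⟨⟨Nat.mod_lt _ hm, ?_⟩, Nat.mod_lt _ hq, ?_⟩
    · refine prim_red D m q _ ((β / m : ℕ) : ℤ) (by exact_mod_cast hm) (by exact_mod_cast hq)
        (Nat.isCoprime_iff_coprime.2 hc) ?_
      have e : ((β % m : ℕ) : ℤ) + m * ((β / m : ℕ) : ℤ) = β := by
        exact_mod_cast Nat.mod_add_div β m
      rw [e]
      exact_mod_cast hβ.2
    · have e : ((β % q : ℕ) : ℤ) + q * ((β / q : ℕ) : ℤ) = β := by
        exact_mod_cast Nat.mod_add_div β q
      have h1 : (q : ℤ) ∣ gg D β := by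
        refine dvd_trans ?_ hβ.2.1.2
        push_cast
        exact dvd_mul_left _ _
      rw [← e, gg_add, add_assoc] at h1
      refine (dvd_add_left ?_).1 h1
      exact ((dvd_mul_right _ _).mul_right _).add
        (Dvd.dvd.pow (dvd_mul_right _ _) two_ne_zero)
  · intro a ha b hb h
    simp only [coe_filter, mem_range, Set.mem_ofPred_eq] at ha hb
    simp only [Prod.mk.injEq] at h
    have : a ≡ b [MOD m * q] := (Nat.modEq_and_modEq_iff_modEq_mul hc).1 h
    exact Nat.ModEq.eq_of_lt_of_lt this ha.1 hb.1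

lemma card_class (s t : ℕ) (c : ℤ) :
    ((range (s * t)).filter (fun β : ℕ => (s : ℤ) ∣ β - c)).card ≤ t := by
  refine le_trans (card_le_card_of_injOn (t := range t) (fun β => β / s) (fun β hβ => ?_) ?_)
    (card_range t).le
  · simp only [coe_filter, mem_range, Set.mem_ofPred_eq, coe_range, Set.mem_Iio] at hβ ⊢
    exact Nat.div_lt_of_lt_mul hβ.1
  · intro a ha b hb h
    simp only [coe_filter, mem_range, Set.mem_ofPred_eq] at ha hb
    have h1 : (s : ℤ) ∣ (b : ℤ) - a := by simpa using hb.2.sub ha.2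
    have h2 : a % s = b % s := (Nat.modEq_iff_dvd).2 h1
    simp only at h
    rw [← Nat.mod_add_div a s, ← Nat.mod_add_div b s, h, h2]

lemma pow_split (p k : ℕ) (hp : p.Prime) (u v : ℤ) (h : (p : ℤ) ^ k ∣ u * v) :
    (p : ℤ) ^ (k - k / 2) ∣ u ∨ (p : ℤ) ^ (k - k / 2) ∣ v := by
  have := Fact.mk hp
  by_cases hu : u = 0
  · left; simp [hu]
  by_cases hv : v = 0
  · right; simp [hv]
  rw [padicValInt_dvd_iff, padicValInt.mul hu hv] at h
  rw [padicValInt_dvd_iff, padicValInt_dvd_iff]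
  rcases h with h | h
  · exact absurd h (mul_ne_zero hu hv)
  · by_cases h1 : k - k / 2 ≤ padicValInt p u
    · exact Or.inl (Or.inr h1)
    · exact Or.inr (Or.inr (by omega))

lemma rt_le (D p k : ℕ) (hp : p.Prime) : rt D (p ^ k) ≤ 2 * p ^ (k / 2) := by
  unfold rt
  rcases ((range (p ^ k)).filter (fun β : ℕ => ((p ^ k : ℕ) : ℤ) ∣ gg D β)).eq_empty_or_nonempty
    with h | ⟨b, hb⟩
  · rw [h]; simp
  have e : p ^ k = p ^ (k - k / 2) * p ^ (k / 2) := by
    rw [← pow_add]; congr 1; omega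
  have h1 := card_class (p ^ (k - k / 2)) (p ^ (k / 2)) b
  have h2 := card_class (p ^ (k - k / 2)) (p ^ (k / 2)) (-b - ((D % 2 : ℕ) : ℤ))
  rw [← e] at h1 h2
  refine le_trans (card_le_card fun β hβ => ?_) ((card_union_le _ _).trans
    ((add_le_add h1 h2).trans (two_mul _).ge))
  rw [mem_filter] at hβ hb
  have h3 : (p : ℤ) ^ k ∣ ((β : ℤ) - b) * ((β : ℤ) - (-b - ((D % 2 : ℕ) : ℤ))) := by
    have := hβ.2.sub hb.2
    rw [show gg D β - gg D b = ((β : ℤ) - b) * ((β : ℤ) - (-b - ((D % 2 : ℕ) : ℤ))) by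
      unfold gg; ring] at this
    exact_mod_cast this
  rcases pow_split p k hp _ _ h3 with h4 | h4
  · exact mem_union_left _ (mem_filter.2 ⟨hβ.1, by exact_mod_cast h4⟩)
  · exact mem_union_right _ (mem_filter.2 ⟨hβ.1, by exact_mod_cast h4⟩)

noncomputable def ww (p k : ℕ) : ℝ := (p : ℝ) ^ (k / 2) * (k * Real.log p)

lemma ww_nonneg (p k : ℕ) : 0 ≤ ww p k := by
  have := Real.log_natCast_nonneg p
  unfold ww; positivity

lemma th_le (S : Finset ℕ) (y : ℝ) (hy : 0 ≤ y) (hS : ∀ p ∈ S, p.Prime ∧ (p : ℝ) ≤ y) :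
    ∑ p ∈ S, Real.log p ≤ 2 * y := by
  have h1 := Chebyshev.theta_le_log4_mul_x hy
  rw [Chebyshev.theta_eq_sum_primesLE] at h1
  have h2 : Real.log 4 ≤ 2 := by
    rw [show (4 : ℝ) = 2 ^ 2 by norm_num, Real.log_pow]
    have := Real.log_two_lt_d9
    push_cast; linarith
  calc _ ≤ ∑ p ∈ Nat.primesLE ⌊y⌋₊, Real.log p :=
        sum_le_sum_of_subset_of_nonneg
          (fun p hp => Nat.mem_primesLE.2 ⟨Nat.le_floor (hS p hp).2, (hS p hp).1⟩)
          fun p _ _ => Real.log_natCast_nonneg p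
    _ ≤ _ := h1.trans (by gcongr)

lemma W_le (S : Finset (ℕ × ℕ)) (y : ℝ) (hy : 1 ≤ y)
    (hS : ∀ x ∈ S, x.1.Prime ∧ 1 ≤ x.2 ∧ (x.1 : ℝ) ^ x.2 ≤ y) :
    ∑ x ∈ S, ww x.1 x.2 ≤ 300 * y := by
  have hy0 : 0 < y := by linarith
  have hL : 0 ≤ Real.log y := Real.log_nonneg hy
  rw [← sum_filter_add_sum_filter_not S (fun x => x.2 = 1),
    ← sum_filter_add_sum_filter_not (S.filter fun x => ¬ x.2 = 1) (fun x => x.2 = 2)]
  have inj : ∀ (T : Finset (ℕ × ℕ)) (k : ℕ), (∀ x ∈ T, x.2 = k) →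
      ∑ x ∈ T, Real.log x.1 = ∑ p ∈ T.image Prod.fst, Real.log p := fun T k hT => by
    rw [sum_image fun a ha b hb h => Prod.ext h ((hT a ha).trans (hT b hb).symm)]
  have a1 : ∑ x ∈ S.filter (fun x => x.2 = 1), ww x.1 x.2 ≤ 2 * y := by
    calc _ = ∑ x ∈ S.filter (fun x => x.2 = 1), Real.log x.1 :=
          sum_congr rfl fun x hx => by simp [ww, (mem_filter.1 hx).2]
      _ ≤ _ := by
          rw [inj _ 1 fun x hx => (mem_filter.1 hx).2]
          refine th_le _ y hy0.le fun p hp => ?_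
          obtain ⟨x, hx, rfl⟩ := mem_image.1 hp
          have := hS x (mem_filter.1 hx).1
          rw [(mem_filter.1 hx).2, pow_one] at this
          exact ⟨this.1, this.2.2⟩
  have a2 : ∑ x ∈ (S.filter fun x => ¬ x.2 = 1).filter (fun x => x.2 = 2), ww x.1 x.2 ≤
      4 * y := by
    have hb : ∀ x ∈ (S.filter fun x => ¬ x.2 = 1).filter (fun x => x.2 = 2),
        x.1.Prime ∧ (x.1 : ℝ) ≤ Real.sqrt y := fun x hx => by
      have := hS x (mem_filter.1 (mem_filter.1 hx).1).1
      rw [(mem_filter.1 hx).2] at this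
      exact ⟨this.1, Real.le_sqrt_of_sq_le this.2.2⟩
    calc _ ≤ ∑ x ∈ (S.filter fun x => ¬ x.2 = 1).filter (fun x => x.2 = 2),
          2 * Real.sqrt y * Real.log x.1 := sum_le_sum fun x hx => by
          have h1 := (hb x hx).2
          have h2 := Real.log_natCast_nonneg x.1
          simp only [ww, (mem_filter.1 hx).2]
          norm_num
          nlinarith
      _ ≤ 2 * Real.sqrt y * (2 * Real.sqrt y) := by
          rw [← mul_sum, inj _ 2 fun x hx => (mem_filter.1 hx).2]
          gcongr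
          refine th_le _ _ (Real.sqrt_nonneg _) fun p hp => ?_
          obtain ⟨x, hx, rfl⟩ := mem_image.1 hp
          exact hb x hx
      _ = 4 * y := by nlinarith [Real.mul_self_sqrt hy0.le]
  have a3 : ∑ x ∈ (S.filter fun x => ¬ x.2 = 1).filter (fun x => ¬ x.2 = 2), ww x.1 x.2 ≤
      288 * y := by
    set T := (S.filter fun x => ¬ x.2 = 1).filter (fun x => ¬ x.2 = 2) with hT
    set z := y ^ (1 / 12 : ℝ) with hz
    have hz1 : 1 ≤ z := Real.one_le_rpow hy (by norm_num)
    have hz12 : z ^ 12 = y := by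
      rw [hz, ← Real.rpow_natCast, ← Real.rpow_mul hy0.le]; norm_num
    have hLz : Real.log y ≤ 12 * z := by
      rw [← hz12, Real.log_pow]
      have := Real.log_le_sub_one_of_pos (show 0 < z by linarith)
      push_cast; linarith
    have hb : ∀ x ∈ T, (1 ≤ x.1 ∧ (x.1 : ℝ) ≤ z ^ 4) ∧ (1 ≤ x.2 ∧ (x.2 : ℝ) ≤ 24 * z) ∧
        ww x.1 x.2 ≤ z ^ 6 * (12 * z) := by
      intro x hx
      rw [hT, mem_filter, mem_filter] at hx
      obtain ⟨h1, h2, h3⟩ := hS x hx.1.1
      have h4 : 3 ≤ x.2 := by have := hx.1.2; have := hx.2; omega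
      have h5 : (2 : ℝ) ≤ x.1 := by exact_mod_cast h1.two_le
      have h6 : x.2 * Real.log x.1 ≤ 12 * z := by
        rw [← Real.log_pow]
        exact (Real.log_le_log (by positivity) h3).trans hLz
      have h7 : 1 / 2 ≤ Real.log x.1 :=
        le_trans (by linarith [Real.log_two_gt_d9]) (Real.log_le_log two_pos h5)
      refine ⟨⟨h1.one_le, ?_⟩, ⟨h2, ?_⟩, ?_⟩
      · refine le_of_pow_le_pow_left₀ (n := 3) (by norm_num) (by positivity) ?_
        rw [← pow_mul, hz12]
        exact (pow_le_pow_right₀ (by linarith) h4).trans h3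
      · nlinarith [mul_le_mul_of_nonneg_left h7 (Nat.cast_nonneg (α := ℝ) x.2)]
      · unfold ww
        refine mul_le_mul ?_ h6 (by positivity) (by positivity)
        refine le_of_pow_le_pow_left₀ (n := 2) (by norm_num) (by positivity) ?_
        rw [← pow_mul, ← pow_mul, hz12]
        exact (pow_le_pow_right₀ (by linarith) (by omega)).trans h3
    have hc : (T.card : ℝ) ≤ z ^ 4 * (24 * z) := by
      have h1 : T ⊆ Icc 1 ⌊z ^ 4⌋₊ ×ˢ Icc 1 ⌊24 * z⌋₊ := fun x hx => by
        obtain ⟨h1, h2, -⟩ := hb x hx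
        exact mem_product.2 ⟨mem_Icc.2 ⟨h1.1, Nat.le_floor h1.2⟩,
          mem_Icc.2 ⟨h2.1, Nat.le_floor h2.2⟩⟩
      have h2 := card_le_card h1
      rw [card_product, Nat.card_Icc, Nat.card_Icc, Nat.add_sub_cancel, Nat.add_sub_cancel] at h2
      calc (T.card : ℝ) ≤ (⌊z ^ 4⌋₊ : ℝ) * (⌊24 * z⌋₊ : ℝ) := by exact_mod_cast h2
        _ ≤ _ := mul_le_mul (Nat.floor_le (by positivity)) (Nat.floor_le (by positivity))
            (by positivity) (by positivity)
    calc _ ≤ T.card • (z ^ 6 * (12 * z)) := sum_le_card_nsmul _ _ _ fun x hx => (hb x hx).2.2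
      _ ≤ z ^ 4 * (24 * z) * (z ^ 6 * (12 * z)) := by rw [nsmul_eq_mul]; gcongr
      _ = 288 * z ^ 12 := by ring
      _ = _ := by rw [hz12]
  linarith

lemma log_eq (a : ℕ) (ha : a ≠ 0) :
    Real.log a = ∑ p ∈ a.primeFactors, a.factorization p * Real.log p := by
  conv_lhs => rw [← Nat.prod_factorization_pow_eq_self ha]
  rw [Finsupp.prod, Nat.cast_prod, Real.log_prod fun p hp => by
    have := (Nat.prime_of_mem_primeFactors hp).pos
    positivity]
  exact sum_congr rfl fun p _ => by rw [Nat.cast_pow, Real.log_pow]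

lemma sum_inj {α β : Type} [DecidableEq β] {s : Finset α} {t : Finset β} {f : α → ℝ} {g : β → ℝ}
    (e : α → β) (he : Set.InjOn e s) (ht : s.image e ⊆ t) (h : ∀ a ∈ s, f a ≤ g (e a))
    (h0 : ∀ b ∈ t, b ∉ s.image e → 0 ≤ g b) : ∑ a ∈ s, f a ≤ ∑ b ∈ t, g b :=
  (sum_le_sum h).trans ((sum_image he).ge.trans (sum_le_sum_of_subset_of_nonneg ht h0))

lemma main (D : ℕ) :
    ∑ a ∈ (Icc 1 D).filter (fun a => 3 * a ^ 2 ≤ D), (rr D a : ℝ) * Real.log a ≤
      600 * Real.sqrt D * ∑ a ∈ (Icc 1 D).filter (fun a => 4 * a ^ 2 < D), (rr D a : ℝ) / a := by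
  classical
  set A := (Icc 1 D).filter (fun a => 3 * a ^ 2 ≤ D) with hA
  set B := (Icc 1 D).filter (fun a => 4 * a ^ 2 < D) with hB
  set F : ℕ → Finset (ℕ × ℕ) := fun m => (Icc 1 D ×ˢ Icc 1 D).filter
    (fun x => x.1.Prime ∧ (x.1 : ℝ) ^ x.2 ≤ Real.sqrt D / m) with hF
  calc _ ≤ ∑ a ∈ A, ∑ p ∈ a.primeFactors,
        (rr D (a / p ^ a.factorization p) : ℝ) * (2 * ww p (a.factorization p)) := by
        refine sum_le_sum fun a ha => ?_
        have ha0 : a ≠ 0 := by have := (mem_Icc.1 (mem_filter.1 ha).1).1; omega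
        rw [log_eq a ha0, mul_sum]
        refine sum_le_sum fun p hp => ?_
        have hp' := Nat.prime_of_mem_primeFactors hp
        have h1 := rr_mul D (a / p ^ a.factorization p) (p ^ a.factorization p)
          (Nat.ordCompl_pos p ha0) (pow_pos hp'.pos _)
          ((Nat.coprime_ordCompl hp' ha0).symm.pow_right _)
        rw [mul_comm, Nat.ordProj_mul_ordCompl_eq_self] at h1
        have h2 := h1.trans (Nat.mul_le_mul_left _ (rt_le D p _ hp'))
        have h3 : (rr D a : ℝ) ≤ rr D (a / p ^ a.factorization p) *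
          (2 * (p : ℝ) ^ (a.factorization p / 2)) := by exact_mod_cast h2
        have h4 := Real.log_natCast_nonneg p
        refine (mul_le_mul_of_nonneg_right h3 (by positivity)).trans (le_of_eq ?_)
        unfold ww; ring
    _ ≤ ∑ m ∈ B, ∑ x ∈ F m, (rr D m : ℝ) * (2 * ww x.1 x.2) := by
        rw [sum_sigma', sum_sigma']
        refine sum_inj
          (fun x => (⟨x.1 / x.2 ^ x.1.factorization x.2, (x.2, x.1.factorization x.2)⟩ :
            Σ _ : ℕ, ℕ × ℕ)) ?_ ?_ (fun _ _ => le_rfl)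
          (fun x _ _ => mul_nonneg (by positivity) (by linarith [ww_nonneg x.2.1 x.2.2]))
        · rintro ⟨a, p⟩ _ ⟨b, q⟩ _ h
          simp only [Sigma.mk.injEq, heq_eq_eq, Prod.mk.injEq] at h
          obtain ⟨h1, rfl, h3⟩ := h
          have : a = b := by
            rw [← Nat.ordProj_mul_ordCompl_eq_self a p, ← Nat.ordProj_mul_ordCompl_eq_self b p,
              h1, h3]
          rw [this]
        · intro y hy
          obtain ⟨⟨a, p⟩, hx, rfl⟩ := mem_image.1 hy
          obtain ⟨ha, hp⟩ := mem_sigma.1 hx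
          simp only at ha hp
          rw [hA, mem_filter, mem_Icc] at ha
          have ha0 : a ≠ 0 := by omega
          have hp' := Nat.prime_of_mem_primeFactors hp
          have hk : 1 ≤ a.factorization p :=
            hp'.factorization_pos_of_dvd ha0 (Nat.dvd_of_mem_primeFactors hp)
          have e := Nat.ordProj_mul_ordCompl_eq_self a p
          have hm := Nat.ordCompl_pos p ha0
          generalize a / p ^ a.factorization p = m at e hm
          generalize a.factorization p = k at e hk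
          have h1 : p ≤ p ^ k := Nat.le_self_pow (by omega) p
          have h2 : k < p ^ k := Nat.lt_pow_self hp'.one_lt
          have h3 : p ^ k ≤ a := by rw [← e]; exact Nat.le_mul_of_pos_right _ hm
          have h4 : 2 * m ≤ a := by
            rw [← e]; exact Nat.mul_le_mul_right _ (hp'.two_le.trans h1)
          refine mem_sigma.2 ⟨?_, ?_⟩
          · rw [hB, mem_filter, mem_Icc]
            simp only
            exact ⟨⟨hm, by omega⟩, by nlinarith⟩
          · simp only [hF, mem_filter, mem_product, mem_Icc]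
            refine ⟨⟨⟨hp'.one_le, by omega⟩, hk, by omega⟩, hp', ?_⟩
            rw [le_div_iff₀ (by exact_mod_cast hm)]
            refine Real.le_sqrt_of_sq_le ?_
            have h5 : (p ^ k * m) ^ 2 ≤ D := by rw [e]; omega
            exact_mod_cast h5
    _ ≤ _ := by
        rw [mul_sum]
        refine sum_le_sum fun m hm => ?_
        rw [hB, mem_filter, mem_Icc] at hm
        have hm0 : (0 : ℝ) < m := by exact_mod_cast hm.1.1
        have h1 : 1 ≤ Real.sqrt D / m := by
          rw [one_le_div hm0]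
          refine Real.le_sqrt_of_sq_le ?_
          exact_mod_cast (by omega : m ^ 2 ≤ D)
        have h2 := W_le (F m) _ h1 fun x hx => by
          simp only [hF, mem_filter, mem_product, mem_Icc] at hx
          exact ⟨hx.2.1, hx.1.2.1, hx.2.2⟩
        rw [← mul_sum, ← mul_sum]
        calc _ ≤ (rr D m : ℝ) * (2 * (300 * (Real.sqrt D / m))) := by gcongr
          _ = _ := by ring

end HTP

open HTP in
theorem ht : S_HT := by
  classical
  refine ⟨4804, by norm_num, fun D _ hD => ?_⟩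
  have h1 := main D
  set A := (Icc 1 D).filter (fun a => 3 * a ^ 2 ≤ D) with hA
  set B := (Icc 1 D).filter (fun a => 4 * a ^ 2 < D) with hB
  have hD1 : (1 : ℝ) ≤ D := by exact_mod_cast (by omega : 1 ≤ D)
  have hL : 0 ≤ Real.log D := Real.log_nonneg hD1
  have h2 : 1 ≤ ∑ a ∈ B, (rr D a : ℝ) / a := by
    have h3 : 1 ∈ B := by rw [hB, mem_filter, mem_Icc]; omega
    refine le_trans ?_ (single_le_sum (f := fun a : ℕ => (rr D a : ℝ) / a)
      (fun a _ => by positivity) h3)
    have : 1 ≤ rr D 1 := card_pos.2 ⟨0, mem_filter.2 ⟨by simp,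
      ⟨⟨by simp, by simp⟩, fun d h _ _ => by simpa using h⟩⟩⟩
    simpa using this
  set z := (D : ℝ) ^ (1 / 8 : ℝ) with hz
  have hz1 : 1 ≤ z := Real.one_le_rpow hD1 (by norm_num)
  have hz8 : z ^ 8 = D := by
    rw [hz, ← Real.rpow_natCast, ← Real.rpow_mul (by linarith)]; norm_num
  have hs : Real.sqrt D = z ^ 4 := by
    rw [← hz8, show z ^ 8 = (z ^ 4) ^ 2 by ring, Real.sqrt_sq (by positivity)]
  have hLz : Real.log D ≤ 4 * z ^ 2 := by
    rw [← hz8, show z ^ 8 = (z ^ 2) ^ 4 by ring, Real.log_pow]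
    have := Real.log_le_sub_one_of_pos (show 0 < z ^ 2 by positivity)
    push_cast; linarith
  have h4 : ∑ a ∈ A, (rr D a : ℝ) * Real.log D ≤
      ∑ a ∈ A, ((if (a : ℝ) ≤ z then z * (4 * z ^ 2) else 0) + 8 * (rr D a * Real.log a)) := by
    refine sum_le_sum fun a ha => ?_
    have h5 := Real.log_natCast_nonneg a
    split_ifs with h
    · have h6 : (rr D a : ℝ) ≤ a := by
        exact_mod_cast (card_filter_le _ _).trans (card_range a).le
      have h7 : (rr D a : ℝ) * Real.log D ≤ z * (4 * z ^ 2) :=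
        mul_le_mul (h6.trans h) hLz hL (by linarith)
      have : 0 ≤ (rr D a : ℝ) * Real.log a := by positivity
      linarith
    · have h6 : Real.log D ≤ 8 * Real.log a := by
        rw [← hz8, Real.log_pow]
        have := Real.log_le_log (by linarith) (not_le.1 h).le
        push_cast; linarith
      have := mul_le_mul_of_nonneg_left h6 (Nat.cast_nonneg (α := ℝ) (rr D a))
      linarith
  rw [sum_add_distrib, ← mul_sum, ← sum_filter, sum_const, nsmul_eq_mul] at h4
  have h5 : ((A.filter (fun a : ℕ => (a : ℝ) ≤ z)).card : ℝ) ≤ z := by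
    have h6 : A.filter (fun a : ℕ => (a : ℝ) ≤ z) ⊆ Icc 1 ⌊z⌋₊ := fun a ha => by
      rw [mem_filter, hA, mem_filter, mem_Icc] at ha
      exact mem_Icc.2 ⟨ha.1.1.1, Nat.le_floor ha.2⟩
    have h7 := card_le_card h6
    rw [Nat.card_Icc, Nat.add_sub_cancel] at h7
    exact le_trans (by exact_mod_cast h7) (Nat.floor_le (by linarith))
  have h6 : ((A.filter (fun a : ℕ => (a : ℝ) ≤ z)).card : ℝ) * (z * (4 * z ^ 2)) ≤
      4 * Real.sqrt D := by
    rw [hs]
    calc _ ≤ z * (z * (4 * z ^ 2)) := by gcongr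
      _ = _ := by ring
  have h7 := mul_le_mul_of_nonneg_left h2 (Real.sqrt_nonneg (D : ℝ))
  rw [sum_mul]
  nlinarith

end Pool.Agent.P.MP_94fe55_nt
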