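import Pool.Agent.P.MP_94fe55_nt.Kap

set_option autoImplicit false

namespace Pool.Agent.P.MP_94fe55_nt

open Polynomial WeierstrassCurve
open scoped NNReal

namespace KronP

theorem vieta {k : Type} [Field k] {u1 u2 u3 A B : k} (h12 : u1 ≠ u2) (h13 : u1 ≠ u3)
    (h23 : u2 ≠ u3) (e1 : u1 ^ 3 + A * u1 + B = 0) (e2 : u2 ^ 3 + A * u2 + B = 0)
    (e3 : u3 ^ 3 + A * u3 + B = 0) :
    u1 + u2 + u3 = 0 ∧ u1 * u2 + u1 * u3 + u2 * u3 = A ∧ u1 * u2 * u3 = -B := by
  have f2 : u1 ^ 2 + u1 * u2 + u2 ^ 2 + A = 0 :=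
    mul_left_cancel₀ (sub_ne_zero.2 h12) (by linear_combination e1 - e2)
  have f3 : u1 ^ 2 + u1 * u3 + u3 ^ 2 + A = 0 :=
    mul_left_cancel₀ (sub_ne_zero.2 h13) (by linear_combination e1 - e3)
  have s : u1 + u2 + u3 = 0 :=
    mul_left_cancel₀ (sub_ne_zero.2 h23) (by linear_combination f2 - f3)
  refine ⟨s, by linear_combination (u1 + u2) * s - f2, ?_⟩
  linear_combination e1 - u1 * f2 + u1 * u2 * s

theorem exists_roots (a b : ℂ) : ∃ e1 e2 e3 : ℂ, e1 + e2 + e3 = 0 ∧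
    e1 * e2 + e1 * e3 + e2 * e3 = a ∧ e1 * e2 * e3 = -b := by
  obtain ⟨e1, h1⟩ := IsAlgClosed.exists_root (X ^ 3 + C a * X + C b : ℂ[X])
    (by rw [show (X ^ 3 + C a * X + C b : ℂ[X]).degree = 3 by compute_degree!]; norm_num)
  obtain ⟨s, hs⟩ := IsAlgClosed.exists_pow_nat_eq (-3 * e1 ^ 2 - 4 * a) two_pos
  simp only [IsRoot.def, eval_add, eval_pow, eval_X, eval_mul, eval_C] at h1
  refine ⟨e1, (-e1 + s) / 2, (-e1 - s) / 2, by ring, by linear_combination (-1 / 4) * hs, ?_⟩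
  linear_combination h1 - e1 / 4 * hs

theorem frob {k : Type} [Field k] {l : ℕ} [Fact l.Prime] [CharP k l] (h3 : (3 : k) ≠ 0)
    {e1 e2 e3 a b a' b' β d : k} (s1 : e1 + e2 + e3 = 0) (s2 : e1 * e2 + e1 * e3 + e2 * e3 = a)
    (s3 : e1 * e2 * e3 = -b) (hΔ : 4 * a ^ 3 + 27 * b ^ 2 ≠ 0)
    (r1 : (e1 ^ l + d) ^ 3 + a' * (e1 ^ l + d) * β ^ 2 + b' * β ^ 3 = 0)
    (r2 : (e2 ^ l + d) ^ 3 + a' * (e2 ^ l + d) * β ^ 2 + b' * β ^ 3 = 0)
    (r3 : (e3 ^ l + d) ^ 3 + a' * (e3 ^ l + d) * β ^ 2 + b' * β ^ 3 = 0) :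
    a' * β ^ 2 = a ^ l ∧ b' * β ^ 3 = b ^ l := by
  have hb : b = -(e1 * e2 * e3) := by rw [s3, neg_neg]
  have h3' : e3 = -e1 - e2 := by linear_combination s1
  have hd : 4 * a ^ 3 + 27 * b ^ 2 = -((e1 - e2) * (e1 - e3) * (e2 - e3)) ^ 2 := by
    rw [← s2, hb, h3']; ring
  have inj : ∀ {x y : k}, x ≠ y → x ^ l + d ≠ y ^ l + d := fun h e =>
    h (frobenius_inj k l (add_right_cancel e))
  obtain ⟨t1, t2, t3⟩ := vieta (A := a' * β ^ 2) (B := b' * β ^ 3)
    (inj (x := e1) (y := e2) fun e => hΔ (by rw [hd, e]; ring))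
    (inj (x := e1) (y := e3) fun e => hΔ (by rw [hd, e]; ring))
    (inj (x := e2) (y := e3) fun e => hΔ (by rw [hd, e]; ring))
    (by linear_combination r1) (by linear_combination r2) (by linear_combination r3)
  have f1 := congrArg (frobenius k l) s1
  have f2 := congrArg (frobenius k l) s2
  have f3 := congrArg (frobenius k l) s3
  simp only [map_add, map_mul, map_neg, map_zero, frobenius_def] at f1 f2 f3
  have d0 : d = 0 := mul_left_cancel₀ h3 (by linear_combination t1 - f1)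
  subst d0
  exact ⟨by linear_combination f2 - t2, by linear_combination t3 - f3⟩

/-- short Weierstrass models -/
def sw (a b : ℂ) : WeierstrassCurve ℂ := ⟨0, 0, 0, a, b⟩

theorem sw_c4 (a b : ℂ) : (sw a b).c₄ = -48 * a := by
  simp only [sw, c₄, b₂, b₄]; ring

theorem sw_Δ (a b : ℂ) : (sw a b).Δ = -16 * (4 * a ^ 3 + 27 * b ^ 2) := by
  simp only [sw, Δ, b₂, b₄, b₆, b₈]; ring

theorem sw_F3 (a b : ℂ) (A B : ℂ[X]) (x : ℂ) : (F3 (sw a b) A B).eval x =
    4 * (A.eval x ^ 3 + a * A.eval x * B.eval x ^ 2 + b * B.eval x ^ 3) := by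
  rw [F3_eval]; simp only [sw, b₂, b₄, b₆]; ring

variable {l : ℕ} {V : Place l}

theorem v23 (hl : l.Prime) (h5 : 5 ≤ l) : V.v 2 = 1 ∧ V.v 3 = 1 :=
  ⟨V.v_nat_eq_one hl (n := 2) fun h => by have := Nat.le_of_dvd two_pos h; omega,
    V.v_nat_eq_one hl (n := 3) fun h => by have := Nat.le_of_dvd three_pos h; omega⟩

theorem model (hl : l.Prime) (h5 : 5 ≤ l) {j : ℂ} (h : V.Nice j) :
    ∃ a b, V.Good (sw a b) ∧ jW (sw a b) = j := by
  obtain ⟨v2, v3⟩ := v23 (V := V) hl h5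
  by_cases h0 : j = 0
  · refine ⟨0, 1, ⟨by simp [sw], by simp [sw], by simp [sw], by simp [sw], by simp [sw], ?_⟩, ?_⟩
    · rw [sw_Δ, show (-16 * (4 * 0 ^ 3 + 27 * 1 ^ 2) : ℂ) = -(2 ^ 4 * 3 ^ 3) by norm_num]
      simp [-Nat.reducePow, v2, v3]
    · simp [jW, sw_c4, h0]
  by_cases h1 : j = 1728
  · refine ⟨1, 0, ⟨by simp [sw], by simp [sw], by simp [sw], by simp [sw], by simp [sw], ?_⟩, ?_⟩
    · rw [sw_Δ, show (-16 * (4 * 1 ^ 3 + 27 * 0 ^ 2) : ℂ) = -(2 ^ 6) by norm_num]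
      simp [-Nat.reducePow, v2]
    · rw [jW, sw_c4, sw_Δ, h1]; norm_num
  have g0 := h.1.resolve_left h0
  have g1 := h.2.resolve_left h1
  have e : (sw (-3 * j * (j - 1728)) (2 * j * (j - 1728) ^ 2)).Δ =
      2 ^ 12 * 3 ^ 6 * j ^ 2 * (j - 1728) ^ 3 := by rw [sw_Δ]; ring
  refine ⟨-3 * j * (j - 1728), 2 * j * (j - 1728) ^ 2,
    ⟨by simp [sw], by simp [sw], by simp [sw], by simp [sw, g0, g1, v3], by simp [sw, g0, g1, v2],
      ?_⟩, ?_⟩
  · rw [e]; simp only [map_mul, map_pow, v2, v3, g0, g1, one_pow, mul_one]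
  · have := sub_ne_zero.2 h1
    rw [jW, e, sw_c4]
    field_simp
    ring

theorem card_ker {W W' : WeierstrassCurve ℂ} {c : ℂ} {φ : Pt W →+ Pt W'} {T : Finset (Pt W)}
    {A B : ℂ[X]} (h : Isog W W' c φ T A B) : Nat.card φ.ker = T.card := by
  rw [← Nat.card_eq_finsetCard]
  exact Nat.card_congr (Equiv.subtypeEquivRight fun Q => (h.ker Q).symm)

theorem v_le (H : Tools) (hl : l.Prime) {W W' : WeierstrassCurve ℂ} {L L' : PeriodPair}
    {π : ℂ →+ Pt W} {π' : ℂ →+ Pt W'} (g : V.Good W) (g' : V.Good W') (u : Unif W L π)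
    (u' : Unif W' L' π') {c : ℂ} (hc : c ≠ 0) (h1 : Hom L L' c) : V.v c ≤ 1 := by
  obtain ⟨T, A, B, hI⟩ := H.velu W W' L L' π π' c u u' hc h1
  have h := (H.int l V W W' L L' π π' c _ T A B hl g g' u u' hI).2.2.2.2
  have h2 : 1 ≤ ∏ Q ∈ T.erase 0, V.M Q := Finset.one_le_prod' fun Q _ => Place.one_le_M Q
  have h3 : V.v c ^ 2 ≤ 1 := by
    rw [← h]; exact le_mul_of_one_le_right' h2
  exact (pow_le_one_iff_of_nonneg zero_le two_ne_zero).1 h3

theorem red_cubic {u w a b : ℂ} (hu : V.v u ≤ 1) (hw : V.v w ≤ 1) (ha : V.v a ≤ 1)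
    (hb : V.v b ≤ 1) (h : u ^ 3 + a * u * w ^ 2 + b * w ^ 3 = 0) :
    V.red u ^ 3 + V.red a * V.red u * V.red w ^ 2 + V.red b * V.red w ^ 3 = 0 := by
  have h1 := Place.le_mul (Place.le_mul ha hu) (Place.le_pow hw 2)
  have h2 := Place.le_mul hb (Place.le_pow hw 3)
  have := congrArg V.red h
  rwa [Place.red_add (Place.le_add (Place.le_pow hu 3) h1) h2, Place.red_add (Place.le_pow hu 3) h1,
    Place.red_mul (Place.le_mul ha hu) (Place.le_pow hw 2), Place.red_mul hb (Place.le_pow hw 3),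
    Place.red_mul ha hu, Place.red_pow hu, Place.red_pow hw, Place.red_pow hw,
    Place.red_zero] at this

theorem red_j {a b : ℂ} (g : V.Good (sw a b)) :
    V.red (jW (sw a b)) = (-48 * V.red a) ^ 3 / (-16 * (4 * V.red a ^ 3 + 27 * V.red b ^ 2)) ∧
      -16 * (4 * V.red a ^ 3 + 27 * V.red b ^ 2) ≠ 0 := by
  have e1 : (V.redW (sw a b)).c₄ = -48 * V.red a := by
    simp only [Place.redW, sw, c₄, b₂, b₄, Place.red_zero]; ring
  have e2 : (V.redW (sw a b)).Δ = -16 * (4 * V.red a ^ 3 + 27 * V.red b ^ 2) := by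
    simp only [Place.redW, sw, Δ, b₂, b₄, b₆, b₈, Place.red_zero]; ring
  rw [jW, Place.red_div (Place.le_pow g.c₄ 3) g.2.2.2.2.2, Place.red_pow g.c₄, ← g.red_c₄,
    ← g.red_Δ, ← e1, ← e2]
  exact ⟨rfl, g.red_Δ_ne⟩

theorem core (H : Tools) (hl : l.Prime) (h5 : 5 ≤ l) {a b a' b' : ℂ} {L L' : PeriodPair}
    {π : ℂ →+ Pt (sw a b)} {π' : ℂ →+ Pt (sw a' b')} (g : V.Good (sw a b)) (g' : V.Good (sw a' b'))
    (u : Unif _ L π) (u' : Unif _ L' π') {c : ℂ} (hc : c ≠ 0) (h1 : Hom L L' c)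
    (h2 : Hom L' L (l / c)) (h3 : ¬ Hom L L' (c / l)) (hv : V.v c < 1) :
    V.v (jW (sw a' b') - jW (sw a b) ^ l) < 1 := by
  have _ : Fact l.Prime := ⟨hl⟩
  have _ := V.charP hl
  obtain ⟨v2, v3⟩ := v23 (V := V) hl h5
  have hl0 : (l : ℂ) ≠ 0 := by exact_mod_cast hl.ne_zero
  obtain ⟨T, A, B, hI⟩ := H.velu _ _ L L' π π' c u u' hc h1
  obtain ⟨gA, gB, cop, -, -⟩ := H.int l V _ _ L L' π π' c _ T A B hl g g' u u' hI
  have hW : V.gn (Wr A B) < 1 := by
    have e := congrArg V.gn hI.ode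
    rw [map_mul, map_mul, map_mul, map_pow, Place.gn_C, map_pow, gB, mul_one] at e
    have f1 : 1 ≤ V.gn (F3 (sw a b) X 1) := by
      have := V.coeff_le_gn (F3 (sw a b) X 1) 3
      have e3 : (F3 (sw a b) X 1).coeff 3 = 2 ^ 2 := by
        simp [F3, mul_assoc]; norm_num
      rwa [e3, map_pow, v2, one_pow] at this
    have f2 : V.gn (Wr A B) ^ 2 < 1 :=
      calc V.gn (Wr A B) ^ 2 ≤ _ := le_mul_of_one_le_right' f1
        _ = _ := e
        _ ≤ V.v c ^ 2 := mul_le_of_le_one_right' (g'.gn_F3 gA gB.le)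
        _ < 1 := pow_lt_one₀ zero_le hv two_ne_zero
    exact (pow_lt_one_iff_of_nonneg zero_le two_ne_zero).1 f2
  have hW0 := (Place.redP_eq_zero hW.le).2 hW
  rw [Place.redP_Wr gA gB.le, Wr, sub_eq_zero] at hW0
  have mA := Place.monic_redP (V := V) hI.monic
  have dA : derivative (V.redP A) = 0 :=
    eq_zero_of_dvd_of_degree_lt (cop.dvd_of_dvd_mul_right ⟨_, hW0⟩)
      (degree_derivative_lt mA.ne_zero)
  have dB : derivative (V.redP B) = 0 := by
    rw [dA, zero_mul] at hW0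
    exact (mul_eq_zero.1 hW0.symm).resolve_left mA.ne_zero
  have eA := expand_contract l dA hl.ne_zero
  have eB := expand_contract l dB hl.ne_zero
  have nA : (contract l (V.redP A)).natDegree * l = T.card := by
    rw [← natDegree_expand, eA, Place.natDegree_redP_monic hI.monic, hI.deg]
  have hT : T.card = l := by
    obtain ⟨T', A', B', hI'⟩ := H.velu _ _ L L π π l u u hl0 (Hom.nat L l)
    have c2 := (H.div l V 0 _ _ L L π π l T' T' A' B' A' B' g g (Place.Close.refl _ _) u u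
      hI' hI').2.2.2.2
    have hle : (mulPt π π' c).ker ≤ (mulPt π π l).ker := fun Q hQ => by
      have := mulPt_comp u u' u h1 h2
      rw [div_mul_cancel₀ _ hc] at this
      rw [AddMonoidHom.mem_ker] at hQ ⊢
      rw [this, AddMonoidHom.comp_apply, hQ, map_zero]
    have hd := AddSubgroup.card_dvd_of_le hle
    rw [card_ker hI, card_ker hI', c2] at hd
    obtain ⟨i, hi, e⟩ := (Nat.dvd_prime_pow hl).1 hd
    interval_cases i
    · exact absurd (Nat.eq_one_of_mul_eq_one_left (nA.trans e)) hl.ne_one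
    · simpa using e
    · exfalso
      have : T = T' := Finset.eq_of_subset_of_card_le
        (fun Q hQ => (hI'.ker Q).2 (hle ((hI.ker Q).1 hQ))) (by rw [c2, e])
      refine h3 fun z hz => ?_
      have h4 : π (z / l) ∈ T' := by
        rw [hI'.ker, mulPt_apply u u (Hom.nat L l), mul_div_cancel₀ _ hl0, u.ker]
        exact hz
      rw [← this, hI.ker, mulPt_apply u u' h1, u'.ker] at h4
      convert h4 using 1
      ring
  have nA1 : (contract l (V.redP A)).natDegree = 1 :=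
    Nat.eq_of_mul_eq_mul_right hl.pos (by rw [nA, hT, one_mul])
  have mA0 : (contract l (V.redP A)).Monic := (monic_expand_iff hl.pos).1 (eA.symm ▸ mA)
  rw [mA0.eq_X_add_C nA1] at eA
  have nB0 : (contract l (V.redP B)).natDegree = 0 := by
    have e1 := natDegree_expand l (contract l (V.redP B))
    have e2 := Place.natDegree_redP_le (V := V) B
    have e3 := hI.natDegree_B
    rw [hI.deg, hT] at e3
    rw [eB] at e1
    by_contra h
    have := Nat.le_mul_of_pos_left l (Nat.pos_of_ne_zero h)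
    omega
  rw [eq_C_of_natDegree_eq_zero nB0, expand_C] at eB
  set d := (contract l (V.redP A)).coeff 0
  set β := (contract l (V.redP B)).coeff 0
  have hβ : β ≠ 0 := fun e => (Place.redP_ne_zero gB.le).2 gB (by rw [← eB, e, map_zero])
  have root : ∀ e : ℂ, e ^ 3 + a * e + b = 0 → V.v e ≤ 1 ∧
      (V.red e ^ l + d) ^ 3 + V.red a' * (V.red e ^ l + d) * β ^ 2 + V.red b' * β ^ 3 = 0 := by
    intro e he
    have ve : V.v e ≤ 1 := Place.root_le_one (G := X ^ 3 + C a * X + C b) (by monicity!)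
      (Place.gn_add (Place.gn_add (Place.gn_pow (by simp) 3)
        (Place.gn_mul (by rw [Place.gn_C]; exact g.2.2.2.1) (by simp)))
        (by rw [Place.gn_C]; exact g.2.2.2.2.1))
      (by simpa using he)
    have rA : V.red (A.eval e) = V.red e ^ l + d := by
      rw [← Place.eval_redP gA ve, ← eA]; simp
    have rB : V.red (B.eval e) = β := by
      rw [← Place.eval_redP gB.le ve, ← eB]; simp
    have hB : B.eval e ≠ 0 := fun h => hβ (by rw [← rB, h, Place.red_zero])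
    have o := congrArg (eval e) hI.ode
    simp only [eval_mul, sw_F3, eval_X, eval_one, eval_C, one_pow, mul_one] at o
    rw [he, mul_zero, mul_zero] at o
    have o2 := (mul_eq_zero.1 ((mul_eq_zero.1 ((mul_eq_zero.1 o.symm).resolve_right hB)).resolve_left
      (pow_ne_zero 2 hc))).resolve_left (by norm_num)
    refine ⟨ve, ?_⟩
    rw [← rA, ← rB]
    exact red_cubic ((Place.v_eval_le A ve).trans gA) ((Place.v_eval_le B ve).trans gB.le)
      g'.2.2.2.1 g'.2.2.2.2.1 o2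
  obtain ⟨e1, e2, e3, s1, s2, s3⟩ := exists_roots a b
  obtain ⟨w1, r1⟩ := root e1 (by rw [← s2]; linear_combination e1 ^ 2 * s1 + s3)
  obtain ⟨w2, r2⟩ := root e2 (by rw [← s2]; linear_combination e2 ^ 2 * s1 + s3)
  obtain ⟨w3, r3⟩ := root e3 (by rw [← s2]; linear_combination e3 ^ 2 * s1 + s3)
  obtain ⟨j1, n1⟩ := red_j g
  obtain ⟨j2, n2⟩ := red_j g'
  obtain ⟨k1, k2⟩ := frob (l := l) (e1 := V.red e1) (e2 := V.red e2) (e3 := V.red e3)
    (a := V.red a) (b := V.red b)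
    (by rw [← V.red_ofNat 3]; exact (Place.red_ne_zero v3.le).2 v3)
    (by rw [← Place.red_add w1 w2, ← Place.red_add (Place.le_add w1 w2) w3, s1, Place.red_zero])
    (by
      rw [← s2, Place.red_add (Place.le_add (Place.le_mul w1 w2) (Place.le_mul w1 w3))
        (Place.le_mul w2 w3), Place.red_add (Place.le_mul w1 w2) (Place.le_mul w1 w3),
        Place.red_mul w1 w2, Place.red_mul w1 w3, Place.red_mul w2 w3])
    (by
      rw [← Place.red_mul w1 w2, ← Place.red_mul (Place.le_mul w1 w2) w3, s3]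
      exact Place.red_neg g.2.2.2.2.1)
    (right_ne_zero_of_mul n1) r1 r2 r3
  have vj : ∀ {a b : ℂ}, V.Good (sw a b) → V.v (jW (sw a b)) ≤ 1 := fun g => by
    rw [jW, map_div₀, g.2.2.2.2.2, div_one]; exact Place.le_pow g.c₄ 3
  rw [← Place.red_eq_iff (vj g') (Place.le_pow (vj g) l), Place.red_pow (vj g), j1, j2,
    ← frobenius_def l]
  simp only [map_div₀, map_mul, map_pow, map_add, map_neg, map_ofNat]
  rw [frobenius_def, frobenius_def, ← k1, ← k2]
  have n3 := right_ne_zero_of_mul n2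
  have n4 : (16 : V.k) ≠ 0 := fun e => n2 (by rw [e]; simp)
  have n5 : 4 * (V.red a' * β ^ 2) ^ 3 + 27 * (V.red b' * β ^ 3) ^ 2 =
      β ^ 6 * (4 * V.red a' ^ 3 + 27 * V.red b' ^ 2) := by ring
  rw [n5]
  field_simp

theorem conj (H : Tools) (σ : ℂ ≃+* ℂ) {L L' : PeriodPair} (h2 : L'.g₂ = σ L.g₂)
    (h3 : L'.g₃ = σ L.g₃) {c : ℂ} (hc : Hom L L c) : Hom L' L' (σ c) := by
  by_cases h0 : c = 0
  · rw [h0, map_zero]; exact Hom.zero _ _
  have hΔ : (shortW L).Δ ≠ 0 := by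
    rw [disc_eq (shortW_c4 L) (shortW_c6 L)]; exact H.disc L
  obtain ⟨L1, π, u⟩ := H.unifEx _ hΔ
  have o : Wr X 1 ^ 2 * F3 (shortW L) X 1 = C ((1 : ℂ) ^ 2) * F3 (shortW L) X 1 * 1 := by
    simp [Wr]
  have i1 := H.conv _ _ L L1 1 X 1 (shortW_c4 L) (shortW_c6 L) u.c4 u.c6 one_ne_zero monic_X
    (by simp) (by simp) o
  have i2 := H.conv _ _ L1 L 1 X 1 u.c4 u.c6 (shortW_c4 L) (shortW_c6 L) one_ne_zero monic_X
    (by simp) (by simp) o
  have hc1 : Hom L1 L1 c := by simpa using i1.comp (hc.comp i2)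
  obtain ⟨T, A, B, hI⟩ := H.velu _ _ L1 L1 π π c u u h0 hc1
  have e4 : 12 * L'.g₂ = ((shortW L).map σ.toRingHom).c₄ := by
    rw [map_c₄, ← shortW_c4, h2]; simp [map_ofNat]
  have e6 : 216 * L'.g₃ = ((shortW L).map σ.toRingHom).c₆ := by
    rw [map_c₆, ← shortW_c6, h3]; simp [map_ofNat]
  have hi : Function.Injective σ.toRingHom := σ.injective
  refine H.conv _ _ L' L' (σ c) (A.map σ.toRingHom) (B.map σ.toRingHom) e4 e6 e4 e6
    (by simpa using h0) (hI.monic.map _) ?_ ?_ ?_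
  · rw [natDegree_map_eq_of_injective hi, natDegree_map_eq_of_injective hi, hI.natDegree_B]
  · rw [leadingCoeff_map_of_injective hi, hI.lead_B]; simp
  · have := congrArg (Polynomial.map σ.toRingHom) hI.ode
    simpa [Wr, F3, Polynomial.map_mul, Polynomial.map_pow, Polynomial.map_sub, Polynomial.map_add,
      derivative_map] using this

end KronP

theorem kron (H : Tools) : S_Kron := by
  intro l V L L' c hl h5 hc h1 h2 h3 h4 n1 n2
  have hl0 : (l : ℂ) ≠ 0 := by exact_mod_cast hl.ne_zero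
  obtain ⟨a, b, g, e⟩ := KronP.model hl h5 n1
  obtain ⟨a', b', g', e'⟩ := KronP.model hl h5 n2
  obtain ⟨L0, π, u⟩ := H.unifEx _ g.Δ_ne
  obtain ⟨L0', π', u'⟩ := H.unifEx _ g'.Δ_ne
  obtain ⟨s, hs⟩ := H.homoth L0 L (u.jW.symm.trans e)
  obtain ⟨t, ht⟩ := H.homoth L' L0' (e'.symm.trans u'.jW)
  have s0 := hs.1
  have t0 := ht.1
  have hc0 : t * (c * s) ≠ 0 := mul_ne_zero t0 (mul_ne_zero hc s0)
  have k1 : Hom L0 L0' (t * (c * s)) := ht.hom.comp (h1.comp hs.hom)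
  have k2 : Hom L0' L0 (l / (t * (c * s))) := by
    convert hs.symm.hom.comp (h2.comp ht.symm.hom) using 1
    field_simp
  have k3 : ¬ Hom L0' L0 (l / (t * (c * s)) / l) := fun h => h3 (by
    convert hs.hom.comp (h.comp ht.hom) using 1
    field_simp)
  have k4 : ¬ Hom L0 L0' (t * (c * s) / l) := fun h => h4 (by
    convert ht.symm.hom.comp (h.comp hs.symm.hom) using 1
    field_simp)
  rw [← e, ← e']
  by_cases hv : V.v (t * (c * s)) < 1
  · exact Or.inl (KronP.core H hl h5 g g' u u' hc0 k1 k2 k4 hv)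
  · refine Or.inr (KronP.core H hl h5 g' g u' u (div_ne_zero hl0 hc0) k2 ?_ k3 ?_)
    · convert k1 using 1
      field_simp
    · rw [map_div₀, le_antisymm (KronP.v_le H hl g g' u u' hc0 k1) (not_lt.1 hv), div_one]
      exact V.v_p_lt hl

theorem stab (H : Tools) (hS : S_Surj) : S_Stab := by
  intro D σ y hD
  have ex : ∀ L : PeriodPair, ∃ L' : PeriodPair, L'.g₂ = σ L.g₂ ∧ L'.g₃ = σ L.g₃ ∧
      σ (jL L) = jL L' := fun L => by
    obtain ⟨L', h2, h3⟩ := hS (12 * σ L.g₂) (216 * σ L.g₃) (fun h => H.disc L (by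
      apply σ.injective
      simp only [map_sub, map_mul, map_pow, map_ofNat, map_zero]
      linear_combination (1 / 1728) * h))
    have h2' := mul_left_cancel₀ (by norm_num) h2
    have h3' := mul_left_cancel₀ (by norm_num) h3
    exact ⟨L', h2', h3', by simp [jL, h2', h3', map_ofNat]⟩
  have hθ : σ (th D) = th D ∨ σ (th D) = ((D % 2 : ℕ) : ℂ) - th D := by
    have h1 := th_sq hD
    have h2 := congrArg σ h1
    simp only [map_pow, map_sub, map_mul, map_natCast] at h2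
    rw [← sub_eq_zero, ← sub_eq_zero (a := σ (th D)) (b := _ - _), ← mul_eq_zero]
    linear_combination h2 - h1
  have hth : ∀ {L L' : PeriodPair}, L'.g₂ = σ L.g₂ → L'.g₃ = σ L.g₃ → Hom L L (th D) →
      Hom L' L' (th D) := fun h2 h3 h => by
    have := KronP.conj H σ h2 h3 h
    rcases hθ with e | e
    · rwa [e] at this
    · simpa [e] using (Hom.nat _ (D % 2)).sub this
  constructor
  · rintro ⟨L, hL, rfl⟩
    obtain ⟨L', h2, h3, hj⟩ := ex L
    refine ⟨L', fun c => ⟨fun h => ?_, ?_⟩, hj⟩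
    · obtain ⟨u, v, e⟩ := (hL _).1 (KronP.conj H σ.symm (L := L') (L' := L) (by simp [h2])
        (by simp [h3]) h)
      have e2 := congrArg σ e
      simp only [RingEquiv.apply_symm_apply, map_add, map_mul, map_intCast] at e2
      rcases hθ with e3 | e3
      · exact ⟨u, v, by rw [e2, e3]⟩
      · exact ⟨u + v * (D % 2 : ℕ), -v, by
          rw [e2, e3, Int.cast_add, Int.cast_mul, Int.cast_natCast, Int.cast_neg]; ring⟩
    · rintro ⟨u, v, rfl⟩
      exact (Hom.int _ u).add ((Hom.int _ v).comp (hth h2 h3 hL.th))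
  · rintro ⟨L, hL, rfl⟩
    obtain ⟨L', h2, h3, hj⟩ := ex L
    exact ⟨L', hth h2 h3 hL, hj⟩

end Pool.Agent.P.MP_94fe55_nt
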