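import Pool.Agent.P.MP_94fe55_nt.Val

set_option autoImplicit false

namespace Pool.Agent.P.MP_94fe55_nt

open Polynomial WeierstrassCurve
open scoped NNReal

namespace LHP

variable {p : ℕ} {V : Place p} {W : WeierstrassCurve ℂ}

/-- the three forms have no common zero -/
theorem forms_ne {F : Type} [Field F] {E : WeierstrassCurve F} (hΔ : E.Δ ≠ 0) {s t u : F}
    (h2 : s ^ 2 - E.b₄ * s * u - E.b₆ * t * u - E.b₈ * u ^ 2 = 0)
    (h1 : 2 * t * s + E.b₂ * s * u + E.b₄ * t * u + E.b₆ * u ^ 2 = 0)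
    (h0 : t ^ 2 - 4 * s * u = 0) : s = 0 ∧ t = 0 ∧ u = 0 := by
  have : E.IsElliptic := ⟨isUnit_iff_ne_zero.2 hΔ⟩
  by_contra h
  have hx : (![s, t, u] : Fin 3 → F) ≠ 0 := by
    intro e
    exact h ⟨by simpa using congrFun e 0, by simpa using congrFun e 1, by simpa using congrFun e 2⟩
  apply addSubMap_ne_zero E hx
  ext i
  fin_cases i
  · simpa [addSubMap] using h2
  · simpa [addSubMap] using h1
  · simpa [addSubMap] using h0

/-- the size of a triple is the Gauss norm of the quadratic polynomial -/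
noncomputable def tr (u t s : ℂ) : ℂ[X] := C u * X ^ 2 - C t * X + C s

theorem gn_tr (u t s : ℂ) : V.gn (tr u t s) = max (V.v u) (max (V.v t) (V.v s)) := by
  apply le_antisymm
  · refine Place.gn_add (Place.gn_sub ?_ ?_) ?_
    · simp
    · simp
    · simp
  · have h2 := V.coeff_le_gn (tr u t s) 2
    have h1 := V.coeff_le_gn (tr u t s) 1
    have h0 := V.coeff_le_gn (tr u t s) 0
    simp only [tr, coeff_add, coeff_sub, coeff_C_mul, coeff_X_pow, coeff_X, coeff_C] at h2 h1 h0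
    norm_num at h2 h1 h0
    exact max_le h2 (max_le h1 h0)

theorem lin (P : Pt W) : V.gn (C (hz P) * X - C (hx P)) = V.M P := by
  by_cases h : P = 0
  · subst h; simp
  · rw [hz_of_ne h, hx_of_ne h, map_one, one_mul, Place.gn_X_sub_px]

theorem size_unit (hW : V.Good W) {s t u : ℂ} (h : max (V.v u) (max (V.v t) (V.v s)) = 1) :
    max (V.v (t ^ 2 - 4 * s * u))
      (max (V.v (2 * t * s + W.b₂ * s * u + W.b₄ * t * u + W.b₆ * u ^ 2))
        (V.v (s ^ 2 - W.b₄ * s * u - W.b₆ * t * u - W.b₈ * u ^ 2))) = 1 := by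
  have hu : V.v u ≤ 1 := h ▸ le_max_left _ _
  have ht : V.v t ≤ 1 := h ▸ (le_max_left _ _).trans (le_max_right _ _)
  have hs : V.v s ≤ 1 := h ▸ (le_max_right _ _).trans (le_max_right _ _)
  let m := hW.model
  let a : V.O := ⟨s, hs⟩
  let b : V.O := ⟨t, ht⟩
  let c : V.O := ⟨u, hu⟩
  let r := IsLocalRing.residue V.O
  have e0 : t ^ 2 - 4 * s * u = ((b ^ 2 - 4 * a * c : V.O) : ℂ) := rfl
  have e1 : 2 * t * s + W.b₂ * s * u + W.b₄ * t * u + W.b₆ * u ^ 2 =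
      ((2 * b * a + m.b₂ * a * c + m.b₄ * b * c + m.b₆ * c ^ 2 : V.O) : ℂ) := rfl
  have e2 : s ^ 2 - W.b₄ * s * u - W.b₆ * t * u - W.b₈ * u ^ 2 =
      ((a ^ 2 - m.b₄ * a * c - m.b₆ * b * c - m.b₈ * c ^ 2 : V.O) : ℂ) := rfl
  rw [e0, e1, e2]
  have hO : ∀ z : V.O, V.v z ≤ 1 := fun z => z.2
  apply le_antisymm (max_le (hO _) (max_le (hO _) (hO _)))
  by_contra hlt
  simp only [not_le, max_lt_iff] at hlt
  obtain ⟨g0, g1, g2⟩ := hlt
  rw [← Place.red_eq_zero (hO _), Place.red_coe] at g0 g1 g2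
  have hΔ : (m.map r).Δ ≠ 0 := by rw [hW.model_red]; exact hW.red_Δ_ne
  obtain ⟨k1, k2, k3⟩ := forms_ne (E := m.map r) hΔ (s := r a) (t := r b) (u := r c)
    (by simpa [r] using g2) (by simpa [r, map_ofNat] using g1) (by simpa [r, map_ofNat] using g0)
  have l1 : V.v s < 1 := (Place.red_eq_zero hs).1 (by rw [V.red_of_le hs]; exact k1)
  have l2 : V.v t < 1 := (Place.red_eq_zero ht).1 (by rw [V.red_of_le ht]; exact k2)
  have l3 : V.v u < 1 := (Place.red_eq_zero hu).1 (by rw [V.red_of_le hu]; exact k3)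
  exact absurd h (max_lt l3 (max_lt l2 l1)).ne

theorem size (hW : V.Good W) (s t u : ℂ) :
    max (V.v (t ^ 2 - 4 * s * u))
      (max (V.v (2 * t * s + W.b₂ * s * u + W.b₄ * t * u + W.b₆ * u ^ 2))
        (V.v (s ^ 2 - W.b₄ * s * u - W.b₆ * t * u - W.b₈ * u ^ 2))) =
      max (V.v u) (max (V.v t) (V.v s)) ^ 2 := by
  by_cases h0 : tr u t s = 0
  · have := gn_tr (V := V) u t s
    rw [h0, map_zero, eq_comm] at this
    have k := this.le
    rw [max_le_iff, max_le_iff] at k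
    simp only [nonpos_iff_eq_zero, map_eq_zero] at k
    obtain ⟨rfl, rfl, rfl⟩ := k
    simp
  obtain ⟨a, ha, hv, h1⟩ := Place.exists_scale (V := V) h0
  have e : C a⁻¹ * tr u t s = tr (a⁻¹ * u) (a⁻¹ * t) (a⁻¹ * s) := by
    simp only [tr, map_mul]; ring
  rw [e, gn_tr] at h1
  have h2 := size_unit hW h1
  rw [← gn_tr u t s, ← hv, ← mul_one (V.v a ^ 2), ← h2, mul_max_of_nonneg _ _ zero_le,
    mul_max_of_nonneg _ _ zero_le, ← map_pow, ← map_mul, ← map_mul, ← map_mul]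
  have k0 : a ^ 2 * ((a⁻¹ * t) ^ 2 - 4 * (a⁻¹ * s) * (a⁻¹ * u)) = t ^ 2 - 4 * s * u := by
    field_simp
  have k1 : a ^ 2 * (2 * (a⁻¹ * t) * (a⁻¹ * s) + W.b₂ * (a⁻¹ * s) * (a⁻¹ * u) +
      W.b₄ * (a⁻¹ * t) * (a⁻¹ * u) + W.b₆ * (a⁻¹ * u) ^ 2) =
      2 * t * s + W.b₂ * s * u + W.b₄ * t * u + W.b₆ * u ^ 2 := by field_simp
  have k2 : a ^ 2 * ((a⁻¹ * s) ^ 2 - W.b₄ * (a⁻¹ * s) * (a⁻¹ * u) - W.b₆ * (a⁻¹ * t) * (a⁻¹ * u) -
      W.b₈ * (a⁻¹ * u) ^ 2) = s ^ 2 - W.b₄ * s * u - W.b₆ * t * u - W.b₈ * u ^ 2 := by field_simp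
  rw [k0, k1, k2]

theorem main (hW : V.Good W) (P Q : Pt W) {l : ℂ}
    (h0 : S0 (hx P) (hz P) (hx Q) (hz Q) = l * (hz (P + Q) * hz (P - Q)))
    (h1 : S1 W.b₂ W.b₄ W.b₆ (hx P) (hz P) (hx Q) (hz Q) =
        l * (hx (P + Q) * hz (P - Q) + hx (P - Q) * hz (P + Q)))
    (h2 : S2 W.b₄ W.b₆ W.b₈ (hx P) (hz P) (hx Q) (hz Q) = l * (hx (P + Q) * hx (P - Q))) :
    V.v l * V.M (P + Q) * V.M (P - Q) = V.M P ^ 2 * V.M Q ^ 2 := by
  have e1 : tr (hz P * hz Q) (hx P * hz Q + hx Q * hz P) (hx P * hx Q) =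
      (C (hz P) * X - C (hx P)) * (C (hz Q) * X - C (hx Q)) := by
    simp only [tr, map_mul, map_add]; ring
  have e2 : tr (S0 (hx P) (hz P) (hx Q) (hz Q)) (S1 W.b₂ W.b₄ W.b₆ (hx P) (hz P) (hx Q) (hz Q))
      (S2 W.b₄ W.b₆ W.b₈ (hx P) (hz P) (hx Q) (hz Q)) =
      C l * (C (hz (P + Q)) * X - C (hx (P + Q))) * (C (hz (P - Q)) * X - C (hx (P - Q))) := by
    rw [h0, h1, h2]
    simp only [tr, map_mul, map_add]; ring
  have g1 := congrArg V.gn e1
  have g2 := congrArg V.gn e2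
  rw [map_mul, lin, lin, gn_tr] at g1
  rw [map_mul, map_mul, lin, lin, gn_tr, Place.gn_C] at g2
  rw [← g2, ← mul_pow, ← g1, ← size hW]
  have k0 : S0 (hx P) (hz P) (hx Q) (hz Q) =
      (hx P * hz Q + hx Q * hz P) ^ 2 - 4 * (hx P * hx Q) * (hz P * hz Q) := by
    simp only [S0]; ring
  rw [k0]
  rfl

theorem root_le {ξ η : ℂ} {r : ℝ≥0} (h1 : V.v (ξ + η) ≤ r) (h2 : V.v (ξ * η) ≤ r ^ 2) :
    V.v ξ ≤ r := by
  by_contra h
  have h3 := not_le.1 h
  have h4 : V.v η = V.v ξ := by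
    have : η = -ξ + (ξ + η) := by ring
    rw [this, V.v.map_add_eq_of_lt_left (by rw [V.v.map_neg]; exact h1.trans_lt h3), V.v.map_neg]
  rw [map_mul, h4, ← sq] at h2
  exact h ((pow_le_pow_iff_left₀ zero_le zero_le two_ne_zero).1 h2)

theorem ultra (hW : V.Good W) {P Q : Pt W} (hP : P ≠ 0) (hQ : Q ≠ 0) (hR : P + Q ≠ 0) :
    min (V.M P) (V.M Q) ≤ V.M (P + Q) := by
  by_cases h : min (V.M P) (V.M Q) ≤ 1
  · exact h.trans (Place.one_le_M _)
  have h1 := not_le.1 h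
  set t := min (V.M P) (V.M Q) with ht
  have t0 : 0 < t := zero_lt_one.trans h1
  have key : ∀ R : Pt W, t ≤ V.M R → px R ≠ 0 ∧ V.v (px R)⁻¹ ≤ t⁻¹ := by
    intro R hR
    have : t ≤ V.v (px R) := by
      rcases le_max_iff.1 hR with e | e
      · exact absurd e h
      · exact e
    refine ⟨fun e => ?_, ?_⟩
    · rw [e, map_zero] at this
      exact absurd this (not_le.2 t0)
    · rw [map_inv₀]; exact inv_anti₀ t0 this
  obtain ⟨a0, ha⟩ := key P (min_le_left _ _)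
  obtain ⟨b0, hb⟩ := key Q (min_le_right _ _)
  have r1 : t⁻¹ < 1 := inv_lt_one_of_one_lt₀ h1
  have ha1 := ha.trans r1.le
  have hb1 := hb.trans r1.le
  obtain ⟨⟨l, l0, e0, e1, e2⟩, -⟩ := addSub ℂ W hW.Δ_ne P Q
  rw [hx_of_ne hP, hz_of_ne hP, hx_of_ne hQ, hz_of_ne hQ, hx_of_ne hR, hz_of_ne hR] at *
  set a := (px P)⁻¹ with hadef
  set b := (px Q)⁻¹ with hbdef
  have hab : V.v (a * b) ≤ t⁻¹ := Place.le_mul ha1 hb
  have hab1 := hab.trans r1.le
  have hs : V.v (a + b) ≤ t⁻¹ := Place.le_add ha hb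
  let U := 1 - (W.b₄ * (a * b) + W.b₆ * ((a + b) * (a * b)) + W.b₈ * ((a * b) * (a * b)))
  have hU : V.v U = 1 := by
    apply V.v.map_one_sub_of_lt
    exact (Place.le_add (Place.le_add (Place.le_mul hW.b₄ hab)
      (Place.le_mul hW.b₆ (Place.le_mul' hs hab1)))
      (Place.le_mul hW.b₈ (Place.le_mul hab1 hab))).trans_lt r1
  have U0 : U ≠ 0 := fun e => by simp [e] at hU
  have f2 : l * (a * b) ^ 2 * (px (P + Q) * hx (P - Q)) = U := by
    have : U = (a * b) ^ 2 * S2 W.b₄ W.b₆ W.b₈ (px P) 1 (px Q) 1 := by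
      simp only [U, S2, hadef, hbdef]; field_simp; ring
    rw [this, e2]; ring
  have f1 : l * (a * b) ^ 2 * (px (P + Q) * hz (P - Q) + hx (P - Q)) =
      2 * (a + b) + W.b₂ * (a * b) + W.b₄ * ((a + b) * (a * b)) + W.b₆ * ((a * b) * (a * b)) := by
    have : 2 * (a + b) + W.b₂ * (a * b) + W.b₄ * ((a + b) * (a * b)) + W.b₆ * ((a * b) * (a * b)) =
        (a * b) ^ 2 * S1 W.b₂ W.b₄ W.b₆ (px P) 1 (px Q) 1 := by
      simp only [S1, hadef, hbdef]; field_simp; ring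
    rw [this, e1]; ring
  have f0 : l * (a * b) ^ 2 * hz (P - Q) = (a - b) ^ 2 := by
    have : (a - b) ^ 2 = (a * b) ^ 2 * S0 (px P) 1 (px Q) 1 := by
      simp only [S0, hadef, hbdef]; field_simp; ring
    rw [this, e0]; ring
  have x3 : px (P + Q) ≠ 0 := fun e => U0 (by rw [← f2, e]; ring)
  have x4 : hx (P - Q) ≠ 0 := fun e => U0 (by rw [← f2, e]; ring)
  have g1 : U * ((px (P + Q))⁻¹ + hz (P - Q) / hx (P - Q)) =
      2 * (a + b) + W.b₂ * (a * b) + W.b₄ * ((a + b) * (a * b)) + W.b₆ * ((a * b) * (a * b)) := by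
    rw [← f1, ← f2]; field_simp; ring
  have g0 : U * ((px (P + Q))⁻¹ * (hz (P - Q) / hx (P - Q))) = (a - b) ^ 2 := by
    rw [← f0, ← f2]; field_simp
  have k1 := congrArg V.v g1
  have k0 := congrArg V.v g0
  rw [map_mul, hU, one_mul] at k1 k0
  have := root_le (V := V) (r := t⁻¹) (ξ := (px (P + Q))⁻¹) (η := hz (P - Q) / hx (P - Q))
    (by
      rw [k1]
      exact Place.le_add (Place.le_add (Place.le_add (Place.le_mul (V.v_ofNat_le 2) hs)
        (Place.le_mul hW.b₂ hab)) (Place.le_mul hW.b₄ (Place.le_mul' hs hab1)))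
        (Place.le_mul hW.b₆ (Place.le_mul hab1 hab)))
    (by
      rw [k0, map_pow]
      exact pow_le_pow_left₀ zero_le (Place.le_sub ha hb) 2)
  rw [map_inv₀, inv_le_inv₀ (by simpa [pos_iff_ne_zero] using x3) t0] at this
  exact this.trans (le_max_right _ _)

theorem py_le (hW : V.Good W) (P : Pt W) (hx : V.v (px P) ≤ 1) : V.v (py P) ≤ 1 := by
  by_cases h : P = 0
  · simp [h]
  have e := weq h
  obtain ⟨h1, h2, h3, h4, h6, -⟩ := hW
  refine Place.root_le_one (V := V)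
    (G := X ^ 2 + C (W.a₁ * px P + W.a₃) * X -
      C (px P ^ 3 + W.a₂ * px P ^ 2 + W.a₄ * px P + W.a₆)) (by monicity!) ?_ ?_
  · refine Place.gn_sub (Place.gn_add (by simp) (Place.gn_mul' ?_ (by simp))) ?_
    · rw [Place.gn_C]; exact Place.le_add (Place.le_mul h1 hx) h3
    · rw [Place.gn_C]
      exact Place.le_add (Place.le_add (Place.le_add (Place.le_pow hx 3)
        (Place.le_mul h2 (Place.le_pow hx 2))) (Place.le_mul h4 hx)) h6
  · simp only [eval_sub, eval_add, eval_mul, eval_pow, eval_X, eval_C]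
    linear_combination e

end LHP

theorem lh : S_LH := by
  intro p V W hW
  refine ⟨fun P Q hP hQ h1 h2 => ?_, fun P h => ?_, fun P Q hP hQ h => LHP.ultra hW hP hQ h,
    LHP.py_le hW⟩
  · obtain ⟨⟨l, -, e0, e1, e2⟩, -⟩ := addSub ℂ W hW.Δ_ne P Q
    rw [← LHP.main hW P Q e0 e1 e2]
    rw [hx_of_ne hP, hz_of_ne hP, hx_of_ne hQ, hz_of_ne hQ, hz_of_ne h1, hz_of_ne h2] at e0
    simp only [S0, mul_one] at e0
    rw [← e0, map_pow]
  · have hP : P ≠ 0 := fun e => h (by simp [e])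
    obtain ⟨⟨l, -, e0, e1, e2⟩, -⟩ := addSub ℂ W hW.Δ_ne P P
    have := LHP.main hW P P e0 e1 e2
    rw [hx_of_ne hP, hz_of_ne hP, S1_self hP, sub_self, hz_of_ne h] at e1
    simp only [hz_zero, hx_zero, mul_zero, mul_one, zero_add] at e1
    rw [sub_self, Place.M_zero, mul_one, ← e1, map_pow] at this
    rw [this]; ring

end Pool.Agent.P.MP_94fe55_nt
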