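import Pool.Agent.P.MP_94fe55_nt.Mod1A

set_option autoImplicit false

namespace Pool.Agent.P.MP_94fe55_nt

open UpperHalfPlane ModularForm EisensteinSeries Filter Topology
open scoped MatrixGroups Real

namespace Mod1P

/-- the weight twelve form `E₄³ - c Δ` -/
noncomputable def F12 (c : ℂ) : ModularForm 𝒮ℒ 12 :=
  ModularForm.mcast (by decide) (E₄.pow 3) - c • CuspForm.toModularFormₗ CuspForm.discriminant

theorem F12_apply (c : ℂ) (z : ℍ) :
    F12 c z = E₄ z ^ 3 - c * ModularForm.discriminant z := rfl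

theorem F12_tendsto (c : ℂ) : Tendsto (fun z : ℍ => F12 c z) atImInfty (𝓝 1) := by
  have h1 := E4_tendsto.pow 3
  have h2 : Tendsto ModularForm.discriminant atImInfty (𝓝 0) := discriminant_isZeroAtImInfty
  have := h1.sub (h2.const_mul c)
  simpa [F12_apply] using this

theorem inv_slash (c : ℂ) (γ : SL(2, ℤ)) :
    (fun z => (F12 c z)⁻¹) ∣[(-12 : ℤ)] γ = fun z => (F12 c z)⁻¹ := by
  have hγ : (γ : GL (Fin 2) ℝ) ∈ 𝒮ℒ := ⟨γ, rfl⟩
  have h := SlashInvariantForm.slash_action_eqn (F12 c) _ hγ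
  rw [← SL_slash] at h
  ext z
  have hz := congrFun h z
  rw [SL_slash_apply] at hz ⊢
  rw [← hz, mul_inv, ← zpow_neg]

/-- a form `E₄³ - c Δ` always has a zero -/
theorem exists_zero (c : ℂ) : ∃ z : ℍ, F12 c z = 0 := by
  by_contra hne
  push Not at hne
  let G : ModularForm 𝒮ℒ (-12) :=
    { toFun := fun z => (F12 c z)⁻¹
      slash_action_eq' := fun _ ⟨γ, hγ⟩ => hγ ▸ inv_slash c γ
      holo' := (F12 c).holo'.inv hne
      bdd_at_cusps' := fun {x} hx => by
        rw [Subgroup.IsArithmetic.isCusp_iff_isCusp_SL2Z] at hx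
        rw [OnePoint.isBoundedAt_iff_forall_SL2Z hx]
        intro γ _
        rw [inv_slash c γ, IsBoundedAtImInfty, BoundedAtFilter]
        exact ((F12_tendsto c).inv₀ one_ne_zero).isBigO_one ℝ }
  have h0 := ModularFormClass.levelOne_neg_weight_eq_zero (k := -12) (by norm_num) G
  have h1 : (F12 c I)⁻¹ = 0 := congrFun h0 I
  exact hne I (inv_eq_zero.1 h1)

theorem exists_root (u : ℂ) {n : ℕ} (hn : 0 < n) : ∃ z : ℂ, z ^ n = u :=
  IsAlgClosed.exists_pow_nat_eq u hn

end Mod1P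

open Mod1P

/-- `J` takes every complex value on the upper half plane -/
theorem J_surj (c : ℂ) : ∃ τ : ℂ, 0 < τ.im ∧ J τ = c := by
  obtain ⟨z, hz⟩ := exists_zero c
  refine ⟨z, z.2, ?_⟩
  rw [J_eq_E4, div_eq_iff (discriminant_ne_zero z)]
  rw [F12_apply] at hz
  linear_combination hz

theorem jL_surj (c : ℂ) : ∃ L : PeriodPair, jL L = c := by
  obtain ⟨τ, hτ, e⟩ := J_surj c
  obtain ⟨L, hL⟩ := exists_lat_tau hτ.ne'
  exact ⟨L, by rw [jL_eq_J hτ.ne' hL, e]⟩

theorem surj : S_Surj := by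
  intro a b hab
  have hab' : a ^ 3 - b ^ 2 ≠ 0 := sub_ne_zero.2 hab
  obtain ⟨L, hL⟩ := jL_surj (1728 * a ^ 3 / (a ^ 3 - b ^ 2))
  have hD := disc L
  rw [jL, div_eq_div_iff hD hab'] at hL
  have key : L.g₂ ^ 3 * b ^ 2 = 27 * a ^ 3 * L.g₃ ^ 2 := by
    linear_combination (-1 / 1728) * hL
  have main : ∃ u : ℂ, u ≠ 0 ∧ 12 * L.g₂ = u ^ 4 * a ∧ 216 * L.g₃ = u ^ 6 * b := by
    by_cases ha : a = 0
    · have hb : b ≠ 0 := by
        rintro rfl
        exact hab (by simp [ha])
      have h2 : L.g₂ = 0 := by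
        have : L.g₂ ^ 3 * b ^ 2 = 0 := by rw [key, ha]; ring
        rcases mul_eq_zero.1 this with h | h
        · exact pow_eq_zero_iff (by norm_num) |>.1 h
        · exact absurd (pow_eq_zero_iff (by norm_num) |>.1 h) hb
      have h3 : L.g₃ ≠ 0 := by
        intro h
        exact hD (by simp [h2, h])
      obtain ⟨u, hu⟩ := exists_root (216 * L.g₃ / b) (n := 6) (by norm_num)
      refine ⟨u, ?_, by simp [h2, ha], by rw [hu]; field_simp⟩
      rintro rfl
      have : 216 * L.g₃ / b = 0 := by rw [← hu]; simp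
      exact div_ne_zero (mul_ne_zero (by norm_num) h3) hb this
    by_cases hb : b = 0
    · have h3 : L.g₃ = 0 := by
        have : 27 * a ^ 3 * L.g₃ ^ 2 = 0 := by rw [← key, hb]; ring
        rcases mul_eq_zero.1 this with h | h
        · exact absurd h (mul_ne_zero (by norm_num) (pow_ne_zero _ ha))
        · exact pow_eq_zero_iff (by norm_num) |>.1 h
      have h2 : L.g₂ ≠ 0 := by
        intro h
        exact hD (by simp [h3, h])
      obtain ⟨u, hu⟩ := exists_root (12 * L.g₂ / a) (n := 4) (by norm_num)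
      refine ⟨u, ?_, by rw [hu]; field_simp, by simp [h3, hb]⟩
      rintro rfl
      have : 12 * L.g₂ / a = 0 := by rw [← hu]; simp
      exact div_ne_zero (mul_ne_zero (by norm_num) h2) ha this
    have h2 : L.g₂ ≠ 0 := by
      intro h
      have h3 : L.g₃ = 0 := by
        have : 27 * a ^ 3 * L.g₃ ^ 2 = 0 := by rw [← key, h]; ring
        rcases mul_eq_zero.1 this with h | h
        · exact absurd h (mul_ne_zero (by norm_num) (pow_ne_zero _ ha))
        · exact pow_eq_zero_iff (by norm_num) |>.1 h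
      exact hD (by simp [h3, h])
    have h3 : L.g₃ ≠ 0 := by
      intro h
      have : L.g₂ ^ 3 * b ^ 2 = 0 := by rw [key, h]; ring
      exact mul_ne_zero (pow_ne_zero _ h2) (pow_ne_zero _ hb) this
    obtain ⟨u, hu⟩ := exists_root (18 * L.g₃ * a / (b * L.g₂)) (n := 2) (by norm_num)
    have hu' : u ^ 2 * (b * L.g₂) = 18 * L.g₃ * a := by rw [hu]; field_simp
    have h4 : 12 * L.g₂ = u ^ 4 * a := by
      apply mul_right_cancel₀ (pow_ne_zero 2 (mul_ne_zero hb h2))
      have : u ^ 4 * a * (b * L.g₂) ^ 2 = (u ^ 2 * (b * L.g₂)) ^ 2 * a := by ring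
      rw [this, hu']
      linear_combination 12 * key
    refine ⟨u, ?_, h4, ?_⟩
    · rintro rfl
      exact mul_ne_zero (by norm_num : (12 : ℂ) ≠ 0) h2 (by simpa using h4)
    · apply mul_right_cancel₀ (mul_ne_zero ha h2)
      have : u ^ 6 * b * (a * L.g₂) = (u ^ 4 * a) * (u ^ 2 * (b * L.g₂)) := by ring
      rw [this, hu', ← h4]
      ring
  obtain ⟨u, hu, h4, h6⟩ := main
  obtain ⟨L', hi⟩ := exists_iso L hu
  refine ⟨L', ?_, ?_⟩
  · apply mul_left_cancel₀ (pow_ne_zero 4 hu)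
    rw [← h4, hi.g₂]; ring
  · apply mul_left_cancel₀ (pow_ne_zero 6 hu)
    rw [← h6, hi.g₃]; ring

end Pool.Agent.P.MP_94fe55_nt
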