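import Pool.Agent.P.MP_94fe55_nt.Mod1A

set_option autoImplicit false

namespace Pool.Agent.P.MP_94fe55_nt

open UpperHalfPlane ModularForm Filter Topology
open scoped MatrixGroups Real Manifold

namespace Mod2

/-- a polynomial lower bound for an analytic function on a compact set, in terms of a function
`d ≤ 1` which is at most the distance to each zero -/
theorem lower_compact {f : ℂ → ℂ} {S : Set ℂ} (hS : IsCompact S) {d : ℂ → ℝ}
    (hd0 : ∀ z, 0 ≤ d z) (hd1 : ∀ z, d z ≤ 1) (hf : ∀ x ∈ S, AnalyticAt ℂ f x)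
    (hne : ∀ x ∈ S, ¬ ∀ᶠ z in 𝓝 x, f z = 0)
    (hz : ∀ x ∈ S, f x = 0 → ∀ z, d z ≤ ‖z - x‖) :
    ∃ (c : ℝ) (m : ℕ), 0 < c ∧ ∀ z ∈ S, c * d z ^ m ≤ ‖f z‖ := by
  refine hS.induction_on (p := fun T => ∃ (c : ℝ) (m : ℕ), 0 < c ∧ ∀ z ∈ T, c * d z ^ m ≤ ‖f z‖)
    ⟨1, 0, one_pos, by simp⟩ ?_ ?_ ?_
  · rintro s t hst ⟨c, m, hc, h⟩
    exact ⟨c, m, hc, fun z hz => h z (hst hz)⟩
  · rintro s t ⟨c, m, hc, h⟩ ⟨c', m', hc', h'⟩
    refine ⟨min c c', max m m', lt_min hc hc', ?_⟩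
    rintro z (hz | hz)
    · refine le_trans ?_ (h z hz)
      exact mul_le_mul (min_le_left _ _) (pow_le_pow_of_le_one (hd0 z) (hd1 z) (le_max_left _ _))
        (pow_nonneg (hd0 z) _) hc.le
    · refine le_trans ?_ (h' z hz)
      exact mul_le_mul (min_le_right _ _) (pow_le_pow_of_le_one (hd0 z) (hd1 z) (le_max_right _ _))
        (pow_nonneg (hd0 z) _) hc'.le
  · intro x hx
    obtain ⟨n, g, hg, hgx, hfg⟩ := (hf x hx).exists_eventuallyEq_pow_smul_nonzero_iff.2 (hne x hx)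
    have hpos : 0 < ‖g x‖ := norm_pos_iff.2 hgx
    have h1 : ∀ᶠ z in 𝓝 x, ‖g x‖ / 2 < ‖g z‖ :=
      hg.continuousAt.norm.eventually (lt_mem_nhds (by linarith))
    refine ⟨{z | f z = (z - x) ^ n • g z ∧ ‖g x‖ / 2 < ‖g z‖},
      mem_nhdsWithin_of_mem_nhds (hfg.and h1), ‖g x‖ / 2, n, by linarith, ?_⟩
    rintro z ⟨e, hz'⟩
    rw [e, smul_eq_mul, norm_mul, norm_pow, mul_comm]
    refine mul_le_mul ?_ hz'.le (by linarith) (by positivity)
    rcases Nat.eq_zero_or_pos n with rfl | hn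
    · simp
    · have : f x = 0 := by
        rw [hfg.self_of_nhds]; simp [hn.ne']
      exact pow_le_pow_left₀ (hd0 z) (hz x hx this z) n

/-- in the fundamental domain the imaginary part is at least `√3 / 2` -/
theorem im_sq_ge {τ : ℂ} (h1 : |τ.re| ≤ 1 / 2) (h2 : 1 ≤ ‖τ‖) : 3 / 4 ≤ τ.im ^ 2 := by
  have h3 : 1 ≤ τ.re ^ 2 + τ.im ^ 2 := by
    have : 1 ≤ ‖τ‖ ^ 2 := one_le_pow₀ h2
    rw [Complex.sq_norm, Complex.normSq_apply] at this
    nlinarith
  have h4 : τ.re ^ 2 ≤ 1 / 4 := by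
    have := abs_le.1 h1
    nlinarith [this.1, this.2]
  linarith

/-- the zeros of `g₂` in the fundamental domain -/
theorem zero_g2 (hO : S_Omega) {τ : ℂ} (h0 : 0 < τ.im) (h1 : |τ.re| ≤ 1 / 2) (h2 : 1 ≤ ‖τ‖)
    (hz : g2 τ = 0) : τ = om ∨ τ = om + 1 := by
  obtain ⟨L, hL⟩ := exists_lat_tau h0.ne'
  have hh : Hom L L om := (hO L).1 (by rw [g2_eq h0.ne' hL, hz])
  obtain ⟨a, b, e⟩ := (hL _).1 (hh 1 hL.right)
  rw [mul_one, mul_one] at e
  have him : (a : ℝ) * τ.im = Real.sqrt 3 / 2 := by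
    have := congrArg Complex.im e
    rw [om_im] at this
    simpa using this.symm
  have hre : (a : ℝ) * τ.re + b = -(1 / 2) := by
    have := congrArg Complex.re e
    rw [om_re] at this
    simpa using this.symm
  have hs : Real.sqrt 3 ^ 2 = 3 := Real.sq_sqrt (by norm_num)
  have hs0 : 0 < Real.sqrt 3 := Real.sqrt_pos.2 (by norm_num)
  have h3 := im_sq_ge h1 h2
  have ha0 : (0 : ℝ) < a := by
    by_contra h
    push Not at h
    nlinarith
  have ha1 : (a : ℝ) ^ 2 * τ.im ^ 2 = 3 / 4 := by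
    rw [← mul_pow, him]; nlinarith
  have ha2 : (a : ℝ) ^ 2 ≤ 1 := by nlinarith [sq_nonneg (a : ℝ)]
  have ha : a = 1 := by
    have h5 : 0 < a := by exact_mod_cast ha0
    have h6 : a ^ 2 ≤ 1 := by exact_mod_cast ha2
    nlinarith
  subst ha
  have hb := abs_le.1 h1
  have hb1 : (-1 : ℝ) ≤ b := by push_cast at hre; linarith [hb.2]
  have hb2 : (b : ℝ) ≤ 0 := by push_cast at hre; linarith [hb.1]
  have hb3 : -1 ≤ b := by exact_mod_cast hb1
  have hb4 : b ≤ 0 := by exact_mod_cast hb2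
  obtain rfl | rfl : b = 0 ∨ b = -1 := by omega
  · left; rw [e]; simp
  · right; rw [e]; simp

theorem analytic_of_holo {f : ℍ → ℂ} (hf : MDifferentiable 𝓘(ℂ) 𝓘(ℂ) f) :
    AnalyticOnNhd ℂ (f ∘ ofComplex) {z : ℂ | 0 < z.im} :=
  (UpperHalfPlane.mdifferentiable_iff.1 hf).analyticOnNhd isOpen_upperHalfPlaneSet

/-- `E₄` is at least `1/2` high up -/
theorem E4_high : ∃ A : ℝ, ∀ z : ℍ, A ≤ z.im → 1 / 2 ≤ ‖E₄ z‖ := by
  have h : ∀ᶠ z : ℍ in atImInfty, 1 / 2 < ‖E₄ z‖ :=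
    E4_tendsto.norm.eventually (lt_mem_nhds (by norm_num))
  obtain ⟨A, hA⟩ := (atImInfty_mem _).1 h
  exact ⟨A, fun z hz => (hA z hz).le⟩

/-- `Δ` decays like `q` -/
theorem Delta_high : ∃ A C : ℝ, ∀ z : ℍ, A ≤ z.im →
    Real.exp (2 * π * z.im) * ‖ModularForm.discriminant z‖ ≤ C := by
  have h := CuspFormClass.exp_decay_atImInfty (h := 1) CuspForm.discriminant one_pos
    one_mem_strictPeriods_SL
  obtain ⟨C, hC⟩ := Asymptotics.isBigO_iff.1 h
  obtain ⟨A, hA⟩ := (atImInfty_mem _).1 hC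
  refine ⟨A, C, fun z hz => ?_⟩
  have h1 : ‖ModularForm.discriminant z‖ ≤ C * ‖Real.exp (-2 * π * z.im / 1)‖ := hA z hz
  rw [Real.norm_eq_abs, abs_of_pos (Real.exp_pos _)] at h1
  calc Real.exp (2 * π * z.im) * ‖ModularForm.discriminant z‖
      ≤ Real.exp (2 * π * z.im) * (C * Real.exp (-2 * π * z.im / 1)) :=
        mul_le_mul_of_nonneg_left h1 (Real.exp_pos _).le
    _ = C := by
        rw [mul_left_comm, ← Real.exp_add]
        have : 2 * π * z.im + -2 * π * z.im / 1 = 0 := by ring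
        rw [this, Real.exp_zero, mul_one]

theorem E4_ne (x : ℂ) (hx : 0 < x.im) : ¬ ∀ᶠ z in 𝓝 x, ((fun z : ℍ => E₄ z) ∘ ofComplex) z = 0 := by
  intro h
  have ha : AnalyticOnNhd ℂ ((fun z : ℍ => E₄ z) ∘ ofComplex) {z : ℂ | 0 < z.im} :=
    analytic_of_holo (ModularFormClass.holo E₄)
  have hc : IsPreconnected {z : ℂ | 0 < z.im} := (convex_halfSpace_im_gt 0).isPreconnected
  have h0 := ha.eqOn_zero_of_preconnected_of_eventuallyEq_zero hc hx h
  obtain ⟨A, hA⟩ := E4_high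
  have hpos : 0 < ((max A 1 : ℝ) * Complex.I : ℂ).im := by
    simp
  have h1 := hA ⟨_, hpos⟩ (by simp)
  have h2 := h0 hpos
  simp only [Function.comp, Pi.zero_apply] at h2
  rw [ofComplex_apply_of_im_pos hpos] at h2
  rw [h2] at h1
  norm_num at h1

end Mod2

open Mod2

theorem jlow (hO : S_Omega) : S_Jlow := by
  obtain ⟨A1, hA1⟩ := E4_high
  obtain ⟨A2, C, hC⟩ := Delta_high
  set A := max A1 A2 with hA
  set S : Set ℂ := {z | |z.re| ≤ 1 / 2 ∧ 1 ≤ ‖z‖ ∧ 0 ≤ z.im ∧ z.im ≤ A} with hSdef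
  have hS : IsCompact S := by
    refine Metric.isCompact_of_isClosed_isBounded ?_ ?_
    · exact (isClosed_le Complex.continuous_re.abs continuous_const).inter
        ((isClosed_le continuous_const continuous_norm).inter
          ((isClosed_le continuous_const Complex.continuous_im).inter
            (isClosed_le Complex.continuous_im continuous_const)))
    · refine (Metric.isBounded_closedBall (x := (0 : ℂ)) (r := 1 / 2 + A)).subset ?_
      rintro z ⟨h1, -, h3, h4⟩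
      rw [mem_closedBall_zero_iff]
      refine (Complex.norm_le_abs_re_add_abs_im z).trans ?_
      rw [abs_of_nonneg h3]
      linarith
  have hpos : ∀ z ∈ S, 0 < z.im := by
    rintro z ⟨h1, h2, h3, -⟩
    have := im_sq_ge h1 h2
    refine lt_of_le_of_ne h3 fun h => ?_
    rw [← h] at this
    norm_num at this
  set d : ℂ → ℝ := fun τ => min 1 (min ‖τ - om‖ ‖τ - om - 1‖) with hd
  have hd0 : ∀ z, 0 ≤ d z := fun z => le_min one_pos.le (le_min (norm_nonneg _) (norm_nonneg _))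
  have hd1 : ∀ z, d z ≤ 1 := fun z => min_le_left _ _
  have hπ : (π : ℂ) ≠ 0 := by exact_mod_cast Real.pi_ne_zero
  obtain ⟨c, m, hc, hlow⟩ := lower_compact (f := (fun z : ℍ => E₄ z) ∘ ofComplex) hS hd0 hd1
    (fun x hx => analytic_of_holo (ModularFormClass.holo E₄) x (hpos x hx))
    (fun x hx => E4_ne x (hpos x hx)) (by
      intro x hx h0 z
      simp only [Function.comp] at h0
      rw [ofComplex_apply_of_im_pos (hpos x hx)] at h0
      have h1 : g2 x = 0 := by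
        have := g2_eq_E4 ⟨x, hpos x hx⟩
        rw [h0, mul_zero] at this
        exact this
      rcases zero_g2 hO (hpos x hx) hx.1 hx.2.1 h1 with rfl | rfl
      · exact (min_le_right _ _).trans (min_le_left _ _)
      · rw [← sub_sub]
        exact (min_le_right _ _).trans (min_le_right _ _))
  have hcont : ContinuousOn (ModularForm.discriminant ∘ ofComplex) S :=
    (analytic_of_holo (CuspFormClass.holo CuspForm.discriminant)).continuousOn.mono hpos
  obtain ⟨B, hB⟩ := hS.exists_bound_of_continuousOn hcont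
  -- a uniform bound for `e^{2π Im} |Δ|`, and a uniform lower bound for `E₄`
  have key : ∃ M c' : ℝ, 0 < M ∧ 0 < c' ∧ ∀ z : ℍ, |(z : ℂ).re| ≤ 1 / 2 → 1 ≤ ‖(z : ℂ)‖ →
      Real.exp (2 * π * z.im) * ‖ModularForm.discriminant z‖ ≤ M ∧ c' * d z ^ m ≤ ‖E₄ z‖ := by
    refine ⟨max 1 (max C (Real.exp (2 * π * A) * B)), min c (1 / 2),
      lt_of_lt_of_le one_pos (le_max_left _ _), lt_min hc (by norm_num), fun z h1 h2 => ?_⟩
    rcases le_total z.im A with h | h
    · have hz : (z : ℂ) ∈ S := ⟨h1, h2, z.im_pos.le, h⟩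
      have e1 := hB _ hz
      have e2 := hlow _ hz
      simp only [Function.comp, ofComplex_apply] at e1 e2
      refine ⟨le_trans ?_ ((le_max_right _ _).trans (le_max_right _ _)), le_trans ?_ e2⟩
      · refine mul_le_mul (Real.exp_le_exp.2 ?_) e1 (norm_nonneg _) (Real.exp_pos _).le
        exact mul_le_mul_of_nonneg_left h (by positivity)
      · exact mul_le_mul_of_nonneg_right (min_le_left _ _) (pow_nonneg (hd0 _) _)
    · refine ⟨(hC z ((le_max_right _ _).trans h)).trans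
        ((le_max_left _ _).trans (le_max_right _ _)), ?_⟩
      refine le_trans ?_ (hA1 z ((le_max_left _ _).trans h))
      calc min c (1 / 2) * d z ^ m ≤ 1 / 2 * 1 :=
            mul_le_mul (min_le_right _ _) (pow_le_one₀ (hd0 _) (hd1 _)) (pow_nonneg (hd0 _) _)
              (by norm_num)
        _ = 1 / 2 := by norm_num
  obtain ⟨M, c', hM, hc', key⟩ := key
  refine ⟨M / c' ^ 3, 3 * m, by positivity, fun τ h0 h1 h2 => ?_⟩
  obtain ⟨k1, k2⟩ := key ⟨τ, h0⟩ h1 h2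
  have hJ := J_eq_E4 ⟨τ, h0⟩
  have hΔ : 0 < ‖ModularForm.discriminant ⟨τ, h0⟩‖ := norm_pos_iff.2 (discriminant_ne_zero _)
  change J τ = _ at hJ
  change Real.exp (2 * π * τ.im) * _ ≤ M at k1
  change c' * d τ ^ m ≤ _ at k2
  change Real.exp (2 * π * τ.im) * d τ ^ (3 * m) ≤ _
  rw [hJ, norm_div, norm_pow, div_mul_div_comm, le_div_iff₀ (by positivity)]
  have k3 : (c' * d τ ^ m) ^ 3 ≤ ‖E₄ ⟨τ, h0⟩‖ ^ 3 :=
    pow_le_pow_left₀ (mul_nonneg hc'.le (pow_nonneg (hd0 _) _)) k2 3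
  calc Real.exp (2 * π * τ.im) * d τ ^ (3 * m) * (c' ^ 3 * ‖ModularForm.discriminant ⟨τ, h0⟩‖)
      = (Real.exp (2 * π * τ.im) * ‖ModularForm.discriminant ⟨τ, h0⟩‖) * (c' * d τ ^ m) ^ 3 := by
        ring
    _ ≤ M * ‖E₄ ⟨τ, h0⟩‖ ^ 3 :=
        mul_le_mul k1 k3 (pow_nonneg (mul_nonneg hc'.le (pow_nonneg (hd0 _) _)) _) hM.le

end Pool.Agent.P.MP_94fe55_nt
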