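import Pool.Agent.P.MP_94fe55_nt.Val

set_option autoImplicit false

namespace Pool.Agent.P.MP_94fe55_nt

open Polynomial WeierstrassCurve
open scoped NNReal

namespace ModelP

variable {p : ℕ} {V : Place p}

theorem prod_small (s : Multiset ℂ) (r : ℝ≥0) (h : ∀ b ∈ s, r < V.v b ^ s.card) (hs : s ≠ 0) :
    r < V.v s.prod := by
  obtain ⟨b, hb, hmin⟩ := Multiset.exists_min_image (fun b => V.v b) hs
  refine (h b hb).trans_le ?_
  rw [map_multiset_prod]
  have := Multiset.pow_card_le_prod (s := s.map V.v) (a := V.v b) (by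
    intro x hx
    obtain ⟨c, hc, rfl⟩ := Multiset.mem_map.1 hx
    exact hmin c hc)
  rwa [Multiset.card_map] at this

/-- a monic polynomial has a root that is small compared with the constant term -/
theorem exists_root (G : ℂ[X]) (hm : G.Monic) {n : ℕ} (hn : G.natDegree = n) (h0 : n ≠ 0) :
    ∃ b, G.eval b = 0 ∧ V.v b ^ n ≤ V.v (G.eval 0) := by
  have hs : G.Splits := IsAlgClosed.splits G
  have hc : G.roots.card = n := by rw [← hn]; exact hs.natDegree_eq_card_roots.symm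
  by_contra hcon
  push Not at hcon
  have h1 := prod_small (V := V) G.roots (V.v (G.eval 0)) (fun b hb => by
    rw [hc]; exact hcon b (isRoot_of_mem_roots hb)) (fun e => h0 (by rw [← hc, e]; rfl))
  have h2 := hs.coeff_zero_eq_prod_roots_of_monic hm
  rw [coeff_zero_eq_eval_zero] at h2
  rw [h2, map_mul, map_pow, V.v.map_neg, map_one, one_pow, one_mul] at h1
  exact lt_irrefl _ h1

theorem sqrt3_sq : ((Real.sqrt 3 : ℝ) : ℂ) ^ 2 = 3 := by
  rw [← Complex.ofReal_pow, Real.sq_sqrt (by norm_num)]; norm_num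

theorem lt_one_of_pow {a b : ℝ≥0} {n : ℕ} (h : a ^ n ≤ b) (hb : b < 1) : a < 1 := by
  by_contra e
  exact absurd ((one_le_pow₀ (not_lt.1 e)).trans h) (not_le.2 hb)

theorem deuring (hp : p.Prime) (h3 : p ≠ 3) (a : ℂ) (ha : V.v a < 1) :
    V.Good ⟨a, 0, 1, 0, 0⟩ := by
  refine ⟨ha.le, by simp, by simp, by simp, by simp, ?_⟩
  have e : (⟨a, 0, 1, 0, 0⟩ : WeierstrassCurve ℂ).Δ = -(((27 : ℕ) : ℂ) - a ^ 3) := by
    simp only [Δ, b₂, b₄, b₆, b₈]; push_cast; ring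
  have h27 : V.v ((27 : ℕ) : ℂ) = 1 := V.v_nat_eq_one hp fun e =>
    h3 ((Nat.prime_dvd_prime_iff_eq hp Nat.prime_three).1
      (hp.dvd_of_dvd_pow (show p ∣ 3 ^ 3 from e)))
  rw [e, V.v.map_neg, V.v.map_sub_eq_of_lt_left, h27]
  rw [h27, map_pow]
  exact pow_lt_one₀ zero_le ha (by norm_num)

theorem mont {V : Place 3} (a : ℂ) (ha : V.v a < 1) : V.Good ⟨0, a, 0, 1, 0⟩ := by
  refine ⟨by simp, ha.le, by simp, by simp, by simp, ?_⟩
  have e : (⟨0, a, 0, 1, 0⟩ : WeierstrassCurve ℂ).Δ = -(((64 : ℕ) : ℂ) - 16 * a ^ 2) := by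
    simp only [Δ, b₂, b₄, b₆, b₈]; push_cast; ring
  have h64 : V.v ((64 : ℕ) : ℂ) = 1 := V.v_nat_eq_one Nat.prime_three (by norm_num)
  rw [e, V.v.map_neg, V.v.map_sub_eq_of_lt_left, h64]
  rw [h64]
  refine (Place.le_mul (V.v_ofNat_le 16) le_rfl).trans_lt ?_
  rw [map_pow]
  exact pow_lt_one₀ zero_le ha (by norm_num)

theorem v_sqrt3 (V : Place 3) : V.v ((Real.sqrt 3 : ℝ) : ℂ) < 1 := by
  refine lt_one_of_pow (n := 2) (b := V.v ((3 : ℕ) : ℂ)) ?_ (V.v_p_lt Nat.prime_three)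
  rw [← map_pow, sqrt3_sq]; simp

end ModelP

open ModelP in
theorem model : S_Model := by
  intro p V hp
  by_cases h3 : p = 3
  · subst h3
    have hW : W0 3 = ⟨0, (Real.sqrt 3 : ℝ), 0, 1, 0⟩ := by simp [W0]
    rw [hW]
    refine ⟨mont _ (v_sqrt3 V), ?_, fun y hy => ?_⟩
    · simp only [c₄, b₂, b₄]
      linear_combination 16 * sqrt3_sq
    set s : ℂ := ((Real.sqrt 3 : ℝ) : ℂ) with hs
    have s2 : s ^ 2 = 3 := sqrt3_sq
    obtain ⟨b, hb, hv⟩ := exists_root (V := V)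
      (X ^ 3 * (X + C (2 * s)) ^ 3 - C (y / 256) * ((X + C s) ^ 2 - 4)) (by monicity!) (n := 6)
      (by compute_degree!) (by norm_num)
    simp only [eval_sub, eval_add, eval_mul, eval_pow, eval_X, eval_C, eval_ofNat] at hb hv
    have h256 : V.v ((256 : ℕ) : ℂ) = 1 := V.v_nat_eq_one Nat.prime_three (by norm_num)
    have e : (0 : ℂ) ^ 3 * (0 + 2 * s) ^ 3 - y / 256 * ((0 + s) ^ 2 - 4) = y / ((256 : ℕ) : ℂ) := by
      push_cast; linear_combination (-y / 256) * s2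
    rw [e, map_div₀, h256, div_one] at hv
    have hb1 := lt_one_of_pow hv hy
    have ha : V.v (s + b) < 1 := V.v.map_add_lt (v_sqrt3 V) hb1
    have hg := mont (s + b) ha
    refine ⟨⟨0, s + b, 0, 1, 0⟩, V.v b, hg, ?_, by simp [Place.Close], ?_⟩
    · rw [jW, div_eq_iff hg.Δ_ne]
      simp only [Δ, c₄, b₂, b₄, b₆, b₈]
      linear_combination 4096 * hb + (4096 * ((s ^ 2 - 3) ^ 2 + 3 * (s ^ 2 - 3) * (2 * s * b + b ^ 2) +
        3 * (2 * s * b + b ^ 2) ^ 2)) * s2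
    · refine le_trans ?_ hv
      exact pow_le_pow_of_le_one zero_le hb1.le (by norm_num)
  · have hW : W0 p = ⟨0, 0, 1, 0, 0⟩ := by simp [W0, h3]
    rw [hW]
    refine ⟨deuring hp h3 0 (by simp), by simp [c₄, b₂, b₄], fun y hy => ?_⟩
    obtain ⟨a, ha, hv⟩ := exists_root (V := V)
      (X ^ 3 * (X ^ 3 - 24) ^ 3 - C y * (X ^ 3 - 27)) (by monicity!) (n := 12)
      (by compute_degree!) (by norm_num)
    simp only [eval_sub, eval_mul, eval_pow, eval_X, eval_C, eval_ofNat] at ha hv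
    have e : (0 : ℂ) ^ 3 * (0 ^ 3 - 24) ^ 3 - y * (0 ^ 3 - 27) = 27 * y := by ring
    rw [e] at hv
    have hv' := hv.trans (Place.le_mul (V.v_ofNat_le 27) le_rfl)
    have hg := deuring hp h3 a (lt_one_of_pow hv' hy)
    refine ⟨⟨a, 0, 1, 0, 0⟩, V.v a, hg, ?_, by simp [Place.Close], hv'⟩
    rw [jW, div_eq_iff hg.Δ_ne]
    simp only [Δ, c₄, b₂, b₄, b₆, b₈]
    linear_combination ha

end Pool.Agent.P.MP_94fe55_nt
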