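import Pool.Agent.P.MP_94fe55_nt.Lat

set_option autoImplicit false

namespace Pool.Agent.P.MP_94fe55_nt

namespace NearP

theorem tau_re (D : ℕ) (a β : ℤ) :
    (tau D a β).re = ((2 * β + ((D % 2 : ℕ) : ℤ) : ℤ) : ℝ) / (2 * a) := by
  have : (tau D a β) = (β + th D) / ((a : ℝ) : ℂ) := by simp [tau]
  rw [this, Complex.div_ofReal_re, Complex.add_re, th_re]
  simp only [Complex.intCast_re, Int.cast_add, Int.cast_mul, Int.cast_ofNat, Int.cast_natCast]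
  by_cases h : (a : ℝ) = 0
  · simp [h]
  · field_simp

theorem tau_im (D : ℕ) (a β : ℤ) : (tau D a β).im = Real.sqrt D / (2 * a) := by
  have : (tau D a β) = (β + th D) / ((a : ℝ) : ℂ) := by simp [tau]
  rw [this, Complex.div_ofReal_im, Complex.add_im, th_im]
  simp only [Complex.intCast_im, zero_add]
  by_cases h : (a : ℝ) = 0
  · simp [h]
  · field_simp

/-- the integer data attached to a reduced form -/
theorem data {D : ℕ} {a β : ℤ} (hD : Disc D) (hF : Form D a β) (hR : Reduced D a β) :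
    0 < a ∧ |2 * β + ((D % 2 : ℕ) : ℤ)| ≤ a ∧ a ≤ gg D β / a ∧
      4 * a * (gg D β / a) - (2 * β + ((D % 2 : ℕ) : ℤ)) ^ 2 = D := by
  obtain ⟨ha, c, hc⟩ := hF
  have e : gg D β / a = c := by rw [hc, Int.mul_ediv_cancel_left _ ha.ne']
  refine ⟨ha, hR.1, ?_, ?_⟩
  · rw [e]
    have := hR.2
    rw [hc] at this
    nlinarith
  · rw [e]
    have := four_gg hD β
    rw [hc] at this
    linarith

theorem three_sq_le {D : ℕ} {a b c : ℤ} (ha : 0 < a) (hb : |b| ≤ a) (hc : a ≤ c)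
    (h : 4 * a * c - b ^ 2 = D) : 3 * a ^ 2 ≤ (D : ℤ) := by
  have : b ^ 2 ≤ a ^ 2 := sq_le_sq' (by linarith [neg_abs_le b]) (le_of_abs_le hb)
  nlinarith

theorem sqrt3_sq : Real.sqrt 3 ^ 2 = 3 := Real.sq_sqrt (by norm_num)

theorem one_le_sqrt3 : 1 ≤ Real.sqrt 3 := by
  rw [Real.one_le_sqrt]; norm_num

theorem sqrt3_le {D : ℕ} {a : ℤ} (h : 3 * a ^ 2 ≤ (D : ℤ)) :
    Real.sqrt 3 * a ≤ Real.sqrt D := by
  apply Real.le_sqrt_of_sq_le
  have : (3 : ℝ) * (a : ℝ) ^ 2 ≤ D := by exact_mod_cast h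
  rw [mul_pow, sqrt3_sq]; exact this

/-- lower bound for the distance to a corner -/
theorem dist_low {D : ℕ} {a b c : ℤ} (ha : 0 < a) (hb : |b| ≤ a) (hc : a ≤ c)
    (h : 4 * a * c - b ^ 2 = D) {z : ℂ} (hre : |z.re| = |((a : ℝ) - b) / (2 * a)|)
    (him : z.im = Real.sqrt D / (2 * a) - Real.sqrt 3 / 2) (hz : z ≠ 0) :
    (1 / 2) / Real.sqrt D ≤ ‖z‖ := by
  have h3 := three_sq_le ha hb hc h
  have hs := sqrt3_le h3
  have ha' : (1 : ℝ) ≤ a := by exact_mod_cast ha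
  have h1 := one_le_sqrt3
  have haX : (a : ℝ) ≤ Real.sqrt D := by nlinarith
  have hX : 0 < Real.sqrt D := by linarith
  have hX2 : Real.sqrt D ^ 2 = D := Real.sq_sqrt (Nat.cast_nonneg D)
  by_cases hab : a = b
  · subst hab
    by_cases hac : a = c
    · subst hac
      exfalso
      apply hz
      have e : (D : ℝ) = 3 * (a : ℝ) ^ 2 := by
        have : (D : ℤ) = 3 * a ^ 2 := by linarith
        exact_mod_cast this
      have e2 : Real.sqrt D = Real.sqrt 3 * a := by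
        rw [e, Real.sqrt_mul (by norm_num), Real.sqrt_sq (by linarith)]
      apply Complex.ext
      · simpa using hre
      · rw [him, e2]; simp; field_simp; ring
    · have hc' : a + 1 ≤ c := by omega
      have e : 4 * a ≤ (D : ℤ) - 3 * a ^ 2 := by nlinarith
      have e' : 4 * (a : ℝ) ≤ D - 3 * (a : ℝ) ^ 2 := by exact_mod_cast e
      refine le_trans ?_ ((le_abs_self _).trans (Complex.abs_im_le_norm z))
      rw [him, div_le_iff₀ hX]
      have e3 : (Real.sqrt D - Real.sqrt 3 * a) * (Real.sqrt D + Real.sqrt 3 * a) =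
          D - 3 * (a : ℝ) ^ 2 := by
        have := sqrt3_sq
        linear_combination hX2 - (a : ℝ) ^ 2 * this
      have e4 : 2 * (a : ℝ) ≤ (Real.sqrt D - Real.sqrt 3 * a) * Real.sqrt D := by nlinarith
      have e5 : (Real.sqrt D / (2 * a) - Real.sqrt 3 / 2) * Real.sqrt D =
          (Real.sqrt D - Real.sqrt 3 * a) * Real.sqrt D / (2 * a) := by
        field_simp
      rw [e5, le_div_iff₀ (by linarith)]
      linarith
  · have hb' : b + 1 ≤ a := by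
      have := le_of_abs_le hb
      omega
    have hb'' : (b : ℝ) + 1 ≤ a := by exact_mod_cast hb'
    refine le_trans ?_ (Complex.abs_re_le_norm z)
    rw [hre]
    refine le_trans ?_ (le_abs_self _)
    rw [div_le_div_iff₀ hX (by linarith)]
    nlinarith

theorem sub_om_re (D : ℕ) {a : ℤ} (β : ℤ) (ha : 0 < a) :
    |(tau D a β - om).re| =
      |((a : ℝ) - ((-(2 * β + ((D % 2 : ℕ) : ℤ)) : ℤ) : ℝ)) / (2 * a)| := by
  have ha' : (0 : ℝ) < a := by exact_mod_cast ha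
  rw [Complex.sub_re, tau_re, om_re]
  congr 1
  rw [Int.cast_neg]
  field_simp
  ring

theorem sub_om_re' (D : ℕ) {a : ℤ} (β : ℤ) (ha : 0 < a) :
    |(tau D a β - om - 1).re| =
      |((a : ℝ) - ((2 * β + ((D % 2 : ℕ) : ℤ) : ℤ) : ℝ)) / (2 * a)| := by
  have ha' : (0 : ℝ) < a := by exact_mod_cast ha
  rw [Complex.sub_re, Complex.sub_re, tau_re, om_re, ← abs_neg]
  congr 1
  simp only [Complex.one_re]
  field_simp
  ring

theorem sub_om_im (D : ℕ) (a β : ℤ) :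
    (tau D a β - om).im = Real.sqrt D / (2 * a) - Real.sqrt 3 / 2 := by
  rw [Complex.sub_im, tau_im, om_im]

theorem sub_om_im' (D : ℕ) (a β : ℤ) :
    (tau D a β - om - 1).im = Real.sqrt D / (2 * a) - Real.sqrt 3 / 2 := by
  rw [Complex.sub_im, sub_om_im]; simp

theorem part1 (D : ℕ) (a β : ℤ) (hD : Disc D) (hF : Form D a β) (hR : Reduced D a β)
    (h1 : tau D a β ≠ om) (h2 : tau D a β ≠ om + 1) :
    (1 / 2) / Real.sqrt D ≤ min ‖tau D a β - om‖ ‖tau D a β - om - 1‖ := by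
  obtain ⟨ha, hb, hc, h⟩ := data hD hF hR
  refine le_min ?_ ?_
  · exact dist_low (b := -(2 * β + ((D % 2 : ℕ) : ℤ))) ha (by rwa [abs_neg]) hc
      (by rw [neg_sq]; exact h) (sub_om_re D β ha) (sub_om_im D a β) (sub_ne_zero.2 h1)
  · exact dist_low ha hb hc h (sub_om_re' D β ha) (sub_om_im' D a β)
      (by rw [sub_sub]; exact sub_ne_zero.2 h2)

theorem reps_fin (g : ℤ) : {w : ℤ × ℤ | w.1 ^ 2 + 3 * w.2 ^ 2 = g}.Finite := by
  refine ((Finset.Icc (-|g|) |g| ×ˢ Finset.Icc (-|g|) |g|).finite_toSet).subset ?_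
  rintro ⟨u, v⟩ h
  simp only [Set.mem_ofPred_eq] at h
  have hu := Int.le_self_sq u
  have hu' := Int.le_self_sq (-u)
  have hv := Int.le_self_sq v
  have hv' := Int.le_self_sq (-v)
  rw [neg_sq] at hu' hv'
  have hg := le_abs_self g
  have := sq_nonneg u
  have := sq_nonneg v
  simp only [Finset.coe_product, Finset.coe_Icc, Set.mem_prod, Set.mem_Icc]
  refine ⟨⟨?_, ?_⟩, ?_, ?_⟩ <;> linarith

theorem reps_zero : reps 0 ≤ 1 := by
  unfold reps
  rw [Set.ncard_le_one_iff (reps_fin 0)]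
  rintro ⟨u, v⟩ ⟨u', v'⟩ h h'
  simp only [Set.mem_ofPred_eq] at h h'
  have e1 : u = 0 := by nlinarith [sq_nonneg u, sq_nonneg v]
  have e2 : v = 0 := by nlinarith [sq_nonneg u, sq_nonneg v]
  have e3 : u' = 0 := by nlinarith [sq_nonneg u', sq_nonneg v']
  have e4 : v' = 0 := by nlinarith [sq_nonneg u', sq_nonneg v']
  rw [e1, e2, e3, e4]

/-- size of `n` for a form near a corner -/
theorem n_range {D : ℕ} {a b c : ℤ} {η : ℝ} (hη : 0 ≤ η) (ha : 0 < a) (hb : |b| ≤ a) (hc : a ≤ c)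
    (h : 4 * a * c - b ^ 2 = D) (h1 : (a : ℝ) - b ≤ 2 * a * η)
    (h2 : Real.sqrt D - Real.sqrt 3 * a ≤ 2 * a * η) :
    (((2 * a + 2 * c - b) ^ 2 - 3 * D : ℤ) : ℝ) ≤ 36 * η ^ 2 * D ∧
    Real.sqrt 3 * Real.sqrt D ≤ ((2 * a + 2 * c - b : ℤ) : ℝ) ∧
    ((2 * a + 2 * c - b : ℤ) : ℝ) ≤ Real.sqrt 3 * Real.sqrt D + 36 * η ^ 2 * Real.sqrt D := by
  have h3 := three_sq_le ha hb hc h
  have hs := sqrt3_le h3
  have ha' : (1 : ℝ) ≤ a := by exact_mod_cast ha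
  have h13 := one_le_sqrt3
  have haX : (a : ℝ) ≤ Real.sqrt D := by nlinarith
  have hX : 0 < Real.sqrt D := by linarith
  have hX2 : Real.sqrt D ^ 2 = D := Real.sq_sqrt (Nat.cast_nonneg D)
  have hb1 : (b : ℝ) ≤ a := by exact_mod_cast le_of_abs_le hb
  have hb2 : -(a : ℝ) ≤ b := by
    have : -a ≤ b := by linarith [neg_abs_le b]
    exact_mod_cast this
  have hc' : (a : ℝ) ≤ c := by exact_mod_cast hc
  have h' : 4 * (a : ℝ) * c - (b : ℝ) ^ 2 = D := by exact_mod_cast h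
  have e3 : (Real.sqrt D - Real.sqrt 3 * a) * (Real.sqrt D + Real.sqrt 3 * a) =
      D - 3 * (a : ℝ) ^ 2 := by
    have := sqrt3_sq
    linear_combination hX2 - (a : ℝ) ^ 2 * this
  have e4 : D - 3 * (a : ℝ) ^ 2 ≤ (2 * a * η) * (2 * Real.sqrt D) := by
    rw [← e3]
    exact mul_le_mul h2 (by linarith) (by positivity) (by positivity)
  have e5 : (c : ℝ) - a ≤ η * Real.sqrt D := by
    have : 4 * (a : ℝ) * (c - a) ≤ 4 * a * (η * Real.sqrt D) := by nlinarith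
    exact le_of_mul_le_mul_left this (by linarith)
  have e6 : (a : ℝ) - b ≤ 2 * (η * Real.sqrt D) := by nlinarith
  have hy : 0 ≤ η * Real.sqrt D := by positivity
  have e7 : (2 * (a : ℝ) - b - c) ^ 2 ≤ (3 * (η * Real.sqrt D)) ^ 2 :=
    sq_le_sq' (by linarith) (by linarith)
  have e8 : ((b : ℝ) - c) ^ 2 ≤ (3 * (η * Real.sqrt D)) ^ 2 :=
    sq_le_sq' (by linarith) (by linarith)
  have e9 : (2 * (a : ℝ) + 2 * c - b) ^ 2 - 3 * D = (2 * (a : ℝ) - b - c) ^ 2 + 3 * ((b : ℝ) - c) ^ 2 := by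
    rw [← h']; ring
  have e10 : (2 * (a : ℝ) + 2 * c - b) ^ 2 - 3 * D ≤ 36 * η ^ 2 * D := by
    rw [e9, ← hX2]; nlinarith
  have hn0 : 0 ≤ 2 * (a : ℝ) + 2 * c - b := by linarith
  have e11 : (Real.sqrt 3 * Real.sqrt D) ^ 2 = 3 * D := by rw [mul_pow, sqrt3_sq, hX2]
  have e12 : Real.sqrt 3 * Real.sqrt D ≤ 2 * (a : ℝ) + 2 * c - b := by
    refine le_trans (le_abs_self _) (abs_le_of_sq_le_sq ?_ hn0)
    rw [e11]
    nlinarith [sq_nonneg (2 * (a : ℝ) - b - c), sq_nonneg ((b : ℝ) - c)]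
  push_cast
  refine ⟨e10, e12, ?_⟩
  have e13 : (2 * (a : ℝ) + 2 * c - b - Real.sqrt 3 * Real.sqrt D) * Real.sqrt D ≤
      36 * η ^ 2 * Real.sqrt D * Real.sqrt D := by
    have f1 : (2 * (a : ℝ) + 2 * c - b - Real.sqrt 3 * Real.sqrt D) * Real.sqrt D ≤
        (2 * (a : ℝ) + 2 * c - b - Real.sqrt 3 * Real.sqrt D) *
          (2 * (a : ℝ) + 2 * c - b + Real.sqrt 3 * Real.sqrt D) :=
      mul_le_mul_of_nonneg_left (by nlinarith) (by linarith)
    nlinarith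
  have := le_of_mul_le_mul_right e13 hX
  linarith

/-- counting triples near a corner -/
theorem count {K e : ℝ} (hK : 0 < K) (he : 0 < e) (he1 : e ≤ 1)
    (hR : ∀ g : ℤ, 0 < g → (reps g : ℝ) ≤ K * (g : ℝ) ^ e) {D : ℕ} (hD : 0 < D) {η : ℝ}
    (hη : 0 ≤ η) (hη1 : η ≤ 1) (T : Finset (ℤ × ℤ × ℤ))
    (hT : ∀ w ∈ T, 0 < w.1 ∧ |w.2.1| ≤ w.1 ∧ w.1 ≤ w.2.2 ∧ 4 * w.1 * w.2.2 - w.2.1 ^ 2 = D ∧
      (w.1 : ℝ) - w.2.1 ≤ 2 * w.1 * η ∧ Real.sqrt D - Real.sqrt 3 * w.1 ≤ 2 * w.1 * η) :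
    (T.card : ℝ) ≤ (36 * η ^ 2 * Real.sqrt D + 1) * ((36 * K + 1) * (D : ℝ) ^ e) := by
  classical
  set n : ℤ × ℤ × ℤ → ℤ := fun w => 2 * w.1 + 2 * w.2.2 - w.2.1 with hn
  set I : Finset ℤ := Finset.Icc ⌈Real.sqrt 3 * Real.sqrt D⌉
    ⌊Real.sqrt 3 * Real.sqrt D + 36 * η ^ 2 * Real.sqrt D⌋ with hI
  have hD1 : (1 : ℝ) ≤ D := by exact_mod_cast hD
  have hDe : (1 : ℝ) ≤ (D : ℝ) ^ e := Real.one_le_rpow hD1 he.le
  have hmap : ∀ w ∈ T, n w ∈ I := by
    intro w hw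
    obtain ⟨h1, h2, h3, h4, h5, h6⟩ := hT w hw
    obtain ⟨-, f2, f3⟩ := n_range hη h1 h2 h3 h4 h5 h6
    exact Finset.mem_Icc.2 ⟨Int.ceil_le.2 f2, Int.le_floor.2 f3⟩
  have hIc : (I.card : ℝ) ≤ 36 * η ^ 2 * Real.sqrt D + 1 := by
    rw [hI, Int.card_Icc]
    have h0 : 0 ≤ 36 * η ^ 2 * Real.sqrt D := by positivity
    have f1 := Int.le_ceil (Real.sqrt 3 * Real.sqrt D)
    have f2 := Int.floor_le (Real.sqrt 3 * Real.sqrt D + 36 * η ^ 2 * Real.sqrt D)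
    rcases le_total 0 (⌊Real.sqrt 3 * Real.sqrt D + 36 * η ^ 2 * Real.sqrt D⌋ + 1 -
      ⌈Real.sqrt 3 * Real.sqrt D⌉) with h | h
    · have : (((⌊Real.sqrt 3 * Real.sqrt D + 36 * η ^ 2 * Real.sqrt D⌋ + 1 -
        ⌈Real.sqrt 3 * Real.sqrt D⌉).toNat : ℤ) : ℝ) = ((⌊Real.sqrt 3 * Real.sqrt D +
          36 * η ^ 2 * Real.sqrt D⌋ + 1 - ⌈Real.sqrt 3 * Real.sqrt D⌉ : ℤ) : ℝ) := by
        rw [Int.toNat_of_nonneg h]
      rw [Int.cast_natCast] at this
      rw [this]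
      push_cast
      linarith
    · rw [Int.toNat_of_nonpos h]
      simp only [Nat.cast_zero]
      linarith
  have hfib : ∀ m ∈ I, ((T.filter (fun w => n w = m)).card : ℝ) ≤ (36 * K + 1) * (D : ℝ) ^ e := by
    intro m _
    rcases (T.filter (fun w => n w = m)).eq_empty_or_nonempty with h0 | ⟨w0, hw0⟩
    · rw [h0]; simp only [Finset.card_empty, Nat.cast_zero]; positivity
    have hle : (T.filter (fun w => n w = m)).card ≤ reps (m ^ 2 - 3 * D) := by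
      unfold reps
      rw [← Set.ncard_coe_finset]
      refine Set.ncard_le_ncard_of_injOn
        (fun w : ℤ × ℤ × ℤ => (2 * w.1 - w.2.1 - w.2.2, w.2.1 - w.2.2)) ?_ ?_ (reps_fin _)
      · intro w hw
        obtain ⟨hw1, hw2⟩ := Finset.mem_filter.1 hw
        obtain ⟨-, -, -, h4, -⟩ := hT w hw1
        simp only [Set.mem_ofPred_eq]
        rw [← hw2, ← h4, hn]
        ring
      · rintro ⟨a, b, c⟩ hw ⟨a', b', c'⟩ hw' e
        have e1 := (Finset.mem_filter.1 hw).2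
        have e2 := (Finset.mem_filter.1 hw').2
        simp only [hn, Prod.mk.injEq] at e1 e2 e ⊢
        omega
    obtain ⟨hw1, hw2⟩ := Finset.mem_filter.1 hw0
    obtain ⟨h1, h2, h3, h4, h5, h6⟩ := hT w0 hw1
    obtain ⟨f1, -, -⟩ := n_range hη h1 h2 h3 h4 h5 h6
    have hw2' : 2 * w0.1 + 2 * w0.2.2 - w0.2.1 = m := hw2
    rw [hw2'] at f1
    have hg0 : 0 ≤ m ^ 2 - 3 * D := by
      rw [← hw2', ← h4]
      nlinarith [sq_nonneg (2 * w0.1 - w0.2.1 - w0.2.2), sq_nonneg (w0.2.1 - w0.2.2)]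
    have hle' : ((T.filter (fun w => n w = m)).card : ℝ) ≤ reps (m ^ 2 - 3 * D) := by
      exact_mod_cast hle
    refine hle'.trans ?_
    rcases hg0.eq_or_lt with h | h
    · rw [← h]
      have : (reps 0 : ℝ) ≤ 1 := by exact_mod_cast reps_zero
      nlinarith
    · refine (hR _ h).trans ?_
      have g1 : ((m ^ 2 - 3 * D : ℤ) : ℝ) ≤ 36 * D := by
        have : η ^ 2 ≤ 1 := by nlinarith
        nlinarith
      have g0 : (0 : ℝ) ≤ ((m ^ 2 - 3 * D : ℤ) : ℝ) := by exact_mod_cast hg0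
      have g2 : ((m ^ 2 - 3 * D : ℤ) : ℝ) ^ e ≤ 36 * (D : ℝ) ^ e := by
        refine (Real.rpow_le_rpow g0 g1 he.le).trans ?_
        rw [Real.mul_rpow (by norm_num) (by linarith)]
        refine mul_le_mul_of_nonneg_right ?_ (by linarith)
        calc (36 : ℝ) ^ e ≤ 36 ^ (1 : ℝ) := Real.rpow_le_rpow_of_exponent_le (by norm_num) he1
          _ = 36 := Real.rpow_one _
      nlinarith
  rw [Finset.card_eq_sum_card_fiberwise hmap]
  push_cast
  refine (Finset.sum_le_sum hfib).trans ?_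
  rw [Finset.sum_const, nsmul_eq_mul]
  exact mul_le_mul_of_nonneg_right hIc (by positivity)

theorem near_bounds {D : ℕ} {a b : ℤ} (ha : 0 < a) {z : ℂ} {η : ℝ}
    (hre : |z.re| = |((a : ℝ) - b) / (2 * a)|)
    (him : z.im = Real.sqrt D / (2 * a) - Real.sqrt 3 / 2) (hz : ‖z‖ ≤ η) :
    (a : ℝ) - b ≤ 2 * a * η ∧ Real.sqrt D - Real.sqrt 3 * a ≤ 2 * a * η := by
  have ha' : (0 : ℝ) < a := by exact_mod_cast ha
  constructor
  · have h1 := (Complex.abs_re_le_norm z).trans hz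
    rw [hre] at h1
    have h2 := (le_abs_self _).trans h1
    rw [div_le_iff₀ (by linarith)] at h2
    linarith
  · have h1 := (le_abs_self _).trans ((Complex.abs_im_le_norm z).trans hz)
    rw [him] at h1
    have : Real.sqrt D / (2 * a) - Real.sqrt 3 / 2 = (Real.sqrt D - Real.sqrt 3 * a) / (2 * a) := by
      field_simp
    rw [this, div_le_iff₀ (by linarith)] at h1
    linarith

end NearP

open NearP in
theorem nearRho (hR : S_Reps) : S_NearRho := by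
  classical
  refine ⟨⟨1 / 2, by norm_num, part1⟩, fun ε hε => ?_⟩
  set e : ℝ := min ε (1 / 8) with he
  have he0 : 0 < e := lt_min hε (by norm_num)
  have he1 : e ≤ 1 / 8 := min_le_right _ _
  have he2 : e ≤ ε := min_le_left _ _
  obtain ⟨K, hK, hK'⟩ := hR e he0
  refine ⟨e, 74 * (36 * K + 1), he0, by positivity, fun D hD T hT => ?_⟩
  have hD1 : (1 : ℝ) ≤ D := by exact_mod_cast hD.1
  have hD0 : (0 : ℝ) < D := by linarith
  set η : ℝ := (D : ℝ) ^ (-e) with hη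
  have hη0 : 0 ≤ η := by positivity
  have hη1 : η ≤ 1 := Real.rpow_le_one_of_one_le_of_nonpos hD1 (by linarith)
  have hηε : (D : ℝ) ^ (-ε) ≤ η := Real.rpow_le_rpow_of_exponent_le hD1 (by linarith)
  set T1 := T.filter (fun w => ‖tau D w.1 w.2 - om‖ ≤ η) with hT1
  set T2 := T.filter (fun w => ‖tau D w.1 w.2 - om - 1‖ ≤ η) with hT2
  have hsub : T ⊆ T1 ∪ T2 := by
    intro w hw
    have := (hT w hw).2.2.trans hηε
    rw [Finset.mem_union, hT1, hT2, Finset.mem_filter, Finset.mem_filter]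
    rcases min_le_iff.1 this with h | h
    · exact Or.inl ⟨hw, h⟩
    · exact Or.inr ⟨hw, h⟩
  have c1 : (T1.card : ℝ) ≤ (36 * η ^ 2 * Real.sqrt D + 1) * ((36 * K + 1) * (D : ℝ) ^ e) := by
    rw [← Finset.card_image_of_injective T1 (f := fun w : ℤ × ℤ =>
      (w.1, -(2 * w.2 + ((D % 2 : ℕ) : ℤ)), gg D w.2 / w.1))]
    · refine count hK he0 (by linarith) hK' hD.1 hη0 hη1 _ ?_
      intro w' hw'
      obtain ⟨w, hw, rfl⟩ := Finset.mem_image.1 hw'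
      obtain ⟨hw1, hw2⟩ := Finset.mem_filter.1 hw
      obtain ⟨ha, hb, hc, h⟩ := data hD (hT w hw1).1 (hT w hw1).2.1
      exact ⟨ha, by simpa only [abs_neg] using hb, hc, by simpa only [neg_sq] using h,
        near_bounds ha (sub_om_re D w.2 ha) (sub_om_im D w.1 w.2) hw2⟩
    · rintro ⟨a, b⟩ ⟨a', b'⟩ e
      simp only [Prod.mk.injEq] at e ⊢
      omega
  have c2 : (T2.card : ℝ) ≤ (36 * η ^ 2 * Real.sqrt D + 1) * ((36 * K + 1) * (D : ℝ) ^ e) := by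
    rw [← Finset.card_image_of_injective T2 (f := fun w : ℤ × ℤ =>
      (w.1, 2 * w.2 + ((D % 2 : ℕ) : ℤ), gg D w.2 / w.1))]
    · refine count hK he0 (by linarith) hK' hD.1 hη0 hη1 _ ?_
      intro w' hw'
      obtain ⟨w, hw, rfl⟩ := Finset.mem_image.1 hw'
      obtain ⟨hw1, hw2⟩ := Finset.mem_filter.1 hw
      obtain ⟨ha, hb, hc, h⟩ := data hD (hT w hw1).1 (hT w hw1).2.1
      exact ⟨ha, hb, hc, h, near_bounds ha (sub_om_re' D w.2 ha) (sub_om_im' D w.1 w.2) hw2⟩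
    · rintro ⟨a, b⟩ ⟨a', b'⟩ e
      simp only [Prod.mk.injEq] at e ⊢
      omega
  have c3 : (T.card : ℝ) ≤ T1.card + T2.card := by
    exact_mod_cast (Finset.card_le_card hsub).trans (Finset.card_union_le _ _)
  have p1 : η ^ 2 * Real.sqrt D = (D : ℝ) ^ (1 / 2 - 2 * e) := by
    rw [hη, Real.sqrt_eq_rpow, ← Real.rpow_natCast, ← Real.rpow_mul hD0.le, ← Real.rpow_add hD0]
    congr 1; push_cast; ring
  have p2 : (1 : ℝ) ≤ (D : ℝ) ^ (1 / 2 - 2 * e) := Real.one_le_rpow hD1 (by linarith)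
  have p3 : (D : ℝ) ^ (1 / 2 - 2 * e) * (D : ℝ) ^ e = (D : ℝ) ^ (1 / 2 - e) := by
    rw [← Real.rpow_add hD0]; congr 1; ring
  have p4 : (36 * η ^ 2 * Real.sqrt D + 1) * ((36 * K + 1) * (D : ℝ) ^ e) ≤
      (37 * (D : ℝ) ^ (1 / 2 - 2 * e)) * ((36 * K + 1) * (D : ℝ) ^ e) := by
    refine mul_le_mul_of_nonneg_right ?_ (by positivity)
    rw [mul_assoc, p1]; linarith
  have p5 : (37 * (D : ℝ) ^ (1 / 2 - 2 * e)) * ((36 * K + 1) * (D : ℝ) ^ e) =
      37 * (36 * K + 1) * (D : ℝ) ^ (1 / 2 - e) := by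
    rw [← p3]; ring
  rw [p5] at p4
  linarith

end Pool.Agent.P.MP_94fe55_nt
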