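import Pool.Agent.P.MP_94fe55_nt.Defs

/-! The p-adic upper bound, from the counting statement. -/

set_option autoImplicit false

namespace Pool.Agent.P.MP_94fe55_nt

open Finset Filter
open scoped NNReal

namespace PadicP

theorem half_dvd {p h : ℕ} (hp : p.Prime) (_hh : 1 ≤ h) {a b : ℤ} (hab : (p : ℤ) ^ h ∣ a * b) :
    (p : ℤ) ^ ((h + 1) / 2) ∣ a ∨ (p : ℤ) ^ ((h + 1) / 2) ∣ b := by
  have := Fact.mk hp
  by_cases ha : a = 0
  · left; simp [ha]
  by_cases hb : b = 0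
  · right; simp [hb]
  rw [padicValInt_dvd_iff, padicValInt.mul ha hb] at hab
  rw [padicValInt_dvd_iff, padicValInt_dvd_iff]
  have := mul_ne_zero ha hb
  omega

theorem card_cong {q : ℤ} (hq : 0 < q) (N : ℝ) (hN : 0 ≤ N) (c : ℤ) (S : Finset ℤ)
    (h1 : ∀ x ∈ S, |(x : ℝ)| ≤ N) (h2 : ∀ x ∈ S, q ∣ x - c) : (S.card : ℝ) ≤ 2 * N / q + 1 := by
  rcases S.eq_empty_or_nonempty with rfl | hne
  · simp only [card_empty, Nat.cast_zero]; positivity
  obtain ⟨m, hm, hmin⟩ := S.exists_min_image id hne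
  have hq' : (0 : ℝ) < q := by exact_mod_cast hq
  have hd : ∀ x ∈ S, q ∣ x - m := fun x hx => by
    have := dvd_sub (h2 x hx) (h2 m hm)
    simpa using this
  have : S.card ≤ (range (⌊2 * N / q⌋₊ + 1)).card := by
    refine card_le_card_of_injOn (fun x => ((x - m) / q).toNat) ?_ ?_
    · intro x hx
      obtain ⟨u, hu⟩ := hd x hx
      have hx0 : 0 ≤ x - m := sub_nonneg.2 (hmin x hx)
      have hu0 : 0 ≤ u := by
        rw [hu] at hx0
        exact (mul_nonneg_iff_of_pos_left hq).1 hx0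
      simp only [coe_range, Set.mem_Iio]
      rw [hu, Int.mul_ediv_cancel_left _ hq.ne', Nat.lt_succ_iff]
      apply Nat.le_floor
      have e : ((u.toNat : ℕ) : ℝ) = (u : ℝ) := by exact_mod_cast Int.toNat_of_nonneg hu0
      rw [e, le_div_iff₀ hq']
      have e2 : (x : ℝ) - m = q * u := by exact_mod_cast hu
      have a1 := abs_le.1 (h1 x hx)
      have a2 := abs_le.1 (h1 m hm)
      linarith
    · intro x hx y hy e
      obtain ⟨u, hu⟩ := hd x hx
      obtain ⟨v, hv⟩ := hd y hy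
      have hx0 : 0 ≤ x - m := sub_nonneg.2 (hmin x hx)
      have hy0 : 0 ≤ y - m := sub_nonneg.2 (hmin y hy)
      have hu0 : 0 ≤ u := by
        rw [hu] at hx0
        exact (mul_nonneg_iff_of_pos_left hq).1 hx0
      have hv0 : 0 ≤ v := by
        rw [hv] at hy0
        exact (mul_nonneg_iff_of_pos_left hq).1 hy0
      simp only at e
      rw [hu, hv, Int.mul_ediv_cancel_left _ hq.ne', Int.mul_ediv_cancel_left _ hq.ne'] at e
      have : u = v := by omega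
      rw [this] at hu
      omega
  rw [card_range] at this
  have h3 : (S.card : ℝ) ≤ (⌊2 * N / q⌋₊ : ℝ) + 1 := by exact_mod_cast this
  have h4 := Nat.floor_le (show 0 ≤ 2 * N / q by positivity)
  linarith

theorem card_sol {p h : ℕ} (hp : p.Prime) (hh : 1 ≤ h) (N : ℝ) (hN : 0 ≤ N) (c : ℤ)
    (S : Finset ℤ) (h1 : ∀ x ∈ S, |(x : ℝ)| ≤ N) (h2 : ∀ x ∈ S, (p : ℤ) ^ h ∣ c - x ^ 2) :
    (S.card : ℝ) ≤ 2 * (2 * N / (p : ℝ) ^ ((h + 1) / 2) + 1) := by
  have hp0 : (0 : ℤ) < (p : ℤ) ^ ((h + 1) / 2) := by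
    have := hp.pos
    positivity
  rcases S.eq_empty_or_nonempty with rfl | ⟨x0, h0⟩
  · simp only [card_empty, Nat.cast_zero]; positivity
  have a1 := card_cong hp0 N hN x0 (S.filter (fun x => (p : ℤ) ^ ((h + 1) / 2) ∣ x - x0))
    (fun x hx => h1 x (mem_filter.1 hx).1) (fun x hx => (mem_filter.1 hx).2)
  have a2 := card_cong hp0 N hN (-x0) (S.filter (fun x => ¬ (p : ℤ) ^ ((h + 1) / 2) ∣ x - x0))
    (fun x hx => h1 x (mem_filter.1 hx).1) (fun x hx => by
      have := dvd_sub (h2 x0 h0) (h2 x (mem_filter.1 hx).1)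
      rw [show c - x0 ^ 2 - (c - x ^ 2) = (x - x0) * (x - -x0) by ring] at this
      exact (half_dvd hp hh this).resolve_left (mem_filter.1 hx).2)
  have a3 := card_filter_add_card_filter_not (s := S)
    (fun x => (p : ℤ) ^ ((h + 1) / 2) ∣ x - x0)
  have a4 : (S.card : ℝ) = ((S.filter (fun x => (p : ℤ) ^ ((h + 1) / 2) ∣ x - x0)).card : ℝ) +
      ((S.filter (fun x => ¬ (p : ℤ) ^ ((h + 1) / 2) ∣ x - x0)).card : ℝ) := by
    exact_mod_cast a3.symm
  push_cast at a1 a2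
  linarith

theorem cnt_zero {p h D : ℕ} {D' : ℤ} (hD : D' ≤ 4 * D) (hh : 3 * D < p ^ h) : cnt p h D' = 0 := by
  unfold cnt
  rw [filter_eq_empty_iff.2, sum_empty]
  rintro x - ⟨h1, h2⟩
  have h3 := Int.le_of_dvd h1 h2
  have h4 : (3 * D : ℤ) < (p : ℤ) ^ h := by exact_mod_cast hh
  nlinarith [sq_nonneg x]

theorem cnt_le {p h D : ℕ} {D' : ℤ} (hp : p.Prime) (hh : 1 ≤ h) (hD : D' ≤ 4 * D) {e K : ℝ}
    (he : 0 ≤ e) (hK : 0 ≤ K) (hR : ∀ g : ℤ, 0 < g → (reps g : ℝ) ≤ K * (g : ℝ) ^ e) :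
    (cnt p h D' : ℝ) ≤ 2 * (2 * (7 * Real.sqrt D) / (p : ℝ) ^ ((h + 1) / 2) + 1) *
      (K * (1296 * (D : ℝ) ^ 2) ^ e) := by
  unfold cnt
  set S := (Finset.Icc (-(4 * D')) (4 * D')).filter
      (fun x => 0 < 12 * D' - x ^ 2 ∧ 16 * (p : ℤ) ^ h ∣ 12 * D' - x ^ 2) with hS
  have a1 := card_sol hp hh (7 * Real.sqrt D) (by positivity) (12 * D') S (fun x hx => by
      have h1 := (mem_filter.1 hx).2.1
      have h2 : x ^ 2 ≤ 49 * D := by omega
      have h3 : (x : ℝ) ^ 2 ≤ 49 * D := by exact_mod_cast h2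
      refine abs_le_of_sq_le_sq' ?_ (by positivity) |> abs_le.2
      rw [mul_pow, Real.sq_sqrt (by positivity)]
      linarith)
    (fun x hx => (Dvd.intro_left _ rfl).trans (mem_filter.1 hx).2.2)
  push_cast
  refine (sum_le_card_nsmul S _ (K * (1296 * (D : ℝ) ^ 2) ^ e) (fun x hx => ?_)).trans ?_
  · obtain ⟨h1, h2⟩ := (mem_filter.1 hx).2
    obtain ⟨m, hm⟩ : (16 : ℤ) ∣ 12 * D' - x ^ 2 := (Dvd.intro _ rfl).trans h2
    rw [hm, Int.mul_ediv_cancel_left _ (by norm_num)]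
    have hm0 : 0 < m := by omega
    have hm1 : m ≤ 3 * D := by nlinarith [sq_nonneg x]
    refine (hR _ (by positivity)).trans (mul_le_mul_of_nonneg_left ?_ hK)
    refine Real.rpow_le_rpow (by positivity) ?_ he
    have : 144 * m ^ 2 ≤ 1296 * (D : ℤ) ^ 2 := by nlinarith
    exact_mod_cast this
  · rw [nsmul_eq_mul]
    exact mul_le_mul_of_nonneg_right a1 (by positivity)

theorem log_le {v : ℝ≥0} {n M : ℕ} (hn : 0 < n) (hM : n ≤ M)
    (h : ¬ v * (16 * (n : ℝ≥0)) ^ 12 < 1) : -Real.log v ≤ 12 * Real.log (16 * M) := by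
  have h1 : (1 : ℝ) ≤ v * (16 * (n : ℝ)) ^ 12 := by exact_mod_cast not_lt.1 h
  have hn' : (0 : ℝ) < n := by exact_mod_cast hn
  have hM' : (n : ℝ) ≤ M := by exact_mod_cast hM
  have hv : (0 : ℝ) < v := by
    by_contra hv
    have : (v : ℝ) = 0 := le_antisymm (not_lt.1 hv) v.2
    rw [this] at h1
    norm_num at h1
  have h2 := Real.log_nonneg h1
  rw [Real.log_mul hv.ne' (by positivity), Real.log_pow] at h2
  have h3 : Real.log (16 * n) ≤ Real.log (16 * M) := Real.log_le_log (by positivity) (by linarith)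
  push_cast at h2
  linarith

end PadicP

open PadicP in
theorem padic (hC : S_Core) (hR : S_Reps) : S_Padic := by
  intro ε hε
  obtain ⟨η, hη, hη1, hη2⟩ : ∃ η : ℝ, 0 < η ∧ η ≤ 1 ∧ η ≤ ε / 24 :=
    ⟨min 1 (ε / 24), by positivity, min_le_left _ _, min_le_right _ _⟩
  obtain ⟨K, hK, hR⟩ := hR (η / 8) (by positivity)
  obtain ⟨C, hC0, hCe⟩ : ∃ C : ℝ, 0 < C ∧ C = 30 * (K * 1296 ^ (η / 8)) :=
    ⟨_, by positivity, rfl⟩
  have E1 : ∀ᶠ D : ℕ in atTop, 24 * Real.log 16 / ε ≤ Real.log D :=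
    (Real.tendsto_log_atTop.comp tendsto_natCast_atTop_atTop).eventually_ge_atTop _
  have E3 : ∀ᶠ D : ℕ in atTop, ‖Real.log D‖ ≤ ε / (24 * C) * ‖(D : ℝ) ^ (η / 4)‖ :=
    tendsto_natCast_atTop_atTop.eventually
      ((isLittleO_log_rpow_atTop (by positivity : 0 < η / 4)).bound (by positivity))
  obtain ⟨D0, hD0⟩ := eventually_atTop.1 (E1.and (E3.and (eventually_ge_atTop 48)))
  refine ⟨D0, fun D hD hdisc p V hp T hT => ?_⟩
  obtain ⟨e1, e3, e2⟩ := hD0 D hD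
  obtain ⟨D', -, hD', hcore⟩ := hC p V D hp hdisc
  have hD48 : (48 : ℝ) ≤ D := by exact_mod_cast e2
  have hD1 : (1 : ℝ) ≤ D := by linarith
  have hDp : (0 : ℝ) < D := by linarith
  have hL : 0 ≤ Real.log D := Real.log_nonneg hD1
  rw [Real.norm_of_nonneg hL, Real.norm_of_nonneg (by positivity)] at e3
  have all : ∀ y ∈ T, -Real.log (V.v y) ≤ 24 * Real.log D := by
    intro y hy
    have h1 : ¬ V.v y * (16 * ((p ^ Nat.log p (3 * D) : ℕ) : ℝ≥0)) ^ 12 < 1 := by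
      intro hlt
      have := hcore (Nat.log p (3 * D) + 1) (by omega) {y} (fun z hz => by
        rw [mem_singleton.1 hz]
        refine ⟨(hT y hy).1, (hT y hy).2, ?_⟩
        simpa using hlt)
      rw [cnt_zero hD' (Nat.lt_pow_succ_log_self hp.one_lt _)] at this
      simp at this
    have h2 := log_le (pow_pos hp.pos _) (Nat.pow_log_le_self p (by omega)) h1
    have h3 : Real.log (16 * ((3 * D : ℕ) : ℝ)) ≤ Real.log (D ^ 2) := by
      refine Real.log_le_log (by positivity) ?_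
      push_cast
      nlinarith
    rw [Real.log_pow] at h3
    push_cast at h2 h3
    linarith
  obtain ⟨M, hM⟩ : ∃ M, M = ⌊(D : ℝ) ^ η⌋₊ := ⟨_, rfl⟩
  have hM1 : 1 ≤ M := by
    rw [hM]
    exact Nat.le_floor (by simpa using Real.one_le_rpow hD1 hη.le)
  have hM2 : (M : ℝ) ≤ (D : ℝ) ^ η := by rw [hM]; exact Nat.floor_le (by positivity)
  have hM3 : (D : ℝ) ^ η ≤ M + 1 := by rw [hM]; exact (Nat.lt_floor_add_one _).le
  obtain ⟨g, hg⟩ : ∃ g, g = Nat.log p M := ⟨_, rfl⟩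
  have g1 : p ^ g ≤ M := by rw [hg]; exact Nat.pow_log_le_self p (by omega)
  have g2 : M < p ^ (g + 1) := by rw [hg]; exact Nat.lt_pow_succ_log_self hp.one_lt _
  have hq : (D : ℝ) ^ (η / 2) ≤ (p : ℝ) ^ ((g + 1 + 1) / 2) := by
    refine (abs_le_of_sq_le_sq' ?_ (by positivity)).2
    have b1 : ((D : ℝ) ^ (η / 2)) ^ 2 = (D : ℝ) ^ η := by
      rw [← Real.rpow_natCast, ← Real.rpow_mul hDp.le]
      norm_num
    have b2 : p ^ (g + 1) ≤ (p ^ ((g + 1 + 1) / 2)) ^ 2 := by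
      rw [← pow_mul]
      exact Nat.pow_le_pow_right hp.pos (by omega)
    have b3 : M + 1 ≤ (p ^ ((g + 1 + 1) / 2)) ^ 2 := by omega
    have b4 : (M : ℝ) + 1 ≤ ((p : ℝ) ^ ((g + 1 + 1) / 2)) ^ 2 := by exact_mod_cast b3
    rw [b1]
    linarith
  set P : ℂ → Prop := fun y => V.v y * (16 * ((p ^ g : ℕ) : ℝ≥0)) ^ 12 < 1 with hP
  classical
  have c1 := hcore (g + 1) (by omega) (T.filter P) (fun y hy => by
    obtain ⟨h1, h2⟩ := mem_filter.1 hy
    refine ⟨(hT y h1).1, (hT y h1).2, ?_⟩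
    simpa [hP] using h2)
  have c2 := cnt_le hp (h := g + 1) (by omega) hD' (by positivity) hK.le hR
  have c3 : ((T.filter P).card : ℝ) * (D : ℝ) ^ (η / 4) ≤ C * Real.sqrt D := by
    have a1 : ((T.filter P).card : ℝ) ≤ cnt p (g + 1) D' := by exact_mod_cast c1
    have a2 : (1296 * (D : ℝ) ^ 2) ^ (η / 8) = 1296 ^ (η / 8) * (D : ℝ) ^ (η / 4) := by
      rw [Real.mul_rpow (by norm_num) (by positivity), ← Real.rpow_natCast,
        ← Real.rpow_mul hDp.le]
      congr 2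
      push_cast
      ring
    have a3 : (D : ℝ) ^ (η / 4) * (D : ℝ) ^ (η / 4) = (D : ℝ) ^ (η / 2) := by
      rw [← Real.rpow_add hDp]; congr 1; ring
    have a4 : (D : ℝ) ^ (η / 2) ≤ Real.sqrt D := by
      rw [Real.sqrt_eq_rpow]
      exact Real.rpow_le_rpow_of_exponent_le hD1 (by linarith)
    have a5 : 0 < (D : ℝ) ^ (η / 2) := by positivity
    have a6 : 2 * (7 * Real.sqrt D) / (p : ℝ) ^ ((g + 1 + 1) / 2) * (D : ℝ) ^ (η / 2) ≤
        14 * Real.sqrt D := by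
      have : 2 * (7 * Real.sqrt D) / (p : ℝ) ^ ((g + 1 + 1) / 2) ≤
          2 * (7 * Real.sqrt D) / (D : ℝ) ^ (η / 2) :=
        div_le_div_of_nonneg_left (by positivity) a5 hq
      rw [le_div_iff₀ a5] at this
      linarith
    rw [a2] at c2
    calc _ ≤ (2 * (2 * (7 * Real.sqrt D) / (p : ℝ) ^ ((g + 1 + 1) / 2) + 1) *
          (K * (1296 ^ (η / 8) * (D : ℝ) ^ (η / 4)))) * (D : ℝ) ^ (η / 4) :=
          mul_le_mul_of_nonneg_right (a1.trans c2) (by positivity)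
      _ = 2 * (2 * (7 * Real.sqrt D) / (p : ℝ) ^ ((g + 1 + 1) / 2) * (D : ℝ) ^ (η / 2) +
          (D : ℝ) ^ (η / 2)) * (K * 1296 ^ (η / 8)) := by rw [← a3]; ring
      _ ≤ 2 * (14 * Real.sqrt D + Real.sqrt D) * (K * 1296 ^ (η / 8)) := by gcongr
      _ = C * Real.sqrt D := by rw [hCe]; ring
  rw [← sum_filter_add_sum_filter_not T P]
  have s1 : ∑ y ∈ T.filter P, -Real.log (V.v y) ≤ ε * Real.sqrt D := by
    refine (sum_le_card_nsmul _ _ (24 * Real.log D)
      (fun y hy => all y (mem_filter.1 hy).1)).trans ?_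
    rw [nsmul_eq_mul]
    calc _ ≤ ((T.filter P).card : ℝ) * (24 * (ε / (24 * C) * (D : ℝ) ^ (η / 4))) := by gcongr
      _ = ε / C * (((T.filter P).card : ℝ) * (D : ℝ) ^ (η / 4)) := by field_simp
      _ ≤ ε / C * (C * Real.sqrt D) := by gcongr
      _ = _ := by field_simp
  have s2 : ∑ y ∈ T.filter (fun y => ¬ P y), -Real.log (V.v y) ≤
      ε * (T.card * Real.log D) := by
    refine (sum_le_card_nsmul _ _ (ε * Real.log D) (fun y hy => ?_)).trans ?_
    · have h1 := log_le (pow_pos hp.pos _) g1 (mem_filter.1 hy).2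
      have hM0 : (0 : ℝ) < M := by exact_mod_cast hM1
      have h2 : Real.log (16 * M) ≤ Real.log 16 + η * Real.log D := by
        rw [Real.log_mul (by norm_num) hM0.ne', ← Real.log_rpow hDp]
        linarith [Real.log_le_log hM0 hM2]
      rw [div_le_iff₀ hε] at e1
      nlinarith [mul_le_mul_of_nonneg_right hη2 hL]
    · rw [nsmul_eq_mul]
      have : ((T.filter (fun y => ¬ P y)).card : ℝ) ≤ T.card := by
        exact_mod_cast card_filter_le _ _
      nlinarith [mul_le_mul_of_nonneg_right this (mul_nonneg hε.le hL)]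
  linarith

end Pool.Agent.P.MP_94fe55_nt
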