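import Pool.Agent.P.MP_94fe55_nt.Reps

/-! Rings with a multiplicative positive definite quadratic form. -/

set_option autoImplicit false

namespace Pool.Agent.P.MP_94fe55_nt

namespace QuatP

variable {R : Type} [Ring R] {q : R → ℤ}

theorem q0 (h : QF q) : q 0 = 0 := by
  have := h.par 0 0
  simp only [add_zero, sub_zero] at this
  omega

theorem qneg (h : QF q) (x : R) : q (-x) = q x := by
  have := h.par 0 x
  simp only [zero_add, zero_sub, q0 h] at this
  omega

theorem b_comm (x y : R) : bil q x y = bil q y x := by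
  unfold bil
  rw [add_comm x y]; ring

theorem q_add (x y : R) : q (x + y) = q x + q y + bil q x y := by
  unfold bil; ring

theorem b_add_left (h : QF q) (x y z : R) : bil q (x + y) z = bil q x z + bil q y z := by
  unfold bil
  have h1 := h.par (x + y) z
  have h2 := h.par (x + z) y
  have h3 := h.par (y + z) x
  have h4 := h.par x (y - z)
  have h5 := h.par y (x - z)
  have h6 := h.par z (x - y)
  have h7 := h.par x y
  have h8 := h.par x z
  have h9 := h.par y z
  have e1 : x + z + y = x + y + z := by abel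
  have e2 : y + z + x = x + y + z := by abel
  have e3 : x + (y - z) = x + y - z := by abel
  have e4 : x - (y - z) = x + z - y := by abel
  have e5 : y + (x - z) = x + y - z := by abel
  have e6 : y - (x - z) = y + z - x := by abel
  have e7 : z + (x - y) = x + z - y := by abel
  have e8 : z - (x - y) = y + z - x := by abel
  rw [e1] at h2
  rw [e2] at h3
  rw [e3, e4] at h4
  rw [e5, e6] at h5
  rw [e7, e8] at h6
  omega

/-- the form as an additive map in the first variable -/
def bL (h : QF q) (z : R) : R →+ ℤ := AddMonoidHom.mk' (fun x => bil q x z)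
  (fun x y => b_add_left h x y z)

theorem b_smul_left (h : QF q) (n : ℤ) (x z : R) : bil q (n • x) z = n * bil q x z := by
  have := map_zsmul (bL h z) n x
  simpa [bL] using this

theorem b_sub_left (h : QF q) (x y z : R) : bil q (x - y) z = bil q x z - bil q y z :=
  map_sub (bL h z) x y

theorem b_add_right (h : QF q) (x y z : R) : bil q z (x + y) = bil q z x + bil q z y := by
  rw [b_comm z, b_comm z, b_comm z, b_add_left h]

theorem b_sub_right (h : QF q) (x y z : R) : bil q z (x - y) = bil q z x - bil q z y := by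
  rw [b_comm z, b_comm z, b_comm z, b_sub_left h]

theorem b_smul_right (h : QF q) (n : ℤ) (x z : R) : bil q z (n • x) = n * bil q z x := by
  rw [b_comm z, b_comm z, b_smul_left h]

theorem b_self (h : QF q) (x : R) : bil q x x = 2 * q x := by
  unfold bil
  have := h.par x x
  rw [sub_self, q0 h] at this
  omega

theorem b_one (h : QF q) : bil q (1 : R) 1 = 2 := by
  rw [b_self h, h.one]; rfl

theorem q_smul (h : QF q) (n : ℤ) (x : R) : q (n • x) = n ^ 2 * q x := by
  have h1 := b_self h (n • x)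
  rw [b_smul_left h, b_smul_right h, b_self h] at h1
  have : 2 * q (n • x) = 2 * (n ^ 2 * q x) := by linear_combination -h1
  omega

theorem b_mul_left (h : QF q) (x a c : R) : bil q (x * a) (x * c) = q x * bil q a c := by
  unfold bil
  rw [← mul_add, h.mul, h.mul, h.mul]; ring

theorem lin (h : QF q) (x y a c : R) :
    bil q (x * a) (y * c) + bil q (y * a) (x * c) = bil q x y * bil q a c := by
  have h1 := b_mul_left h (x + y) a c
  rw [add_mul, add_mul, b_add_left h, b_add_right h, b_add_right h, b_mul_left h, b_mul_left h,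
    q_add (q := q)] at h1
  linear_combination h1

theorem smul_inj (h : QF q) {n : ℤ} (hn : n ≠ 0) {x y : R} (e : n • x = n • y) : x = y := by
  have h1 : n • (x - y) = 0 := by rw [smul_sub, e, sub_self]
  have h2 := q_smul h n (x - y)
  rw [h1, q0 h] at h2
  have h3 : q (x - y) = 0 := by
    rcases mul_eq_zero.1 h2.symm with k | k
    · exact absurd (pow_eq_zero_iff two_ne_zero |>.1 k) hn
    · exact k
  exact sub_eq_zero.1 (h.eq_zero _ h3)

theorem one_inj (h : QF q) {n : ℤ} (e : n • (1 : R) = 0) : n = 0 := by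
  have h2 := q_smul h n (1 : R)
  rw [e, q0 h, h.one, mul_one] at h2
  exact pow_eq_zero_iff two_ne_zero |>.1 h2.symm

theorem sq' (h : QF q) (x : R) : x * x = bil q x 1 • x - q x • (1 : R) := by
  have key : ∀ a : R, bil q a (bil q x 1 • x - q x • (1 : R) - x * x) = 0 := by
    intro a
    have h1 := lin h x 1 a x
    have h2 := lin h x 1 (x * a) 1
    have h3 := b_mul_left h x a 1
    rw [b_sub_right h, b_sub_right h, b_smul_right h, b_smul_right h]
    simp only [one_mul, mul_one] at h1 h2 h3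
    linear_combination -h1 + h3
  have h1 := key (bil q x 1 • x - q x • (1 : R) - x * x)
  rw [b_self h] at h1
  have h2 := h.eq_zero _ (by omega : q (bil q x 1 • x - q x • (1 : R) - x * x) = 0)
  exact (sub_eq_zero.1 h2).symm

theorem anticomm (h : QF q) (x y : R) :
    x * y + y * x = bil q x 1 • y + bil q y 1 • x - bil q x y • (1 : R) := by
  have h1 := sq' h (x + y)
  have h2 := sq' h x
  have h3 := sq' h y
  rw [b_add_left h, q_add (q := q), add_mul, mul_add, mul_add] at h1
  linear_combination (norm := module) h1 - h2 - h3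

theorem t_mul (h : QF q) (x y : R) :
    bil q (x * y) 1 = bil q x 1 * bil q y 1 - bil q x y := by
  have h1 := lin h x 1 y 1
  simp only [one_mul, mul_one] at h1
  rw [b_comm y x] at h1
  linear_combination h1

theorem dom (h : QF q) (x y : R) (e : x * y = 0) : x = 0 ∨ y = 0 := by
  have h1 := h.mul x y
  rw [e, q0 h] at h1
  rcases mul_eq_zero.1 h1.symm with k | k
  · exact Or.inl (h.eq_zero _ k)
  · exact Or.inr (h.eq_zero _ k)

theorem coef' (h : QF q) (x : R) (t n : ℤ) (e : x * x = t • x - n • (1 : R))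
    (hD : 0 < 4 * n - t ^ 2) : q x = n ∧ bil q x 1 = t := by
  have h1 := sq' h x
  have h2 : (t - bil q x 1) • x = (n - q x) • (1 : R) := by
    linear_combination (norm := module) h1 - e
  by_cases ht : t - bil q x 1 = 0
  · rw [ht, zero_smul] at h2
    have := one_inj h h2.symm
    omega
  · exfalso
    generalize t - bil q x 1 = d at h2 ht
    generalize n - q x = c at h2
    have h3 : (d • x) * (d • x) = (c • (1 : R)) * (c • (1 : R)) := by rw [h2]
    simp only [smul_mul_assoc, mul_smul_comm, mul_one] at h3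
    have h4 : (c ^ 2 - t * d * c + n * d ^ 2) • (1 : R) = 0 := by
      linear_combination (norm := module) (d ^ 2) • e - h3 + (t * d) • h2
    have h5 := one_inj h h4
    have h6 : 0 < d ^ 2 := by positivity
    nlinarith [sq_nonneg (2 * c - t * d), mul_pos hD h6]

/-- the centraliser of a pure element -/
theorem cent' (h : QF q) (a φ : R) (ha : bil q a 1 = 0) (e : φ * a = a * φ) :
    (2 * q a) • φ = (bil q φ 1 * q a) • (1 : R) + bil q a φ • a := by
  have h1 := sq' h a
  have h2 := anticomm h a φ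
  rw [ha] at h1 h2
  rw [← e] at h2
  have h3 : (φ * a + φ * a) * a =
      ((0 : ℤ) • φ + bil q φ 1 • a - bil q a φ • (1 : R)) * a := by rw [h2]
  simp only [add_mul, sub_mul, smul_mul_assoc, mul_assoc, h1, one_mul, mul_sub, mul_smul_comm,
    mul_one] at h3
  linear_combination (norm := module) -h3

/-- the pure part of a quadratic element -/
def pu (α : R) (t : ℤ) : R := (2 : ℤ) • α - t • (1 : R)

theorem pu_eq (α : R) (t : ℤ) : 2 * α - t = pu α t := by
  unfold pu
  simp

theorem pu_eq' (ω : R) : 2 * ω + 1 = pu ω (-1) := by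
  unfold pu
  simp

theorem pu_t (h : QF q) {α : R} {t : ℤ} (ht : bil q α 1 = t) : bil q (pu α t) 1 = 0 := by
  unfold pu
  rw [b_sub_left h, b_smul_left h, b_smul_left h, b_one h, ht]; ring

theorem pu_q (h : QF q) {α : R} {t : ℤ} (ht : bil q α 1 = t) :
    q (pu α t) = 4 * q α - t ^ 2 := by
  have h1 := b_self h (pu α t)
  have h2 := pu_t h ht
  have h3 : bil q (pu α t) (pu α t) = 2 * bil q (pu α t) α - t * bil q (pu α t) 1 := by
    conv_lhs => rw [show bil q (pu α t) (pu α t) =
      bil q (pu α t) ((2 : ℤ) • α - t • (1 : R)) from rfl]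
    rw [b_sub_right h, b_smul_right h, b_smul_right h]
  have h4 : bil q (pu α t) α = 4 * q α - t ^ 2 := by
    unfold pu
    rw [b_sub_left h, b_smul_left h, b_smul_left h, b_self h, b_comm 1 α, ht]; ring
  rw [h2, h4] at h3
  omega

theorem conv1 (x : R) (t n : ℤ) (e : x * x = t * x - n) : x * x = t • x - n • (1 : R) := by
  rw [e]; simp

theorem om_facts (h : QF q) {ω : R} (hω : ω * ω + ω + 1 = 0) : q ω = 1 ∧ bil q ω 1 = -1 := by
  refine coef' h ω (-1) 1 ?_ (by norm_num)
  linear_combination (norm := module) hω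

theorem w_t (h : QF q) {ω : R} (hω : ω * ω + ω + 1 = 0) : bil q (pu ω (-1)) 1 = 0 :=
  pu_t h (om_facts h hω).2

theorem w_q (h : QF q) {ω : R} (hω : ω * ω + ω + 1 = 0) : q (pu ω (-1)) = 3 := by
  rw [pu_q h (om_facts h hω).2, (om_facts h hω).1]; rfl

theorem w_sq (h : QF q) {ω : R} (hω : ω * ω + ω + 1 = 0) :
    pu ω (-1) * pu ω (-1) = -((3 : ℤ) • (1 : R)) := by
  rw [sq' h, w_t h hω, w_q h hω]; module

theorem q_w (h : QF q) {ω : R} (hω : ω * ω + ω + 1 = 0) (U V : ℤ) :
    q (U • (1 : R) + V • pu ω (-1)) = U ^ 2 + 3 * V ^ 2 := by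
  rw [q_add (q := q), q_smul h, q_smul h, h.one, w_q h hω, b_smul_left h, b_smul_right h, b_comm 1,
    w_t h hω]
  ring

theorem comm4 (α ω : R) (t s : ℤ) :
    (4 : ℤ) • (α * ω - ω * α) = pu α t * pu ω s - pu ω s * pu α t := by
  unfold pu
  simp only [mul_sub, sub_mul, smul_mul_assoc, mul_smul_comm, mul_one, one_mul]
  module

theorem delta4 (h : QF q) {α ω : R} {t : ℤ} (hω : ω * ω + ω + 1 = 0) (ht : bil q α 1 = t) :
    (4 : ℤ) • (α * ω - ω * α) = (2 : ℤ) • (pu α t * pu ω (-1)) +
      bil q (pu α t) (pu ω (-1)) • (1 : R) := by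
  have h1 := anticomm h (pu α t) (pu ω (-1))
  rw [pu_t h ht, w_t h hω] at h1
  rw [comm4 α ω t (-1)]
  linear_combination (norm := module) -h1

theorem comm_pu {z ω : R} (s : ℤ) (e : z * ω = ω * z) : z * pu ω s = pu ω s * z := by
  unfold pu
  simp only [mul_sub, sub_mul, smul_mul_assoc, mul_smul_comm, mul_one, one_mul, e]

theorem delta_w (h : QF q) {ω : R} (hω : ω * ω + ω + 1 = 0) (α : R) :
    (α * ω - ω * α) * pu ω (-1) = -(pu ω (-1) * (α * ω - ω * α)) := by
  refine smul_inj h (n := 4) (by norm_num) ?_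
  rw [← smul_mul_assoc, smul_neg, ← mul_smul_comm, comm4 α ω 0 (-1)]
  have h1 := w_sq h hω
  generalize pu ω (-1) = w at h1
  generalize pu α 0 = a
  have h2 : w * (w * a) = -((3 : ℤ) • a) := by
    rw [← mul_assoc, h1]; simp
  simp only [mul_sub, sub_mul, mul_assoc, h1, h2, mul_neg, mul_smul_comm, mul_one]
  module

theorem six (h : QF q) {ω : R} (hω : ω * ω + ω + 1 = 0) {z : R}
    (e : z * pu ω (-1) = pu ω (-1) * z) :
    (12 : ℤ) • z = (6 * bil q z 1) • (1 : R) + (2 * bil q (pu ω (-1)) z) • pu ω (-1) := by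
  have h1 := cent' h _ z (w_t h hω) e
  rw [w_q h hω] at h1
  linear_combination (norm := module) (2 : ℤ) • h1

theorem count (h : QF q) (ω : R) (t n x m : ℤ) (T : Finset R) (hω : ω * ω + ω + 1 = 0)
    (hD : 0 < 4 * n - t ^ 2)
    (hT : ∀ α ∈ T, α * α = t * α - n ∧ α * ω ≠ ω * α ∧ bil q (2 * α - t) (2 * ω + 1) = x ∧
      q (α * ω - ω * α) = m) : T.card ≤ reps (144 * m ^ 2) := by
  rcases T.eq_empty_or_nonempty with rfl | ⟨α₁, h₁⟩
  · simp
  obtain ⟨δ₁, hδ₁⟩ : ∃ δ₁, δ₁ = α₁ * ω - ω * α₁ := ⟨_, rfl⟩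
  have hne : δ₁ ≠ 0 := by
    rw [hδ₁]; exact sub_ne_zero.2 (hT α₁ h₁).2.1
  have hz : ∀ α : R, (12 : ℤ) • ((α * ω - ω * α) * δ₁) =
      (6 * bil q ((α * ω - ω * α) * δ₁) 1) • (1 : R) +
        (2 * bil q (pu ω (-1)) ((α * ω - ω * α) * δ₁)) • pu ω (-1) := by
    intro α
    refine six h hω ?_
    have e1 := delta_w h hω α
    have e2 := delta_w h hω α₁
    rw [← hδ₁] at e2
    rw [mul_assoc, e2, mul_neg, ← mul_assoc, e1, neg_mul, neg_neg, mul_assoc]
  unfold reps
  rw [← Set.ncard_coe_finset]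
  refine Set.ncard_le_ncard_of_injOn
    (fun α => (6 * bil q ((α * ω - ω * α) * δ₁) 1,
      2 * bil q (pu ω (-1)) ((α * ω - ω * α) * δ₁))) ?_ ?_ (reps_finite _)
  · intro α hα
    have h1 := q_w h hω (6 * bil q ((α * ω - ω * α) * δ₁) 1)
      (2 * bil q (pu ω (-1)) ((α * ω - ω * α) * δ₁))
    rw [← hz α, q_smul h, h.mul, (hT α hα).2.2.2, hδ₁, (hT α₁ h₁).2.2.2, ← hδ₁] at h1
    show _ = _
    linear_combination -h1
  · intro α hα β hβ e
    simp only [Prod.mk.injEq] at e
    have e1 : (α * ω - ω * α) * δ₁ = (β * ω - ω * β) * δ₁ := by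
      refine smul_inj h (n := 12) (by norm_num) ?_
      rw [hz α, hz β, e.1, e.2]
    have e2 : α * ω - ω * α = β * ω - ω * β := by
      have : ((α * ω - ω * α) - (β * ω - ω * β)) * δ₁ = 0 := by rw [sub_mul, e1, sub_self]
      rcases dom h _ _ this with k | k
      · exact sub_eq_zero.1 k
      · exact absurd k hne
    have ta := (coef' h α t n (conv1 _ _ _ (hT α hα).1) hD).2
    have tb := (coef' h β t n (conv1 _ _ _ (hT β hβ).1) hD).2
    have d1 := delta4 h hω ta
    have d2 := delta4 h hω tb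
    have x1 := (hT α hα).2.2.1
    have x2 := (hT β hβ).2.2.1
    rw [pu_eq, pu_eq'] at x1 x2
    rw [x1] at d1
    rw [x2, ← e2, d1] at d2
    have e3 : pu α t * pu ω (-1) = pu β t * pu ω (-1) :=
      smul_inj h (n := 2) (by norm_num) (add_right_cancel d2)
    have e4 : (pu α t - pu β t) * pu ω (-1) = 0 := by rw [sub_mul, e3, sub_self]
    rcases dom h _ _ e4 with k | k
    · refine smul_inj h (n := 2) (by norm_num) ?_
      unfold pu at k
      linear_combination (norm := module) k
    · have := w_q h hω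
      rw [k, q0 h] at this
      omega

theorem cube (h : QF q) (ω γ : R) (p t n : ℤ) (hω : ω * ω + ω + 1 = 0) (e : γ * ω = ω * γ)
    (hp : p ≠ 0) (hγ : γ * γ = p * t * γ - (p : R) ^ 2 * n) (hD : 0 < 4 * n - t ^ 2) :
    ∃ u v : ℤ, γ = p * (u + v * ω) := by
  have hp2 : 0 < p ^ 2 := by positivity
  obtain ⟨c1, c2⟩ := coef' h γ (p * t) (p ^ 2 * n) (by rw [hγ]; simp)
    (by nlinarith [mul_pos hp2 hD])
  have h1 := six h hω (comm_pu (-1) e)
  have h2 := q_w h hω (6 * bil q γ 1) (2 * bil q (pu ω (-1)) γ)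
  rw [← h1, q_smul h, c1, c2] at h2
  rw [c2] at h1
  generalize bil q (pu ω (-1)) γ = V at h1 h2
  have h3 : V ^ 2 = p ^ 2 * (3 * (4 * n - t ^ 2)) := by
    have : 12 * V ^ 2 = 12 * (p ^ 2 * (3 * (4 * n - t ^ 2))) := by linear_combination -h2
    omega
  obtain ⟨V', rfl⟩ : p ∣ V := (Int.pow_dvd_pow_iff two_ne_zero).1 ⟨_, h3⟩
  have h4 : V' ^ 2 = 3 * (4 * n - t ^ 2) :=
    mul_left_cancel₀ hp2.ne' (by linear_combination h3)
  obtain ⟨s, rfl⟩ : (3 : ℤ) ∣ V' := Int.prime_three.dvd_of_dvd_pow ⟨_, h4⟩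
  have h5 : 3 * s ^ 2 = 4 * n - t ^ 2 := by
    have : 3 * (3 * s ^ 2) = 3 * (4 * n - t ^ 2) := by linear_combination h4
    omega
  obtain ⟨u, hu⟩ : (2 : ℤ) ∣ t + s := by
    refine Int.prime_two.dvd_of_dvd_pow (n := 2) ⟨2 * n + t * s - s ^ 2, ?_⟩
    linear_combination h5
  refine ⟨u, s, ?_⟩
  have h6 : (p : R) * (u + s * ω) = (p * u) • (1 : R) + (p * s) • ω := by
    simp [mul_add, mul_assoc]
  rw [h6]
  refine smul_inj h (n := 12) (by norm_num) ?_
  rw [h1]
  have ht : t = 2 * u - s := by omega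
  rw [ht]
  unfold pu
  module

end QuatP

open QuatP in
theorem quat : S_Quat := by
  intro R _ q h
  refine ⟨fun x => ?_, dom h, fun n => ?_, fun n x hn e => ?_,
    fun x t n e hD => coef' h x t n (conv1 _ _ _ e) hD, fun α φ t n e hD hc => ?_,
    fun α ω _ => ?_, fun α ω hω e => ?_, fun α ω t n hω e hD => ?_, count h, cube h⟩
  · rw [sq' h x]; simp
  · have := q_smul h n (1 : R)
    simpa [h.one] using this
  · refine smul_inj h hn ?_
    simpa using e
  · obtain ⟨c1, c2⟩ := coef' h α t n (conv1 _ _ _ e) hD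
    have h1 := cent' h _ φ (pu_t h c2) (comm_pu t hc)
    rw [pu_q h c2, c1] at h1
    generalize bil q (pu α t) φ = c at h1
    refine ⟨2 * (4 * n - t ^ 2), bil q φ 1 * (4 * n - t ^ 2) - c * t, 2 * c, by omega, ?_⟩
    rw [← zsmul_eq_mul, ← zsmul_eq_mul, ← zsmul_one, h1]
    unfold pu
    module
  · rw [sq' h, b_sub_left h, t_mul h, t_mul h, b_comm ω α, mul_comm (bil q ω 1), sub_self]
    simp
  · have h1 := anticomm h α ω
    rw [e, neg_add_cancel, (om_facts h hω).2] at h1
    have h2 : α = bil q α 1 • ω - bil q α ω • (1 : R) := by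
      linear_combination (norm := module) h1
    generalize bil q α 1 = c at h2
    generalize bil q α ω = d at h2
    rw [h2]
    simp only [mul_sub, sub_mul, smul_mul_assoc, mul_smul_comm, mul_one, one_mul]
  · obtain ⟨c1, c2⟩ := coef' h α t n (conv1 _ _ _ e) hD
    have h1 := q_smul h 4 (α * ω - ω * α)
    rw [delta4 h hω c2, q_add (q := q), q_smul h, q_smul h, h.mul, h.one, pu_q h c2, c1, w_q h hω,
      b_smul_left h, b_smul_right h, t_mul h, pu_t h c2] at h1
    rw [pu_eq, pu_eq']
    linear_combination -h1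

end Pool.Agent.P.MP_94fe55_nt
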