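import Pool.Agent.P.MP_94fe55_nt.Defs

/-! The number of representations by `x ^ 2 + 3 w ^ 2`. -/

set_option autoImplicit false

namespace Pool.Agent.P.MP_94fe55_nt

open Finset

namespace RepsP

theorem div_bound {ε : ℝ} (hε : 0 < ε) :
    ∃ C : ℝ, 1 ≤ C ∧ ∀ n : ℕ, n ≠ 0 → (n.divisors.card : ℝ) ≤ C * (n : ℝ) ^ ε := by
  have hl2 : 0 < Real.log 2 := Real.log_pos one_lt_two
  set c : ℝ := 1 + (ε * Real.log 2)⁻¹ with hc
  have hc1 : 1 ≤ c := by
    have : 0 < (ε * Real.log 2)⁻¹ := by positivity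
    linarith
  set N : ℕ := ⌈(2 : ℝ) ^ (ε⁻¹)⌉₊ with hN
  refine ⟨c ^ N, one_le_pow₀ hc1, fun n hn => ?_⟩
  have key : ∀ p ∈ n.primeFactors, ((n.factorization p + 1 : ℕ) : ℝ) ≤
      (if p < N then c else 1) * ((p : ℝ) ^ n.factorization p) ^ ε := by
    intro p hp
    have hpp := Nat.prime_of_mem_primeFactors hp
    have hp2 : (2 : ℝ) ≤ p := by exact_mod_cast hpp.two_le
    set a := n.factorization p
    have e1 : ((p : ℝ) ^ a) ^ ε = ((p : ℝ) ^ ε) ^ a := by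
      rw [← Real.rpow_natCast, ← Real.rpow_mul (by positivity), mul_comm,
        Real.rpow_mul (by positivity), Real.rpow_natCast]
    split_ifs with h
    · have h1 : (2 : ℝ) ^ ε ≤ (p : ℝ) ^ ε := Real.rpow_le_rpow (by norm_num) hp2 hε.le
      have h2 : ((2 : ℝ) ^ ε) ^ a ≤ ((p : ℝ) ^ ε) ^ a := pow_le_pow_left₀ (by positivity) h1 a
      have h3 : ((2 : ℝ) ^ ε) ^ a = Real.exp (a * (ε * Real.log 2)) := by
        rw [Real.rpow_def_of_pos two_pos, ← Real.exp_nat_mul]; ring_nf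
      have h4 := Real.add_one_le_exp (a * (ε * Real.log 2))
      have h5 : (0 : ℝ) < ε * Real.log 2 := by positivity
      have h6 : (a : ℝ) + 1 ≤ c * (a * (ε * Real.log 2) + 1) := by
        rw [hc]
        have : (ε * Real.log 2)⁻¹ * (a * (ε * Real.log 2)) = a := by field_simp
        have h7 : (0 : ℝ) ≤ a * (ε * Real.log 2) := by positivity
        have h8 : 0 < (ε * Real.log 2)⁻¹ := by positivity
        nlinarith
      push_cast
      rw [e1]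
      calc (a : ℝ) + 1 ≤ c * (a * (ε * Real.log 2) + 1) := h6
        _ ≤ c * ((p : ℝ) ^ ε) ^ a := by
          refine mul_le_mul_of_nonneg_left ?_ (by linarith)
          linarith
    · have h1 : (2 : ℝ) ^ (ε⁻¹) ≤ p := (Nat.le_ceil _).trans (by exact_mod_cast not_lt.1 h)
      have h2 : (2 : ℝ) ≤ (p : ℝ) ^ ε := by
        have := Real.rpow_le_rpow (by positivity) h1 hε.le
        rwa [← Real.rpow_mul (by norm_num), inv_mul_cancel₀ hε.ne', Real.rpow_one] at this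
      have h3 : a + 1 ≤ 2 ^ a := Nat.lt_two_pow_self
      rw [one_mul, e1]
      calc ((a + 1 : ℕ) : ℝ) ≤ (2 : ℝ) ^ a := by exact_mod_cast h3
        _ ≤ _ := pow_le_pow_left₀ (by norm_num) h2 a
  rw [Nat.card_divisors hn, Nat.cast_prod]
  refine (Finset.prod_le_prod (fun _ _ => by positivity) key).trans ?_
  rw [Finset.prod_mul_distrib, Real.finsetProd_rpow _ _ (fun _ _ => by positivity)]
  have e2 : ∏ p ∈ n.primeFactors, (p : ℝ) ^ n.factorization p = n := by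
    conv_rhs => rw [← Nat.prod_factorization_pow_eq_self hn]
    rw [Finsupp.prod, Nat.support_factorization]; push_cast; rfl
  rw [e2]
  refine mul_le_mul_of_nonneg_right ?_ (by positivity)
  rw [Finset.prod_ite, Finset.prod_const_one, mul_one, Finset.prod_const]
  refine pow_le_pow_right₀ hc1 ?_
  calc (n.primeFactors.filter fun p => p < N).card ≤ (range N).card :=
        Finset.card_le_card fun p hp => Finset.mem_range.2 (Finset.mem_filter.1 hp).2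
    _ = N := Finset.card_range N

theorem cop {x w g : ℤ} (h : x ^ 2 + 3 * w ^ 2 = g) (hc : IsCoprime x w) : IsCoprime g w := by
  have := (hc.pow_left (m := 2)).add_mul_left_left (3 * w)
  have e : x ^ 2 + w * (3 * w) = g := by linear_combination h
  rwa [e] at this

theorem cofactor {g A B d h : ℤ} (hd0 : d ≠ 0) (hg : g = d * h) (hd : d = Int.gcd g A)
    (hAB : g ∣ A * B) : h ∣ B := by
  have e := Int.gcd_eq_gcd_ab g A
  rw [← hd] at e
  have h1 : g ∣ d * B := by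
    have : d * B = g * (Int.gcdA g A * B) + A * B * Int.gcdB g A := by
      linear_combination B * e
    rw [this]
    exact dvd_add (Dvd.intro _ rfl) (hAB.mul_right _)
  rw [hg] at h1
  exact (mul_dvd_mul_iff_left hd0).1 h1

theorem same {g x0 w0 x1 w1 x2 w2 : ℤ} (hg : 0 < g)
    (h0 : x0 ^ 2 + 3 * w0 ^ 2 = g) (c0 : IsCoprime x0 w0)
    (h1 : x1 ^ 2 + 3 * w1 ^ 2 = g) (c1 : IsCoprime x1 w1)
    (h2 : x2 ^ 2 + 3 * w2 ^ 2 = g)
    (e : Int.gcd g (x1 * w0 - x0 * w1) = Int.gcd g (x2 * w0 - x0 * w2)) :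
    ∃ u ∈ Icc (-2 : ℤ) 2, ∃ v ∈ Icc (-1 : ℤ) 1,
      2 * x2 = u * x1 - 3 * v * w1 ∧ 2 * w2 = u * w1 + v * x1 := by
  obtain ⟨d, hd⟩ : ∃ d : ℤ, d = Int.gcd g (x1 * w0 - x0 * w1) := ⟨_, rfl⟩
  have hd2 : d = Int.gcd g (x2 * w0 - x0 * w2) := by rw [hd, e]
  have hdg : d ∣ g := by rw [hd]; exact Int.gcd_dvd_left _ _
  obtain ⟨h, hh⟩ := hdg
  have hd0 : d ≠ 0 := by rintro h'; rw [h'] at hh; omega
  have a1 : d ∣ x1 * w0 - x0 * w1 := by rw [hd]; exact Int.gcd_dvd_right _ _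
  have a2 : d ∣ x2 * w0 - x0 * w2 := by rw [hd2]; exact Int.gcd_dvd_right _ _
  have b1 : h ∣ x1 * w0 + x0 * w1 := cofactor hd0 hh hd
    ⟨w0 ^ 2 - w1 ^ 2, by linear_combination w0 ^ 2 * h1 - w1 ^ 2 * h0⟩
  have b2 : h ∣ x2 * w0 + x0 * w2 := cofactor hd0 hh hd2
    ⟨w0 ^ 2 - w2 ^ 2, by linear_combination w0 ^ 2 * h2 - w2 ^ 2 * h0⟩
  have g0 := cop h0 c0
  have g1 := cop h1 c1
  have dE : d ∣ x1 * w2 - x2 * w1 := by
    refine (g0.of_isCoprime_of_dvd_left ⟨h, hh⟩).dvd_of_dvd_mul_left ?_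
    have : w0 * (x1 * w2 - x2 * w1) = (x1 * w0 - x0 * w1) * w2 - (x2 * w0 - x0 * w2) * w1 := by ring
    rw [this]
    exact dvd_sub (a1.mul_right _) (a2.mul_right _)
  have hE : h ∣ x1 * w2 - x2 * w1 := by
    refine (g0.of_isCoprime_of_dvd_left ⟨d, by rw [hh]; ring⟩).dvd_of_dvd_mul_left ?_
    have : w0 * (x1 * w2 - x2 * w1) = (x1 * w0 + x0 * w1) * w2 - (x2 * w0 + x0 * w2) * w1 := by ring
    rw [this]
    exact dvd_sub (b1.mul_right _) (b2.mul_right _)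
  obtain ⟨t, ht⟩ : ∃ t : ℕ, t = Int.gcd d h := ⟨_, rfl⟩
  have td : (t : ℤ) ∣ d := by rw [ht]; exact Int.gcd_dvd_left _ _
  have th : (t : ℤ) ∣ h := by rw [ht]; exact Int.gcd_dvd_right _ _
  have tg : (t : ℤ) ∣ g := td.trans ⟨h, hh⟩
  have t2 : (t : ℤ) ^ 2 ∣ g := by rw [hh, sq]; exact mul_dvd_mul td th
  have t3 : (t : ℤ) ∣ 2 * x1 := by
    refine (g0.of_isCoprime_of_dvd_left tg).dvd_of_dvd_mul_left ?_
    have : w0 * (2 * x1) = (x1 * w0 - x0 * w1) + (x1 * w0 + x0 * w1) := by ring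
    rw [this]
    exact dvd_add (td.trans a1) (th.trans b1)
  have t4 : (t : ℤ) ^ 2 ∣ 12 := by
    refine ((g1.of_isCoprime_of_dvd_left tg).pow (m := 2) (n := 2)).dvd_of_dvd_mul_left ?_
    have : w1 ^ 2 * 12 = g * 4 - (2 * x1) ^ 2 := by linear_combination 4 * h1
    rw [this]
    exact dvd_sub (t2.mul_right _) (pow_dvd_pow_of_dvd t3 2)
  have t5 : t ^ 2 ∣ 12 := by exact_mod_cast t4
  have t6 : t ≤ 3 := by
    have := Nat.le_of_dvd (by norm_num) t5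
    nlinarith
  have t7 : t ≤ 2 ∧ 1 ≤ t := by
    clear * - t5 t6
    interval_cases t <;> simp_all
  have gE : g ∣ t * (x1 * w2 - x2 * w1) := by
    have e2 := Int.gcd_eq_gcd_ab d h
    rw [← ht] at e2
    obtain ⟨p, hp⟩ := dE
    obtain ⟨q, hq⟩ := hE
    refine ⟨q * Int.gcdA d h + p * Int.gcdB d h, ?_⟩
    rw [e2, hh]
    linear_combination (d * Int.gcdA d h) * hq + (h * Int.gcdB d h) * hp
  have id1 : (x1 * x2 + 3 * w1 * w2) ^ 2 + 3 * (x1 * w2 - x2 * w1) ^ 2 = g ^ 2 := by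
    have : g ^ 2 = (x1 ^ 2 + 3 * w1 ^ 2) * (x2 ^ 2 + 3 * w2 ^ 2) := by rw [h1, h2]; ring
    rw [this]; ring
  have gE2 : g ∣ 2 * (x1 * w2 - x2 * w1) := by
    have : t = 1 ∨ t = 2 := by omega
    rcases this with rfl | rfl
    · exact (by simpa using gE : g ∣ x1 * w2 - x2 * w1).mul_left 2
    · exact_mod_cast gE
  obtain ⟨v, hv⟩ := gE2
  have hg2 : 0 < g ^ 2 := by positivity
  have id2 : (2 * (x1 * x2 + 3 * w1 * w2)) ^ 2 = g ^ 2 * (4 - 3 * v ^ 2) := by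
    linear_combination 4 * id1 - 3 * (2 * (x1 * w2 - x2 * w1) + g * v) * hv
  have hv2 : 0 ≤ 4 - 3 * v ^ 2 := by
    by_contra hn
    have : g ^ 2 * (4 - 3 * v ^ 2) < 0 := mul_neg_of_pos_of_neg hg2 (by omega)
    nlinarith [sq_nonneg (2 * (x1 * x2 + 3 * w1 * w2))]
  have hv3 : -1 ≤ v ∧ v ≤ 1 := by constructor <;> nlinarith
  have hX : ∃ u ∈ Icc (-2 : ℤ) 2, 2 * (x1 * x2 + 3 * w1 * w2) = g * u := by
    have : v = 0 ∨ v = 1 ∨ v = -1 := by omega
    rcases this with rfl | rfl | rfl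
    · have : (2 * (x1 * x2 + 3 * w1 * w2)) ^ 2 = (g * 2) ^ 2 := by linear_combination id2
      rcases sq_eq_sq_iff_eq_or_eq_neg.1 this with k | k
      · exact ⟨2, by simp, k⟩
      · exact ⟨-2, by simp, by linear_combination k⟩
    · have : (2 * (x1 * x2 + 3 * w1 * w2)) ^ 2 = (g * 1) ^ 2 := by linear_combination id2
      rcases sq_eq_sq_iff_eq_or_eq_neg.1 this with k | k
      · exact ⟨1, by simp, k⟩
      · exact ⟨-1, by simp, by linear_combination k⟩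
    · have : (2 * (x1 * x2 + 3 * w1 * w2)) ^ 2 = (g * 1) ^ 2 := by linear_combination id2
      rcases sq_eq_sq_iff_eq_or_eq_neg.1 this with k | k
      · exact ⟨1, by simp, k⟩
      · exact ⟨-1, by simp, by linear_combination k⟩
  obtain ⟨u, hu, hX⟩ := hX
  refine ⟨u, hu, v, mem_Icc.2 hv3, mul_left_cancel₀ hg.ne' ?_, mul_left_cancel₀ hg.ne' ?_⟩
  · linear_combination (-2 * x2) * h1 + x1 * hX - 3 * w1 * hv
  · linear_combination (-2 * w2) * h1 + w1 * hX + x1 * hv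

theorem prim (g : ℕ) (hg : 0 < g) (S : Finset (ℤ × ℤ))
    (hS : ∀ ξ ∈ S, ξ.1 ^ 2 + 3 * ξ.2 ^ 2 = g ∧ IsCoprime ξ.1 ξ.2) :
    S.card ≤ 15 * g.divisors.card := by
  rcases S.eq_empty_or_nonempty with rfl | ⟨⟨x0, w0⟩, h0⟩
  · simp
  refine card_le_mul_card_image_of_maps_to
    (f := fun ξ => Int.gcd g (ξ.1 * w0 - x0 * ξ.2)) (fun ξ _ => ?_) 15 (fun d _ => ?_)
  · rw [Nat.mem_divisors]
    exact ⟨by exact_mod_cast Int.gcd_dvd_left (g : ℤ) (ξ.1 * w0 - x0 * ξ.2), hg.ne'⟩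
  · rcases (S.filter (fun ξ => Int.gcd g (ξ.1 * w0 - x0 * ξ.2) = d)).eq_empty_or_nonempty with
      h | ⟨⟨x1, w1⟩, h1⟩
    · rw [h]; simp
    · refine le_trans (card_le_card (t := ((Icc (-2 : ℤ) 2) ×ˢ (Icc (-1 : ℤ) 1)).image
        (fun z : ℤ × ℤ => ((z.1 * x1 - 3 * z.2 * w1) / 2, (z.1 * w1 + z.2 * x1) / 2))) ?_)
        (card_image_le.trans (by simp))
      rintro ⟨x2, w2⟩ h2
      rw [mem_filter] at h1 h2
      obtain ⟨u, hu, v, hv, e1, e2⟩ := same (by exact_mod_cast hg) (hS _ h0).1 (hS _ h0).2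
        (hS _ h1.1).1 (hS _ h1.1).2 (hS _ h2.1).1 (h1.2.trans h2.2.symm)
      refine mem_image.2 ⟨(u, v), mem_product.2 ⟨hu, hv⟩, ?_⟩
      simp only at e1 e2 ⊢
      rw [← e1, ← e2]
      simp

theorem all (g : ℕ) (hg : 0 < g) (S : Finset (ℤ × ℤ))
    (hS : ∀ ξ ∈ S, ξ.1 ^ 2 + 3 * ξ.2 ^ 2 = g) :
    S.card ≤ 15 * g.divisors.card * g.divisors.card := by
  refine card_le_mul_card_image_of_maps_to (f := fun ξ => Int.gcd ξ.1 ξ.2) (fun ξ hξ => ?_) _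
    (fun t ht => ?_)
  · rw [Nat.mem_divisors]
    refine ⟨?_, hg.ne'⟩
    have : ((Int.gcd ξ.1 ξ.2 : ℕ) : ℤ) ∣ g := by
      rw [← hS ξ hξ]
      exact dvd_add (dvd_pow (Int.gcd_dvd_left _ _) two_ne_zero)
        ((dvd_pow (Int.gcd_dvd_right _ _) two_ne_zero).mul_left _)
    exact_mod_cast this
  · have ht0 : 0 < t := Nat.pos_of_mem_divisors ht
    have ht1 : (t : ℤ) ≠ 0 := by exact_mod_cast ht0.ne'
    rcases (S.filter (fun ξ => Int.gcd ξ.1 ξ.2 = t)).eq_empty_or_nonempty with h | ⟨ξ0, h0⟩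
    · rw [h]; simp
    have key : ∀ ξ ∈ S.filter (fun ξ => Int.gcd ξ.1 ξ.2 = t),
        ξ.1 = t * (ξ.1 / t) ∧ ξ.2 = t * (ξ.2 / t) ∧ IsCoprime (ξ.1 / t) (ξ.2 / t) := by
      intro ξ hξ
      have e := (mem_filter.1 hξ).2
      refine ⟨?_, ?_, ?_⟩
      · rw [Int.mul_ediv_cancel' (e ▸ Int.gcd_dvd_left _ _)]
      · rw [Int.mul_ediv_cancel' (e ▸ Int.gcd_dvd_right _ _)]
      · rw [Int.isCoprime_iff_gcd_eq_one, ← e]
        exact Int.gcd_div_gcd_div_gcd (e ▸ ht0)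
    have hdv : t ^ 2 ∣ g := by
      have : (t : ℤ) ^ 2 ∣ g := by
        rw [← hS ξ0 (mem_filter.1 h0).1]
        refine ⟨(ξ0.1 / t) ^ 2 + 3 * (ξ0.2 / t) ^ 2, ?_⟩
        linear_combination (ξ0.1 + t * (ξ0.1 / t)) * (key ξ0 h0).1 +
          3 * (ξ0.2 + t * (ξ0.2 / t)) * (key ξ0 h0).2.1
      exact_mod_cast this
    obtain ⟨g', hg'⟩ := hdv
    have hg0 : 0 < g' := Nat.pos_of_ne_zero (by rintro rfl; omega)
    have hinj : Set.InjOn (fun ξ : ℤ × ℤ => (ξ.1 / t, ξ.2 / t))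
        (S.filter (fun ξ => Int.gcd ξ.1 ξ.2 = t) : Finset _) := by
      intro a ha b hb e
      simp only [Prod.mk.injEq] at e
      refine Prod.ext ?_ ?_
      · rw [(key a ha).1, (key b hb).1, e.1]
      · rw [(key a ha).2.1, (key b hb).2.1, e.2]
    rw [← card_image_of_injOn hinj]
    refine (prim g' hg0 _ ?_).trans (Nat.mul_le_mul_left 15 (card_le_card ?_))
    · intro ξ hξ
      obtain ⟨a, ha, rfl⟩ := mem_image.1 hξ
      refine ⟨mul_left_cancel₀ (pow_ne_zero 2 ht1) ?_, (key a ha).2.2⟩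
      have h1 := hS a (mem_filter.1 ha).1
      have h2 : (g : ℤ) = t ^ 2 * g' := by exact_mod_cast hg'
      simp only
      linear_combination h1 + h2 - (a.1 + t * (a.1 / t)) * (key a ha).1 -
          3 * (a.2 + t * (a.2 / t)) * (key a ha).2.1
    · exact Nat.divisors_subset_of_dvd hg.ne' (Dvd.intro_left _ hg'.symm)

end RepsP

theorem reps_finite (g : ℤ) : {w : ℤ × ℤ | w.1 ^ 2 + 3 * w.2 ^ 2 = g}.Finite := by
  refine (Set.Finite.prod (Set.finite_Icc (-g) g) (Set.finite_Icc (-g) g)).subset ?_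
  rintro ⟨x, y⟩ h
  have h : x ^ 2 + 3 * y ^ 2 = g := h
  have hx := Int.le_self_sq x
  have hx' := Int.le_self_sq (-x)
  have hy := Int.le_self_sq y
  have hy' := Int.le_self_sq (-y)
  refine ⟨⟨?_, ?_⟩, ?_, ?_⟩ <;> nlinarith [sq_nonneg x, sq_nonneg y]

theorem reps_le : S_Reps := by
  intro ε hε
  obtain ⟨C, hC, h⟩ := RepsP.div_bound (half_pos hε)
  refine ⟨15 * C ^ 2, by positivity, fun g hg => ?_⟩
  obtain ⟨n, rfl⟩ := Int.eq_ofNat_of_zero_le hg.le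
  have hn : 0 < n := by exact_mod_cast hg
  have h1 := RepsP.all n hn (reps_finite n).toFinset (fun ξ hξ => by simpa using hξ)
  have h2 : reps n = (reps_finite n).toFinset.card := Set.ncard_eq_toFinset_card _ _
  have h3 := h n hn.ne'
  have h4 : ((n : ℝ) ^ (ε / 2)) ^ 2 = (n : ℝ) ^ ε := by
    rw [← Real.rpow_natCast, ← Real.rpow_mul (by positivity)]
    norm_num
  have h5 : (reps n : ℝ) ≤ 15 * (n.divisors.card : ℝ) ^ 2 := by
    rw [h2, sq, ← mul_assoc]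
    exact_mod_cast h1
  have h6 : (n.divisors.card : ℝ) ^ 2 ≤ (C * (n : ℝ) ^ (ε / 2)) ^ 2 :=
    pow_le_pow_left₀ (by positivity) h3 2
  rw [mul_pow, h4] at h6
  push_cast
  nlinarith

end Pool.Agent.P.MP_94fe55_nt
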