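import Pool.Agent.P.MP_94fe55_nt.Kap

set_option autoImplicit false

namespace Pool.Agent.P.MP_94fe55_nt

open Polynomial WeierstrassCurve
open scoped NNReal

namespace RhoP

variable {p : ℕ} {V : Place p} {W : WeierstrassCurve ℂ}

theorem lift {z : ℂ} (h : V.v z ≤ 1) : ∃ a : V.O, z = a := ⟨⟨z, h⟩, rfl⟩

theorem exists_red (g : V.Good W) (P : Pt W) (hx : V.v (px P) ≤ 1) (hy : V.v (py P) ≤ 1) :
    ∃ Q : Pt (V.redW W), V.RedTo P Q := by
  by_cases h0 : P = 0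
  · subst h0
    exact ⟨0, by simp, hx, hy, by simp, by simp⟩
  have e := weq h0
  obtain ⟨x, ex⟩ := lift hx
  obtain ⟨y, ey⟩ := lift hy
  obtain ⟨a1, e1⟩ := lift g.1
  obtain ⟨a2, e2⟩ := lift g.2.1
  obtain ⟨a3, e3⟩ := lift g.2.2.1
  obtain ⟨a4, e4⟩ := lift g.2.2.2.1
  obtain ⟨a6, e6⟩ := lift g.2.2.2.2.1
  have eO : y ^ 2 + a1 * x * y + a3 * y = x ^ 3 + a2 * x ^ 2 + a4 * x + a6 := by
    apply Subtype.val_injective
    push_cast
    rw [← ex, ← ey, ← e1, ← e2, ← e3, ← e4, ← e6]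
    exact e
  have ek := congrArg (IsLocalRing.residue V.O) eO
  simp only [map_add, map_mul, map_pow] at ek
  obtain ⟨Q, hQ, h1, h2⟩ := exists_pt (W := V.redW W) g.red_Δ_ne
    (x := V.red (px P)) (y := V.red (py P)) (by
      simp only [Place.redW]
      rw [ex, ey, e1, e2, e3, e4, e6]
      simp only [Place.red_coe]
      exact ek)
  exact ⟨Q, ⟨fun h => absurd h h0, fun h => absurd h hQ⟩, hx, hy, h1, h2⟩

theorem red_uniq {Wb : WeierstrassCurve V.k} {P : Pt W} {Q Q' : Pt Wb} (h : V.RedTo P Q)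
    (h' : V.RedTo P Q') : Q = Q' := by
  by_cases h0 : P = 0
  · rw [h.1.1 h0, h'.1.1 h0]
  · exact pt_ext (fun e => h0 (h.1.2 e)) (fun e => h0 (h'.1.2 e))
      (h.2.2.2.1.trans h'.2.2.2.1.symm) (h.2.2.2.2.trans h'.2.2.2.2.symm)

theorem red_neg (g : V.Good W) {P : Pt W} {Q R : Pt (V.redW W)} (h : V.RedTo P Q)
    (h' : V.RedTo (-P) R) : R = -Q := by
  by_cases h0 : P = 0
  · rw [h.1.1 h0, h'.1.1 (by rw [h0, neg_zero]), neg_zero]
  have hQ : Q ≠ 0 := fun e => h0 (h.1.2 e)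
  refine pt_ext (fun e => h0 (neg_eq_zero.1 (h'.1.2 e))) (neg_ne_zero.2 hQ) ?_ ?_
  · rw [h'.2.2.2.1, px_neg, px_neg, h.2.2.2.1]
  · rw [h'.2.2.2.2, py_neg h0, py_neg hQ, h.2.2.2.1, h.2.2.2.2]
    obtain ⟨x, ex⟩ := lift h.2.1
    obtain ⟨y, ey⟩ := lift h.2.2.1
    obtain ⟨a1, e1⟩ := lift g.1
    obtain ⟨a3, e3⟩ := lift g.2.2.1
    have e : -py P - W.a₁ * px P - W.a₃ = ((-y - a1 * x - a3 : V.O) : ℂ) := by
      rw [ex, ey, e1, e3]
      push_cast
      rfl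
    rw [e]
    simp only [Place.redW]
    rw [ex, ey, e1, e3]
    simp only [Place.red_coe, map_sub, map_neg, map_mul]

/-- the last step of the addition formulas -/
theorem red_third (g : V.Good W) {P Q : Pt W} {P' Q' R : Pt (V.redW W)} (hP : V.RedTo P P')
    (hQ : V.RedTo Q Q') (hR : V.RedTo (P + Q) R) {m : ℂ} (hm : V.v m ≤ 1) (h0 : P + Q ≠ 0)
    (h0' : P' + Q' ≠ 0)
    (hx : px (P + Q) = m ^ 2 + W.a₁ * m - W.a₂ - px P - px Q)
    (hy : py (P + Q) = -(m * (px (P + Q) - px P) + py P) - W.a₁ * px (P + Q) - W.a₃)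
    (hx' : px (P' + Q') = V.red m ^ 2 + (V.redW W).a₁ * V.red m - (V.redW W).a₂ - px P' - px Q')
    (hy' : py (P' + Q') = -(V.red m * (px (P' + Q') - px P') + py P') -
      (V.redW W).a₁ * px (P' + Q') - (V.redW W).a₃) : R = P' + Q' := by
  obtain ⟨x, ex⟩ := lift hP.2.1
  obtain ⟨y, ey⟩ := lift hP.2.2.1
  obtain ⟨u, eu⟩ := lift hQ.2.1
  obtain ⟨w, ew⟩ := lift hR.2.1
  obtain ⟨n, en⟩ := lift hm
  obtain ⟨a1, e1⟩ := lift g.1
  obtain ⟨a2, e2⟩ := lift g.2.1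
  obtain ⟨a3, e3⟩ := lift g.2.2.1
  have h1 : px R = px (P' + Q') := by
    have e : px (P + Q) = ((n ^ 2 + a1 * n - a2 - x - u : V.O) : ℂ) := by
      rw [hx, ex, eu, en, e1, e2]
      push_cast
      rfl
    rw [hR.2.2.2.1, hx', hP.2.2.2.1, hQ.2.2.2.1, e]
    simp only [Place.redW]
    rw [ex, eu, en, e1, e2]
    simp only [Place.red_coe, map_sub, map_add, map_mul, map_pow]
  refine pt_ext (fun e => h0 (hR.1.2 e)) h0' h1 ?_
  have e : py (P + Q) = ((-(n * (w - x) + y) - a1 * w - a3 : V.O) : ℂ) := by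
    rw [hy, ew, ex, ey, en, e1, e3]
    push_cast
    rfl
  rw [hR.2.2.2.2, hy', ← h1, hR.2.2.2.1, hP.2.2.2.1, hP.2.2.2.2, e]
  simp only [Place.redW]
  rw [ew, ex, ey, en, e1, e3]
  simp only [Place.red_coe, map_sub, map_add, map_mul, map_neg]

theorem red_chord (g : V.Good W) {P Q : Pt W} {P' Q' R : Pt (V.redW W)} (hP : V.RedTo P P')
    (hQ : V.RedTo Q Q') (hR : V.RedTo (P + Q) R) (hP0 : P ≠ 0) (hQ0 : Q ≠ 0)
    (hv : V.v (px P - px Q) = 1) : R = P' + Q' := by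
  have hne : px P ≠ px Q := fun e => by simp [e] at hv
  have hd : px P' - px Q' = V.red (px P - px Q) := by
    rw [V.red_sub hP.2.1 hQ.2.1, hP.2.2.2.1, hQ.2.2.2.1]
  have hd0 : px P' - px Q' ≠ 0 := by
    rw [hd]
    exact (V.red_ne_zero hv.le).2 hv
  obtain ⟨h0, m, hm, hx, hy⟩ := add_chord hP0 hQ0 hne
  obtain ⟨h0', m', hm', hx', hy'⟩ := add_chord (fun e => hP0 (hP.1.2 e))
    (fun e => hQ0 (hQ.1.2 e)) (sub_ne_zero.1 hd0)
  have hm1 : V.v m ≤ 1 := by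
    have h1 := congrArg V.v hm
    rw [map_mul, hv, mul_one] at h1
    rw [h1]
    exact V.le_sub hP.2.2.1 hQ.2.2.1
  have e : m' = V.red m := by
    apply mul_right_cancel₀ hd0
    rw [hm', hd, ← V.red_mul hm1 hv.le, hm, V.red_sub hP.2.2.1 hQ.2.2.1, hP.2.2.2.2, hQ.2.2.2.2]
  subst e
  exact red_third g hP hQ hR hm1 h0 h0' hx hy hx' hy'

theorem red_tangent (g : V.Good W) {P : Pt W} {P' R : Pt (V.redW W)} (hP : V.RedTo P P')
    (hR : V.RedTo (P + P) R) (hP0 : P ≠ 0) (hv : V.v (pY P) = 1) : R = P' + P' := by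
  have hne : pY P ≠ 0 := fun e => by simp [e] at hv
  have hd : pY P' = V.red (pY P) := hP.pY g rfl
  have hd0 : pY P' ≠ 0 := by
    rw [hd]
    exact (V.red_ne_zero hv.le).2 hv
  obtain ⟨h0, m, hm, hx, hy⟩ := add_tangent hP0 hne
  obtain ⟨h0', m', hm', hx', hy'⟩ := add_tangent (fun e => hP0 (hP.1.2 e)) hd0
  obtain ⟨x, ex⟩ := lift hP.2.1
  obtain ⟨y, ey⟩ := lift hP.2.2.1
  obtain ⟨a1, e1⟩ := lift g.1
  obtain ⟨a2, e2⟩ := lift g.2.1
  obtain ⟨a4, e4⟩ := lift g.2.2.2.1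
  have e0 : m * pY P = ((3 * x ^ 2 + 2 * a2 * x + a4 - a1 * y : V.O) : ℂ) := by
    rw [hm, ex, ey, e1, e2, e4]
    push_cast
    rfl
  have hm1 : V.v m ≤ 1 := by
    have h1 := congrArg V.v e0
    rw [map_mul, hv, mul_one] at h1
    rw [h1]
    exact (3 * x ^ 2 + 2 * a2 * x + a4 - a1 * y : V.O).2
  have e : m' = V.red m := by
    apply mul_right_cancel₀ hd0
    rw [hm', hd, ← V.red_mul hm1 hv.le, e0, hP.2.2.2.1, hP.2.2.2.2]
    simp only [Place.redW]
    rw [ex, ey, e1, e2, e4]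
    simp only [Place.red_coe, map_sub, map_add, map_mul, map_pow, map_ofNat]
  subst e
  exact red_third g hP hP hR hm1 h0 h0' hx hy hx' hy'

theorem red_add (hL : S_LH) (g : V.Good W) (hT : ∀ P ∈ ptor p W, V.v (px P) ≤ 1)
    {P Q : Pt W} (hp : P ∈ ptor p W) (hq : Q ∈ ptor p W) {P' Q' R : Pt (V.redW W)}
    (hP : V.RedTo P P') (hQ : V.RedTo Q Q') (hR : V.RedTo (P + Q) R) : R = P' + Q' := by
  obtain ⟨L1, L2, -, -⟩ := hL p V W g
  have hM : ∀ P ∈ ptor p W, V.M P = 1 := fun P hP => Place.M_eq_one.2 (hT P hP)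
  by_cases hP0 : P = 0
  · rw [hP.1.1 hP0, zero_add]
    rw [hP0, zero_add] at hR
    exact red_uniq hR hQ
  by_cases hQ0 : Q = 0
  · rw [hQ.1.1 hQ0, add_zero]
    rw [hQ0, add_zero] at hR
    exact red_uniq hR hP
  by_cases h1 : P + Q = 0
  · have e : Q = -P := (neg_eq_of_add_eq_zero_right h1).symm
    have hq' : V.RedTo (-P) Q' := by rw [← e]; exact hQ
    rw [hR.1.1 h1, red_neg g hP hq', add_neg_cancel]
  by_cases h2 : P - Q = 0
  · have e : P = Q := sub_eq_zero.1 h2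
    subst e
    have h3 := L2 P h1
    rw [hM _ (add_mem hp hp), hM _ hp, mul_one, one_pow] at h3
    rw [← red_uniq hP hQ]
    exact red_tangent g hP hR hP0 ((pow_eq_one_iff_of_nonneg zero_le two_ne_zero).1 h3)
  · have h3 := L1 P Q hP0 hQ0 h1 h2
    rw [hM _ (add_mem hp hq), hM _ (sub_mem hp hq), hM _ hp, hM _ hq] at h3
    simp only [mul_one, one_pow] at h3
    exact red_chord g hP hQ hR hP0 hQ0 ((pow_eq_one_iff_of_nonneg zero_le two_ne_zero).1 h3)

/-- there are `m ^ 2` distinct points killed by `m` -/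
theorem exists_tors {L : PeriodPair} {π : ℂ →+ Pt W} (h : Unif W L π) {m : ℕ} (hm : m ≠ 0) :
    ∃ f : Fin m × Fin m → Pt W, Function.Injective f ∧ ∀ a, m • f a = 0 := by
  have hm' : (m : ℂ) ≠ 0 := Nat.cast_ne_zero.2 hm
  refine ⟨fun a => π ((((a.1 : ℕ) : ℂ) * L.ω₁ + ((a.2 : ℕ) : ℂ) * L.ω₂) / m), ?_, fun a => ?_⟩
  · rintro ⟨a, b⟩ ⟨c, d⟩ e
    have e1 := sub_eq_zero.2 e
    rw [← map_sub, h.ker] at e1
    obtain ⟨s, t, e2⟩ := PeriodPair.mem_lattice.1 e1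
    have e3 := LinearIndependent.pair_iff.1 L.indep
      ((s : ℝ) * m - (((a : ℕ) : ℝ) - ((c : ℕ) : ℝ)))
      ((t : ℝ) * m - (((b : ℕ) : ℝ) - ((d : ℕ) : ℝ))) (by
        simp only [Complex.real_smul]
        push_cast
        have e4 := congrArg (fun z => z * (m : ℂ)) e2
        simp only [sub_mul, div_mul_cancel₀ _ hm'] at e4
        linear_combination e4)
    have key : ∀ (s : ℤ) (a c : Fin m),
        (s : ℝ) * m - (((a : ℕ) : ℝ) - ((c : ℕ) : ℝ)) = 0 → a = c := fun s a c e => by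
      have e5 : s * (m : ℤ) = ((a : ℕ) : ℤ) - ((c : ℕ) : ℤ) := by
        exact_mod_cast sub_eq_zero.1 e
      have ha := a.2
      have hc := c.2
      have e6 : ((a : ℕ) : ℤ) - ((c : ℕ) : ℤ) = 0 :=
        Int.eq_zero_of_abs_lt_dvd (m := (m : ℤ)) ⟨s, by rw [← e5, mul_comm]⟩
          (by rw [abs_lt]; constructor <;> omega)
      exact Fin.ext (by omega)
    rw [key s a c e3.1, key t b d e3.2]
  · rw [← map_nsmul, h.ker, nsmul_eq_mul, mul_div_cancel₀ _ hm']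
    exact PeriodPair.mem_lattice.2 ⟨(a.1 : ℕ), (a.2 : ℕ), by simp⟩

theorem card_le {F : Type} [Field F] [DecidableEq F] {W : WeierstrassCurve F}
    {Γ : Type} [AddCommGroup Γ] {ι : Γ →+ Pt W} (hQ : S_Quat) (h : RingFacts ι) {m : ℕ}
    (hm : m ≠ 0) (K : Finset Γ) (hK : ∀ P ∈ K, m • P = 0) : K.card ≤ m ^ 2 := by
  have h1 : (qd ι (m : AddMonoid.End Γ) : ℤ) = (m : ℤ) ^ 2 := by
    have h2 := (hQ _ _ h.qf).int m
    rw [Int.cast_natCast] at h2
    exact h2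
  have h2 : qd ι (m : AddMonoid.End Γ) = m ^ 2 := by exact_mod_cast h1
  have h3 : (m : AddMonoid.End Γ) ≠ 0 := fun e => by
    rw [e, h.qd_eq _ _ _ h.rep_zero, natDegree_one] at h2
    exact pow_ne_zero 2 hm h2.symm
  rw [← h2]
  exact h.ker_card _ (h.alg_nat m) h3 K fun P hP => by
    rw [AddMonoid.End.natCast_apply]
    exact hK P hP

end RhoP

open RhoP in
theorem rho (hR : S_Ring) (hQ : S_Quat) (hL : S_LH) (hT : S_Tor) : S_Rho := by
  classical
  intro p V W L π Wb hp g hu e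
  subst e
  have hx : ∀ P ∈ ptor p W, V.v (px P) ≤ 1 := hT p V W L π hp g hu
  have hy : ∀ P ∈ ptor p W, V.v (py P) ≤ 1 := fun P hP => (hL p V W g).2.2.2 P (hx P hP)
  choose r hr using fun P : ptor p W => exists_red g P.1 (hx P.1 P.2) (hy P.1 P.2)
  let r0 : ptor p W →+ Pt (V.redW W) := AddMonoidHom.mk' r fun P Q =>
    red_add hL g hx P.2 Q.2 (hr P) (hr Q) (hr (P + Q))
  let r1 : ptor p W →+ ptor p (V.redW W) := r0.codRestrict _ fun P => by
    obtain ⟨m, hm, hP⟩ := P.2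
    refine ⟨m, hm, ?_⟩
    have h1 : m • P = 0 := Subtype.ext hP
    rw [← map_nsmul, h1, map_zero]
  have hinj : Function.Injective r1 := by
    rw [injective_iff_map_eq_zero]
    intro P hP
    exact Subtype.ext ((hr P).1.2 (congrArg Subtype.val hP))
  have := hu.infinite_ptor hp.ne_zero
  have : Infinite (ptor p (V.redW W)) := Infinite.of_injective _ hinj
  have hF : RingFacts (ptor p (V.redW W)).subtype :=
    hR V.k _ (ptor p (V.redW W)) _ g.red_Δ_ne Subtype.val_injective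
  have hsurj : Function.Surjective r1 := by
    intro Q
    obtain ⟨m, hm, hQm⟩ := Q.2
    have hm0 : m ≠ 0 := by
      rintro rfl
      exact hp.ne_one (Nat.coprime_zero_left p |>.1 hm)
    obtain ⟨f, hf, hfm⟩ := exists_tors hu hm0
    let f1 : Fin m × Fin m → ptor p (V.redW W) := fun a => r1 ⟨f a, m, hm, hfm a⟩
    have hf1 : Function.Injective f1 := fun a b e => hf (congrArg Subtype.val (hinj e))
    by_contra hc
    have hn : Q ∉ Finset.univ.image f1 := fun h => by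
      obtain ⟨a, -, ha⟩ := Finset.mem_image.1 h
      exact hc ⟨_, ha⟩
    have h1 := card_le hQ hF hm0 (insert Q (Finset.univ.image f1)) fun P hP => by
      rcases Finset.mem_insert.1 hP with rfl | hP
      · exact Subtype.ext hQm
      · obtain ⟨a, -, rfl⟩ := Finset.mem_image.1 hP
        have h2 : m • (⟨f a, m, hm, hfm a⟩ : ptor p W) = 0 := Subtype.ext (hfm a)
        rw [← map_nsmul, h2, map_zero]
    rw [Finset.card_insert_of_notMem hn, Finset.card_image_of_injective _ hf1] at h1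
    simp only [Finset.card_univ, Fintype.card_prod, Fintype.card_fin, sq] at h1
    omega
  exact ⟨AddEquiv.ofBijective r1 ⟨hinj, hsurj⟩, hr⟩

end Pool.Agent.P.MP_94fe55_nt
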