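import Pool.Agent.P.MP_94fe55_nt.PtB

set_option autoImplicit false
set_option linter.unusedSectionVars false

namespace Pool.Agent.P.MP_94fe55_nt

open Polynomial Filter

namespace Ring1P

section poly

variable {F : Type} [Field F]

lemma dl {p q : F[X]} {n m : ℕ} (hp : p.degree < n) (hq : q.degree ≤ m) :
    (p * q).degree < ((n + m : ℕ) : WithBot ℕ) := by
  by_cases h1 : p = 0
  · simp [h1]
  by_cases h2 : q = 0
  · simp [h2]
  rw [degree_mul]
  rw [degree_eq_natDegree h1] at hp ⊢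
  rw [degree_eq_natDegree h2] at hq ⊢
  norm_cast at hp hq ⊢
  omega

lemma cop_ne {A B : F[X]} (h : IsCoprime A B) (x : F) : ¬ (A.eval x = 0 ∧ B.eval x = 0) := by
  rintro ⟨h1, h2⟩
  obtain ⟨u, v, e⟩ := h
  have := congrArg (eval x) e
  simp [h1, h2] at this

lemma bez2 (p q : F[X]) : ∃ g a b : F[X], g = a * p + b * q ∧ g ∣ p ∧ g ∣ q := by
  classical
  exact ⟨EuclideanDomain.gcd p q, EuclideanDomain.gcdA p q, EuclideanDomain.gcdB p q,
    by rw [EuclideanDomain.gcd_eq_gcd_ab]; ring, EuclideanDomain.gcd_dvd_left p q,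
    EuclideanDomain.gcd_dvd_right p q⟩

variable [IsAlgClosed F]

lemma const_of_noroot {k : F[X]} (h : ∀ x, k.eval x ≠ 0) : ∃ c : F, c ≠ 0 ∧ k = C c := by
  by_cases hd : k.degree = 0
  · refine ⟨k.coeff 0, fun h0 => ?_, eq_C_of_degree_eq_zero hd⟩
    have := h 0
    rw [eq_C_of_degree_eq_zero hd, h0] at this
    simp at this
  · obtain ⟨x, hx⟩ := IsAlgClosed.exists_root k hd
    exact absurd hx (h x)

lemma cop_of {A B : F[X]} (h : ∀ x, ¬ (A.eval x = 0 ∧ B.eval x = 0)) : IsCoprime A B := by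
  obtain ⟨g, a, b, e, ⟨s, hs⟩, ⟨t, ht⟩⟩ := bez2 A B
  obtain ⟨c, hc, rfl⟩ := const_of_noroot (k := g) (fun x hx => h x ⟨by simp [hs, hx], by simp [ht, hx]⟩)
  refine ⟨C c⁻¹ * a, C c⁻¹ * b, ?_⟩
  rw [mul_assoc, mul_assoc, ← mul_add, ← e, ← map_mul, inv_mul_cancel₀ hc, map_one]

lemma prop3 {u0 u1 u2 v0 v1 v2 : F[X]} (h01 : u0 * v1 = u1 * v0) (h02 : u0 * v2 = u2 * v0)
    (h12 : u1 * v2 = u2 * v1) (hu : ∀ x, ¬ (u0.eval x = 0 ∧ u1.eval x = 0 ∧ u2.eval x = 0))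
    (hv : ∀ x, ¬ (v0.eval x = 0 ∧ v1.eval x = 0 ∧ v2.eval x = 0)) :
    ∃ c : F, c ≠ 0 ∧ u0 = C c * v0 ∧ u1 = C c * v1 ∧ u2 = C c * v2 := by
  obtain ⟨g, a, b, e, ⟨s, hs⟩, ⟨t, ht⟩⟩ := bez2 v1 v2
  obtain ⟨p, q, e2⟩ := cop_of (A := v0) (B := g)
    (fun x hx => hv x ⟨hx.1, by simp [hs, hx.2], by simp [ht, hx.2]⟩)
  rw [e] at e2
  have k0 : u0 = (p * u0 + q * (a * u1 + b * u2)) * v0 := by
    linear_combination (-u0) * e2 + q * a * h01 + q * b * h02
  have k1 : u1 = (p * u0 + q * (a * u1 + b * u2)) * v1 := by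
    linear_combination (-u1) * e2 - p * h01 + q * b * h12
  have k2 : u2 = (p * u0 + q * (a * u1 + b * u2)) * v2 := by
    linear_combination (-u2) * e2 - p * h02 - q * a * h12
  generalize p * u0 + q * (a * u1 + b * u2) = k at k0 k1 k2
  obtain ⟨c, hc, rfl⟩ := const_of_noroot (k := k)
    (fun x hx => hu x ⟨by simp [k0, hx], by simp [k1, hx], by simp [k2, hx]⟩)
  exact ⟨c, hc, k0, k1, k2⟩

omit [IsAlgClosed F] in
lemma tri_ne {a b c d : F} (h1 : ¬ (a = 0 ∧ b = 0)) (h2 : ¬ (c = 0 ∧ d = 0)) :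
    ¬ (b * d = 0 ∧ a * d + c * b = 0 ∧ a * c = 0) := by
  rintro ⟨e1, e2, e3⟩
  rcases mul_eq_zero.1 e1 with hb | hd
  · have ha : a ≠ 0 := fun e => h1 ⟨e, hb⟩
    have hc : c = 0 := (mul_eq_zero.1 e3).resolve_left ha
    have : a * d = 0 := by rw [hb] at e2; simpa using e2
    exact h2 ⟨hc, (mul_eq_zero.1 this).resolve_left ha⟩
  · have hc : c ≠ 0 := fun e => h2 ⟨e, hd⟩
    have ha : a = 0 := (mul_eq_zero.1 e3).resolve_right hc
    have : c * b = 0 := by rw [hd] at e2; simpa using e2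
    exact h1 ⟨ha, (mul_eq_zero.1 this).resolve_left hc⟩

omit [IsAlgClosed F] in
lemma degS (b2 b4 b6 b8 : F) {A B A' B' : F[X]} (hA : A.Monic) (hB : B.degree < A.degree)
    (hA' : A'.Monic) (hB' : B'.degree < A'.degree) :
    (S2 (C b4) (C b6) (C b8) A B A' B').Monic ∧
      (S2 (C b4) (C b6) (C b8) A B A' B').natDegree = 2 * A.natDegree + 2 * A'.natDegree ∧
      (S1 (C b2) (C b4) (C b6) A B A' B').degree < (S2 (C b4) (C b6) (C b8) A B A' B').degree ∧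
      (S0 A B A' B').degree < (S2 (C b4) (C b6) (C b8) A B A' B').degree := by
  rw [degree_eq_natDegree hA.ne_zero] at hB
  rw [degree_eq_natDegree hA'.ne_zero] at hB'
  set n := A.natDegree + A'.natDegree with hn
  have hs : (A * A').Monic := hA.mul hA'
  have hsn : (A * A').natDegree = n := hA.natDegree_mul hA'
  have hsd : (A * A').degree ≤ n := by rw [← hsn]; exact degree_le_natDegree
  have ht : (A * B' + A' * B).degree < n := by
    refine (degree_add_le _ _).trans_lt (max_lt ?_ ?_)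
    · rw [mul_comm, hn, add_comm]; exact dl hB' degree_le_natDegree
    · rw [mul_comm]; exact dl hB degree_le_natDegree
  have hu : (B * B').degree < n := dl hB hB'.le
  have e0 : S0 A B A' B' = (A * B' + A' * B) * (A * B' + A' * B) -
      (4 : F) • ((B * B') * (A * A')) := by
    simp only [S0, smul_eq_C_mul, map_ofNat]; ring
  have e1 : S1 (C b2) (C b4) (C b6) A B A' B' = (2 : F) • ((A * B' + A' * B) * (A * A')) +
      b2 • ((B * B') * (A * A')) + b4 • ((A * B' + A' * B) * (B * B')) +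
      b6 • ((B * B') * (B * B')) := by
    simp only [S1, smul_eq_C_mul, map_ofNat]; ring
  have e2 : S2 (C b4) (C b6) (C b8) A B A' B' = (A * A') * (A * A') +
      (-(b4 • ((B * B') * (A * A'))) - b6 • ((A * B' + A' * B) * (B * B')) -
        b8 • ((B * B') * (B * B'))) := by
    simp only [S2, smul_eq_C_mul]; ring
  generalize A * A' = s at *
  generalize A * B' + A' * B = t at *
  generalize B * B' = u at *
  have m1 : t * t ∈ degreeLT F (n + n) := mem_degreeLT.2 (dl ht ht.le)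
  have m2 : u * s ∈ degreeLT F (n + n) := mem_degreeLT.2 (dl hu hsd)
  have m3 : t * s ∈ degreeLT F (n + n) := mem_degreeLT.2 (dl ht hsd)
  have m4 : t * u ∈ degreeLT F (n + n) := mem_degreeLT.2 (dl ht hu.le)
  have m5 : u * u ∈ degreeLT F (n + n) := mem_degreeLT.2 (dl hu hu.le)
  have hss : (s * s).Monic := hs.mul hs
  have hssd : (s * s).degree = ((n + n : ℕ) : WithBot ℕ) := by
    rw [degree_eq_natDegree hss.ne_zero, hs.natDegree_mul hs, hsn]
  have hr : (-(b4 • (u * s)) - b6 • (t * u) - b8 • (u * u)).degree < (s * s).degree := by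
    rw [hssd]
    exact mem_degreeLT.1 (Submodule.sub_mem _ (Submodule.sub_mem _ (Submodule.neg_mem _
      (Submodule.smul_mem _ _ m2)) (Submodule.smul_mem _ _ m4)) (Submodule.smul_mem _ _ m5))
  have hd := degree_add_eq_left_of_degree_lt hr
  rw [e0, e1, e2, hd, hssd]
  refine ⟨hss.add_of_left hr, ?_, mem_degreeLT.1 ?_, mem_degreeLT.1 ?_⟩
  · rw [natDegree_eq_of_degree_eq_some (hd.trans hssd)]; omega
  · exact Submodule.add_mem _ (Submodule.add_mem _ (Submodule.add_mem _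
      (Submodule.smul_mem _ _ m3) (Submodule.smul_mem _ _ m2)) (Submodule.smul_mem _ _ m4))
      (Submodule.smul_mem _ _ m5)
  · exact Submodule.sub_mem _ m1 (Submodule.smul_mem _ _ m2)

omit [IsAlgClosed F] in
lemma deg_force {A1 B1 A2 B2 : F[X]} (h0 : (B1 * B2).degree < (A1 * A2).degree)
    (h1 : (A1 * B2 + A2 * B1).degree < (A1 * A2).degree) : B2.degree < A2.degree := by
  by_contra hc
  rw [not_lt] at hc
  have hne : A1 * A2 ≠ 0 := by
    intro e; rw [e, degree_zero] at h0; exact not_lt_bot h0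
  have a1 : A1 ≠ 0 := left_ne_zero_of_mul hne
  have a2 : A2 ≠ 0 := right_ne_zero_of_mul hne
  have b2 : B2 ≠ 0 := by
    intro e; rw [e, degree_zero, le_bot_iff, degree_eq_bot] at hc; exact a2 hc
  have hle : (A1 * A2).degree ≤ (A1 * B2).degree := by
    rw [degree_mul, degree_mul]; exact add_le_add_right hc _
  have hlt : (A2 * B1).degree < (A1 * B2).degree := by
    by_cases b1 : B1 = 0
    · rw [b1, mul_zero, degree_zero, bot_lt_iff_ne_bot, Ne, degree_eq_bot]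
      exact mul_ne_zero a1 b2
    · simp only [degree_mul] at h0 ⊢
      rw [degree_eq_natDegree a1, degree_eq_natDegree a2, degree_eq_natDegree b1,
        degree_eq_natDegree b2] at *
      norm_cast at h0 hc ⊢
      omega
  rw [degree_add_eq_left_of_degree_lt hlt] at h1
  exact absurd h1 (not_lt.2 hle)

/-- homogeneous substitution -/
noncomputable def hom (G : F[X]) (n : ℕ) (A B : F[X]) : F[X] :=
  ∑ i ∈ Finset.range (G.natDegree + 1), C (G.coeff i) * A ^ i * B ^ (n - i)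

omit [IsAlgClosed F] in
lemma hom_eval {G : F[X]} {n : ℕ} (hn : G.natDegree ≤ n) (A B : F[X]) {x z : F}
    (h : z * B.eval x = A.eval x) : (hom G n A B).eval x = B.eval x ^ n * G.eval z := by
  rw [hom, eval_finsetSum, eval_eq_sum_range (p := G), Finset.mul_sum]
  refine Finset.sum_congr rfl (fun i hi => ?_)
  have hi' : i ≤ n := by have := Finset.mem_range.1 hi; omega
  obtain ⟨j, rfl⟩ := Nat.exists_eq_add_of_le hi'
  simp only [eval_mul, eval_C, eval_pow, ← h, Nat.add_sub_cancel_left]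
  ring

omit [IsAlgClosed F] in
lemma hom_eval0 {G : F[X]} (hG : G.Monic) (A B : F[X]) {x : F} (h : B.eval x = 0) :
    (hom G G.natDegree A B).eval x = A.eval x ^ G.natDegree := by
  rw [hom, eval_finsetSum, Finset.sum_range_succ, Finset.sum_eq_zero]
  · simp [hG.coeff_natDegree]
  · intro i hi
    have : G.natDegree - i ≠ 0 := by have := Finset.mem_range.1 hi; omega
    simp [h, this]

omit [IsAlgClosed F] in
lemma hom_deg {G : F[X]} (hG : G ≠ 0) {n : ℕ} (hn : G.natDegree ≤ n) {A B : F[X]} (hA : A.Monic)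
    (hB : B ≠ 0) (hlt : B.natDegree < A.natDegree) :
    hom G n A B ≠ 0 ∧
      (hom G n A B).natDegree = G.natDegree * A.natDegree + (n - G.natDegree) * B.natDegree ∧
      (hom G n A B).leadingCoeff = G.leadingCoeff * B.leadingCoeff ^ (n - G.natDegree) := by
  set m := G.natDegree with hm
  have hc : C (G.coeff m) ≠ 0 := C_ne_zero.2 (leadingCoeff_ne_zero.2 hG)
  have hT : C (G.coeff m) * A ^ m * B ^ (n - m) ≠ 0 :=
    mul_ne_zero (mul_ne_zero hc (pow_ne_zero _ hA.ne_zero)) (pow_ne_zero _ hB)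
  have hTd : (C (G.coeff m) * A ^ m * B ^ (n - m)).natDegree =
      m * A.natDegree + (n - m) * B.natDegree := by
    rw [natDegree_mul (mul_ne_zero hc (pow_ne_zero _ hA.ne_zero)) (pow_ne_zero _ hB),
      natDegree_mul hc (pow_ne_zero _ hA.ne_zero), natDegree_C, natDegree_pow, natDegree_pow,
      zero_add]
  have hlow : (∑ i ∈ Finset.range m, C (G.coeff i) * A ^ i * B ^ (n - i)).degree <
      (C (G.coeff m) * A ^ m * B ^ (n - m)).degree := by
    rw [degree_eq_natDegree hT, hTd]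
    refine mem_degreeLT.1 (Submodule.sum_mem _ (fun i hi => mem_degreeLT.2 ?_))
    have hi' := Finset.mem_range.1 hi
    refine degree_le_natDegree.trans_lt ?_
    norm_cast
    refine (natDegree_mul_le.trans (add_le_add (natDegree_mul_le.trans (add_le_add
      (natDegree_C _).le natDegree_pow_le)) natDegree_pow_le)).trans_lt ?_
    obtain ⟨j, hj⟩ := Nat.exists_eq_add_of_lt hi'
    obtain ⟨k, hk⟩ := Nat.exists_eq_add_of_le hn
    have e1 : n - i = j + 1 + k := by omega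
    have e2 : n - m = k := by omega
    rw [e1, e2, hj]
    nlinarith
  have e : hom G n A B = (∑ i ∈ Finset.range m, C (G.coeff i) * A ^ i * B ^ (n - i)) +
      C (G.coeff m) * A ^ m * B ^ (n - m) := Finset.sum_range_succ _ _
  have hd := degree_add_eq_right_of_degree_lt hlow
  rw [e]
  refine ⟨fun h0 => ?_, ?_, ?_⟩
  · rw [h0, degree_zero, eq_comm, degree_eq_bot] at hd
    exact hT hd
  · rw [natDegree_eq_of_degree_eq hd, hTd]
  · rw [leadingCoeff_add_of_degree_lt hlow, leadingCoeff_mul, leadingCoeff_mul, leadingCoeff_C,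
      leadingCoeff_pow, leadingCoeff_pow, hA.leadingCoeff, one_pow, mul_one]
    rfl

end poly

section pts

variable {F : Type} [Field F] [DecidableEq F] [IsAlgClosed F] {W : WeierstrassCurve F}

lemma hxz_ne (P : Pt W) : ¬ (hx P = 0 ∧ hz P = 0) := by
  rintro ⟨h1, h2⟩
  rw [hz_eq_zero.1 h2] at h1
  simp at h1

lemma exists_hpt (hΔ : W.Δ ≠ 0) {a b : F} (h : ¬ (a = 0 ∧ b = 0)) :
    ∃ (P : Pt W) (l : F), l ≠ 0 ∧ a = l * hx P ∧ b = l * hz P := by
  by_cases hb : b = 0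
  · exact ⟨0, a, fun e => h ⟨e, hb⟩, by simp, by simp [hb]⟩
  · set x := a / b with hx'
    have hd : (X ^ 2 + C (W.a₁ * x + W.a₃) * X -
        C (x ^ 3 + W.a₂ * x ^ 2 + W.a₄ * x + W.a₆) : F[X]).degree = 2 := by
      compute_degree!
    obtain ⟨y, hy⟩ := IsAlgClosed.exists_root _ (by rw [hd]; norm_num)
    simp only [IsRoot.def, eval_sub, eval_add, eval_pow, eval_X, eval_mul, eval_C] at hy
    obtain ⟨P, hP, h1, -⟩ := exists_pt (W := W) hΔ (x := x) (y := y) (by linear_combination hy)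
    refine ⟨P, b, hb, ?_, ?_⟩
    · rw [hx_of_ne hP, h1, hx']; field_simp
    · rw [hz_of_ne hP, mul_one]

lemma S_pt (hΔ : W.Δ ≠ 0) (P Q : Pt W) {a b c d l m : F} (hl : l ≠ 0) (hm : m ≠ 0)
    (ha : a = l * hx P) (hb : b = l * hz P) (hc : c = m * hx Q) (hd : d = m * hz Q) :
    ∃ k : F, k ≠ 0 ∧ S0 a b c d = k * (hz (P + Q) * hz (P - Q)) ∧
      S1 W.b₂ W.b₄ W.b₆ a b c d = k * (hx (P + Q) * hz (P - Q) + hx (P - Q) * hz (P + Q)) ∧
      S2 W.b₄ W.b₆ W.b₈ a b c d = k * (hx (P + Q) * hx (P - Q)) := by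
  obtain ⟨k, hk, h0, h1, h2⟩ := (addSub F W hΔ P Q).1
  subst ha hb hc hd
  refine ⟨l ^ 2 * m ^ 2 * k, by positivity, ?_, ?_, ?_⟩
  · rw [mul_assoc, ← h0]; simp only [S0]; ring
  · rw [mul_assoc, ← h1]; simp only [S1]; ring
  · rw [mul_assoc, ← h2]; simp only [S2]; ring

lemma S_ne (hΔ : W.Δ ≠ 0) {a b c d : F} (h1 : ¬ (a = 0 ∧ b = 0)) (h2 : ¬ (c = 0 ∧ d = 0)) :
    ¬ (S0 a b c d = 0 ∧ S1 W.b₂ W.b₄ W.b₆ a b c d = 0 ∧ S2 W.b₄ W.b₆ W.b₈ a b c d = 0) := by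
  obtain ⟨P, l, hl, ha, hb⟩ := exists_hpt hΔ h1
  obtain ⟨Q, m, hm, hc, hd⟩ := exists_hpt hΔ h2
  obtain ⟨k, hk, e0, e1, e2⟩ := S_pt hΔ P Q hl hm ha hb hc hd
  rw [e0, e1, e2]
  simp only [mul_eq_zero (a := k), hk, false_or]
  exact tri_ne (hxz_ne _) (hxz_ne _)

variable {Γ : Type} [AddCommGroup Γ] [Infinite Γ] {ι : Γ →+ Pt W}

lemma prep_of {φ : AddMonoid.End Γ} {A B : F[X]} (h : Rep ι φ A B) : PRep ι φ A B :=
  ⟨h.2.2.1, h.2.2.2⟩

lemma ae_prop {φ : AddMonoid.End Γ} {A B : F[X]} (h : PRep ι φ A B) :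
    ∀ᶠ P in cofinite, ∃ l : F, l ≠ 0 ∧ A.eval (px (ι P)) = l * hx (ι (φ P)) ∧
      B.eval (px (ι P)) = l * hz (ι (φ P)) := by
  filter_upwards [(eventually_cofinite (p := fun P => hx (ι (φ P)) * B.eval (px (ι P)) =
    hz (ι (φ P)) * A.eval (px (ι P)))).2 h.2] with P hP
  have hn := cop_ne h.1 (px (ι P))
  by_cases h0 : ι (φ P) = 0
  · rw [h0] at hP ⊢
    simp only [hx_zero, hz_zero, one_mul, zero_mul, mul_one, mul_zero] at hP ⊢
    exact ⟨_, fun e => hn ⟨e, hP⟩, rfl, hP⟩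
  · rw [hz_of_ne h0, one_mul] at hP
    rw [hz_of_ne h0]
    refine ⟨B.eval (px (ι P)), fun e => hn ⟨?_, e⟩, ?_, (mul_one _).symm⟩
    · rw [← hP, e, mul_zero]
    · rw [← hP, mul_comm]

lemma poly_eq (hι : Function.Injective ι) {G H : F[X]}
    (h : ∀ᶠ P in cofinite, G.eval (px (ι P)) = H.eval (px (ι P))) : G = H := by
  rw [← sub_eq_zero]
  refine poly_eq_zero hι ((eventually_cofinite (p := fun P => (G - H).eval (px (ι P)) = 0)).1 ?_)
  filter_upwards [h] with P hP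
  rw [eval_sub, hP, sub_self]

lemma uniq (hι : Function.Injective ι) {φ : AddMonoid.End Γ} {A B A' B' : F[X]}
    (h : Rep ι φ A B) (h' : Rep ι φ A' B') : A = A' ∧ B = B' := by
  have e : A * B' = A' * B := by
    refine poly_eq hι ?_
    filter_upwards [ae_prop (prep_of h), ae_prop (prep_of h')] with P ⟨l, _, h1, h2⟩ ⟨m, _, h3, h4⟩
    rw [eval_mul, eval_mul, h1, h2, h3, h4]; ring
  have d1 : A ∣ A' := h.2.2.1.dvd_of_dvd_mul_right ⟨B', e.symm⟩
  have d2 : A' ∣ A := h'.2.2.1.dvd_of_dvd_mul_right ⟨B, e⟩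
  have hA : A = A' := eq_of_monic_of_associated h.1 h'.1 (associated_of_dvd_dvd d1 d2)
  subst hA
  exact ⟨rfl, (mul_left_cancel₀ h.1.ne_zero e).symm⟩

lemma qd_eq (hι : Function.Injective ι) {φ : AddMonoid.End Γ} {A B : F[X]} (h : Rep ι φ A B) :
    qd ι φ = A.natDegree := by
  have hex : ∃ AB : F[X] × F[X], Rep ι φ AB.1 AB.2 := ⟨(A, B), h⟩
  rw [qd, dif_pos hex, (uniq hι hex.choose_spec h).1]

lemma ed_eq (hι : Function.Injective ι) {φ : AddMonoid.End Γ} {A B : F[X]} (h : Rep ι φ A B) :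
    ed ι φ = A.natDegree - B.natDegree := by
  have hex : ∃ AB : F[X] × F[X], Rep ι φ AB.1 AB.2 := ⟨(A, B), h⟩
  rw [ed, dif_pos hex, (uniq hι hex.choose_spec h).1, (uniq hι hex.choose_spec h).2]

lemma rep_zero : Rep ι 0 1 0 := by
  refine ⟨monic_one, by simp, isCoprime_one_left, Set.finite_empty.subset (fun P hP => hP ?_)⟩
  simp

lemma rep_one (hι : Function.Injective ι) : Rep ι 1 X 1 := by
  refine ⟨monic_X, by simp, isCoprime_one_right,
    (Set.finite_singleton 0).subset (fun P hP => ?_)⟩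
  by_contra h0
  have h1 : ι P ≠ 0 := fun e => h0 (hι (e.trans (map_zero ι).symm))
  apply hP
  simp [hx_of_ne h1, hz_of_ne h1]

lemma rep_neg {φ : AddMonoid.End Γ} {A B : F[X]} (h : Rep ι φ A B) : Rep ι (-φ) A B := by
  refine ⟨h.1, h.2.1, h.2.2.1, ?_⟩
  have e : ∀ P, (-φ) P = -(φ P) := fun _ => rfl
  simpa only [e, map_neg, hx_neg, hz_neg] using h.2.2.2

lemma B_ne (hι : Function.Injective ι) {φ : AddMonoid.End Γ} {A B : F[X]} (h : Rep ι φ A B)
    (h0 : φ ≠ 0) : B ≠ 0 := by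
  rintro rfl
  refine h0 (hom_eq_zero (φ := φ) ((eventually_cofinite (p := fun P => φ P = 0)).1 ?_))
  filter_upwards [ae_prop (prep_of h)] with P ⟨l, hl, _, h2⟩
  rw [eval_zero, eq_comm, mul_eq_zero, hz_eq_zero] at h2
  exact hι ((h2.resolve_left hl).trans (map_zero ι).symm)

lemma ae_ne (hι : Function.Injective ι) {G : F[X]} (hG : G ≠ 0) :
    ∀ᶠ P in cofinite, G.eval (px (ι P)) ≠ 0 :=
  eventually_cofinite.2 (by simpa only [not_not] using finite_root' hι hG)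

lemma ae_phi (hι : Function.Injective ι) {φ : AddMonoid.End Γ} {A B : F[X]} (h : Rep ι φ A B)
    (h0 : φ ≠ 0) : ∀ᶠ P in cofinite, ι (φ P) ≠ 0 := by
  filter_upwards [ae_prop (prep_of h), ae_ne hι (B_ne hι h h0)] with P ⟨l, _, _, h2⟩ h3 e
  rw [e, hz_zero, mul_zero] at h2
  exact h3 h2

lemma ker_fin (hι : Function.Injective ι) {φ : AddMonoid.End Γ} {A B : F[X]} (h : Rep ι φ A B)
    (h0 : φ ≠ 0) : {P | φ P = 0}.Finite :=
  (eventually_cofinite.1 (ae_phi hι h h0)).subset (fun P hP e => e (by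
    rw [show φ P = 0 from hP, map_zero]))

lemma tend {Γ' : Type} [AddCommGroup Γ'] {φ : Γ →+ Γ'} (h : {P : Γ | φ P = 0}.Finite) :
    Tendsto φ cofinite cofinite :=
  fun _ hs => finite_preimage h hs

lemma ptriple (hΔ : W.Δ ≠ 0) (hι : Function.Injective ι) {φ ψ : AddMonoid.End Γ}
    {A B A' B' A1 B1 A2 B2 : F[X]} (h : PRep ι φ A B) (h' : PRep ι ψ A' B')
    (h1 : PRep ι (φ + ψ) A1 B1) (h2 : PRep ι (φ - ψ) A2 B2) :
    ∃ c : F, c ≠ 0 ∧ S0 A B A' B' = C c * (B1 * B2) ∧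
      S1 (C W.b₂) (C W.b₄) (C W.b₆) A B A' B' = C c * (A1 * B2 + A2 * B1) ∧
      S2 (C W.b₄) (C W.b₆) (C W.b₈) A B A' B' = C c * (A1 * A2) := by
  have v0 : ∀ x, (S0 A B A' B').eval x = S0 (A.eval x) (B.eval x) (A'.eval x) (B'.eval x) := by
    intro x; simp [S0]
  have v1 : ∀ x, (S1 (C W.b₂) (C W.b₄) (C W.b₆) A B A' B').eval x =
      S1 W.b₂ W.b₄ W.b₆ (A.eval x) (B.eval x) (A'.eval x) (B'.eval x) := by
    intro x; simp [S1]
  have v2 : ∀ x, (S2 (C W.b₄) (C W.b₆) (C W.b₈) A B A' B').eval x =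
      S2 W.b₄ W.b₆ W.b₈ (A.eval x) (B.eval x) (A'.eval x) (B'.eval x) := by
    intro x; simp [S2]
  have key : ∀ᶠ P in cofinite, ∃ k m z0 z1 z2 : F,
      (S0 A B A' B').eval (px (ι P)) = k * z0 ∧
      (S1 (C W.b₂) (C W.b₄) (C W.b₆) A B A' B').eval (px (ι P)) = k * z1 ∧
      (S2 (C W.b₄) (C W.b₆) (C W.b₈) A B A' B').eval (px (ι P)) = k * z2 ∧
      (B1 * B2).eval (px (ι P)) = m * z0 ∧ (A1 * B2 + A2 * B1).eval (px (ι P)) = m * z1 ∧
      (A1 * A2).eval (px (ι P)) = m * z2 := by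
    filter_upwards [ae_prop h, ae_prop h', ae_prop h1, ae_prop h2] with P ⟨l, hl, a1, a2⟩
      ⟨m, hm, a3, a4⟩ ⟨l1, _, a5, a6⟩ ⟨l2, _, a7, a8⟩
    obtain ⟨k, -, e0, e1, e2⟩ := S_pt hΔ _ _ hl hm a1 a2 a3 a4
    have p1 : ι ((φ + ψ) P) = ι (φ P) + ι (ψ P) := map_add ι _ _
    have p2 : ι ((φ - ψ) P) = ι (φ P) - ι (ψ P) := map_sub ι _ _
    rw [p1] at a5 a6
    rw [p2] at a7 a8
    refine ⟨k, l1 * l2, _, _, _, (v0 _).trans e0, (v1 _).trans e1, (v2 _).trans e2, ?_, ?_, ?_⟩ <;>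
      simp only [eval_mul, eval_add, a5, a6, a7, a8] <;> ring
  refine prop3 (poly_eq hι ?_) (poly_eq hι ?_) (poly_eq hι ?_) (fun x => ?_) (fun x => ?_)
  · filter_upwards [key] with P ⟨k, m, z0, z1, z2, e0, e1, e2, e3, e4, e5⟩
    rw [eval_mul, eval_mul (p := S1 _ _ _ _ _ _ _), e0, e1, e3, e4]; ring
  · filter_upwards [key] with P ⟨k, m, z0, z1, z2, e0, e1, e2, e3, e4, e5⟩
    rw [eval_mul, eval_mul (p := S2 _ _ _ _ _ _ _), e0, e2, e3, e5]; ring
  · filter_upwards [key] with P ⟨k, m, z0, z1, z2, e0, e1, e2, e3, e4, e5⟩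
    rw [eval_mul, eval_mul (p := S2 _ _ _ _ _ _ _), e1, e2, e4, e5]; ring
  · rw [v0, v1, v2]
    exact S_ne hΔ (cop_ne h.1 x) (cop_ne h'.1 x)
  · simp only [eval_mul, eval_add]
    exact tri_ne (cop_ne h1.1 x) (cop_ne h2.1 x)

lemma rep_of_prep {φ : AddMonoid.End Γ} {A B : F[X]} (h : PRep ι φ A B)
    (hd : B.degree < A.degree) : ∃ A' B', Rep ι φ A' B' := by
  have hA : A ≠ 0 := by
    intro e; rw [e, degree_zero] at hd; exact not_lt_bot hd
  have hc : A.leadingCoeff⁻¹ ≠ 0 := inv_ne_zero (leadingCoeff_ne_zero.2 hA)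
  refine ⟨A * C A.leadingCoeff⁻¹, B * C A.leadingCoeff⁻¹, monic_mul_leadingCoeff_inv hA, ?_,
    ?_, h.2.subset (fun P hP e => hP ?_)⟩
  · rwa [degree_mul_C hc, degree_mul_C hc]
  · exact (isCoprime_mul_unit_right (isUnit_C.2 (IsUnit.mk0 _ hc)) A B).2 h.1
  · rw [eval_mul, eval_mul, ← mul_assoc, e, mul_assoc]

lemma rep_add (hΔ : W.Δ ≠ 0) (hι : Function.Injective ι) {φ ψ : AddMonoid.End Γ}
    {A B A' B' A1 B1 A2 B2 : F[X]} (h : Rep ι φ A B) (h' : Rep ι ψ A' B')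
    (h1 : PRep ι (φ + ψ) A1 B1) (h2 : PRep ι (φ - ψ) A2 B2) : ∃ A B, Rep ι (φ + ψ) A B := by
  obtain ⟨c, hc, e0, e1, e2⟩ := ptriple hΔ hι (prep_of h) (prep_of h') h1 h2
  obtain ⟨-, -, d1, d0⟩ := degS W.b₂ W.b₄ W.b₆ W.b₈ h.1 h.2.1 h'.1 h'.2.1
  rw [e1, e2, degree_C_mul hc, degree_C_mul hc, mul_comm A1 A2, add_comm] at d1
  rw [e0, e2, degree_C_mul hc, degree_C_mul hc, mul_comm A1 A2, mul_comm B1 B2] at d0
  exact rep_of_prep h1 (deg_force d0 d1)

lemma triple (hΔ : W.Δ ≠ 0) (hι : Function.Injective ι) {φ ψ : AddMonoid.End Γ}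
    {A B A' B' A1 B1 A2 B2 : F[X]} (h : Rep ι φ A B) (h' : Rep ι ψ A' B')
    (h1 : Rep ι (φ + ψ) A1 B1) (h2 : Rep ι (φ - ψ) A2 B2) :
    S0 A B A' B' = B1 * B2 ∧ S1 (C W.b₂) (C W.b₄) (C W.b₆) A B A' B' = A1 * B2 + A2 * B1 ∧
      S2 (C W.b₄) (C W.b₆) (C W.b₈) A B A' B' = A1 * A2 := by
  obtain ⟨c, hc, e0, e1, e2⟩ := ptriple hΔ hι (prep_of h) (prep_of h') (prep_of h1) (prep_of h2)
  have hm := (degS W.b₂ W.b₄ W.b₆ W.b₈ h.1 h.2.1 h'.1 h'.2.1).1
  rw [e2, Monic, leadingCoeff_mul, leadingCoeff_C, (h1.1.mul h2.1).leadingCoeff, mul_one] at hm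
  rw [hm, map_one, one_mul] at e0 e1 e2
  exact ⟨e0, e1, e2⟩

lemma nd_lt (hι : Function.Injective ι) {φ : AddMonoid.End Γ} {A B : F[X]} (h : Rep ι φ A B)
    (h0 : φ ≠ 0) : B.natDegree < A.natDegree :=
  natDegree_lt_natDegree (B_ne hι h h0) h.2.1

lemma rep_mul (hι : Function.Injective ι) {φ ψ : AddMonoid.End Γ} {A B A' B' : F[X]}
    (h : Rep ι φ A B) (h' : Rep ι ψ A' B') (h0 : φ ≠ 0) (h0' : ψ ≠ 0) :
    ∃ A1 B1, Rep ι (φ * ψ) A1 B1 ∧ A1.natDegree = A.natDegree * A'.natDegree ∧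
      A1.natDegree - B1.natDegree = (A.natDegree - B.natDegree) * (A'.natDegree - B'.natDegree) := by
  have l := nd_lt hι h h0
  have l' := nd_lt hι h' h0'
  obtain ⟨a0, a1, a2⟩ := hom_deg h.1.ne_zero le_rfl h'.1 (B_ne hι h' h0') l'
  obtain ⟨b0, b1, -⟩ := hom_deg (B_ne hι h h0) l.le h'.1 (B_ne hι h' h0') l'
  rw [Nat.sub_self, zero_mul, add_zero] at a1
  rw [Nat.sub_self, pow_zero, mul_one, h.1.leadingCoeff] at a2
  obtain ⟨j, hj⟩ := Nat.exists_eq_add_of_lt l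
  obtain ⟨k, hk⟩ := Nat.exists_eq_add_of_lt l'
  have e1 : A.natDegree - B.natDegree = j + 1 := by omega
  have e2 : A'.natDegree - B'.natDegree = k + 1 := by omega
  have e3 : (hom A A.natDegree A' B').natDegree =
      (hom B A.natDegree A' B').natDegree + (j + 1) * (k + 1) := by
    rw [a1, b1, e1, hj, hk]; ring
  refine ⟨hom A A.natDegree A' B', hom B A.natDegree A' B', ⟨a2, ?_, cop_of (fun x => ?_),
    (eventually_cofinite (p := fun P => hx (ι ((φ * ψ) P)) * (hom B A.natDegree A' B').eval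
      (px (ι P)) = hz (ι ((φ * ψ) P)) * (hom A A.natDegree A' B').eval (px (ι P)))).1 ?_⟩, a1, ?_⟩
  · rw [degree_eq_natDegree a0, degree_eq_natDegree b0, e3]
    norm_cast
    exact lt_add_of_pos_right _ (by positivity)
  · rintro ⟨r1, r2⟩
    by_cases hb : B'.eval x = 0
    · rw [hom_eval0 h.1 _ _ hb] at r1
      exact cop_ne h'.2.2.1 x ⟨pow_eq_zero_iff (by omega) |>.1 r1, hb⟩
    · have hz : A'.eval x / B'.eval x * B'.eval x = A'.eval x := div_mul_cancel₀ _ hb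
      rw [hom_eval le_rfl _ _ hz] at r1
      rw [hom_eval l.le _ _ hz] at r2
      exact cop_ne h.2.2.1 _ ⟨(mul_eq_zero.1 r1).resolve_left (pow_ne_zero _ hb),
        (mul_eq_zero.1 r2).resolve_left (pow_ne_zero _ hb)⟩
  · filter_upwards [ae_prop (prep_of h'), ae_phi hι h' h0',
      (tend (φ := ψ) (ker_fin hι h' h0')).eventually (ae_prop (prep_of h))] with P ⟨l0, _, c1, c2⟩ c3
      ⟨m, _, c4, c5⟩
    have hz : px (ι (ψ P)) * B'.eval (px (ι P)) = A'.eval (px (ι P)) := by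
      rw [c1, c2, hx_of_ne c3, hz_of_ne c3]; ring
    have c4' : A.eval (px (ι (ψ P))) = m * hx (ι ((φ * ψ) P)) := c4
    have c5' : B.eval (px (ι (ψ P))) = m * MP_94fe55_nt.hz (ι ((φ * ψ) P)) := c5
    rw [hom_eval le_rfl _ _ hz, hom_eval l.le _ _ hz, c4', c5']
    ring
  · rw [e3, e1, e2, Nat.add_sub_cancel_left]

lemma ker_card (hΔ : W.Δ ≠ 0) (hι : Function.Injective ι) {φ : AddMonoid.End Γ} {A B : F[X]}
    (h : Rep ι φ A B) (h0 : φ ≠ 0) (K : Finset Γ) (hK : ∀ P ∈ K, φ P = 0) :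
    K.card ≤ A.natDegree := by
  classical
  have t1 : ∀ T : Γ, Tendsto (fun R => R + T) cofinite cofinite :=
    fun T => (add_left_injective T).tendsto_cofinite
  have t2 : Tendsto (AddMonoidHom.id Γ + AddMonoidHom.id Γ : Γ →+ Γ) cofinite cofinite := by
    refine tend (((finite_two_tors (W := W) hΔ).preimage hι.injOn).subset (fun P hP => ?_))
    show ι P + ι P = 0
    rw [← map_add, show P + P = 0 from hP, map_zero]
  have E1 : ∀ᶠ R in cofinite, ∀ T ∈ K, ∃ l : F, l ≠ 0 ∧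
      A.eval (px (ι (R + T))) = l * hx (ι (φ (R + T))) ∧
      B.eval (px (ι (R + T))) = l * hz (ι (φ (R + T))) :=
    (eventually_all_finset K).2 (fun T _ => (t1 T).eventually (ae_prop (prep_of h)))
  have E2 : ∀ᶠ R in cofinite, ∀ T ∈ K, R + T ≠ 0 :=
    (eventually_all_finset K).2 (fun T _ => (t1 T).eventually (eventually_cofinite_ne 0))
  have E3 : ∀ᶠ R in cofinite, ∀ T ∈ K, ∀ T' ∈ K, R + R ≠ -(T + T') :=
    (eventually_all_finset K).2 (fun T _ => (eventually_all_finset K).2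
      (fun T' _ => t2.eventually (eventually_cofinite_ne (-(T + T')))))
  obtain ⟨R, r1, r2, r3, r4⟩ := (E1.and (E2.and (E3.and (ae_phi hι h h0)))).exists
  have hd : (C (px (ι (φ R))) * B).degree < A.degree :=
    (degree_mul_le _ _).trans_lt ((add_le_add_left degree_C_le _).trans_lt (by
      rw [zero_add]; exact h.2.1))
  have hG := degree_sub_eq_left_of_degree_lt hd
  have hG0 : A - C (px (ι (φ R))) * B ≠ 0 := by
    intro e
    rw [e, degree_zero, eq_comm, degree_eq_bot] at hG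
    exact h.1.ne_zero hG
  have hne : ∀ T ∈ K, ι (R + T) ≠ 0 := fun T hT e => r2 T hT (hι (e.trans (map_zero ι).symm))
  rw [← natDegree_eq_of_degree_eq hG,
    ← Finset.card_image_of_injOn (f := fun T => px (ι (R + T))) (fun T hT T' hT' e => ?_)]
  · refine card_le_degree_of_subset_roots (fun x hxm => ?_)
    obtain ⟨T, hT, rfl⟩ := Finset.mem_image.1 (show x ∈ Finset.image _ K from hxm)
    obtain ⟨l, -, c1, c2⟩ := r1 T hT
    rw [map_add φ, hK T hT, add_zero] at c1 c2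
    rw [mem_roots hG0, IsRoot.def, eval_sub, eval_mul, eval_C, c1, c2, hx_of_ne r4, hz_of_ne r4]
    ring
  · rcases (px_eq_iff (hne T hT) (hne T' hT')).1 e with e1 | e1
    · exact add_left_cancel (hι e1)
    · rw [← map_neg] at e1
      refine absurd ?_ (r3 T hT T' hT')
      have := hι e1
      rw [eq_neg_iff_add_eq_zero] at this ⊢
      rw [← this]; abel

end pts

end Ring1P

open Ring1P in
theorem ring (h2 : S_Ring2) : S_Ring := by
  intro F _ _ _ W Γ _ _ ι hΔ hι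
  have H := h2 F W Γ ι hΔ hι
  have a0 : Alg ι 0 := ⟨⟨_, _, rep_zero⟩, 0, 0, 1, one_ne_zero,
    Set.finite_empty.subset (fun P hP => hP (by simp))⟩
  have aneg : ∀ φ, Alg ι φ → Alg ι (-φ) := fun φ hφ => by
    obtain ⟨A, B, h⟩ := hφ.1
    exact ⟨⟨A, B, rep_neg h⟩, (H φ φ hφ hφ).2.2.2⟩
  have aadd : ∀ φ ψ, Alg ι φ → Alg ι ψ → Alg ι (φ + ψ) := fun φ ψ hφ hψ => by
    obtain ⟨A, B, h⟩ := hφ.1
    obtain ⟨A', B', h'⟩ := hψ.1
    obtain ⟨A1, B1, h1⟩ := (H φ ψ hφ hψ).1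
    obtain ⟨A2, B2, h2⟩ := (H φ (-ψ) hφ (aneg ψ hψ)).1
    rw [← sub_eq_add_neg] at h2
    exact ⟨rep_add hΔ hι h h' h1 h2, (H φ ψ hφ hψ).2.1⟩
  have q0 : qd ι 0 = 0 := by rw [qd_eq hι rep_zero, natDegree_one]
  have e0 : ed ι 0 = 0 := by rw [ed_eq hι rep_zero, natDegree_one, Nat.zero_sub]
  have amul : ∀ φ ψ, Alg ι φ → Alg ι ψ → (∃ A B, Rep ι (φ * ψ) A B) ∧
      qd ι (φ * ψ) = qd ι φ * qd ι ψ ∧ ed ι (φ * ψ) = ed ι φ * ed ι ψ := fun φ ψ hφ hψ => by
    by_cases h0 : φ = 0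
    · rw [h0, zero_mul, q0, e0, zero_mul, zero_mul]
      exact ⟨a0.1, rfl, rfl⟩
    by_cases h0' : ψ = 0
    · rw [h0', mul_zero, q0, e0, mul_zero, mul_zero]
      exact ⟨a0.1, rfl, rfl⟩
    obtain ⟨A, B, h⟩ := hφ.1
    obtain ⟨A', B', h'⟩ := hψ.1
    obtain ⟨A1, B1, h1, d1, d2⟩ := rep_mul hι h h' h0 h0'
    rw [qd_eq hι h1, qd_eq hι h, qd_eq hι h', ed_eq hι h1, ed_eq hι h, ed_eq hι h']
    exact ⟨⟨A1, B1, h1⟩, d1, d2⟩
  refine
    { uniq := fun φ A B A' B' h h' => uniq hι h h'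
      qd_eq := fun φ A B h => qd_eq hι h
      ed_eq := fun φ A B h => ed_eq hι h
      rep_zero := rep_zero
      rep_one := rep_one hι
      rep_neg := fun φ A B h => rep_neg h
      alg_zero := a0
      alg_one := ⟨⟨_, _, rep_one hι⟩, 0, 1, 1, one_ne_zero,
        Set.finite_empty.subset (fun P hP => hP (by simp))⟩
      alg_neg := aneg
      alg_add := aadd
      alg_mul := fun φ ψ hφ hψ => ⟨(amul φ ψ hφ hψ).1, (H φ ψ hφ hψ).2.2.1⟩
      triple := fun φ ψ A B A' B' A1 B1 A2 B2 h h' h1 h2 => triple hΔ hι h h' h1 h2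
      q_mul := fun φ ψ hφ hψ => (amul φ ψ hφ hψ).2.1
      e_mul := fun φ ψ hφ hψ => (amul φ ψ hφ hψ).2.2
      q_par := fun φ ψ hφ hψ => ?_
      q_zero := fun φ hφ hq => ?_
      B_ne := fun φ A B h h0 => B_ne hι h h0
      e_pos := fun φ hφ h0 => ?_
      e_le := fun φ => ?_
      ker_fin := fun φ hφ h0 => ?_
      ker_card := fun φ hφ h0 K hK => ?_ }
  · obtain ⟨A, B, h⟩ := hφ.1
    obtain ⟨A', B', h'⟩ := hψ.1
    obtain ⟨A1, B1, h1⟩ := (aadd φ ψ hφ hψ).1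
    obtain ⟨A2, B2, h2⟩ := (aadd φ (-ψ) hφ (aneg ψ hψ)).1
    rw [← sub_eq_add_neg] at h2
    rw [qd_eq hι h1, qd_eq hι h2, qd_eq hι h, qd_eq hι h', ← h1.1.natDegree_mul h2.1,
      ← (triple hΔ hι h h' h1 h2).2.2]
    exact (degS W.b₂ W.b₄ W.b₆ W.b₈ h.1 h.2.1 h'.1 h'.2.1).2.1
  · obtain ⟨A, B, h⟩ := hφ.1
    by_contra h0
    have := nd_lt hι h h0
    rw [qd_eq hι h] at hq
    omega
  · obtain ⟨A, B, h⟩ := hφ.1
    have := nd_lt hι h h0
    rw [ed_eq hι h]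
    omega
  · unfold ed qd
    split_ifs
    · exact Nat.sub_le _ _
    · exact le_rfl
  · obtain ⟨A, B, h⟩ := hφ.1
    exact ker_fin hι h h0
  · obtain ⟨A, B, h⟩ := hφ.1
    rw [qd_eq hι h]
    exact ker_card hΔ hι h h0 K hK

end Pool.Agent.P.MP_94fe55_nt
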