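import Pool.Agent.P.MP_94fe55_nt.PtB

set_option autoImplicit false

namespace Pool.Agent.P.MP_94fe55_nt

open Polynomial Filter

namespace Ring2P

variable {F : Type} [Field F] [DecidableEq F] {W : WeierstrassCurve F}
  {Γ : Type} [AddCommGroup Γ] {ι : Γ →+ Pt W}

/-- rational functions on the curve, away from finitely many points -/
def RatF (ι : Γ →+ Pt W) (g : Γ → F) : Prop :=
  ∃ U V D : F[X], D ≠ 0 ∧ ∀ᶠ P in cofinite,
    g P * D.eval (px (ι P)) = U.eval (px (ι P)) + V.eval (px (ι P)) * py (ι P)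

theorem ratY_iff (φ : AddMonoid.End Γ) : RatY ι φ ↔ RatF ι (fun P => py (ι (φ P))) := by
  simp only [RatY, RatF, eventually_cofinite]

theorem ae_ne (hι : Function.Injective ι) : ∀ᶠ P in cofinite, ι P ≠ 0 := by
  rw [eventually_cofinite]
  refine (Set.finite_singleton (0 : Γ)).subset ?_
  intro P hP
  simp only [Set.mem_ofPred_eq, not_not] at hP
  exact hι (by rw [hP, map_zero])

theorem ae_eval (hι : Function.Injective ι) {G : F[X]} (hG : G ≠ 0) :
    ∀ᶠ P in cofinite, G.eval (px (ι P)) ≠ 0 := by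
  rw [eventually_cofinite]
  simpa using finite_root' hι hG

theorem ae_pY (hΔ : W.Δ ≠ 0) (hι : Function.Injective ι) :
    ∀ᶠ P in cofinite, pY (ι P) ≠ 0 := by
  filter_upwards [ae_ne hι, ae_eval hι (F3_X_ne_zero hΔ)] with P h1 h2 h
  apply h2
  rw [← pY_sq' h1, h]; simp

theorem RatF.congr {g g' : Γ → F} (h : RatF ι g) (e : ∀ᶠ P in cofinite, g P = g' P) :
    RatF ι g' := by
  obtain ⟨U, V, D, hD, h⟩ := h
  refine ⟨U, V, D, hD, ?_⟩
  filter_upwards [h, e] with P h1 h2
  rw [← h2, h1]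

theorem rat_const (c : F) : RatF ι (fun _ => c) :=
  ⟨C c, 0, 1, one_ne_zero, Eventually.of_forall fun P => by simp⟩

theorem rat_x : RatF ι (fun P => px (ι P)) :=
  ⟨X, 0, 1, one_ne_zero, Eventually.of_forall fun P => by simp⟩

theorem rat_y : RatF ι (fun P => py (ι P)) :=
  ⟨0, 1, 1, one_ne_zero, Eventually.of_forall fun P => by simp⟩

theorem RatF.add {g g' : Γ → F} (h : RatF ι g) (h' : RatF ι g') :
    RatF ι (fun P => g P + g' P) := by
  obtain ⟨U, V, D, hD, h⟩ := h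
  obtain ⟨U', V', D', hD', h'⟩ := h'
  refine ⟨U * D' + U' * D, V * D' + V' * D, D * D', mul_ne_zero hD hD', ?_⟩
  filter_upwards [h, h'] with P h1 h2
  simp only [eval_add, eval_mul]
  linear_combination D'.eval (px (ι P)) * h1 + D.eval (px (ι P)) * h2

theorem RatF.neg {g : Γ → F} (h : RatF ι g) : RatF ι (fun P => -g P) := by
  obtain ⟨U, V, D, hD, h⟩ := h
  refine ⟨-U, -V, D, hD, ?_⟩
  filter_upwards [h] with P h1
  simp only [eval_neg]
  linear_combination -h1

theorem RatF.sub {g g' : Γ → F} (h : RatF ι g) (h' : RatF ι g') :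
    RatF ι (fun P => g P - g' P) :=
  (h.add h'.neg).congr (Eventually.of_forall fun P => by ring)

theorem RatF.mul (hι : Function.Injective ι) {g g' : Γ → F} (h : RatF ι g) (h' : RatF ι g') :
    RatF ι (fun P => g P * g' P) := by
  obtain ⟨U, V, D, hD, h⟩ := h
  obtain ⟨U', V', D', hD', h'⟩ := h'
  refine ⟨U * U' + V * V' * (X ^ 3 + C W.a₂ * X ^ 2 + C W.a₄ * X + C W.a₆),
    U * V' + V * U' - V * V' * (C W.a₁ * X + C W.a₃), D * D', mul_ne_zero hD hD', ?_⟩
  filter_upwards [h, h', ae_ne hι] with P h1 h2 h3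
  have e := weq h3
  simp only [eval_add, eval_mul, eval_sub, eval_pow, eval_X, eval_C]
  linear_combination (g' P * D'.eval (px (ι P))) * h1 +
    (U.eval (px (ι P)) + V.eval (px (ι P)) * py (ι P)) * h2 +
    V.eval (px (ι P)) * V'.eval (px (ι P)) * e

theorem RatF.poly (hι : Function.Injective ι) {g : Γ → F} (h : RatF ι g) (G : F[X]) :
    RatF ι (fun P => G.eval (g P)) := by
  induction G using Polynomial.induction_on with
  | C a => simpa using rat_const (ι := ι) a
  | add p q hp hq => simpa using hp.add hq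
  | monomial n a ih =>
    refine (ih.mul hι h).congr (Eventually.of_forall fun P => ?_)
    simp only [eval_mul, eval_C, eval_pow, eval_X]
    ring

omit [DecidableEq F] in
theorem norm_zero {U V : F[X]} {a₁ a₂ a₃ a₄ a₆ : F}
    (h : U ^ 2 - U * V * (C a₁ * X + C a₃) -
      V ^ 2 * (X ^ 3 + C a₂ * X ^ 2 + C a₄ * X + C a₆) = 0) : U = 0 ∧ V = 0 := by
  have hV : V = 0 := by
    by_contra hV
    have hc : (X ^ 3 + C a₂ * X ^ 2 + C a₄ * X + C a₆ : F[X]).natDegree = 3 := by
      compute_degree!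
    have hc0 : (X ^ 3 + C a₂ * X ^ 2 + C a₄ * X + C a₆ : F[X]) ≠ 0 := by
      intro e
      rw [e] at hc
      simp at hc
    have h1 : (V ^ 2 * (X ^ 3 + C a₂ * X ^ 2 + C a₄ * X + C a₆)).natDegree =
        2 * V.natDegree + 3 := by
      rw [natDegree_mul (pow_ne_zero _ hV) hc0, natDegree_pow, hc]
    have hl : (C a₁ * X + C a₃ : F[X]).natDegree ≤ 1 := by compute_degree
    have h2 : (U * V * (C a₁ * X + C a₃)).natDegree ≤ U.natDegree + V.natDegree + 1 :=
      natDegree_mul_le.trans (add_le_add natDegree_mul_le hl)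
    have h3 : (U ^ 2).natDegree = 2 * U.natDegree := natDegree_pow _ _
    rw [sub_eq_zero] at h
    rw [← h] at h1
    by_cases hu : U.natDegree ≤ V.natDegree + 1
    · have := natDegree_sub_le (U ^ 2) (U * V * (C a₁ * X + C a₃))
      rw [h1, h3] at this
      rcases le_max_iff.1 this with e | e <;> omega
    · rw [natDegree_sub_eq_left_of_natDegree_lt (by omega), h3] at h1
      omega
  subst hV
  simpa using h

theorem RatF.dich (hι : Function.Injective ι) {g : Γ → F} (h : RatF ι g) :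
    (∀ᶠ P in cofinite, g P = 0) ∨
      ((∀ᶠ P in cofinite, g P ≠ 0) ∧ RatF ι (fun P => (g P)⁻¹)) := by
  obtain ⟨U, V, D, hD, h⟩ := h
  by_cases hN : U ^ 2 - U * V * (C W.a₁ * X + C W.a₃) -
      V ^ 2 * (X ^ 3 + C W.a₂ * X ^ 2 + C W.a₄ * X + C W.a₆) = 0
  · left
    obtain ⟨rfl, rfl⟩ := norm_zero hN
    filter_upwards [h, ae_eval hι hD] with P h1 h2
    simp only [eval_zero, zero_mul, add_zero] at h1
    exact (mul_eq_zero.1 h1).resolve_right h2
  · right
    have key : ∀ᶠ P in cofinite, g P * (D.eval (px (ι P)) * (U.eval (px (ι P)) -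
        V.eval (px (ι P)) * (W.a₁ * px (ι P) + W.a₃) - V.eval (px (ι P)) * py (ι P))) =
        (U ^ 2 - U * V * (C W.a₁ * X + C W.a₃) -
          V ^ 2 * (X ^ 3 + C W.a₂ * X ^ 2 + C W.a₄ * X + C W.a₆)).eval (px (ι P)) := by
      filter_upwards [h, ae_ne hι] with P h1 h3
      have e := weq h3
      simp only [eval_add, eval_mul, eval_sub, eval_pow, eval_X, eval_C]
      linear_combination (U.eval (px (ι P)) -
        V.eval (px (ι P)) * (W.a₁ * px (ι P) + W.a₃) - V.eval (px (ι P)) * py (ι P)) * h1 -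
        V.eval (px (ι P)) ^ 2 * e
    have hne : ∀ᶠ P in cofinite, g P ≠ 0 := by
      filter_upwards [key, ae_eval hι hN] with P h1 h2 h3
      rw [h3, zero_mul] at h1
      exact h2 h1.symm
    refine ⟨hne, D * (U - V * (C W.a₁ * X + C W.a₃)), -(D * V), _, hN, ?_⟩
    filter_upwards [key, hne] with P h1 h2
    rw [← h1, ← mul_assoc, inv_mul_cancel₀ h2]
    simp only [eval_add, eval_mul, eval_sub, eval_neg, eval_X, eval_C]
    ring

theorem RatF.of_mul [Infinite Γ] (hι : Function.Injective ι) {g n d : Γ → F} (hn : RatF ι n)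
    (hd : RatF ι d) (h0 : ∀ᶠ P in cofinite, d P ≠ 0) (h : ∀ᶠ P in cofinite, g P * d P = n P) :
    RatF ι g := by
  rcases hd.dich hι with h1 | ⟨-, h1⟩
  · obtain ⟨P, h2, h3⟩ := (h0.and h1).exists
    exact absurd h3 h2
  · refine (hn.mul hι h1).congr ?_
    filter_upwards [h0, h] with P h2 h3
    rw [← h3, mul_assoc, mul_inv_cancel₀ h2, mul_one]

/-- a nonzero endomorphism given by rational functions -/
def Good (ι : Γ →+ Pt W) (φ : AddMonoid.End Γ) : Prop :=
  (∀ᶠ P in cofinite, ι (φ P) ≠ 0) ∧ RatF ι (fun P => px (ι (φ P))) ∧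
    RatF ι (fun P => py (ι (φ P)))

theorem end_zero [Infinite Γ] (hι : Function.Injective ι) {φ : AddMonoid.End Γ}
    (h : ∀ᶠ P in cofinite, ι (φ P) = 0) : φ = 0 := by
  refine hom_eq_zero (φ := φ) ?_
  refine (eventually_cofinite.1 h).subset ?_
  intro P hP h0
  exact hP (hι (h0.trans (map_zero ι).symm))

theorem alg_ok [Infinite Γ] (hι : Function.Injective ι) {φ : AddMonoid.End Γ} (h : Alg ι φ) :
    φ = 0 ∨ Good ι φ := by
  obtain ⟨⟨A, B, -, -, hc, hf⟩, hy⟩ := h
  have hf' : ∀ᶠ P in cofinite,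
      hx (ι (φ P)) * B.eval (px (ι P)) = hz (ι (φ P)) * A.eval (px (ι P)) :=
    eventually_cofinite.2 hf
  by_cases hB : B = 0
  · left
    subst hB
    have hA : A ≠ 0 := (isCoprime_zero_right.1 hc).ne_zero
    refine end_zero hι ?_
    filter_upwards [hf', ae_eval hι hA] with P h1 h2
    simp only [eval_zero, mul_zero] at h1
    exact hz_eq_zero.1 ((mul_eq_zero.1 h1.symm).resolve_right h2)
  · right
    have hne : ∀ᶠ P in cofinite, ι (φ P) ≠ 0 := by
      filter_upwards [hf', ae_eval hι hB] with P h1 h2 h3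
      rw [h3] at h1
      simp only [hx_zero, one_mul, hz_zero, zero_mul] at h1
      exact h2 h1
    refine ⟨hne, ⟨A, 0, B, hB, ?_⟩, (ratY_iff φ).1 hy⟩
    filter_upwards [hf', hne] with P h1 h2
    rw [hx_of_ne h2, hz_of_ne h2] at h1
    simpa using h1

theorem Good.tendsto {φ : AddMonoid.End Γ} (h : Good ι φ) : Tendsto φ cofinite cofinite := by
  have hk : {P : Γ | φ P = 0}.Finite := by
    refine (eventually_cofinite.1 h.1).subset ?_
    intro P hP
    simp only [Set.mem_ofPred_eq] at hP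
    simp [hP]
  intro S hS
  exact finite_preimage (φ := φ) hk hS

theorem RatF.comp [Infinite Γ] (hι : Function.Injective ι) {ψ : AddMonoid.End Γ}
    (hψ : Good ι ψ) {g : Γ → F} (h : RatF ι g) : RatF ι (fun P => g (ψ P)) := by
  obtain ⟨U, V, D, hD, h⟩ := h
  exact RatF.of_mul hι ((hψ.2.1.poly hι U).add ((hψ.2.1.poly hι V).mul hι hψ.2.2))
    (hψ.2.1.poly hι D) (hψ.tendsto.eventually (ae_eval hι hD)) (hψ.tendsto.eventually h)

theorem Good.mul [Infinite Γ] (hι : Function.Injective ι) {φ ψ : AddMonoid.End Γ}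
    (hφ : Good ι φ) (hψ : Good ι ψ) : Good ι (φ * ψ) :=
  ⟨hψ.tendsto.eventually hφ.1, hφ.2.1.comp hι hψ, hφ.2.2.comp hι hψ⟩

theorem neg_ap (φ : AddMonoid.End Γ) (P : Γ) : ι ((-φ) P) = -ι (φ P) := by
  rw [← map_neg]; rfl

theorem add_ap (φ ψ : AddMonoid.End Γ) (P : Γ) : ι ((φ + ψ) P) = ι (φ P) + ι (ψ P) := by
  rw [← map_add]; rfl

theorem Good.neg (hι : Function.Injective ι) {φ : AddMonoid.End Γ} (hφ : Good ι φ) :
    Good ι (-φ) := by
  refine ⟨?_, ?_, ?_⟩
  · filter_upwards [hφ.1] with P h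
    rw [neg_ap]
    exact neg_ne_zero.2 h
  · refine hφ.2.1.congr (Eventually.of_forall fun P => ?_)
    rw [neg_ap, px_neg]
  · refine ((hφ.2.2.neg.sub ((rat_const W.a₁).mul hι hφ.2.1)).sub (rat_const W.a₃)).congr ?_
    filter_upwards [hφ.1] with P h
    rw [neg_ap, py_neg h]

theorem cover_aux {Γ' : Type} [AddCommGroup Γ'] {α β : Γ →+ Γ'}
    (h : ∀ᶠ P in cofinite, α P = 0 ∨ β P = 0) {c : Γ} (ha : α c ≠ 0) (hb : β c ≠ 0)
    (hi : ∃ᶠ P in cofinite, α P = 0) : False := by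
  have h1 : ∀ᶠ P in cofinite, α (c + P) = 0 ∨ β (c + P) = 0 :=
    (add_right_injective c).tendsto_cofinite.eventually h
  obtain ⟨k, hk, hk'⟩ := (hi.and_eventually h1).exists
  have h2 : ∀ᶠ P in cofinite, α (c + k + P) = 0 ∨ β (c + k + P) = 0 :=
    (add_right_injective (c + k)).tendsto_cofinite.eventually h
  obtain ⟨j, hj, hj1, hj2⟩ := (hi.and_eventually (h1.and h2)).exists
  simp only [map_add, hk, hj, add_zero] at hk' hj1 hj2
  have e1 := hk'.resolve_left ha
  have e2 := hj1.resolve_left ha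
  have e3 := hj2.resolve_left ha
  rw [e1, zero_add] at e3
  rw [e3, add_zero] at e2
  exact hb e2

theorem cover [Infinite Γ] {Γ' : Type} [AddCommGroup Γ'] {α β : Γ →+ Γ'}
    (h : ∀ᶠ P in cofinite, α P = 0 ∨ β P = 0) : (∀ P, α P = 0) ∨ ∀ P, β P = 0 := by
  by_contra hn
  rw [not_or, not_forall, not_forall] at hn
  obtain ⟨⟨a, ha⟩, b, hb⟩ := hn
  have hc : ∃ c, α c ≠ 0 ∧ β c ≠ 0 := by
    by_cases h1 : β a = 0
    · by_cases h2 : α b = 0
      · exact ⟨a + b, by simpa [h2] using ha, by simpa [h1] using hb⟩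
      · exact ⟨b, h2, hb⟩
    · exact ⟨a, ha, h1⟩
  obtain ⟨c, h1, h2⟩ := hc
  rcases frequently_or_distrib.1 h.frequently with h3 | h3
  · exact cover_aux h h1 h2 h3
  · exact cover_aux (h.mono fun _ e => e.symm) h2 h1 h3

theorem good_of_slope [Infinite Γ] (hι : Function.Injective ι) {φ ψ : AddMonoid.End Γ}
    (hφ : Good ι φ) (hψ : Good ι ψ) {n d : Γ → F} (hn : RatF ι n) (hd : RatF ι d)
    (h0 : ∀ᶠ P in cofinite, d P ≠ 0)
    (h : ∀ᶠ P in cofinite, ι (φ P) + ι (ψ P) ≠ 0 ∧ ∃ m : F, m * d P = n P ∧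
      px (ι (φ P) + ι (ψ P)) = m ^ 2 + W.a₁ * m - W.a₂ - px (ι (φ P)) - px (ι (ψ P)) ∧
      py (ι (φ P) + ι (ψ P)) = -(m * (px (ι (φ P) + ι (ψ P)) - px (ι (φ P))) + py (ι (φ P))) -
        W.a₁ * px (ι (φ P) + ι (ψ P)) - W.a₃) : Good ι (φ + ψ) := by
  have hm : RatF ι (fun P => n P / d P) :=
    RatF.of_mul hι hn hd h0 (h0.mono fun P e => div_mul_cancel₀ _ e)
  have hX : RatF ι (fun P => px (ι ((φ + ψ) P))) := by
    refine (((((hm.mul hι hm).add ((rat_const W.a₁).mul hι hm)).sub (rat_const W.a₂)).sub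
      hφ.2.1).sub hψ.2.1).congr ?_
    filter_upwards [h0, h] with P h1 h2
    obtain ⟨-, m, e1, e2, -⟩ := h2
    rw [add_ap, e2, ← e1, mul_div_cancel_right₀ _ h1]
    ring
  refine ⟨h.mono fun P e => by rw [add_ap]; exact e.1, hX, ?_⟩
  refine (((((hm.mul hι (hX.sub hφ.2.1)).add hφ.2.2).neg).sub
    ((rat_const W.a₁).mul hι hX)).sub (rat_const W.a₃)).congr ?_
  filter_upwards [h0, h] with P h1 h2
  obtain ⟨-, m, e1, -, e3⟩ := h2
  rw [add_ap, e3, ← e1, mul_div_cancel_right₀ _ h1]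

theorem Good.add [Infinite Γ] (hι : Function.Injective ι) {φ ψ : AddMonoid.End Γ}
    (hφ : Good ι φ) (hψ : Good ι ψ) : φ + ψ = 0 ∨ Good ι (φ + ψ) := by
  rcases (hφ.2.1.sub hψ.2.1).dich hι with h | ⟨h, -⟩
  · have h1 : ∀ᶠ P in cofinite, (ι.comp (φ + ψ : AddMonoid.End Γ)) P = 0 ∨
        (ι.comp (φ + -ψ : AddMonoid.End Γ)) P = 0 := by
      filter_upwards [h, hφ.1, hψ.1] with P e1 e2 e3
      show ι ((φ + ψ) P) = 0 ∨ ι ((φ + -ψ) P) = 0
      rw [add_ap, add_ap, neg_ap]
      rcases (px_eq_iff e2 e3).1 (sub_eq_zero.1 e1) with e | e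
      · right; rw [e, add_neg_cancel]
      · left; rw [e, neg_add_cancel]
    rcases cover h1 with h2 | h2
    · exact Or.inl (end_zero hι (Eventually.of_forall h2))
    · have e : φ = ψ := by
        have := end_zero hι (φ := φ + -ψ) (Eventually.of_forall h2)
        exact add_neg_eq_zero.1 this
      subst e
      have hY : RatF ι (fun P => pY (ι (φ P))) :=
        (((rat_const 2).mul hι hφ.2.2).add ((rat_const W.a₁).mul hι hφ.2.1)).add
          (rat_const W.a₃)
      rcases hY.dich hι with h3 | ⟨h3, -⟩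
      · left
        refine end_zero hι ?_
        filter_upwards [h3, hφ.1] with P e1 e2
        rw [add_ap]
        exact (two_tors e2).2 e1
      · right
        refine good_of_slope hι hφ hφ (n := fun P => 3 * px (ι (φ P)) ^ 2 +
          2 * W.a₂ * px (ι (φ P)) + W.a₄ - W.a₁ * py (ι (φ P))) ?_ hY h3 ?_
        · refine (((((rat_const 3).mul hι (hφ.2.1.mul hι hφ.2.1)).add
            ((rat_const (2 * W.a₂)).mul hι hφ.2.1)).add (rat_const W.a₄)).sub
            ((rat_const W.a₁).mul hι hφ.2.2)).congr (Eventually.of_forall fun P => ?_)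
          ring
        · filter_upwards [h3, hφ.1] with P e1 e2
          exact add_tangent e2 e1
  · right
    refine good_of_slope hι hφ hψ (hφ.2.2.sub hψ.2.2) (hφ.2.1.sub hψ.2.1) h ?_
    filter_upwards [h, hφ.1, hψ.1] with P e1 e2 e3
    exact add_chord e2 e3 (sub_ne_zero.1 e1)

theorem Good.prep (hΔ : W.Δ ≠ 0) (hι : Function.Injective ι) {φ : AddMonoid.End Γ}
    (hφ : Good ι φ) : ∃ A B, PRep ι φ A B := by
  obtain ⟨h0, ⟨U, V, D, hD, h⟩, -⟩ := hφ
  have h' := (neg_injective (G := Γ)).tendsto_cofinite.eventually h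
  have hU : ∀ᶠ P in cofinite, px (ι (φ P)) * D.eval (px (ι P)) = U.eval (px (ι P)) := by
    filter_upwards [h, h', ae_ne hι, ae_pY hΔ hι] with P e1 e2 e3 e4
    simp only [map_neg, px_neg, py_neg e3] at e2
    have e5 : V.eval (px (ι P)) * pY (ι P) = 0 := by
      simp only [pY]
      linear_combination e2 - e1
    rw [e1, (mul_eq_zero.1 e5).resolve_right e4, zero_mul, add_zero]
  let := EuclideanDomain.gcdMonoid F[X]
  obtain ⟨A, B, hA, hB, hu⟩ := extract_gcd U D
  have hg : gcd U D ≠ 0 := by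
    intro e
    rw [e, zero_mul] at hB
    exact hD hB
  refine ⟨A, B, (gcd_isUnit_iff A B).1 hu, ?_⟩
  refine eventually_cofinite.1 ?_
  filter_upwards [hU, h0, ae_eval hι hg] with P e1 e2 e3
  rw [hx_of_ne e2, hz_of_ne e2, one_mul]
  generalize gcd U D = G at hA hB e3
  rw [hA, hB, eval_mul, eval_mul] at e1
  apply mul_left_cancel₀ e3
  linear_combination e1

theorem ok_ratY {φ : AddMonoid.End Γ} (h : φ = 0 ∨ Good ι φ) : RatY ι φ := by
  rw [ratY_iff]
  rcases h with rfl | h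
  · refine (rat_const 0).congr (Eventually.of_forall fun P => ?_)
    show (0 : F) = py (ι 0)
    rw [map_zero, py_zero]
  · exact h.2.2

theorem ok_prep (hΔ : W.Δ ≠ 0) (hι : Function.Injective ι) {φ : AddMonoid.End Γ}
    (h : φ = 0 ∨ Good ι φ) : ∃ A B, PRep ι φ A B := by
  rcases h with rfl | h
  · refine ⟨1, 0, isCoprime_one_left, Set.finite_empty.subset ?_⟩
    intro P hP
    apply hP
    show hx (ι 0) * _ = hz (ι 0) * _
    simp
  · exact h.prep hΔ hι

end Ring2P

open Ring2P in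
theorem ring2 : S_Ring2 := by
  intro F _ _ _ W Γ _ _ ι hΔ hι φ ψ hφ hψ
  have h1 := alg_ok hι hφ
  have h2 := alg_ok hι hψ
  have hadd : φ + ψ = 0 ∨ Good ι (φ + ψ) := by
    rcases h1 with rfl | h1
    · rwa [zero_add]
    · rcases h2 with rfl | h2
      · rw [add_zero]; exact Or.inr h1
      · exact h1.add hι h2
  have hmul : φ * ψ = 0 ∨ Good ι (φ * ψ) := by
    rcases h1 with rfl | h1
    · exact Or.inl (zero_mul _)
    · rcases h2 with rfl | h2
      · exact Or.inl (mul_zero _)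
      · exact Or.inr (h1.mul hι h2)
  have hneg : -φ = 0 ∨ Good ι (-φ) := by
    rcases h1 with rfl | h1
    · exact Or.inl neg_zero
    · exact Or.inr (h1.neg hι)
  exact ⟨ok_prep hΔ hι hadd, ok_ratY hadd, ok_ratY hmul, ok_ratY hneg⟩

end Pool.Agent.P.MP_94fe55_nt
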