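import Pool.Agent.P.MP_94fe55_nt.Val

set_option autoImplicit false

namespace Pool.Agent.P.MP_94fe55_nt

open Polynomial Filter
open scoped NNReal

namespace TransP

theorem ev_not_dvd {a : ℤ} (ha : a ≠ 0) : ∀ᶠ l : ℕ in atTop, ¬ (l : ℤ) ∣ a := by
  filter_upwards [eventually_gt_atTop a.natAbs] with l hl h
  have := Int.natAbs_le_of_dvd_ne_zero h ha
  simp at this
  omega

theorem exists_int_poly (q : ℚ[X]) : ∃ (m : ℤ[X]) (a : ℤ), a ≠ 0 ∧
    m.map (Int.castRingHom ℂ) = C (a : ℂ) * q.map (algebraMap ℚ ℂ) := by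
  obtain ⟨b, hb, h⟩ := IsLocalization.integerNormalization_spec (nonZeroDivisors ℤ) q
  refine ⟨IsLocalization.integerNormalization (nonZeroDivisors ℤ) q, b,
    nonZeroDivisors.ne_zero hb, ?_⟩
  have := congrArg (Polynomial.map (algebraMap ℚ ℂ)) h
  rw [Polynomial.map_map] at this
  rw [RingHom.ext_int (Int.castRingHom ℂ) ((algebraMap ℚ ℂ).comp (algebraMap ℤ ℚ)), this]
  ext i
  simp

theorem red_aeval {p : ℕ} (V : Place p) (m : ℤ[X]) {x : ℂ} (hx : V.v x ≤ 1) :
    V.v (aeval x m) ≤ 1 ∧ V.red (aeval x m) = aeval (V.red x) m := by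
  have h1 : aeval x m = ((aeval (⟨x, hx⟩ : V.O) m : V.O) : ℂ) :=
    aeval_algHom_apply V.O.subtype.toIntAlgHom (⟨x, hx⟩ : V.O) m
  refine ⟨by rw [h1]; exact (aeval (⟨x, hx⟩ : V.O) m).2, ?_⟩
  rw [h1, V.red_coe, V.red_of_le hx]
  exact (aeval_algHom_apply (IsLocalRing.residue V.O).toIntAlgHom (⟨x, hx⟩ : V.O) m).symm

theorem ev_le {z : ℂ} (hz : IsAlgebraic ℚ z) :
    ∀ᶠ l : ℕ in atTop, l.Prime → ∀ V : Place l, V.v z ≤ 1 := by
  obtain ⟨m, a, ha, h⟩ := exists_int_poly (minpoly ℚ z)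
  filter_upwards [ev_not_dvd ha] with l hl hp V
  refine Place.root_le_one (G := (minpoly ℚ z).map (algebraMap ℚ ℂ))
    ((minpoly.monic hz.isIntegral).map _) ?_ (by rw [eval_map_algebraMap, minpoly.aeval])
  have h1 : V.gn (m.map (Int.castRingHom ℂ)) ≤ 1 := by
    rw [Place.gn_le_iff]
    intro i
    rw [coeff_map]
    exact V.v_int_le _
  rwa [h, map_mul, Place.gn_C, V.v_int_eq_one hp hl, one_mul] at h1

theorem ev_unit {z : ℂ} (hz : IsAlgebraic ℚ z) :
    ∀ᶠ l : ℕ in atTop, l.Prime → ∀ V : Place l, z = 0 ∨ V.v z = 1 := by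
  filter_upwards [ev_le hz, ev_le hz.inv] with l h1 h2 hp V
  by_cases h0 : z = 0
  · exact Or.inl h0
  refine Or.inr (le_antisymm (h1 hp V) ?_)
  have h3 := h2 hp V
  have h4 : V.v z ≠ 0 := by simpa using h0
  rwa [map_inv₀, inv_le_one₀ (pos_iff_ne_zero.2 h4)] at h3

theorem ev_step {j : ℂ} (hj : IsAlgebraic ℚ j) :
    ∀ᶠ l : ℕ in atTop, l.Prime → ∀ V : Place l, ∀ j' : ℂ, V.v (j' - j ^ l) < 1 →
      ∃ r, aeval r (minpoly ℚ j) = 0 ∧ V.v (j' - r) < 1 := by
  obtain ⟨m, a, ha, h⟩ := exists_int_poly (minpoly ℚ j)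
  filter_upwards [ev_not_dvd ha, ev_le hj] with l hl hle hp V j' hv
  have hj1 := hle hp V
  have hjl : V.v (j ^ l) ≤ 1 := Place.le_pow hj1 l
  have hj' : V.v j' ≤ 1 := by
    have := Place.le_add hv.le hjl
    rwa [sub_add_cancel] at this
  have hev : ∀ x : ℂ, aeval x m = a * aeval x (minpoly ℚ j) := fun x => by
    have := congrArg (eval x) h
    rw [eval_mul, eval_C, eval_map_algebraMap] at this
    rw [← this, eval_map, aeval_def]
    rfl
  have := V.charP hp
  have : Fact l.Prime := ⟨hp⟩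
  have hred : V.red (aeval j' m) = 0 := by
    rw [(red_aeval V m hj').2, (Place.red_eq_iff hj' hjl).2 hv, Place.red_pow hj1]
    have h1 := aeval_algHom_apply (frobenius V.k l).toIntAlgHom (V.red j) m
    have h2 : aeval (V.red j) m = 0 := by
      rw [← (red_aeval V m hj1).2, hev, minpoly.aeval, mul_zero, V.red_zero]
    rw [h2, map_zero] at h1
    exact h1
  rw [Place.red_eq_zero (red_aeval V m hj').1, hev, map_mul, V.v_int_eq_one hp hl, one_mul,
    Splits.aeval_eq_prod_aroots_of_monic (IsAlgClosed.splits _) (minpoly.monic hj.isIntegral),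
    map_multiset_prod] at hred
  by_contra hcon
  push Not at hcon
  refine absurd hred (not_lt.2 (Multiset.one_le_prod_of_one_le fun x hx => ?_))
  simp only [Multiset.map_map, Multiset.mem_map, Function.comp] at hx
  obtain ⟨r, hr, rfl⟩ := hx
  exact hcon r (mem_aroots.1 hr).2

/-- conjugate under an automorphism of the complex numbers -/
def Cj (y y' : ℂ) : Prop := ∃ σ : ℂ ≃+* ℂ, σ y = y'

theorem Cj.refl (y : ℂ) : Cj y y := ⟨RingEquiv.refl ℂ, rfl⟩

theorem Cj.symm {y y' : ℂ} (h : Cj y y') : Cj y' y := by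
  obtain ⟨σ, rfl⟩ := h
  exact ⟨σ.symm, σ.symm_apply_apply y⟩

theorem Cj.trans {x y z : ℂ} (h : Cj x y) (h' : Cj y z) : Cj x z := by
  obtain ⟨σ, rfl⟩ := h
  obtain ⟨τ, rfl⟩ := h'
  exact ⟨σ.trans τ, rfl⟩

/-- for large primes all elements of a finite stable set are nice, and the congruence gives
conjugacy -/
theorem ev_main (hA : S_Aut) {Z : Set ℂ} (hZ : Z.Finite)
    (hs : ∀ σ : ℂ ≃+* ℂ, ∀ y ∈ Z, σ y ∈ Z) :
    ∀ᶠ l : ℕ in atTop, l.Prime → ∀ V : Place l, (∀ j ∈ Z, V.Nice j) ∧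
      ∀ j ∈ Z, ∀ j' ∈ Z, V.v (j' - j ^ l) < 1 → Cj j j' := by
  have halg : ∀ y ∈ Z, IsAlgebraic ℚ y := fun y hy =>
    hA.2.1 y (hZ.subset (by rintro _ ⟨σ, rfl⟩; exact hs σ y hy))
  have h1728 : IsAlgebraic ℚ (1728 : ℂ) := by
    simpa using isAlgebraic_natCast (R := ℚ) (A := ℂ) 1728
  have e1 := (eventually_all_finite hZ).2 fun y hy => ev_unit (halg y hy)
  have e2 := (eventually_all_finite hZ).2 fun y hy => ev_unit ((halg y hy).sub h1728)
  have e3 := (eventually_all_finite hZ).2 fun y hy => ev_step (halg y hy)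
  have e4 := (eventually_all_finite hZ).2 fun y hy =>
    (eventually_all_finite hZ).2 fun y' hy' => ev_unit ((halg y hy).sub (halg y' hy'))
  filter_upwards [e1, e2, e3, e4] with l h1 h2 h3 h4 hp V
  refine ⟨fun j hj => ⟨h1 j hj hp V, (h2 j hj hp V).imp_left sub_eq_zero.1⟩,
    fun j hj j' hj' hv => ?_⟩
  obtain ⟨r, hr, hv'⟩ := h3 j hj hp V j' hv
  obtain ⟨σ, rfl⟩ := hA.1 j r (halg j hj) hr
  rcases h4 j' hj' _ (hs σ j hj) hp V with h | h
  · exact ⟨σ, (sub_eq_zero.1 h).symm⟩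
  · exact absurd h hv'.ne

theorem im_ne {D : ℕ} (hD : Disc D) (β : ℤ) : ((β : ℂ) + th D).im ≠ 0 := by
  have : (0 : ℝ) < Real.sqrt D := Real.sqrt_pos.2 (by exact_mod_cast hD.1)
  simp only [Complex.add_im, Complex.intCast_im, zero_add, th_im]
  positivity

theorem chain (hK : S_Kron) (hP : S_Place) (hR : S_Prim) {D : ℕ} (hD : Disc D) {B : ℕ}
    (hB : ∀ l ≥ B, l.Prime → ∀ V : Place l, (∀ j ∈ VV' D, V.Nice j) ∧
      ∀ j ∈ VV' D, ∀ j' ∈ VV' D, V.v (j' - j ^ l) < 1 → Cj j j')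
    (β : ℤ) {L1 : PeriodPair} (h1 : IsLat L1 1 (β + th D)) (a : ℕ) :
    0 < a → (∀ l : ℕ, l.Prime → l ∣ a → B ≤ l ∧ 5 ≤ l) → (a : ℤ) ∣ gg D β →
      ∀ L, IsLat L a (β + th D) → Cj (jL L) (jL L1) := by
  induction a using induction_on_primes with
  | zero => intro h; exact absurd h (lt_irrefl 0)
  | one =>
    intro _ _ _ L hL
    have : Iso L L1 1 := hL.iso one_ne_zero (by simpa using h1)
    rw [this.jL]
    exact Cj.refl _
  | prime_mul l d hl ih =>
    intro hpos hdiv hg L hL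
    have hd : 0 < d := Nat.pos_of_mul_pos_left hpos
    have hd0 : (d : ℂ) ≠ 0 := by exact_mod_cast hd.ne'
    have hl0 : (l : ℂ) ≠ 0 := by exact_mod_cast hl.ne_zero
    have him := im_ne hD β
    obtain ⟨L', hL'⟩ := exists_lat (a := (d : ℂ)) (b := β + th D) (by
      have : (d : ℝ) ≠ 0 := by exact_mod_cast hd.ne'
      simpa [Complex.mul_im] using ⟨hd.ne', by simpa using him⟩)
    have hg' : (d : ℤ) ∣ gg D β := dvd_trans ⟨l, by push_cast; ring⟩ hg
    refine Cj.trans ?_ (ih hd (fun q hq hqd => hdiv q hq (hqd.mul_left l)) hg' L' hL')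
    obtain ⟨hBl, h5⟩ := hdiv l hl (dvd_mul_right l d)
    obtain ⟨V⟩ := hP l hl
    obtain ⟨hN, hC⟩ := hB l hBl hl V
    have m1 : jL L ∈ VV' D := ⟨L, ((hR D (l * d : ℕ) β hD).1 ⟨by exact_mod_cast hpos, hg⟩ L
      (by simpa using hL)).1, rfl⟩
    have m2 : jL L' ∈ VV' D := ⟨L', ((hR D d β hD).1 ⟨by exact_mod_cast hd, hg'⟩ L'
      (by simpa using hL')).1, rfl⟩
    have hl1 : ∀ m : ℤ, m * (l : ℤ) ≠ 1 := fun m hm => by
      have : (l : ℤ) ∣ 1 := ⟨m, by rw [← hm]; ring⟩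
      have := Int.le_of_dvd one_pos this
      omega
    have k1 : Hom L L' 1 := hL.hom_iff.2
      ⟨(hL' _).2 ⟨l, 0, by push_cast; ring⟩, by simpa using hL'.right⟩
    have k2 : Hom L' L (l / 1) := hL'.hom_iff.2
      ⟨(hL _).2 ⟨1, 0, by push_cast; ring⟩, (hL _).2 ⟨0, l, by push_cast; ring⟩⟩
    have k3 : ¬ Hom L' L 1⁻¹ := fun h => by
      obtain ⟨m, n, e⟩ := (hL _).1 (h _ hL'.left)
      have e1 := congrArg Complex.im e
      have hn : (n : ℝ) = 0 := by
        have : (n : ℝ) * ((β : ℂ) + th D).im = 0 := by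
          simpa [Complex.mul_im] using e1.symm
        exact (mul_eq_zero.1 this).resolve_right him
      have hn' : n = 0 := by exact_mod_cast hn
      subst hn'
      apply hl1 m
      have : ((m * (l : ℤ) : ℤ) : ℂ) = 1 := by
        apply mul_right_cancel₀ hd0
        push_cast at e ⊢
        linear_combination -e
      exact_mod_cast this
    have k4 : ¬ Hom L L' (1 / l) := fun h => by
      obtain ⟨m, n, e⟩ := (hL' _).1 (h _ hL.right)
      have e0 : (β : ℂ) + th D = l * (m * d) + (n * l) * (β + th D) := by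
        field_simp at e
        linear_combination e
      have e1 := congrArg Complex.im e0
      apply hl1 n
      have : ((n : ℝ) * l) * ((β : ℂ) + th D).im = 1 * ((β : ℂ) + th D).im := by
        simp only [Complex.add_im, Complex.mul_im, Complex.mul_re, Complex.natCast_im,
          Complex.intCast_im, Complex.natCast_re, Complex.intCast_re] at e1 ⊢
        linear_combination -e1
      exact_mod_cast mul_right_cancel₀ him this
    rcases hK l V L L' 1 hl h5 one_ne_zero k1 k2 k3 k4 (hN _ m1) (hN _ m2) with h | h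
    · exact hC _ m1 _ m2 h
    · exact (hC _ m2 _ m1 h).symm

end TransP

open TransP in
theorem trans (hK : S_Kron) (hS : S_Stab) (hA : S_Aut) (hP : S_Place) (hF : S_Fin) (hN : S_Norm)
    (hR : S_Prim) : S_Trans := by
  intro D y y' hD hy hy'
  obtain ⟨B, hB⟩ := eventually_atTop.1
    (ev_main hA (hF D hD) fun σ z hz => (hS D σ z hD).2 hz)
  obtain ⟨L1, h1⟩ := exists_lat (a := 1) (b := th D) (by simpa using im_ne hD 0)
  have key : ∀ z ∈ VV D, Cj z (jL L1) := by
    rintro _ ⟨L, hL, rfl⟩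
    obtain ⟨a, β, c, L0, ⟨ha, hg⟩, hcop, hL0, hiso⟩ := hN D L ((B + 5).factorial : ℕ) hD hL
      (by exact_mod_cast (B + 5).factorial_ne_zero)
    lift a to ℕ using ha.le
    rw [hiso.jL]
    refine chain hK hP hR hD hB β (fun z => ?_) a (by exact_mod_cast ha) (fun l hl hla => ?_) hg
      L0 (by simpa using hL0)
    · rw [h1]
      exact ⟨fun ⟨m, n, e⟩ => ⟨m - n * β, n, by rw [e]; push_cast; ring⟩,
        fun ⟨m, n, e⟩ => ⟨m + n * β, n, by rw [e]; push_cast; ring⟩⟩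
    · have hc : Nat.Coprime a (B + 5).factorial := Nat.isCoprime_iff_coprime.1 hcop
      have : ¬ l ≤ B + 5 := fun h =>
        hl.one_lt.ne' (Nat.eq_one_of_dvd_coprimes hc hla (hl.dvd_factorial.2 h))
      omega
  exact (key y hy).trans (key y' hy').symm

end Pool.Agent.P.MP_94fe55_nt
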