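import Pool.Agent.P.MP_94fe55_nt.Add
import Pool.Agent.P.MP_94fe55_nt.Arch
import Pool.Agent.P.MP_94fe55_nt.Aut
import Pool.Agent.P.MP_94fe55_nt.Cent
import Pool.Agent.P.MP_94fe55_nt.CondA
import Pool.Agent.P.MP_94fe55_nt.CondB
import Pool.Agent.P.MP_94fe55_nt.Conv
import Pool.Agent.P.MP_94fe55_nt.Core
import Pool.Agent.P.MP_94fe55_nt.Deep
import Pool.Agent.P.MP_94fe55_nt.Div
import Pool.Agent.P.MP_94fe55_nt.Final
import Pool.Agent.P.MP_94fe55_nt.Forms
import Pool.Agent.P.MP_94fe55_nt.HT
import Pool.Agent.P.MP_94fe55_nt.Int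
import Pool.Agent.P.MP_94fe55_nt.Kron
import Pool.Agent.P.MP_94fe55_nt.LH
import Pool.Agent.P.MP_94fe55_nt.Mod1
import Pool.Agent.P.MP_94fe55_nt.Mod2
import Pool.Agent.P.MP_94fe55_nt.Model
import Pool.Agent.P.MP_94fe55_nt.NearRho
import Pool.Agent.P.MP_94fe55_nt.Padic
import Pool.Agent.P.MP_94fe55_nt.Quat
import Pool.Agent.P.MP_94fe55_nt.Reps
import Pool.Agent.P.MP_94fe55_nt.Rho
import Pool.Agent.P.MP_94fe55_nt.Ring1
import Pool.Agent.P.MP_94fe55_nt.Ring2
import Pool.Agent.P.MP_94fe55_nt.Trans
import Pool.Agent.P.MP_94fe55_nt.Velu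

set_option autoImplicit false

namespace Pool.Agent.P.MP_94fe55_nt

theorem tools : Tools where
  unifEx := unifEx unif surj
  velu := velu
  conv := conv
  disc := disc
  homoth := homoth disc
  omega := omega
  ring := ring ring2
  quat := quat
  lh := lh
  div := div (ring ring2)
  tor := tor velu (div (ring ring2))
  rho := rho (ring ring2) quat lh (tor velu (div (ring ring2)))
  int := int lh (tor velu (div (ring ring2)))
  red := red lh (tor velu (div (ring ring2))) (int lh (tor velu (div (ring ring2))))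
  near := near velu (div (ring ring2)) lh
  model := model

theorem core_all : S_Core :=
  core tools (deep tools) (condA tools) (condB tools) (cent tools)
    (inj tools (cent tools) Pool.Agent.P.MP_94fe55_nt.norm)

theorem padic_all : S_Padic := padic core_all reps_le

theorem arch_all : S_Arch :=
  arch (jlow omega) prim redu (jinj (homoth disc)) ht (nearRho reps_le)

theorem stab_all : S_Stab := stab tools surj

theorem trans_all : S_Trans :=
  Pool.Agent.P.MP_94fe55_nt.trans (kron tools) stab_all aut place fin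
    Pool.Agent.P.MP_94fe55_nt.norm prim

end Pool.Agent.P.MP_94fe55_nt
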