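import Pool.Agent.P.MP_94fe55_nt.Kap

set_option autoImplicit false

namespace Pool.Agent.P.MP_94fe55_nt

open Polynomial WeierstrassCurve
open scoped NNReal

namespace CondAP

/-- an ultrametric height on an abelian group -/
structure Ht {G : Type} [AddCommGroup G] (M : G → ℝ≥0) : Prop where
  one_le : ∀ P, 1 ≤ M P
  zero : M 0 = 1
  neg : ∀ P, M (-P) = M P
  ultra : ∀ P Q, P ≠ 0 → Q ≠ 0 → P + Q ≠ 0 → min (M P) (M Q) ≤ M (P + Q)

section

variable {G : Type} [AddCommGroup G] {M : G → ℝ≥0}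

theorem Ht.smul_ge (h : Ht M) (R : G) (k : ℕ) : k • R = 0 ∨ M R ≤ M (k • R) := by
  induction k with
  | zero => left; simp
  | succ k ih =>
    by_cases h0 : k • R = 0
    · right; rw [succ_nsmul, h0, zero_add]
    have h1 := ih.resolve_left h0
    have hR : R ≠ 0 := by
      rintro rfl
      simp at h0
    by_cases h2 : (k + 1) • R = 0
    · exact Or.inl h2
    right
    rw [succ_nsmul] at h2 ⊢
    exact le_trans (le_min h1 le_rfl) (h.ultra _ _ h0 hR h2)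

theorem Ht.add_eq (h : Ht M) {R S : G} (hR : R ≠ 0) (hlt : M R < M S) : M (R + S) = M R := by
  have hS : S ≠ 0 := by
    rintro rfl
    rw [h.zero] at hlt
    exact absurd (h.one_le R) (not_le.2 hlt)
  have h1 : R + S ≠ 0 := by
    intro e
    rw [add_eq_zero_iff_eq_neg] at e
    rw [e, h.neg] at hlt
    exact lt_irrefl _ hlt
  apply le_antisymm
  · have h2 := h.ultra (R + S) (-S) h1 (neg_ne_zero.2 hS) (by simpa using hR)
    rw [add_neg_cancel_right, h.neg] at h2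
    rcases min_le_iff.1 h2 with e | e
    · exact e
    · exact absurd e (not_le.2 hlt)
  · have h2 := h.ultra R S hR hS h1
    rwa [min_eq_left hlt.le] at h2

theorem smul_ne_zero_of {p : ℕ} (hp : p.Prime) {R : G} (hR : R ≠ 0) (h0 : p • R = 0) {k : ℕ}
    (hk : ¬ p ∣ k) : k • R ≠ 0 := by
  intro e
  have h1 : addOrderOf R = p := by
    have : Fact p.Prime := ⟨hp⟩
    exact addOrderOf_eq_prime h0 hR
  exact hk (h1 ▸ addOrderOf_dvd_of_nsmul_eq_zero e)

theorem Ht.smul_eq (h : Ht M) {p : ℕ} (hp : p.Prime) {R : G} (hR : R ≠ 0) (h0 : p • R = 0)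
    {k : ℕ} (hk : ¬ p ∣ k) : M (k • R) = M R := by
  have h1 := smul_ne_zero_of hp hR h0 hk
  apply le_antisymm
  · have hc : k.Coprime p := ((Nat.Prime.coprime_iff_not_dvd hp).2 hk).symm
    obtain ⟨k', -, hk'⟩ := Nat.exists_mul_mod_eq_one_of_coprime hc hp.one_lt
    have e : k' • k • R = R := by
      rw [← mul_smul, mul_comm, ← Nat.div_add_mod (k * k') p, hk', add_smul, one_smul,
        mul_comm, mul_smul, h0, smul_zero, zero_add]
    have := (h.smul_ge (k • R) k').resolve_left (by rw [e]; exact hR)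
    rwa [e] at this
  · exact (h.smul_ge R k).resolve_left h1

theorem nsmul_inj {R : G} {n i j : ℕ} (hn : addOrderOf R = n) (hi : i < n) (hj : j < n)
    (e : i • R = j • R) : i = j := by
  subst hn
  exact nsmul_injOn_Iio_addOrderOf hi hj e

variable [DecidableEq G]

/-- the data of an endomorphism that is not divisible by `p` -/
structure Dat (M : G → ℝ≥0) (p : ℕ) (φ : G →+ G) (T E : Finset G) (P₁ Q₀ : G) : Prop where
  ht : Ht M
  prime : p.Prime
  kerT : ∀ Q, Q ∈ T ↔ φ Q = 0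
  kerE : ∀ Q, Q ∈ E ↔ p • Q = 0
  card : E.card = p ^ 2
  distT : ∀ P, φ P ≠ 0 → M (φ P) = ∏ Q ∈ T, M (P + Q)
  distE : ∀ P, p • P ≠ 0 → M (p • P) = ∏ Q ∈ E, M (P + Q)
  tot : ∏ Q ∈ E.erase 0, M Q = (p : ℝ≥0) ^ 2
  hP : p • P₁ = 0
  hQ : φ Q₀ = 0
  hc : p • Q₀ = φ P₁
  ne : φ P₁ ≠ 0

variable {p : ℕ} {φ : G →+ G} {T E : Finset G} {P₁ Q₀ : G}

theorem Dat.pc (h : Dat M p φ T E P₁ Q₀) : p • φ P₁ = 0 := by
  rw [← map_nsmul, h.hP, map_zero]

theorem Dat.fc (h : Dat M p φ T E P₁ Q₀) : φ (φ P₁) = 0 := by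
  rw [← h.hc, map_nsmul, h.hQ, smul_zero]

theorem Dat.P_ne (h : Dat M p φ T E P₁ Q₀) : P₁ ≠ 0 := by
  intro e
  apply h.ne
  rw [e, map_zero]

theorem Dat.ord (h : Dat M p φ T E P₁ Q₀) : addOrderOf (φ P₁) = p := by
  have : Fact p.Prime := ⟨h.prime⟩
  exact addOrderOf_eq_prime h.pc h.ne

theorem Dat.f_comb (h : Dat M p φ T E P₁ Q₀) (i j : ℕ) : φ (i • P₁ + j • φ P₁) = i • φ P₁ := by
  rw [map_add, map_nsmul, map_nsmul, h.fc, smul_zero, add_zero]

theorem Dat.inj (h : Dat M p φ T E P₁ Q₀) :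
    Set.InjOn (fun w : ℕ × ℕ => w.1 • P₁ + w.2 • φ P₁)
      ((Finset.range p ×ˢ Finset.range p : Finset (ℕ × ℕ)) : Set (ℕ × ℕ)) := by
  rintro ⟨i, j⟩ hw ⟨i', j'⟩ hw' e
  simp only [Finset.coe_product, Finset.coe_range, Set.mem_prod, Set.mem_Iio] at hw hw'
  have e1 := congrArg φ e
  simp only [h.f_comb] at e1
  have hi := nsmul_inj h.ord hw.1 hw'.1 e1
  subst hi
  have hj := nsmul_inj h.ord hw.2 hw'.2 (add_left_cancel e)
  rw [hj]

theorem Dat.image (h : Dat M p φ T E P₁ Q₀) :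
    (Finset.range p ×ˢ Finset.range p).image (fun w : ℕ × ℕ => w.1 • P₁ + w.2 • φ P₁) = E := by
  apply Finset.eq_of_subset_of_card_le
  · intro Q hQ
    obtain ⟨w, -, rfl⟩ := Finset.mem_image.1 hQ
    rw [h.kerE, smul_add, smul_comm, h.hP, smul_comm, h.pc]
    simp
  · rw [Finset.card_image_of_injOn h.inj, h.card]
    simp [sq]

theorem Dat.param (h : Dat M p φ T E P₁ Q₀) {Q : G} (hQ : Q ∈ E) :
    ∃ i j, i < p ∧ j < p ∧ Q = i • P₁ + j • φ P₁ := by
  rw [← h.image] at hQ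
  obtain ⟨⟨i, j⟩, hw, rfl⟩ := Finset.mem_image.1 hQ
  simp only [Finset.mem_product, Finset.mem_range] at hw
  exact ⟨i, j, hw.1, hw.2, rfl⟩

theorem Dat.M_le (h : Dat M p φ T E P₁ Q₀) {i : ℕ} (hi : ¬ p ∣ i) (j : ℕ) :
    M (i • P₁ + j • φ P₁) ≤ M (φ P₁) := by
  have h1 := h.distT (i • P₁ + j • φ P₁) (by
    rw [h.f_comb]; exact smul_ne_zero_of h.prime h.ne h.pc hi)
  rw [h.f_comb, h.ht.smul_eq h.prime h.ne h.pc hi] at h1
  rw [h1]
  have := Finset.single_le_prod' (f := fun Q => M (i • P₁ + j • φ P₁ + Q)) (s := T)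
    (fun Q _ => h.ht.one_le _) ((h.kerT 0).2 (map_zero _))
  simpa using this

theorem Dat.m_le (h : Dat M p φ T E P₁ Q₀) : M P₁ ≤ M (φ P₁) := by
  simpa using h.M_le (i := 1) h.prime.not_dvd_one 0

theorem Dat.M_out (h : Dat M p φ T E P₁ Q₀) {i : ℕ} (hi : ¬ p ∣ i) (j : ℕ) :
    M (i • P₁ + j • φ P₁) = M P₁ := by
  have h1 := h.ht.smul_eq h.prime h.P_ne h.hP hi
  have h2 := smul_ne_zero_of h.prime h.P_ne h.hP hi
  by_cases hj : p ∣ j
  · obtain ⟨k, rfl⟩ := hj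
    rw [mul_comm, mul_smul, h.pc, smul_zero, add_zero, h1]
  have h3 := h.ht.smul_eq h.prime h.ne h.pc hj
  rcases h.m_le.lt_or_eq with e | e
  · rw [h.ht.add_eq h2 (by rw [h1, h3]; exact e), h1]
  · apply le_antisymm
    · rw [e]; exact h.M_le hi j
    · have h4 := h.ht.ultra _ _ h2 (smul_ne_zero_of h.prime h.ne h.pc hj) (by
        intro e0
        have := h.f_comb i j
        rw [e0, map_zero] at this
        exact smul_ne_zero_of h.prime h.ne h.pc hi this.symm)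
      rwa [h1, h3, ← e, min_self] at h4

/-- heights of the points killed by `φ` -/
theorem Dat.M_in' (h : Dat M p φ T E P₁ Q₀) {Q : G} (hQ : Q ∈ E.erase 0) (h0 : φ Q = 0) :
    M Q = M (φ P₁) := by
  obtain ⟨hne, hE⟩ := Finset.mem_erase.1 hQ
  obtain ⟨i, j, hi, hj, rfl⟩ := h.param hE
  rw [h.f_comb] at h0
  have hi0 : i = 0 := nsmul_inj h.ord hi h.prime.pos (by simpa using h0)
  subst hi0
  rw [zero_smul, zero_add] at hne ⊢
  refine h.ht.smul_eq h.prime h.ne h.pc fun e => hne ?_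
  rw [Nat.eq_zero_of_dvd_of_lt e hj, zero_smul]

theorem Dat.M_out' (h : Dat M p φ T E P₁ Q₀) {Q : G} (hQ : Q ∈ E) (h0 : φ Q ≠ 0) :
    M Q = M P₁ := by
  obtain ⟨i, j, hi, hj, rfl⟩ := h.param hQ
  rw [h.f_comb] at h0
  refine h.M_out (fun e => h0 ?_) j
  rw [Nat.eq_zero_of_dvd_of_lt e hi, zero_smul]

theorem Dat.m_le_M (h : Dat M p φ T E P₁ Q₀) {Q : G} (hQ : Q ∈ E) (h0 : Q ≠ 0) :
    M P₁ ≤ M Q := by
  by_cases e : φ Q = 0
  · rw [h.M_in' (Finset.mem_erase.2 ⟨h0, hQ⟩) e]; exact h.m_le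
  · rw [h.M_out' hQ e]

theorem Dat.card_in (h : Dat M p φ T E P₁ Q₀) :
    ((E.erase 0).filter (fun Q => φ Q = 0)).card = p - 1 := by
  have e : (E.erase 0).filter (fun Q => φ Q = 0) =
      ((Finset.range p).erase 0).image (fun j : ℕ => j • φ P₁) := by
    ext Q
    simp only [Finset.mem_filter, Finset.mem_erase, Finset.mem_image, Finset.mem_range]
    constructor
    · rintro ⟨⟨hne, hE⟩, h0⟩
      obtain ⟨i, j, hi, hj, rfl⟩ := h.param hE
      rw [h.f_comb] at h0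
      have hi0 : i = 0 := nsmul_inj h.ord hi h.prime.pos (by simpa using h0)
      subst hi0
      rw [zero_smul, zero_add] at hne ⊢
      refine ⟨j, ⟨?_, hj⟩, rfl⟩
      rintro rfl
      simp at hne
    · rintro ⟨j, ⟨hj0, hj⟩, rfl⟩
      refine ⟨⟨smul_ne_zero_of h.prime h.ne h.pc
        fun e => hj0 (Nat.eq_zero_of_dvd_of_lt e hj), ?_⟩, ?_⟩
      · rw [h.kerE, smul_comm, h.pc, smul_zero]
      · rw [map_nsmul, h.fc, smul_zero]
  rw [e, Finset.card_image_of_injOn, Finset.card_erase_of_mem (Finset.mem_range.2 h.prime.pos),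
    Finset.card_range]
  intro i hi j hj e
  simp only [Finset.coe_erase, Finset.coe_range, Set.mem_sdiff, Set.mem_Iio] at hi hj
  exact nsmul_inj h.ord hi.1 hj.1 e

theorem Dat.card_out (h : Dat M p φ T E P₁ Q₀) :
    ((E.erase 0).filter (fun Q => ¬ φ Q = 0)).card = p ^ 2 - p := by
  have h1 := Finset.card_filter_add_card_filter_not (s := E.erase 0) (fun Q => φ Q = 0)
  rw [h.card_in, Finset.card_erase_of_mem ((h.kerE 0).2 (smul_zero _)), h.card] at h1
  have h2 := h.prime.pos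
  have h3 : p ≤ p ^ 2 := by nlinarith
  omega

theorem Dat.tot' (h : Dat M p φ T E P₁ Q₀) :
    M (φ P₁) ^ (p - 1) * M P₁ ^ (p ^ 2 - p) = (p : ℝ≥0) ^ 2 := by
  rw [← h.tot, ← Finset.prod_filter_mul_prod_filter_not (E.erase 0) (fun Q => φ Q = 0),
    ← h.card_in, ← h.card_out, ← Finset.prod_const, ← Finset.prod_const]
  congr 1
  · refine Finset.prod_congr rfl fun Q hQ => ?_
    rw [Finset.mem_filter] at hQ
    exact (h.M_in' hQ.1 hQ.2).symm
  · refine Finset.prod_congr rfl fun Q hQ => ?_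
    rw [Finset.mem_filter] at hQ
    exact (h.M_out' (Finset.mem_of_mem_erase hQ.1) hQ.2).symm

theorem Dat.ordQ (h : Dat M p φ T E P₁ Q₀) : addOrderOf Q₀ = p ^ 2 := by
  have : Fact p.Prime := ⟨h.prime⟩
  refine addOrderOf_eq_prime_pow (n := 1) ?_ ?_
  · rw [pow_one, h.hc]; exact h.ne
  · rw [pow_succ, pow_one, mul_smul, h.hc, h.pc]

theorem Dat.big (h : Dat M p φ T E P₁ Q₀) : M P₁ ^ (p ^ 2) ≤ M (φ P₁) := by
  have hQ0 : Q₀ ≠ 0 := by
    intro e
    apply h.ne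
    rw [← h.hc, e, smul_zero]
  have h1 := h.distE Q₀ (by rw [h.hc]; exact h.ne)
  rw [h.hc] at h1
  have hs : ∀ S ∈ E, Q₀ + S ≠ 0 := by
    intro S hS e
    apply h.ne
    rw [← h.hc, eq_neg_of_add_eq_zero_left e, smul_neg, (h.kerE S).1 hS, neg_zero]
  rcases le_or_gt (M P₁) (M Q₀) with e | e
  · rw [h1, ← h.card]
    apply Finset.pow_card_le_prod
    intro S hS
    by_cases h0 : S = 0
    · rw [h0, add_zero]; exact e
    · exact le_trans (le_min e (h.m_le_M hS h0)) (h.ht.ultra _ _ hQ0 h0 (hs S hS))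
  exfalso
  have h2 : M (φ P₁) = M Q₀ ^ (p ^ 2) := by
    rw [h1, ← h.card, ← Finset.prod_const]
    refine Finset.prod_congr rfl fun S hS => ?_
    by_cases h0 : S = 0
    · rw [h0, add_zero]
    · exact h.ht.add_eq hQ0 (e.trans_le (h.m_le_M hS h0))
  have h3 := h.distT P₁ h.ne
  have hinj : Set.InjOn (fun i : ℕ => i • Q₀) (Finset.range (p ^ 2) : Set ℕ) := by
    intro i hi j hj e
    simp only [Finset.coe_range, Set.mem_Iio] at hi hj
    exact nsmul_inj h.ordQ hi hj e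
  have hsub : (Finset.range (p ^ 2)).image (fun i : ℕ => i • Q₀) ⊆ T := by
    intro Q hQ
    obtain ⟨i, -, rfl⟩ := Finset.mem_image.1 hQ
    rw [h.kerT, map_nsmul, h.hQ, smul_zero]
  have h4 : ∏ i ∈ Finset.range (p ^ 2), M (P₁ + i • Q₀) ≤ M (φ P₁) := by
    rw [h3, ← Finset.prod_image (f := fun Q => M (P₁ + Q)) hinj]
    exact Finset.prod_le_prod_of_subset_of_one_le' hsub fun Q _ _ => h.ht.one_le _
  have hpos : 0 < p ^ 2 := pow_pos h.prime.pos 2
  have h5 : ∏ i ∈ Finset.range (p ^ 2), M Q₀ < ∏ i ∈ Finset.range (p ^ 2), M (P₁ + i • Q₀) := by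
    apply Finset.prod_lt_prod
    · intro i _
      exact zero_lt_one.trans_le (h.ht.one_le _)
    · intro i _
      rcases h.ht.smul_ge Q₀ i with e0 | e0
      · rw [e0, add_zero]; exact e.le
      by_cases e1 : i • Q₀ = 0
      · rw [e1, add_zero]; exact e.le
      refine le_trans (le_min e.le e0) (h.ht.ultra _ _ h.P_ne e1 fun e2 => h.ne ?_)
      have := congrArg φ e2
      rwa [map_add, map_nsmul, h.hQ, smul_zero, add_zero, map_zero] at this
    · exact ⟨0, Finset.mem_range.2 hpos, by rw [zero_smul, add_zero]; exact e⟩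
  rw [Finset.prod_const, Finset.card_range, ← h2] at h5
  exact absurd h4 (not_le.2 h5)

theorem Dat.m_lt (h : Dat M p φ T E P₁ Q₀) : M P₁ < M (φ P₁) := by
  refine lt_of_le_of_ne h.m_le fun e => ?_
  have h1 := h.big
  have h2 : 1 < p ^ 2 := Nat.one_lt_pow two_ne_zero h.prime.one_lt
  have h3 : M P₁ = 1 := by
    by_contra h0
    have h4 : 1 < M P₁ := lt_of_le_of_ne (h.ht.one_le _) (Ne.symm h0)
    have h5 := pow_lt_pow_right₀ h4 h2
    rw [pow_one, e] at h5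
    rw [← e] at h1 h5
    exact absurd h1 (not_le.2 h5)
  have h4 := h.tot'
  rw [← e, h3, one_pow, one_pow, one_mul] at h4
  have h5 : 1 = p ^ 2 := by exact_mod_cast h4
  omega

theorem sq_le_two_pow (p : ℕ) : p ^ 2 ≤ 2 ^ (p + 1) := by
  induction p with
  | zero => simp
  | succ n ih =>
    rcases Nat.lt_or_ge n 3 with e | e
    · interval_cases n <;> norm_num
    · have : (n + 1) ^ 2 ≤ 2 * n ^ 2 := by nlinarith
      rw [pow_succ 2 (n + 1)]
      omega

theorem Dat.H_le (h : Dat M p φ T E P₁ Q₀) : M P₁ ^ (p ^ 2 - p) ≤ 2 := by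
  have h1 : (M P₁ ^ (p ^ 2 - p)) ^ (p + 1) ≤ (p : ℝ≥0) ^ 2 := by
    rw [← h.tot', ← pow_mul]
    have e : (p ^ 2 - p) * (p + 1) = p ^ 2 * (p - 1) + (p ^ 2 - p) := by
      obtain ⟨q, rfl⟩ : ∃ q, p = q + 1 := ⟨p - 1, by have := h.prime.pos; omega⟩
      have e1 : (q + 1) ^ 2 - (q + 1) = q * (q + 1) := by
        rw [Nat.sub_eq_iff_eq_add (by nlinarith)]; ring
      rw [e1, Nat.add_sub_cancel]; ring
    rw [e, pow_add, pow_mul]
    exact mul_le_mul' (pow_le_pow_left₀ zero_le h.big _) le_rfl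
  have h2 : (p : ℝ≥0) ^ 2 ≤ 2 ^ (p + 1) := by exact_mod_cast sq_le_two_pow p
  exact (pow_le_pow_iff_left₀ zero_le zero_le (Nat.succ_ne_zero p)).1 (h1.trans h2)

end

end CondAP

end Pool.Agent.P.MP_94fe55_nt
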