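import Mathlib

set_option autoImplicit false

namespace Pool.Agent.P.MP_94fe55_nt

open Polynomial
open scoped NNReal

noncomputable section

/-! ### points of a Weierstrass curve over a field -/

abbrev Pt {F : Type} [Field F] (W : WeierstrassCurve F) : Type := W.toAffine.Point

section Points

variable {F : Type} [Field F] {W : WeierstrassCurve F}

/-- affine x-coordinate, `0` at infinity -/
def px : Pt W → F
  | .zero => 0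
  | .some x _ _ => x

/-- affine y-coordinate, `0` at infinity -/
def py : Pt W → F
  | .zero => 0
  | .some _ y _ => y

/-- `2y + a₁x + a₃` -/
def pY (P : Pt W) : F := 2 * py P + W.a₁ * px P + W.a₃

/-- homogeneous x-coordinate `(hx : hz)`, equal to `(1 : 0)` at infinity -/
def hx : Pt W → F
  | .zero => 1
  | .some x _ _ => x

def hz : Pt W → F
  | .zero => 0
  | .some _ _ _ => 1

end Points

/-- the addition-subtraction forms for the points `(a : b)` and `(c : d)` -/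
def S0 {R : Type} [CommRing R] (a b c d : R) : R := (a * d - c * b) ^ 2

def S1 {R : Type} [CommRing R] (b2 b4 b6 a b c d : R) : R :=
  2 * (a * d + c * b) * (a * c) + b2 * (a * c) * (b * d) + b4 * (a * d + c * b) * (b * d) +
    b6 * (b * d) ^ 2

def S2 {R : Type} [CommRing R] (b4 b6 b8 a b c d : R) : R :=
  (a * c) ^ 2 - b4 * (a * c) * (b * d) - b6 * (a * d + c * b) * (b * d) - b8 * (b * d) ^ 2

/-- the cubic `4A³ + b₂A²B + 2b₄AB² + b₆B³` -/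
def F3 {F : Type} [Field F] (W : WeierstrassCurve F) (A B : F[X]) : F[X] :=
  4 * A ^ 3 + C W.b₂ * A ^ 2 * B + 2 * C W.b₄ * A * B ^ 2 + C W.b₆ * B ^ 3

/-- the Wronskian `A'B - AB'` -/
def Wr {F : Type} [Field F] (A B : F[X]) : F[X] := derivative A * B - A * derivative B

/-- `c₄³ / Δ` -/
def jW {F : Type} [Field F] (W : WeierstrassCurve F) : F := W.c₄ ^ 3 / W.Δ

/-! ### endomorphisms given by rational functions -/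

section Rep

variable {F : Type} [Field F] [DecidableEq F] {W : WeierstrassCurve F}
  {Γ : Type} [AddCommGroup Γ]

/-- `x ∘ φ = A / B` away from finitely many points, in lowest terms -/
def Rep (ι : Γ →+ Pt W) (φ : AddMonoid.End Γ) (A B : F[X]) : Prop :=
  A.Monic ∧ B.degree < A.degree ∧ IsCoprime A B ∧
    {P : Γ | hx (ι (φ P)) * B.eval (px (ι P)) ≠ hz (ι (φ P)) * A.eval (px (ι P))}.Finite

/-- the same without normalisation -/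
def PRep (ι : Γ →+ Pt W) (φ : AddMonoid.End Γ) (A B : F[X]) : Prop :=
  IsCoprime A B ∧
    {P : Γ | hx (ι (φ P)) * B.eval (px (ι P)) ≠ hz (ι (φ P)) * A.eval (px (ι P))}.Finite

/-- `y ∘ φ` is a rational function away from finitely many points -/
def RatY (ι : Γ →+ Pt W) (φ : AddMonoid.End Γ) : Prop :=
  ∃ U V D : F[X], D ≠ 0 ∧
    {P : Γ | py (ι (φ P)) * D.eval (px (ι P)) ≠
      U.eval (px (ι P)) + V.eval (px (ι P)) * py (ι P)}.Finite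

def Alg (ι : Γ →+ Pt W) (φ : AddMonoid.End Γ) : Prop := (∃ A B, Rep ι φ A B) ∧ RatY ι φ

open Classical in
/-- degree -/
def qd (ι : Γ →+ Pt W) (φ : AddMonoid.End Γ) : ℕ :=
  if h : ∃ AB : F[X] × F[X], Rep ι φ AB.1 AB.2 then h.choose.1.natDegree else 0

open Classical in
/-- order of the pole at infinity -/
def ed (ι : Γ →+ Pt W) (φ : AddMonoid.End Γ) : ℕ :=
  if h : ∃ AB : F[X] × F[X], Rep ι φ AB.1 AB.2 then
    h.choose.1.natDegree - h.choose.2.natDegree else 0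

/-- the ring of algebraic endomorphisms and its degree form -/
structure RingFacts (ι : Γ →+ Pt W) : Prop where
  uniq : ∀ φ A B A' B', Rep ι φ A B → Rep ι φ A' B' → A = A' ∧ B = B'
  qd_eq : ∀ φ A B, Rep ι φ A B → qd ι φ = A.natDegree
  ed_eq : ∀ φ A B, Rep ι φ A B → ed ι φ = A.natDegree - B.natDegree
  rep_zero : Rep ι 0 1 0
  rep_one : Rep ι 1 X 1
  rep_neg : ∀ φ A B, Rep ι φ A B → Rep ι (-φ) A B
  alg_zero : Alg ι 0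
  alg_one : Alg ι 1
  alg_neg : ∀ φ, Alg ι φ → Alg ι (-φ)
  alg_add : ∀ φ ψ, Alg ι φ → Alg ι ψ → Alg ι (φ + ψ)
  alg_mul : ∀ φ ψ, Alg ι φ → Alg ι ψ → Alg ι (φ * ψ)
  triple : ∀ φ ψ A B A' B' A1 B1 A2 B2, Rep ι φ A B → Rep ι ψ A' B' → Rep ι (φ + ψ) A1 B1 →
    Rep ι (φ - ψ) A2 B2 → S0 A B A' B' = B1 * B2 ∧
      S1 (C W.b₂) (C W.b₄) (C W.b₆) A B A' B' = A1 * B2 + A2 * B1 ∧
      S2 (C W.b₄) (C W.b₆) (C W.b₈) A B A' B' = A1 * A2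
  q_mul : ∀ φ ψ, Alg ι φ → Alg ι ψ → qd ι (φ * ψ) = qd ι φ * qd ι ψ
  e_mul : ∀ φ ψ, Alg ι φ → Alg ι ψ → ed ι (φ * ψ) = ed ι φ * ed ι ψ
  q_par : ∀ φ ψ, Alg ι φ → Alg ι ψ →
    qd ι (φ + ψ) + qd ι (φ - ψ) = 2 * qd ι φ + 2 * qd ι ψ
  q_zero : ∀ φ, Alg ι φ → qd ι φ = 0 → φ = 0
  B_ne : ∀ φ A B, Rep ι φ A B → φ ≠ 0 → B ≠ 0
  e_pos : ∀ φ, Alg ι φ → φ ≠ 0 → 0 < ed ι φ
  e_le : ∀ φ, ed ι φ ≤ qd ι φ
  ker_fin : ∀ φ, Alg ι φ → φ ≠ 0 → {P | φ P = 0}.Finite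
  ker_card : ∀ φ, Alg ι φ → φ ≠ 0 → ∀ K : Finset Γ, (∀ P ∈ K, φ P = 0) → K.card ≤ qd ι φ

/-- points of finite order prime to `p` -/
def ptor (p : ℕ) (W : WeierstrassCurve F) : AddSubgroup (Pt W) where
  carrier := {P | ∃ m : ℕ, m.Coprime p ∧ m • P = 0}
  zero_mem' := ⟨1, Nat.coprime_one_left p, by simp⟩
  add_mem' := by
    rintro P Q ⟨m, hm, hP⟩ ⟨n, hn, hQ⟩
    refine ⟨m * n, Nat.Coprime.mul_left hm hn, ?_⟩
    rw [smul_add, mul_comm m n, mul_smul, hP, mul_comm n m, mul_smul, hQ]; simp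
  neg_mem' := by
    rintro P ⟨m, hm, hP⟩
    exact ⟨m, hm, by rw [smul_neg, hP, neg_zero]⟩

/-- restriction of a homomorphism to the prime-to-`p` torsion -/
def res (p : ℕ) {W W' : WeierstrassCurve F} (φ : Pt W →+ Pt W') : ptor p W →+ ptor p W' where
  toFun P := ⟨φ P.1, by
    obtain ⟨m, hm, hP⟩ := P.2
    exact ⟨m, hm, by rw [← map_nsmul, hP, map_zero]⟩⟩
  map_zero' := Subtype.ext (by simp)
  map_add' P Q := Subtype.ext (by simp)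

end Rep

/-! ### lattices -/

def Hom (L L' : PeriodPair) (c : ℂ) : Prop := ∀ z ∈ L.lattice, c * z ∈ L'.lattice

def Iso (L L' : PeriodPair) (c : ℂ) : Prop := c ≠ 0 ∧ ∀ z, z ∈ L.lattice ↔ c * z ∈ L'.lattice

def IsLat (L : PeriodPair) (a b : ℂ) : Prop :=
  ∀ z, z ∈ L.lattice ↔ ∃ m n : ℤ, z = m * a + n * b

/-- the ring of multipliers is maximal at `p` -/
def PMax (p : ℕ) (L : PeriodPair) : Prop :=
  ∀ (γ : ℂ) (t n : ℤ), Hom L L γ → γ ^ 2 = p * t * γ - (p : ℂ) ^ 2 * n → Hom L L (γ / p)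

def jL (L : PeriodPair) : ℂ := 1728 * L.g₂ ^ 3 / (L.g₂ ^ 3 - 27 * L.g₃ ^ 2)

def g2 (τ : ℂ) : ℂ := 60 * ∑' p : ℤ × ℤ, (((p.1 : ℂ) * τ + (p.2 : ℂ))⁻¹) ^ 4

def g3 (τ : ℂ) : ℂ := 140 * ∑' p : ℤ × ℤ, (((p.1 : ℂ) * τ + (p.2 : ℂ))⁻¹) ^ 6

def J (τ : ℂ) : ℂ := 1728 * g2 τ ^ 3 / (g2 τ ^ 3 - 27 * g3 τ ^ 2)

/-- the primitive cube root of unity in the upper half plane -/
def om : ℂ := (-1 + Complex.I * (Real.sqrt 3 : ℝ)) / 2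

/-- `-D` is a negative discriminant -/
def Disc (D : ℕ) : Prop := 0 < D ∧ (D % 4 = 0 ∨ D % 4 = 3)

/-- generator of the order of discriminant `-D` -/
def th (D : ℕ) : ℂ := (((D % 2 : ℕ) : ℂ) + Complex.I * (Real.sqrt D : ℝ)) / 2

/-- norm of `β + th D` -/
def gg (D : ℕ) (β : ℤ) : ℤ := β ^ 2 + ((D % 2 : ℕ) : ℤ) * β + (((D + D % 2) / 4 : ℕ) : ℤ)

def IsCM (D : ℕ) (L : PeriodPair) : Prop := ∀ c, Hom L L c ↔ ∃ u v : ℤ, c = u + v * th D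

/-- singular moduli of discriminant `-D` -/
def VV (D : ℕ) : Set ℂ := {y | ∃ L, IsCM D L ∧ y = jL L}

/-- j-invariants of lattices whose ring of multipliers contains the order of discriminant `-D` -/
def VV' (D : ℕ) : Set ℂ := {y | ∃ L, Hom L L (th D) ∧ y = jL L}

def Form (D : ℕ) (a β : ℤ) : Prop := 0 < a ∧ a ∣ gg D β

def Prim (D : ℕ) (a β : ℤ) : Prop :=
  Form D a β ∧ ∀ d : ℤ, d ∣ a → d ∣ 2 * β + ((D % 2 : ℕ) : ℤ) → d ∣ gg D β / a → d ∣ 1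

def Reduced (D : ℕ) (a β : ℤ) : Prop := |2 * β + ((D % 2 : ℕ) : ℤ)| ≤ a ∧ a ^ 2 ≤ gg D β

def tau (D : ℕ) (a β : ℤ) : ℂ := (β + th D) / a

open Classical in
/-- number of primitive forms with first coefficient `a`, modulo translation -/
def rr (D a : ℕ) : ℕ := ((Finset.range a).filter (fun β : ℕ => Prim D a β)).card

/-- number of representations by `U² + 3V²` -/
def reps (g : ℤ) : ℕ := Set.ncard {w : ℤ × ℤ | w.1 ^ 2 + 3 * w.2 ^ 2 = g}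

/-- the bound for the number of singular moduli that are `p`-adically close to zero -/
def cnt (p h : ℕ) (D' : ℤ) : ℕ :=
  ∑ x ∈ (Finset.Icc (-(4 * D')) (4 * D')).filter
      (fun x => 0 < 12 * D' - x ^ 2 ∧ 16 * (p : ℤ) ^ h ∣ 12 * D' - x ^ 2),
    reps (144 * ((12 * D' - x ^ 2) / 16) ^ 2)

/-! ### uniformisation and isogenies -/

structure Unif (W : WeierstrassCurve ℂ) (L : PeriodPair) (π : ℂ →+ Pt W) : Prop where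
  disc : W.Δ ≠ 0
  c4 : 12 * L.g₂ = W.c₄
  c6 : 216 * L.g₃ = W.c₆
  surj : Function.Surjective π
  ker : ∀ z, π z = 0 ↔ z ∈ L.lattice
  x : ∀ z, z ∉ L.lattice → px (π z) = L.weierstrassP z - W.b₂ / 12
  Y : ∀ z, z ∉ L.lattice → pY (π z) = L.derivWeierstrassP z

open Classical in
/-- the homomorphism induced by `z ↦ c z` (zero if there is none) -/
def mulPt {W W' : WeierstrassCurve ℂ} (π : ℂ →+ Pt W) (π' : ℂ →+ Pt W') (c : ℂ) :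
    Pt W →+ Pt W' :=
  if h : ∃ φ : Pt W →+ Pt W', ∀ z, φ (π z) = π' (c * z) then h.choose else 0

structure Isog (W W' : WeierstrassCurve ℂ) (c : ℂ) (φ : Pt W →+ Pt W') (T : Finset (Pt W))
    (A B : ℂ[X]) : Prop where
  c_ne : c ≠ 0
  ker : ∀ Q, Q ∈ T ↔ φ Q = 0
  B_eq : B = C (c ^ 2) * ∏ Q ∈ T.erase 0, (X - C (px Q))
  monic : A.Monic
  deg : A.natDegree = T.card
  cop : IsCoprime A B
  prod : ∀ P, φ P ≠ 0 → A - C (px (φ P)) * B = ∏ Q ∈ T, (X - C (px (P + Q)))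
  Yrel : ∀ P, φ P ≠ 0 → c * B.eval (px P) ^ 2 * pY (φ P) = (Wr A B).eval (px P) * pY P
  ode : Wr A B ^ 2 * F3 W X 1 = C (c ^ 2) * F3 W' A B * B

/-! ### places of the complex numbers -/

structure Place (p : ℕ) where
  v : Valuation ℂ ℝ≥0
  vp : v p = (p : ℝ≥0)⁻¹

namespace Place

variable {p : ℕ} (V : Place p)

abbrev O : ValuationSubring ℂ := V.v.valuationSubring

/-- residue field -/
abbrev k : Type := IsLocalRing.ResidueField V.O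

instance : DecidableEq V.k := Classical.decEq _

/-- reduction, `0` outside the valuation ring -/
def red (z : ℂ) : V.k := if h : V.v z ≤ 1 then IsLocalRing.residue V.O ⟨z, h⟩ else 0

def redP (G : ℂ[X]) : V.k[X] := G.sum fun i a => monomial i (V.red a)

/-- the valuation as a real absolute value -/
def av : AbsoluteValue ℂ ℝ where
  toFun z := V.v z
  map_mul' a b := by simp
  nonneg' a := (V.v a).2
  eq_zero' a := by simp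
  add_le' a b := by
    have h := V.v.map_add a b
    have : V.v (a + b) ≤ V.v a + V.v b :=
      h.trans (max_le le_self_add le_add_self)
    exact_mod_cast this

theorem av_na : IsNonarchimedean V.av := by
  intro a b
  have h := V.v.map_add a b
  show ((V.v (a + b) : ℝ≥0) : ℝ) ≤ max ((V.v a : ℝ≥0) : ℝ) ((V.v b : ℝ≥0) : ℝ)
  exact_mod_cast h

/-- Gauss norm -/
def gn : Valuation ℂ[X] ℝ≥0 where
  toFun G := ⟨G.gaussNorm V.av 1, G.gaussNorm_nonneg V.av zero_le_one⟩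
  map_zero' := Subtype.ext (by simp)
  map_one' := Subtype.ext (by
    have := Polynomial.gaussNorm_C V.av 1 (1 : ℂ)
    simpa using this)
  map_mul' G H := Subtype.ext (Polynomial.gaussNorm_mul V.av_na one_pos G H)
  map_add_le_max' G H := by
    have := Polynomial.isNonarchimedean_gaussNorm V.av V.av_na (c := 1) zero_le_one G H
    exact_mod_cast this

/-- local height -/
def M {W : WeierstrassCurve ℂ} (P : Pt W) : ℝ≥0 := max 1 (V.v (px P))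

def Good (W : WeierstrassCurve ℂ) : Prop :=
  V.v W.a₁ ≤ 1 ∧ V.v W.a₂ ≤ 1 ∧ V.v W.a₃ ≤ 1 ∧ V.v W.a₄ ≤ 1 ∧ V.v W.a₆ ≤ 1 ∧ V.v W.Δ = 1

def redW (W : WeierstrassCurve ℂ) : WeierstrassCurve V.k :=
  ⟨V.red W.a₁, V.red W.a₂, V.red W.a₃, V.red W.a₄, V.red W.a₆⟩

def Close (r : ℝ≥0) (W W' : WeierstrassCurve ℂ) : Prop :=
  V.v (W.a₁ - W'.a₁) ≤ r ∧ V.v (W.a₂ - W'.a₂) ≤ r ∧ V.v (W.a₃ - W'.a₃) ≤ r ∧
    V.v (W.a₄ - W'.a₄) ≤ r ∧ V.v (W.a₆ - W'.a₆) ≤ r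

def RedTo {W : WeierstrassCurve ℂ} {Wb : WeierstrassCurve V.k} (P : Pt W) (Q : Pt Wb) : Prop :=
  (P = 0 ↔ Q = 0) ∧ V.v (px P) ≤ 1 ∧ V.v (py P) ≤ 1 ∧ px Q = V.red (px P) ∧ py Q = V.red (py P)

def Nice (j : ℂ) : Prop := (j = 0 ∨ V.v j = 1) ∧ (j = 1728 ∨ V.v (j - 1728) = 1)

end Place

/-- a uniformised complex curve with good reduction `Wb` -/
structure Lift {p : ℕ} (V : Place p) (Wb : WeierstrassCurve V.k) where
  W : WeierstrassCurve ℂ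
  L : PeriodPair
  π : ℂ →+ Pt W
  ρ : ptor p W ≃+ ptor p Wb
  good : V.Good W
  unif : Unif W L π
  red : V.redW W = Wb
  rho : ∀ P : ptor p W, V.RedTo P.1 (ρ P).1

/-- reduction of the isogeny `z ↦ c z` -/
def kap {p : ℕ} {V : Place p} {Wb : WeierstrassCurve V.k} (E E' : Lift V Wb) (c : ℂ) :
    AddMonoid.End (ptor p Wb) :=
  (E'.ρ.toAddMonoidHom.comp (res p (mulPt E.π E'.π c))).comp E.ρ.symm.toAddMonoidHom

/-- the model with `j = 0` and good reduction at `p` -/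
def W0 (p : ℕ) : WeierstrassCurve ℂ :=
  if p = 3 then ⟨0, (Real.sqrt 3 : ℝ), 0, 1, 0⟩ else ⟨0, 0, 1, 0, 0⟩

/-- multiplicative positive definite quadratic forms -/
structure QF {R : Type} [Ring R] (q : R → ℤ) : Prop where
  mul : ∀ x y, q (x * y) = q x * q y
  par : ∀ x y, q (x + y) + q (x - y) = 2 * q x + 2 * q y
  one : q 1 = 1
  nonneg : ∀ x, 0 ≤ q x
  eq_zero : ∀ x, q x = 0 → x = 0

def bil {R : Type} [Ring R] (q : R → ℤ) (x y : R) : ℤ := q (x + y) - q x - q y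

structure QFacts {R : Type} [Ring R] (q : R → ℤ) : Prop where
  sq : ∀ x, x * x = (bil q x 1 : R) * x - (q x : R)
  dom : ∀ x y : R, x * y = 0 → x = 0 ∨ y = 0
  int : ∀ n : ℤ, q (n : R) = n ^ 2
  tors : ∀ (n : ℤ) (x : R), n ≠ 0 → (n : R) * x = 0 → x = 0
  coef : ∀ (x : R) (t n : ℤ), x * x = t * x - n → 0 < 4 * n - t ^ 2 → q x = n ∧ bil q x 1 = t
  cent : ∀ (α φ : R) (t n : ℤ), α * α = t * α - n → 0 < 4 * n - t ^ 2 → φ * α = α * φ →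
    ∃ m u v : ℤ, 0 < m ∧ (m : R) * φ = u + v * α
  comm_sq : ∀ α ω : R, ω * ω + ω + 1 = 0 →
    (α * ω - ω * α) * (α * ω - ω * α) = -(q (α * ω - ω * α) : R)
  anti : ∀ α ω : R, ω * ω + ω + 1 = 0 → α * ω = -(ω * α) → α * ω = ω * α
  xm : ∀ (α ω : R) (t n : ℤ), ω * ω + ω + 1 = 0 → α * α = t * α - n → 0 < 4 * n - t ^ 2 →
    16 * q (α * ω - ω * α) = 12 * (4 * n - t ^ 2) - bil q (2 * α - t) (2 * ω + 1) ^ 2
  count : ∀ (ω : R) (t n x m : ℤ) (T : Finset R), ω * ω + ω + 1 = 0 → 0 < 4 * n - t ^ 2 →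
    (∀ α ∈ T, α * α = t * α - n ∧ α * ω ≠ ω * α ∧ bil q (2 * α - t) (2 * ω + 1) = x ∧
      q (α * ω - ω * α) = m) → T.card ≤ reps (144 * m ^ 2)
  cube : ∀ (ω γ : R) (p t n : ℤ), ω * ω + ω + 1 = 0 → γ * ω = ω * γ → p ≠ 0 →
    γ * γ = p * t * γ - (p : R) ^ 2 * n → 0 < 4 * n - t ^ 2 → ∃ u v : ℤ, γ = p * (u + v * ω)

/-! ### the statements -/

def S_AddSub : Prop :=
  ∀ (F : Type) [Field F] [DecidableEq F] (W : WeierstrassCurve F), W.Δ ≠ 0 → ∀ P Q : Pt W,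
    (∃ l : F, l ≠ 0 ∧ S0 (hx P) (hz P) (hx Q) (hz Q) = l * (hz (P + Q) * hz (P - Q)) ∧
      S1 W.b₂ W.b₄ W.b₆ (hx P) (hz P) (hx Q) (hz Q) =
        l * (hx (P + Q) * hz (P - Q) + hx (P - Q) * hz (P + Q)) ∧
      S2 W.b₄ W.b₆ W.b₈ (hx P) (hz P) (hx Q) (hz Q) = l * (hx (P + Q) * hx (P - Q))) ∧
    (P ≠ 0 → Q ≠ 0 → P + Q ≠ 0 → P - Q ≠ 0 → 2 * px (P - Q) * (px P - px Q) ^ 2 =
      S1 W.b₂ W.b₄ W.b₆ (px P) 1 (px Q) 1 + pY P * pY Q)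

def S_Unif : Prop :=
  ∀ (W : WeierstrassCurve ℂ) (L : PeriodPair), W.Δ ≠ 0 → 12 * L.g₂ = W.c₄ → 216 * L.g₃ = W.c₆ →
    ∃ π : ℂ →+ Pt W, Unif W L π

def S_Velu : Prop :=
  ∀ (W W' : WeierstrassCurve ℂ) (L L' : PeriodPair) (π : ℂ →+ Pt W) (π' : ℂ →+ Pt W') (c : ℂ),
    Unif W L π → Unif W' L' π' → c ≠ 0 → Hom L L' c →
    ∃ T A B, Isog W W' c (mulPt π π' c) T A B

def S_Conv : Prop :=
  ∀ (W W' : WeierstrassCurve ℂ) (L L' : PeriodPair) (c : ℂ) (A B : ℂ[X]),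
    12 * L.g₂ = W.c₄ → 216 * L.g₃ = W.c₆ → 12 * L'.g₂ = W'.c₄ → 216 * L'.g₃ = W'.c₆ →
    c ≠ 0 → A.Monic → B.natDegree + 1 = A.natDegree → B.leadingCoeff = c ^ 2 →
    Wr A B ^ 2 * F3 W X 1 = C (c ^ 2) * F3 W' A B * B → Hom L L' c

def S_Disc : Prop := ∀ L : PeriodPair, L.g₂ ^ 3 - 27 * L.g₃ ^ 2 ≠ 0

def S_Homoth : Prop := ∀ L L' : PeriodPair, jL L = jL L' → ∃ c, Iso L L' c

def S_Omega : Prop := ∀ L : PeriodPair, L.g₂ = 0 ↔ Hom L L om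

def S_Surj : Prop :=
  ∀ a b : ℂ, a ^ 3 ≠ b ^ 2 → ∃ L : PeriodPair, 12 * L.g₂ = a ∧ 216 * L.g₃ = b

def S_UnifEx : Prop :=
  ∀ W : WeierstrassCurve ℂ, W.Δ ≠ 0 → ∃ (L : PeriodPair) (π : ℂ →+ Pt W), Unif W L π

def S_Jlow : Prop :=
  ∃ (K : ℝ) (k : ℕ), 0 < K ∧ ∀ τ : ℂ, 0 < τ.im → |τ.re| ≤ 1 / 2 → 1 ≤ ‖τ‖ →
    Real.exp (2 * Real.pi * τ.im) * (min 1 (min ‖τ - om‖ ‖τ - om - 1‖)) ^ k ≤ K * ‖J τ‖

def S_Ring2 : Prop :=
  ∀ (F : Type) [Field F] [DecidableEq F] [IsAlgClosed F] (W : WeierstrassCurve F)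
    (Γ : Type) [AddCommGroup Γ] [Infinite Γ] (ι : Γ →+ Pt W), W.Δ ≠ 0 → Function.Injective ι →
    ∀ φ ψ : AddMonoid.End Γ, Alg ι φ → Alg ι ψ →
      (∃ A B, PRep ι (φ + ψ) A B) ∧ RatY ι (φ + ψ) ∧ RatY ι (φ * ψ) ∧ RatY ι (-φ)

def S_Ring : Prop :=
  ∀ (F : Type) [Field F] [DecidableEq F] [IsAlgClosed F] (W : WeierstrassCurve F)
    (Γ : Type) [AddCommGroup Γ] [Infinite Γ] (ι : Γ →+ Pt W), W.Δ ≠ 0 → Function.Injective ι →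
    RingFacts ι

def S_Quat : Prop := ∀ (R : Type) [Ring R] (q : R → ℤ), QF q → QFacts q

def S_Place : Prop := ∀ p : ℕ, p.Prime → Nonempty (Place p)

def S_Aut : Prop :=
  (∀ x y : ℂ, IsAlgebraic ℚ x → aeval y (minpoly ℚ x) = 0 → ∃ σ : ℂ ≃+* ℂ, σ x = y) ∧
  (∀ x : ℂ, (Set.range fun σ : ℂ ≃+* ℂ => σ x).Finite → IsAlgebraic ℚ x) ∧
  (∀ x : ℂ, (∀ σ : ℂ ≃+* ℂ, σ x = x) → ∃ q : ℚ, x = q)

def S_LH : Prop :=
  ∀ (p : ℕ) (V : Place p) (W : WeierstrassCurve ℂ), V.Good W →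
    (∀ P Q : Pt W, P ≠ 0 → Q ≠ 0 → P + Q ≠ 0 → P - Q ≠ 0 →
      V.v (px P - px Q) ^ 2 * V.M (P + Q) * V.M (P - Q) = V.M P ^ 2 * V.M Q ^ 2) ∧
    (∀ P : Pt W, P + P ≠ 0 → V.v (pY P) ^ 2 * V.M (P + P) = V.M P ^ 4) ∧
    (∀ P Q : Pt W, P ≠ 0 → Q ≠ 0 → P + Q ≠ 0 → min (V.M P) (V.M Q) ≤ V.M (P + Q)) ∧
    (∀ P : Pt W, V.v (px P) ≤ 1 → V.v (py P) ≤ 1)

def S_Div : Prop :=
  ∀ (p : ℕ) (V : Place p) (r : ℝ≥0) (W W' : WeierstrassCurve ℂ) (L L' : PeriodPair)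
    (π : ℂ →+ Pt W) (π' : ℂ →+ Pt W') (m : ℕ) (T : Finset (Pt W)) (T' : Finset (Pt W'))
    (A B A' B' : ℂ[X]), V.Good W → V.Good W' → V.Close r W W' → Unif W L π → Unif W' L' π' →
    Isog W W m (mulPt π π m) T A B → Isog W' W' m (mulPt π' π' m) T' A' B' →
    V.gn A ≤ 1 ∧ V.gn B ≤ 1 ∧ V.gn (A - A') ≤ r ∧ V.gn (B - B') ≤ r ∧ T.card = m ^ 2

def S_Tor : Prop :=
  ∀ (p : ℕ) (V : Place p) (W : WeierstrassCurve ℂ) (L : PeriodPair) (π : ℂ →+ Pt W), p.Prime →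
    V.Good W → Unif W L π → ∀ P ∈ ptor p W, V.v (px P) ≤ 1

def S_Rho : Prop :=
  ∀ (p : ℕ) (V : Place p) (W : WeierstrassCurve ℂ) (L : PeriodPair) (π : ℂ →+ Pt W)
    (Wb : WeierstrassCurve V.k), p.Prime → V.Good W → Unif W L π → V.redW W = Wb →
    ∃ ρ : ptor p W ≃+ ptor p Wb, ∀ P : ptor p W, V.RedTo P.1 (ρ P).1

def S_Int : Prop :=
  ∀ (p : ℕ) (V : Place p) (W W' : WeierstrassCurve ℂ) (L L' : PeriodPair)
    (π : ℂ →+ Pt W) (π' : ℂ →+ Pt W') (c : ℂ) (φ : Pt W →+ Pt W') (T : Finset (Pt W))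
    (A B : ℂ[X]), p.Prime → V.Good W → V.Good W' → Unif W L π → Unif W' L' π' →
    Isog W W' c φ T A B →
    V.gn A ≤ 1 ∧ V.gn B = 1 ∧ IsCoprime (V.redP A) (V.redP B) ∧
      (∀ P, φ P ≠ 0 → V.M (φ P) = ∏ Q ∈ T, V.M (P + Q)) ∧
      V.v c ^ 2 * ∏ Q ∈ T.erase 0, V.M Q = 1

def S_Red : Prop :=
  ∀ (p : ℕ) (V : Place p) (Wb : WeierstrassCurve V.k) (E E' : Lift V Wb) (c : ℂ)
    (T : Finset (Pt E.W)) (A B : ℂ[X]), p.Prime →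
    Isog E.W E'.W c (mulPt E.π E'.π c) T A B →
    Rep (ptor p Wb).subtype (kap E E' c) (V.redP A) (V.redP B) ∧
      RatY (ptor p Wb).subtype (kap E E' c)

def S_Near : Prop :=
  ∀ (p : ℕ) (V : Place p) (Wb : WeierstrassCurve V.k) (E E0 : Lift V Wb) (s : ℝ≥0), p.Prime →
    s < 1 → V.Close (s ^ 2) E.W E0.W → ∀ (P : ptor p E.W) (P0 : ptor p E0.W), E.ρ P = E0.ρ P0 →
    V.v (px P.1 - px P0.1) ≤ s ∧ V.v (pY P.1 - pY P0.1) ≤ s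

def S_Model : Prop :=
  ∀ (p : ℕ) (V : Place p), p.Prime → V.Good (W0 p) ∧ (W0 p).c₄ = 0 ∧
    ∀ y : ℂ, V.v y < 1 → ∃ (W : WeierstrassCurve ℂ) (r : ℝ≥0),
      V.Good W ∧ jW W = y ∧ V.Close r W (W0 p) ∧ r ^ 12 ≤ V.v y

def S_Deep : Prop :=
  ∀ (p : ℕ) (V : Place p) (Wb : WeierstrassCurve V.k) (E E0 : Lift V Wb) (r : ℝ≥0) (α : ℂ),
    p.Prime → V.Close r E.W E0.W → 4 * r < 1 → V.v α = 1 → Hom E.L E.L α → Hom E0.L E0.L om →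
    kap E E α * kap E0 E0 om ≠ kap E0 E0 om * kap E E α →
    kap E E α * kap E0 E0 om ≠ -(kap E0 E0 om * kap E E α) →
    V.v (ed (ptor p Wb).subtype (kap E E α * kap E0 E0 om - kap E0 E0 om * kap E E α) : ℕ) ≤ 4 * r

def S_CondA : Prop :=
  ∀ (p : ℕ) (V : Place p) (W : WeierstrassCurve ℂ) (L : PeriodPair) (π : ℂ →+ Pt W) (r : ℝ≥0)
    (γ : ℂ) (t n : ℤ), p.Prime → p % 3 ≠ 1 → V.Good W → Unif W L π → V.Close r W (W0 p) →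
    Hom L L γ → ¬ Hom L L (γ / p) → γ ^ 2 = p * t * γ - (p : ℂ) ^ 2 * n → 1 ≤ 2 * r

def S_CondB : Prop :=
  ∀ (p : ℕ) (V : Place p) (Wb : WeierstrassCurve V.k) (E E0 : Lift V Wb) (r : ℝ≥0)
    (γ : ℂ) (t n : ℤ), p.Prime → p % 3 = 1 → V.Close r E.W E0.W → Hom E0.L E0.L om →
    Hom E.L E.L γ → ¬ Hom E.L E.L (γ / p) → γ ^ 2 = p * t * γ - (p : ℂ) ^ 2 * n →
    0 < 4 * n - t ^ 2 → 1 ≤ 16 * r

def S_Cent : Prop :=
  ∀ (p : ℕ) (V : Place p) (Wb : WeierstrassCurve V.k) (E : Lift V Wb) (α : ℂ) (t n : ℤ)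
    (ψ : AddMonoid.End (ptor p Wb)), p.Prime → PMax p E.L → Hom E.L E.L α →
    α ^ 2 = t * α - n → 0 < 4 * n - t ^ 2 → Alg (ptor p Wb).subtype ψ →
    ψ * kap E E α = kap E E α * ψ → ∃ β, Hom E.L E.L β ∧ ψ = kap E E β

def S_Inj : Prop :=
  ∀ (p : ℕ) (V : Place p) (Wb : WeierstrassCurve V.k) (E E' : Lift V Wb) (D : ℕ) (α : ℂ)
    (t n : ℤ), p.Prime → Disc D → IsCM D E.L → IsCM D E'.L → PMax p E.L → Hom E.L E.L α →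
    α ^ 2 = t * α - n → 0 < 4 * n - t ^ 2 → kap E E α = kap E' E' α → jL E.L = jL E'.L

def S_Core : Prop :=
  ∀ (p : ℕ) (V : Place p) (D : ℕ), p.Prime → Disc D → ∃ D' : ℤ, 0 < D' ∧ D' ≤ 4 * D ∧
    ∀ h : ℕ, 1 ≤ h → ∀ T : Finset ℂ,
      (∀ y ∈ T, y ∈ VV D ∧ y ≠ 0 ∧ V.v y * (16 * (p : ℝ≥0) ^ (h - 1)) ^ 12 < 1) →
      T.card ≤ cnt p h D'

def S_Reps : Prop :=
  ∀ ε : ℝ, 0 < ε → ∃ K : ℝ, 0 < K ∧ ∀ g : ℤ, 0 < g → (reps g : ℝ) ≤ K * (g : ℝ) ^ ε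

def S_Padic : Prop :=
  ∀ ε : ℝ, 0 < ε → ∃ D0 : ℕ, ∀ D : ℕ, D0 ≤ D → Disc D → ∀ (p : ℕ) (V : Place p), p.Prime →
    ∀ T : Finset ℂ, (∀ y ∈ T, y ∈ VV D ∧ y ≠ 0) →
      ∑ y ∈ T, -Real.log (V.v y) ≤ ε * (Real.sqrt D + T.card * Real.log D)

def S_Stab : Prop :=
  ∀ (D : ℕ) (σ : ℂ ≃+* ℂ) (y : ℂ), Disc D →
    (y ∈ VV D → σ y ∈ VV D) ∧ (y ∈ VV' D → σ y ∈ VV' D)

def S_Kron : Prop :=
  ∀ (l : ℕ) (V : Place l) (L L' : PeriodPair) (c : ℂ), l.Prime → 5 ≤ l → c ≠ 0 →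
    Hom L L' c → Hom L' L (l / c) → ¬ Hom L' L c⁻¹ → ¬ Hom L L' (c / l) →
    V.Nice (jL L) → V.Nice (jL L') →
    V.v (jL L' - jL L ^ l) < 1 ∨ V.v (jL L - jL L' ^ l) < 1

def S_Trans : Prop :=
  ∀ (D : ℕ) (y y' : ℂ), Disc D → y ∈ VV D → y' ∈ VV D → ∃ σ : ℂ ≃+* ℂ, σ y = y'

def S_Prim : Prop :=
  ∀ (D : ℕ) (a β : ℤ), Disc D →
    (Form D a β → ∀ L, IsLat L a (β + th D) → Hom L L (th D) ∧ jL L = J (tau D a β)) ∧
    (Prim D a β → (∀ L, IsLat L a (β + th D) → IsCM D L) ∧ J (tau D a β) ∈ VV D)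

def S_CM : Prop :=
  ∀ (τ : ℂ) (a b c : ℤ), 0 < τ.im → a ≠ 0 → (a : ℂ) * τ ^ 2 + (b : ℂ) * τ + (c : ℂ) = 0 →
    ∃ D, Disc D ∧ J τ ∈ VV D

def S_Redu : Prop :=
  ∀ (D : ℕ) (L : PeriodPair), Disc D → Hom L L (th D) →
    ∃ a β : ℤ, Form D a β ∧ Reduced D a β ∧ jL L = J (tau D a β) ∧ (IsCM D L → Prim D a β)

def S_Fin : Prop := ∀ D : ℕ, Disc D → (VV' D).Finite

def S_Norm : Prop :=
  ∀ (D : ℕ) (L : PeriodPair) (N : ℤ), Disc D → IsCM D L → N ≠ 0 →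
    ∃ (a β : ℤ) (c : ℂ) (L0 : PeriodPair),
      Form D a β ∧ IsCoprime a N ∧ IsLat L0 a (β + th D) ∧ Iso L L0 c

def S_Jinj : Prop :=
  ∀ τ τ' : ℂ, 1 < τ.im → 1 < τ'.im → -(1 / 2) < τ.re → τ.re ≤ 1 / 2 → -(1 / 2) < τ'.re →
    τ'.re ≤ 1 / 2 → J τ = J τ' → τ = τ'

def S_HT : Prop :=
  ∃ K : ℝ, 0 < K ∧ ∀ D : ℕ, Disc D → 5 ≤ D →
    (∑ a ∈ (Finset.Icc 1 D).filter (fun a => 3 * a ^ 2 ≤ D), (rr D a : ℝ)) * Real.log D ≤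
      K * Real.sqrt D * ∑ a ∈ (Finset.Icc 1 D).filter (fun a => 4 * a ^ 2 < D), (rr D a : ℝ) / a

def S_NearRho : Prop :=
  (∃ c : ℝ, 0 < c ∧ ∀ (D : ℕ) (a β : ℤ), Disc D → Form D a β → Reduced D a β →
    tau D a β ≠ om → tau D a β ≠ om + 1 →
    c / Real.sqrt D ≤ min ‖tau D a β - om‖ ‖tau D a β - om - 1‖) ∧
  ∀ ε : ℝ, 0 < ε → ∃ δ K : ℝ, 0 < δ ∧ 0 < K ∧ ∀ D : ℕ, Disc D → ∀ T : Finset (ℤ × ℤ),
    (∀ w ∈ T, Form D w.1 w.2 ∧ Reduced D w.1 w.2 ∧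
      min ‖tau D w.1 w.2 - om‖ ‖tau D w.1 w.2 - om - 1‖ ≤ (D : ℝ) ^ (-ε)) →
    (T.card : ℝ) ≤ K * (D : ℝ) ^ (1 / 2 - δ)

def S_Arch : Prop :=
  ∃ (c : ℝ) (D0 : ℕ), 0 < c ∧ ∀ D : ℕ, D0 ≤ D → Disc D → ∀ T : Finset ℂ,
    (∀ y, y ∈ T ↔ y ∈ VV D ∧ y ≠ 0) →
    c * (Real.sqrt D + T.card * Real.log D) ≤ ∑ y ∈ T, Real.log ‖y‖

end

end Pool.Agent.P.MP_94fe55_nt
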