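import Pool.Agent.P.MP_94fe55_nt.Kap

set_option autoImplicit false

namespace Pool.Agent.P.MP_94fe55_nt

open Polynomial WeierstrassCurve
open scoped NNReal

namespace IntP

variable {p : ℕ} {V : Place p} {W : WeierstrassCurve ℂ} {L : PeriodPair} {π : ℂ →+ Pt W}

theorem e1 (hL : S_LH) (g : V.Good W) {R : Pt W} (hR : 1 < V.M R) (k : ℕ) (hk : k • R ≠ 0) :
    1 < V.M (k • R) := by
  have h0 : R ≠ 0 := by
    rintro rfl
    simp at hR
  induction k with
  | zero => simp at hk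
  | succ k ih =>
    rw [succ_nsmul] at hk ⊢
    by_cases h : k • R = 0
    · rwa [h, zero_add]
    · exact (lt_min (ih h) hR).trans_le ((hL p V W g).2.2.1 _ _ h h0 hk)

/-- a multiple of the point is a nonzero torsion point of order prime to `p` -/
def Gd (p N : ℕ) {W : WeierstrassCurve ℂ} (R : Pt W) : Prop := N • R ≠ 0 ∧ N • R ∈ ptor p W

theorem Gd.ne {N : ℕ} {R : Pt W} (h : Gd p N R) : R ≠ 0 := by
  rintro rfl
  exact h.1 (by simp)

theorem Gd.le (hL : S_LH) (hT : S_Tor) (hp : p.Prime) (g : V.Good W) (u : Unif W L π) {N : ℕ}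
    {R : Pt W} (h : Gd p N R) : V.v (px R) ≤ 1 := by
  by_contra hc
  have h1 := e1 hL g (R := R) (lt_max_of_lt_right (not_le.1 hc)) N h.1
  rw [Place.M_eq_one.2 (hT p V W L π hp g u _ h.2)] at h1
  exact lt_irrefl _ h1

theorem unit_diff (hL : S_LH) (hT : S_Tor) (hp : p.Prime) (g : V.Good W) (u : Unif W L π) {N : ℕ}
    {P Q : Pt W} (h1 : Gd p N P) (h2 : Gd p N Q) (h3 : Gd p N (P + Q)) (h4 : Gd p N (P - Q)) :
    V.v (px P - px Q) = 1 := by
  have := (hL p V W g).1 P Q h1.ne h2.ne h3.ne h4.ne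
  rw [Place.M_eq_one.2 (h1.le hL hT hp g u), Place.M_eq_one.2 (h2.le hL hT hp g u),
    Place.M_eq_one.2 (h3.le hL hT hp g u), Place.M_eq_one.2 (h4.le hL hT hp g u)] at this
  simp only [mul_one, one_pow] at this
  exact (pow_eq_one_iff_of_nonneg zero_le two_ne_zero).1 this

theorem exists_pt (hp : p.Prime) (u : Unif W L π) (n : ℕ) :
    ∃ P ∈ ptor p W, ∀ k : ℕ, 0 < k → k ≤ n → k • P ≠ 0 := by
  refine ⟨π (L.ω₁ / ((n * p + 1 : ℕ) : ℂ)), ⟨n * p + 1, by simp, ?_⟩, fun k h0 hk e => ?_⟩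
  · have := (u.order (l := n * p + 1) (by omega) ((n * p + 1 : ℕ) : ℤ)).2 dvd_rfl
    rwa [natCast_zsmul] at this
  · have h1 := (u.order (l := n * p + 1) (by omega) (k : ℤ)).1 (by rwa [natCast_zsmul])
    have h2 := Nat.le_of_dvd h0 (Int.natCast_dvd_natCast.1 h1)
    have h3 : n * 1 ≤ n * p := Nat.mul_le_mul_left n hp.pos
    omega

theorem gn_sub_eq {A B : ℂ[X]} (hA : V.gn A ≤ 1) (hB : V.gn B = 1) {x : ℂ}
    (hm : (A - C x * B).Monic) : V.gn (A - C x * B) = max 1 (V.v x) := by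
  have h1 : V.gn (C x * B) = V.v x := by rw [map_mul, hB, Place.gn_C, mul_one]
  rcases le_or_gt (V.v x) 1 with h | h
  · rw [max_eq_left h]
    exact le_antisymm (Place.gn_sub hA (h1.trans_le h)) (Place.one_le_gn hm)
  · rw [max_eq_right h.le, V.gn.map_sub_eq_of_lt_right (by rw [h1]; exact hA.trans_lt h), h1]

end IntP

open IntP Place

theorem int (hL : S_LH) (hT : S_Tor) : S_Int := by
  intro p V W W' L L' π π' c φ T A B hp g g' u u' h
  set N := T.card with hN
  have hN0 : 0 < N := h.card_pos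
  obtain ⟨P, hP, hk⟩ := IntP.exists_pt hp u (3 * N)
  have hgd : ∀ (j : ℕ) (R : Pt W), 0 < j → j ≤ 3 → (N • R = N • j • P ∨ N • R = -(N • j • P)) →
      Gd p N R := fun j R h0 h3 e => by
    have h1 : N • j • P ≠ 0 := by
      rw [← mul_smul]
      exact hk _ (Nat.mul_pos hN0 h0) (by nlinarith)
    have h2 : N • j • P ∈ ptor p W := nsmul_mem (nsmul_mem hP j) N
    rcases e with e | e
    · exact ⟨by rwa [e], by rwa [e]⟩
    · exact ⟨by rwa [e, neg_ne_zero], by rw [e]; exact neg_mem h2⟩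
  have hφ : ∀ R, Gd p N R → φ R ≠ 0 := fun R hR e => hR.1 (h.card_smul ((h.ker R).2 e))
  have hφ' : ∀ R, Gd p N R → R ∈ ptor p W → Gd p 1 (φ R) := fun R hR hm =>
    ⟨by simpa using hφ R hR, by simpa using (res p φ ⟨R, hm⟩).2⟩
  have k1 : ∀ Q ∈ T, Gd p N (P + Q) := fun Q hQ =>
    hgd 1 _ one_pos (by norm_num) (Or.inl (by rw [smul_add, h.card_smul hQ]; simp))
  have k2 : ∀ Q ∈ T, Gd p N (2 • P + Q) := fun Q hQ =>
    hgd 2 _ two_pos (by norm_num) (Or.inl (by rw [smul_add, h.card_smul hQ]; simp))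
  have k3 : ∀ Q ∈ T, ∀ Q' ∈ T, V.v (px (P + Q) - px (2 • P + Q')) = 1 := fun Q hQ Q' hQ' => by
    refine unit_diff hL hT hp g u (k1 Q hQ) (k2 Q' hQ') (hgd 3 _ (by norm_num) le_rfl (Or.inl ?_))
      (hgd 1 _ one_pos (by norm_num) (Or.inr ?_))
    · have : P + Q + (2 • P + Q') = 3 • P + Q + Q' := by abel
      rw [this, smul_add, smul_add, h.card_smul hQ, h.card_smul hQ', add_zero, add_zero]
    · have : P + Q - (2 • P + Q') = -(1 • P) + Q - Q' := by abel
      rw [this, smul_sub, smul_add, h.card_smul hQ, h.card_smul hQ', add_zero, sub_zero, smul_neg]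
  have g1 : Gd p N P := by simpa using k1 0 h.zero_mem
  have g2 : Gd p N (2 • P) := by simpa using k2 0 h.zero_mem
  have hP2 : 2 • P ∈ ptor p W := nsmul_mem hP 2
  have k4 : V.v (px (φ P) - px (φ (2 • P))) = 1 := by
    refine unit_diff hL hT hp g' u' (hφ' _ g1 hP) (hφ' _ g2 hP2) ?_ ?_
    · rw [← map_add]
      exact hφ' _ (hgd 3 _ (by norm_num) le_rfl (Or.inl (congrArg _ (by abel)))) (add_mem hP hP2)
    · rw [← map_sub]
      exact hφ' _ (hgd 1 _ one_pos (by norm_num) (Or.inr (by rw [← smul_neg]; congr 1; abel)))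
        (sub_mem hP hP2)
  have x1 := (hφ' _ g1 hP).le hL hT hp g' u'
  have x2 := (hφ' _ g2 hP2).le hL hT hp g' u'
  have hgn : ∀ R, φ R ≠ 0 → V.gn (A - C (px (φ R)) * B) = ∏ Q ∈ T, V.M (R + Q) := fun R hR => by
    rw [h.prod R hR, map_prod]
    exact Finset.prod_congr rfl fun Q _ => gn_X_sub_px _
  have n1 : V.gn (A - C (px (φ P)) * B) = 1 := by
    rw [hgn _ (hφ _ g1)]
    exact Finset.prod_eq_one fun Q hQ => M_eq_one.2 ((k1 Q hQ).le hL hT hp g u)
  have n2 : V.gn (A - C (px (φ (2 • P))) * B) = 1 := by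
    rw [hgn _ (hφ _ g2)]
    exact Finset.prod_eq_one fun Q hQ => M_eq_one.2 ((k2 Q hQ).le hL hT hp g u)
  have hB : V.gn B ≤ 1 := by
    have h1 := gn_sub n2.le n1.le
    have h2 : A - C (px (φ (2 • P))) * B - (A - C (px (φ P)) * B) =
        C (px (φ P) - px (φ (2 • P))) * B := by rw [map_sub]; ring
    rwa [h2, map_mul, gn_C, k4, one_mul] at h1
  have hA : V.gn A ≤ 1 := by
    have h1 := gn_add n1.le (gn_mul (G := C (px (φ P))) (by simpa using x1) hB)
    rwa [sub_add_cancel] at h1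
  have hroot : ∀ (R : Pt W) (t : V.k), φ R ≠ 0 → V.v (px (φ R)) ≤ 1 →
      (∀ Q ∈ T, V.v (px (R + Q)) ≤ 1) → (V.redP A).eval t = 0 → (V.redP B).eval t = 0 →
      ∃ Q ∈ T, t = V.red (px (R + Q)) := fun R t hR hx hQ e1 e2 => by
    have h1 := congrArg (fun G => (V.redP G).eval t) (h.prod R hR)
    have hc : V.gn (C (px (φ R))) ≤ 1 := by simpa using hx
    rw [redP_sub hA (gn_mul hc hB), redP_mul hc hB, eval_sub, eval_mul, e1, e2, mul_zero, sub_zero,
      redP_prod _ (fun Q hq => (gn_X_sub_px _).trans_le (M_eq_one.2 (hQ Q hq)).le), eval_prod,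
      eq_comm, Finset.prod_eq_zero_iff] at h1
    obtain ⟨Q, hq, e⟩ := h1
    rw [redP_X_sub_C (hQ Q hq)] at e
    exact ⟨Q, hq, by simpa [sub_eq_zero] using e⟩
  have hcop : IsCoprime (V.redP A) (V.redP B) := by
    rw [Polynomial.isCoprime_iff_aeval_ne_zero_of_isAlgClosed V.k V.k]
    intro t
    by_contra hc
    push Not at hc
    simp only [coe_aeval_eq_eval] at hc
    obtain ⟨Q, hQ, e1⟩ := hroot P t (hφ _ g1) x1 (fun Q hQ => (k1 Q hQ).le hL hT hp g u) hc.1 hc.2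
    obtain ⟨Q', hQ', e2⟩ := hroot (2 • P) t (hφ _ g2) x2
      (fun Q hQ => (k2 Q hQ).le hL hT hp g u) hc.1 hc.2
    have h1 := (red_eq_iff ((k1 Q hQ).le hL hT hp g u) ((k2 Q' hQ').le hL hT hp g u)).1
      (e1.symm.trans e2)
    rw [k3 Q hQ Q' hQ'] at h1
    exact lt_irrefl _ h1
  have hB1 : V.gn B = 1 := by
    refine (redP_ne_zero hB).1 fun e => ?_
    rw [e, isCoprime_zero_right] at hcop
    have h1 := natDegree_eq_zero_of_isUnit hcop
    rw [natDegree_redP_monic h.monic, h.deg] at h1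
    omega
  refine ⟨hA, hB1, hcop, fun R hR => ?_, ?_⟩
  · rw [← hgn R hR, gn_sub_eq hA hB1]
    · rfl
    · rw [h.prod R hR]
      exact monic_prod_of_monic _ _ fun _ _ => monic_X_sub_C _
  · rw [← hB1]
    conv_rhs => rw [h.B_eq, map_mul, gn_C, map_pow, map_prod]
    congr 1
    exact Finset.prod_congr rfl fun Q _ => (gn_X_sub_px _).symm

theorem red (hL : S_LH) (_hT : S_Tor) (hI : S_Int) : S_Red := by
  intro p V Wb E E' c T A B hp h
  obtain ⟨hA, hB, hcop, -, -⟩ := hI p V _ _ _ _ _ _ c _ T A B hp E.good E'.good E.unif E'.unif h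
  set φ := mulPt E.π E'.π c with hφ
  have hfin : {P : ptor p E.W | φ P.1 = 0}.Finite :=
    (T.finite_toSet.preimage Subtype.val_injective.injOn).subset fun P hP => (h.ker _).2 hP
  have hx' : ∀ P : ptor p E.W, V.v (px (φ P.1)) ≤ 1 := fun P => E'.px_le (res p φ P)
  have hy' : ∀ P : ptor p E.W, V.v (py (φ P.1)) ≤ 1 := fun P => E'.py_le (res p φ P)
  have hY' : ∀ P : ptor p E.W, V.v (pY (φ P.1)) ≤ 1 := fun P => E'.pY_le (res p φ P)
  have hBx : ∀ P : ptor p E.W, V.v (B.eval (px P.1)) ≤ 1 := fun P =>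
    (v_eval_le B (E.px_le P)).trans hB.le
  constructor
  · refine ⟨monic_redP h.monic, ?_, hcop, (hfin.image E.ρ).subset fun Q hQ => ?_⟩
    · refine (degree_redP_le B).trans_lt ?_
      rw [degree_eq_natDegree (monic_redP h.monic).ne_zero, natDegree_redP_monic h.monic,
        ← degree_eq_natDegree h.monic.ne_zero]
      exact degree_lt_degree (by have := h.natDegree_B; omega)
    · obtain ⟨P, rfl⟩ := E.ρ.surjective Q
      refine ⟨P, ?_, rfl⟩
      by_contra h0
      apply hQ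
      have h1 : (E'.ρ (res p φ P)).1 ≠ 0 := fun e => h0 ((E'.rho (res p φ P)).1.2 e)
      show hx (kap E E' c (E.ρ P)).1 * (V.redP B).eval (px (E.ρ P).1) =
        hz (kap E E' c (E.ρ P)).1 * (V.redP A).eval (px (E.ρ P).1)
      rw [kap_apply, hx_of_ne h1, hz_of_ne h1, one_mul, E'.px_red, E.px_red,
        eval_redP hA (E.px_le P), eval_redP hB.le (E.px_le P), res_val,
        ← red_mul (hx' P) (hBx P), h.x_eq h0]
  · set Vp : ℂ[X] := C c⁻¹ * B * Wr A B with hVp
    set U : ℂ[X] := C (2⁻¹ : ℂ) * (Vp * (C E.W.a₁ * X + C E.W.a₃) - C E'.W.a₁ * A * B ^ 2 -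
      C E'.W.a₃ * B ^ 3) with hU
    have e1 : ∀ P : Pt E.W, φ P ≠ 0 →
        Vp.eval (px P) * pY P = B.eval (px P) ^ 3 * pY (φ P) := fun P hP => by
      have h1 := h.Yrel P hP
      have h2 := h.c_ne
      simp only [hVp, eval_mul, eval_C]
      field_simp
      linear_combination (-B.eval (px P)) * h1
    have e2 : ∀ P : Pt E.W, φ P ≠ 0 →
        py (φ P) * B.eval (px P) ^ 3 = U.eval (px P) + Vp.eval (px P) * py P := fun P hP => by
      have h1 := e1 P hP
      have h2 := h.x_eq hP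
      simp only [pY] at h1
      simp only [hU, eval_mul, eval_C, eval_sub, eval_add, eval_X, eval_pow]
      linear_combination (-1 / 2 : ℂ) * h1 - (1 / 2 : ℂ) * E'.W.a₁ * B.eval (px P) ^ 2 * h2
    have hV1 : V.gn Vp ≤ 1 := by
      refine E.interp hp Vp 1 ((hfin.union ((finite_two_tors E.good.Δ_ne).preimage
        (f := fun P : ptor p E.W => P.1) Subtype.val_injective.injOn)).subset fun P hP => ?_)
      by_contra hc
      apply hP
      have h0 : φ P.1 ≠ 0 := fun e => hc (Or.inl e)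
      have h2 : P.1 + P.1 ≠ 0 := fun e => hc (Or.inr e)
      have h3 := (hL p V E.W E.good).2.1 P.1 h2
      rw [M_eq_one.2 (E.px_le P), M_eq_one.2 (show V.v (px (P.1 + P.1)) ≤ 1 from E.px_le (P + P)),
        mul_one, one_pow] at h3
      have h4 := (pow_eq_one_iff_of_nonneg zero_le two_ne_zero).1 h3
      have h5 := le_mul (le_pow (hBx P) 3) (hY' P)
      rwa [← e1 _ h0, map_mul, h4, mul_one] at h5
    have hVx : ∀ P : ptor p E.W, V.v (Vp.eval (px P.1)) ≤ 1 := fun P =>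
      (v_eval_le Vp (E.px_le P)).trans hV1
    have hU1 : V.gn U ≤ 1 := by
      refine E.interp hp U 1 (hfin.subset fun P hP => ?_)
      by_contra h0
      apply hP
      have h1 := le_sub (le_mul (hy' P) (le_pow (hBx P) 3)) (le_mul (hVx P) (E.py_le P))
      rwa [e2 _ h0, add_sub_cancel_right] at h1
    have hUx : ∀ P : ptor p E.W, V.v (U.eval (px P.1)) ≤ 1 := fun P =>
      (v_eval_le U (E.px_le P)).trans hU1
    refine ⟨V.redP U, V.redP Vp, V.redP B ^ 3, pow_ne_zero _ ((redP_ne_zero hB.le).2 hB),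
      (hfin.image E.ρ).subset fun Q hQ => ?_⟩
    obtain ⟨P, rfl⟩ := E.ρ.surjective Q
    refine ⟨P, ?_, rfl⟩
    by_contra h0
    apply hQ
    show py (kap E E' c (E.ρ P)).1 * (V.redP B ^ 3).eval (px (E.ρ P).1) =
      (V.redP U).eval (px (E.ρ P).1) + (V.redP Vp).eval (px (E.ρ P).1) * py (E.ρ P).1
    rw [kap_apply, E'.py_red, E.px_red, E.py_red, eval_pow, eval_redP hB.le (E.px_le P),
      eval_redP hU1 (E.px_le P), eval_redP hV1 (E.px_le P), res_val, ← red_pow (hBx P),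
      ← red_mul (hy' P) (le_pow (hBx P) 3), ← red_mul (hVx P) (E.py_le P),
      ← red_add (hUx P) (le_mul (hVx P) (E.py_le P)), e2 _ h0]

end Pool.Agent.P.MP_94fe55_nt
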