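import Pool.Agent.P.MP_94fe55_nt.Val

set_option autoImplicit false

namespace Pool.Agent.P.MP_94fe55_nt

open Polynomial WeierstrassCurve
open scoped NNReal

/-- the upstream statements available to the later packages -/
structure Tools : Prop where
  unifEx : S_UnifEx
  velu : S_Velu
  conv : S_Conv
  disc : S_Disc
  homoth : S_Homoth
  omega : S_Omega
  ring : S_Ring
  quat : S_Quat
  lh : S_LH
  div : S_Div
  tor : S_Tor
  rho : S_Rho
  int : S_Int
  red : S_Red
  near : S_Near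
  model : S_Model

/-! ### the subring of algebraic endomorphisms -/

section

variable {F : Type} [Field F] [DecidableEq F] {W : WeierstrassCurve F}
  {Γ : Type} [AddCommGroup Γ] {ι : Γ →+ Pt W}

theorem RingFacts.alg_sub (h : RingFacts ι) {φ ψ : AddMonoid.End Γ} (h1 : Alg ι φ)
    (h2 : Alg ι ψ) : Alg ι (φ - ψ) := by
  rw [sub_eq_add_neg]; exact h.alg_add _ _ h1 (h.alg_neg _ h2)

/-- the algebraic endomorphisms as a subring -/
def RingFacts.sub (h : RingFacts ι) : Subring (AddMonoid.End Γ) where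
  carrier := {φ | Alg ι φ}
  mul_mem' := h.alg_mul _ _
  one_mem' := h.alg_one
  add_mem' := h.alg_add _ _
  zero_mem' := h.alg_zero
  neg_mem' := h.alg_neg _

theorem RingFacts.mem_sub (h : RingFacts ι) {φ : AddMonoid.End Γ} : φ ∈ h.sub ↔ Alg ι φ := Iff.rfl

theorem RingFacts.alg_int (h : RingFacts ι) (n : ℤ) : Alg ι (n : AddMonoid.End Γ) :=
  intCast_mem h.sub n

theorem RingFacts.alg_nat (h : RingFacts ι) (n : ℕ) : Alg ι (n : AddMonoid.End Γ) :=
  natCast_mem h.sub n

/-- the degree on the subring -/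
noncomputable def RingFacts.q (h : RingFacts ι) (x : h.sub) : ℤ := qd ι x.1

theorem RingFacts.qf (h : RingFacts ι) : QF h.q where
  mul x y := by
    simp only [RingFacts.q]
    exact_mod_cast h.q_mul _ _ x.2 y.2
  par x y := by
    simp only [RingFacts.q]
    exact_mod_cast h.q_par _ _ x.2 y.2
  one := by
    simp only [RingFacts.q]
    have := h.qd_eq _ _ _ h.rep_one
    rw [natDegree_X] at this
    exact_mod_cast this
  nonneg x := Int.natCast_nonneg _
  eq_zero x e := Subtype.ext (h.q_zero _ x.2 (by simpa [RingFacts.q] using e))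

theorem RingFacts.ed_neg (h : RingFacts ι) {φ : AddMonoid.End Γ} (h1 : Alg ι φ) :
    ed ι (-φ) = ed ι φ := by
  obtain ⟨⟨A, B, hr⟩, -⟩ := h1
  rw [h.ed_eq _ _ _ hr, h.ed_eq _ _ _ (h.rep_neg _ _ _ hr)]

theorem RingFacts.ed_one (h : RingFacts ι) : ed ι 1 = 1 := by
  rw [h.ed_eq _ _ _ h.rep_one]; simp

end

/-! ### isogeny data -/

section

variable {W W' : WeierstrassCurve ℂ} {c : ℂ} {φ : Pt W →+ Pt W'} {T : Finset (Pt W)} {A B : ℂ[X]}

theorem Isog.zero_mem (h : Isog W W' c φ T A B) : (0 : Pt W) ∈ T := (h.ker 0).2 (map_zero _)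

theorem Isog.card_pos (h : Isog W W' c φ T A B) : 0 < T.card :=
  Finset.card_pos.2 ⟨0, h.zero_mem⟩

theorem Isog.monic_prod (T : Finset (Pt W)) : (∏ Q ∈ T, (X - C (px Q))).Monic :=
  monic_prod_of_monic _ _ fun _ _ => monic_X_sub_C _

theorem Isog.natDegree_prod (T : Finset (Pt W)) :
    (∏ Q ∈ T, (X - C (px Q))).natDegree = T.card := by
  rw [natDegree_prod_of_monic _ _ fun _ _ => monic_X_sub_C _]; simp

theorem Isog.natDegree_B (h : Isog W W' c φ T A B) : B.natDegree + 1 = A.natDegree := by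
  rw [h.deg, h.B_eq, natDegree_C_mul (pow_ne_zero _ h.c_ne), Isog.natDegree_prod,
    Finset.card_erase_of_mem h.zero_mem]
  have := h.card_pos
  omega

theorem Isog.lead_B (h : Isog W W' c φ T A B) : B.leadingCoeff = c ^ 2 := by
  rw [h.B_eq, leadingCoeff_mul, leadingCoeff_C, (Isog.monic_prod _).leadingCoeff, mul_one]

theorem Isog.B_ne (h : Isog W W' c φ T A B) : B ≠ 0 := by
  rw [← leadingCoeff_ne_zero, h.lead_B]; exact pow_ne_zero _ h.c_ne

theorem Isog.x_eq (h : Isog W W' c φ T A B) {P : Pt W} (hP : φ P ≠ 0) :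
    px (φ P) * B.eval (px P) = A.eval (px P) := by
  have := congrArg (eval (px P)) (h.prod P hP)
  rw [eval_prod, Finset.prod_eq_zero h.zero_mem (by simp)] at this
  simp only [eval_sub, eval_mul, eval_C] at this
  linear_combination -this

theorem Isog.B_eval_ne (h : Isog W W' c φ T A B) {P : Pt W} (hP : φ P ≠ 0) :
    B.eval (px P) ≠ 0 := by
  intro e
  have h1 := h.x_eq hP
  rw [e, mul_zero] at h1
  obtain ⟨u, w, huw⟩ := h.cop
  have := congrArg (eval (px P)) huw
  simp [e, ← h1] at this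

theorem Isog.B_eval_zero (h : Isog W W' c φ T A B) {P : Pt W} (h0 : P ≠ 0) (hP : φ P = 0) :
    B.eval (px P) = 0 := by
  rw [h.B_eq, eval_mul, eval_prod, Finset.prod_eq_zero
    (Finset.mem_erase.2 ⟨h0, (h.ker P).2 hP⟩) (by simp), mul_zero]

/-- an isogeny of a curve to itself is represented by its data -/
theorem Isog.rep {φ : Pt W →+ Pt W} (h : Isog W W c φ T A B) :
    Rep (AddMonoidHom.id (Pt W)) φ A B := by
  refine ⟨h.monic, degree_lt_degree (by have := h.natDegree_B; omega), h.cop,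
    T.finite_toSet.subset fun P hP => ?_⟩
  by_contra hT
  have h1 : φ P ≠ 0 := fun e => hT ((h.ker P).2 e)
  apply hP
  show hx (φ P) * B.eval (px P) = hz (φ P) * A.eval (px P)
  rw [hx_of_ne h1, hz_of_ne h1, one_mul, h.x_eq h1]

/-- the kernel is killed by its order -/
theorem Isog.card_smul (h : Isog W W' c φ T A B) {Q : Pt W} (hQ : Q ∈ T) : T.card • Q = 0 := by
  have hf : (φ.ker : Set (Pt W)) = T := by
    ext P
    simp [h.ker]
  have hc : Nat.card φ.ker = T.card := by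
    rw [← Set.ncard_coe_finset, ← hf]; rfl
  have := card_nsmul_eq_zero' (G := φ.ker) (x := ⟨Q, (h.ker Q).1 hQ⟩)
  rw [hc] at this
  exact congrArg Subtype.val this

end

/-! ### reduction of isogenies -/

section

variable {p : ℕ} {V : Place p} {Wb : WeierstrassCurve V.k}

@[simp] theorem res_val {W W' : WeierstrassCurve ℂ} (φ : Pt W →+ Pt W') (P : ptor p W) :
    (res p φ P).1 = φ P.1 := rfl

theorem kap_apply (E E' : Lift V Wb) (c : ℂ) (P : ptor p E.W) :
    kap E E' c (E.ρ P) = E'.ρ (res p (mulPt E.π E'.π c) P) := by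
  show E'.ρ (res p (mulPt E.π E'.π c) (E.ρ.symm (E.ρ P))) = _
  rw [AddEquiv.symm_apply_apply]

theorem kap_ext (E : Lift V Wb) {φ ψ : AddMonoid.End (ptor p Wb)}
    (h : ∀ P, φ (E.ρ P) = ψ (E.ρ P)) : φ = ψ := by
  refine AddMonoidHom.ext fun Q => ?_
  obtain ⟨P, rfl⟩ := E.ρ.surjective Q
  exact h P

theorem kap_eq_zero_iff (E E' : Lift V Wb) {c : ℂ} (hc : Hom E.L E'.L c) (z : ℂ)
    (hz : E.π z ∈ ptor p E.W) : kap E E' c (E.ρ ⟨E.π z, hz⟩) = 0 ↔ c * z ∈ E'.L.lattice := by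
  rw [kap_apply, EmbeddingLike.map_eq_zero_iff, ← E'.unif.ker,
    ← mulPt_apply E.unif E'.unif hc, Subtype.ext_iff]
  rfl

theorem kap_add (E E' : Lift V Wb) {a b : ℂ} (ha : Hom E.L E'.L a) (hb : Hom E.L E'.L b) :
    kap E E' (a + b) = kap E E' a + kap E E' b :=
  kap_ext E fun P => by
    show _ = kap E E' a (E.ρ P) + kap E E' b (E.ρ P)
    rw [kap_apply, kap_apply, kap_apply, ← map_add, mulPt_add E.unif E'.unif ha hb]
    rfl

/-- first `a`, then `b` -/
theorem kap_comp (E E' E'' : Lift V Wb) {a b : ℂ} (ha : Hom E.L E'.L a) (hb : Hom E'.L E''.L b) :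
    kap E E'' (b * a) = kap E' E'' b * kap E E' a :=
  kap_ext E fun P => by
    show _ = kap E' E'' b (kap E E' a (E.ρ P))
    rw [kap_apply, kap_apply, kap_apply, mulPt_comp E.unif E'.unif E''.unif ha hb]
    rfl

theorem kap_int (E : Lift V Wb) (n : ℤ) : kap E E n = n :=
  kap_ext E fun P => by
    rw [kap_apply, AddMonoid.End.intCast_apply, ← map_zsmul]
    congr 1
    exact Subtype.ext (mulPt_int E.unif n P.1)

theorem kap_nat (E : Lift V Wb) (n : ℕ) : kap E E n = n := by simpa using kap_int E n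

theorem kap_one (E : Lift V Wb) : kap E E 1 = 1 := by simpa using kap_nat E 1

theorem kap_zero (E E' : Lift V Wb) : kap E E' 0 = 0 := by
  have := kap_add E E' (Hom.zero _ _) (Hom.zero _ _)
  simpa using this

theorem kap_neg (E E' : Lift V Wb) {a : ℂ} (ha : Hom E.L E'.L a) :
    kap E E' (-a) = -kap E E' a := by
  have := kap_add E E' ha ha.neg
  rw [add_neg_cancel, kap_zero] at this
  exact (neg_eq_of_add_eq_zero_right this.symm).symm

theorem kap_sub (E E' : Lift V Wb) {a b : ℂ} (ha : Hom E.L E'.L a) (hb : Hom E.L E'.L b) :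
    kap E E' (a - b) = kap E E' a - kap E E' b := by
  rw [sub_eq_add_neg, kap_add E E' ha hb.neg, kap_neg E E' hb, sub_eq_add_neg]

theorem kap_int_mul (E E' : Lift V Wb) {a : ℂ} (ha : Hom E.L E'.L a) (n : ℤ) :
    kap E E' (n * a) = n * kap E E' a := by
  rw [kap_comp E E' E' ha (Hom.int _ n), kap_int]

/-- a quadratic equation passes to the reduction -/
theorem kap_quad (E : Lift V Wb) {α : ℂ} {t n : ℤ} (ha : Hom E.L E.L α)
    (h : α ^ 2 = t * α - n) : kap E E α * kap E E α = t * kap E E α - n := by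
  rw [← kap_comp E E E ha ha, ← sq, h, kap_sub E E ((Hom.int _ t).comp ha) (Hom.int _ n),
    kap_int_mul E E ha, kap_int]

theorem kap_om (E : Lift V Wb) (h : Hom E.L E.L om) :
    kap E E om * kap E E om + kap E E om + 1 = 0 := by
  have := kap_quad E (t := -1) (n := 1) h (by push_cast; linear_combination om_sq)
  have key : ∀ {R : Type} [Ring R] (x : R), x * x = ((-1 : ℤ) : R) * x - ((1 : ℤ) : R) →
      x * x + x + 1 = 0 := by
    intro R _ x e
    rw [e]; simp; abel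
  exact key _ this

theorem Lift.Δ_ne (E : Lift V Wb) : Wb.Δ ≠ 0 := E.red ▸ E.good.red_Δ_ne

theorem Lift.infinite (E : Lift V Wb) (hp : p.Prime) : Infinite (ptor p Wb) := by
  have := E.unif.infinite_ptor hp.ne_zero
  exact Infinite.of_injective _ E.ρ.injective

theorem Lift.facts (E : Lift V Wb) (hR : S_Ring) (hp : p.Prime) :
    RingFacts (ptor p Wb).subtype := by
  have := E.infinite hp
  exact hR V.k Wb (ptor p Wb) _ E.Δ_ne Subtype.val_injective

theorem Lift.px_le (E : Lift V Wb) (P : ptor p E.W) : V.v (px P.1) ≤ 1 := (E.rho P).2.1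

theorem Lift.py_le (E : Lift V Wb) (P : ptor p E.W) : V.v (py P.1) ≤ 1 := (E.rho P).2.2.1

theorem Lift.pY_le (E : Lift V Wb) (P : ptor p E.W) : V.v (pY P.1) ≤ 1 :=
  E.good.pY_le (E.px_le P) (E.py_le P)

theorem Lift.px_red (E : Lift V Wb) (P : ptor p E.W) : px (E.ρ P).1 = V.red (px P.1) :=
  (E.rho P).2.2.2.1

theorem Lift.py_red (E : Lift V Wb) (P : ptor p E.W) : py (E.ρ P).1 = V.red (py P.1) :=
  (E.rho P).2.2.2.2

theorem Lift.pY_red (E : Lift V Wb) (P : ptor p E.W) : pY (E.ρ P).1 = V.red (pY P.1) :=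
  (E.rho P).pY E.good E.red

/-- interpolation at all but finitely many prime-to-`p` torsion points -/
theorem Lift.interp (E : Lift V Wb) (hp : p.Prime) (G : ℂ[X]) (r : ℝ≥0)
    (h : {P : ptor p E.W | ¬ V.v (G.eval (px P.1)) ≤ r}.Finite) : V.gn G ≤ r := by
  have := E.unif.infinite_ptor hp.ne_zero
  let S : Set (ptor p E.W) := {P | ¬ V.v (G.eval (px P.1)) ≤ r}ᶜ
  have hS : S.Infinite := h.infinite_compl
  refine Place.interp G r ((fun P : ptor p E.W => px P.1) '' S) ?_ ?_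
  · have h1 : ((fun P : ptor p E.W => (E.ρ P).1) '' S).Infinite :=
      hS.image (Subtype.val_injective.comp E.ρ.injective).injOn
    have h2 := infinite_px h1
    rw [Set.image_image] at h2 ⊢
    simpa only [E.px_red] using h2
  · rintro _ ⟨P, hP, rfl⟩
    exact ⟨E.px_le P, not_not.1 hP⟩

theorem exists_lift (H : Tools) (hp : p.Prime) {W : WeierstrassCurve ℂ} (hW : V.Good W)
    (e : V.redW W = Wb) : ∃ E : Lift V Wb, E.W = W := by
  obtain ⟨L, π, hπ⟩ := H.unifEx W hW.Δ_ne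
  obtain ⟨ρ, hρ⟩ := H.rho p V W L π Wb hp hW hπ e
  exact ⟨⟨W, L, π, ρ, hW, hπ, e, hρ⟩, rfl⟩

theorem kap_alg (H : Tools) (hp : p.Prime) (E E' : Lift V Wb) {c : ℂ} (hc : Hom E.L E'.L c) :
    Alg (ptor p Wb).subtype (kap E E' c) := by
  by_cases h0 : c = 0
  · rw [h0, kap_zero]; exact (E.facts H.ring hp).alg_zero
  obtain ⟨T, A, B, h⟩ := H.velu _ _ _ _ _ _ c E.unif E'.unif h0 hc
  obtain ⟨h1, h2⟩ := H.red p V Wb E E' c T A B hp h
  exact ⟨⟨_, _, h1⟩, h2⟩

theorem kap_ne_zero (H : Tools) (hp : p.Prime) (E E' : Lift V Wb) {c : ℂ} (hc : Hom E.L E'.L c)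
    (h0 : c ≠ 0) : kap E E' c ≠ 0 := by
  obtain ⟨T, A, B, h⟩ := H.velu _ _ _ _ _ _ c E.unif E'.unif h0 hc
  obtain ⟨h1, -⟩ := H.red p V Wb E E' c T A B hp h
  intro e
  rw [e] at h1
  have h2 := ((E.facts H.ring hp).uniq _ _ _ _ _ h1 (E.facts H.ring hp).rep_zero).1
  have h3 := Place.natDegree_redP_monic (V := V) h.monic
  rw [h2, h.deg, natDegree_one] at h3
  exact h.card_pos.ne h3

theorem kap_inj (H : Tools) (hp : p.Prime) (E E' : Lift V Wb) {a b : ℂ} (ha : Hom E.L E'.L a)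
    (hb : Hom E.L E'.L b) (e : kap E E' a = kap E E' b) : a = b := by
  by_contra h
  apply kap_ne_zero H hp E E' (ha.sub hb) (sub_ne_zero.2 h)
  rw [kap_sub E E' ha hb, e, sub_self]

theorem v_le_of_hom (H : Tools) (hp : p.Prime) (E E' : Lift V Wb) {c : ℂ}
    (hc : Hom E.L E'.L c) : V.v c ≤ 1 := by
  by_cases h0 : c = 0
  · simp [h0]
  obtain ⟨T, A, B, h⟩ := H.velu _ _ _ _ _ _ c E.unif E'.unif h0 hc
  have h1 := (H.int p V _ _ _ _ _ _ c _ T A B hp E.good E'.good E.unif E'.unif h).2.1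
  have h2 := V.coeff_le_gn B B.natDegree
  rw [h1, ← leadingCoeff, h.lead_B, map_pow] at h2
  exact (pow_le_one_iff_of_nonneg zero_le two_ne_zero).1 h2

theorem kap_ed_one (H : Tools) (hp : p.Prime) (E E' : Lift V Wb) {c : ℂ} (hc : Hom E.L E'.L c)
    (hv : V.v c = 1) : ed (ptor p Wb).subtype (kap E E' c) = 1 := by
  have h0 : c ≠ 0 := by
    rintro rfl
    simp at hv
  obtain ⟨T, A, B, h⟩ := H.velu _ _ _ _ _ _ c E.unif E'.unif h0 hc
  obtain ⟨h1, -⟩ := H.red p V Wb E E' c T A B hp h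
  rw [(E.facts H.ring hp).ed_eq _ _ _ h1, Place.natDegree_redP_monic h.monic,
    Place.natDegree_redP (by rw [h.lead_B, map_pow, hv, one_pow]), ← h.natDegree_B]
  omega

theorem kap_ed_two (H : Tools) (hp : p.Prime) (E E' : Lift V Wb) {c : ℂ} (hc : Hom E.L E'.L c)
    (h0 : c ≠ 0) (hv : V.v c < 1) : 2 ≤ ed (ptor p Wb).subtype (kap E E' c) := by
  obtain ⟨T, A, B, h⟩ := H.velu _ _ _ _ _ _ c E.unif E'.unif h0 hc
  obtain ⟨h1, -⟩ := H.red p V Wb E E' c T A B hp h
  have h2 := (E.facts H.ring hp).B_ne _ _ _ h1 (kap_ne_zero H hp E E' hc h0)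
  have h3 := Place.natDegree_redP_lt (V := V) (G := B)
    (by rw [h.lead_B, map_pow]; exact pow_lt_one₀ zero_le hv two_ne_zero) h2
  rw [(E.facts H.ring hp).ed_eq _ _ _ h1, Place.natDegree_redP_monic h.monic, ← h.natDegree_B]
  omega

end

end Pool.Agent.P.MP_94fe55_nt
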