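import Pool.Agent.P.MP_94fe55_nt.PtB

set_option autoImplicit false

namespace Pool.Agent.P.MP_94fe55_nt

open Polynomial WeierstrassCurve

theorem om_sq : om ^ 2 + om + 1 = 0 := by
  have h : ((Real.sqrt 3 : ℝ) : ℂ) ^ 2 = 3 := by
    rw [← Complex.ofReal_pow, Real.sq_sqrt (by norm_num)]; norm_num
  simp only [om]
  linear_combination (Complex.I ^ 2 / 4) * h + (3 / 4) * Complex.I_sq

theorem om_cube : om ^ 3 = 1 := by linear_combination (om - 1) * om_sq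

theorem om_ne_zero : om ≠ 0 := by
  intro h
  have := om_sq
  rw [h] at this
  norm_num at this

theorem om_ne_one : om ≠ 1 := by
  intro h
  have := om_sq
  rw [h] at this
  norm_num at this

theorem om_re : om.re = -(1 / 2) := by simp [om]; norm_num

theorem om_im : om.im = Real.sqrt 3 / 2 := by simp [om]

theorem th_re (D : ℕ) : (th D).re = ((D % 2 : ℕ) : ℝ) / 2 := by
  simp only [th]
  rw [Complex.div_ofNat_re]
  simp [-Nat.cast_ofNat, ← Complex.ofReal_natCast]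

theorem th_im (D : ℕ) : (th D).im = Real.sqrt D / 2 := by
  simp only [th]
  rw [Complex.div_ofNat_im]
  simp [-Nat.cast_ofNat, ← Complex.ofReal_natCast]

theorem disc_four {D : ℕ} (h : Disc D) : 4 * ((D + D % 2) / 4) = D + D % 2 := by
  rcases h.2 with h | h <;> omega

/-- `th D` is a root of `X² - (D % 2) X + (D + D % 2) / 4` -/
theorem th_sq {D : ℕ} (h : Disc D) :
    th D ^ 2 = ((D % 2 : ℕ) : ℂ) * th D - (((D + D % 2) / 4 : ℕ) : ℂ) := by
  have h1 : ((Real.sqrt D : ℝ) : ℂ) ^ 2 = D := by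
    rw [← Complex.ofReal_pow, Real.sq_sqrt (Nat.cast_nonneg D)]; norm_num
  have h2 : (4 : ℂ) * (((D + D % 2) / 4 : ℕ) : ℂ) = D + ((D % 2 : ℕ) : ℂ) := by
    exact_mod_cast disc_four h
  have h3 : ((D % 2 : ℕ) : ℂ) ^ 2 = ((D % 2 : ℕ) : ℂ) := by
    rcases Nat.mod_two_eq_zero_or_one D with e | e <;> simp [e]
  simp only [th]
  linear_combination (Complex.I ^ 2 / 4) * h1 + ((D : ℂ) / 4) * Complex.I_sq + (1 / 4) * h2 -
    (1 / 4) * h3

theorem four_gg {D : ℕ} (h : Disc D) (β : ℤ) :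
    4 * gg D β = (2 * β + ((D % 2 : ℕ) : ℤ)) ^ 2 + D := by
  have h2 : (4 : ℤ) * (((D + D % 2) / 4 : ℕ) : ℤ) = D + ((D % 2 : ℕ) : ℤ) := by
    exact_mod_cast disc_four h
  have h3 : ((D % 2 : ℕ) : ℤ) ^ 2 = ((D % 2 : ℕ) : ℤ) := by
    rcases Nat.mod_two_eq_zero_or_one D with e | e <;> simp [e]
  simp only [gg]
  linear_combination h2 - h3

/-- `(β + th D)` satisfies `z² = (2β + D % 2) z - gg D β` -/
theorem add_th_sq {D : ℕ} (h : Disc D) (β : ℤ) :
    ((β : ℂ) + th D) ^ 2 = ((2 * β + ((D % 2 : ℕ) : ℤ) : ℤ) : ℂ) * (β + th D) - (gg D β : ℤ) := by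
  have := th_sq h
  simp only [gg, Int.cast_add, Int.cast_mul, Int.cast_pow, Int.cast_natCast, Int.cast_ofNat]
  linear_combination this

/-! ### multipliers -/

theorem Hom.int (L : PeriodPair) (n : ℤ) : Hom L L n := fun z hz => by
  simpa [zsmul_eq_mul] using L.lattice.smul_mem n hz

theorem Hom.nat (L : PeriodPair) (n : ℕ) : Hom L L n := by simpa using Hom.int L n

theorem Hom.one (L : PeriodPair) : Hom L L 1 := fun z hz => by simpa using hz

theorem Hom.zero (L L' : PeriodPair) : Hom L L' 0 := fun z _ => by simp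

theorem Hom.add {L L' : PeriodPair} {a b : ℂ} (ha : Hom L L' a) (hb : Hom L L' b) :
    Hom L L' (a + b) := fun z hz => by
  rw [add_mul]; exact add_mem (ha z hz) (hb z hz)

theorem Hom.neg {L L' : PeriodPair} {a : ℂ} (ha : Hom L L' a) : Hom L L' (-a) := fun z hz => by
  rw [neg_mul]; exact neg_mem (ha z hz)

theorem Hom.sub {L L' : PeriodPair} {a b : ℂ} (ha : Hom L L' a) (hb : Hom L L' b) :
    Hom L L' (a - b) := by
  rw [sub_eq_add_neg]; exact ha.add hb.neg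

/-- first `a`, then `b` -/
theorem Hom.comp {L L' L'' : PeriodPair} {a b : ℂ} (hb : Hom L' L'' b) (ha : Hom L L' a) :
    Hom L L'' (b * a) := fun z hz => by
  rw [mul_assoc]; exact hb _ (ha z hz)

theorem hom_iff {L L' : PeriodPair} {c : ℂ} :
    Hom L L' c ↔ c * L.ω₁ ∈ L'.lattice ∧ c * L.ω₂ ∈ L'.lattice := by
  constructor
  · exact fun h => ⟨h _ L.ω₁_mem_lattice, h _ L.ω₂_mem_lattice⟩
  · rintro ⟨h1, h2⟩ z hz
    obtain ⟨m, n, rfl⟩ := PeriodPair.mem_lattice.1 hz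
    have : c * (m * L.ω₁ + n * L.ω₂) = m * (c * L.ω₁) + n * (c * L.ω₂) := by ring
    rw [this]
    exact add_mem (Hom.int L' m _ h1) (Hom.int L' n _ h2)

theorem Iso.hom {L L' : PeriodPair} {c : ℂ} (h : Iso L L' c) : Hom L L' c :=
  fun z hz => (h.2 z).1 hz

theorem Iso.symm {L L' : PeriodPair} {c : ℂ} (h : Iso L L' c) : Iso L' L c⁻¹ :=
  ⟨inv_ne_zero h.1, fun z => by rw [h.2, mul_inv_cancel_left₀ h.1]⟩

theorem Iso.trans {L L' L'' : PeriodPair} {a b : ℂ} (ha : Iso L L' a) (hb : Iso L' L'' b) :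
    Iso L L'' (b * a) :=
  ⟨mul_ne_zero hb.1 ha.1, fun z => by rw [ha.2, hb.2, mul_assoc]⟩

theorem Iso.refl (L : PeriodPair) : Iso L L 1 := ⟨one_ne_zero, fun z => by simp⟩

theorem iso_of_hom {L L' : PeriodPair} {c : ℂ} (hc : c ≠ 0) (h1 : Hom L L' c)
    (h2 : Hom L' L c⁻¹) : Iso L L' c :=
  ⟨hc, fun z => ⟨h1 z, fun hz => by simpa [inv_mul_cancel_left₀ hc] using h2 _ hz⟩⟩

theorem Iso.hom_iff {L L' : PeriodPair} {c : ℂ} (h : Iso L L' c) (a : ℂ) :
    Hom L L a ↔ Hom L' L' a := by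
  have key : ∀ {L L' : PeriodPair} {c : ℂ}, Iso L L' c → Hom L L a → Hom L' L' a := by
    intro L L' c h ha
    have := (h.hom.comp ha).comp h.symm.hom
    rwa [mul_comm c a, mul_assoc, mul_inv_cancel₀ h.1, mul_one] at this
  exact ⟨key h, key h.symm⟩

theorem Iso.isCM {L L' : PeriodPair} {c : ℂ} (h : Iso L L' c) {D : ℕ} (hD : IsCM D L) :
    IsCM D L' := fun a => by rw [← h.hom_iff, hD]

theorem IsCM.th {D : ℕ} {L : PeriodPair} (h : IsCM D L) : Hom L L (th D) :=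
  (h _).2 ⟨0, 1, by simp⟩

theorem VV_subset (D : ℕ) : VV D ⊆ VV' D := fun _ ⟨L, h, e⟩ => ⟨L, h.th, e⟩

theorem isLat_self (L : PeriodPair) : IsLat L L.ω₁ L.ω₂ := fun _ => by
  rw [PeriodPair.mem_lattice]
  exact ⟨fun ⟨m, n, h⟩ => ⟨m, n, h.symm⟩, fun ⟨m, n, h⟩ => ⟨m, n, h.symm⟩⟩

theorem IsLat.swap {L : PeriodPair} {a b : ℂ} (h : IsLat L a b) : IsLat L b a := fun z => by
  rw [h]
  exact ⟨fun ⟨m, n, h⟩ => ⟨n, m, by rw [h]; ring⟩, fun ⟨m, n, h⟩ => ⟨n, m, by rw [h]; ring⟩⟩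

theorem IsLat.left {L : PeriodPair} {a b : ℂ} (h : IsLat L a b) : a ∈ L.lattice :=
  (h a).2 ⟨1, 0, by simp⟩

theorem IsLat.right {L : PeriodPair} {a b : ℂ} (h : IsLat L a b) : b ∈ L.lattice :=
  (h b).2 ⟨0, 1, by simp⟩

theorem IsLat.hom_iff {L L' : PeriodPair} {a b c : ℂ} (h : IsLat L a b) :
    Hom L L' c ↔ c * a ∈ L'.lattice ∧ c * b ∈ L'.lattice := by
  constructor
  · exact fun h' => ⟨h' _ h.left, h' _ h.right⟩
  · rintro ⟨h1, h2⟩ z hz
    obtain ⟨m, n, rfl⟩ := (h z).1 hz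
    have : c * (m * a + n * b) = m * (c * a) + n * (c * b) := by ring
    rw [this]
    exact add_mem (Hom.int L' m _ h1) (Hom.int L' n _ h2)

theorem IsLat.iso {L L' : PeriodPair} {a b c : ℂ} (h : IsLat L a b) (hc : c ≠ 0)
    (h' : IsLat L' (c * a) (c * b)) : Iso L L' c := by
  refine ⟨hc, fun z => ?_⟩
  rw [h, h']
  constructor
  · rintro ⟨m, n, rfl⟩
    exact ⟨m, n, by ring⟩
  · rintro ⟨m, n, e⟩
    exact ⟨m, n, mul_left_cancel₀ hc (by rw [e]; ring)⟩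

theorem IsLat.of_iso {L L' : PeriodPair} {a b c : ℂ} (h : IsLat L a b) (hi : Iso L L' c) :
    IsLat L' (c * a) (c * b) := fun z => by
  rw [hi.symm.2, h]
  constructor
  · rintro ⟨m, n, e⟩
    refine ⟨m, n, ?_⟩
    have : z = c * (c⁻¹ * z) := by rw [mul_inv_cancel_left₀ hi.1]
    rw [this, e]; ring
  · rintro ⟨m, n, rfl⟩
    exact ⟨m, n, by field_simp [hi.1]⟩

theorem indep_of_im {a b : ℂ} (h : (a * (starRingEnd ℂ) b).im ≠ 0) :
    LinearIndependent ℝ ![a, b] := by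
  rw [LinearIndependent.pair_iff]
  intro s t e
  have e1 := congrArg Complex.re e
  have e2 := congrArg Complex.im e
  simp at e1 e2 h
  constructor
  · apply mul_left_cancel₀ h
    linear_combination b.re * e2 - b.im * e1
  · apply mul_left_cancel₀ h
    linear_combination a.im * e1 - a.re * e2

theorem exists_lat {a b : ℂ} (h : (a * (starRingEnd ℂ) b).im ≠ 0) : ∃ L, IsLat L a b :=
  ⟨⟨a, b, indep_of_im h⟩, isLat_self _⟩

theorem exists_lat_tau {τ : ℂ} (h : τ.im ≠ 0) : ∃ L, IsLat L τ 1 :=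
  exists_lat (by simpa using h)

theorem im_periods (L : PeriodPair) : (L.ω₁ * (starRingEnd ℂ) L.ω₂).im ≠ 0 := by
  intro h
  have hi := LinearIndependent.pair_iff.1 L.indep
  simp at h
  have h1 := hi L.ω₂.re (-L.ω₁.re) (by
    apply Complex.ext <;> simp <;> linarith)
  have h2 := hi L.ω₂.im (-L.ω₁.im) (by
    apply Complex.ext <;> simp <;> linarith)
  have h3 := hi 0 1 (by
    apply Complex.ext <;> simp [h1.1, h2.1])
  simp at h3

theorem exists_iso (L : PeriodPair) {c : ℂ} (hc : c ≠ 0) : ∃ L', Iso L L' c := by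
  have h := im_periods L
  obtain ⟨L', hL'⟩ := exists_lat (a := c * L.ω₁) (b := c * L.ω₂) (by
    have : c * L.ω₁ * (starRingEnd ℂ) (c * L.ω₂) =
        (Complex.normSq c : ℝ) * (L.ω₁ * (starRingEnd ℂ) L.ω₂) := by
      rw [map_mul, ← Complex.mul_conj]; ring
    rw [this, Complex.im_ofReal_mul]
    exact mul_ne_zero (by simpa using hc) h)
  exact ⟨L', (isLat_self L).iso hc hL'⟩

/-- the bijection of lattices given by an isomorphism -/
noncomputable def Iso.equiv {L L' : PeriodPair} {c : ℂ} (h : Iso L L' c) :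
    L.lattice ≃ L'.lattice where
  toFun z := ⟨c * z, h.hom z z.2⟩
  invFun z := ⟨c⁻¹ * z, h.symm.hom z z.2⟩
  left_inv _ := Subtype.ext (inv_mul_cancel_left₀ h.1 _)
  right_inv _ := Subtype.ext (mul_inv_cancel_left₀ h.1 _)

theorem Iso.G {L L' : PeriodPair} {c : ℂ} (h : Iso L L' c) (n : ℕ) : L.G n = c ^ n * L'.G n := by
  simp only [PeriodPair.G]
  rw [← h.equiv.tsum_eq, ← tsum_mul_left]
  refine tsum_congr fun z => ?_
  show _ = c ^ n * ((c * z) ^ n)⁻¹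
  rw [mul_pow, mul_inv, mul_inv_cancel_left₀ (pow_ne_zero _ h.1)]

theorem Iso.g₂ {L L' : PeriodPair} {c : ℂ} (h : Iso L L' c) : L.g₂ = c ^ 4 * L'.g₂ := by
  simp only [PeriodPair.g₂, h.G 4]; ring

theorem Iso.g₃ {L L' : PeriodPair} {c : ℂ} (h : Iso L L' c) : L.g₃ = c ^ 6 * L'.g₃ := by
  simp only [PeriodPair.g₃, h.G 6]; ring

theorem Iso.jL {L L' : PeriodPair} {c : ℂ} (h : Iso L L' c) : jL L = jL L' := by
  simp only [MP_94fe55_nt.jL, h.g₂, h.g₃]
  have : (c ^ 4 * L'.g₂) ^ 3 - 27 * (c ^ 6 * L'.g₃) ^ 2 =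
      c ^ 12 * (L'.g₂ ^ 3 - 27 * L'.g₃ ^ 2) := by ring
  rw [this]
  have h2 : 1728 * (c ^ 4 * L'.g₂) ^ 3 = c ^ 12 * (1728 * L'.g₂ ^ 3) := by ring
  rw [h2, mul_div_mul_left _ _ (pow_ne_zero _ h.1)]

theorem Iso.wp {L L' : PeriodPair} {c : ℂ} (h : Iso L L' c) (z : ℂ) :
    L.weierstrassP z = c ^ 2 * L'.weierstrassP (c * z) := by
  simp only [PeriodPair.weierstrassP]
  rw [← h.equiv.tsum_eq, ← tsum_mul_left]
  refine tsum_congr fun l => ?_
  show _ = c ^ 2 * (1 / (c * z - c * l) ^ 2 - 1 / (c * l) ^ 2)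
  have hc := pow_ne_zero 2 h.1
  rw [← mul_sub c, mul_pow, mul_pow, mul_sub]
  simp only [one_div, mul_inv, mul_inv_cancel_left₀ hc]

theorem Iso.wp' {L L' : PeriodPair} {c : ℂ} (h : Iso L L' c) (z : ℂ) :
    L.derivWeierstrassP z = c ^ 3 * L'.derivWeierstrassP (c * z) := by
  simp only [PeriodPair.derivWeierstrassP]
  rw [← h.equiv.tsum_eq, mul_neg, ← tsum_mul_left]
  congr 1
  refine tsum_congr fun l => ?_
  show _ = c ^ 3 * (2 / (c * z - c * l) ^ 3)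
  have hc := pow_ne_zero 3 h.1
  rw [← mul_sub c, mul_pow, div_eq_mul_inv, div_eq_mul_inv, mul_inv]
  rw [mul_left_comm, mul_inv_cancel_left₀ hc]

theorem G_eq_tsum {L : PeriodPair} {τ : ℂ} (hτ : τ.im ≠ 0) (h : IsLat L τ 1) (n : ℕ) :
    L.G n = ∑' p : ℤ × ℤ, (((p.1 : ℂ) * τ + (p.2 : ℂ))⁻¹) ^ n := by
  let L0 : PeriodPair := ⟨τ, 1, indep_of_im (by simpa using hτ)⟩
  have hi : Iso L L0 1 := h.iso one_ne_zero (by simpa using isLat_self L0)
  rw [hi.G, one_pow, one_mul, PeriodPair.G, ← L0.latticeEquivProd.symm.toEquiv.tsum_eq]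
  refine tsum_congr fun p => ?_
  have := L0.latticeEquiv_symm_apply p
  simp only [LinearEquiv.coe_toEquiv]
  rw [this, inv_pow]
  simp [L0]

theorem g2_eq {L : PeriodPair} {τ : ℂ} (hτ : τ.im ≠ 0) (h : IsLat L τ 1) : L.g₂ = g2 τ := by
  rw [PeriodPair.g₂, G_eq_tsum hτ h, g2]

theorem g3_eq {L : PeriodPair} {τ : ℂ} (hτ : τ.im ≠ 0) (h : IsLat L τ 1) : L.g₃ = g3 τ := by
  rw [PeriodPair.g₃, G_eq_tsum hτ h, g3]

theorem jL_eq_J {L : PeriodPair} {τ : ℂ} (hτ : τ.im ≠ 0) (h : IsLat L τ 1) : jL L = J τ := by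
  rw [jL, g2_eq hτ h, g3_eq hτ h, J]

/-- every lattice is homothetic to one spanned by `τ, 1` with `τ` in the upper half plane -/
theorem exists_tau (L : PeriodPair) :
    ∃ (τ c : ℂ) (L0 : PeriodPair), 0 < τ.im ∧ IsLat L0 τ 1 ∧ Iso L L0 c := by
  have h := im_periods L
  have h2 : L.ω₂ ≠ 0 := by
    intro e
    simp [e] at h
  obtain ⟨L0, hL0⟩ := exists_iso L (inv_ne_zero h2)
  have h3 := (isLat_self L).of_iso hL0
  rw [inv_mul_cancel₀ h2] at h3
  have h4 : (L.ω₂⁻¹ * L.ω₁).im ≠ 0 := by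
    intro e
    apply h
    have : L.ω₁ * (starRingEnd ℂ) L.ω₂ = (Complex.normSq L.ω₂ : ℝ) * (L.ω₂⁻¹ * L.ω₁) := by
      rw [← Complex.mul_conj]; field_simp
    rw [this, Complex.im_ofReal_mul, e, mul_zero]
  rcases lt_or_gt_of_ne h4 with e | e
  · refine ⟨-(L.ω₂⁻¹ * L.ω₁), _, L0, by rw [Complex.neg_im]; linarith, fun z => ?_, hL0⟩
    rw [h3]
    exact ⟨fun ⟨m, n, h⟩ => ⟨-m, n, by rw [h]; push_cast; ring⟩,
      fun ⟨m, n, h⟩ => ⟨-m, n, by rw [h]; push_cast; ring⟩⟩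
  · exact ⟨_, _, L0, e, h3, hL0⟩

theorem countable_lattice (L : PeriodPair) : (L.lattice : Set ℂ).Countable := by
  have : Countable L.lattice := L.latticeEquivProd.toEquiv.countable_iff.2 inferInstance
  exact Set.countable_coe_iff.1 this

theorem isPreconnected_compl {S : Set ℂ} (h : S.Countable) : IsPreconnected Sᶜ :=
  (h.isPathConnected_compl_of_one_lt_rank (by simp)).isConnected.isPreconnected

theorem div_not_mem (L : PeriodPair) {l : ℕ} {k : ℤ} (hk : ¬ (l : ℤ) ∣ k) (hl : l ≠ 0) :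
    (k : ℂ) * (L.ω₁ / l) ∉ L.lattice := by
  intro h
  have e : (k : ℂ) * (L.ω₁ / l) = ((k / l : ℚ) : ℂ) * L.ω₁ + ((0 : ℚ) : ℂ) * L.ω₂ := by
    push_cast; ring
  rw [e, PeriodPair.mul_ω₁_add_mul_ω₂_mem_lattice] at h
  apply hk
  have h1 := h.1
  have h2 : ((k / l : ℚ).num : ℚ) = k / l := Rat.coe_int_num_of_den_eq_one h1
  refine ⟨(k / l : ℚ).num, ?_⟩
  have h3 : (l : ℚ) ≠ 0 := by exact_mod_cast hl
  have : (k : ℚ) = l * ((k / l : ℚ).num : ℚ) := by rw [h2]; field_simp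
  exact_mod_cast this

/-- the short model of a lattice -/
noncomputable def shortW (L : PeriodPair) : WeierstrassCurve ℂ := ⟨0, 0, 0, -L.g₂ / 4, -L.g₃ / 4⟩

theorem shortW_c4 (L : PeriodPair) : 12 * L.g₂ = (shortW L).c₄ := by
  simp only [shortW, c₄, b₂, b₄]; ring

theorem shortW_c6 (L : PeriodPair) : 216 * L.g₃ = (shortW L).c₆ := by
  simp only [shortW, c₆, b₂, b₄, b₆]; ring

theorem disc_eq {W : WeierstrassCurve ℂ} {L : PeriodPair} (h4 : 12 * L.g₂ = W.c₄)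
    (h6 : 216 * L.g₃ = W.c₆) : W.Δ = L.g₂ ^ 3 - 27 * L.g₃ ^ 2 := by
  have := W.c_relation
  rw [← h4, ← h6] at this
  linear_combination (1 / 1728) * this

theorem cubic_eq {W : WeierstrassCurve ℂ} {L : PeriodPair} (h4 : 12 * L.g₂ = W.c₄)
    (h6 : 216 * L.g₃ = W.c₆) (u : ℂ) :
    (F3 W X 1).eval (u - W.b₂ / 12) = 4 * u ^ 3 - L.g₂ * u - L.g₃ := by
  rw [F3_X_eval]
  simp only [c₄, c₆] at h4 h6
  linear_combination (u / 12) * h4 + (1 / 216) * h6

section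

variable {W W' W'' : WeierstrassCurve ℂ} {L L' L'' : PeriodPair} {π : ℂ →+ Pt W}
  {π' : ℂ →+ Pt W'} {π'' : ℂ →+ Pt W''}

theorem Unif.jW (h : Unif W L π) : jW W = jL L := by
  rw [MP_94fe55_nt.jW, jL, disc_eq h.c4 h.c6, ← h.c4]; ring

theorem mulPt_apply (h : Unif W L π) (h' : Unif W' L' π') {c : ℂ} (hc : Hom L L' c) (z : ℂ) :
    mulPt π π' c (π z) = π' (c * z) := by
  have hex : ∃ φ : Pt W →+ Pt W', ∀ z, φ (π z) = π' (c * z) := by
    let g : ℂ →+ Pt W' := π'.comp (AddMonoidHom.mulLeft c)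
    have hk : π.ker ≤ g.ker := by
      intro z hz
      rw [AddMonoidHom.mem_ker] at hz ⊢
      exact (h'.ker _).2 (hc z ((h.ker z).1 hz))
    exact ⟨π.liftOfSurjective h.surj ⟨g, hk⟩, fun z =>
      AddMonoidHom.liftOfRightInverse_comp_apply _ _ _ ⟨g, hk⟩ z⟩
  simp only [mulPt, dif_pos hex]
  exact hex.choose_spec z

theorem mulPt_ext (h : Unif W L π) {φ ψ : Pt W →+ Pt W'} (e : ∀ z, φ (π z) = ψ (π z)) :
    φ = ψ := by
  ext P
  obtain ⟨z, rfl⟩ := h.surj P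
  exact e z

theorem mulPt_int (h : Unif W L π) (n : ℤ) (P : Pt W) : mulPt π π n P = n • P := by
  obtain ⟨z, rfl⟩ := h.surj P
  rw [mulPt_apply h h (Hom.int L n), ← map_zsmul, zsmul_eq_mul]

theorem mulPt_nat (h : Unif W L π) (n : ℕ) (P : Pt W) : mulPt π π n P = n • P := by
  obtain ⟨z, rfl⟩ := h.surj P
  rw [mulPt_apply h h (Hom.nat L n), ← map_nsmul, nsmul_eq_mul]

theorem mulPt_add (h : Unif W L π) (h' : Unif W' L' π') {a b : ℂ} (ha : Hom L L' a)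
    (hb : Hom L L' b) : mulPt π π' (a + b) = mulPt π π' a + mulPt π π' b :=
  mulPt_ext h fun z => by
    rw [AddMonoidHom.add_apply, mulPt_apply h h' (ha.add hb), mulPt_apply h h' ha,
      mulPt_apply h h' hb, add_mul, map_add]

theorem mulPt_comp (h : Unif W L π) (h' : Unif W' L' π') (h'' : Unif W'' L'' π'') {a b : ℂ}
    (ha : Hom L L' a) (hb : Hom L' L'' b) :
    mulPt π π'' (b * a) = (mulPt π' π'' b).comp (mulPt π π' a) :=
  mulPt_ext h fun z => by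
    rw [AddMonoidHom.comp_apply, mulPt_apply h h'' (hb.comp ha), mulPt_apply h h' ha,
      mulPt_apply h' h'' hb, mul_assoc]

/-- the point `π (ω₁ / l)` has exact order `l` -/
theorem Unif.order (h : Unif W L π) {l : ℕ} (hl : l ≠ 0) (k : ℤ) :
    k • π (L.ω₁ / l) = 0 ↔ (l : ℤ) ∣ k := by
  rw [← map_zsmul, h.ker, zsmul_eq_mul]
  constructor
  · intro e
    by_contra hk
    exact div_not_mem L hk hl e
  · rintro ⟨m, rfl⟩
    have h3 : (l : ℂ) ≠ 0 := by exact_mod_cast hl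
    have : (((l : ℤ) * m : ℤ) : ℂ) * (L.ω₁ / l) = m * L.ω₁ := by push_cast; field_simp
    rw [this]
    exact Hom.int L m _ L.ω₁_mem_lattice

theorem mem_ptor_iff (h : Unif W L π) (p : ℕ) (z : ℂ) :
    π z ∈ ptor p W ↔ ∃ m : ℕ, m.Coprime p ∧ (m : ℂ) * z ∈ L.lattice := by
  show (∃ m : ℕ, m.Coprime p ∧ m • π z = 0) ↔ _
  simp only [← map_nsmul, h.ker, nsmul_eq_mul]

theorem Unif.infinite_ptor (h : Unif W L π) {p : ℕ} (hp : p ≠ 0) : Infinite (ptor p W) := by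
  have hmem : ∀ n : ℕ, π (L.ω₁ / ((n * p + 1 : ℕ) : ℂ)) ∈ ptor p W := fun n =>
    ⟨n * p + 1, by simp, by
      have := (h.order (l := n * p + 1) (by omega) ((n * p + 1 : ℕ) : ℤ)).2 dvd_rfl
      rwa [natCast_zsmul] at this⟩
  refine Infinite.of_injective (fun n : ℕ => (⟨_, hmem n⟩ : ptor p W)) ?_
  intro a b e
  have e' : π (L.ω₁ / ((a * p + 1 : ℕ) : ℂ)) = π (L.ω₁ / ((b * p + 1 : ℕ) : ℂ)) :=
    congrArg Subtype.val e
  have h1 := (h.order (l := a * p + 1) (by omega) ((a * p + 1 : ℕ) : ℤ)).2 dvd_rfl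
  have h2 := (h.order (l := b * p + 1) (by omega) ((b * p + 1 : ℕ) : ℤ)).2 dvd_rfl
  rw [e', h.order (by omega)] at h1
  rw [← e', h.order (by omega)] at h2
  have := Nat.dvd_antisymm (Int.natCast_dvd_natCast.1 h1) (Int.natCast_dvd_natCast.1 h2)
  exact (Nat.eq_of_mul_eq_mul_right (Nat.pos_of_ne_zero hp) (by omega : b * p = a * p)).symm

theorem Unif.infinite (h : Unif W L π) : Infinite (Pt W) := by
  have := h.infinite_ptor (p := 1) one_ne_zero
  exact Infinite.of_injective (fun P : ptor 1 W => P.1) Subtype.val_injective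

end

theorem unifEx (h1 : S_Unif) (h2 : S_Surj) : S_UnifEx := by
  intro W hΔ
  obtain ⟨L, h4, h6⟩ := h2 W.c₄ W.c₆ (by
    intro e
    have := W.c_relation
    rw [e, sub_self] at this
    exact hΔ (by simpa using this))
  obtain ⟨π, hπ⟩ := h1 W L hΔ h4 h6
  exact ⟨L, π, hπ⟩

end Pool.Agent.P.MP_94fe55_nt
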