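import Pool.Agent.P.MP_94fe55_nt.Lat

set_option autoImplicit false

namespace Pool.Agent.P.MP_94fe55_nt

open UpperHalfPlane ModularForm EisensteinSeries Filter Topology
open scoped MatrixGroups Real

namespace Mod1P

theorem tsum_eq_E {k : ℕ} (hk : 3 ≤ k) (z : ℍ) :
    ∑' p : ℤ × ℤ, (((p.1 : ℂ) * z + (p.2 : ℂ))⁻¹) ^ k = 2 * riemannZeta k * E hk z := by
  have h1 := tsum_eisSummand_eq_riemannZeta_mul_eisensteinSeries hk z
  have h2 : E hk z = (1 / 2 : ℂ) * eisensteinSeries (N := 1) 0 k z := by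
    rw [show E hk z = (1 / 2 : ℂ) • eisensteinSeriesSIF (N := 1) 0 k z from rfl,
      eisensteinSeriesSIF_apply 0 k z, smul_eq_mul]
  rw [h2, ← (finTwoArrowEquiv ℤ).tsum_eq]
  have h3 : ∀ v : Fin 2 → ℤ, ((((finTwoArrowEquiv ℤ v).1 : ℂ) * z +
      ((finTwoArrowEquiv ℤ v).2 : ℂ))⁻¹) ^ k = eisSummand k v z := by
    intro v
    simp [eisSummand, finTwoArrowEquiv]
  rw [tsum_congr h3, h1]
  ring

theorem zeta_six : riemannZeta 6 = (π : ℂ) ^ 6 / 945 := by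
  have h := riemannZeta_two_mul_nat (k := 3) (by norm_num)
  have hb : bernoulli 6 = 1 / 42 := by decide +kernel
  norm_num [hb, Nat.factorial] at h
  rw [h]
  ring

end Mod1P

open Mod1P

/-- `g₂(τ) = (4π⁴/3) E₄(τ)` -/
theorem g2_eq_E4 (z : ℍ) : g2 z = 4 * (π : ℂ) ^ 4 / 3 * E₄ z := by
  have h := tsum_eq_E (k := 4) (by norm_num) z
  rw [g2, h]
  have : riemannZeta ((4 : ℕ) : ℂ) = (π : ℂ) ^ 4 / 90 := by
    rw [← riemannZeta_four]; norm_num
  rw [this]; ring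

/-- `g₃(τ) = (8π⁶/27) E₆(τ)` -/
theorem g3_eq_E6 (z : ℍ) : g3 z = 8 * (π : ℂ) ^ 6 / 27 * E₆ z := by
  have h := tsum_eq_E (k := 6) (by norm_num) z
  rw [g3, h]
  have : riemannZeta ((6 : ℕ) : ℂ) = (π : ℂ) ^ 6 / 945 := by
    rw [← zeta_six]; norm_num
  rw [this]; ring

/-- `g₂³ - 27 g₃² = (2π)¹² Δ` -/
theorem disc_eq_Delta (z : ℍ) :
    g2 z ^ 3 - 27 * g3 z ^ 2 = (2 * (π : ℂ)) ^ 12 * ModularForm.discriminant z := by
  rw [g2_eq_E4, g3_eq_E6, discriminant_eq_E₄_cube_sub_E₆_sq]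
  ring

/-- `J(τ) = E₄(τ)³ / Δ(τ)` -/
theorem J_eq_E4 (z : ℍ) : J z = E₄ z ^ 3 / ModularForm.discriminant z := by
  have hπ : (π : ℂ) ≠ 0 := by exact_mod_cast Real.pi_ne_zero
  have hΔ := discriminant_ne_zero z
  rw [J, disc_eq_Delta, g2_eq_E4]
  field_simp
  ring

/-- a level one modular form tends to its constant term at `i∞` -/
theorem tendsto_coeff_zero {k : ℤ} (f : ModularForm 𝒮ℒ k) :
    Tendsto f atImInfty (𝓝 ((qExpansion 1 f).coeff 0)) := by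
  have hanal := ModularFormClass.analyticAt_cuspFunction_zero f one_pos one_mem_strictPeriods_SL
  have hper := SlashInvariantFormClass.periodic_comp_ofComplex f one_mem_strictPeriods_SL
  rw [qExpansion_coeff_zero one_pos hanal hper, ← cuspFunction_apply_zero one_pos hanal hper]
  exact (hanal.continuousAt.tendsto.comp (qParam_tendsto_atImInfty one_pos)).congr
    (fun τ ↦ SlashInvariantFormClass.eq_cuspFunction f τ one_mem_strictPeriods_SL one_ne_zero)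

/-- `E₄ → 1` at `i∞` -/
theorem E4_tendsto : Tendsto (fun z : ℍ => E₄ z) atImInfty (𝓝 1) := by
  have := tendsto_coeff_zero E₄
  rwa [E_qExpansion_coeff_zero _ ⟨2, rfl⟩] at this

/-- `E₆ → 1` at `i∞` -/
theorem E6_tendsto : Tendsto (fun z : ℍ => E₆ z) atImInfty (𝓝 1) := by
  have := tendsto_coeff_zero E₆
  rwa [E_qExpansion_coeff_zero _ ⟨3, rfl⟩] at this

theorem disc : S_Disc := by
  intro L
  obtain ⟨τ, c, L0, hτ, hL0, hi⟩ := exists_tau L
  have hπ : (π : ℂ) ≠ 0 := by exact_mod_cast Real.pi_ne_zero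
  have h := disc_eq_Delta ⟨τ, hτ⟩
  have h2 : L0.g₂ = g2 τ := g2_eq hτ.ne' hL0
  have h3 : L0.g₃ = g3 τ := g3_eq hτ.ne' hL0
  have e : L.g₂ ^ 3 - 27 * L.g₃ ^ 2 =
      c ^ 12 * ((2 * (π : ℂ)) ^ 12 * ModularForm.discriminant ⟨τ, hτ⟩) := by
    rw [← h, hi.g₂, hi.g₃, h2, h3]
    show _ = c ^ 12 * (g2 τ ^ 3 - 27 * g3 τ ^ 2)
    ring
  rw [e]
  exact mul_ne_zero (pow_ne_zero _ hi.1) (mul_ne_zero
    (pow_ne_zero _ (mul_ne_zero two_ne_zero hπ)) (discriminant_ne_zero _))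

end Pool.Agent.P.MP_94fe55_nt
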