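import Pool.Agent.P.MP_94fe55_nt.Defs

set_option autoImplicit false

namespace Pool.Agent.P.MP_94fe55_nt

open Polynomial WeierstrassCurve

section

variable {F : Type} [Field F] {W : WeierstrassCurve F}

@[simp] theorem px_zero : px (0 : Pt W) = 0 := rfl
@[simp] theorem py_zero : py (0 : Pt W) = 0 := rfl
@[simp] theorem hx_zero : hx (0 : Pt W) = 1 := rfl
@[simp] theorem hz_zero : hz (0 : Pt W) = 0 := rfl
@[simp] theorem px_some {x y : F} (h : W.toAffine.Nonsingular x y) :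
    px (Affine.Point.some x y h : Pt W) = x := rfl
@[simp] theorem py_some {x y : F} (h : W.toAffine.Nonsingular x y) :
    py (Affine.Point.some x y h : Pt W) = y := rfl
@[simp] theorem hx_some {x y : F} (h : W.toAffine.Nonsingular x y) :
    hx (Affine.Point.some x y h : Pt W) = x := rfl
@[simp] theorem hz_some {x y : F} (h : W.toAffine.Nonsingular x y) :
    hz (Affine.Point.some x y h : Pt W) = 1 := rfl

theorem eq_some {P : Pt W} (h : P ≠ 0) :
    ∃ x y, ∃ hn : W.toAffine.Nonsingular x y, P = Affine.Point.some x y hn := by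
  rcases P with _ | ⟨x, y, hn⟩
  · exact absurd rfl h
  · exact ⟨x, y, hn, rfl⟩

theorem hx_of_ne {P : Pt W} (h : P ≠ 0) : hx P = px P := by
  obtain ⟨x, y, hn, rfl⟩ := eq_some h; rfl

theorem hz_of_ne {P : Pt W} (h : P ≠ 0) : hz P = 1 := by
  obtain ⟨x, y, hn, rfl⟩ := eq_some h; rfl

theorem hz_eq_zero {P : Pt W} : hz P = 0 ↔ P = 0 := by
  constructor
  · intro h
    by_contra h0
    rw [hz_of_ne h0] at h
    exact one_ne_zero h
  · rintro rfl; rfl

theorem nonsing {P : Pt W} (h : P ≠ 0) : W.toAffine.Nonsingular (px P) (py P) := by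
  obtain ⟨x, y, hn, rfl⟩ := eq_some h; exact hn

theorem eq_some' {P : Pt W} (h : P ≠ 0) : P = Affine.Point.some (px P) (py P) (nonsing h) := by
  obtain ⟨x, y, hn, rfl⟩ := eq_some h; rfl

/-- the Weierstrass equation -/
theorem weq {P : Pt W} (h : P ≠ 0) :
    py P ^ 2 + W.a₁ * px P * py P + W.a₃ * py P =
      px P ^ 3 + W.a₂ * px P ^ 2 + W.a₄ * px P + W.a₆ :=
  (Affine.equation_iff _ _).1 (nonsing h).1

theorem pY_sq {P : Pt W} (h : P ≠ 0) :
    pY P ^ 2 = 4 * px P ^ 3 + W.b₂ * px P ^ 2 + 2 * W.b₄ * px P + W.b₆ := by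
  have := weq h
  simp only [pY, b₂, b₄, b₆]
  linear_combination 4 * this

theorem F3_eval (A B : F[X]) (x : F) : (F3 W A B).eval x =
    4 * A.eval x ^ 3 + W.b₂ * A.eval x ^ 2 * B.eval x + 2 * W.b₄ * A.eval x * B.eval x ^ 2 +
      W.b₆ * B.eval x ^ 3 := by
  simp [F3]

theorem F3_X_eval (x : F) : (F3 W X 1).eval x =
    4 * x ^ 3 + W.b₂ * x ^ 2 + 2 * W.b₄ * x + W.b₆ := by
  simp [F3]

theorem pY_sq' {P : Pt W} (h : P ≠ 0) : pY P ^ 2 = (F3 W X 1).eval (px P) := by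
  rw [F3_X_eval, pY_sq h]

@[simp] theorem px_neg (P : Pt W) : px (-P) = px P := by
  rcases P with _ | ⟨x, y, hn⟩ <;> rfl

@[simp] theorem hx_neg (P : Pt W) : hx (-P) = hx P := by
  rcases P with _ | ⟨x, y, hn⟩ <;> rfl

@[simp] theorem hz_neg (P : Pt W) : hz (-P) = hz P := by
  rcases P with _ | ⟨x, y, hn⟩ <;> rfl

theorem py_neg {P : Pt W} (h : P ≠ 0) : py (-P) = -py P - W.a₁ * px P - W.a₃ := by
  obtain ⟨x, y, hn, rfl⟩ := eq_some h; rfl

theorem pY_neg {P : Pt W} (h : P ≠ 0) : pY (-P) = -pY P := by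
  simp only [pY, py_neg h, px_neg]; ring

theorem pt_ext {P Q : Pt W} (hP : P ≠ 0) (hQ : Q ≠ 0) (hx : px P = px Q) (hy : py P = py Q) :
    P = Q := by
  obtain ⟨x, y, hn, rfl⟩ := eq_some hP
  obtain ⟨x', y', hn', rfl⟩ := eq_some hQ
  simp only [px_some, py_some] at hx hy
  subst hx hy; rfl

theorem px_eq_iff {P Q : Pt W} (hP : P ≠ 0) (hQ : Q ≠ 0) : px P = px Q ↔ P = Q ∨ P = -Q := by
  obtain ⟨x, y, hn, rfl⟩ := eq_some hP
  obtain ⟨x', y', hn', rfl⟩ := eq_some hQ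
  exact Affine.Point.X_eq_iff

/-- a point with given coordinates -/
theorem exists_pt (hΔ : W.Δ ≠ 0) {x y : F}
    (h : y ^ 2 + W.a₁ * x * y + W.a₃ * y = x ^ 3 + W.a₂ * x ^ 2 + W.a₄ * x + W.a₆) :
    ∃ P : Pt W, P ≠ 0 ∧ px P = x ∧ py P = y :=
  ⟨.some x y ((Affine.equation_iff_nonsingular_of_Δ_ne_zero hΔ).1
    ((Affine.equation_iff _ _).2 h)), Affine.Point.some_ne_zero _, rfl, rfl⟩

theorem F3_X_ne_zero (hΔ : W.Δ ≠ 0) : F3 W X 1 ≠ 0 := by
  intro h
  have e : F3 W X 1 = C 4 * X ^ 3 + C W.b₂ * X ^ 2 + C (2 * W.b₄) * X + C W.b₆ := by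
    simp only [F3, map_mul, map_ofNat]; ring
  rw [e] at h
  have h3 := congrArg (coeff · 3) h
  have h2 := congrArg (coeff · 2) h
  have h1 := congrArg (coeff · 1) h
  have h0 := congrArg (coeff · 0) h
  simp only [coeff_add, coeff_C_mul, coeff_X_pow, coeff_X, coeff_C, coeff_zero] at h3 h2 h1 h0
  norm_num at h3 h2 h1 h0
  apply hΔ
  have h8 : (8 : F) = 0 := by linear_combination 2 * h3
  rw [Δ, h2, h0, h8]; ring

theorem finite_fiber (x : F) : {P : Pt W | px P = x}.Finite := by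
  by_cases h : ∃ Q : Pt W, Q ≠ 0 ∧ px Q = x
  · obtain ⟨Q, hQ, rfl⟩ := h
    refine (((Set.finite_singleton (-Q)).insert Q).insert 0).subset ?_
    intro P hP
    by_cases h0 : P = 0
    · exact Or.inl h0
    · exact Or.inr ((px_eq_iff h0 hQ).1 hP)
  · refine (Set.finite_singleton 0).subset ?_
    intro P hP
    by_contra h0
    exact h ⟨P, h0, hP⟩

theorem finite_root {G : F[X]} (hG : G ≠ 0) : {P : Pt W | G.eval (px P) = 0}.Finite := by
  have h1 : {x : F | G.IsRoot x}.Finite := Polynomial.finite_setOfPred_isRoot hG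
  refine (h1.biUnion (fun x _ => finite_fiber (W := W) x)).subset ?_
  intro P hP
  simp only [Set.mem_iUnion]
  exact ⟨px P, hP, rfl⟩

/-- the x-coordinates of infinitely many points form an infinite set -/
theorem infinite_px {S : Set (Pt W)} (hS : S.Infinite) : (px '' S).Infinite := by
  intro h
  apply hS
  refine (h.biUnion (fun x _ => finite_fiber (W := W) x)).subset ?_
  intro P hP
  simp only [Set.mem_iUnion]
  exact ⟨px P, ⟨P, hP, rfl⟩, rfl⟩

variable [DecidableEq F]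

theorem two_tors {P : Pt W} (h : P ≠ 0) : P + P = 0 ↔ pY P = 0 := by
  rw [add_eq_zero_iff_eq_neg]
  constructor
  · intro e
    have := congrArg py e
    rw [py_neg h] at this
    simp only [pY]; linear_combination this
  · intro e
    refine pt_ext h (neg_ne_zero.2 h) (px_neg P).symm ?_
    rw [py_neg h]; simp only [pY] at e; linear_combination e

theorem finite_two_tors (hΔ : W.Δ ≠ 0) : {P : Pt W | P + P = 0}.Finite := by
  refine ((finite_root (W := W) (F3_X_ne_zero hΔ)).insert 0).subset ?_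
  intro P hP
  by_cases h0 : P = 0
  · exact Or.inl h0
  · right
    show (F3 W X 1).eval (px P) = 0
    rw [← pY_sq' h0, (two_tors h0).1 hP]; simp

theorem px_ne {P Q : Pt W} (hP : P ≠ 0) (hQ : Q ≠ 0) (h1 : P + Q ≠ 0) (h2 : P - Q ≠ 0) :
    px P ≠ px Q := by
  intro h
  rcases (px_eq_iff hP hQ).1 h with e | e
  · exact h2 (by rw [e, sub_self])
  · exact h1 (by rw [e, neg_add_cancel])

/-- chord formulas -/
theorem add_chord {P Q : Pt W} (hP : P ≠ 0) (hQ : Q ≠ 0) (h : px P ≠ px Q) :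
    P + Q ≠ 0 ∧ ∃ m : F, m * (px P - px Q) = py P - py Q ∧
      px (P + Q) = m ^ 2 + W.a₁ * m - W.a₂ - px P - px Q ∧
      py (P + Q) = -(m * (px (P + Q) - px P) + py P) - W.a₁ * px (P + Q) - W.a₃ := by
  obtain ⟨x, y, hn, rfl⟩ := eq_some hP
  obtain ⟨x', y', hn', rfl⟩ := eq_some hQ
  simp only [px_some, py_some] at h ⊢
  rw [Affine.Point.add_of_X_ne h]
  refine ⟨Affine.Point.some_ne_zero _, W.toAffine.slope x x' y y', ?_, rfl, rfl⟩
  rw [Affine.slope_of_X_ne h]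
  field_simp [sub_ne_zero.2 h]

/-- tangent formulas -/
theorem add_tangent {P : Pt W} (hP : P ≠ 0) (h : pY P ≠ 0) :
    P + P ≠ 0 ∧ ∃ m : F, m * pY P = 3 * px P ^ 2 + 2 * W.a₂ * px P + W.a₄ - W.a₁ * py P ∧
      px (P + P) = m ^ 2 + W.a₁ * m - W.a₂ - px P - px P ∧
      py (P + P) = -(m * (px (P + P) - px P) + py P) - W.a₁ * px (P + P) - W.a₃ := by
  obtain ⟨x, y, hn, rfl⟩ := eq_some hP
  simp only [pY, px_some, py_some] at h ⊢
  have hy : y ≠ W.toAffine.negY x y := by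
    intro e
    apply h
    simp only [Affine.negY] at e
    linear_combination e
  rw [Affine.Point.add_self_of_Y_ne hy]
  refine ⟨Affine.Point.some_ne_zero _, W.toAffine.slope x x y y, ?_, rfl, rfl⟩
  rw [Affine.slope_of_Y_ne rfl hy]
  have e : y - W.toAffine.negY x y = 2 * y + W.a₁ * x + W.a₃ := by
    simp only [Affine.negY]; ring
  rw [e]
  exact div_mul_cancel₀ _ h

end

section

variable {F : Type} [Field F] [DecidableEq F] {W : WeierstrassCurve F}
  {Γ : Type} [AddCommGroup Γ]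

theorem finite_root' {ι : Γ →+ Pt W} (hι : Function.Injective ι) {G : F[X]} (hG : G ≠ 0) :
    {P : Γ | G.eval (px (ι P)) = 0}.Finite :=
  (finite_root (W := W) hG).preimage hι.injOn

theorem poly_eq_zero [Infinite Γ] {ι : Γ →+ Pt W} (hι : Function.Injective ι) {G : F[X]}
    (h : {P : Γ | G.eval (px (ι P)) ≠ 0}.Finite) : G = 0 := by
  by_contra hG
  have := (finite_root' hι hG).union h
  refine Set.infinite_univ (α := Γ) (this.subset ?_)
  intro P _
  by_cases e : G.eval (px (ι P)) = 0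
  · exact Or.inl e
  · exact Or.inr e

theorem hom_eq_zero [Infinite Γ] {Γ' : Type} [AddCommGroup Γ'] {φ : Γ →+ Γ'}
    (h : {P : Γ | φ P ≠ 0}.Finite) : φ = 0 := by
  ext P
  have h2 : {Q : Γ | φ (P + Q) ≠ 0}.Finite :=
    h.preimage (f := fun Q => P + Q) (add_right_injective P).injOn
  obtain ⟨Q, hQ⟩ := (h.union h2).exists_notMem
  simp only [Set.mem_union, Set.mem_ofPred_eq, not_or, not_not] at hQ
  have := hQ.2
  rw [map_add, hQ.1, add_zero] at this
  simpa using this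

/-- a homomorphism with finite kernel has finite fibres over finite sets -/
theorem finite_preimage {Γ' : Type} [AddCommGroup Γ'] {φ : Γ →+ Γ'}
    (h : {P : Γ | φ P = 0}.Finite) {S : Set Γ'} (hS : S.Finite) : (φ ⁻¹' S).Finite := by
  refine hS.preimage' ?_
  intro b _
  by_cases hb : ∃ a, φ a = b
  · obtain ⟨a, rfl⟩ := hb
    refine (h.image (fun Q => a + Q)).subset ?_
    intro Q hQ
    refine ⟨Q - a, ?_, by simp⟩
    simp only [Set.mem_preimage, Set.mem_singleton_iff] at hQ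
    simp [hQ]
  · refine Set.finite_empty.subset ?_
    intro Q hQ
    exact hb ⟨Q, hQ⟩

end

section

variable {F : Type} [Field F] [DecidableEq F] {W : WeierstrassCurve F}

theorem chord_mul {P Q : Pt W} (hP : P ≠ 0) (hQ : Q ≠ 0) (h : px P ≠ px Q) :
    px (P + Q) * (px P - px Q) ^ 2 =
      (py P - py Q) ^ 2 + W.a₁ * (py P - py Q) * (px P - px Q) -
        (W.a₂ + px P + px Q) * (px P - px Q) ^ 2 := by
  obtain ⟨-, m, hm, hx, -⟩ := add_chord hP hQ h
  rw [hx, ← hm]; ring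

theorem addsub_gen {P Q : Pt W} (hP : P ≠ 0) (hQ : Q ≠ 0) (h : px P ≠ px Q) :
    (px (P + Q) + px (P - Q)) * (px P - px Q) ^ 2 = S1 W.b₂ W.b₄ W.b₆ (px P) 1 (px Q) 1 ∧
    px (P + Q) * px (P - Q) * (px P - px Q) ^ 2 = S2 W.b₄ W.b₆ W.b₈ (px P) 1 (px Q) 1 ∧
    (px (P - Q) - px (P + Q)) * (px P - px Q) ^ 2 = pY P * pY Q := by
  have h1 := chord_mul hP hQ h
  have h2 := chord_mul hP (neg_ne_zero.2 hQ) (by rwa [px_neg])
  rw [← sub_eq_add_neg, px_neg, py_neg hQ] at h2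
  have e1 := weq hP
  have e2 := weq hQ
  have hd : (px P - px Q) ^ 2 ≠ 0 := pow_ne_zero _ (sub_ne_zero.2 h)
  refine ⟨?_, ?_, ?_⟩
  · simp only [S1, b₂, b₄, b₆]
    linear_combination h1 + h2 + 2 * e1 + 2 * e2
  · apply mul_left_cancel₀ hd
    have : (px P - px Q) ^ 2 * (px (P + Q) * px (P - Q) * (px P - px Q) ^ 2) =
        (px (P + Q) * (px P - px Q) ^ 2) * (px (P - Q) * (px P - px Q) ^ 2) := by ring
    rw [this, h1, h2]
    simp only [S2, b₄, b₆, b₈]
    linear_combination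
      ((py P ^ 2 + W.a₁ * px P * py P + W.a₃ * py P) +
        (px P ^ 3 + W.a₂ * px P ^ 2 + W.a₄ * px P + W.a₆) -
        2 * (py Q ^ 2 + W.a₁ * px Q * py Q + W.a₃ * py Q) -
        2 * (W.a₂ + px P + px Q) * (px P - px Q) ^ 2 +
        (W.a₁ * px P + W.a₃) * (W.a₁ * px Q + W.a₃) - (W.a₁ * px Q + W.a₃) ^ 2) * e1 +
      ((py Q ^ 2 + W.a₁ * px Q * py Q + W.a₃ * py Q) +
        (px Q ^ 3 + W.a₂ * px Q ^ 2 + W.a₄ * px Q + W.a₆) -
        2 * (px P ^ 3 + W.a₂ * px P ^ 2 + W.a₄ * px P + W.a₆) -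
        2 * (W.a₂ + px P + px Q) * (px P - px Q) ^ 2 +
        (W.a₁ * px P + W.a₃) * (W.a₁ * px Q + W.a₃) - (W.a₁ * px P + W.a₃) ^ 2) * e2
  · simp only [pY]
    linear_combination h2 - h1

theorem double_mul {P : Pt W} (hP : P ≠ 0) (h : pY P ≠ 0) :
    px (P + P) * pY P ^ 2 = S2 W.b₄ W.b₆ W.b₈ (px P) 1 (px P) 1 := by
  obtain ⟨-, m, hm, hx, -⟩ := add_tangent hP h
  have e1 := weq hP
  have : px (P + P) * pY P ^ 2 =
      (m * pY P) ^ 2 + W.a₁ * (m * pY P) * pY P - (W.a₂ + 2 * px P) * pY P ^ 2 := by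
    rw [hx]; ring
  rw [this, hm]
  simp only [S2, b₄, b₆, b₈, pY]
  linear_combination (-W.a₁ ^ 2 - 4 * W.a₂ - 8 * px P) * e1

omit [DecidableEq F] in
theorem S1_self {P : Pt W} (hP : P ≠ 0) : S1 W.b₂ W.b₄ W.b₆ (px P) 1 (px P) 1 = pY P ^ 2 := by
  rw [pY_sq hP]; simp only [S1]; ring

omit [DecidableEq F] in
theorem S2_self_ne (hΔ : W.Δ ≠ 0) {x : F} (h : S1 W.b₂ W.b₄ W.b₆ x 1 x 1 = 0) :
    S2 W.b₄ W.b₆ W.b₈ x 1 x 1 ≠ 0 := by
  intro h2
  apply hΔ
  simp only [S1, S2] at h h2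
  have hb := W.b_relation
  rw [Δ]
  linear_combination (-12 * (x + x) ^ 2 - 4 * W.b₂ * (x + x) + (W.b₂ ^ 2 - 32 * W.b₄)) * h2 +
    (6 * (x * x) * (x + x) - W.b₂ * (x * x) - 5 * W.b₄ * (x + x) + (W.b₂ * W.b₄ - 27 * W.b₆)) * h +
    (-12 * x ^ 2 - 2 * W.b₂ * x - 8 * W.b₄) * hb

theorem addSub : S_AddSub := by
  intro F _ _ W hΔ P Q
  constructor
  · by_cases hP : P = 0
    · subst hP
      by_cases hQ : Q = 0
      · subst hQ
        exact ⟨1, one_ne_zero, by simp [S0], by simp [S1], by simp [S2]⟩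
      · refine ⟨1, one_ne_zero, ?_, ?_, ?_⟩ <;>
          simp [S0, S1, S2, hx_of_ne hQ, hz_of_ne hQ] <;> ring
    by_cases hQ : Q = 0
    · subst hQ
      refine ⟨1, one_ne_zero, ?_, ?_, ?_⟩ <;>
        simp [S0, S1, S2, hx_of_ne hP, hz_of_ne hP] <;> ring
    rw [hx_of_ne hP, hz_of_ne hP, hx_of_ne hQ, hz_of_ne hQ]
    by_cases h : px P = px Q
    · have key : ∃ l : F, l ≠ 0 ∧ S0 (px P) 1 (px P) 1 = l * (hz (P + P) * hz (0 : Pt W)) ∧
          S1 W.b₂ W.b₄ W.b₆ (px P) 1 (px P) 1 =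
            l * (hx (P + P) * hz (0 : Pt W) + hx (0 : Pt W) * hz (P + P)) ∧
          S2 W.b₄ W.b₆ W.b₈ (px P) 1 (px P) 1 = l * (hx (P + P) * hx (0 : Pt W)) := by
        by_cases hY : pY P = 0
        · have h2 := (two_tors hP).2 hY
          have h1 : S1 W.b₂ W.b₄ W.b₆ (px P) 1 (px P) 1 = 0 := by rw [S1_self hP, hY]; simp
          refine ⟨_, S2_self_ne hΔ h1, ?_, ?_, ?_⟩
          · simp [S0]
          · rw [h2, h1]; simp
          · rw [h2]; simp
        · have h2 := (add_tangent hP hY).1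
          refine ⟨pY P ^ 2, pow_ne_zero _ hY, ?_, ?_, ?_⟩
          · simp [S0]
          · rw [S1_self hP, hz_of_ne h2]; simp
          · rw [← double_mul hP hY, hx_of_ne h2]; simp [mul_comm]
      rcases (px_eq_iff hP hQ).1 h with e | e
      · subst e
        rw [sub_self]; exact key
      · have e' : Q = -P := by rw [e, neg_neg]
        subst e'
        rw [add_neg_cancel, sub_neg_eq_add, px_neg]
        obtain ⟨l, h0, h1, h2, h3⟩ := key
        exact ⟨l, h0, by rw [h1]; ring, by rw [h2]; ring, by rw [h3]; ring⟩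
    · have h1 := (add_chord hP hQ h).1
      have h2 := (add_chord hP (neg_ne_zero.2 hQ) (by rwa [px_neg])).1
      rw [← sub_eq_add_neg] at h2
      obtain ⟨g1, g2, -⟩ := addsub_gen hP hQ h
      rw [hx_of_ne h1, hz_of_ne h1, hx_of_ne h2, hz_of_ne h2]
      refine ⟨(px P - px Q) ^ 2, pow_ne_zero _ (sub_ne_zero.2 h), ?_, ?_, ?_⟩
      · simp [S0]
      · rw [← g1]; ring
      · rw [← g2]; ring
  · intro hP hQ h1 h2
    obtain ⟨g1, -, g3⟩ := addsub_gen hP hQ (px_ne hP hQ h1 h2)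
    linear_combination g1 + g3

end

end Pool.Agent.P.MP_94fe55_nt
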