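import Pool.Agent.P.MP_94fe55_nt.All

/-! Quantitative form of the p-adic bound. -/

set_option autoImplicit false

namespace Pool.Agent.P.MP_94fe55_nt

open Finset Filter
open scoped NNReal

namespace QuantP

theorem div_explicit {ε : ℝ} (hε : 0 < ε) (n : ℕ) (hn : n ≠ 0) : (n.divisors.card : ℝ) ≤
    (1 + (ε * Real.log 2)⁻¹) ^ ⌈(2 : ℝ) ^ (ε⁻¹)⌉₊ * (n : ℝ) ^ ε := by
  have hl2 : 0 < Real.log 2 := Real.log_pos one_lt_two
  set c : ℝ := 1 + (ε * Real.log 2)⁻¹ with hc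
  have hc1 : 1 ≤ c := by
    have : 0 < (ε * Real.log 2)⁻¹ := by positivity
    linarith
  set N : ℕ := ⌈(2 : ℝ) ^ (ε⁻¹)⌉₊ with hN
  have key : ∀ p ∈ n.primeFactors, ((n.factorization p + 1 : ℕ) : ℝ) ≤
      (if p < N then c else 1) * ((p : ℝ) ^ n.factorization p) ^ ε := by
    intro p hp
    have hpp := Nat.prime_of_mem_primeFactors hp
    have hp2 : (2 : ℝ) ≤ p := by exact_mod_cast hpp.two_le
    set a := n.factorization p
    have e1 : ((p : ℝ) ^ a) ^ ε = ((p : ℝ) ^ ε) ^ a := by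
      rw [← Real.rpow_natCast, ← Real.rpow_mul (by positivity), mul_comm,
        Real.rpow_mul (by positivity), Real.rpow_natCast]
    split_ifs with h
    · have h1 : (2 : ℝ) ^ ε ≤ (p : ℝ) ^ ε := Real.rpow_le_rpow (by norm_num) hp2 hε.le
      have h2 : ((2 : ℝ) ^ ε) ^ a ≤ ((p : ℝ) ^ ε) ^ a := pow_le_pow_left₀ (by positivity) h1 a
      have h3 : ((2 : ℝ) ^ ε) ^ a = Real.exp (a * (ε * Real.log 2)) := by
        rw [Real.rpow_def_of_pos two_pos, ← Real.exp_nat_mul]; ring_nf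
      have h4 := Real.add_one_le_exp (a * (ε * Real.log 2))
      have h5 : (0 : ℝ) < ε * Real.log 2 := by positivity
      have h6 : (a : ℝ) + 1 ≤ c * (a * (ε * Real.log 2) + 1) := by
        rw [hc]
        have : (ε * Real.log 2)⁻¹ * (a * (ε * Real.log 2)) = a := by field_simp
        have h7 : (0 : ℝ) ≤ a * (ε * Real.log 2) := by positivity
        have h8 : 0 < (ε * Real.log 2)⁻¹ := by positivity
        nlinarith
      push_cast
      rw [e1]
      calc (a : ℝ) + 1 ≤ c * (a * (ε * Real.log 2) + 1) := h6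
        _ ≤ c * ((p : ℝ) ^ ε) ^ a := by
          refine mul_le_mul_of_nonneg_left ?_ (by linarith)
          linarith
    · have h1 : (2 : ℝ) ^ (ε⁻¹) ≤ p := (Nat.le_ceil _).trans (by exact_mod_cast not_lt.1 h)
      have h2 : (2 : ℝ) ≤ (p : ℝ) ^ ε := by
        have := Real.rpow_le_rpow (by positivity) h1 hε.le
        rwa [← Real.rpow_mul (by norm_num), inv_mul_cancel₀ hε.ne', Real.rpow_one] at this
      have h3 : a + 1 ≤ 2 ^ a := Nat.lt_two_pow_self
      rw [one_mul, e1]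
      calc ((a + 1 : ℕ) : ℝ) ≤ (2 : ℝ) ^ a := by exact_mod_cast h3
        _ ≤ _ := pow_le_pow_left₀ (by norm_num) h2 a
  rw [Nat.card_divisors hn, Nat.cast_prod]
  refine (Finset.prod_le_prod (fun _ _ => by positivity) key).trans ?_
  rw [Finset.prod_mul_distrib, Real.finsetProd_rpow _ _ (fun _ _ => by positivity)]
  have e2 : ∏ p ∈ n.primeFactors, (p : ℝ) ^ n.factorization p = n := by
    conv_rhs => rw [← Nat.prod_factorization_pow_eq_self hn]
    rw [Finsupp.prod, Nat.support_factorization]; push_cast; rfl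
  rw [e2]
  refine mul_le_mul_of_nonneg_right ?_ (by positivity)
  rw [Finset.prod_ite, Finset.prod_const_one, mul_one, Finset.prod_const]
  refine pow_le_pow_right₀ hc1 ?_
  calc (n.primeFactors.filter fun p => p < N).card ≤ (range N).card :=
        Finset.card_le_card fun p hp => Finset.mem_range.2 (Finset.mem_filter.1 hp).2
    _ = N := Finset.card_range N

theorem reps_explicit {ε : ℝ} (hε : 0 < ε) (g : ℤ) (hg : 0 < g) : (reps g : ℝ) ≤
    15 * ((1 + (ε * Real.log 2)⁻¹) ^ ⌈(2 : ℝ) ^ (ε⁻¹)⌉₊) ^ 2 * (g : ℝ) ^ (2 * ε) := by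
  obtain ⟨n, rfl⟩ := Int.eq_ofNat_of_zero_le hg.le
  have hn : 0 < n := by exact_mod_cast hg
  have h1 := RepsP.all n hn (reps_finite n).toFinset (fun ξ hξ => by simpa using hξ)
  have h2 : reps n = (reps_finite n).toFinset.card := Set.ncard_eq_toFinset_card _ _
  have h3 := div_explicit hε n hn.ne'
  have h4 : ((n : ℝ) ^ ε) ^ 2 = (n : ℝ) ^ (2 * ε) := by
    rw [← Real.rpow_natCast, ← Real.rpow_mul (by positivity), mul_comm]
    norm_num
  have h5 : (reps n : ℝ) ≤ 15 * (n.divisors.card : ℝ) ^ 2 := by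
    rw [h2, sq, ← mul_assoc]
    exact_mod_cast h1
  have h6 := pow_le_pow_left₀ (by positivity) h3 2
  rw [mul_pow, h4] at h6
  push_cast
  nlinarith

open FormsP in
theorem cm_disc {τ : ℂ} {a b c : ℤ} (hτ : 0 < τ.im) (ha : 0 < a)
    (hp : ∀ d : ℤ, d ∣ a → d ∣ b → d ∣ c → d ∣ 1)
    (e : (a : ℂ) * τ ^ 2 + (b : ℂ) * τ + (c : ℂ) = 0) :
    ∃ D : ℕ, (D : ℤ) = 4 * a * c - b ^ 2 ∧ Disc D ∧ J τ ∈ VV D := by
  have ha' : (0 : ℝ) < a := by exact_mod_cast ha
  have e1 := congrArg Complex.re e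
  have e2 := congrArg Complex.im e
  simp only [pow_two, Complex.add_re, Complex.mul_re, Complex.intCast_re, Complex.intCast_im,
    zero_mul, sub_zero, Complex.zero_re, Complex.add_im, Complex.mul_im, add_zero,
    Complex.zero_im] at e1 e2
  have hb : (b : ℝ) = -(2 * a * τ.re) := mul_right_cancel₀ hτ.ne' (by linear_combination e2)
  have hD : ((4 * a * c - b ^ 2 : ℤ) : ℝ) = (2 * a * τ.im) ^ 2 := by
    push_cast
    linear_combination (4 * (a : ℝ)) * e1 - ((b : ℝ) + 2 * a * τ.re) * hb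
  have hpos : 0 < 4 * a * c - b ^ 2 := by
    have : (0 : ℝ) < ((4 * a * c - b ^ 2 : ℤ) : ℝ) := by rw [hD]; positivity
    exact_mod_cast this
  obtain ⟨D, hD'⟩ : ∃ D : ℕ, (D : ℤ) = 4 * a * c - b ^ 2 := ⟨_, Int.toNat_of_nonneg hpos.le⟩
  have hx : ∃ β : ℤ, Disc D ∧ 2 * β + ((D % 2 : ℕ) : ℤ) = -b := by
    obtain ⟨k, hk | hk⟩ := Int.even_or_odd' b
    · have h4 : (D : ℤ) = 4 * (a * c - k ^ 2) := by rw [hD', hk]; ring
      generalize a * c - k ^ 2 = t at h4
      exact ⟨-k, ⟨by omega, by omega⟩, by omega⟩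
    · have h4 : (D : ℤ) = 4 * (a * c - k ^ 2 - k - 1) + 3 := by rw [hD', hk]; ring
      generalize a * c - k ^ 2 - k - 1 = t at h4
      exact ⟨-k - 1, ⟨by omega, by omega⟩, by omega⟩
  obtain ⟨β, h, hβ⟩ := hx
  have hg : gg D β = a * c := by
    have := four_gg h β
    rw [hβ, hD'] at this
    linarith
  have hprim : Prim D a β := by
    refine ⟨⟨ha, c, hg⟩, fun d d1 d2 d3 => hp d d1 ?_ ?_⟩
    · rw [hβ] at d2
      exact (dvd_neg).1 d2
    · rwa [hg, Int.mul_ediv_cancel_left _ ha.ne'] at d3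
  have ht : τ = tau D a β := by
    have ha2 : (a : ℂ) ≠ 0 := by exact_mod_cast ha.ne'
    apply mul_left_cancel₀ ha2
    rw [mul_tau ha.ne']
    apply Complex.ext
    · have := z_re D β
      rw [hβ] at this
      simp only [Complex.mul_re, Complex.intCast_re, Complex.intCast_im, zero_mul, sub_zero]
      push_cast at this
      linear_combination (1 / 2) * hb - (1 / 2) * this
    · rw [z_im, th_im]
      have h5 : (D : ℝ) = (2 * a * τ.im) ^ 2 := by rw [← hD, ← hD']; simp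
      rw [h5, Real.sqrt_sq (by positivity)]
      simp only [Complex.mul_im, Complex.intCast_re, Complex.intCast_im, zero_mul, add_zero]
      ring
  exact ⟨D, hD', h, ht ▸ prim' h hprim⟩

open PadicP in
theorem padic_core {ε η K C : ℝ} (hε : 0 < ε) (hη : 0 < η) (hη1 : η ≤ 1) (hK : 0 < K)
    (hR : ∀ g : ℤ, 0 < g → (reps g : ℝ) ≤ K * (g : ℝ) ^ (η / 8))
    (hCe : C = 30 * (K * 1296 ^ (η / 8))) {D : ℕ} (e2 : 48 ≤ D) (hdisc : Disc D)
    (e3 : 24 * Real.log D * C ≤ ε * (D : ℝ) ^ (η / 4)) {p : ℕ} (V : Place p) (hp : p.Prime)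
    (T : Finset ℂ) (hT : ∀ y ∈ T, y ∈ VV D ∧ y ≠ 0) :
    ∑ y ∈ T, -Real.log (V.v y) ≤
      ε * Real.sqrt D + T.card * (12 * (Real.log 16 + η * Real.log D)) := by
  have hC0 : 0 < C := by rw [hCe]; positivity
  obtain ⟨D', -, hD', hcore⟩ := core_all p V D hp hdisc
  have hD48 : (48 : ℝ) ≤ D := by exact_mod_cast e2
  have hD1 : (1 : ℝ) ≤ D := by linarith
  have hDp : (0 : ℝ) < D := by linarith
  have hL : 0 ≤ Real.log D := Real.log_nonneg hD1
  have all : ∀ y ∈ T, -Real.log (V.v y) ≤ 24 * Real.log D := by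
    intro y hy
    have h1 : ¬ V.v y * (16 * ((p ^ Nat.log p (3 * D) : ℕ) : ℝ≥0)) ^ 12 < 1 := by
      intro hlt
      have := hcore (Nat.log p (3 * D) + 1) (by omega) {y} (fun z hz => by
        rw [mem_singleton.1 hz]
        refine ⟨(hT y hy).1, (hT y hy).2, ?_⟩
        simpa using hlt)
      rw [cnt_zero hD' (Nat.lt_pow_succ_log_self hp.one_lt _)] at this
      simp at this
    have h2 := log_le (pow_pos hp.pos _) (Nat.pow_log_le_self p (by omega)) h1
    have h3 : Real.log (16 * ((3 * D : ℕ) : ℝ)) ≤ Real.log (D ^ 2) := by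
      refine Real.log_le_log (by positivity) ?_
      push_cast
      nlinarith
    rw [Real.log_pow] at h3
    push_cast at h2 h3
    linarith
  obtain ⟨M, hM⟩ : ∃ M, M = ⌊(D : ℝ) ^ η⌋₊ := ⟨_, rfl⟩
  have hM1 : 1 ≤ M := by
    rw [hM]
    exact Nat.le_floor (by simpa using Real.one_le_rpow hD1 hη.le)
  have hM2 : (M : ℝ) ≤ (D : ℝ) ^ η := by rw [hM]; exact Nat.floor_le (by positivity)
  have hM3 : (D : ℝ) ^ η ≤ M + 1 := by rw [hM]; exact (Nat.lt_floor_add_one _).le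
  obtain ⟨g, hg⟩ : ∃ g, g = Nat.log p M := ⟨_, rfl⟩
  have g1 : p ^ g ≤ M := by rw [hg]; exact Nat.pow_log_le_self p (by omega)
  have g2 : M < p ^ (g + 1) := by rw [hg]; exact Nat.lt_pow_succ_log_self hp.one_lt _
  have hq : (D : ℝ) ^ (η / 2) ≤ (p : ℝ) ^ ((g + 1 + 1) / 2) := by
    refine (abs_le_of_sq_le_sq' ?_ (by positivity)).2
    have b1 : ((D : ℝ) ^ (η / 2)) ^ 2 = (D : ℝ) ^ η := by
      rw [← Real.rpow_natCast, ← Real.rpow_mul hDp.le]
      norm_num
    have b2 : p ^ (g + 1) ≤ (p ^ ((g + 1 + 1) / 2)) ^ 2 := by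
      rw [← pow_mul]
      exact Nat.pow_le_pow_right hp.pos (by omega)
    have b3 : M + 1 ≤ (p ^ ((g + 1 + 1) / 2)) ^ 2 := by omega
    have b4 : (M : ℝ) + 1 ≤ ((p : ℝ) ^ ((g + 1 + 1) / 2)) ^ 2 := by exact_mod_cast b3
    rw [b1]
    linarith
  set P : ℂ → Prop := fun y => V.v y * (16 * ((p ^ g : ℕ) : ℝ≥0)) ^ 12 < 1 with hP
  classical
  have c1 := hcore (g + 1) (by omega) (T.filter P) (fun y hy => by
    obtain ⟨h1, h2⟩ := mem_filter.1 hy
    refine ⟨(hT y h1).1, (hT y h1).2, ?_⟩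
    simpa [hP] using h2)
  have c2 := cnt_le hp (h := g + 1) (by omega) hD' (by positivity) hK.le hR
  have c3 : ((T.filter P).card : ℝ) * (D : ℝ) ^ (η / 4) ≤ C * Real.sqrt D := by
    have a1 : ((T.filter P).card : ℝ) ≤ cnt p (g + 1) D' := by exact_mod_cast c1
    have a2 : (1296 * (D : ℝ) ^ 2) ^ (η / 8) = 1296 ^ (η / 8) * (D : ℝ) ^ (η / 4) := by
      rw [Real.mul_rpow (by norm_num) (by positivity), ← Real.rpow_natCast,
        ← Real.rpow_mul hDp.le]
      congr 2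
      push_cast
      ring
    have a3 : (D : ℝ) ^ (η / 4) * (D : ℝ) ^ (η / 4) = (D : ℝ) ^ (η / 2) := by
      rw [← Real.rpow_add hDp]; congr 1; ring
    have a4 : (D : ℝ) ^ (η / 2) ≤ Real.sqrt D := by
      rw [Real.sqrt_eq_rpow]
      exact Real.rpow_le_rpow_of_exponent_le hD1 (by linarith)
    have a5 : 0 < (D : ℝ) ^ (η / 2) := by positivity
    have a6 : 2 * (7 * Real.sqrt D) / (p : ℝ) ^ ((g + 1 + 1) / 2) * (D : ℝ) ^ (η / 2) ≤
        14 * Real.sqrt D := by
      have : 2 * (7 * Real.sqrt D) / (p : ℝ) ^ ((g + 1 + 1) / 2) ≤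
          2 * (7 * Real.sqrt D) / (D : ℝ) ^ (η / 2) :=
        div_le_div_of_nonneg_left (by positivity) a5 hq
      rw [le_div_iff₀ a5] at this
      linarith
    rw [a2] at c2
    calc _ ≤ (2 * (2 * (7 * Real.sqrt D) / (p : ℝ) ^ ((g + 1 + 1) / 2) + 1) *
          (K * (1296 ^ (η / 8) * (D : ℝ) ^ (η / 4)))) * (D : ℝ) ^ (η / 4) :=
          mul_le_mul_of_nonneg_right (a1.trans c2) (by positivity)
      _ = 2 * (2 * (7 * Real.sqrt D) / (p : ℝ) ^ ((g + 1 + 1) / 2) * (D : ℝ) ^ (η / 2) +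
          (D : ℝ) ^ (η / 2)) * (K * 1296 ^ (η / 8)) := by rw [← a3]; ring
      _ ≤ 2 * (14 * Real.sqrt D + Real.sqrt D) * (K * 1296 ^ (η / 8)) := by gcongr
      _ = C * Real.sqrt D := by rw [hCe]; ring
  rw [← sum_filter_add_sum_filter_not T P]
  have s1 : ∑ y ∈ T.filter P, -Real.log (V.v y) ≤ ε * Real.sqrt D := by
    refine (sum_le_card_nsmul _ _ (24 * Real.log D)
      (fun y hy => all y (mem_filter.1 hy).1)).trans ?_
    rw [nsmul_eq_mul]
    refine le_of_mul_le_mul_left ?_ hC0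
    calc _ = ((T.filter P).card : ℝ) * (24 * Real.log D * C) := by ring
      _ ≤ ((T.filter P).card : ℝ) * (ε * (D : ℝ) ^ (η / 4)) := by gcongr
      _ = ε * (((T.filter P).card : ℝ) * (D : ℝ) ^ (η / 4)) := by ring
      _ ≤ ε * (C * Real.sqrt D) := by gcongr
      _ = _ := by ring
  have s2 : ∑ y ∈ T.filter (fun y => ¬ P y), -Real.log (V.v y) ≤
      T.card * (12 * (Real.log 16 + η * Real.log D)) := by
    refine (sum_le_card_nsmul _ _ (12 * (Real.log 16 + η * Real.log D)) (fun y hy => ?_)).trans ?_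
    · have h1 := log_le (pow_pos hp.pos _) g1 (mem_filter.1 hy).2
      have hM0 : (0 : ℝ) < M := by exact_mod_cast hM1
      have h2 : Real.log (16 * M) ≤ Real.log 16 + η * Real.log D := by
        rw [Real.log_mul (by norm_num) hM0.ne', ← Real.log_rpow hDp]
        linarith [Real.log_le_log hM0 hM2]
      linarith
    · rw [nsmul_eq_mul]
      have : ((T.filter (fun y => ¬ P y)).card : ℝ) ≤ T.card := by
        exact_mod_cast card_filter_le _ _
      have h16 : 0 ≤ Real.log 16 := Real.log_nonneg (by norm_num)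
      exact mul_le_mul_of_nonneg_right this (by positivity)
  linarith

end QuantP

end Pool.Agent.P.MP_94fe55_nt
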