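import Pool.Agent.P.MP_94fe55_nt.Quant1

/-! The p-part of the norm of a singular modulus. -/

set_option autoImplicit false

namespace Pool.Agent.P.MP_94fe55_nt

open Finset Filter Polynomial
open scoped NNReal

namespace QuantP

theorem numeric {l : ℝ} (hl : 1000 ≤ l) :
    24 * Real.exp l * (30 * (15 * ((1 + (l⁻¹ * Real.log 2)⁻¹) ^ ⌈(2 : ℝ) ^ (l⁻¹⁻¹)⌉₊) ^ 2 *
      1296 ^ (16 / l / 8))) ≤ l⁻¹ * Real.exp (Real.exp l * (16 / l / 4)) := by
  have l0 : 0 < l := by linarith
  have a1 := Real.log_two_gt_d9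
  have a2 := Real.log_two_lt_d9
  rw [inv_inv]
  set t : ℝ := (2 : ℝ) ^ l with ht
  have t1 : 1 ≤ t := Real.one_le_rpow one_le_two l0.le
  have b1 : 1 + (l⁻¹ * Real.log 2)⁻¹ ≤ Real.exp (2 * l) := by
    have : (l⁻¹ * Real.log 2)⁻¹ ≤ 2 * l := by
      rw [mul_inv, inv_inv, mul_comm]
      refine mul_le_mul_of_nonneg_right ?_ l0.le
      rw [inv_le_comm₀ (by linarith) two_pos]
      linarith
    linarith [Real.add_one_le_exp (2 * l)]
  have b2 : ((1 + (l⁻¹ * Real.log 2)⁻¹) ^ ⌈t⌉₊) ^ 2 ≤ Real.exp (8 * l * t) := by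
    have c1 : (⌈t⌉₊ : ℝ) ≤ 2 * t := by linarith [Nat.ceil_lt_add_one (zero_le_one.trans t1)]
    refine (pow_le_pow_left₀ (by positivity) (pow_le_pow_left₀ (by positivity) b1 _) 2).trans ?_
    rw [← Real.exp_nat_mul, ← Real.exp_nat_mul]
    refine Real.exp_le_exp.2 ?_
    push_cast
    nlinarith
  have b3 : (1296 : ℝ) ^ (16 / l / 8) ≤ 1296 := by
    refine (Real.rpow_le_rpow_of_exponent_le (by norm_num) ?_).trans_eq (Real.rpow_one _)
    rw [div_div, div_le_one (by positivity)]
    linarith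
  have b4 : 13996800 ≤ Real.exp l := by
    have := Real.pow_div_factorial_le_exp l l0.le 3
    have c1 : (1000 : ℝ) ^ 3 ≤ l ^ 3 := pow_le_pow_left₀ (by norm_num) hl 3
    norm_num [Nat.factorial] at this c1
    linarith
  have b5 : l ≤ Real.exp l := by linarith [Real.add_one_le_exp l]
  have b6 : 11 * l * t ≤ Real.exp l * (16 / l / 4) := by
    have c1 : t ≤ Real.exp (0.7 * l) := by
      rw [ht, Real.rpow_def_of_pos two_pos]
      exact Real.exp_le_exp.2 (by nlinarith)
    have c2 := Real.pow_div_factorial_le_exp (0.3 * l) (by positivity) 3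
    norm_num [Nat.factorial] at c2
    have c3 : Real.exp l = Real.exp (0.7 * l) * Real.exp (0.3 * l) := by
      rw [← Real.exp_add]; congr 1; ring
    have c4 : 3 * l ^ 2 ≤ Real.exp (0.3 * l) := by
      have : (0.3 : ℝ) * l = 3 / 10 * l := by norm_num
      rw [this]
      nlinarith [mul_le_mul_of_nonneg_right hl (sq_nonneg l)]
    have c5 := mul_le_mul c1 c4 (by positivity) (by positivity)
    rw [show Real.exp l * (16 / l / 4) = 4 * Real.exp l / l by ring, le_div_iff₀ l0, c3]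
    nlinarith [mul_nonneg (zero_le_one.trans t1) (sq_nonneg l)]
  rw [le_inv_mul_iff₀ l0]
  calc _ ≤ l * (24 * Real.exp l * (30 * (15 * Real.exp (8 * l * t) * 1296))) := by gcongr
    _ = 13996800 * l * Real.exp l * Real.exp (8 * l * t) := by ring
    _ ≤ Real.exp l * Real.exp l * Real.exp l * Real.exp (8 * l * t) := by gcongr
    _ = Real.exp (3 * l + 8 * l * t) := by
      rw [← Real.exp_add, ← Real.exp_add, ← Real.exp_add]; congr 1; ring
    _ ≤ _ := Real.exp_le_exp.2 (by nlinarith)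

theorem padic_quant {D : ℕ} (hD : 1000 ≤ Real.log (Real.log D)) (hdisc : Disc D) {p : ℕ}
    (V : Place p) (hp : p.Prime) (T : Finset ℂ) (hT : ∀ y ∈ T, y ∈ VV D ∧ y ≠ 0) :
    (∑ y ∈ T, -Real.log (V.v y)) * Real.log (Real.log D) ≤
      228 * (Real.sqrt D + T.card * Real.log D) := by
  have D1 : (1 : ℝ) ≤ D := by exact_mod_cast hdisc.1
  have L0 : 0 < Real.log D := (Real.log_nonneg D1).lt_of_ne fun h => by
    rw [← h, Real.log_zero] at hD
    norm_num at hD
  have a1 := Real.log_le_sub_one_of_pos L0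
  have a2 := Real.log_le_sub_one_of_pos (zero_lt_one.trans_le D1)
  set l := Real.log (Real.log D) with hl
  have l0 : 0 < l := by linarith
  have h := padic_core (ε := l⁻¹) (η := 16 / l)
    (K := 15 * ((1 + (l⁻¹ * Real.log 2)⁻¹) ^ ⌈(2 : ℝ) ^ (l⁻¹⁻¹)⌉₊) ^ 2) (by positivity) (by positivity)
    (by rw [div_le_one l0]; linarith) (by positivity)
    (fun g hg => (reps_explicit (ε := l⁻¹) (by positivity) g hg).trans_eq
      (by congr 2; ring)) rfl (by exact_mod_cast (by linarith : (48 : ℝ) ≤ D)) hdisc (by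
      have := numeric hD
      rw [hl, Real.exp_log L0, ← hl] at this
      rwa [Real.rpow_def_of_pos (zero_lt_one.trans_le D1)]) V hp T hT
  have a3 : Real.log 16 ≤ 3 := by
    rw [show (16 : ℝ) = 2 ^ 4 by norm_num, Real.log_pow]
    push_cast
    linarith [Real.log_two_lt_d9]
  have a4 : (l⁻¹ * Real.sqrt D + T.card * (12 * (Real.log 16 + 16 / l * Real.log D))) * l =
      Real.sqrt D + T.card * (12 * (Real.log 16 * l + 16 * Real.log D)) := by
    field_simp
  have a5 : Real.log 16 * l ≤ 3 * Real.log D := by nlinarith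
  have a6 : (T.card : ℝ) * (12 * (Real.log 16 * l + 16 * Real.log D)) ≤
      T.card * (228 * Real.log D) := mul_le_mul_of_nonneg_left (by linarith) (by positivity)
  have a7 := Real.sqrt_nonneg D
  have a8 := mul_le_mul_of_nonneg_right h l0.le
  linarith

theorem log_v {p : ℕ} (V : Place p) (hp : p.Prime) {q : ℚ} (hq : q ≠ 0) :
    -Real.log (V.v q) = padicValRat p q * Real.log p := by
  have m0 : q.num.natAbs ≠ 0 := Int.natAbs_ne_zero.2 (Rat.num_ne_zero.2 hq)
  have e2 : V.v (q.num : ℂ) = V.v (q.num.natAbs : ℂ) := by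
    rcases Int.natAbs_eq q.num with e3 | e3
    · conv_lhs => rw [e3]
      simp
    · conv_lhs => rw [e3]
      simp
  have p0 : (0 : ℝ) < p := by exact_mod_cast hp.pos
  rw [Rat.cast_def, map_div₀, e2, V.v_nat hp m0, V.v_nat hp q.den_nz, padicValRat, padicValInt,
    Nat.factorization_def _ hp, Nat.factorization_def _ hp]
  simp only [NNReal.coe_div, NNReal.coe_inv, NNReal.coe_pow, NNReal.coe_natCast]
  rw [Real.log_div (by positivity) (by positivity), Real.log_inv, Real.log_inv, Real.log_pow,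
    Real.log_pow]
  rw [Int.cast_sub, Int.cast_natCast, Int.cast_natCast]
  ring

theorem main : ∃ (C : ℝ) (D₀ : ℕ), 0 < C ∧ ∀ D : ℕ, D₀ ≤ D → Disc D → ∀ x ∈ VV D, ∀ N : ℚ,
    N = Algebra.norm ℚ (IntermediateField.AdjoinSimple.gen ℚ x) →
    (∀ p : ℕ, p.Prime →
      padicValRat p N * Real.log p * Real.log (Real.log D) < C * Real.log |(N : ℝ)|) ∧
    ∀ S : Finset ℕ, (∀ p ∈ S, p.Prime) → ∀ n : ℕ, IsIntegral ℤ ((∏ p ∈ S, (p : ℂ)) ^ n * x⁻¹) →
      Real.log (Real.log D) < C * S.card := by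
  classical
  obtain ⟨c, D1, hc, h1⟩ := arch_all
  obtain ⟨D2, h2⟩ := eventually_atTop.1 (((Real.tendsto_log_atTop.comp Real.tendsto_log_atTop).comp
    tendsto_natCast_atTop_atTop).eventually_ge_atTop 1000)
  refine ⟨229 / c, max D1 D2, by positivity, fun D hle hD x hx N hN => ?_⟩
  have hl : 1000 ≤ Real.log (Real.log D) := h2 D ((le_max_right _ _).trans hle)
  have hfin : {y | y ∈ VV D ∧ y ≠ 0}.Finite := (fin D hD).subset fun y hy => VV_subset D hy.1
  set T := hfin.toFinset with hTdef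
  have hT' : ∀ y, y ∈ T ↔ y ∈ VV D ∧ y ≠ 0 := fun y => hfin.mem_toFinset
  have h4 := h1 D ((le_max_left _ _).trans hle) hD T hT'
  have h5 : 0 < Real.sqrt D + T.card * Real.log D := by
    have k1 : (1 : ℝ) ≤ D := by exact_mod_cast hD.1
    have k2 := Real.log_nonneg k1
    have k3 : 0 < Real.sqrt D := Real.sqrt_pos.2 (by linarith)
    positivity
  have x0 : x ≠ 0 := by
    rintro rfl
    rw [sum_eq_zero fun y hy => ?_] at h4
    · exact (mul_pos hc h5).not_ge h4
    · obtain ⟨σ, rfl⟩ := trans_all D 0 y hD hx ((hT' y).1 hy).1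
      simp
  have halg : IsAlgebraic ℚ x := aut.2.1 x ((fin D hD).subset (by
    rintro _ ⟨σ, rfl⟩
    exact VV_subset D ((stab_all D σ x hD).1 hx)))
  have hprod : (N : ℂ) = ∏ y ∈ T, y := by
    have e1 := IntermediateField.AdjoinSimple.norm_gen_eq_prod_roots (F := ℂ) x
      (IsAlgClosed.splits ((minpoly ℚ x).map (algebraMap ℚ ℂ)))
    have e2 : ((minpoly ℚ x).aroots ℂ).Nodup :=
      nodup_roots ((minpoly.irreducible halg.isIntegral).separable.map)
    have e3 : ((minpoly ℚ x).aroots ℂ).toFinset = T := by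
      ext y
      rw [Multiset.mem_toFinset, mem_aroots, hT']
      constructor
      · rintro ⟨-, h⟩
        obtain ⟨σ, rfl⟩ := aut.1 x y halg h
        exact ⟨(stab_all D σ x hD).1 hx, by simpa using x0⟩
      · rintro ⟨h, -⟩
        obtain ⟨σ, rfl⟩ := trans_all D x y hD hx h
        refine ⟨minpoly.ne_zero halg.isIntegral, ?_⟩
        exact (aeval_algHom_apply σ.toRingHom.toRatAlgHom x _).trans (by simp)
    rw [← e3, prod_eq_multiset_prod, Multiset.toFinset_val, e2.dedup, Multiset.map_id', ← e1, hN]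
    rfl
  have N0 : (N : ℂ) ≠ 0 := hprod ▸ prod_ne_zero_iff.2 fun y hy => ((hT' y).1 hy).2
  have hn : Real.log ‖(N : ℂ)‖ = ∑ y ∈ T, Real.log ‖y‖ := by
    rw [hprod, norm_prod, Real.log_prod fun y hy => by simpa using ((hT' y).1 hy).2]
  have hv : ∀ (p : ℕ) (V : Place p), p.Prime → -Real.log (V.v N) * Real.log (Real.log D) ≤
      228 / c * Real.log ‖(N : ℂ)‖ := fun p V hp => by
    have := padic_quant hl hD V hp T fun y hy => (hT' y).1 hy
    rw [hn, hprod, map_prod, NNReal.coe_prod, Real.log_prod fun y hy => by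
      simpa using ((hT' y).1 hy).2, ← sum_neg_distrib, div_mul_eq_mul_div, le_div_iff₀ hc]
    nlinarith
  have hpos : 0 < Real.log ‖(N : ℂ)‖ := hn ▸ (mul_pos hc h5).trans_le h4
  have hlt : 228 / c < 229 / c := div_lt_div_of_pos_right (by norm_num) hc
  refine ⟨fun p hp => ?_, fun S hS n hint => ?_⟩
  · obtain ⟨V⟩ := place p hp
    have := hv p V hp
    rw [log_v V hp (by exact_mod_cast N0), Complex.norm_ratCast] at this
    rw [Complex.norm_ratCast] at hpos
    exact this.trans_lt (mul_lt_mul_of_pos_right hlt hpos)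
  · set P : ℂ := ∏ p ∈ S, (p : ℂ) with hPdef
    have hint' : ∀ y ∈ T, IsIntegral ℤ (P ^ n * y⁻¹) := by
      intro y hy
      obtain ⟨σ, rfl⟩ := trans_all D x y hD hx ((hT' y).1 hy).1
      have := hint.map σ.toRingHom.toIntAlgHom
      simpa [hPdef] using this
    have hI : IsIntegral ℤ (P ^ (n * T.card) * (N : ℂ)⁻¹) := by
      have := IsIntegral.prod _ hint'
      rwa [prod_mul_distrib, prod_const, prod_inv_distrib, ← pow_mul, ← hprod] at this
    have hrat : P ^ (n * T.card) * (N : ℂ)⁻¹ =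
        algebraMap ℚ ℂ ((∏ p ∈ S, (p : ℚ)) ^ (n * T.card) * N⁻¹) := by
      rw [hPdef]; simp
    rw [hrat, isIntegral_algebraMap_iff (algebraMap ℚ ℂ).injective,
      IsIntegrallyClosed.isIntegral_iff] at hI
    obtain ⟨m, hm⟩ := hI
    have hm' : (N : ℂ) * m = P ^ (n * T.card) := by
      have : (m : ℂ) = P ^ (n * T.card) * (N : ℂ)⁻¹ := by
        rw [hrat, ← hm]; simp
      rw [this]; field_simp
    have m0 : m ≠ 0 := by
      rintro rfl
      rw [Int.cast_zero, mul_zero] at hm'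
      refine pow_ne_zero _ (prod_ne_zero_iff.2 fun q hq => ?_) hm'.symm
      exact_mod_cast (hS q hq).ne_zero
    have l0 : 0 < Real.log (Real.log D) := by linarith
    have h3 := FinalP.product place S hS m0 hm'
      (b := 228 / c * Real.log ‖(N : ℂ)‖ / Real.log (Real.log D))
      fun p hp V => (le_div_iff₀ l0).2 (hv p V (hS p hp))
    rw [← mul_div_assoc, le_div_iff₀ l0] at h3
    have h6 : Real.log (Real.log D) ≤ 228 / c * S.card :=
      le_of_mul_le_mul_left (h3.trans_eq (by ring)) hpos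
    refine h6.trans_lt (mul_lt_mul_of_pos_right hlt (lt_of_le_of_ne (Nat.cast_nonneg _) fun h => ?_))
    rw [← h, mul_zero] at h6
    linarith

end QuantP

end Pool.Agent.P.MP_94fe55_nt
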