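import Pool.Agent.P.MP_94fe55_nt.Lat

set_option autoImplicit false

namespace Pool.Agent.P.MP_94fe55_nt

open Polynomial WeierstrassCurve
open scoped NNReal

namespace Place

variable {p : ℕ} (V : Place p)

/-! ### reduction of numbers -/

theorem red_of_le {a : ℂ} (h : V.v a ≤ 1) : V.red a = IsLocalRing.residue V.O ⟨a, h⟩ := by
  simp only [red, dif_pos h]

theorem red_coe (a : V.O) : V.red a = IsLocalRing.residue V.O a := V.red_of_le a.2

@[simp] theorem red_zero : V.red 0 = 0 := by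
  rw [V.red_of_le (by simp)]; exact map_zero _

@[simp] theorem red_one : V.red 1 = 1 := by
  rw [V.red_of_le (by simp)]; exact map_one _

variable {V}

theorem le_add {a b : ℂ} {r : ℝ≥0} (ha : V.v a ≤ r) (hb : V.v b ≤ r) : V.v (a + b) ≤ r :=
  V.v.map_add_le ha hb

theorem le_sub {a b : ℂ} {r : ℝ≥0} (ha : V.v a ≤ r) (hb : V.v b ≤ r) : V.v (a - b) ≤ r :=
  V.v.map_sub_le ha hb

theorem le_mul {a b : ℂ} {r : ℝ≥0} (ha : V.v a ≤ 1) (hb : V.v b ≤ r) : V.v (a * b) ≤ r := by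
  rw [map_mul]; exact (mul_le_mul' ha hb).trans (by simp)

theorem le_mul' {a b : ℂ} {r : ℝ≥0} (ha : V.v a ≤ r) (hb : V.v b ≤ 1) : V.v (a * b) ≤ r := by
  rw [mul_comm]; exact le_mul hb ha

theorem le_pow {a : ℂ} (ha : V.v a ≤ 1) (n : ℕ) : V.v (a ^ n) ≤ 1 := by
  rw [map_pow]; exact pow_le_one₀ zero_le ha

theorem le_neg {a : ℂ} {r : ℝ≥0} (ha : V.v a ≤ r) : V.v (-a) ≤ r := by rwa [V.v.map_neg]

theorem red_add {a b : ℂ} (ha : V.v a ≤ 1) (hb : V.v b ≤ 1) :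
    V.red (a + b) = V.red a + V.red b := by
  rw [V.red_of_le ha, V.red_of_le hb, V.red_of_le (le_add ha hb), ← map_add]; rfl

theorem red_mul {a b : ℂ} (ha : V.v a ≤ 1) (hb : V.v b ≤ 1) :
    V.red (a * b) = V.red a * V.red b := by
  rw [V.red_of_le ha, V.red_of_le hb, V.red_of_le (le_mul ha hb), ← map_mul]; rfl

theorem red_neg {a : ℂ} (ha : V.v a ≤ 1) : V.red (-a) = -V.red a := by
  rw [V.red_of_le ha, V.red_of_le (le_neg ha), ← map_neg]; rfl

theorem red_sub {a b : ℂ} (ha : V.v a ≤ 1) (hb : V.v b ≤ 1) :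
    V.red (a - b) = V.red a - V.red b := by
  rw [sub_eq_add_neg, red_add ha (le_neg hb), red_neg hb, sub_eq_add_neg]

theorem red_pow {a : ℂ} (ha : V.v a ≤ 1) (n : ℕ) : V.red (a ^ n) = V.red a ^ n := by
  induction n with
  | zero => simp
  | succ n ih => rw [pow_succ, red_mul (le_pow ha n) ha, ih, pow_succ]

theorem red_sum {ι : Type} (s : Finset ι) {g : ι → ℂ} (h : ∀ i ∈ s, V.v (g i) ≤ 1) :
    V.red (∑ i ∈ s, g i) = ∑ i ∈ s, V.red (g i) := by
  classical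
  induction s using Finset.induction_on with
  | empty => simp
  | insert a s ha ih =>
    rw [Finset.sum_insert ha, Finset.sum_insert ha, red_add (h a (by simp))
      (V.v.map_sum_le fun i hi => h i (by simp [hi])), ih fun i hi => h i (by simp [hi])]

variable (V)

theorem v_nat_le (n : ℕ) : V.v n ≤ 1 := by
  induction n with
  | zero => simp
  | succ n ih => push_cast; exact le_add ih (by simp)

theorem v_int_le (n : ℤ) : V.v n ≤ 1 := by
  rcases Int.eq_nat_or_neg n with ⟨m, rfl | rfl⟩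
  · simpa using V.v_nat_le m
  · simpa using V.v_nat_le m

theorem v_ofNat_le (n : ℕ) [n.AtLeastTwo] : V.v (OfNat.ofNat n : ℂ) ≤ 1 := V.v_nat_le n

@[simp] theorem red_nat (n : ℕ) : V.red n = n := by
  induction n with
  | zero => simp
  | succ n ih => push_cast; rw [red_add (V.v_nat_le n) (by simp), ih, red_one]

@[simp] theorem red_int (n : ℤ) : V.red n = n := by
  rcases Int.eq_nat_or_neg n with ⟨m, rfl | rfl⟩
  · simp
  · push_cast; rw [red_neg (V.v_nat_le m), red_nat]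

@[simp] theorem red_ofNat (n : ℕ) [n.AtLeastTwo] :
    V.red (OfNat.ofNat n : ℂ) = (OfNat.ofNat n : V.k) := V.red_nat n

variable {V}

theorem red_eq_zero {a : ℂ} (h : V.v a ≤ 1) : V.red a = 0 ↔ V.v a < 1 := by
  rw [V.red_of_le h, IsLocalRing.residue_eq_zero_iff, ValuationSubring.valuation_lt_one_iff]
  exact ((V.v.isEquiv_valuation_valuationSubring).lt_one_iff_lt_one).symm

theorem red_ne_zero {a : ℂ} (h : V.v a ≤ 1) : V.red a ≠ 0 ↔ V.v a = 1 := by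
  rw [Ne, red_eq_zero h, not_lt]
  exact ⟨fun e => le_antisymm h e, fun e => e.ge⟩

theorem red_eq_iff {a b : ℂ} (ha : V.v a ≤ 1) (hb : V.v b ≤ 1) :
    V.red a = V.red b ↔ V.v (a - b) < 1 := by
  rw [← red_eq_zero (le_sub ha hb), red_sub ha hb, sub_eq_zero]

theorem red_surj (t : V.k) : ∃ a, V.v a ≤ 1 ∧ V.red a = t := by
  obtain ⟨a, rfl⟩ := IsLocalRing.residue_surjective (R := V.O) t
  exact ⟨a, a.2, V.red_coe a⟩

theorem red_inv {a : ℂ} (h : V.v a = 1) : V.red a⁻¹ = (V.red a)⁻¹ := by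
  have h0 : a ≠ 0 := by
    rintro rfl
    simp at h
  have h1 : V.v a⁻¹ ≤ 1 := by rw [map_inv₀, h]; simp
  apply eq_inv_of_mul_eq_one_right
  rw [← red_mul h.le h1, mul_inv_cancel₀ h0, red_one]

theorem red_div {a b : ℂ} (ha : V.v a ≤ 1) (hb : V.v b = 1) :
    V.red (a / b) = V.red a / V.red b := by
  rw [div_eq_mul_inv, red_mul ha (by rw [map_inv₀, hb]; simp), red_inv hb, div_eq_mul_inv]

variable (V)

theorem v_p_lt (hp : p.Prime) : V.v p < 1 := by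
  rw [V.vp]
  exact inv_lt_one_of_one_lt₀ (by exact_mod_cast hp.one_lt)

theorem charP (hp : p.Prime) : CharP V.k p := by
  have : Fact p.Prime := ⟨hp⟩
  refine (CharP.charP_iff_prime_eq_zero hp).2 ?_
  rw [← V.red_nat, red_eq_zero (V.v_nat_le p)]
  exact V.v_p_lt hp

theorem v_nat_eq_one (hp : p.Prime) {n : ℕ} (h : ¬ p ∣ n) : V.v n = 1 := by
  have := V.charP hp
  rw [← red_ne_zero (V.v_nat_le n), red_nat, Ne, CharP.cast_eq_zero_iff V.k p]
  exact h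

theorem v_int_eq_one (hp : p.Prime) {n : ℤ} (h : ¬ (p : ℤ) ∣ n) : V.v n = 1 := by
  have := V.charP hp
  rw [← red_ne_zero (V.v_int_le n), red_int, Ne, CharP.intCast_eq_zero_iff V.k p]
  exact h

theorem v_coprime (hp : p.Prime) {n : ℕ} (h : n.Coprime p) : V.v n = 1 :=
  V.v_nat_eq_one hp ((Nat.Prime.coprime_iff_not_dvd hp).1 h.symm)

theorem v_nat (hp : p.Prime) {n : ℕ} (hn : n ≠ 0) :
    V.v n = ((p : ℝ≥0) ^ n.factorization p)⁻¹ := by
  have h := Nat.ordProj_mul_ordCompl_eq_self n p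
  have h2 := V.v_nat_eq_one hp (Nat.not_dvd_ordCompl hp hn)
  conv_lhs => rw [← h]
  rw [Nat.cast_mul, map_mul, h2, mul_one, Nat.cast_pow, map_pow, V.vp, inv_pow]

theorem pow_dvd_of_v_lt (hp : p.Prime) {n h : ℕ} (hv : V.v n * (p : ℝ≥0) ^ h < 1) :
    p ^ (h + 1) ∣ n := by
  by_cases hn : n = 0
  · simp [hn]
  rw [V.v_nat hp hn] at hv
  have h1 : (1 : ℝ≥0) < p := by exact_mod_cast hp.one_lt
  have h0 : (0 : ℝ≥0) < (p : ℝ≥0) ^ n.factorization p := pow_pos (zero_lt_one.trans h1) _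
  rw [inv_mul_lt_iff₀ h0, mul_one, pow_lt_pow_iff_right₀ h1] at hv
  exact (hp.pow_dvd_iff_le_factorization hn).2 hv

theorem half_le_v_two (hp : p.Prime) : 1 ≤ 2 * V.v 2 := by
  by_cases h : p = 2
  · subst h
    have := V.vp
    simp only [Nat.cast_ofNat] at this
    rw [this]; simp
  · have : V.v ((2 : ℕ) : ℂ) = 1 := V.v_nat_eq_one hp fun e =>
      h ((Nat.prime_dvd_prime_iff_eq hp Nat.prime_two).1 e)
    simp only [Nat.cast_ofNat] at this
    rw [this]; norm_num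

theorem v_om : V.v om = 1 := by
  have : V.v om ^ 3 = 1 := by rw [← map_pow, om_cube, map_one]
  exact (pow_eq_one_iff_of_nonneg zero_le (by norm_num)).1 this

/-! ### the Gauss norm -/

theorem coeff_le_gn (G : ℂ[X]) (i : ℕ) : V.v (G.coeff i) ≤ V.gn G := by
  have := G.le_gaussNorm V.av (c := 1) zero_le_one i
  rw [one_pow, mul_one] at this
  exact_mod_cast this

theorem exists_coeff_eq_gn (G : ℂ[X]) : ∃ i, V.gn G = V.v (G.coeff i) := by
  obtain ⟨i, hi⟩ := G.exists_eq_gaussNorm V.av 1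
  rw [one_pow, mul_one] at hi
  exact ⟨i, Subtype.ext hi⟩

variable {V}

theorem gn_le_iff {G : ℂ[X]} {r : ℝ≥0} : V.gn G ≤ r ↔ ∀ i, V.v (G.coeff i) ≤ r := by
  refine ⟨fun h i => (V.coeff_le_gn G i).trans h, fun h => ?_⟩
  obtain ⟨i, hi⟩ := V.exists_coeff_eq_gn G
  rw [hi]; exact h i

theorem gn_lt_iff {G : ℂ[X]} {r : ℝ≥0} : V.gn G < r ↔ ∀ i, V.v (G.coeff i) < r := by
  refine ⟨fun h i => (V.coeff_le_gn G i).trans_lt h, fun h => ?_⟩
  obtain ⟨i, hi⟩ := V.exists_coeff_eq_gn G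
  rw [hi]; exact h i

theorem gn_eq_zero {G : ℂ[X]} : V.gn G = 0 ↔ G = 0 := by
  refine ⟨fun h => ?_, fun h => by simp [h]⟩
  ext i
  have := V.coeff_le_gn G i
  rw [h] at this
  simpa using this

@[simp] theorem gn_C (a : ℂ) : V.gn (C a) = V.v a :=
  Subtype.ext (Polynomial.gaussNorm_C V.av 1 a)

@[simp] theorem gn_X : V.gn X = 1 := by
  apply le_antisymm
  · rw [gn_le_iff]; intro i; rw [coeff_X]; split_ifs <;> simp
  · simpa using V.coeff_le_gn X 1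

theorem gn_nat_le (n : ℕ) : V.gn (n : ℂ[X]) ≤ 1 := by
  rw [← C_eq_natCast, gn_C]; exact V.v_nat_le n

theorem gn_ofNat_le (n : ℕ) [n.AtLeastTwo] : V.gn (OfNat.ofNat n : ℂ[X]) ≤ 1 := gn_nat_le n

theorem gn_X_sub_C (a : ℂ) : V.gn (X - C a) = max 1 (V.v a) := by
  apply le_antisymm
  · simpa using V.gn.map_sub X (C a)
  · apply max_le
    · have := V.coeff_le_gn (X - C a) 1
      rwa [coeff_sub, coeff_X_one, coeff_C_of_ne_zero one_ne_zero, sub_zero, map_one] at this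
    · have := V.coeff_le_gn (X - C a) 0
      rwa [coeff_sub, coeff_X_zero, coeff_C_zero, zero_sub, V.v.map_neg] at this

theorem gn_add {G H : ℂ[X]} {r : ℝ≥0} (hG : V.gn G ≤ r) (hH : V.gn H ≤ r) : V.gn (G + H) ≤ r :=
  V.gn.map_add_le hG hH

theorem gn_sub {G H : ℂ[X]} {r : ℝ≥0} (hG : V.gn G ≤ r) (hH : V.gn H ≤ r) : V.gn (G - H) ≤ r :=
  V.gn.map_sub_le hG hH

theorem gn_mul {G H : ℂ[X]} {r : ℝ≥0} (hG : V.gn G ≤ 1) (hH : V.gn H ≤ r) :
    V.gn (G * H) ≤ r := by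
  rw [map_mul]; exact (mul_le_mul' hG hH).trans (by simp)

theorem gn_mul' {G H : ℂ[X]} {r : ℝ≥0} (hG : V.gn G ≤ r) (hH : V.gn H ≤ 1) :
    V.gn (G * H) ≤ r := by
  rw [mul_comm]; exact gn_mul hH hG

theorem gn_pow {G : ℂ[X]} (hG : V.gn G ≤ 1) (n : ℕ) : V.gn (G ^ n) ≤ 1 := by
  rw [map_pow]; exact pow_le_one₀ zero_le hG

theorem gn_neg {G : ℂ[X]} {r : ℝ≥0} (hG : V.gn G ≤ r) : V.gn (-G) ≤ r := by rwa [V.gn.map_neg]

theorem one_le_gn {G : ℂ[X]} (h : G.Monic) : 1 ≤ V.gn G := by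
  have := V.coeff_le_gn G G.natDegree
  rwa [h.coeff_natDegree, map_one] at this

theorem gn_derivative_le (G : ℂ[X]) : V.gn (derivative G) ≤ V.gn G := by
  rw [gn_le_iff]
  intro i
  rw [coeff_derivative]
  refine le_mul' (V.coeff_le_gn G _) ?_
  exact_mod_cast V.v_nat_le (i + 1)

theorem v_eval_le' (G : ℂ[X]) (x : ℂ) {n : ℕ} (hn : G.natDegree ≤ n) :
    V.v (G.eval x) ≤ V.gn G * max 1 (V.v x) ^ n := by
  rw [eval_eq_sum_range]
  refine V.v.map_sum_le fun i hi => ?_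
  rw [map_mul, map_pow]
  refine mul_le_mul' (V.coeff_le_gn G i) ?_
  refine (pow_le_pow_left₀ zero_le (le_max_right 1 _) i).trans ?_
  exact pow_le_pow_right₀ (le_max_left _ _) (by have := Finset.mem_range.1 hi; omega)

theorem v_eval_le (G : ℂ[X]) {x : ℂ} (hx : V.v x ≤ 1) : V.v (G.eval x) ≤ V.gn G := by
  simpa [max_eq_left hx] using v_eval_le' (V := V) G x le_rfl

theorem gn_comp_le (G : ℂ[X]) {H : ℂ[X]} (hH : V.gn H ≤ 1) : V.gn (G.comp H) ≤ V.gn G := by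
  rw [comp, eval₂_eq_sum_range]
  refine V.gn.map_sum_le fun i _ => ?_
  exact gn_mul' (by rw [gn_C]; exact V.coeff_le_gn G i) (gn_pow hH i)

theorem v_pow_sub_pow {x y : ℂ} (hx : V.v x ≤ 1) (hy : V.v y ≤ 1) (i : ℕ) :
    V.v (x ^ i - y ^ i) ≤ V.v (x - y) := by
  induction i with
  | zero => simp
  | succ i ih =>
    have : x ^ (i + 1) - y ^ (i + 1) = x * (x ^ i - y ^ i) + (x - y) * y ^ i := by ring
    rw [this]
    exact le_add (le_mul hx ih) (le_mul' le_rfl (le_pow hy i))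

theorem v_eval_sub_le {G : ℂ[X]} (hG : V.gn G ≤ 1) {x y : ℂ} (hx : V.v x ≤ 1) (hy : V.v y ≤ 1) :
    V.v (G.eval x - G.eval y) ≤ V.v (x - y) := by
  rw [eval_eq_sum_range, eval_eq_sum_range, ← Finset.sum_sub_distrib]
  refine V.v.map_sum_le fun i _ => ?_
  rw [← mul_sub]
  exact le_mul ((V.coeff_le_gn G i).trans hG) (v_pow_sub_pow hx hy i)

/-- a monic integral polynomial at a non-integral point -/
theorem v_eval_monic {G : ℂ[X]} (hm : G.Monic) (hG : V.gn G ≤ 1) {x : ℂ} (hx : 1 < V.v x) :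
    V.v (G.eval x) = V.v x ^ G.natDegree := by
  rw [eval_eq_sum_range, Finset.sum_range_succ_comm, hm.coeff_natDegree, one_mul]
  rw [V.v.map_add_eq_of_lt_left, map_pow]
  refine V.v.map_sum_lt (by simp; intro h; simp [h] at hx) fun i hi => ?_
  rw [map_mul, map_pow, map_pow]
  refine (mul_le_of_le_one_left' ((V.coeff_le_gn G i).trans hG)).trans_lt ?_
  exact pow_lt_pow_right₀ hx (Finset.mem_range.1 hi)

theorem root_le_one {G : ℂ[X]} (hm : G.Monic) (hG : V.gn G ≤ 1) {x : ℂ} (hx : G.eval x = 0) :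
    V.v x ≤ 1 := by
  by_contra h
  have h1 := not_le.1 h
  have := v_eval_monic hm hG h1
  rw [hx, map_zero] at this
  exact (pow_pos (zero_lt_one.trans h1) _).ne this

/-! ### reduction of polynomials -/

@[simp] theorem coeff_redP (G : ℂ[X]) (i : ℕ) : (V.redP G).coeff i = V.red (G.coeff i) := by
  simp only [redP, Polynomial.sum, finsetSum_coeff, coeff_monomial]
  rw [Finset.sum_ite_eq']
  split_ifs with h
  · rfl
  · rw [notMem_support_iff.1 h, red_zero]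

@[simp] theorem redP_zero : V.redP 0 = 0 := by ext i; simp

@[simp] theorem redP_C (a : ℂ) : V.redP (C a) = C (V.red a) := by
  ext i; simp only [coeff_redP, coeff_C]; split_ifs <;> simp

@[simp] theorem redP_one : V.redP 1 = 1 := by simpa using redP_C (V := V) 1

@[simp] theorem redP_X : V.redP X = X := by
  ext i; simp only [coeff_redP, coeff_X]; split_ifs <;> simp

theorem redP_add {G H : ℂ[X]} (hG : V.gn G ≤ 1) (hH : V.gn H ≤ 1) :
    V.redP (G + H) = V.redP G + V.redP H := by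
  ext i; simp [red_add (gn_le_iff.1 hG i) (gn_le_iff.1 hH i)]

theorem redP_neg {G : ℂ[X]} (hG : V.gn G ≤ 1) : V.redP (-G) = -V.redP G := by
  ext i; simp [red_neg (gn_le_iff.1 hG i)]

theorem redP_sub {G H : ℂ[X]} (hG : V.gn G ≤ 1) (hH : V.gn H ≤ 1) :
    V.redP (G - H) = V.redP G - V.redP H := by
  ext i; simp [red_sub (gn_le_iff.1 hG i) (gn_le_iff.1 hH i)]

theorem redP_mul {G H : ℂ[X]} (hG : V.gn G ≤ 1) (hH : V.gn H ≤ 1) :
    V.redP (G * H) = V.redP G * V.redP H := by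
  ext i
  simp only [coeff_redP, coeff_mul]
  rw [red_sum _ fun c _ => le_mul (gn_le_iff.1 hG _) (gn_le_iff.1 hH _)]
  exact Finset.sum_congr rfl fun c _ => red_mul (gn_le_iff.1 hG _) (gn_le_iff.1 hH _)

theorem redP_pow {G : ℂ[X]} (hG : V.gn G ≤ 1) (n : ℕ) : V.redP (G ^ n) = V.redP G ^ n := by
  induction n with
  | zero => simp
  | succ n ih => rw [pow_succ, redP_mul (gn_pow hG n) hG, ih, pow_succ]

theorem redP_nat (n : ℕ) : V.redP (n : ℂ[X]) = n := by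
  rw [← C_eq_natCast, redP_C, red_nat, C_eq_natCast]

theorem redP_ofNat (n : ℕ) [n.AtLeastTwo] :
    V.redP (OfNat.ofNat n : ℂ[X]) = (OfNat.ofNat n : V.k[X]) := redP_nat n

theorem gn_prod_le {ι : Type} (s : Finset ι) {g : ι → ℂ[X]} (h : ∀ i ∈ s, V.gn (g i) ≤ 1) :
    V.gn (∏ i ∈ s, g i) ≤ 1 := by
  rw [map_prod]; exact Finset.prod_le_one' h

theorem redP_prod {ι : Type} (s : Finset ι) {g : ι → ℂ[X]} (h : ∀ i ∈ s, V.gn (g i) ≤ 1) :
    V.redP (∏ i ∈ s, g i) = ∏ i ∈ s, V.redP (g i) := by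
  classical
  induction s using Finset.induction_on with
  | empty => simp
  | insert a s ha ih =>
    rw [Finset.prod_insert ha, Finset.prod_insert ha, redP_mul (h a (by simp))
      (gn_prod_le s fun i hi => h i (by simp [hi])), ih fun i hi => h i (by simp [hi])]

theorem redP_X_sub_C {a : ℂ} (h : V.v a ≤ 1) : V.redP (X - C a) = X - C (V.red a) := by
  rw [redP_sub (by simp) (by simpa using h), redP_X, redP_C]

theorem redP_derivative {G : ℂ[X]} (hG : V.gn G ≤ 1) :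
    V.redP (derivative G) = derivative (V.redP G) := by
  ext i
  simp only [coeff_redP, coeff_derivative]
  have h : V.v ((i : ℂ) + 1) ≤ 1 := by exact_mod_cast V.v_nat_le (i + 1)
  rw [red_mul (gn_le_iff.1 hG _) h, red_add (V.v_nat_le i) (by simp), red_nat, red_one]

theorem redP_eq_zero {G : ℂ[X]} (hG : V.gn G ≤ 1) : V.redP G = 0 ↔ V.gn G < 1 := by
  rw [gn_lt_iff, Polynomial.ext_iff]
  simp only [coeff_redP, coeff_zero]
  exact forall_congr' fun i => red_eq_zero (gn_le_iff.1 hG i)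

theorem redP_ne_zero {G : ℂ[X]} (hG : V.gn G ≤ 1) : V.redP G ≠ 0 ↔ V.gn G = 1 := by
  rw [Ne, redP_eq_zero hG, not_lt]
  exact ⟨fun e => le_antisymm hG e, fun e => e.ge⟩

theorem redP_eq_iff {G H : ℂ[X]} (hG : V.gn G ≤ 1) (hH : V.gn H ≤ 1) :
    V.redP G = V.redP H ↔ V.gn (G - H) < 1 := by
  rw [← redP_eq_zero (gn_sub hG hH), redP_sub hG hH, sub_eq_zero]

theorem natDegree_redP_le (G : ℂ[X]) : (V.redP G).natDegree ≤ G.natDegree := by
  rw [natDegree_le_iff_coeff_eq_zero]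
  intro i hi
  rw [coeff_redP, coeff_eq_zero_of_natDegree_lt hi, red_zero]

theorem degree_redP_le (G : ℂ[X]) : (V.redP G).degree ≤ G.degree := by
  rw [degree_le_iff_coeff_zero]
  intro i hi
  rw [coeff_redP, coeff_eq_zero_of_degree_lt hi, red_zero]

theorem natDegree_redP {G : ℂ[X]} (h : V.v G.leadingCoeff = 1) :
    (V.redP G).natDegree = G.natDegree := by
  refine le_antisymm (natDegree_redP_le G) (le_natDegree_of_ne_zero ?_)
  rw [coeff_redP]
  exact (red_ne_zero h.le).2 h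

theorem natDegree_redP_monic {G : ℂ[X]} (h : G.Monic) : (V.redP G).natDegree = G.natDegree :=
  natDegree_redP (by rw [h.leadingCoeff, map_one])

theorem monic_redP {G : ℂ[X]} (h : G.Monic) : (V.redP G).Monic := by
  rw [Monic, leadingCoeff, natDegree_redP_monic h, coeff_redP, h.coeff_natDegree, red_one]

theorem natDegree_redP_lt {G : ℂ[X]} (h : V.v G.leadingCoeff < 1) (h0 : V.redP G ≠ 0) :
    (V.redP G).natDegree < G.natDegree := by
  refine lt_of_le_of_ne (natDegree_redP_le G) fun e => ?_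
  have := leadingCoeff_ne_zero.2 h0
  rw [leadingCoeff, e, coeff_redP] at this
  exact this ((red_eq_zero h.le).2 h)

theorem eval_redP {G : ℂ[X]} (hG : V.gn G ≤ 1) {x : ℂ} (hx : V.v x ≤ 1) :
    (V.redP G).eval (V.red x) = V.red (G.eval x) := by
  rw [eval_eq_sum_range' (Nat.lt_succ_of_le (natDegree_redP_le G)), eval_eq_sum_range,
    red_sum _ fun i _ => le_mul (gn_le_iff.1 hG i) (le_pow hx i)]
  refine Finset.sum_congr rfl fun i _ => ?_
  rw [coeff_redP, red_mul (gn_le_iff.1 hG i) (le_pow hx i), red_pow hx]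

theorem exists_lift_monic (g : V.k[X]) (hg : g.Monic) :
    ∃ G : ℂ[X], G.Monic ∧ V.gn G ≤ 1 ∧ V.redP G = g := by
  have hl : g ∈ lifts (IsLocalRing.residue V.O) := by
    rw [lifts_iff_coeff_lifts]
    intro n
    exact IsLocalRing.residue_surjective _
  obtain ⟨q, hq, -, hm⟩ := lifts_and_degree_eq_and_monic hl hg
  refine ⟨q.map V.O.subtype, hm.map _, ?_, ?_⟩
  · rw [gn_le_iff]
    intro i
    rw [coeff_map]
    exact (q.coeff i).2
  · ext i
    rw [coeff_redP, coeff_map, ← hq, coeff_map]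
    exact V.red_coe _

instance : IsAlgClosed V.k := by
  refine IsAlgClosed.of_exists_root _ fun g hg hi => ?_
  obtain ⟨G, hm, hG, rfl⟩ := exists_lift_monic g hg
  have hd : G.degree ≠ 0 := by
    intro e
    have h1 := degree_pos_of_irreducible hi
    have h2 := degree_redP_le (V := V) G
    rw [e] at h2
    exact absurd h1 (not_lt.2 h2)
  obtain ⟨x, hx⟩ := IsAlgClosed.exists_root G hd
  have h1 := root_le_one hm hG hx
  refine ⟨V.red x, ?_⟩
  rw [eval_redP hG h1, hx.eq_zero, red_zero]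

/-- scaling a nonzero polynomial to Gauss norm one -/
theorem exists_scale {G : ℂ[X]} (h : G ≠ 0) :
    ∃ a : ℂ, a ≠ 0 ∧ V.v a = V.gn G ∧ V.gn (C a⁻¹ * G) = 1 := by
  obtain ⟨i, hi⟩ := V.exists_coeff_eq_gn G
  have h0 : V.gn G ≠ 0 := fun e => h (gn_eq_zero.1 e)
  refine ⟨G.coeff i, fun e => h0 (by rw [hi, e, map_zero]), hi.symm, ?_⟩
  rw [map_mul, gn_C, map_inv₀, ← hi, inv_mul_cancel₀ h0]

/-- interpolation: a polynomial that is small at integral points with infinitely many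
different reductions has small coefficients -/
theorem interp (G : ℂ[X]) (r : ℝ≥0) (S : Set ℂ) (hS : (V.red '' S).Infinite)
    (h : ∀ x ∈ S, V.v x ≤ 1 ∧ V.v (G.eval x) ≤ r) : V.gn G ≤ r := by
  by_contra hr
  have hr' := not_le.1 hr
  have h0 : G ≠ 0 := by
    rintro rfl
    simp at hr'
  obtain ⟨a, ha, hv, h1⟩ := exists_scale (V := V) h0
  have h2 := (redP_ne_zero h1.le).2 h1
  apply hS
  refine (Polynomial.finite_setOfPred_isRoot h2).subset ?_
  rintro _ ⟨x, hx, rfl⟩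
  show (V.redP (C a⁻¹ * G)).eval (V.red x) = 0
  rw [eval_redP h1.le (h x hx).1, red_eq_zero ((v_eval_le _ (h x hx).1).trans h1.le)]
  rw [eval_mul, eval_C, map_mul, map_inv₀, hv]
  have h3 : 0 < V.gn G := zero_le.trans_lt hr'
  rw [inv_mul_lt_iff₀ h3, mul_one]
  exact (h x hx).2.trans_lt hr'

/-! ### curves -/

section

variable {W W' : WeierstrassCurve ℂ}

theorem one_le_M (P : Pt W) : 1 ≤ V.M P := le_max_left _ _

theorem M_pos (P : Pt W) : 0 < V.M P := zero_lt_one.trans_le (one_le_M P)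

@[simp] theorem M_zero : V.M (0 : Pt W) = 1 := by simp [M]

@[simp] theorem M_neg (P : Pt W) : V.M (-P) = V.M P := by simp [M]

theorem M_eq_one {P : Pt W} : V.M P = 1 ↔ V.v (px P) ≤ 1 := by simp [M]

theorem gn_X_sub_px (P : Pt W) : V.gn (X - C (px P)) = V.M P := gn_X_sub_C _

theorem Good.b₂ (h : V.Good W) : V.v W.b₂ ≤ 1 :=
  le_add (le_pow h.1 2) (le_mul (V.v_ofNat_le 4) h.2.1)

theorem Good.b₄ (h : V.Good W) : V.v W.b₄ ≤ 1 :=
  le_add (le_mul (V.v_ofNat_le 2) h.2.2.2.1) (le_mul h.1 h.2.2.1)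

theorem Good.b₆ (h : V.Good W) : V.v W.b₆ ≤ 1 :=
  le_add (le_pow h.2.2.1 2) (le_mul (V.v_ofNat_le 4) h.2.2.2.2.1)

theorem Good.b₈ (h : V.Good W) : V.v W.b₈ ≤ 1 := by
  obtain ⟨h1, h2, h3, h4, h6, -⟩ := h
  exact le_sub (le_add (le_sub (le_add (le_mul (le_pow h1 2) h6)
    (le_mul (le_mul (V.v_ofNat_le 4) h2) h6)) (le_mul (le_mul h1 h3) h4))
    (le_mul h2 (le_pow h3 2))) (le_pow h4 2)

theorem Good.Δ_ne (h : V.Good W) : W.Δ ≠ 0 := by
  intro e
  have := h.2.2.2.2.2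
  rw [e] at this
  simp at this

/-- the integral model over the valuation ring -/
noncomputable def Good.model (h : V.Good W) : WeierstrassCurve V.O :=
  ⟨⟨W.a₁, h.1⟩, ⟨W.a₂, h.2.1⟩, ⟨W.a₃, h.2.2.1⟩, ⟨W.a₄, h.2.2.2.1⟩, ⟨W.a₆, h.2.2.2.2.1⟩⟩

theorem Good.model_map (h : V.Good W) : h.model.map V.O.subtype = W := rfl

theorem Good.model_red (h : V.Good W) :
    h.model.map (IsLocalRing.residue V.O) = V.redW W := by
  simp only [redW, V.red_of_le h.1, V.red_of_le h.2.1, V.red_of_le h.2.2.1,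
    V.red_of_le h.2.2.2.1, V.red_of_le h.2.2.2.2.1]
  rfl

theorem Good.red_b₂ (h : V.Good W) : (V.redW W).b₂ = V.red W.b₂ := by
  rw [← h.model_red, map_b₂, ← V.red_coe]
  conv_rhs => rw [← h.model_map, map_b₂]
  rfl

theorem Good.red_b₄ (h : V.Good W) : (V.redW W).b₄ = V.red W.b₄ := by
  rw [← h.model_red, map_b₄, ← V.red_coe]
  conv_rhs => rw [← h.model_map, map_b₄]
  rfl

theorem Good.red_b₆ (h : V.Good W) : (V.redW W).b₆ = V.red W.b₆ := by
  rw [← h.model_red, map_b₆, ← V.red_coe]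
  conv_rhs => rw [← h.model_map, map_b₆]
  rfl

theorem Good.red_b₈ (h : V.Good W) : (V.redW W).b₈ = V.red W.b₈ := by
  rw [← h.model_red, map_b₈, ← V.red_coe]
  conv_rhs => rw [← h.model_map, map_b₈]
  rfl

theorem Good.red_c₄ (h : V.Good W) : (V.redW W).c₄ = V.red W.c₄ := by
  rw [← h.model_red, map_c₄, ← V.red_coe]
  conv_rhs => rw [← h.model_map, map_c₄]
  rfl

theorem Good.red_Δ (h : V.Good W) : (V.redW W).Δ = V.red W.Δ := by
  rw [← h.model_red, map_Δ, ← V.red_coe]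
  conv_rhs => rw [← h.model_map, map_Δ]
  rfl

theorem Good.c₄ (h : V.Good W) : V.v W.c₄ ≤ 1 :=
  le_sub (le_pow h.b₂ 2) (le_mul (V.v_ofNat_le 24) h.b₄)

theorem Good.red_Δ_ne (h : V.Good W) : (V.redW W).Δ ≠ 0 := by
  rw [h.red_Δ]
  exact (red_ne_zero h.2.2.2.2.2.le).2 h.2.2.2.2.2

theorem Good.pY_le (h : V.Good W) {P : Pt W} (hx : V.v (px P) ≤ 1) (hy : V.v (py P) ≤ 1) :
    V.v (pY P) ≤ 1 :=
  le_add (le_add (le_mul (V.v_ofNat_le 2) hy) (le_mul h.1 hx)) h.2.2.1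

theorem RedTo.pY {Wb : WeierstrassCurve V.k} (h : V.Good W) (e : V.redW W = Wb) {P : Pt W}
    {Q : Pt Wb} (hr : V.RedTo P Q) : MP_94fe55_nt.pY Q = V.red (MP_94fe55_nt.pY P) := by
  subst e
  obtain ⟨-, hx, hy, e1, e2⟩ := hr
  simp only [MP_94fe55_nt.pY]
  rw [red_add (le_add (le_mul (V.v_ofNat_le 2) hy) (le_mul h.1 hx)) h.2.2.1,
    red_add (le_mul (V.v_ofNat_le 2) hy) (le_mul h.1 hx), red_mul (V.v_ofNat_le 2) hy,
    red_mul h.1 hx, red_ofNat, e1, e2]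
  rfl

theorem Good.gn_F3 (h : V.Good W) {A B : ℂ[X]} (hA : V.gn A ≤ 1) (hB : V.gn B ≤ 1) :
    V.gn (F3 W A B) ≤ 1 :=
  gn_add (gn_add (gn_add (gn_mul (gn_ofNat_le 4) (gn_pow hA 3))
    (gn_mul (gn_mul (by simpa using h.b₂) (gn_pow hA 2)) hB))
    (gn_mul (gn_mul (gn_mul (gn_ofNat_le 2) (by simpa using h.b₄)) hA) (gn_pow hB 2)))
    (gn_mul (by simpa using h.b₆) (gn_pow hB 3))

theorem gn_Wr {A B : ℂ[X]} (hA : V.gn A ≤ 1) (hB : V.gn B ≤ 1) : V.gn (Wr A B) ≤ 1 :=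
  gn_sub (gn_mul ((gn_derivative_le A).trans hA) hB) (gn_mul hA ((gn_derivative_le B).trans hB))

theorem redP_Wr {A B : ℂ[X]} (hA : V.gn A ≤ 1) (hB : V.gn B ≤ 1) :
    V.redP (Wr A B) = Wr (V.redP A) (V.redP B) := by
  have hA' := (gn_derivative_le A).trans hA
  have hB' := (gn_derivative_le B).trans hB
  rw [Wr, Wr, redP_sub (gn_mul hA' hB) (gn_mul hA hB'), redP_mul hA' hB, redP_mul hA hB',
    redP_derivative hA, redP_derivative hB]

theorem Close.refl (W : WeierstrassCurve ℂ) (r : ℝ≥0) : V.Close r W W := by simp [Close]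

theorem Close.symm {r : ℝ≥0} (h : V.Close r W W') : V.Close r W' W := by
  simp only [Close] at h ⊢
  rw [V.v.map_sub_swap W'.a₁, V.v.map_sub_swap W'.a₂, V.v.map_sub_swap W'.a₃,
    V.v.map_sub_swap W'.a₄, V.v.map_sub_swap W'.a₆]
  exact h

theorem Close.mono {r s : ℝ≥0} (h : V.Close r W W') (hs : r ≤ s) : V.Close s W W' :=
  ⟨h.1.trans hs, h.2.1.trans hs, h.2.2.1.trans hs, h.2.2.2.1.trans hs, h.2.2.2.2.trans hs⟩

theorem Close.redW {r : ℝ≥0} (h : V.Close r W W') (hr : r < 1) (g : V.Good W) (g' : V.Good W') :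
    V.redW W = V.redW W' := by
  simp only [Place.redW]
  rw [(red_eq_iff g.1 g'.1).2 (h.1.trans_lt hr), (red_eq_iff g.2.1 g'.2.1).2 (h.2.1.trans_lt hr),
    (red_eq_iff g.2.2.1 g'.2.2.1).2 (h.2.2.1.trans_lt hr),
    (red_eq_iff g.2.2.2.1 g'.2.2.2.1).2 (h.2.2.2.1.trans_lt hr),
    (red_eq_iff g.2.2.2.2.1 g'.2.2.2.2.1).2 (h.2.2.2.2.trans_lt hr)]

theorem v_mul_sub_mul {a b a' b' : ℂ} {r : ℝ≥0} (ha : V.v a ≤ 1) (hb' : V.v b' ≤ 1)
    (h1 : V.v (a - a') ≤ r) (h2 : V.v (b - b') ≤ r) : V.v (a * b - a' * b') ≤ r := by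
  have : a * b - a' * b' = a * (b - b') + (a - a') * b' := by ring
  rw [this]
  exact le_add (le_mul ha h2) (le_mul' h1 hb')

theorem gn_mul_sub_mul {a b a' b' : ℂ[X]} {r : ℝ≥0} (ha : V.gn a ≤ 1) (hb' : V.gn b' ≤ 1)
    (h1 : V.gn (a - a') ≤ r) (h2 : V.gn (b - b') ≤ r) : V.gn (a * b - a' * b') ≤ r := by
  have : a * b - a' * b' = a * (b - b') + (a - a') * b' := by ring
  rw [this]
  exact gn_add (gn_mul ha h2) (gn_mul' h1 hb')

theorem Close.b₂ {r : ℝ≥0} (h : V.Close r W W') (g : V.Good W) (g' : V.Good W') :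
    V.v (W.b₂ - W'.b₂) ≤ r := by
  have : W.b₂ - W'.b₂ = (W.a₁ * W.a₁ - W'.a₁ * W'.a₁) + 4 * (W.a₂ - W'.a₂) := by
    simp only [WeierstrassCurve.b₂]; ring
  rw [this]
  exact le_add (v_mul_sub_mul g.1 g'.1 h.1 h.1) (le_mul (V.v_ofNat_le 4) h.2.1)

theorem Close.b₄ {r : ℝ≥0} (h : V.Close r W W') (g : V.Good W) (g' : V.Good W') :
    V.v (W.b₄ - W'.b₄) ≤ r := by
  have : W.b₄ - W'.b₄ = (W.a₁ * W.a₃ - W'.a₁ * W'.a₃) + 2 * (W.a₄ - W'.a₄) := by
    simp only [WeierstrassCurve.b₄]; ring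
  rw [this]
  exact le_add (v_mul_sub_mul g.1 g'.2.2.1 h.1 h.2.2.1) (le_mul (V.v_ofNat_le 2) h.2.2.2.1)

theorem Close.b₆ {r : ℝ≥0} (h : V.Close r W W') (g : V.Good W) (g' : V.Good W') :
    V.v (W.b₆ - W'.b₆) ≤ r := by
  have : W.b₆ - W'.b₆ = (W.a₃ * W.a₃ - W'.a₃ * W'.a₃) + 4 * (W.a₆ - W'.a₆) := by
    simp only [WeierstrassCurve.b₆]; ring
  rw [this]
  exact le_add (v_mul_sub_mul g.2.2.1 g'.2.2.1 h.2.2.1 h.2.2.1)
    (le_mul (V.v_ofNat_le 4) h.2.2.2.2)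

theorem Close.b₈ {r : ℝ≥0} (h : V.Close r W W') (g : V.Good W) (g' : V.Good W') :
    V.v (W.b₈ - W'.b₈) ≤ r := by
  obtain ⟨g1, g2, g3, g4, g6, -⟩ := g
  obtain ⟨k1, k2, k3, k4, k6, -⟩ := g'
  obtain ⟨h1, h2, h3, h4, h6⟩ := h
  have : W.b₈ - W'.b₈ = (W.a₁ * W.a₁ * W.a₆ - W'.a₁ * W'.a₁ * W'.a₆) +
      4 * (W.a₂ * W.a₆ - W'.a₂ * W'.a₆) - (W.a₁ * W.a₃ * W.a₄ - W'.a₁ * W'.a₃ * W'.a₄) +
      (W.a₃ * W.a₃ * W.a₂ - W'.a₃ * W'.a₃ * W'.a₂) - (W.a₄ * W.a₄ - W'.a₄ * W'.a₄) := by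
    simp only [WeierstrassCurve.b₈]; ring
  rw [this]
  exact le_sub (le_add (le_sub (le_add
    (v_mul_sub_mul (le_mul g1 g1) k6 (v_mul_sub_mul g1 k1 h1 h1) h6)
    (le_mul (V.v_ofNat_le 4) (v_mul_sub_mul g2 k6 h2 h6)))
    (v_mul_sub_mul (le_mul g1 g3) k4 (v_mul_sub_mul g1 k3 h1 h3) h4))
    (v_mul_sub_mul (le_mul g3 g3) k2 (v_mul_sub_mul g3 k3 h3 h3) h2))
    (v_mul_sub_mul g4 k4 h4 h4)

theorem Close.gn_F3 {r : ℝ≥0} (h : V.Close r W W') (g : V.Good W) (g' : V.Good W') {A B : ℂ[X]}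
    (hA : V.gn A ≤ 1) (hB : V.gn B ≤ 1) : V.gn (F3 W A B - F3 W' A B) ≤ r := by
  have : F3 W A B - F3 W' A B = C (W.b₂ - W'.b₂) * (A ^ 2 * B) +
      C (W.b₄ - W'.b₄) * (2 * A * B ^ 2) + C (W.b₆ - W'.b₆) * B ^ 3 := by
    simp only [F3, map_sub]; ring
  rw [this]
  exact gn_add (gn_add (gn_mul' (by rw [gn_C]; exact h.b₂ g g') (gn_mul (gn_pow hA 2) hB))
    (gn_mul' (by rw [gn_C]; exact h.b₄ g g') (gn_mul (gn_mul (gn_ofNat_le 2) hA) (gn_pow hB 2))))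
    (gn_mul' (by rw [gn_C]; exact h.b₆ g g') (gn_pow hB 3))

end

end Place

end Pool.Agent.P.MP_94fe55_nt
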