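import Pool.Agent.P.MP_94fe55_nt.Lat

set_option autoImplicit false

namespace Pool.Agent.P.MP_94fe55_nt

open Polynomial WeierstrassCurve

namespace VeluP

/-- a bounded denominator for the preimage of the larger lattice -/
theorem exists_den {L L' : PeriodPair} {c : ℂ} (hc : c ≠ 0) (hH : Hom L L' c) :
    ∃ N : ℤ, N ≠ 0 ∧ ∀ z, c * z ∈ L'.lattice → (N : ℂ) * z ∈ L.lattice := by
  obtain ⟨a, b, h1⟩ := PeriodPair.mem_lattice.1 (hH _ L.ω₁_mem_lattice)
  obtain ⟨d, e, h2⟩ := PeriodPair.mem_lattice.1 (hH _ L.ω₂_mem_lattice)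
  refine ⟨a * e - b * d, ?_, fun z hz => ?_⟩
  · intro hN
    apply im_periods L
    have hN' : (a : ℝ) * e - b * d = 0 := by exact_mod_cast hN
    have e1 : c * L.ω₁ * (starRingEnd ℂ) (c * L.ω₂) =
        (Complex.normSq c : ℝ) * (L.ω₁ * (starRingEnd ℂ) L.ω₂) := by
      rw [map_mul, ← Complex.mul_conj]; ring
    have e2 : (c * L.ω₁ * (starRingEnd ℂ) (c * L.ω₂)).im = 0 := by
      rw [← h1, ← h2]
      simp
      linear_combination (L'.ω₁.im * L'.ω₂.re - L'.ω₁.re * L'.ω₂.im) * hN'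
    rw [e1, Complex.im_ofReal_mul] at e2
    exact (mul_eq_zero.1 e2).resolve_left (by simpa using hc)
  · obtain ⟨m, n, h3⟩ := PeriodPair.mem_lattice.1 hz
    refine PeriodPair.mem_lattice.2 ⟨m * e - n * d, n * a - m * b, ?_⟩
    apply mul_left_cancel₀ hc
    push_cast
    linear_combination (a * e - b * d : ℂ) * h3 - (m * e - n * d : ℂ) * h1 -
      (n * a - m * b : ℂ) * h2

theorem hasDerivAt_wp (L : PeriodPair) {z : ℂ} (hz : z ∉ L.lattice) :
    HasDerivAt L.weierstrassP (L.derivWeierstrassP z) z := by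
  have h1 : DifferentiableAt ℂ L.weierstrassP z :=
    L.differentiableOn_weierstrassP.differentiableAt (L.isClosed_lattice.isOpen_compl.mem_nhds hz)
  have := h1.hasDerivAt
  rwa [L.deriv_weierstrassP] at this

theorem isOpen_pre (L' : PeriodPair) (c : ℂ) : IsOpen {z : ℂ | c * z ∉ L'.lattice} :=
  L'.isClosed_lattice.isOpen_compl.preimage (f := fun z => c * z) (by fun_prop)

theorem countable_pre (L' : PeriodPair) {c : ℂ} (hc : c ≠ 0) :
    {z : ℂ | c * z ∈ L'.lattice}.Countable :=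
  (countable_lattice L').preimage_of_injOn (f := fun z => c * z)
    (mul_right_injective₀ hc).injOn

section

variable {W W' : WeierstrassCurve ℂ} {L L' : PeriodPair} {π : ℂ →+ Pt W} {π' : ℂ →+ Pt W'}
  {c : ℂ}

theorem phi_ne (h : Unif W L π) (h' : Unif W' L' π') (hH : Hom L L' c) (z : ℂ) :
    mulPt π π' c (π z) = 0 ↔ c * z ∈ L'.lattice := by
  rw [mulPt_apply h h' hH, h'.ker]

theorem ker_finite (h : Unif W L π) (h' : Unif W' L' π') (hc : c ≠ 0) (hH : Hom L L' c) :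
    {Q | mulPt π π' c Q = 0}.Finite := by
  obtain ⟨N, hN, hd⟩ := exists_den hc hH
  have hN' : (N : ℂ) ≠ 0 := by exact_mod_cast hN
  refine (((Set.finite_Ico 0 |N|).prod (Set.finite_Ico 0 |N|)).image
    (fun p : ℤ × ℤ => π ((p.1 * L.ω₁ + p.2 * L.ω₂) / N))).subset ?_
  intro Q hQ
  obtain ⟨z, rfl⟩ := h.surj Q
  obtain ⟨m, n, e⟩ := PeriodPair.mem_lattice.1 (hd z ((phi_ne h h' hH z).1 hQ))
  refine ⟨(m % N, n % N), ⟨⟨Int.emod_nonneg _ hN, Int.emod_lt_abs _ hN⟩,
    ⟨Int.emod_nonneg _ hN, Int.emod_lt_abs _ hN⟩⟩, ?_⟩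
  show π _ = π z
  rw [← sub_eq_zero, ← map_sub, h.ker]
  refine PeriodPair.mem_lattice.2 ⟨-(m / N), -(n / N), ?_⟩
  have e1 : ((m % N : ℤ) : ℂ) + N * ((m / N : ℤ) : ℂ) = m := by
    exact_mod_cast Int.emod_add_mul_ediv m N
  have e2 : ((n % N : ℤ) : ℂ) + N * ((n / N : ℤ) : ℂ) = n := by
    exact_mod_cast Int.emod_add_mul_ediv n N
  field_simp
  simp only [Int.cast_neg]
  linear_combination -e - L.ω₁ * e1 - L.ω₂ * e2

/-- the derivative form of the trace formula -/
theorem deriv_sum (h : Unif W L π) (h' : Unif W' L' π') (hc : c ≠ 0) (hH : Hom L L' c)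
    {T : Finset (Pt W)} (hT : ∀ Q, Q ∈ T ↔ mulPt π π' c Q = 0) {t : Pt W → ℂ}
    (ht : ∀ Q, π (t Q) = Q) (z : ℂ) :
    c ^ 3 * L'.derivWeierstrassP (c * z) = ∑ Q ∈ T, L.derivWeierstrassP (z + t Q) := by
  have hmem : ∀ p : T × L.lattice, c * ((p.2 : ℂ) - t p.1) ∈ L'.lattice := by
    intro p
    rw [mul_sub]
    refine sub_mem (hH _ p.2.2) ((phi_ne h h' hH _).1 ?_)
    rw [ht]
    exact (hT _).1 p.1.2
  let f : T × L.lattice → L'.lattice := fun p => ⟨_, hmem p⟩
  have hf : Function.Bijective f := by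
    constructor
    · rintro ⟨Q, l⟩ ⟨Q', l'⟩ e
      have e1 : (l : ℂ) - t Q = l' - t Q' := mul_left_cancel₀ hc (congrArg Subtype.val e)
      have e2 := congrArg π e1
      rw [map_sub, map_sub, ht, ht, (h.ker _).2 l.2, (h.ker _).2 l'.2, sub_right_inj] at e2
      have e3 : Q = Q' := Subtype.ext e2
      subst e3
      rw [sub_left_inj] at e1
      rw [Subtype.ext e1]
    · intro l'
      have hQ : π (-(c⁻¹ * l')) ∈ T := by
        rw [hT, phi_ne h h' hH, mul_neg, mul_inv_cancel_left₀ hc]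
        exact neg_mem l'.2
      have hl : c⁻¹ * l' + t (π (-(c⁻¹ * l'))) ∈ L.lattice := by
        rw [← h.ker, map_add, ht, map_neg, add_neg_cancel]
      refine ⟨(⟨_, hQ⟩, ⟨_, hl⟩), Subtype.ext ?_⟩
      show c * (c⁻¹ * l' + t _ - t _) = l'
      rw [add_sub_cancel_right, mul_inv_cancel_left₀ hc]
  have h1 := ((Equiv.ofBijective f hf).hasSum_iff.2
    (L'.hasSum_derivWeierstrassP (c * z))).mul_left (c ^ 3)
  have h2 : HasSum (fun p : T × L.lattice => -2 / (z + t p.1 - p.2) ^ 3)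
      (c ^ 3 * L'.derivWeierstrassP (c * z)) := by
    refine Eq.mp (congrArg (fun g => HasSum g _) (funext fun p => Eq.symm ?_)) h1
    show _ = c ^ 3 * (-2 / (c * z - c * (p.2 - t p.1)) ^ 3)
    rw [← mul_sub c, mul_pow, div_eq_mul_inv, div_eq_mul_inv, mul_inv, mul_left_comm,
      mul_inv_cancel_left₀ (pow_ne_zero 3 hc)]
    congr 3
    ring
  have h3 := h2.prod_fiberwise (g := fun Q : T => L.derivWeierstrassP (z + t Q))
    (fun Q => L.hasSum_derivWeierstrassP (z + t Q))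
  rw [h3.unique (hasSum_fintype _), Finset.sum_coe_sort T (fun Q => L.derivWeierstrassP (z + t Q))]

theorem not_mem_add (h : Unif W L π) (h' : Unif W' L' π') (hH : Hom L L' c)
    {Q : Pt W} (hQ : mulPt π π' c Q = 0) {s : ℂ} (hs : π s = Q) {z : ℂ}
    (hz : c * z ∉ L'.lattice) : z + s ∉ L.lattice := by
  intro e
  apply hz
  rw [← phi_ne h h' hH]
  have := congrArg (mulPt π π' c) ((h.ker _).2 e)
  rwa [map_add, map_add, hs, hQ, add_zero, map_zero] at this

/-- the trace formula -/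
theorem trace (h : Unif W L π) (h' : Unif W' L' π') (hc : c ≠ 0) (hH : Hom L L' c)
    {T : Finset (Pt W)} (hT : ∀ Q, Q ∈ T ↔ mulPt π π' c Q = 0) :
    ∃ κ : ℂ, ∀ P, mulPt π π' c P ≠ 0 →
      c ^ 2 * px (mulPt π π' c P) = ∑ Q ∈ T, px (P + Q) + κ := by
  choose t ht using h.surj
  have hd : ∀ z, c * z ∉ L'.lattice → HasDerivAt
      (fun z => c ^ 2 * L'.weierstrassP (c * z) - ∑ Q ∈ T, L.weierstrassP (z + t Q)) 0 z := by
    intro z hz
    have h1 : HasDerivAt (fun z => L'.weierstrassP (c * z))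
        (L'.derivWeierstrassP (c * z) * c) z := by
      have := (hasDerivAt_wp L' hz).comp z ((hasDerivAt_id z).const_mul c)
      simpa [Function.comp_def] using this
    have h2 : HasDerivAt (fun z => ∑ Q ∈ T, L.weierstrassP (z + t Q))
        (∑ Q ∈ T, L.derivWeierstrassP (z + t Q)) z := by
      refine HasDerivAt.fun_sum fun Q hQ => ?_
      exact (hasDerivAt_wp L (not_mem_add h h' hH ((hT Q).1 hQ) (ht Q) hz)).comp_add_const z (t Q)
    have h3 := (h1.const_mul (c ^ 2)).fun_sub h2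
    rw [← deriv_sum h h' hc hH hT ht z] at h3
    exact h3.congr_deriv (by ring)
  obtain ⟨κ, hκ⟩ := (isOpen_pre L' c).exists_is_const_of_deriv_eq_zero
    (isPreconnected_compl (countable_pre L' hc))
    (fun z hz => (hd z hz).differentiableAt.differentiableWithinAt)
    (fun z hz => (hd z hz).deriv)
  refine ⟨κ - c ^ 2 * (W'.b₂ / 12) + ∑ _Q ∈ T, W.b₂ / 12, fun P hP => ?_⟩
  obtain ⟨z, rfl⟩ : ∃ z, π z = P := ⟨t P, ht P⟩
  have hz : c * z ∉ L'.lattice := fun e => hP ((phi_ne h h' hH z).2 e)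
  have e1 := hκ z hz
  have e2 : ∑ Q ∈ T, px (π z + Q) = ∑ Q ∈ T, (L.weierstrassP (z + t Q) - W.b₂ / 12) := by
    refine Finset.sum_congr rfl fun Q hQ => ?_
    rw [← h.x _ (not_mem_add h h' hH ((hT Q).1 hQ) (ht Q) hz), map_add, ht]
  rw [e2, Finset.sum_sub_distrib, mulPt_apply h h' hH, h'.x _ hz]
  linear_combination e1

end

/-! ### the algebraic part -/

section

variable {W W' : WeierstrassCurve ℂ}

/-- the numerator of `x(P + Q) + x(P - Q)` -/
noncomputable def sq1 (W : WeierstrassCurve ℂ) (u : ℂ) : ℂ[X] :=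
  C (2 * u) * X ^ 2 + C (2 * u ^ 2 + W.b₂ * u + W.b₄) * X + C (W.b₄ * u + W.b₆)

theorem sq1_eval (u x : ℂ) : (sq1 W u).eval x = S1 W.b₂ W.b₄ W.b₆ x 1 u 1 := by
  simp only [sq1, S1, eval_add, eval_mul, eval_C, eval_pow, eval_X]; ring

theorem sq1_deg (u : ℂ) : (sq1 W u).natDegree ≤ 2 := by
  unfold sq1
  compute_degree

open Classical in
theorem sq_dvd {T : Finset (Pt W)} (hneg : ∀ Q ∈ T, -Q ∈ T) {Q : Pt W} (hQ : Q ∈ T.erase 0) :
    (X - C (px Q)) ^ 2 ∣ sq1 W (px Q) * ∏ R ∈ T.erase 0, (X - C (px R)) := by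
  have hQ0 : Q ≠ 0 := Finset.ne_of_mem_erase hQ
  by_cases e : Q + Q = 0
  · rw [sq]
    refine mul_dvd_mul ?_ (Finset.dvd_prod_of_mem _ hQ)
    rw [dvd_iff_isRoot, IsRoot, sq1_eval, S1_self hQ0, (two_tors hQ0).1 e]
    simp
  · have h1 : -Q ∈ (T.erase 0).erase Q := by
      refine Finset.mem_erase.2 ⟨fun e' => e ?_, Finset.mem_erase.2 ⟨neg_ne_zero.2 hQ0,
        hneg Q (Finset.mem_of_mem_erase hQ)⟩⟩
      nth_rewrite 1 [← e']
      exact neg_add_cancel Q
    refine Dvd.dvd.mul_left ?_ _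
    rw [← Finset.mul_prod_erase _ _ hQ, ← Finset.mul_prod_erase _ _ h1, px_neg, ← mul_assoc, ← sq]
    exact dvd_mul_right _ _

open Classical in
/-- the rational function attached to the trace -/
theorem exists_num {T : Finset (Pt W)} (h0 : 0 ∈ T) (hneg : ∀ Q ∈ T, -Q ∈ T) (κ : ℂ) :
    ∃ A : ℂ[X], A.Monic ∧ A.natDegree = T.card ∧ ∀ P, (∀ Q ∈ T, P + Q ≠ 0) →
      (∑ Q ∈ T, px (P + Q) + κ) * (∏ R ∈ T.erase 0, (X - C (px R))).eval (px P) =
        A.eval (px P) := by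
  set B : ℂ[X] := ∏ R ∈ T.erase 0, (X - C (px R)) with hB
  have hBm : B.Monic := monic_prod_of_monic _ _ fun R _ => monic_X_sub_C _
  have hBd : B.natDegree + 1 = T.card := by
    rw [hB, natDegree_prod_of_monic _ _ fun R _ => monic_X_sub_C _]
    simp only [natDegree_X_sub_C, Finset.sum_const, smul_eq_mul, mul_one]
    exact Finset.card_erase_add_one h0
  have hG : ∀ Q : Pt W, ∃ G : ℂ[X], Q ∈ T.erase 0 →
      sq1 W (px Q) * B = (X - C (px Q)) ^ 2 * G ∧ G.natDegree ≤ B.natDegree := by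
    intro Q
    by_cases hQ : Q ∈ T.erase 0
    · obtain ⟨G, e⟩ := sq_dvd hneg hQ
      refine ⟨G, fun _ => ⟨e, ?_⟩⟩
      by_cases hG0 : G = 0
      · simp [hG0]
      · have e1 := congrArg natDegree e
        rw [((monic_X_sub_C (px Q)).pow 2).natDegree_mul' hG0, natDegree_pow,
          natDegree_X_sub_C] at e1
        have e2 := natDegree_mul_le (p := sq1 W (px Q)) (q := B)
        have e3 := sq1_deg (W := W) (px Q)
        rw [← hB] at e1
        omega
    · exact ⟨0, fun h => absurd h hQ⟩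
  choose G hG using hG
  have hm : ((X + C κ) * B).Monic := (monic_X_add_C κ).mul hBm
  have hd : ((X + C κ) * B).natDegree = B.natDegree + 1 := by
    rw [(monic_X_add_C κ).natDegree_mul hBm, natDegree_X_add_C, add_comm]
  have hS : (C (1 / 2 : ℂ) * ∑ Q ∈ T.erase 0, G Q).natDegree ≤ B.natDegree :=
    (natDegree_C_mul_le _ _).trans
      (natDegree_sum_le_of_forall_le _ _ fun Q hQ => (hG Q hQ).2)
  have hlt : (C (1 / 2 : ℂ) * ∑ Q ∈ T.erase 0, G Q).natDegree < ((X + C κ) * B).natDegree := by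
    omega
  refine ⟨(X + C κ) * B + C (1 / 2 : ℂ) * ∑ Q ∈ T.erase 0, G Q,
    hm.add_of_left (degree_lt_degree hlt), ?_, fun P hP => ?_⟩
  · rw [natDegree_add_eq_left_of_natDegree_lt hlt, hd, hBd]
  · have hP0 : P ≠ 0 := by simpa using hP 0 h0
    have e1 : ∑ Q ∈ T.erase 0, px (P - Q) = ∑ Q ∈ T.erase 0, px (P + Q) := by
      refine Finset.sum_nbij' (fun Q => -Q) (fun Q => -Q) ?_ ?_ ?_ ?_ ?_
      · intro Q hQ
        exact Finset.mem_erase.2 ⟨neg_ne_zero.2 (Finset.ne_of_mem_erase hQ),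
          hneg Q (Finset.mem_of_mem_erase hQ)⟩
      · intro Q hQ
        exact Finset.mem_erase.2 ⟨neg_ne_zero.2 (Finset.ne_of_mem_erase hQ),
          hneg Q (Finset.mem_of_mem_erase hQ)⟩
      · intro Q _; exact neg_neg Q
      · intro Q _; exact neg_neg Q
      · intro Q _; rw [sub_eq_add_neg]
    have e2 : ∀ Q ∈ T.erase 0, (G Q).eval (px P) = (px (P + Q) + px (P - Q)) * B.eval (px P) := by
      intro Q hQ
      have hQ0 : Q ≠ 0 := Finset.ne_of_mem_erase hQ
      have hQT := Finset.mem_of_mem_erase hQ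
      have hne : px P ≠ px Q := px_ne hP0 hQ0 (hP Q hQT)
        (by rw [sub_eq_add_neg]; exact hP _ (hneg Q hQT))
      have e3 := congrArg (eval (px P)) (hG Q hQ).1
      rw [eval_mul, sq1_eval, ← (addsub_gen hP0 hQ0 hne).1] at e3
      simp only [eval_mul, eval_pow, eval_sub, eval_X, eval_C] at e3
      apply mul_left_cancel₀ (pow_ne_zero 2 (sub_ne_zero.2 hne))
      linear_combination -e3
    simp only [eval_add, eval_mul, eval_X, eval_C, eval_finsetSum]
    rw [Finset.sum_congr rfl e2, ← Finset.sum_mul, Finset.sum_add_distrib, e1,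
      ← Finset.add_sum_erase T _ h0, add_zero]
    ring

/-- the product formula when the roots are distinct -/
theorem prod_gen {φ : Pt W →+ Pt W'} {T : Finset (Pt W)} (hT : ∀ Q, Q ∈ T ↔ φ Q = 0)
    {A B : ℂ[X]} (hm : A.Monic) (hd : A.natDegree = T.card) (hB : B.natDegree < A.natDegree)
    (hx : ∀ P, φ P ≠ 0 → px (φ P) * B.eval (px P) = A.eval (px P)) {P : Pt W}
    (hP : φ (P + P) ≠ 0) : A - C (px (φ P)) * B = ∏ Q ∈ T, (X - C (px (P + Q))) := by
  have hP1 : φ P ≠ 0 := fun e => hP (by rw [map_add, e, add_zero])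
  have hPQ : ∀ Q ∈ T, φ (P + Q) = φ P := fun Q hQ => by rw [map_add, (hT Q).1 hQ, add_zero]
  have hne : ∀ Q ∈ T, P + Q ≠ 0 := fun Q hQ e => hP1 (by rw [← hPQ Q hQ, e, map_zero])
  have hlt : (C (px (φ P)) * B).natDegree < A.natDegree := (natDegree_C_mul_le _ _).trans_lt hB
  refine eq_of_monic_of_dvd_of_natDegree_le
    (monic_prod_of_monic _ _ fun R _ => monic_X_sub_C _) (hm.sub_of_left (degree_lt_degree hlt))
    (Finset.prod_dvd_of_coprime ?_ ?_) ?_
  · intro Q hQ R hR hQR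
    refine isCoprime_X_sub_C_of_isUnit_sub (IsUnit.mk0 _ (sub_ne_zero.2 fun e => ?_))
    rcases (px_eq_iff (hne Q hQ) (hne R hR)).1 e with e | e
    · exact hQR (add_left_cancel e)
    · apply hP
      have := congrArg φ e
      rw [map_neg, hPQ Q hQ, hPQ R hR] at this
      rw [map_add]
      nth_rewrite 1 [this]
      exact neg_add_cancel _
  · intro Q hQ
    rw [dvd_iff_isRoot, IsRoot, eval_sub, eval_mul, eval_C, ← hPQ Q hQ,
      hx _ (by rwa [hPQ Q hQ]), sub_self]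
  · rw [natDegree_sub_eq_left_of_natDegree_lt hlt, hd,
      natDegree_prod_of_monic _ _ fun R _ => monic_X_sub_C _]
    simp

theorem cop_of_prod [Infinite (Pt W)] {φ : Pt W →+ Pt W'} {T : Finset (Pt W)}
    (hT : ∀ Q, Q ∈ T ↔ φ Q = 0) {A B : ℂ[X]}
    (hp : ∀ P, φ P ≠ 0 → A - C (px (φ P)) * B = ∏ Q ∈ T, (X - C (px (P + Q)))) :
    IsCoprime A B := by
  rw [Polynomial.isCoprime_iff_aeval_ne_zero_of_isAlgClosed ℂ ℂ]
  intro r
  by_contra hr
  simp only [not_or, not_not, coe_aeval_eq_eval] at hr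
  have hfin : (⋃ Q ∈ (T : Set (Pt W)), (fun P => P + Q) ⁻¹' {R : Pt W | px R = r}).Finite :=
    T.finite_toSet.biUnion fun Q _ => (finite_fiber r).preimage (add_left_injective Q).injOn
  obtain ⟨P, hP⟩ := (hfin.union T.finite_toSet).exists_notMem
  rw [Set.mem_union, not_or] at hP
  have e := congrArg (eval r) (hp P fun e => hP.2 ((hT P).2 e))
  rw [eval_sub, eval_mul, hr.1, hr.2, mul_zero, sub_zero, eval_prod] at e
  obtain ⟨Q, hQ, e1⟩ := Finset.prod_eq_zero_iff.1 e.symm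
  apply hP.1
  simp only [Set.mem_iUnion]
  refine ⟨Q, hQ, ?_⟩
  simp only [eval_sub, eval_X, eval_C] at e1
  exact (sub_eq_zero.1 e1).symm

theorem ode_of_Yrel [Infinite (Pt W)] {φ : Pt W →+ Pt W'} {T : Finset (Pt W)}
    (hT : ∀ Q, Q ∈ T ↔ φ Q = 0) {A B : ℂ[X]} {c : ℂ}
    (hx : ∀ P, φ P ≠ 0 → px (φ P) * B.eval (px P) = A.eval (px P))
    (hY : ∀ P, φ P ≠ 0 → c * B.eval (px P) ^ 2 * pY (φ P) = (Wr A B).eval (px P) * pY P) :
    Wr A B ^ 2 * F3 W X 1 = C (c ^ 2) * F3 W' A B * B := by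
  rw [← sub_eq_zero]
  refine poly_eq_zero (ι := AddMonoidHom.id (Pt W)) Function.injective_id
    (T.finite_toSet.subset fun P hP => ?_)
  by_contra hPT
  have h1 : φ P ≠ 0 := fun e => hPT ((hT P).2 e)
  have h0 : P ≠ 0 := fun e => h1 (by rw [e, map_zero])
  apply hP
  have e1 := hY P h1
  have e2 := pY_sq' h0
  have e3 := pY_sq h1
  simp only [AddMonoidHom.id_apply, eval_sub, eval_mul, eval_pow, eval_C]
  rw [← e2, F3_eval, ← hx P h1]
  linear_combination (-(c * B.eval (px P) ^ 2 * pY (φ P) + (Wr A B).eval (px P) * pY P)) * e1 +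
    c ^ 2 * B.eval (px P) ^ 4 * e3

end

section

variable {W W' : WeierstrassCurve ℂ} {L L' : PeriodPair} {π : ℂ →+ Pt W} {π' : ℂ →+ Pt W'}
  {c : ℂ}

theorem prod_all (h : Unif W L π) (h' : Unif W' L' π') (hc : c ≠ 0) (hH : Hom L L' c)
    {T : Finset (Pt W)} (hT : ∀ Q, Q ∈ T ↔ mulPt π π' c Q = 0) {A B : ℂ[X]}
    (hp : ∀ P, mulPt π π' c (P + P) ≠ 0 →
      A - C (px (mulPt π π' c P)) * B = ∏ Q ∈ T, (X - C (px (P + Q))))
    (P : Pt W) (hP : mulPt π π' c P ≠ 0) :
    A - C (px (mulPt π π' c P)) * B = ∏ Q ∈ T, (X - C (px (P + Q))) := by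
  choose t ht using h.surj
  obtain ⟨z, rfl⟩ : ∃ z, π z = P := ⟨t P, ht P⟩
  have hz : c * z ∉ L'.lattice := fun e => hP ((phi_ne h h' hH z).2 e)
  refine Polynomial.funext fun r => ?_
  have hl : ∀ w, c * w ∉ L'.lattice → (A - C (px (mulPt π π' c (π w))) * B).eval r =
      A.eval r - (L'.weierstrassP (c * w) - W'.b₂ / 12) * B.eval r := by
    intro w hw
    rw [eval_sub, eval_mul, eval_C, mulPt_apply h h' hH, h'.x _ hw]
  have hr : ∀ w, c * w ∉ L'.lattice → (∏ Q ∈ T, (X - C (px (π w + Q)))).eval r =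
      ∏ Q ∈ T, (r - (L.weierstrassP (w + t Q) - W.b₂ / 12)) := by
    intro w hw
    rw [eval_prod]
    refine Finset.prod_congr rfl fun Q hQ => ?_
    rw [eval_sub, eval_X, eval_C, ← h.x _ (not_mem_add h h' hH ((hT Q).1 hQ) (ht Q) hw),
      map_add, ht]
  rw [hl z hz, hr z hz]
  have c1 : ContinuousAt
      (fun w => A.eval r - (L'.weierstrassP (c * w) - W'.b₂ / 12) * B.eval r) z := by
    have : ContinuousAt (fun w => L'.weierstrassP (c * w)) z :=
      ContinuousAt.comp (f := fun w => c * w) (hasDerivAt_wp L' hz).continuousAt (by fun_prop)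
    fun_prop
  have c2 : ContinuousAt
      (fun w => ∏ Q ∈ T, (r - (L.weierstrassP (w + t Q) - W.b₂ / 12))) z := by
    refine tendsto_finsetProd _ fun Q hQ => ?_
    have : ContinuousAt (fun w => L.weierstrassP (w + t Q)) z :=
      ((hasDerivAt_wp L (not_mem_add h h' hH ((hT Q).1 hQ) (ht Q) hz)).comp_add_const z
        (t Q)).continuousAt
    have h3 : ContinuousAt (fun w => r - (L.weierstrassP (w + t Q) - W.b₂ / 12)) z := by
      fun_prop
    exact h3
  refine tendsto_nhds_unique_of_frequently_eq c1 c2 ?_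
  have hden := (countable_pre L' (mul_ne_zero hc (two_ne_zero (α := ℂ)))).dense_compl ℝ
  refine (mem_closure_iff_frequently.1 (hden z)).mono fun w hw => ?_
  have hw1 : c * 2 * w ∉ L'.lattice := hw
  have hw2 : c * w ∉ L'.lattice := fun e => hw1 (by
    have := add_mem e e
    convert this using 1
    ring)
  rw [← hl w hw2, ← hr w hw2, hp]
  rw [← map_add, Ne, phi_ne h h' hH]
  convert hw1 using 2
  ring

theorem yrel (h : Unif W L π) (h' : Unif W' L' π') (hH : Hom L L' c) {A B : ℂ[X]}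
    (hx : ∀ P, mulPt π π' c P ≠ 0 → px (mulPt π π' c P) * B.eval (px P) = A.eval (px P))
    (P : Pt W) (hP : mulPt π π' c P ≠ 0) :
    c * B.eval (px P) ^ 2 * pY (mulPt π π' c P) = (Wr A B).eval (px P) * pY P := by
  obtain ⟨z, rfl⟩ := h.surj P
  have hz : c * z ∉ L'.lattice := fun e => hP ((phi_ne h h' hH z).2 e)
  have hL : ∀ w, c * w ∉ L'.lattice → w ∉ L.lattice := fun w hw e => hw (hH w e)
  have h1 : HasDerivAt (fun z => L'.weierstrassP (c * z) - W'.b₂ / 12)
      (L'.derivWeierstrassP (c * z) * c) z := by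
    have := (hasDerivAt_wp L' hz).comp z ((hasDerivAt_id z).const_mul c)
    exact HasDerivAt.sub_const _ (by simpa [Function.comp_def] using this)
  have h2 : HasDerivAt (fun z => L.weierstrassP z - W.b₂ / 12) (L.derivWeierstrassP z) z :=
    (hasDerivAt_wp L (hL z hz)).sub_const _
  have h3 : ∀ G : ℂ[X], HasDerivAt (fun z => G.eval (L.weierstrassP z - W.b₂ / 12))
      ((derivative G).eval (L.weierstrassP z - W.b₂ / 12) * L.derivWeierstrassP z) z :=
    fun G => (G.hasDerivAt _).comp z h2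
  have hev : ∀ w, c * w ∉ L'.lattice → (L'.weierstrassP (c * w) - W'.b₂ / 12) *
      B.eval (L.weierstrassP w - W.b₂ / 12) = A.eval (L.weierstrassP w - W.b₂ / 12) := by
    intro w hw
    have := hx (π w) fun e => hw ((phi_ne h h' hH w).1 e)
    rwa [mulPt_apply h h' hH, h'.x _ hw, h.x _ (hL w hw)] at this
  have h4 := (h1.fun_mul (h3 B)).congr_of_eventuallyEq
    (f₁ := fun z => A.eval (L.weierstrassP z - W.b₂ / 12))
    (Filter.eventually_of_mem ((isOpen_pre L' c).mem_nhds hz) fun w hw => (hev w hw).symm)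
  have h5 := h4.unique (h3 A)
  have h6 := hev z hz
  rw [mulPt_apply h h' hH, h'.Y _ hz, h.x _ (hL z hz), h.Y _ (hL z hz)]
  simp only [Wr, eval_sub, eval_mul]
  linear_combination B.eval (L.weierstrassP z - W.b₂ / 12) * h5 -
    (derivative B).eval (L.weierstrassP z - W.b₂ / 12) * L.derivWeierstrassP z * h6

end

end VeluP

open VeluP in
theorem velu : S_Velu := by
  intro W W' L L' π π' c h h' hc hH
  have := h.infinite
  obtain ⟨T, hT⟩ : ∃ T : Finset (Pt W), ∀ Q, Q ∈ T ↔ mulPt π π' c Q = 0 :=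
    ⟨(ker_finite h h' hc hH).toFinset, fun Q => by simp⟩
  obtain ⟨κ, hκ⟩ := trace h h' hc hH hT
  have h0 : (0 : Pt W) ∈ T := (hT 0).2 (map_zero _)
  obtain ⟨A, hm, hd, hA⟩ := exists_num h0
    (fun Q hQ => (hT _).2 (by rw [map_neg, (hT Q).1 hQ, neg_zero])) κ
  have hx : ∀ P, mulPt π π' c P ≠ 0 → px (mulPt π π' c P) *
      (C (c ^ 2) * ∏ Q ∈ T.erase 0, (X - C (px Q))).eval (px P) = A.eval (px P) := by
    intro P hP
    rw [← hA P fun Q hQ e => hP (by
      have := congrArg (mulPt π π' c) e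
      rwa [map_add, (hT Q).1 hQ, add_zero, map_zero] at this), ← hκ P hP, eval_mul, eval_C]
    ring
  have hB : (C (c ^ 2) * ∏ Q ∈ T.erase 0, (X - C (px Q))).natDegree < A.natDegree := by
    refine (natDegree_C_mul_le _ _).trans_lt ?_
    rw [natDegree_prod_of_monic _ _ fun R _ => monic_X_sub_C _, hd]
    simp only [natDegree_X_sub_C, Finset.sum_const, smul_eq_mul, mul_one]
    exact Finset.card_erase_lt_of_mem h0
  have hp := prod_all h h' hc hH hT (fun P hP => prod_gen hT hm hd hB hx hP)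
  have hY := yrel h h' hH hx
  exact ⟨T, A, _, hc, hT, rfl, hm, hd, cop_of_prod hT hp, hp, hY, ode_of_Yrel hT hx hY⟩

end Pool.Agent.P.MP_94fe55_nt
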